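import Pool.Agent.HAS.Bessel

/-!
# Derivatives of `J₀`, `J₁` (module Bes1)

Termwise differentiation of the two power series, with the bounds `C ^ k / k!` on balls, and a
shift of the index.
-/

set_option autoImplicit false

namespace Pool.Agent.HAS

theorem J0_zero : J0 0 = 1 := by
  unfold J0
  rw [tsum_eq_single 0]
  · simp
  · intro k hk
    have h : (2 * k) ≠ 0 := by omega
    rw [zero_div, zero_pow h, mul_zero, zero_div]

theorem J1_zero : J1 0 = 0 := by
  unfold J1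
  have h : ∀ k : ℕ, (-1 : ℝ) ^ k * ((0 : ℝ) / 2) ^ (2 * k + 1) /
      ((k.factorial : ℝ) * ((k + 1).factorial : ℝ)) = 0 := by
    intro k
    rw [zero_div, zero_pow (by omega), mul_zero, zero_div]
  simp only [h, tsum_zero]

private theorem pow_bd {R x : ℝ} (hx : x ∈ Metric.ball (0 : ℝ) R) (m : ℕ) :
    |(x / 2) ^ m| ≤ (R / 2) ^ m := by
  rw [abs_pow]
  have h : |x| < R := by
    rw [Metric.mem_ball, dist_zero_right, Real.norm_eq_abs] at hx
    exact hx
  have h2 : |x / 2| ≤ R / 2 := by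
    rw [abs_div, abs_of_pos (by norm_num : (0 : ℝ) < 2)]
    linarith
  exact pow_le_pow_left₀ (abs_nonneg _) h2 m

private theorem fact_pos (k : ℕ) : (0 : ℝ) < (k.factorial : ℝ) := by
  exact_mod_cast Nat.factorial_pos k

private theorem one_le_fact (k : ℕ) : (1 : ℝ) ≤ (k.factorial : ℝ) := by
  exact_mod_cast Nat.factorial_pos k

private theorem fact_succ (k : ℕ) :
    ((k + 1).factorial : ℝ) = ((k : ℝ) + 1) * (k.factorial : ℝ) := by
  rw [Nat.factorial_succ]
  push_cast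
  ring

private theorem mem_bd (x : ℝ) : x ∈ Metric.ball (0 : ℝ) (|x| + 2) := by
  rw [Metric.mem_ball, dist_zero_right, Real.norm_eq_abs]
  linarith

private theorem sum_bd (R : ℝ) : Summable fun k : ℕ => ((R / 2) ^ 2) ^ k / (k.factorial : ℝ) :=
  Real.summable_pow_div_factorial _

/-- bound of a general term `c * (x / 2) ^ m / (k! * d)` with `|c| ≤ C` and `1 ≤ d` -/
private theorem term_bd {R x C c d : ℝ} (hx : x ∈ Metric.ball (0 : ℝ) R) (k m : ℕ) (hd : 1 ≤ d)
    (hc : |c| ≤ C) (hm : (R / 2) ^ m ≤ (R / 2) ^ (2 * k) * (R / 2 + 1) ^ 2) (hR : 0 ≤ R) :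
    |c * (x / 2) ^ m / ((k.factorial : ℝ) * d)| ≤
      C * (R / 2 + 1) ^ 2 * (((R / 2) ^ 2) ^ k / (k.factorial : ℝ)) := by
  have hk := fact_pos k
  have hC : 0 ≤ C := (abs_nonneg c).trans hc
  have hd0 : 0 < d := by linarith
  rw [abs_div, abs_mul, abs_of_pos (mul_pos hk hd0), ← pow_mul, div_le_iff₀ (mul_pos hk hd0)]
  have e : C * (R / 2 + 1) ^ 2 * ((R / 2) ^ (2 * k) / (k.factorial : ℝ)) *
      ((k.factorial : ℝ) * d) = C * ((R / 2) ^ (2 * k) * (R / 2 + 1) ^ 2) * d := by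
    field_simp
  rw [e]
  have h1 : |c| * |(x / 2) ^ m| ≤ C * ((R / 2) ^ (2 * k) * (R / 2 + 1) ^ 2) :=
    mul_le_mul hc ((pow_bd hx m).trans hm) (abs_nonneg _) hC
  have h2 : 0 ≤ C * ((R / 2) ^ (2 * k) * (R / 2 + 1) ^ 2) := by positivity
  nlinarith

private theorem pow_hm0 {R : ℝ} (hR : 2 ≤ R) (k : ℕ) :
    (R / 2) ^ (2 * k) ≤ (R / 2) ^ (2 * k) * (R / 2 + 1) ^ 2 := by
  have h : 1 ≤ (R / 2 + 1) ^ 2 := by nlinarith
  have h2 : 0 ≤ (R / 2) ^ (2 * k) := by positivity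
  nlinarith

private theorem pow_hm1 {R : ℝ} (hR : 2 ≤ R) (k : ℕ) :
    (R / 2) ^ (2 * k + 1) ≤ (R / 2) ^ (2 * k) * (R / 2 + 1) ^ 2 := by
  rw [pow_succ]
  have h2 : 0 ≤ (R / 2) ^ (2 * k) := by positivity
  refine mul_le_mul_of_nonneg_left ?_ h2
  nlinarith

private theorem pow_hm' {R : ℝ} (hR : 2 ≤ R) (k : ℕ) :
    (R / 2) ^ (2 * k - 1) ≤ (R / 2) ^ (2 * k) * (R / 2 + 1) ^ 2 := by
  refine le_trans ?_ (pow_hm0 hR k)
  exact pow_le_pow_right₀ (by linarith) (by omega)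

private theorem abs_neg_one_pow (k : ℕ) : |(-1 : ℝ) ^ k| = 1 := by
  rw [abs_pow, abs_neg, abs_one, one_pow]

private theorem summ0 (x : ℝ) :
    Summable fun k : ℕ => (-1 : ℝ) ^ k * (x / 2) ^ (2 * k) /
      ((k.factorial : ℝ) * (k.factorial : ℝ)) := by
  refine Summable.of_norm_bounded ((sum_bd (|x| + 2)).mul_left
    (1 * ((|x| + 2) / 2 + 1) ^ 2)) fun k => ?_
  rw [Real.norm_eq_abs]
  exact term_bd (mem_bd x) k (2 * k) (one_le_fact k) (abs_neg_one_pow k).le
    (pow_hm0 (by linarith [abs_nonneg x]) k) (by positivity)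

private theorem summ1 (x : ℝ) :
    Summable fun k : ℕ => (-1 : ℝ) ^ k * (x / 2) ^ (2 * k + 1) /
      ((k.factorial : ℝ) * ((k + 1).factorial : ℝ)) := by
  refine Summable.of_norm_bounded ((sum_bd (|x| + 2)).mul_left
    (1 * ((|x| + 2) / 2 + 1) ^ 2)) fun k => ?_
  rw [Real.norm_eq_abs]
  exact term_bd (mem_bd x) k (2 * k + 1) (one_le_fact (k + 1)) (abs_neg_one_pow k).le
    (pow_hm1 (by linarith [abs_nonneg x]) k) (by positivity)

/-- the termwise derivative of `J0` -/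
private theorem J0_deriv_aux (x : ℝ) : HasDerivAt J0
    (∑' k : ℕ, (-1 : ℝ) ^ k * (k : ℝ) * (x / 2) ^ (2 * k - 1) /
      ((k.factorial : ℝ) * (k.factorial : ℝ))) x := by
  have hR : (2 : ℝ) ≤ |x| + 2 := by linarith [abs_nonneg x]
  unfold J0
  refine hasDerivAt_tsum_of_isPreconnected
    (t := Metric.ball (0 : ℝ) (|x| + 2)) (y₀ := x)
    (u := fun k => 1 * ((|x| + 2) / 2 + 1) ^ 2 *
      ((((|x| + 2) / 2) ^ 2) ^ k / (k.factorial : ℝ)))
    ((sum_bd (|x| + 2)).mul_left _) Metric.isOpen_ball (convex_ball _ _).isPreconnected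
    (g := fun (k : ℕ) (y : ℝ) => (-1 : ℝ) ^ k * (y / 2) ^ (2 * k) /
      ((k.factorial : ℝ) * (k.factorial : ℝ)))
    (g' := fun (k : ℕ) (y : ℝ) => (-1 : ℝ) ^ k * (k : ℝ) * (y / 2) ^ (2 * k - 1) /
      ((k.factorial : ℝ) * (k.factorial : ℝ))) ?_ ?_ (mem_bd x) (summ0 x) (mem_bd x)
  · intro k y _
    have h1 : HasDerivAt (fun y : ℝ => y / 2) (1 / 2) y := (hasDerivAt_id y).div_const 2
    have h2 := (h1.pow (2 * k)).const_mul ((-1 : ℝ) ^ k)
    have h3 := h2.div_const ((k.factorial : ℝ) * (k.factorial : ℝ))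
    refine h3.congr_deriv ?_
    push_cast
    ring
  · intro k y hy
    rw [Real.norm_eq_abs]
    have hk := fact_pos k
    by_cases h0 : k = 0
    · subst h0
      simp only [Nat.cast_zero, mul_zero, zero_mul, zero_div, abs_zero]
      positivity
    · have hk0 : (0 : ℝ) < (k : ℝ) := by exact_mod_cast Nat.pos_of_ne_zero h0
      have hle : (k : ℝ) ≤ (k.factorial : ℝ) := by exact_mod_cast Nat.self_le_factorial k
      have e : (-1 : ℝ) ^ k * (k : ℝ) * (y / 2) ^ (2 * k - 1) /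
          ((k.factorial : ℝ) * (k.factorial : ℝ)) = (-1 : ℝ) ^ k * (y / 2) ^ (2 * k - 1) /
          ((k.factorial : ℝ) * ((k.factorial : ℝ) / (k : ℝ))) := by
        field_simp
      rw [e]
      exact term_bd hy k (2 * k - 1) ((one_le_div hk0).2 hle) (abs_neg_one_pow k).le
        (pow_hm' hR k) (by positivity)

theorem J0_hasDerivAt (x : ℝ) : HasDerivAt J0 (-J1 x) x := by
  refine (J0_deriv_aux x).congr_deriv ?_
  have hR : (2 : ℝ) ≤ |x| + 2 := by linarith [abs_nonneg x]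
  have hs : Summable fun k : ℕ => (-1 : ℝ) ^ k * (k : ℝ) * (x / 2) ^ (2 * k - 1) /
      ((k.factorial : ℝ) * (k.factorial : ℝ)) := by
    rw [← summable_nat_add_iff 1]
    refine (summ1 x).neg.congr fun k => ?_
    rw [fact_succ, show 2 * (k + 1) - 1 = 2 * k + 1 by omega, pow_succ (-1 : ℝ) k]
    push_cast
    have hk := fact_pos k
    field_simp
  rw [hs.tsum_eq_zero_add]
  unfold J1
  rw [← tsum_neg]
  simp only [Nat.cast_zero, mul_zero, zero_mul, zero_div, zero_add]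
  refine tsum_congr fun k => ?_
  rw [fact_succ, show 2 * (k + 1) - 1 = 2 * k + 1 by omega, pow_succ (-1 : ℝ) k]
  push_cast
  have hk := fact_pos k
  field_simp

theorem mul_J1_hasDerivAt (x : ℝ) : HasDerivAt (fun x => x * J1 x) (x * J0 x) x := by
  have hR : (2 : ℝ) ≤ |x| + 2 := by linarith [abs_nonneg x]
  unfold J1 J0
  simp only [← tsum_mul_left]
  refine hasDerivAt_tsum_of_isPreconnected
    (t := Metric.ball (0 : ℝ) (|x| + 2)) (y₀ := x)
    (u := fun k => (|x| + 2) * ((|x| + 2) / 2 + 1) ^ 2 *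
      ((((|x| + 2) / 2) ^ 2) ^ k / (k.factorial : ℝ)))
    ((sum_bd (|x| + 2)).mul_left _) Metric.isOpen_ball (convex_ball _ _).isPreconnected
    (g := fun (k : ℕ) (y : ℝ) => y * ((-1 : ℝ) ^ k * (y / 2) ^ (2 * k + 1) /
      ((k.factorial : ℝ) * ((k + 1).factorial : ℝ))))
    (g' := fun (k : ℕ) (y : ℝ) => y * ((-1 : ℝ) ^ k * (y / 2) ^ (2 * k) /
      ((k.factorial : ℝ) * (k.factorial : ℝ)))) ?_ ?_ (mem_bd x)
      ((summ1 x).mul_left x) (mem_bd x)
  · intro k y _
    have h1 : HasDerivAt (fun y : ℝ => y / 2) (1 / 2) y := (hasDerivAt_id y).div_const 2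
    have h2 := (h1.pow (2 * k + 2)).const_mul (2 * (-1 : ℝ) ^ k)
    have h3 := h2.div_const ((k.factorial : ℝ) * ((k + 1).factorial : ℝ))
    have e : (fun y : ℝ => y * ((-1 : ℝ) ^ k * (y / 2) ^ (2 * k + 1) /
        ((k.factorial : ℝ) * ((k + 1).factorial : ℝ)))) =
        fun y : ℝ => 2 * (-1 : ℝ) ^ k * (y / 2) ^ (2 * k + 2) /
        ((k.factorial : ℝ) * ((k + 1).factorial : ℝ)) := by
      funext y
      ring
    rw [e]
    refine h3.congr_deriv ?_
    rw [fact_succ, show 2 * k + 2 - 1 = 2 * k + 1 by omega, pow_succ (y / 2) (2 * k)]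
    push_cast
    have hk := fact_pos k
    field_simp
  · intro k y hy
    rw [Real.norm_eq_abs]
    have e : y * ((-1 : ℝ) ^ k * (y / 2) ^ (2 * k) /
        ((k.factorial : ℝ) * (k.factorial : ℝ))) = (y * (-1 : ℝ) ^ k) * (y / 2) ^ (2 * k) /
        ((k.factorial : ℝ) * (k.factorial : ℝ)) := by ring
    rw [e]
    refine term_bd hy k (2 * k) (one_le_fact k) ?_ (pow_hm0 hR k) (by positivity)
    rw [abs_mul, abs_neg_one_pow, mul_one]
    rw [Metric.mem_ball, dist_zero_right, Real.norm_eq_abs] at hy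
    exact hy.le

theorem J1_hasDerivAt (x : ℝ) (hx : x ≠ 0) : HasDerivAt J1 (J0 x - J1 x / x) x := by
  have h1 := (mul_J1_hasDerivAt x).div (hasDerivAt_id x) hx
  have h2 : HasDerivAt J1 ((x * J0 x * id x - x * J1 x * 1) / id x ^ 2) x := by
    refine h1.congr_of_eventuallyEq ?_
    filter_upwards [isOpen_ne.mem_nhds hx] with y hy
    have hy' : y ≠ 0 := hy
    show J1 y = y * J1 y / id y
    simp only [id]
    field_simp
  refine h2.congr_deriv ?_
  simp only [id]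
  field_simp

theorem J0_continuous : Continuous J0 :=
  continuous_iff_continuousAt.2 fun x => (J0_hasDerivAt x).continuousAt

theorem J1_continuous : Continuous J1 := by
  rw [continuous_iff_continuousAt]
  intro x
  have hR : (2 : ℝ) ≤ |x| + 2 := by linarith [abs_nonneg x]
  have h : ContinuousOn J1 (Metric.ball (0 : ℝ) (|x| + 2)) := by
    unfold J1
    refine continuousOn_tsum (u := fun k => 1 * ((|x| + 2) / 2 + 1) ^ 2 *
      ((((|x| + 2) / 2) ^ 2) ^ k / (k.factorial : ℝ))) (fun k => ?_)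
      ((sum_bd (|x| + 2)).mul_left _) fun k y hy => ?_
    · fun_prop
    · rw [Real.norm_eq_abs]
      exact term_bd hy k (2 * k + 1) (one_le_fact (k + 1)) (abs_neg_one_pow k).le
        (pow_hm1 hR k) (by positivity)
  exact h.continuousAt (Metric.isOpen_ball.mem_nhds (mem_bd x))

end Pool.Agent.HAS
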