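import Pool.Agent.HAS.Bes1

/-!
# Bounds for `J₀`, `J₁` (module Bes2)

PLAN.  With `q = x^2/4`: `J₀ = ∑ (-1)^k q^k/(k!)^2`, `J₁ = (x/2) ∑ (-1)^k q^k/(k!(k+1)!)`.
For `0 ≤ q ≤ 1` the terms decrease in absolute value, so partial sums are alternately upper and lower
bounds (`Antitone.alternating_series_le_tendsto`, `Antitone.tendsto_le_alternating_series`), see the
general lemmas in Mathlib `Analysis/Normed/.../Alternating`).
* `J0_ge`: two terms.  `J0_bounds`: five / six terms.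
* `J1_pos`: `J₁ ≥ (x/2)(1 - q/2) > 0`.
* `J1_mono`: on `(0, √(8/3))`, `J₁' = J₀ - J₁/x = (1/2) ∑ (-1)^k (2k+1) q^k/(k!(k+1)!)`, and for
  `q ≤ 2/3`: `≥ (1/2)(1 - (3/2) q + (5/12) q^2 - (7/144) q^3) ≥ 0` (alternating from `k = 1` on;
  or combine the bounds `J0_bounds`, `J1_bounds`).  Then `monotoneOn_of_deriv_nonneg` on the convex
  set `Icc 0 (√(8/3))`.
-/

set_option autoImplicit false

namespace Pool.Agent.HAS

private noncomputable def f0 (q : ℝ) (k : ℕ) : ℝ := q ^ k / ((k.factorial : ℝ) * (k.factorial : ℝ))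

private noncomputable def f1 (q : ℝ) (k : ℕ) : ℝ := q ^ k / ((k.factorial : ℝ) * ((k + 1).factorial : ℝ))

private theorem fac1 (k : ℕ) : (1 : ℝ) ≤ (k.factorial : ℝ) := by
  exact_mod_cast Nat.one_le_iff_ne_zero.2 (Nat.factorial_ne_zero k)

private theorem fac2 (k : ℕ) : (k.factorial : ℝ) ≤ ((k + 1).factorial : ℝ) := by
  exact_mod_cast Nat.factorial_le (Nat.le_succ k)

private theorem f0_anti {q : ℝ} (h0 : 0 ≤ q) (h1 : q ≤ 1) : Antitone (f0 q) := by
  refine antitone_nat_of_succ_le fun k => ?_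
  unfold f0
  have a := fac1 k
  have b := fac2 k
  have c : q ^ (k + 1) ≤ q ^ k := pow_le_pow_of_le_one h0 h1 (Nat.le_succ k)
  exact div_le_div₀ (pow_nonneg h0 k) c (by positivity) (mul_le_mul b b (by positivity) (by positivity))

private theorem f1_anti {q : ℝ} (h0 : 0 ≤ q) (h1 : q ≤ 1) : Antitone (f1 q) := by
  refine antitone_nat_of_succ_le fun k => ?_
  unfold f1
  have a := fac1 k
  have b := fac2 k
  have b' := fac2 (k + 1)
  have c : q ^ (k + 1) ≤ q ^ k := pow_le_pow_of_le_one h0 h1 (Nat.le_succ k)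
  exact div_le_div₀ (pow_nonneg h0 k) c (by positivity) (mul_le_mul b b' (by positivity) (by positivity))

private theorem f0_sum {q : ℝ} (h0 : 0 ≤ q) : Summable (f0 q) := by
  refine Summable.of_nonneg_of_le (fun k => ?_) (fun k => ?_) (Real.summable_pow_div_factorial q)
  · unfold f0
    positivity
  · unfold f0
    have a := fac1 k
    exact div_le_div_of_nonneg_left (pow_nonneg h0 k) (by positivity) (by nlinarith)

private theorem f1_sum {q : ℝ} (h0 : 0 ≤ q) : Summable (f1 q) := by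
  refine Summable.of_nonneg_of_le (fun k => ?_) (fun k => ?_) (Real.summable_pow_div_factorial q)
  · unfold f1
    positivity
  · unfold f1
    have a := fac1 k
    have b := fac1 (k + 1)
    exact div_le_div_of_nonneg_left (pow_nonneg h0 k) (by positivity) (by nlinarith)

private theorem J0_eq (x : ℝ) : J0 x = ∑' k : ℕ, (-1) ^ k * f0 (x ^ 2 / 4) k := by
  unfold J0
  refine tsum_congr fun k => ?_
  unfold f0
  have e : (x / 2) ^ (2 * k) = (x ^ 2 / 4) ^ k := by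
    rw [pow_mul]
    congr 1
    ring
  rw [e, mul_div_assoc]

private theorem J1_eq (x : ℝ) : J1 x = x / 2 * ∑' k : ℕ, (-1) ^ k * f1 (x ^ 2 / 4) k := by
  unfold J1
  rw [← tsum_mul_left]
  refine tsum_congr fun k => ?_
  unfold f1
  have e : (x / 2) ^ (2 * k + 1) = (x ^ 2 / 4) ^ k * (x / 2) := by
    rw [pow_succ, pow_mul]
    congr 2
    ring
  rw [e]
  ring

private theorem J0_lo (x : ℝ) (hx : x ^ 2 / 4 ≤ 1) (k : ℕ) :
    ∑ i ∈ Finset.range (2 * k), (-1) ^ i * f0 (x ^ 2 / 4) i ≤ J0 x := by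
  have h0 : 0 ≤ x ^ 2 / 4 := by positivity
  rw [J0_eq]
  exact (f0_anti h0 hx).alternating_series_le_tendsto (f0_sum h0).tendsto_alternating_series_tsum k

private theorem J0_hi (x : ℝ) (hx : x ^ 2 / 4 ≤ 1) (k : ℕ) :
    J0 x ≤ ∑ i ∈ Finset.range (2 * k + 1), (-1) ^ i * f0 (x ^ 2 / 4) i := by
  have h0 : 0 ≤ x ^ 2 / 4 := by positivity
  rw [J0_eq]
  exact (f0_anti h0 hx).tendsto_le_alternating_series (f0_sum h0).tendsto_alternating_series_tsum k

private theorem J1_lo (x : ℝ) (hx0 : 0 ≤ x) (hx : x ^ 2 / 4 ≤ 1) (k : ℕ) :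
    x / 2 * ∑ i ∈ Finset.range (2 * k), (-1) ^ i * f1 (x ^ 2 / 4) i ≤ J1 x := by
  have h0 : 0 ≤ x ^ 2 / 4 := by positivity
  rw [J1_eq]
  exact mul_le_mul_of_nonneg_left ((f1_anti h0 hx).alternating_series_le_tendsto
    (f1_sum h0).tendsto_alternating_series_tsum k) (by positivity)

private theorem J1_hi (x : ℝ) (hx0 : 0 ≤ x) (hx : x ^ 2 / 4 ≤ 1) (k : ℕ) :
    J1 x ≤ x / 2 * ∑ i ∈ Finset.range (2 * k + 1), (-1) ^ i * f1 (x ^ 2 / 4) i := by
  have h0 : 0 ≤ x ^ 2 / 4 := by positivity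
  rw [J1_eq]
  exact mul_le_mul_of_nonneg_left ((f1_anti h0 hx).tendsto_le_alternating_series
    (f1_sum h0).tendsto_alternating_series_tsum k) (by positivity)

theorem J0_ge (x : ℝ) (hx : x ^ 2 ≤ 4) : 1 - x ^ 2 / 4 ≤ J0 x := by
  have h := J0_lo x (by linarith) 1
  norm_num [Finset.sum_range_succ, f0, Nat.factorial] at h
  linarith

/-- partial sums with 4, 5 terms bound `J₀` -/
theorem J0_bounds (x q : ℝ) (hq : q = x ^ 2 / 4) (hx : q ≤ 1) :
    1 - q + q ^ 2 / 4 - q ^ 3 / 36 + q ^ 4 / 576 - q ^ 5 / 14400 ≤ J0 x ∧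
    J0 x ≤ 1 - q + q ^ 2 / 4 - q ^ 3 / 36 + q ^ 4 / 576 := by
  have h := J0_lo x (by linarith) 3
  have h' := J0_hi x (by linarith) 2
  rw [← hq] at h h'
  norm_num [Finset.sum_range_succ, f0, Nat.factorial] at h h'
  constructor <;> linarith

/-- partial sums bound `J₁` -/
theorem J1_bounds (x q : ℝ) (hq : q = x ^ 2 / 4) (hx : q ≤ 1) (hx0 : 0 ≤ x) :
    x / 2 * (1 - q / 2 + q ^ 2 / 12 - q ^ 3 / 144 + q ^ 4 / 2880 - q ^ 5 / 86400) ≤ J1 x ∧
    J1 x ≤ x / 2 * (1 - q / 2 + q ^ 2 / 12 - q ^ 3 / 144 + q ^ 4 / 2880) := by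
  have h := J1_lo x hx0 (by linarith) 3
  have h' := J1_hi x hx0 (by linarith) 2
  rw [← hq] at h h'
  have e : ∑ i ∈ Finset.range (2 * 3), (-1) ^ i * f1 q i =
      1 - q / 2 + q ^ 2 / 12 - q ^ 3 / 144 + q ^ 4 / 2880 - q ^ 5 / 86400 := by
    norm_num [Finset.sum_range_succ, f1, Nat.factorial]
    ring
  have e' : ∑ i ∈ Finset.range (2 * 2 + 1), (-1) ^ i * f1 q i =
      1 - q / 2 + q ^ 2 / 12 - q ^ 3 / 144 + q ^ 4 / 2880 := by
    norm_num [Finset.sum_range_succ, f1, Nat.factorial]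
    ring
  rw [e] at h
  rw [e'] at h'
  exact ⟨h, h'⟩

theorem J1_pos (x : ℝ) (hx0 : 0 < x) (hx : x ^ 2 ≤ 4) : 0 < J1 x := by
  have h := J1_lo x hx0.le (by linarith) 1
  have e : ∑ i ∈ Finset.range (2 * 1), (-1) ^ i * f1 (x ^ 2 / 4) i = 1 - x ^ 2 / 4 / 2 := by
    norm_num [Finset.sum_range_succ, f1, Nat.factorial]
    ring
  rw [e] at h
  have h2 : 0 < x / 2 * (1 - x ^ 2 / 4 / 2) := mul_pos (by linarith) (by linarith)
  linarith

theorem J1_mono : MonotoneOn J1 {x | 0 ≤ x ∧ x ^ 2 ≤ 8 / 3} := by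
  have hset : {x : ℝ | 0 ≤ x ∧ x ^ 2 ≤ 8 / 3} = Set.Icc 0 (Real.sqrt (8 / 3)) := by
    ext x
    constructor
    · rintro ⟨h0, h1⟩
      exact ⟨h0, Real.le_sqrt_of_sq_le h1⟩
    · rintro ⟨h0, h1⟩
      refine ⟨h0, ?_⟩
      have h2 := Real.sq_sqrt (show (0 : ℝ) ≤ 8 / 3 by norm_num)
      have h3 := Real.sqrt_nonneg (8 / 3 : ℝ)
      nlinarith
  rw [hset]
  refine monotoneOn_of_deriv_nonneg (convex_Icc _ _) J1_continuous.continuousOn ?_ ?_
  · intro x hx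
    rw [interior_Icc] at hx
    exact (J1_hasDerivAt x hx.1.ne').differentiableAt.differentiableWithinAt
  · intro x hx
    rw [interior_Icc] at hx
    rw [(J1_hasDerivAt x hx.1.ne').deriv]
    have hx0 : 0 < x := hx.1
    have hx1 : x ^ 2 ≤ 8 / 3 := by
      have h2 := Real.sq_sqrt (show (0 : ℝ) ≤ 8 / 3 by norm_num)
      have h3 := Real.sqrt_nonneg (8 / 3 : ℝ)
      have h4 := hx.2
      nlinarith
    obtain ⟨q, hq⟩ : ∃ q, q = x ^ 2 / 4 := ⟨_, rfl⟩
    have hq0 : 0 ≤ q := by rw [hq]; positivity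
    have hq1 : q ≤ 2 / 3 := by linarith
    have a := (J0_bounds x q hq (by linarith)).1
    have b := (J1_bounds x q hq (by linarith) hx0.le).2
    have c : J1 x / x ≤ 1 / 2 * (1 - q / 2 + q ^ 2 / 12 - q ^ 3 / 144 + q ^ 4 / 2880) := by
      rw [div_le_iff₀ hx0]
      linarith
    have d : 0 ≤ 1 - q + q ^ 2 / 4 - q ^ 3 / 36 + q ^ 4 / 576 - q ^ 5 / 14400 -
        1 / 2 * (1 - q / 2 + q ^ 2 / 12 - q ^ 3 / 144 + q ^ 4 / 2880) := by
      have e : 1 - q + q ^ 2 / 4 - q ^ 3 / 36 + q ^ 4 / 576 - q ^ 5 / 14400 -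
        1 / 2 * (1 - q / 2 + q ^ 2 / 12 - q ^ 3 / 144 + q ^ 4 / 2880) =
        3 / 4 * (2 / 3 - q) + q ^ 2 * (5 / 24 - 7 / 288 * q) + q ^ 4 * (1 / 640 - q / 14400) := by
        ring
      rw [e]
      have e1 : 0 ≤ q ^ 2 * (5 / 24 - 7 / 288 * q) := mul_nonneg (by positivity) (by linarith)
      have e2 : 0 ≤ q ^ 4 * (1 / 640 - q / 14400) := mul_nonneg (by positivity) (by linarith)
      linarith
    linarith

end Pool.Agent.HAS
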