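import Pool.Agent.HAS.Bes2

/-!
# Existence of the parameters (module BesT)

Put `μ(T) = 6/(T(4-3T))`, `f(T) = J₀(√μ (1-T)) - √μ T J₁(√μ (1-T))`, continuous on
`[0.3522, 0.3524]`.  With `x = √μ (1-T)`, `q = x^2/4 = μ(1-T)^2/4` (rational!) and
`√μ T · x/2 = μ T (1-T)/2` (rational), `Bes2.J0_bounds`, `J1_bounds` give
`f(0.3522) ≤ (upper bound of J₀) - μT(1-T)/2 (lower bound of the bracket of J₁) < 0` (value
`-0.00011`) and `f(0.3524) > 0` (value `+0.00021`) by `norm_num`.  Intermediate value theorem.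
-/

set_option autoImplicit false

namespace Pool.Agent.HAS

/-- upper bound for the difference in the matching equation -/
private theorem up {T m : ℝ} (hm : 0 ≤ m) (h0 : 0 ≤ T) (h1 : T ≤ 1) (hq : m * (1 - T) ^ 2 / 4 ≤ 1) :
    J0 (Real.sqrt m * (1 - T)) - Real.sqrt m * T * J1 (Real.sqrt m * (1 - T)) ≤
      (1 - (m * (1 - T) ^ 2 / 4) + (m * (1 - T) ^ 2 / 4) ^ 2 / 4 - (m * (1 - T) ^ 2 / 4) ^ 3 / 36 +
        (m * (1 - T) ^ 2 / 4) ^ 4 / 576) -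
      m * T * (1 - T) / 2 * (1 - (m * (1 - T) ^ 2 / 4) / 2 + (m * (1 - T) ^ 2 / 4) ^ 2 / 12 -
        (m * (1 - T) ^ 2 / 4) ^ 3 / 144 + (m * (1 - T) ^ 2 / 4) ^ 4 / 2880 - (m * (1 - T) ^ 2 / 4) ^ 5 / 86400) := by
  have e : m * (1 - T) ^ 2 / 4 = (Real.sqrt m * (1 - T)) ^ 2 / 4 := by
    rw [mul_pow, Real.sq_sqrt hm]
  have hx0 : 0 ≤ Real.sqrt m * (1 - T) := mul_nonneg (Real.sqrt_nonneg _) (by linarith)
  have b0 := (J0_bounds _ _ e hq).2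
  have b1 := (J1_bounds _ _ e hq hx0).1
  have b2 := mul_le_mul_of_nonneg_left b1 (mul_nonneg (Real.sqrt_nonneg m) h0)
  have e2 : Real.sqrt m * T * (Real.sqrt m * (1 - T) / 2 * (1 - (m * (1 - T) ^ 2 / 4) / 2 + (m * (1 - T) ^ 2 / 4) ^ 2 / 12 -
        (m * (1 - T) ^ 2 / 4) ^ 3 / 144 + (m * (1 - T) ^ 2 / 4) ^ 4 / 2880 - (m * (1 - T) ^ 2 / 4) ^ 5 / 86400)) =
      m * T * (1 - T) / 2 * (1 - (m * (1 - T) ^ 2 / 4) / 2 + (m * (1 - T) ^ 2 / 4) ^ 2 / 12 -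
        (m * (1 - T) ^ 2 / 4) ^ 3 / 144 + (m * (1 - T) ^ 2 / 4) ^ 4 / 2880 - (m * (1 - T) ^ 2 / 4) ^ 5 / 86400) := by
    calc _ = (Real.sqrt m * Real.sqrt m) * (T * (1 - T) / 2) * (1 - (m * (1 - T) ^ 2 / 4) / 2 + (m * (1 - T) ^ 2 / 4) ^ 2 / 12 -
        (m * (1 - T) ^ 2 / 4) ^ 3 / 144 + (m * (1 - T) ^ 2 / 4) ^ 4 / 2880 - (m * (1 - T) ^ 2 / 4) ^ 5 / 86400) := by ring
      _ = _ := by rw [Real.mul_self_sqrt hm]; ring
  rw [e2] at b2
  linarith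

/-- lower bound for the difference in the matching equation -/
private theorem dn {T m : ℝ} (hm : 0 ≤ m) (h0 : 0 ≤ T) (h1 : T ≤ 1) (hq : m * (1 - T) ^ 2 / 4 ≤ 1) :
      (1 - (m * (1 - T) ^ 2 / 4) + (m * (1 - T) ^ 2 / 4) ^ 2 / 4 - (m * (1 - T) ^ 2 / 4) ^ 3 / 36 +
        (m * (1 - T) ^ 2 / 4) ^ 4 / 576 - (m * (1 - T) ^ 2 / 4) ^ 5 / 14400) -
      m * T * (1 - T) / 2 * (1 - (m * (1 - T) ^ 2 / 4) / 2 + (m * (1 - T) ^ 2 / 4) ^ 2 / 12 -
        (m * (1 - T) ^ 2 / 4) ^ 3 / 144 + (m * (1 - T) ^ 2 / 4) ^ 4 / 2880) ≤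
    J0 (Real.sqrt m * (1 - T)) - Real.sqrt m * T * J1 (Real.sqrt m * (1 - T)) := by
  have e : m * (1 - T) ^ 2 / 4 = (Real.sqrt m * (1 - T)) ^ 2 / 4 := by
    rw [mul_pow, Real.sq_sqrt hm]
  have hx0 : 0 ≤ Real.sqrt m * (1 - T) := mul_nonneg (Real.sqrt_nonneg _) (by linarith)
  have b0 := (J0_bounds _ _ e hq).1
  have b1 := (J1_bounds _ _ e hq hx0).2
  have b2 := mul_le_mul_of_nonneg_left b1 (mul_nonneg (Real.sqrt_nonneg m) h0)
  have e2 : Real.sqrt m * T * (Real.sqrt m * (1 - T) / 2 * (1 - (m * (1 - T) ^ 2 / 4) / 2 + (m * (1 - T) ^ 2 / 4) ^ 2 / 12 -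
        (m * (1 - T) ^ 2 / 4) ^ 3 / 144 + (m * (1 - T) ^ 2 / 4) ^ 4 / 2880)) =
      m * T * (1 - T) / 2 * (1 - (m * (1 - T) ^ 2 / 4) / 2 + (m * (1 - T) ^ 2 / 4) ^ 2 / 12 -
        (m * (1 - T) ^ 2 / 4) ^ 3 / 144 + (m * (1 - T) ^ 2 / 4) ^ 4 / 2880) := by
    calc _ = (Real.sqrt m * Real.sqrt m) * (T * (1 - T) / 2) * (1 - (m * (1 - T) ^ 2 / 4) / 2 + (m * (1 - T) ^ 2 / 4) ^ 2 / 12 -
        (m * (1 - T) ^ 2 / 4) ^ 3 / 144 + (m * (1 - T) ^ 2 / 4) ^ 4 / 2880) := by ring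
      _ = _ := by rw [Real.mul_self_sqrt hm]; ring
  rw [e2] at b2
  linarith

private theorem kap_mono {T T' : ℝ} (h0 : 0 < T) (h : T ≤ T') (h1 : T' ≤ 1 / 2) :
    6 / (T' * (4 - 3 * T')) ≤ 6 / (T * (4 - 3 * T)) := by
  have h2 : 0 < T * (4 - 3 * T) := mul_pos h0 (by linarith)
  have h3 : T * (4 - 3 * T) ≤ T' * (4 - 3 * T') := by nlinarith
  exact div_le_div_of_nonneg_left (by norm_num) h2 h3

private theorem kap_rng {T kap : ℝ} (hP : Par T kap) :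
    6 / ((3524 / 10000) * (4 - 3 * (3524 / 10000))) ≤ kap ∧
      kap ≤ 6 / ((3522 / 10000) * (4 - 3 * (3522 / 10000))) := by
  rw [hP.kap_eq]
  have h0 := hP.T0
  have h1 := hP.T1
  exact ⟨kap_mono (by linarith) h1 (by norm_num), kap_mono (by norm_num) h0 (by linarith)⟩

theorem exists_par : ∃ T : ℝ, Par T (6 / (T * (4 - 3 * T))) := by
  have hc : ContinuousOn (fun T : ℝ => J0 (Real.sqrt (6 / (T * (4 - 3 * T))) * (1 - T)) -
      Real.sqrt (6 / (T * (4 - 3 * T))) * T * J1 (Real.sqrt (6 / (T * (4 - 3 * T))) * (1 - T)))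
      (Set.Icc (3522 / 10000) (3524 / 10000)) := by
    have h1 : ContinuousOn (fun T : ℝ => Real.sqrt (6 / (T * (4 - 3 * T)))) (Set.Icc (3522 / 10000) (3524 / 10000)) := by
      refine ContinuousOn.sqrt (ContinuousOn.div (by fun_prop) (by fun_prop) ?_)
      intro T hT
      have h2 : 0 < T := by linarith [hT.1]
      have h3 : 0 < 4 - 3 * T := by linarith [hT.2]
      exact (mul_pos h2 h3).ne'
    have h2 : ContinuousOn (fun T : ℝ => Real.sqrt (6 / (T * (4 - 3 * T))) * (1 - T)) (Set.Icc (3522 / 10000) (3524 / 10000)) :=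
      h1.mul (by fun_prop)
    exact (J0_continuous.comp_continuousOn h2).sub ((h1.mul continuousOn_id).mul (J1_continuous.comp_continuousOn h2))
  have h0 := intermediate_value_Icc (by norm_num : (3522 / 10000 : ℝ) ≤ 3524 / 10000) hc
  have h1 : (0 : ℝ) ∈ (fun T : ℝ => J0 (Real.sqrt (6 / (T * (4 - 3 * T))) * (1 - T)) -
      Real.sqrt (6 / (T * (4 - 3 * T))) * T * J1 (Real.sqrt (6 / (T * (4 - 3 * T))) * (1 - T))) ''
      (Set.Icc (3522 / 10000) (3524 / 10000)) := by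
    apply h0
    constructor
    · refine le_trans (up (by norm_num) (by norm_num) (by norm_num) (by norm_num)) ?_
      norm_num
    · refine le_trans ?_ (dn (by norm_num) (by norm_num) (by norm_num) (by norm_num))
      norm_num
  obtain ⟨T, hT, h2⟩ := h1
  exact ⟨T, hT.1, hT.2, rfl, sub_eq_zero.1 h2⟩

/-- numerical value of the constant -/
theorem par_num {T kap : ℝ} (hP : Par T kap) :
    6.803 < 2 * Real.sqrt (2 * kap) ∧ 2 * Real.sqrt (2 * kap) < 6.805 := by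
  obtain ⟨h1, h2⟩ := kap_rng hP
  constructor
  · have h3 : (6803 / 2000 : ℝ) < Real.sqrt (2 * kap) := by
      rw [Real.lt_sqrt (by norm_num)]
      norm_num at h1 ⊢
      linarith
    linarith
  · have h3 : Real.sqrt (2 * kap) < (6805 / 2000 : ℝ) := by
      rw [Real.sqrt_lt' (by norm_num)]
      norm_num at h2 ⊢
      linarith
    linarith

theorem Par.kap_bounds {T kap : ℝ} (hP : Par T kap) : 578 / 100 < kap ∧ kap < 579 / 100 := by
  obtain ⟨h1, h2⟩ := kap_rng hP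
  norm_num at h1 h2
  constructor <;> linarith

end Pool.Agent.HAS
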