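import Mathlib

/-! # The Bessel functions `J₀` and `J₁` -/

set_option autoImplicit false

namespace Pool.Agent.HAS

/-- the Bessel function `J₀` -/
noncomputable def J0 (x : ℝ) : ℝ :=
  ∑' k : ℕ, (-1) ^ k * (x / 2) ^ (2 * k) / ((k.factorial : ℝ) * (k.factorial : ℝ))

/-- the Bessel function `J₁` -/
noncomputable def J1 (x : ℝ) : ℝ :=
  ∑' k : ℕ, (-1) ^ k * (x / 2) ^ (2 * k + 1) / ((k.factorial : ℝ) * ((k + 1).factorial : ℝ))

/-- the parameters of the one dimensional problem: `T` solves the matching equation and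
`kap = 6 / (T (4 - 3 T))` -/
structure Par (T kap : ℝ) : Prop where
  T0 : 3522 / 10000 ≤ T
  T1 : T ≤ 3524 / 10000
  kap_eq : kap = 6 / (T * (4 - 3 * T))
  bes : J0 (Real.sqrt kap * (1 - T)) = Real.sqrt kap * T * J1 (Real.sqrt kap * (1 - T))

end Pool.Agent.HAS
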