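import Pool.Agent.HAS.FibB

/-!
# Fibres of smooth bodies at the boundary of the shadow (module FibC)

PLAN.  `K = wulff h`, `h` smooth: `K` is strictly convex in the sense that for `w ≠ 0` the point of `K` with
`⟨x, w⟩ = h w` is unique (`SmoothSupp.eq_gradient`).  If `z ∈ frontier (sh1 K)` take a supporting line of the
compact convex set `sh1 K` at `z` (`v ≠ 0`, `⟨z', v⟩ ≤ ⟨z, v⟩` on `sh1 K`); every `mk z x ∈ K` has
`⟨mk z x, mk v 0⟩ = ⟨z,v⟩ = max_K = h (mk v 0)` so `fib K z = {x0}`, `gf K θ z = ⟨x0, ee θ⟩` and `cf K z = 0`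
(`∫ cos = ∫ sin = 0`).  Continuity on `sh1 K`: at interior points from concavity
(`ConcaveOn.continuousOn_interior`), at a frontier point `z`: upper semicontinuity of `gf K θ` (compactness of
`K`: a sequence `z_n → z` with maximisers `x_n`, subsequence converges to a point of `fib K z`), uniformly bounded, so
`limsup cf(z_n) ≤ cf(z) = 0` (reverse Fatou / dominated convergence along subsequences) and `cf ≥ 0`.
-/

set_option autoImplicit false

namespace Pool.Agent.HAS

open MeasureTheory Metric Set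
open Pool.Agent.Helper85.Herm Pool.Agent.Helper85.Cap Pool.Agent.HVM

private theorem fc_ball {h : C2 → ℝ} (hs : SmoothSupp h) :
    ∃ r : ℝ, 0 < r ∧ closedBall (0 : C2) r ⊆ wulff h := by
  obtain ⟨w0, hw0, hmin⟩ := (isCompact_sphere (0 : C2) 1).exists_isMinOn
    (NormedSpace.sphere_nonempty.2 zero_le_one) hs.continuous.continuousOn
  have hw00 : w0 ≠ 0 := by
    rintro rfl
    rw [mem_sphere_zero_iff_norm, norm_zero] at hw0
    exact zero_ne_one hw0
  refine ⟨h w0, hs.pos w0 hw00, ?_⟩
  intro x hx w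
  rw [mem_closedBall_zero_iff] at hx
  by_cases hw : w = 0
  · rw [hw, inner_zero_right, hs.zero]
  · have hwn : 0 < ‖w‖ := norm_pos_iff.2 hw
    have h1 : h w = ‖w‖ * h (‖w‖⁻¹ • w) := by
      rw [← hs.homog ‖w‖ (‖w‖⁻¹ • w) hwn, smul_smul, mul_inv_cancel₀ hwn.ne', one_smul]
    have h2 : h w0 ≤ h (‖w‖⁻¹ • w) := by
      apply hmin
      rw [mem_sphere_zero_iff_norm, norm_smul, norm_inv, norm_norm, inv_mul_cancel₀ hwn.ne']
    calc (inner ℝ x w : ℝ) ≤ ‖x‖ * ‖w‖ := real_inner_le_norm x w
      _ ≤ h w0 * ‖w‖ := mul_le_mul_of_nonneg_right hx hwn.le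
      _ ≤ h w := by
          rw [h1, mul_comm]
          exact mul_le_mul_of_nonneg_left h2 hwn.le

private theorem fc_int {h : C2 → ℝ} (hs : SmoothSupp h) (K : Body) (hK : pts K = wulff h) :
    (interior (sh1 K)).Nonempty := by
  obtain ⟨r, hr, hb⟩ := fc_ball hs
  refine ⟨0, ?_⟩
  rw [mem_interior]
  refine ⟨ball 0 r, ?_, isOpen_ball, mem_ball_self hr⟩
  intro z hz
  rw [mem_ball_zero_iff] at hz
  refine ⟨mk z 0, ?_, p1_mk z 0⟩
  rw [hK]
  apply hb
  rw [mem_closedBall_zero_iff]
  have h1 := norm_sq_mk z 0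
  rw [norm_zero] at h1
  have h2 : ‖mk z 0‖ = ‖z‖ := by
    apply (sq_eq_sq₀ (norm_nonneg _) (norm_nonneg _)).1
    rw [h1]
    ring
  rw [h2]
  exact hz.le

/-- the fibre over a boundary point of the shadow is one point -/
private theorem fc_single {h : C2 → ℝ} (hs : SmoothSupp h) (K : Body) (hK : pts K = wulff h) (z : ℂ)
    (hz : z ∈ frontier (sh1 K)) : ∃ x0 : ℂ, fib K z = {x0} := by
  have hcl : IsClosed (sh1 K) := (sh1_compact K).isClosed
  have hzK : z ∈ sh1 K := hcl.frontier_subset hz
  obtain ⟨f, hf⟩ := geometric_hahn_banach_open_point (sh1_convex K).interior isOpen_interior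
    (show z ∉ interior (sh1 K) from hz.2)
  obtain ⟨v, hv⟩ : ∃ v : ℂ, ∀ a : ℂ, (inner ℝ a v : ℝ) = f a := by
    refine ⟨(InnerProductSpace.toDual ℝ ℂ).symm f, fun a => ?_⟩
    rw [real_inner_comm, InnerProductSpace.toDual_symm_apply]
  have hv0 : v ≠ 0 := by
    rintro rfl
    obtain ⟨a, ha⟩ := fc_int hs K hK
    have h1 := hf a ha
    rw [← hv, ← hv, inner_zero_right, inner_zero_right] at h1
    exact lt_irrefl _ h1
  have hle : ∀ a ∈ sh1 K, f a ≤ f z := by
    have h1 : IsClosed {a | f a ≤ f z} := isClosed_le f.continuous continuous_const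
    have h2 : closure (interior (sh1 K)) ⊆ {a | f a ≤ f z} :=
      closure_minimal (fun a ha => (hf a ha).le) h1
    rw [(sh1_convex K).closure_interior_eq_closure_of_nonempty_interior (fc_int hs K hK)] at h2
    intro a ha
    exact h2 (subset_closure ha)
  set w : C2 := mk v 0 with hw
  have hw0 : w ≠ 0 := by
    intro h0
    have h1 : p1 w = v := p1_mk v 0
    rw [h0] at h1
    apply hv0
    rw [← h1]
    simp [p1]
    rfl
  have hin : ∀ u : C2, (inner ℝ u w : ℝ) = f (p1 u) := by
    intro u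
    rw [← hv, hw]
    conv_lhs => rw [← mk_p u]
    rw [inner_mk, inner_zero_right, add_zero]
  have hhw : h w ≤ f z := by
    rw [← hs.gradient_inner hw0, hin]
    apply hle
    refine ⟨gradient h w, ?_, rfl⟩
    rw [hK]
    exact hs.gradient_mem hw0
  refine ⟨p2 (gradient h w), ?_⟩
  apply Set.Subset.antisymm
  · intro x hx
    rw [Set.mem_singleton_iff]
    have hx' : mk z x ∈ wulff h := by
      rw [← hK]
      exact hx
    have h1 : (inner ℝ (mk z x) w : ℝ) = h w := by
      apply le_antisymm (hx' w)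
      rw [hin, p1_mk]
      exact hhw
    rw [← hs.eq_gradient hw0 hx' h1, p2_mk]
  · rintro x rfl
    obtain ⟨x, hx⟩ := (fib_nonempty K z).2 hzK
    have hx' : mk z x ∈ wulff h := by
      rw [← hK]
      exact hx
    have h1 : (inner ℝ (mk z x) w : ℝ) = h w := by
      apply le_antisymm (hx' w)
      rw [hin, p1_mk]
      exact hhw
    rw [← hs.eq_gradient hw0 hx' h1, p2_mk]
    exact hx

private theorem fc_ee (x : ℂ) (θ : ℝ) :
    (inner ℝ x (ee θ) : ℝ) = x.re * Real.cos θ + x.im * Real.sin θ := by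
  rw [Complex.inner]
  simp [ee]
  ring

private theorem fc_integral (x : ℂ) : ∫ θ in (0 : ℝ)..(2 * Real.pi), (inner ℝ x (ee θ) : ℝ) = 0 := by
  simp only [fc_ee]
  rw [intervalIntegral.integral_add, intervalIntegral.integral_const_mul,
    intervalIntegral.integral_const_mul, integral_cos, integral_sin]
  · simp
  · exact (Real.continuous_cos.const_mul _).intervalIntegrable _ _
  · exact (Real.continuous_sin.const_mul _).intervalIntegrable _ _

theorem cf_frontier {h : C2 → ℝ} (hs : SmoothSupp h) (K : Body) (hK : pts K = wulff h) (z : ℂ)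
    (hz : z ∈ frontier (sh1 K)) : cf K z = 0 := by
  obtain ⟨x0, hx0⟩ := fc_single hs K hK z hz
  unfold cf
  have h1 : ∀ θ, gf K θ z = inner ℝ x0 (ee θ) := by
    intro θ
    unfold gf
    rw [hx0, Set.image_singleton, csSup_singleton]
  simp only [h1]
  rw [fc_integral, mul_zero]

theorem cf_continuousOn {h : C2 → ℝ} (hs : SmoothSupp h) (K : Body) (hK : pts K = wulff h) :
    ContinuousOn (cf K) (sh1 K) := by
  intro z hz
  by_cases hzi : z ∈ interior (sh1 K)
  · have h1 : ContinuousOn (cf K) (interior (sh1 K)) := (cf_concave K).continuousOn_interior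
    exact (h1.continuousAt (isOpen_interior.mem_nhds hzi)).continuousWithinAt
  · have hzf : z ∈ frontier (sh1 K) := ⟨subset_closure hz, hzi⟩
    obtain ⟨x0, hx0⟩ := fc_single hs K hK z hzf
    have hcz := cf_frontier hs K hK z hzf
    have hKc : IsCompact (pts K) := K.isCompact
    rw [Metric.continuousWithinAt_iff']
    intro ε hε
    rw [hcz]
    -- the fibres over the points near `z` are near `x0`
    have hcomp : IsCompact (p1 '' (pts K ∩ (p2 ⁻¹' (ball x0 (ε / 2))ᶜ))) := by
      apply IsCompact.image _ p1_cont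
      apply hKc.inter_right
      exact (isOpen_ball.isClosed_compl).preimage p2_cont
    have hznot : z ∉ p1 '' (pts K ∩ (p2 ⁻¹' (ball x0 (ε / 2))ᶜ)) := by
      rintro ⟨w, ⟨hw1, hw2⟩, hw3⟩
      have h1 : p2 w ∈ fib K z := by
        unfold fib
        rw [Set.mem_ofPred_eq, ← hw3, mk_p]
        exact hw1
      rw [hx0, Set.mem_singleton_iff] at h1
      apply hw2
      rw [h1]
      exact mem_ball_self (by positivity)
    have hU : (p1 '' (pts K ∩ (p2 ⁻¹' (ball x0 (ε / 2))ᶜ)))ᶜ ∈ nhds z :=
      hcomp.isClosed.isOpen_compl.mem_nhds hznot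
    filter_upwards [mem_nhdsWithin_of_mem_nhds hU, self_mem_nhdsWithin] with z' hz' hz'K
    have hfib : ∀ x ∈ fib K z', ‖x - x0‖ < ε / 2 := by
      intro x hx
      by_contra hcon
      apply hz'
      refine ⟨mk z' x, ⟨hx, ?_⟩, p1_mk z' x⟩
      rw [Set.mem_preimage, p2_mk, Set.mem_compl_iff, mem_ball_iff_norm]
      exact hcon
    have hgf : ∀ θ, gf K θ z' ≤ inner ℝ x0 (ee θ) + ε / 2 := by
      intro θ
      obtain ⟨x, hx, hxe⟩ := gf_attained K θ z' hz'K
      have h1 : (inner ℝ x (ee θ) : ℝ) = inner ℝ x0 (ee θ) + inner ℝ (x - x0) (ee θ) := by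
        rw [inner_sub_left]
        ring
      have h2 : (inner ℝ (x - x0) (ee θ) : ℝ) ≤ ‖x - x0‖ * ‖ee θ‖ := real_inner_le_norm _ _
      have h3 : ‖ee θ‖ = 1 := by
        have h4 : ‖ee θ‖ ^ 2 = 1 := by
          rw [← real_inner_self_eq_norm_sq, fc_ee]
          simp only [ee]
          nlinarith [Real.sin_sq_add_cos_sq θ]
        nlinarith [norm_nonneg (ee θ)]
      rw [h3, mul_one] at h2
      have h5 := hfib x hx
      rw [hxe, h1]
      linarith
    have hle : cf K z' ≤ ε / 2 := by
      unfold cf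
      have hcont : Continuous fun θ : ℝ => (inner ℝ x0 (ee θ) : ℝ) := by
        simp only [fc_ee]
        exact (Real.continuous_cos.const_mul _).add (Real.continuous_sin.const_mul _)
      have h1 : ∫ θ in (0 : ℝ)..(2 * Real.pi), gf K θ z' ≤
          ∫ θ in (0 : ℝ)..(2 * Real.pi), ((inner ℝ x0 (ee θ) : ℝ) + ε / 2) := by
        apply intervalIntegral.integral_mono_on (by positivity)
        · exact (gf_cont K z' hz'K).intervalIntegrable _ _
        · exact (hcont.add continuous_const).intervalIntegrable _ _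
        · intro θ _
          exact hgf θ
      rw [intervalIntegral.integral_add (hcont.intervalIntegrable _ _)
        (continuous_const.intervalIntegrable _ _), fc_integral, intervalIntegral.integral_const,
        zero_add, sub_zero, smul_eq_mul] at h1
      have hpi : 0 < (2 * Real.pi) := by positivity
      calc (2 * Real.pi)⁻¹ * ∫ θ in (0 : ℝ)..(2 * Real.pi), gf K θ z' ≤
          (2 * Real.pi)⁻¹ * (2 * Real.pi * (ε / 2)) :=
            mul_le_mul_of_nonneg_left h1 (by positivity)
        _ = ε / 2 := by field_simp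
    have hge := cf_nonneg K z' hz'K
    rw [Real.dist_eq, sub_zero, abs_of_nonneg hge]
    linarith

end Pool.Agent.HAS
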