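import Mathlib

/-!
# Gradient bound for concave functions (module GrB)

PLAN.  `f` concave on `A ⊇ closedBall z d`, `|f| ≤ C` on `A`, differentiable at `z`.  If the gradient `g ≠ 0`, put
`y = z - (d/‖g‖) g ∈ closedBall z d`.  Concavity: `f(y) ≤ f(z) + ⟨g, y-z⟩ = f(z) - d‖g‖` (a concave function lies below
its tangent: one dimensional restriction, `ConcaveOn.le_slope…` or the difference quotient), so
`d ‖g‖ ≤ f(z) - f(y) ≤ 2C`.
-/

set_option autoImplicit false

namespace Pool.Agent.HAS

open MeasureTheory Metric Set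

theorem grad_bound (A : Set ℂ) (f : ℂ → ℝ) (hf : ConcaveOn ℝ A f) (z : ℂ) (d C : ℝ) (hd : 0 < d)
    (hz : closedBall z d ⊆ A) (hC : ∀ y ∈ A, |f y| ≤ C) (hdiff : DifferentiableAt ℝ f z) :
    ‖gradient f z‖ ≤ 2 * C / d := by
  have hzA : z ∈ A := hz (mem_closedBall_self hd.le)
  have hC0 : 0 ≤ C := (abs_nonneg _).trans (hC z hzA)
  by_cases hg : gradient f z = 0
  · rw [hg, norm_zero]
    positivity
  have hgn : 0 < ‖gradient f z‖ := norm_pos_iff.2 hg
  set g := gradient f z with hgdef
  have hG : HasFDerivAt f (InnerProductSpace.toDual ℝ ℂ g) z := hdiff.hasGradientAt.hasFDerivAt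
  set v : ℂ := -((d / ‖g‖) • g) with hv
  have hvn : ‖v‖ = d := by
    rw [hv, norm_neg, norm_smul, Real.norm_of_nonneg (by positivity)]
    field_simp
  have hseg : ∀ t ∈ Icc (0 : ℝ) 1, z + t • v ∈ closedBall z d := by
    intro t ht
    rw [mem_closedBall, dist_eq_norm, add_sub_cancel_left, norm_smul, hvn, Real.norm_of_nonneg ht.1]
    exact mul_le_of_le_one_left hd.le ht.2
  have hconc : ConcaveOn ℝ (Icc (0 : ℝ) 1) fun t : ℝ => f (z + t • v) := by
    refine ⟨convex_Icc 0 1, ?_⟩
    intro s hs t ht a b ha hb hab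
    have h1 := hf.2 (hz (hseg s hs)) (hz (hseg t ht)) ha hb hab
    have e : a • (z + s • v) + b • (z + t • v) = z + (a • s + b • t) • v := by
      have h2 : z = (a + b) • z := by rw [hab, one_smul]
      conv_rhs => rw [h2]
      simp only [smul_add, add_smul, smul_smul, smul_eq_mul]
      abel
    rw [e] at h1
    exact h1
  have hder : HasDerivAt (fun t : ℝ => f (z + t • v)) (-(d * ‖g‖)) 0 := by
    have h1 : HasDerivAt (fun t : ℝ => z + t • v) v 0 := by
      have h2 := ((hasDerivAt_id (0 : ℝ)).smul_const v).const_add z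
      simpa using h2
    have hG' : HasFDerivAt f (InnerProductSpace.toDual ℝ ℂ g) (z + (0 : ℝ) • v) := by
      simpa using hG
    have h3 := hG'.comp_hasDerivAt (0 : ℝ) h1
    have e : (InnerProductSpace.toDual ℝ ℂ g) v = -(d * ‖g‖) := by
      rw [InnerProductSpace.toDual_apply_apply, hv, inner_neg_right, real_inner_smul_right,
        real_inner_self_eq_norm_sq]
      field_simp
    rw [e] at h3
    exact h3
  have hsl := hconc.slope_le_of_hasDerivAt (left_mem_Icc.2 zero_le_one) (right_mem_Icc.2 zero_le_one)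
    one_pos hder
  rw [slope_def_field] at hsl
  simp only [one_smul, zero_smul, add_zero, sub_zero, div_one] at hsl
  have hyA : z + v ∈ A := by
    have := hz (hseg 1 (right_mem_Icc.2 zero_le_one))
    rwa [one_smul] at this
  have h1 := (abs_le.1 (hC _ hyA)).1
  have h2 := (abs_le.1 (hC _ hzA)).2
  rw [le_div_iff₀ hd]
  nlinarith

end Pool.Agent.HAS
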