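import Pool.Agent.HAS.TStat
import Pool.Agent.HAS.FibC
import Pool.Agent.HAS.GrB

/-!
# The planar data of a smooth body (module Dat)

The affine map `L z = √S (z + z0)` carries the statements about `sh1 K` and `cf K` to the scaled set and the
scaled function; all terms of the energy inequalities are multiplied by the same power of `S`.
-/

set_option autoImplicit false

namespace Pool.Agent.HAS

open MeasureTheory Metric Set
open Pool.Agent.Helper85.Herm Pool.Agent.Helper85.Cap Pool.Agent.HVM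

/-- the affine map as a homeomorphism -/
private noncomputable def hom (s : ℝ) (hs : s ≠ 0) (a : ℂ) : ℂ ≃ₜ ℂ :=
  (Homeomorph.addRight a).trans (Homeomorph.smulOfNeZero s hs)

private lemma hom_apply (s : ℝ) (hs : s ≠ 0) (a z : ℂ) : hom s hs a z = s • (z + a) := rfl

private lemma fderiv_aff (f : ℂ → ℝ) (t : ℝ) (a z : ℂ) :
    fderiv ℝ (fun z => f (t • (z + a))) z = t • fderiv ℝ f (t • (z + a)) := by
  have h1 := fderiv_comp_add_right (𝕜 := ℝ) (f := fun x : ℂ => f (t • x)) (x := z) a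
  rw [h1]
  exact fderiv_comp_smul (𝕜 := ℝ) (f := f) (x := z + a) t

private lemma fderiv_cmul (f : ℂ → ℝ) (c : ℝ) (z : ℂ) :
    fderiv ℝ (fun z => c * f z) z = c • fderiv ℝ f z := by
  have h1 := fderiv_const_smul_field (𝕜 := ℝ) (f := f) c
  have h2 : (c • f) = fun z => c * f z := rfl
  rw [h2] at h1
  rw [h1]
  rfl

private lemma grad_norm (f : ℂ → ℝ) (z : ℂ) : ‖gradient f z‖ = ‖fderiv ℝ f z‖ := by
  unfold gradient
  exact LinearIsometryEquiv.norm_map _ _

private lemma grad_aff (f : ℂ → ℝ) (c t : ℝ) (a z : ℂ) :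
    ‖gradient (fun z => c * f (t • (z + a))) z‖ = |c * t| * ‖gradient f (t • (z + a))‖ := by
  rw [grad_norm, grad_norm, fderiv_cmul (fun z => f (t • (z + a))), fderiv_aff, smul_smul, norm_smul,
    Real.norm_eq_abs]

private lemma lap_aff (f : ℂ → ℝ) (t : ℝ) (a z : ℂ) :
    lap (fun z => f (t • (z + a))) z = t ^ 2 * lap f (t • (z + a)) := by
  have h : ∀ v : ℂ, fderiv ℝ (fun y => fderiv ℝ (fun z => f (t • (z + a))) y v) z v =
      t ^ 2 * fderiv ℝ (fun y => fderiv ℝ f y v) (t • (z + a)) v := by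
    intro v
    have h1 : (fun y => fderiv ℝ (fun z => f (t • (z + a))) y v) =
        fun y => t * (fun w => fderiv ℝ f w v) (t • (y + a)) := by
      funext y
      rw [fderiv_aff]
      rfl
    rw [h1, fderiv_cmul (fun y => (fun w => fderiv ℝ f w v) (t • (y + a))),
      fderiv_aff (fun w => fderiv ℝ f w v)]
    have h2 : ∀ (c : ℝ) (A : ℂ →L[ℝ] ℝ), (c • A) v = c * A v := fun _ _ => rfl
    rw [h2, h2]
    ring
  unfold lap
  rw [h, h]
  ring

private lemma cov (g : ℂ → ℝ) {s : ℝ} (hs : 0 < s) (a : ℂ) :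
    ∫ z, g (s • (z + a)) = (s ^ 2)⁻¹ * ∫ z, g z := by
  have h1 : ∫ z, g (s • (z + a)) = ∫ z, g (s • z) :=
    integral_add_right_eq_self (fun z => g (s • z)) a
  rw [h1, Measure.integral_comp_smul, Complex.finrank_real_complex, abs_of_pos (by positivity), smul_eq_mul]

private lemma cov_set (g : ℂ → ℝ) {s : ℝ} (hs : 0 < s) (a : ℂ) {T : Set ℂ} (hT : MeasurableSet T) :
    ∫ z in {z | s • (z + a) ∈ T}, g (s • (z + a)) = (s ^ 2)⁻¹ * ∫ z in T, g z := by
  have hT' : MeasurableSet {z : ℂ | s • (z + a) ∈ T} :=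
    (hom s hs.ne' a).continuous.measurable hT
  rw [← integral_indicator hT', ← integral_indicator hT, ← cov _ hs a]
  refine integral_congr_ae (Filter.Eventually.of_forall fun z => ?_)
  by_cases h : s • (z + a) ∈ T
  · simp only [Set.indicator_of_mem h]
    exact Set.indicator_of_mem (s := {z : ℂ | s • (z + a) ∈ T}) h _
  · simp only [Set.indicator_of_notMem h]
    exact Set.indicator_of_notMem (s := {z : ℂ | s • (z + a) ∈ T}) h _

private lemma int_set (g : ℂ → ℝ) {s : ℝ} (hs : 0 < s) (a : ℂ) {T : Set ℂ} (hT : MeasurableSet T)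
    (hg : IntegrableOn g T) : IntegrableOn (fun z => g (s • (z + a))) {z | s • (z + a) ∈ T} := by
  have hT' : MeasurableSet {z : ℂ | s • (z + a) ∈ T} :=
    (hom s hs.ne' a).continuous.measurable hT
  rw [← integrable_indicator_iff hT] at hg
  rw [← integrable_indicator_iff hT']
  have h1 : Integrable (fun z => T.indicator g (s • (z + a))) := (hg.comp_smul hs.ne').comp_add_right a
  have h2 : (fun z => T.indicator g (s • (z + a))) =
      {z : ℂ | s • (z + a) ∈ T}.indicator (fun z => g (s • (z + a))) := by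
    funext z
    by_cases h : s • (z + a) ∈ T
    · rw [Set.indicator_of_mem h, Set.indicator_of_mem (s := {z : ℂ | s • (z + a) ∈ T}) h]
    · rw [Set.indicator_of_notMem h, Set.indicator_of_notMem (s := {z : ℂ | s • (z + a) ∈ T}) h]
  rw [← h2]
  exact h1

theorem pdata {h : C2 → ℝ} (hs : SmoothSupp h) (K : Body) (hK : pts K = wulff h) (S C1 : ℝ)
    (hS : 0 < S) (hvol : UnitVolume K) (hV : V2 K = S) (hC1 : 0 ≤ C1)
    (hp2 : ∀ w ∈ pts K, ‖p2 w‖ ≤ C1 / Real.sqrt S) (z0 : ℂ) (ρ R0 : ℝ) (hρ : 0 < ρ)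
    (hin : closedBall z0 ρ ⊆ {z | Real.sqrt S • z ∈ sh1 K})
    (hout : {z | Real.sqrt S • z ∈ sh1 K} ⊆ closedBall z0 R0) :
    PData {z | Real.sqrt S • (z + z0) ∈ sh1 K} ρ R0 C1 (F K * S + Real.pi * C1 ^ 2 / 2) (1 / S) (F K * S)
      (fun z => Real.sqrt S * cf K (Real.sqrt S • (z + z0))) := by
  obtain ⟨s, hsd⟩ : ∃ s, s = Real.sqrt S := ⟨_, rfl⟩
  have hs0 : 0 < s := by rw [hsd]; exact Real.sqrt_pos.2 hS
  have hs2 : s ^ 2 = S := by rw [hsd]; exact Real.sq_sqrt hS.le
  rw [← hsd] at hin hout ⊢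
  rw [← hsd] at hp2
  have hcA := sh1_compact K
  have hmA : MeasurableSet (sh1 K) := hcA.isClosed.measurableSet
  have hconv := sh1_convex K
  have hA' : {z : ℂ | s • (z + z0) ∈ sh1 K} = (hom s hs0.ne' z0) ⁻¹' (sh1 K) := rfl
  have hint : interior {z : ℂ | s • (z + z0) ∈ sh1 K} = {z | s • (z + z0) ∈ interior (sh1 K)} := by
    rw [hA', ← Homeomorph.preimage_interior]
    rfl
  have hfr : frontier {z : ℂ | s • (z + z0) ∈ sh1 K} = {z | s • (z + z0) ∈ frontier (sh1 K)} := by
    rw [hA', ← Homeomorph.preimage_frontier]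
    rfl
  have haff : ∀ (z w : ℂ) (α β : ℝ), α + β = 1 →
      s • (α • z + β • w + z0) = α • (s • (z + z0)) + β • (s • (w + z0)) := by
    intro z w α β hαβ
    have : z0 = α • z0 + β • z0 := by rw [← add_smul, hαβ, one_smul]
    conv_lhs => rw [this]
    simp only [Complex.real_smul]
    ring
  have hsh := shadows K
  have hsh2 : (volume (sh2 K)).toReal ≤ Real.pi * C1 ^ 2 / S := by
    have h1 : sh2 K ⊆ closedBall (0 : ℂ) (C1 / s) := by
      rintro x ⟨w, hw, rfl⟩
      rw [mem_closedBall, dist_zero_right]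
      exact hp2 w hw
    have h2 := measure_mono (μ := volume) h1
    rw [Complex.volume_closedBall] at h2
    have h3 := ENNReal.toReal_mono (by finiteness) h2
    rw [ENNReal.toReal_mul, ENNReal.toReal_pow, ENNReal.toReal_ofReal (by positivity)] at h3
    have h4 : (C1 / s) ^ 2 * (NNReal.pi : ENNReal).toReal = Real.pi * C1 ^ 2 / S := by
      rw [div_pow, hs2]
      simp only [ENNReal.coe_toReal, NNReal.coe_real_pi]
      ring
    rw [h4] at h3
    exact h3
  have hgrad : ∀ z, ‖gradient (fun z => s * cf K (s • (z + z0))) z‖ =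
      S * ‖gradient (cf K) (s • (z + z0))‖ := by
    intro z
    rw [grad_aff (cf K) s s z0 z, ← sq, hs2, abs_of_pos hS]
  have hmI : MeasurableSet (interior (sh1 K)) := isOpen_interior.measurableSet
  have hen : ∀ z, en (1 / S) ‖gradient (fun z => s * cf K (s • (z + z0))) z‖ =
      S ^ 2 * (Real.sqrt (1 + ‖gradient (cf K) (s • (z + z0))‖ ^ 2) - 1) := by
    intro z
    rw [hgrad]
    unfold en
    have : 1 + (1 / S) ^ 2 * (S * ‖gradient (cf K) (s • (z + z0))‖) ^ 2 =
        1 + ‖gradient (cf K) (s • (z + z0))‖ ^ 2 := by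
      field_simp
    rw [this]
    field_simp
  obtain ⟨hEI, hEle⟩ := energy_edge hs K hK
  refine
    { cpt := ?_, conv := ?_, ρ0 := hρ, inner := ?_, outer := ?_, conc := ?_, cont := ?_, bd := ?_,
      nonneg := ?_, le := ?_, smooth := ?_, area := ?_, mass := ?_, edgeI := ?_, edge := ?_,
      sharp := ?_ }
  · rw [hA']
    exact (Homeomorph.isCompact_preimage _).2 hcA
  · intro z hz w hw α β hα hβ hαβ
    show s • (α • z + β • w + z0) ∈ sh1 K
    rw [haff z w α β hαβ]
    exact hconv hz hw hα hβ hαβ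
  · intro z hz
    have h1 : z + z0 ∈ closedBall z0 ρ := by
      rw [mem_closedBall, dist_eq_norm, sub_zero] at hz
      rw [mem_closedBall, dist_eq_norm, add_sub_cancel_right]
      exact hz
    exact hin h1
  · intro z hz
    have h1 : z + z0 ∈ closedBall z0 R0 := hout hz
    rw [mem_closedBall, dist_eq_norm] at h1 ⊢
    rwa [add_sub_cancel_right, ← sub_zero z] at h1
  · refine ⟨?_, ?_⟩
    · intro z hz w hw α β hα hβ hαβ
      show s • (α • z + β • w + z0) ∈ sh1 K
      rw [haff z w α β hαβ]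
      exact hconv hz hw hα hβ hαβ
    · intro z hz w hw α β hα hβ hαβ
      have h1 := (cf_concave K).2 (x := s • (z + z0)) hz (y := s • (w + z0)) hw hα hβ hαβ
      simp only
      rw [haff z w α β hαβ]
      have h2 := mul_le_mul_of_nonneg_left h1 hs0.le
      refine le_trans (le_of_eq ?_) h2
      simp only [smul_eq_mul]
      ring
  · refine continuousOn_const.mul ((cf_continuousOn hs K hK).comp ?_ fun z hz => hz)
    exact (hom s hs0.ne' z0).continuous.continuousOn
  · intro z hz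
    rw [hfr] at hz
    show s * cf K (s • (z + z0)) = 0
    rw [cf_frontier hs K hK _ hz, mul_zero]
  · intro z hz
    exact mul_nonneg hs0.le (cf_nonneg K _ hz)
  · intro z hz
    have h1 := cf_le K (C1 / s) hp2 _ hz
    have h2 := mul_le_mul_of_nonneg_left h1 hs0.le
    refine h2.trans (le_of_eq ?_)
    field_simp
  · rw [hint]
    have h1 := cf_contDiffOn hs K hK
    refine contDiffOn_const.mul ((h1.of_le (by norm_num)).comp (t := interior (sh1 K)) ?_ fun z hz => hz)
    have h2 : ContDiff ℝ 1 (fun z : ℂ => s • (z + z0)) := by fun_prop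
    exact h2.contDiffOn
  · have h1 := cov_set (fun _ => (1 : ℝ)) hs0 z0 hmA
    simp only [integral_const, smul_eq_mul, mul_one, measureReal_def, Measure.restrict_apply_univ] at h1
    unfold ar
    rw [h1, hs2, inv_mul_le_iff₀ hS, mul_one]
    have h2 : 0 ≤ (volume (sh2 K)).toReal := ENNReal.toReal_nonneg
    linarith [hsh.2]
  · have h1 := (mass K).2
    have hv : (volume (pts K)).toReal = 1 := by
      unfold UnitVolume at hvol
      rw [hvol, ENNReal.toReal_one]
    rw [hv] at h1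
    have h2 := cov_set (fun z => S * cf K z ^ 2) hs0 z0 hmA
    rw [integral_const_mul, integral_const_mul, hs2, inv_mul_cancel_left₀ hS.ne'] at h2
    rw [← h2, ← integral_const_mul] at h1
    refine h1.trans (le_of_eq ?_)
    congr 1
    refine integral_congr_ae (Filter.Eventually.of_forall fun z => ?_)
    simp only
    rw [mul_pow, hs2]
  · simp_rw [hen]
    rw [hint]
    exact (int_set (fun z => Real.sqrt (1 + ‖gradient (cf K) z‖ ^ 2) - 1) hs0 z0 hmI hEI).const_mul _
  · simp_rw [hen]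
    rw [hint, integral_const_mul,
      cov_set (fun z => Real.sqrt (1 + ‖gradient (cf K) z‖ ^ 2) - 1) hs0 z0 hmI, hs2]
    have h1 : S ^ 2 * (S⁻¹ * ∫ z in interior (sh1 K), (Real.sqrt (1 + ‖gradient (cf K) z‖ ^ 2) - 1)) =
        S * ∫ z in interior (sh1 K), (Real.sqrt (1 + ‖gradient (cf K) z‖ ^ 2) - 1) := by
      field_simp
    rw [h1]
    have h2 := mul_le_mul_of_nonneg_left hEle hS.le
    refine h2.trans ?_
    have h3 := mul_le_mul_of_nonneg_left hsh2 hS.le
    have h4 : S * (Real.pi * C1 ^ 2 / S) = Real.pi * C1 ^ 2 := by field_simp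
    rw [h4] at h3
    nlinarith
  · intro η d hη hη1 hηc hηs hd hball
    -- the inverse map
    have hsi : s⁻¹ ≠ 0 := inv_ne_zero hs0.ne'
    have hML : ∀ z : ℂ, s⁻¹ • (s • (z + z0) + -(s • z0)) = z := by
      intro z
      rw [← smul_neg, ← smul_add, smul_smul, inv_mul_cancel₀ hs0.ne', one_smul]
      ring
    have hLM : ∀ w : ℂ, s • (s⁻¹ • (w + -(s • z0)) + z0) = w := by
      intro w
      rw [smul_add, smul_smul, mul_inv_cancel₀ hs0.ne', one_smul]
      ring
    have hts : ∀ w, w ∈ tsupport (fun w => η (s⁻¹ • (w + -(s • z0)))) →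
        s⁻¹ • (w + -(s • z0)) ∈ tsupport η := by
      intro w hw
      have h1 := tsupport_comp_eq_preimage η (hom s⁻¹ hsi (-(s • z0)))
      have h2 : (η ∘ (hom s⁻¹ hsi (-(s • z0)))) = fun w => η (s⁻¹ • (w + -(s • z0))) := rfl
      rw [h2] at h1
      rw [h1] at hw
      exact hw
    have key := energy_sharp hs K hK (fun w => η (s⁻¹ • (w + -(s • z0))))
      (hη.comp (f := fun w : ℂ => s⁻¹ • (w + -(s • z0))) (by fun_prop))
      (fun w => hη1 _) (hηc.comp_homeomorph (hom s⁻¹ hsi (-(s • z0))))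
      (by
        intro w hw
        have h1 := hηs (hts w hw)
        rw [hint] at h1
        have h2 : s • (s⁻¹ • (w + -(s • z0)) + z0) ∈ interior (sh1 K) := h1
        rwa [hLM] at h2) (2 * C1 / d * (1 / S))
      (by
        intro w hw θ
        have hcb : closedBall w (d * s) ⊆ sh1 K := by
          intro y hy
          have h1 : s⁻¹ • (y + -(s • z0)) ∈ closedBall (s⁻¹ • (w + -(s • z0))) d := by
            rw [mem_closedBall, dist_eq_norm] at hy ⊢
            rw [← smul_sub, add_sub_add_right_eq_sub, norm_smul, Real.norm_eq_abs,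
              abs_of_pos (inv_pos.2 hs0)]
            rw [inv_mul_le_iff₀ hs0, mul_comm]
            exact hy
          have h2 := hball _ (hts w hw) h1
          have h3 : s • (s⁻¹ • (y + -(s • z0)) + z0) ∈ sh1 K := h2
          rwa [hLM] at h3
        have hwi : w ∈ interior (sh1 K) := by
          have h1 := hηs (hts w hw)
          rw [hint] at h1
          have h2 : s • (s⁻¹ • (w + -(s • z0)) + z0) ∈ interior (sh1 K) := h1
          rwa [hLM] at h2
        have h1 := grad_bound (sh1 K) (gf K θ) (gf_concave K θ) w (d * s) (C1 / s) (by positivity) hcb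
          (fun y hy => gf_abs K (C1 / s) hp2 θ y hy)
          (((gf_contDiffOn hs K hK θ).contDiffAt (isOpen_interior.mem_nhds hwi)).differentiableAt
            (by norm_num))
        refine h1.trans (le_of_eq ?_)
        rw [← hs2]
        field_simp)
    -- change of variables
    have e1 : ∫ z, η z ^ 2 * ‖gradient (fun z => s * cf K (s • (z + z0))) z‖ ^ 2 =
        S * ∫ w, η (s⁻¹ • (w + -(s • z0))) ^ 2 * ‖gradient (cf K) w‖ ^ 2 := by
      have h1 := cov (fun w => η (s⁻¹ • (w + -(s • z0))) ^ 2 * ‖gradient (cf K) w‖ ^ 2) hs0 z0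
      simp only [hML] at h1
      simp only [hgrad, mul_pow]
      have h2 : ∀ z, η z ^ 2 * (S ^ 2 * ‖gradient (cf K) (s • (z + z0))‖ ^ 2) =
          S ^ 2 * (η z ^ 2 * ‖gradient (cf K) (s • (z + z0))‖ ^ 2) := fun z => by ring
      simp only [h2]
      rw [integral_const_mul, h1, hs2]
      field_simp
    have e2 : ∫ z, (72 * ‖gradient η z‖ ^ 2 + 19 * |lap (fun y => η y ^ 2) z|) *
          (s * cf K (s • (z + z0))) ^ 2 =
        S * ∫ w, (72 * ‖gradient (fun w => η (s⁻¹ • (w + -(s • z0)))) w‖ ^ 2 +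
          19 * |lap (fun y => η (s⁻¹ • (y + -(s • z0))) ^ 2) w|) * cf K w ^ 2 := by
      have h1 := cov (fun w => (72 * ‖gradient (fun w => η (s⁻¹ • (w + -(s • z0)))) w‖ ^ 2 +
          19 * |lap (fun y => η (s⁻¹ • (y + -(s • z0))) ^ 2) w|) * cf K w ^ 2) hs0 z0
      have h3 : ∀ w, ‖gradient (fun w => η (s⁻¹ • (w + -(s • z0)))) w‖ =
          s⁻¹ * ‖gradient η (s⁻¹ • (w + -(s • z0)))‖ := by
        intro w
        have h4 := grad_aff η 1 s⁻¹ (-(s • z0)) w
        simp only [one_mul] at h4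
        rw [h4, abs_of_pos (inv_pos.2 hs0)]
      have h5 : ∀ w, lap (fun y => η (s⁻¹ • (y + -(s • z0))) ^ 2) w =
          s⁻¹ ^ 2 * lap (fun y => η y ^ 2) (s⁻¹ • (w + -(s • z0))) :=
        fun w => lap_aff (fun y => η y ^ 2) s⁻¹ (-(s • z0)) w
      simp only [h3, h5] at h1 ⊢
      simp only [hML] at h1
      have h6 : ∀ z, (72 * (s⁻¹ * ‖gradient η z‖) ^ 2 + 19 * |s⁻¹ ^ 2 * lap (fun y => η y ^ 2) z|) *
          cf K (s • (z + z0)) ^ 2 = (S ^ 2)⁻¹ * ((72 * ‖gradient η z‖ ^ 2 +
            19 * |lap (fun y => η y ^ 2) z|) * (s * cf K (s • (z + z0))) ^ 2) := by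
        intro z
        rw [abs_mul, abs_of_pos (by positivity : (0 : ℝ) < s⁻¹ ^ 2), ← hs2]
        field_simp
      simp only [h6] at h1
      rw [integral_const_mul, hs2] at h1
      have h7 : ∫ z, (72 * ‖gradient η z‖ ^ 2 + 19 * |lap (fun y => η y ^ 2) z|) *
          (s * cf K (s • (z + z0))) ^ 2 = S ^ 2 * ((S ^ 2)⁻¹ * ∫ z, (72 * ‖gradient η z‖ ^ 2 +
            19 * |lap (fun y => η y ^ 2) z|) * (s * cf K (s • (z + z0))) ^ 2) := by
        rw [mul_inv_cancel_left₀ (by positivity)]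
      rw [h7, h1, ← mul_assoc]
      congr 1
      field_simp
    rw [e1, e2]
    have h8 := mul_le_mul_of_nonneg_left key hS.le
    calc _ = S * (2 * (∫ w, η (s⁻¹ • (w + -(s • z0))) ^ 2 * ‖gradient (cf K) w‖ ^ 2) -
          ∫ w, (72 * ‖gradient (fun w => η (s⁻¹ • (w + -(s • z0)))) w‖ ^ 2 +
          19 * |lap (fun y => η (s⁻¹ • (y + -(s • z0))) ^ 2) w|) * cf K w ^ 2) := by ring
      _ ≤ S * ((1 + (2 * C1 / d * (1 / S)) ^ 2) * F K) := h8
      _ = _ := by ring

end Pool.Agent.HAS
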