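import Pool.Agent.HVM.Main

/-!
# The asymptotic constant of the isoperimetric problem for hermitian intrinsic volumes: definitions

Points of `ℂ²` are written `(z, x)`; `mk z x` is the point, `p1`, `p2` are the coordinates.
-/

set_option autoImplicit false

namespace Pool.Agent.HAS

open MeasureTheory Metric Set
open Pool.Agent.Helper85.Herm Pool.Agent.Helper85.Cap Pool.Agent.HVM

/-- the point `(z, x)` of `ℂ²` -/
noncomputable def mk (z x : ℂ) : C2 := WithLp.toLp 2 ![z.re, z.im, x.re, x.im]

/-- the first complex coordinate -/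
noncomputable def p1 (w : C2) : ℂ := ⟨w 0, w 1⟩

/-- the second complex coordinate -/
noncomputable def p2 (w : C2) : ℂ := ⟨w 2, w 3⟩

/-- the hermitian intrinsic volume `μ_{2,0}` -/
noncomputable def F (K : Body) : ℝ := muab 1 0 K

/-- the shadow of `K` in the first coordinate line -/
def sh1 (K : Body) : Set ℂ := p1 '' pts K

/-- the shadow of `K` in the second coordinate line -/
def sh2 (K : Body) : Set ℂ := p2 '' pts K

/-- the fibre of `K` over `z` -/
def fib (K : Body) (z : ℂ) : Set ℂ := {x | mk z x ∈ pts K}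

/-- the unit vector `e^{iθ}` -/
noncomputable def ee (θ : ℝ) : ℂ := ⟨Real.cos θ, Real.sin θ⟩

/-- the support function of the fibre over `z` in the direction `e^{iθ}` -/
noncomputable def gf (K : Body) (θ : ℝ) (z : ℂ) : ℝ :=
  sSup ((fun x : ℂ => (inner ℝ x (ee θ) : ℝ)) '' fib K z)

/-- the mean support function of the fibre over `z` -/
noncomputable def cf (K : Body) (z : ℂ) : ℝ :=
  (2 * Real.pi)⁻¹ * ∫ θ in (0 : ℝ)..(2 * Real.pi), gf K θ z

/-- the Laplacian in the plane -/
noncomputable def lap (f : ℂ → ℝ) (z : ℂ) : ℝ :=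
  fderiv ℝ (fun y => fderiv ℝ f y 1) z 1 + fderiv ℝ (fun y => fderiv ℝ f y Complex.I) z Complex.I

end Pool.Agent.HAS
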