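import Pool.Agent.HAS.GeDefs
import Pool.Agent.Helper85.Cap.I2

/-!
# Coordinates and volume (module FibA)

`mk`, `p1`, `p2` are real linear, `mk (p1 w) (p2 w) = w`, `p1 (mk z x) = z`, `p2 (mk z x) = x`,
`‖mk z x‖² = ‖z‖² + ‖x‖²`.  The map `(z,x) ↦ mk z x : ℂ × ℂ → C2` is volume preserving, and
`vol(K) = ∫_{sh1 K} ar (fib K z)`.
-/

set_option autoImplicit false

namespace Pool.Agent.HAS

open MeasureTheory Metric Set
open Pool.Agent.Helper85.Herm Pool.Agent.Helper85.Cap Pool.Agent.HVM

theorem mk_p (w : C2) : mk (p1 w) (p2 w) = w := by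
  ext i
  fin_cases i <;> rfl

theorem p1_mk (z x : ℂ) : p1 (mk z x) = z := rfl

theorem p2_mk (z x : ℂ) : p2 (mk z x) = x := rfl

theorem mk_add (z z' x x' : ℂ) : mk (z + z') (x + x') = mk z x + mk z' x' := by
  ext i
  fin_cases i <;> rfl

theorem mk_smul (t : ℝ) (z x : ℂ) : mk (t • z) (t • x) = t • mk z x := by
  ext i
  fin_cases i <;> simp [mk]

theorem p1_add (w w' : C2) : p1 (w + w') = p1 w + p1 w' := rfl

theorem p2_add (w w' : C2) : p2 (w + w') = p2 w + p2 w' := rfl

theorem p1_smul (t : ℝ) (w : C2) : p1 (t • w) = t • p1 w := by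
  apply Complex.ext <;> simp [p1]

theorem p2_smul (t : ℝ) (w : C2) : p2 (t • w) = t • p2 w := by
  apply Complex.ext <;> simp [p2]

theorem norm_sq_mk (z x : ℂ) : ‖mk z x‖ ^ 2 = ‖z‖ ^ 2 + ‖x‖ ^ 2 := by
  rw [EuclideanSpace.norm_sq_eq, Fin.sum_univ_four, Complex.sq_norm, Complex.sq_norm,
    Complex.normSq_apply, Complex.normSq_apply]
  simp only [mk, Real.norm_eq_abs, sq_abs]
  simp
  ring

theorem inner_mk (z x z' x' : ℂ) :
    (inner ℝ (mk z x) (mk z' x') : ℝ) = inner ℝ z z' + inner ℝ x x' := by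
  simp [mk, PiLp.inner_apply, Fin.sum_univ_four, Complex.inner]
  ring

theorem p1_cont : Continuous p1 := by
  have h : p1 = fun w : C2 => Complex.equivRealProdCLM.symm (w 0, w 1) := by
    funext w
    apply Complex.ext <;> simp [p1]
  rw [h]
  fun_prop

theorem p2_cont : Continuous p2 := by
  have h : p2 = fun w : C2 => Complex.equivRealProdCLM.symm (w 2, w 3) := by
    funext w
    apply Complex.ext <;> simp [p2]
  rw [h]
  fun_prop

theorem mk_cont : Continuous (fun q : ℂ × ℂ => mk q.1 q.2) := by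
  unfold mk
  refine (PiLp.continuous_toLp 2 _).comp ?_
  refine continuous_pi fun i => ?_
  fin_cases i
  · exact Complex.continuous_re.comp continuous_fst
  · exact Complex.continuous_im.comp continuous_fst
  · exact Complex.continuous_re.comp continuous_snd
  · exact Complex.continuous_im.comp continuous_snd

theorem mk_mp : MeasurePreserving (fun q : ℂ × ℂ => mk q.1 q.2) (volume.prod volume) volume := by
  obtain ⟨Φ, hΦ, hΦx⟩ := I2_split
  have h1 : MeasurePreserving (Prod.map Complex.measurableEquivRealProd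
      Complex.measurableEquivRealProd) ((volume : Measure ℂ).prod (volume : Measure ℂ))
      ((volume : Measure (ℝ × ℝ)).prod (volume : Measure (ℝ × ℝ))) :=
    Complex.volume_preserving_equiv_real_prod.prod Complex.volume_preserving_equiv_real_prod
  have h2 : MeasurePreserving Φ.symm ((volume : Measure (ℝ × ℝ)).prod
      (volume : Measure (ℝ × ℝ))) volume := hΦ.symm Φ
  have h3 := h2.comp h1
  have h4 : (Φ.symm ∘ Prod.map Complex.measurableEquivRealProd
      Complex.measurableEquivRealProd) = fun q : ℂ × ℂ => mk q.1 q.2 := by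
    funext q
    show Φ.symm _ = _
    rw [MeasurableEquiv.symm_apply_eq, hΦx]
    rfl
  rw [h4] at h3
  exact h3

theorem sh1_compact (K : Body) : IsCompact (sh1 K) :=
  K.isCompact.image p1_cont

theorem sh2_compact (K : Body) : IsCompact (sh2 K) :=
  K.isCompact.image p2_cont

theorem sh1_convex (K : Body) : Convex ℝ (sh1 K) := by
  rintro z ⟨w, hw, rfl⟩ z' ⟨w', hw', rfl⟩ a b ha hb hab
  exact ⟨a • w + b • w', K.convex hw hw' ha hb hab, by rw [p1_add, p1_smul, p1_smul]⟩

theorem fib_compact (K : Body) (z : ℂ) : IsCompact (fib K z) := by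
  have h1 : IsClosed (fib K z) := K.isCompact.isClosed.preimage
    (mk_cont.comp (Continuous.prodMk continuous_const continuous_id))
  refine (sh2_compact K).of_isClosed_subset h1 ?_
  intro x hx
  exact ⟨mk z x, hx, p2_mk z x⟩

theorem fib_convex (K : Body) (z : ℂ) : Convex ℝ (fib K z) := by
  intro x hx x' hx' a b ha hb hab
  show mk z (a • x + b • x') ∈ pts K
  have h := K.convex hx hx' ha hb hab
  rw [← mk_smul, ← mk_smul, ← mk_add, ← add_smul, hab, one_smul] at h
  exact h

theorem fib_nonempty (K : Body) (z : ℂ) : (fib K z).Nonempty ↔ z ∈ sh1 K := by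
  constructor
  · rintro ⟨x, hx⟩
    exact ⟨mk z x, hx, p1_mk z x⟩
  · rintro ⟨w, hw, rfl⟩
    exact ⟨p2 w, by show mk _ _ ∈ pts K; rw [mk_p]; exact hw⟩

theorem vol_eq (K : Body) : IntegrableOn (fun z => ar (fib K z)) (sh1 K) ∧
    (volume (pts K)).toReal = ∫ z in sh1 K, ar (fib K z) := by
  have hm : MeasurableSet (pts K) := K.isCompact.isClosed.measurableSet
  have hS : MeasurableSet ((fun q : ℂ × ℂ => mk q.1 q.2) ⁻¹' pts K) := mk_cont.measurable hm
  have hfin : volume (pts K) ≠ ⊤ := K.isCompact.measure_lt_top.ne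
  have h1 : volume (pts K) = ∫⁻ z : ℂ, volume (fib K z) := by
    rw [← mk_mp.measure_preimage hm.nullMeasurableSet, Measure.prod_apply hS]
    rfl
  have hmeas : Measurable (fun z : ℂ => volume (fib K z)) := measurable_measure_prodMk_left hS
  have h0 : ∀ z, z ∉ sh1 K → fib K z = ∅ := by
    intro z hz
    by_contra hne
    exact hz ((fib_nonempty K z).1 (nonempty_iff_ne_empty.2 hne))
  have h2 : ∫⁻ z : ℂ, volume (fib K z) = ∫⁻ z in sh1 K, volume (fib K z) := by
    rw [← lintegral_indicator (sh1_compact K).isClosed.measurableSet]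
    refine lintegral_congr fun z => ?_
    by_cases hz : z ∈ sh1 K
    · rw [indicator_of_mem hz]
    · rw [indicator_of_notMem hz, h0 z hz, measure_empty]
  rw [h2] at h1
  have hfin2 : ∫⁻ z in sh1 K, volume (fib K z) ≠ ⊤ := h1 ▸ hfin
  refine ⟨integrable_toReal_of_lintegral_ne_top hmeas.aemeasurable hfin2, ?_⟩
  rw [h1]
  exact (integral_toReal hmeas.aemeasurable
    (Filter.Eventually.of_forall fun z => (fib_compact K z).measure_lt_top)).symm

end Pool.Agent.HAS
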