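import Pool.Agent.HAS.PlDefs
import Pool.Agent.Helper61.WBH.PLG

/-!
# Brunn-Minkowski in the plane (module PlA)

PLAN.  `bm_mul` (Pool/Agent/Helper61/WBH/PLG.lean, namespace as in that file) is the multiplicative form for
`Fin n → ℝ`; transport to `ℂ` with `Complex.measurableEquivPi` (linear, volume preserving:
`Complex.volume_preserving_equiv_pi`).
`bm_plane`: if `vol A = 0` or `vol B = 0` then `C` contains a translate of the other set.  Otherwise let
`a = √vol A`, `b = √vol B`, `p = a/(a+b)`, `q = b/(a+b)`, `A' = a⁻¹ A`, `B' = b⁻¹ B` have volume one and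
`p A' + q B' = (a+b)⁻¹ (A + B) ⊆ (a+b)⁻¹ C`, so `1 ≤ vol C / (a+b)^2`.
`nbhd_area`: `B = closedBall 0 δ` (area `π δ²`, `Complex.volume_closedBall`), `C = cthickening δ A`.
`conc_area`: for convex combination: `((1-t) a0 + t a1)`-level sets, direct consequence of `bm_plane` with the
compact sets `(1-t) A`, `t B` (area scales by the square).
-/

set_option autoImplicit false

namespace Pool.Agent.HAS

open MeasureTheory Metric Set
open scoped Pointwise

private theorem bm_c {p q : ℝ} (hp : 0 < p) (hq : 0 < q) (hpq : p + q = 1)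
    {A B C : Set ℂ} (hA : MeasurableSet A) (hB : MeasurableSet B)
    (hC : MeasurableSet C) (h : ∀ x ∈ A, ∀ y ∈ B, p • x + q • y ∈ C) :
    (volume A) ^ p * (volume B) ^ q ≤ volume C := by
  have hmp := Complex.volume_preserving_equiv_pi.symm
  have hm : Measurable Complex.measurableEquivPi.symm := Complex.measurableEquivPi.symm.measurable
  have e1 : ∀ S : Set ℂ, volume (Complex.measurableEquivPi.symm ⁻¹' S) = volume S := fun S =>
    hmp.measure_preimage_equiv S
  have h1 := Pool.Agent.Helper61.WBH.bm_mul hp hq hpq (hm hA) (hm hB) (hm hC) (by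
    intro x hx y hy
    have h2 := h _ hx _ hy
    have h3 : Complex.measurableEquivPi.symm (p • x + q • y) =
        p • Complex.measurableEquivPi.symm x + q • Complex.measurableEquivPi.symm y := by
      rw [Complex.measurableEquivPi_symm_apply, Complex.measurableEquivPi_symm_apply,
        Complex.measurableEquivPi_symm_apply, Complex.real_smul, Complex.real_smul]
      simp only [Pi.add_apply, Pi.smul_apply, smul_eq_mul]
      push_cast
      ring
    show Complex.measurableEquivPi.symm (p • x + q • y) ∈ C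
    rw [h3]
    exact h2)
  rw [e1, e1, e1] at h1
  exact h1

private theorem ar_nn (A : Set ℂ) : 0 ≤ ar A := ENNReal.toReal_nonneg

private theorem ar_smul (r : ℝ) (S : Set ℂ) : ar (r • S) = r ^ 2 * ar S := by
  unfold ar
  rw [Measure.addHaar_smul, ENNReal.toReal_mul, ENNReal.toReal_ofReal (abs_nonneg _),
    Complex.finrank_real_complex, abs_of_nonneg (sq_nonneg r)]

private theorem ar_mono {A B : Set ℂ} (hB : IsCompact B) (h : A ⊆ B) : ar A ≤ ar B :=
  ENNReal.toReal_mono hB.measure_lt_top.ne (measure_mono h)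

private theorem ar_shift (x : ℂ) {B C : Set ℂ} (hC : IsCompact C) (h : ∀ y ∈ B, x + y ∈ C) :
    ar B ≤ ar C := by
  have h1 : volume B ≤ volume C := by
    calc volume B ≤ volume ((fun y => x + y) ⁻¹' C) := measure_mono h
      _ = volume C := measure_preimage_add volume x C
  exact ENNReal.toReal_mono hC.measure_lt_top.ne h1

theorem bm_plane (A B C : Set ℂ) (hA : IsCompact A) (hB : IsCompact B) (hAn : A.Nonempty)
    (hBn : B.Nonempty) (hC : IsCompact C) (h : ∀ x ∈ A, ∀ y ∈ B, x + y ∈ C) :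
    Real.sqrt (ar A) + Real.sqrt (ar B) ≤ Real.sqrt (ar C) := by
  by_cases hA0 : ar A = 0
  · obtain ⟨x, hx⟩ := hAn
    rw [hA0, Real.sqrt_zero, zero_add]
    exact Real.sqrt_le_sqrt (ar_shift x hC (h x hx))
  by_cases hB0 : ar B = 0
  · obtain ⟨y, hy⟩ := hBn
    rw [hB0, Real.sqrt_zero, add_zero]
    refine Real.sqrt_le_sqrt (ar_shift y hC fun x hx => ?_)
    rw [add_comm]
    exact h x hx y hy
  have hA1 : 0 < ar A := lt_of_le_of_ne (ar_nn A) (Ne.symm hA0)
  have hB1 : 0 < ar B := lt_of_le_of_ne (ar_nn B) (Ne.symm hB0)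
  obtain ⟨a, ha⟩ : ∃ a, a = Real.sqrt (ar A) := ⟨_, rfl⟩
  obtain ⟨b, hb⟩ : ∃ b, b = Real.sqrt (ar B) := ⟨_, rfl⟩
  have ha0 : 0 < a := by rw [ha]; exact Real.sqrt_pos.2 hA1
  have hb0 : 0 < b := by rw [hb]; exact Real.sqrt_pos.2 hB1
  have ha2 : a ^ 2 = ar A := by rw [ha]; exact Real.sq_sqrt (ar_nn A)
  have hb2 : b ^ 2 = ar B := by rw [hb]; exact Real.sq_sqrt (ar_nn B)
  have hab : 0 < a + b := add_pos ha0 hb0
  rw [← ha, ← hb]
  have h1 := bm_c (p := a / (a + b)) (q := b / (a + b)) (div_pos ha0 hab) (div_pos hb0 hab)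
    (by rw [← add_div]; exact div_self hab.ne') (A := a⁻¹ • A) (B := b⁻¹ • B)
    (C := (a + b)⁻¹ • C) (hA.smul a⁻¹).measurableSet (hB.smul b⁻¹).measurableSet
    (hC.smul (a + b)⁻¹).measurableSet (by
      rintro _ ⟨x, hx, rfl⟩ _ ⟨y, hy, rfl⟩
      refine ⟨x + y, h x hx y hy, ?_⟩
      show (a + b)⁻¹ • (x + y) = (a / (a + b)) • (a⁻¹ • x) + (b / (a + b)) • (b⁻¹ • y)
      rw [smul_smul, smul_smul, smul_add]
      congr 2
      · field_simp
      · field_simp)
  have hvA : volume (a⁻¹ • A) = 1 := by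
    rw [← ENNReal.toReal_eq_one_iff]
    have h2 := ar_smul a⁻¹ A
    rw [← ha2] at h2
    refine h2.trans ?_
    field_simp
  have hvB : volume (b⁻¹ • B) = 1 := by
    rw [← ENNReal.toReal_eq_one_iff]
    have h2 := ar_smul b⁻¹ B
    rw [← hb2] at h2
    refine h2.trans ?_
    field_simp
  rw [hvA, hvB, ENNReal.one_rpow, ENNReal.one_rpow, one_mul] at h1
  have h3 : 1 ≤ ar ((a + b)⁻¹ • C) := by
    have h4 := ENNReal.toReal_mono (hC.smul (a + b)⁻¹).measure_lt_top.ne h1
    rw [ENNReal.toReal_one] at h4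
    exact h4
  rw [ar_smul, inv_pow, inv_mul_eq_div, le_div_iff₀ (pow_pos hab 2), one_mul] at h3
  exact Real.le_sqrt_of_sq_le h3

theorem nbhd_area (A : Set ℂ) (hA : IsCompact A) (hAn : A.Nonempty) (δ : ℝ) (hδ : 0 ≤ δ) :
    ar A + 2 * Real.sqrt Real.pi * δ * Real.sqrt (ar A) ≤ ar (cthickening δ A) := by
  have h1 := bm_plane A (closedBall 0 δ) (cthickening δ A) hA (isCompact_closedBall 0 δ) hAn
    ⟨0, mem_closedBall_self hδ⟩ hA.cthickening (by
      intro x hx y hy
      refine mem_cthickening_of_dist_le (x + y) x δ A hx ?_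
      rw [dist_eq_norm, add_sub_cancel_left]
      rw [mem_closedBall, dist_zero_right] at hy
      exact hy)
  have h2 : ar (closedBall (0 : ℂ) δ) = (Real.sqrt Real.pi * δ) ^ 2 := by
    unfold ar
    rw [Complex.volume_closedBall, ENNReal.toReal_mul, ENNReal.toReal_pow,
      ENNReal.toReal_ofReal hδ, mul_pow, Real.sq_sqrt Real.pi_pos.le, mul_comm]
    rfl
  rw [h2, Real.sqrt_sq (mul_nonneg (Real.sqrt_nonneg _) hδ)] at h1
  have h3 : 0 ≤ Real.sqrt (ar A) + Real.sqrt Real.pi * δ :=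
    add_nonneg (Real.sqrt_nonneg _) (mul_nonneg (Real.sqrt_nonneg _) hδ)
  have h4 := pow_le_pow_left₀ h3 h1 2
  rw [Real.sq_sqrt (ar_nn _)] at h4
  have h5 := Real.sq_sqrt (ar_nn A)
  nlinarith [sq_nonneg (Real.sqrt Real.pi * δ)]

theorem conc_area (A B C : Set ℂ) (hA : IsCompact A) (hB : IsCompact B) (hAn : A.Nonempty)
    (hBn : B.Nonempty) (hC : IsCompact C) (s t : ℝ) (hs : 0 ≤ s) (ht : 0 ≤ t)
    (h : ∀ x ∈ A, ∀ y ∈ B, s • x + t • y ∈ C) :
    s * Real.sqrt (ar A) + t * Real.sqrt (ar B) ≤ Real.sqrt (ar C) := by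
  have h1 := bm_plane (s • A) (t • B) C (hA.smul s) (hB.smul t) (hAn.smul_set) (hBn.smul_set) hC (by
    rintro _ ⟨x, hx, rfl⟩ _ ⟨y, hy, rfl⟩
    exact h x hx y hy)
  rw [ar_smul, ar_smul, Real.sqrt_mul (sq_nonneg s), Real.sqrt_mul (sq_nonneg t),
    Real.sqrt_sq hs, Real.sqrt_sq ht] at h1
  exact h1

end Pool.Agent.HAS
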