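import Pool.Agent.HAS.Defs
import Pool.Agent.HAS.PlA

/-!
# The isoperimetric inequality with the mean width (module PlB)

CLAIM: `area L ≤ π c²`, `c` = mean of the support function, `L` compact convex in the plane.

PLAN.  `hL(θ) = sup_{x ∈ L} ⟨x, e^{iθ}⟩` is `R`-Lipschitz (`L ⊆ closedBall 0 R`) and `2π`-periodic.
For `n ≥ 1` let `ζ = e^{2πi/n}`, `L_n = {(1/n) ∑_{k<n} ζ^k x_k : x_k ∈ L}` (compact, image of a compact
set).  By `bm_plane`/`conc_area` and induction (`√ar` is superadditive under Minkowski sums;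
rotation invariance of the area) `√(ar L_n) ≥ √(ar L)`.  For `x ∈ L_n`, `⟨x, e^{iθ}⟩ ≤
(1/n) ∑_k hL(θ - 2πk/n) ≤ c + 2πR/n =: c_n` (Riemann sum of a Lipschitz function), so `|x| ≤ c_n`
(take `θ = arg x`; so `c_n ≥ 0` if `L` is nonempty) and `ar L ≤ ar L_n ≤ π c_n²`.  Let `n → ∞`; note
`c ≥ 0` because `hL(θ) + hL(θ+π) ≥ 0`.
-/

set_option autoImplicit false

namespace Pool.Agent.HAS

open MeasureTheory Metric Set

private noncomputable def hs (L : Set ℂ) (θ : ℝ) : ℝ :=
  sSup ((fun x : ℂ => (inner ℝ x (ee θ) : ℝ)) '' L)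

private lemma inner_ee (x : ℂ) (θ : ℝ) :
    (inner ℝ x (ee θ) : ℝ) = x.re * Real.cos θ + x.im * Real.sin θ := by
  rw [Complex.inner]
  simp only [ee, Complex.mul_re, Complex.conj_re, Complex.conj_im]
  ring

private lemma hs_bdd {L : Set ℂ} (hc : IsCompact L) (θ : ℝ) :
    BddAbove ((fun x : ℂ => (inner ℝ x (ee θ) : ℝ)) '' L) := by
  have h1 : Continuous fun x : ℂ => (inner ℝ x (ee θ) : ℝ) := by
    simp only [inner_ee]
    fun_prop
  exact (hc.image h1).bddAbove

private lemma le_hs {L : Set ℂ} (hc : IsCompact L) (θ : ℝ) {x : ℂ} (hx : x ∈ L) :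
    (inner ℝ x (ee θ) : ℝ) ≤ hs L θ :=
  le_csSup (hs_bdd hc θ) ⟨x, hx, rfl⟩

private lemma hs_le {L : Set ℂ} (hne : L.Nonempty) (θ C : ℝ)
    (h : ∀ x ∈ L, (inner ℝ x (ee θ) : ℝ) ≤ C) : hs L θ ≤ C := by
  apply csSup_le (hne.image _)
  rintro _ ⟨x, hx, rfl⟩
  exact h x hx

private lemma norm_ee_sub (θ φ : ℝ) : ‖ee θ - ee φ‖ ≤ |θ - φ| := by
  apply abs_le_of_sq_le_sq' _ (abs_nonneg _) |>.2
  rw [Complex.sq_norm, Complex.normSq_apply, sq_abs]
  have h1 := Real.one_sub_sq_div_two_le_cos (x := θ - φ)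
  rw [Real.cos_sub] at h1
  have h2 := Real.sin_sq_add_cos_sq θ
  have h3 := Real.sin_sq_add_cos_sq φ
  simp only [ee, Complex.sub_re, Complex.sub_im]
  nlinarith

private lemma hs_lip {L : Set ℂ} (hc : IsCompact L) (hne : L.Nonempty) {R : ℝ}
    (hR : ∀ x ∈ L, ‖x‖ ≤ R) (θ φ : ℝ) : hs L θ ≤ hs L φ + R * |θ - φ| := by
  apply hs_le hne
  intro x hx
  have h1 : (inner ℝ x (ee θ) : ℝ) = inner ℝ x (ee φ) + inner ℝ x (ee θ - ee φ) := by
    rw [inner_sub_right]
    ring
  have h2 : (inner ℝ x (ee θ - ee φ) : ℝ) ≤ ‖x‖ * ‖ee θ - ee φ‖ := real_inner_le_norm _ _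
  have h3 : ‖x‖ * ‖ee θ - ee φ‖ ≤ R * |θ - φ| :=
    mul_le_mul (hR x hx) (norm_ee_sub θ φ) (norm_nonneg _) (le_trans (norm_nonneg _) (hR x hx))
  rw [h1]
  have h4 := le_hs hc φ hx
  linarith

private lemma hs_cont {L : Set ℂ} (hc : IsCompact L) (hne : L.Nonempty) {R : ℝ} (hR0 : 0 ≤ R)
    (hR : ∀ x ∈ L, ‖x‖ ≤ R) : Continuous (hs L) := by
  have h1 : LipschitzWith ⟨R, hR0⟩ (hs L) := by
    apply LipschitzWith.of_dist_le_mul
    intro θ φ
    rw [Real.dist_eq, Real.dist_eq]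
    show |hs L θ - hs L φ| ≤ R * |θ - φ|
    rw [abs_le]
    have h2 := hs_lip hc hne hR θ φ
    have h3 := hs_lip hc hne hR φ θ
    rw [abs_sub_comm φ θ] at h3
    constructor <;> linarith
  exact h1.continuous

private lemma hs_per (L : Set ℂ) : Function.Periodic (hs L) (2 * Real.pi) := by
  intro θ
  unfold hs
  have h1 : ee (θ + 2 * Real.pi) = ee θ := by
    unfold ee
    rw [Real.cos_add_two_pi, Real.sin_add_two_pi]
  rw [h1]

private lemma inner_rot (φ θ : ℝ) (y : ℂ) :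
    (inner ℝ (rotation (Circle.exp (-φ)) y) (ee θ) : ℝ) = inner ℝ y (ee (θ + φ)) := by
  rw [inner_ee, inner_ee, rotation_apply, Circle.coe_exp]
  have h1 : Complex.exp (((-φ : ℝ) : ℂ) * Complex.I) = ⟨Real.cos φ, -Real.sin φ⟩ := by
    apply Complex.ext
    · rw [Complex.exp_ofReal_mul_I_re, Real.cos_neg]
    · rw [Complex.exp_ofReal_mul_I_im, Real.sin_neg]
  rw [h1, Real.cos_add, Real.sin_add]
  simp only [Complex.mul_re, Complex.mul_im]
  ring

private lemma ar_rot {L : Set ℂ} (hc : IsCompact L) (a : Circle) :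
    ar ((rotation a) '' L) = ar L := by
  unfold ar
  have h1 : (rotation a) '' L = (rotation a).symm ⁻¹' L :=
    (rotation a).toEquiv.image_eq_preimage_symm L
  rw [h1, ((rotation a).symm.measurePreserving).measure_preimage
    hc.measurableSet.nullMeasurableSet]

private lemma exists_sum {L : Set ℂ} (hc : IsCompact L) (hne : L.Nonempty) (φ : ℕ → ℝ) (m : ℕ) :
    ∃ M : Set ℂ, IsCompact M ∧ M.Nonempty ∧ m * Real.sqrt (ar L) ≤ Real.sqrt (ar M) ∧
      ∀ x ∈ M, ∀ θ, (inner ℝ x (ee θ) : ℝ) ≤ ∑ k ∈ Finset.range m, hs L (θ + φ k) := by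
  induction m with
  | zero =>
    refine ⟨{0}, isCompact_singleton, singleton_nonempty _, ?_, ?_⟩
    · simp only [Nat.cast_zero, zero_mul]
      exact Real.sqrt_nonneg _
    · intro x hx θ
      rw [mem_singleton_iff.mp hx, inner_zero_left]
      simp
  | succ m ih =>
    obtain ⟨M, hM, hMn, har, hin⟩ := ih
    have hcont : Continuous fun p : ℂ × ℂ => p.1 + rotation (Circle.exp (-(φ m))) p.2 := by
      exact continuous_fst.add ((rotation _).continuous.comp continuous_snd)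
    refine ⟨(fun p : ℂ × ℂ => p.1 + rotation (Circle.exp (-(φ m))) p.2) '' (M ×ˢ L),
      (hM.prod hc).image hcont, (hMn.prod hne).image _, ?_, ?_⟩
    · have h1 := bm_plane M (rotation (Circle.exp (-(φ m))) '' L)
        ((fun p : ℂ × ℂ => p.1 + rotation (Circle.exp (-(φ m))) p.2) '' (M ×ˢ L)) hM
        (hc.image (rotation _).continuous) hMn (hne.image _) ((hM.prod hc).image hcont) (by
          rintro x hx _ ⟨y, hy, rfl⟩
          exact ⟨(x, y), ⟨hx, hy⟩, rfl⟩)
      rw [ar_rot hc] at h1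
      push_cast
      linarith
    · rintro _ ⟨⟨x, y⟩, ⟨hx, hy⟩, rfl⟩ θ
      rw [Finset.sum_range_succ]
      show (inner ℝ (x + rotation (Circle.exp (-(φ m))) y) (ee θ) : ℝ) ≤ _
      rw [inner_add_left, inner_rot]
      exact add_le_add (hin x hx θ) (le_hs hc _ hy)

private lemma riemann {h : ℝ → ℝ} (hcont : Continuous h) (hper : Function.Periodic h (2 * Real.pi))
    {R : ℝ} (hlip : ∀ θ φ, h θ ≤ h φ + R * |θ - φ|) (hR : 0 ≤ R) (θ : ℝ) {n : ℕ} (hn : 0 < n) :
    ∑ k ∈ Finset.range n, h (θ + 2 * Real.pi * k / n) ≤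
      n * ((2 * Real.pi)⁻¹ * ∫ t in (0 : ℝ)..(2 * Real.pi), h t) + 2 * Real.pi * R := by
  have hpi := Real.pi_pos
  have hn' : (0 : ℝ) < n := by exact_mod_cast hn
  have hδ : 0 < 2 * Real.pi / n := by positivity
  have hstep : ∀ k ∈ Finset.range n, (2 * Real.pi / n) * h (θ + 2 * Real.pi * k / n) ≤
      (∫ t in (θ + 2 * Real.pi * k / n)..(θ + 2 * Real.pi * ((k + 1 : ℕ) : ℝ) / n), h t) +
        (2 * Real.pi / n) * (R * (2 * Real.pi / n)) := by
    intro k _
    have hab : θ + 2 * Real.pi * ((k + 1 : ℕ) : ℝ) / n - (θ + 2 * Real.pi * k / n)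
        = 2 * Real.pi / n := by
      push_cast
      field_simp
      ring
    have hle : θ + 2 * Real.pi * k / n ≤ θ + 2 * Real.pi * ((k + 1 : ℕ) : ℝ) / n := by linarith
    have h1 : ∫ _t in (θ + 2 * Real.pi * k / n)..(θ + 2 * Real.pi * ((k + 1 : ℕ) : ℝ) / n),
        (h (θ + 2 * Real.pi * k / n) - R * (2 * Real.pi / n)) ≤
        ∫ t in (θ + 2 * Real.pi * k / n)..(θ + 2 * Real.pi * ((k + 1 : ℕ) : ℝ) / n), h t := by
      apply intervalIntegral.integral_mono_on hle
      · exact continuous_const.intervalIntegrable _ _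
      · exact hcont.intervalIntegrable _ _
      · intro t ht
        have h2 := hlip (θ + 2 * Real.pi * k / n) t
        have h3 : |θ + 2 * Real.pi * k / n - t| ≤ 2 * Real.pi / n := by
          rw [abs_le]
          constructor <;> linarith [ht.1, ht.2]
        have h4 := mul_le_mul_of_nonneg_left h3 hR
        linarith
    rw [intervalIntegral.integral_const, hab, smul_eq_mul] at h1
    linarith
  have hsum := Finset.sum_le_sum hstep
  rw [← Finset.mul_sum, Finset.sum_add_distrib, Finset.sum_const, Finset.card_range,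
    nsmul_eq_mul] at hsum
  have hint : ∑ k ∈ Finset.range n,
      (∫ t in (θ + 2 * Real.pi * k / n)..(θ + 2 * Real.pi * ((k + 1 : ℕ) : ℝ) / n), h t) =
      ∫ t in (0 : ℝ)..(2 * Real.pi), h t := by
    have h1 := intervalIntegral.sum_integral_adjacent_intervals (f := h) (μ := volume)
      (a := fun k : ℕ => θ + 2 * Real.pi * (k : ℝ) / n) (n := n)
      (fun k _ => hcont.intervalIntegrable _ _)
    rw [h1]
    have h2 := hper.intervalIntegral_add_eq θ 0
    rw [zero_add] at h2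
    rw [← h2]
    congr 1
    · simp
    · field_simp
  rw [hint] at hsum
  have h5 : (n : ℝ) * ((2 * Real.pi / n) * (R * (2 * Real.pi / n))) =
      2 * Real.pi * R * (2 * Real.pi / n) := by
    field_simp
  rw [h5] at hsum
  have h6 : (2 * Real.pi / n) * (∑ k ∈ Finset.range n, h (θ + 2 * Real.pi * k / n)) ≤
      (2 * Real.pi / n) * (n * ((2 * Real.pi)⁻¹ * ∫ t in (0 : ℝ)..(2 * Real.pi), h t) +
        2 * Real.pi * R) := by
    have h7 : (2 * Real.pi / n) * (n * ((2 * Real.pi)⁻¹ * ∫ t in (0 : ℝ)..(2 * Real.pi), h t) +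
        2 * Real.pi * R) = (∫ t in (0 : ℝ)..(2 * Real.pi), h t) +
          2 * Real.pi * R * (2 * Real.pi / n) := by
      field_simp
    rw [h7]
    exact hsum
  exact le_of_mul_le_mul_left h6 hδ

theorem isoper (L : Set ℂ) (hc : IsCompact L) (hconv : Convex ℝ L) (hne : L.Nonempty) :
    ar L ≤ Real.pi * ((2 * Real.pi)⁻¹ * ∫ θ in (0 : ℝ)..(2 * Real.pi),
      sSup ((fun x : ℂ => (inner ℝ x (ee θ) : ℝ)) '' L)) ^ 2 := by
  have hpi := Real.pi_pos
  obtain ⟨R, hR0, hR⟩ : ∃ R : ℝ, 0 ≤ R ∧ ∀ x ∈ L, ‖x‖ ≤ R := by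
    obtain ⟨R, hR⟩ := hc.isBounded.exists_norm_le
    exact ⟨max R 0, le_max_right _ _, fun x hx => le_trans (hR x hx) (le_max_left _ _)⟩
  show ar L ≤ Real.pi * ((2 * Real.pi)⁻¹ * ∫ θ in (0 : ℝ)..(2 * Real.pi), hs L θ) ^ 2
  set c : ℝ := (2 * Real.pi)⁻¹ * ∫ θ in (0 : ℝ)..(2 * Real.pi), hs L θ with hcdef
  have key : ∀ n : ℕ, 0 < n → Real.sqrt (ar L) ≤ Real.sqrt Real.pi * (c + 2 * Real.pi * R / n) := by
    intro n hn
    have hn' : (0 : ℝ) < n := by exact_mod_cast hn
    obtain ⟨M, hM, hMn, har, hin⟩ := exists_sum hc hne (fun k => 2 * Real.pi * k / n) n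
    have hball : ∀ x ∈ M, ‖x‖ ≤ n * c + 2 * Real.pi * R := by
      intro x hx
      have h1 := hin x hx (Complex.arg x)
      have h2 : (inner ℝ x (ee (Complex.arg x)) : ℝ) = ‖x‖ := by
        rw [inner_ee, ← Complex.norm_mul_cos_arg x, ← Complex.norm_mul_sin_arg x]
        have h3 := Real.sin_sq_add_cos_sq (Complex.arg x)
        rw [Complex.norm_mul_cos_arg x, Complex.norm_mul_sin_arg x]
        calc x.re * Real.cos (Complex.arg x) + x.im * Real.sin (Complex.arg x)
            = (‖x‖ * Real.cos (Complex.arg x)) * Real.cos (Complex.arg x) +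
              (‖x‖ * Real.sin (Complex.arg x)) * Real.sin (Complex.arg x) := by
              rw [Complex.norm_mul_cos_arg x, Complex.norm_mul_sin_arg x]
          _ = ‖x‖ * (Real.sin (Complex.arg x) ^ 2 + Real.cos (Complex.arg x) ^ 2) := by ring
          _ = ‖x‖ := by rw [h3, mul_one]
      rw [h2] at h1
      exact h1.trans (riemann (hs_cont hc hne hR0 hR) (hs_per L) (hs_lip hc hne hR) hR0 _ hn)
    obtain ⟨x0, hx0⟩ := hMn
    have hr0 : 0 ≤ n * c + 2 * Real.pi * R := le_trans (norm_nonneg _) (hball x0 hx0)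
    have hsub : M ⊆ closedBall (0 : ℂ) (n * c + 2 * Real.pi * R) := by
      intro x hx
      rw [mem_closedBall_zero_iff]
      exact hball x hx
    have hvol : ar M ≤ Real.pi * (n * c + 2 * Real.pi * R) ^ 2 := by
      unfold ar
      have h1 : volume M ≤ volume (closedBall (0 : ℂ) (n * c + 2 * Real.pi * R)) :=
        measure_mono hsub
      have h2 : (volume (closedBall (0 : ℂ) (n * c + 2 * Real.pi * R))).toReal =
          Real.pi * (n * c + 2 * Real.pi * R) ^ 2 := by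
        rw [Complex.volume_closedBall, ENNReal.toReal_mul, ENNReal.toReal_pow,
          ENNReal.toReal_ofReal hr0]
        simp only [ENNReal.coe_toReal, NNReal.coe_real_pi]
        ring
      rw [← h2]
      exact ENNReal.toReal_mono (isCompact_closedBall _ _).measure_lt_top.ne h1
    have h3 : Real.sqrt (ar M) ≤ Real.sqrt Real.pi * (n * c + 2 * Real.pi * R) := by
      refine le_trans (Real.sqrt_le_sqrt hvol) ?_
      rw [Real.sqrt_mul hpi.le, Real.sqrt_sq hr0]
    have h4 : (n : ℝ) * Real.sqrt (ar L) ≤ n * (Real.sqrt Real.pi * (c + 2 * Real.pi * R / n)) := by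
      refine le_trans (har.trans h3) (le_of_eq ?_)
      field_simp
    exact le_of_mul_le_mul_left h4 hn'
  have hlim : Filter.Tendsto (fun n : ℕ => Real.sqrt Real.pi * (c + 2 * Real.pi * R / (n : ℝ)))
      Filter.atTop (nhds (Real.sqrt Real.pi * (c + 0))) :=
    (tendsto_const_nhds.add (tendsto_const_div_atTop_nhds_zero_nat _)).const_mul _
  have hle : Real.sqrt (ar L) ≤ Real.sqrt Real.pi * (c + 0) := by
    apply ge_of_tendsto hlim
    filter_upwards [Filter.eventually_gt_atTop 0] with n hn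
    exact key n hn
  rw [add_zero] at hle
  have har0 : 0 ≤ ar L := ENNReal.toReal_nonneg
  have h5 : ar L = Real.sqrt (ar L) ^ 2 := (Real.sq_sqrt har0).symm
  have h6 : Real.sqrt (ar L) ^ 2 ≤ (Real.sqrt Real.pi * c) ^ 2 :=
    pow_le_pow_left₀ (Real.sqrt_nonneg _) hle 2
  rw [h5]
  refine le_trans h6 (le_of_eq ?_)
  rw [mul_pow, Real.sq_sqrt hpi.le]

end Pool.Agent.HAS
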