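import Pool.Agent.HAS.FibA
import Pool.Agent.HAS.PlB

/-!
# Fibre support functions (module FibB)

For `z ∈ sh1 K` the supremum in `gf K θ z` is attained; `gf K θ` is concave on the shadow `sh1 K` because
the fibres satisfy `s • fib z + t • fib z' ⊆ fib (s • z + t • z')`.  The mean `cf` over `θ` is concave,
nonnegative and bounded; the isoperimetric inequality `isoper` bounds the area of the fibres, and
integration gives `mass`.
-/

set_option autoImplicit false

namespace Pool.Agent.HAS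

open MeasureTheory Metric Set
open Pool.Agent.Helper85.Herm Pool.Agent.Helper85.Cap Pool.Agent.HVM

private lemma inner_ee (x : ℂ) (θ : ℝ) :
    (inner ℝ x (ee θ) : ℝ) = x.re * Real.cos θ + x.im * Real.sin θ := by
  rw [Complex.inner]
  simp [ee]
  ring

private lemma norm_ee (θ : ℝ) : ‖ee θ‖ = 1 := by
  have h : ‖ee θ‖ ^ 2 = 1 := by
    rw [Complex.sq_norm, Complex.normSq_apply]
    show Real.cos θ * Real.cos θ + Real.sin θ * Real.sin θ = 1
    have := Real.sin_sq_add_cos_sq θ
    nlinarith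
  have h0 : 0 ≤ ‖ee θ‖ := norm_nonneg _
  nlinarith

private lemma cont_inner : Continuous (fun q : ℝ × ℂ => (inner ℝ q.2 (ee q.1) : ℝ)) := by
  simp only [inner_ee]
  fun_prop

private lemma cont_inner' (θ : ℝ) : Continuous (fun x : ℂ => (inner ℝ x (ee θ) : ℝ)) := by
  simp only [inner_ee]
  fun_prop

theorem gf_ge (K : Body) (θ : ℝ) (z x : ℂ) (hx : x ∈ fib K z) : inner ℝ x (ee θ) ≤ gf K θ z := by
  unfold gf
  exact le_csSup ((fib_compact K z).image (cont_inner' θ)).bddAbove ⟨x, hx, rfl⟩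

theorem gf_attained (K : Body) (θ : ℝ) (z : ℂ) (hz : z ∈ sh1 K) :
    ∃ x ∈ fib K z, gf K θ z = inner ℝ x (ee θ) := by
  obtain ⟨x, hx, h⟩ := (fib_compact K z).exists_sSup_image_eq ((fib_nonempty K z).2 hz)
    (cont_inner' θ).continuousOn
  exact ⟨x, hx, h⟩

private lemma norm_fib {K : Body} {R : ℝ} (hR : ∀ w ∈ pts K, ‖p2 w‖ ≤ R) {z x : ℂ}
    (hx : x ∈ fib K z) : ‖x‖ ≤ R := by
  have := hR _ hx
  rwa [p2_mk] at this

theorem gf_abs (K : Body) (R : ℝ) (hR : ∀ w ∈ pts K, ‖p2 w‖ ≤ R) (θ : ℝ) (z : ℂ) (hz : z ∈ sh1 K) :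
    |gf K θ z| ≤ R := by
  obtain ⟨x, hx, h⟩ := gf_attained K θ z hz
  rw [h]
  refine (abs_real_inner_le_norm x (ee θ)).trans ?_
  rw [norm_ee, mul_one]
  exact norm_fib hR hx

theorem gf_concave (K : Body) (θ : ℝ) : ConcaveOn ℝ (sh1 K) (gf K θ) := by
  refine ⟨sh1_convex K, fun z hz z' hz' a b ha hb hab => ?_⟩
  obtain ⟨x, hx, h⟩ := gf_attained K θ z hz
  obtain ⟨x', hx', h'⟩ := gf_attained K θ z' hz'
  have hmem : a • x + b • x' ∈ fib K (a • z + b • z') := by
    show mk (a • z + b • z') (a • x + b • x') ∈ pts K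
    rw [mk_add, mk_smul, mk_smul]
    exact K.convex hx hx' ha hb hab
  have h1 := gf_ge K θ _ _ hmem
  rw [inner_add_left, inner_smul_left, inner_smul_left] at h1
  rw [h, h']
  exact h1

theorem gf_cont (K : Body) (z : ℂ) (hz : z ∈ sh1 K) : Continuous (fun θ => gf K θ z) :=
  (fib_compact K z).continuous_sSup (f := fun (θ : ℝ) (x : ℂ) => (inner ℝ x (ee θ) : ℝ)) cont_inner

private lemma gf_ii (K : Body) {z : ℂ} (hz : z ∈ sh1 K) :
    IntervalIntegrable (fun θ => gf K θ z) volume 0 (2 * Real.pi) :=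
  (gf_cont K z hz).intervalIntegrable _ _

private lemma two_pi_nn : (0 : ℝ) ≤ 2 * Real.pi := by positivity

theorem cf_concave (K : Body) : ConcaveOn ℝ (sh1 K) (cf K) := by
  refine ⟨sh1_convex K, fun z hz z' hz' a b ha hb hab => ?_⟩
  have hz'' : a • z + b • z' ∈ sh1 K := sh1_convex K hz hz' ha hb hab
  have h1 : ∫ θ in (0 : ℝ)..(2 * Real.pi), (a * gf K θ z + b * gf K θ z') ≤
      ∫ θ in (0 : ℝ)..(2 * Real.pi), gf K θ (a • z + b • z') := by
    refine intervalIntegral.integral_mono_on two_pi_nn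
      (((gf_ii K hz).const_mul a).add ((gf_ii K hz').const_mul b)) (gf_ii K hz'') fun θ _ => ?_
    exact (gf_concave K θ).2 hz hz' ha hb hab
  rw [intervalIntegral.integral_add ((gf_ii K hz).const_mul a) ((gf_ii K hz').const_mul b),
    intervalIntegral.integral_const_mul, intervalIntegral.integral_const_mul] at h1
  have h2 : (0 : ℝ) ≤ (2 * Real.pi)⁻¹ := by positivity
  have h3 := mul_le_mul_of_nonneg_left h1 h2
  unfold cf
  simp only [smul_eq_mul]
  calc a * ((2 * Real.pi)⁻¹ * ∫ θ in (0 : ℝ)..(2 * Real.pi), gf K θ z) +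
        b * ((2 * Real.pi)⁻¹ * ∫ θ in (0 : ℝ)..(2 * Real.pi), gf K θ z')
      = (2 * Real.pi)⁻¹ * (a * (∫ θ in (0 : ℝ)..(2 * Real.pi), gf K θ z) +
        b * ∫ θ in (0 : ℝ)..(2 * Real.pi), gf K θ z') := by ring
    _ ≤ _ := h3

theorem cf_nonneg (K : Body) (z : ℂ) (hz : z ∈ sh1 K) : 0 ≤ cf K z := by
  obtain ⟨x, hx⟩ := (fib_nonempty K z).2 hz
  have h0 : ∫ θ in (0 : ℝ)..(2 * Real.pi), (x.re * Real.cos θ + x.im * Real.sin θ) = 0 := by
    rw [intervalIntegral.integral_add
        ((by fun_prop : Continuous fun θ : ℝ => x.re * Real.cos θ).intervalIntegrable _ _)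
        ((by fun_prop : Continuous fun θ : ℝ => x.im * Real.sin θ).intervalIntegrable _ _),
      intervalIntegral.integral_const_mul, intervalIntegral.integral_const_mul, integral_cos,
      integral_sin]
    simp
  have h1 : ∫ θ in (0 : ℝ)..(2 * Real.pi), (x.re * Real.cos θ + x.im * Real.sin θ) ≤
      ∫ θ in (0 : ℝ)..(2 * Real.pi), gf K θ z := by
    refine intervalIntegral.integral_mono_on two_pi_nn
      ((by fun_prop : Continuous fun θ : ℝ => x.re * Real.cos θ + x.im * Real.sin θ).intervalIntegrable _ _)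
      (gf_ii K hz) fun θ _ => ?_
    rw [← inner_ee]
    exact gf_ge K θ z x hx
  rw [h0] at h1
  exact mul_nonneg (by positivity) h1

theorem cf_le (K : Body) (R : ℝ) (hR : ∀ w ∈ pts K, ‖p2 w‖ ≤ R) (z : ℂ) (hz : z ∈ sh1 K) :
    cf K z ≤ R := by
  have h1 : ∫ θ in (0 : ℝ)..(2 * Real.pi), gf K θ z ≤ ∫ _ in (0 : ℝ)..(2 * Real.pi), R := by
    refine intervalIntegral.integral_mono_on two_pi_nn (gf_ii K hz)
      (continuous_const.intervalIntegrable _ _) fun θ _ => ?_
    exact (le_abs_self _).trans (gf_abs K R hR θ z hz)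
  rw [intervalIntegral.integral_const, sub_zero, smul_eq_mul] at h1
  have hp : (0 : ℝ) < 2 * Real.pi := by positivity
  unfold cf
  rw [inv_mul_le_iff₀ hp]
  exact h1

theorem fib_area (K : Body) (z : ℂ) (hz : z ∈ sh1 K) : ar (fib K z) ≤ Real.pi * cf K z ^ 2 :=
  isoper (fib K z) (fib_compact K z) (fib_convex K z) ((fib_nonempty K z).2 hz)

theorem mass (K : Body) : IntegrableOn (fun z => cf K z ^ 2) (sh1 K) ∧
    (volume (pts K)).toReal ≤ Real.pi * ∫ z in sh1 K, cf K z ^ 2 := by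
  obtain ⟨R, hR⟩ := (sh2_compact K).isBounded.exists_norm_le
  have hR' : ∀ w ∈ pts K, ‖p2 w‖ ≤ R := fun w hw => hR _ (mem_image_of_mem _ hw)
  have hfr : volume (frontier (sh1 K)) = 0 := (sh1_convex K).addHaar_frontier volume
  have hae : interior (sh1 K) =ᵐ[volume] sh1 K := interior_ae_eq_of_null_frontier hfr
  have hfin : volume (sh1 K) ≠ ⊤ := (sh1_compact K).measure_lt_top.ne
  have hint : IntegrableOn (fun z => cf K z ^ 2) (interior (sh1 K)) := by
    have hco : ContinuousOn (fun z => cf K z ^ 2) (interior (sh1 K)) :=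
      ((cf_concave K).continuousOn_interior).pow 2
    have hfi : volume (interior (sh1 K)) < ⊤ :=
      (measure_mono interior_subset).trans_lt (sh1_compact K).measure_lt_top
    have : IsFiniteMeasure (volume.restrict (interior (sh1 K))) :=
      ⟨by rwa [Measure.restrict_apply_univ]⟩
    refine Integrable.mono' (integrable_const (R ^ 2))
      (hco.aestronglyMeasurable isOpen_interior.measurableSet) ?_
    refine (ae_restrict_iff' isOpen_interior.measurableSet).2 (Filter.Eventually.of_forall fun z hz => ?_)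
    have hz' := interior_subset hz
    have h1 := cf_nonneg K z hz'
    have h2 := cf_le K R hR' z hz'
    rw [Real.norm_eq_abs, abs_of_nonneg (sq_nonneg _)]
    exact pow_le_pow_left₀ h1 h2 2
  have hint' : IntegrableOn (fun z => cf K z ^ 2) (sh1 K) := hint.congr_set_ae hae.symm
  refine ⟨hint', ?_⟩
  obtain ⟨hv1, hv2⟩ := vol_eq K
  rw [hv2, ← integral_const_mul]
  exact setIntegral_mono_on hv1 (hint'.const_mul _) (sh1_compact K).measurableSet
    fun z hz => fib_area K z hz

end Pool.Agent.HAS
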