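import Pool.Agent.HAS.BesT

/-!
# The extremal function (module OneD)

PLAN.  `w = √kap`, `r0 = 1 - T`, `s(r) = w J₁(w · max 0 (min r r0))`: continuous, monotone (`J1_mono`,
`kap (1-T)^2 ≤ 8/3`: `kap < 5.79`, `(1-T)^2 ≤ 0.6478^2 = 0.4197`, product `≤ 2.431`), nonnegative.
`g(r) = ∫_r^1 s`: for `r ∈ [r0, 1]`, `g = k (1-r)`, `k = w J₁(w r0)`; `g(r0) = k T = J₀(w r0)` by
`Par.bes`; for `r ∈ [0, r0]`, `g(r) = J₀(w r)` (`J0_hasDerivAt`).
`∫_0^{r0} (s^2 - kap g^2) r = [-r g s]_0^{r0} = -r0 k^2 T`, because `(r s)' = kap r g`, `g' = -s`: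
`(r s g)' = kap r g^2 - r s^2`.  And `∫_{r0}^1 (k^2 - kap k^2 (1-r)^2) r dr = k^2 T (1-T)` (formula for
`kap`).  Sum `0`, which is the claim.  Positivity of `∫ g^2 r` is clear (`g > 0` on `[0,1)`).
-/

set_option autoImplicit false

namespace Pool.Agent.HAS

open MeasureTheory

private theorem poly_int (a : ℝ) :
    ∫ r in a..1, (1 - r) ^ 2 * r = (1 - a) ^ 3 * (4 - 3 * (1 - a)) / 12 := by
  have h : ∀ x ∈ Set.uIcc a 1, HasDerivAt (fun r : ℝ => -((1 - r) ^ 3 / 3 - (1 - r) ^ 4 / 4))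
      ((1 - x) ^ 2 * x) x := by
    intro x _
    have h1 : HasDerivAt (fun r : ℝ => 1 - r) (-1) x := by
      simpa using (hasDerivAt_id x).const_sub 1
    have h2 := ((h1.pow 3).div_const 3).sub ((h1.pow 4).div_const 4)
    refine (h2.neg).congr_deriv ?_
    norm_num
    ring
  rw [intervalIntegral.integral_eq_sub_of_hasDerivAt h
    (Continuous.intervalIntegrable (by fun_prop) _ _)]
  ring

private theorem sq_int (a : ℝ) : ∫ r in a..1, r = (1 - a ^ 2) / 2 := by
  rw [integral_id]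
  ring

theorem extremal {T kap : ℝ} (hP : Par T kap) : ∃ s : ℝ → ℝ, Continuous s ∧ Monotone s ∧
    (∀ r, 0 ≤ s r) ∧ 0 < ∫ r in (0 : ℝ)..1, (∫ t in r..1, s t) ^ 2 * r ∧
    ∫ r in (0 : ℝ)..1, s r ^ 2 * r = kap * ∫ r in (0 : ℝ)..1, (∫ t in r..1, s t) ^ 2 * r := by
  obtain ⟨hk1, hk2⟩ := hP.kap_bounds
  have hT0 := hP.T0
  have hT1 := hP.T1
  have hkap0 : 0 < kap := by linarith
  set w : ℝ := Real.sqrt kap with hw
  have hw0 : 0 < w := Real.sqrt_pos.mpr hkap0
  have hww : w * w = kap := Real.mul_self_sqrt hkap0.le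
  set r0 : ℝ := 1 - T with hr0
  have hr00 : 0 < r0 := by rw [hr0]; linarith
  have hr01 : r0 < 1 := by rw [hr0]; linarith
  have hbes : J0 (w * r0) = w * T * J1 (w * r0) := hP.bes
  -- the truncation
  set m : ℝ → ℝ := fun r => max 0 (min r r0) with hm
  have hmc : Continuous m := by
    rw [hm]; fun_prop
  have hm0 : ∀ r, 0 ≤ m r := fun r => le_max_left _ _
  have hm1 : ∀ r, m r ≤ r0 := fun r => max_le hr00.le (min_le_right _ _)
  have hmm : Monotone m := fun a b hab => max_le_max le_rfl (min_le_min hab le_rfl)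
  have hmid : ∀ r, 0 ≤ r → r ≤ r0 → m r = r := fun r h1 h2 => by
    simp only [hm, min_eq_left h2, max_eq_right h1]
  have hmr0 : ∀ r, r0 ≤ r → m r = r0 := fun r h => by
    simp only [hm, min_eq_right h, max_eq_right hr00.le]
  have hdom : ∀ r, w * m r ∈ {x : ℝ | 0 ≤ x ∧ x ^ 2 ≤ 8 / 3} := fun r => by
    refine ⟨mul_nonneg hw0.le (hm0 r), ?_⟩
    have h1 : (w * m r) ^ 2 = kap * (m r) ^ 2 := by rw [← hww]; ring
    have h2 : (m r) ^ 2 ≤ (6478 / 10000) ^ 2 := by
      have h3 := hm1 r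
      have h4 : m r ≤ 6478 / 10000 := by rw [hr0] at h3; linarith
      exact pow_le_pow_left₀ (hm0 r) h4 2
    rw [h1]
    calc kap * (m r) ^ 2 ≤ (579 / 100) * (6478 / 10000) ^ 2 :=
          mul_le_mul hk2.le h2 (sq_nonneg _) (by norm_num)
      _ ≤ 8 / 3 := by norm_num
  set s : ℝ → ℝ := fun r => w * J1 (w * m r) with hs
  have hsc : Continuous s := by
    rw [hs]
    exact continuous_const.mul (J1_continuous.comp (continuous_const.mul hmc))
  have hsm : Monotone s := fun a b hab =>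
    mul_le_mul_of_nonneg_left (J1_mono (hdom a) (hdom b)
      (mul_le_mul_of_nonneg_left (hmm hab) hw0.le)) hw0.le
  have hs0 : ∀ r, 0 ≤ s r := fun r => by
    refine mul_nonneg hw0.le ?_
    have h1 : (0 : ℝ) ∈ {x : ℝ | 0 ≤ x ∧ x ^ 2 ≤ 8 / 3} := ⟨le_rfl, by norm_num⟩
    have h2 := J1_mono h1 (hdom r) (mul_nonneg hw0.le (hm0 r))
    rwa [J1_zero] at h2
  set k : ℝ := w * J1 (w * r0) with hk
  have hk0 : 0 < k := by
    refine mul_pos hw0 (J1_pos _ (mul_pos hw0 hr00) ?_)
    have h1 := (hdom r0).2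
    rw [hmr0 r0 le_rfl] at h1
    linarith
  have hsr : ∀ r, r0 ≤ r → s r = k := fun r h => by
    simp only [hs, hk, hmr0 r h]
  have hsl : ∀ r, 0 ≤ r → r ≤ r0 → s r = w * J1 (w * r) := fun r h1 h2 => by
    simp only [hs, hmid r h1 h2]
  -- the primitive on the right
  have hgr : ∀ r, r0 ≤ r → r ≤ 1 → ∫ t in r..1, s t = k * (1 - r) := by
    intro r h1 h2
    have h3 : ∫ t in r..1, s t = ∫ t in r..1, k := by
      refine intervalIntegral.integral_congr (fun t ht => ?_)
      rw [Set.uIcc_of_le h2] at ht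
      exact hsr t (h1.trans ht.1)
    rw [h3, intervalIntegral.integral_const, smul_eq_mul]
    ring
  have hJd : ∀ x, HasDerivAt (fun r => J0 (w * r)) (-(w * J1 (w * x))) x := by
    intro x
    have h1 : HasDerivAt (fun r : ℝ => w * r) w x := by
      simpa using (hasDerivAt_id x).const_mul w
    exact ((J0_hasDerivAt (w * x)).comp x h1).congr_deriv (by ring)
  have hJ1c : Continuous (fun x : ℝ => J1 (w * x)) :=
    J1_continuous.comp (continuous_const.mul continuous_id)
  have hJ0c : Continuous (fun x : ℝ => J0 (w * x)) :=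
    J0_continuous.comp (continuous_const.mul continuous_id)
  have hgl : ∀ r, 0 ≤ r → r ≤ r0 → ∫ t in r..1, s t = J0 (w * r) := by
    intro r h1 h2
    have hI : ∀ a b : ℝ, IntervalIntegrable s volume a b := fun a b =>
      hsc.intervalIntegrable a b
    rw [← intervalIntegral.integral_add_adjacent_intervals (hI r r0) (hI r0 1)]
    rw [hgr r0 le_rfl hr01.le]
    have h3 : ∫ t in r..r0, s t = ∫ t in r..r0, w * J1 (w * t) := by
      refine intervalIntegral.integral_congr (fun t ht => ?_)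
      rw [Set.uIcc_of_le h2] at ht
      exact hsl t (h1.trans ht.1) ht.2
    have h4 : ∫ t in r..r0, w * J1 (w * t) = -J0 (w * r0) - -J0 (w * r) := by
      have h5 : ∀ x ∈ Set.uIcc r r0, HasDerivAt (fun r => -J0 (w * r)) (w * J1 (w * x)) x := by
        intro x _
        have h6 := (hJd x).neg
        rwa [neg_neg] at h6
      exact intervalIntegral.integral_eq_sub_of_hasDerivAt h5
        ((continuous_const.mul hJ1c).intervalIntegrable _ _)
    rw [h3, h4]
    have h7 : k * (1 - r0) = J0 (w * r0) := by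
      rw [hbes, hk, hr0]; ring
    rw [h7]; ring
  set g : ℝ → ℝ := fun r => ∫ t in r..1, s t with hg
  have hgc : Continuous g := by
    have h1 : Continuous (fun r => ∫ t in (1 : ℝ)..r, s t) :=
      intervalIntegral.continuous_primitive (fun a b => hsc.intervalIntegrable a b) 1
    have h2 : g = fun r => -∫ t in (1 : ℝ)..r, s t := by
      funext r
      simp only [hg]
      exact intervalIntegral.integral_symm 1 r
    rw [h2]
    exact h1.neg
  have hc1 : Continuous (fun r => g r ^ 2 * r) := (hgc.pow 2).mul continuous_id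
  have hc2 : Continuous (fun r => s r ^ 2 * r) := (hsc.pow 2).mul continuous_id
  -- the integrals
  have hA : ∫ r in (0 : ℝ)..1, g r ^ 2 * r =
      (∫ r in (0 : ℝ)..r0, g r ^ 2 * r) + ∫ r in r0..1, g r ^ 2 * r :=
    (intervalIntegral.integral_add_adjacent_intervals (hc1.intervalIntegrable _ _)
      (hc1.intervalIntegrable _ _)).symm
  have hB : ∫ r in (0 : ℝ)..1, s r ^ 2 * r =
      (∫ r in (0 : ℝ)..r0, s r ^ 2 * r) + ∫ r in r0..1, s r ^ 2 * r :=
    (intervalIntegral.integral_add_adjacent_intervals (hc2.intervalIntegrable _ _)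
      (hc2.intervalIntegrable _ _)).symm
  have hA2 : ∫ r in r0..1, g r ^ 2 * r = k ^ 2 * (T ^ 3 * (4 - 3 * T) / 12) := by
    have h1 : ∫ r in r0..1, g r ^ 2 * r = ∫ r in r0..1, k ^ 2 * ((1 - r) ^ 2 * r) := by
      refine intervalIntegral.integral_congr (fun t ht => ?_)
      rw [Set.uIcc_of_le hr01.le] at ht
      have h2 : g t = k * (1 - t) := hgr t ht.1 ht.2
      simp only [h2]
      ring
    rw [h1, intervalIntegral.integral_const_mul, poly_int, hr0]
    congr 1
    ring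
  have hB2 : ∫ r in r0..1, s r ^ 2 * r = k ^ 2 * ((1 - r0 ^ 2) / 2) := by
    have h1 : ∫ r in r0..1, s r ^ 2 * r = ∫ r in r0..1, k ^ 2 * r := by
      refine intervalIntegral.integral_congr (fun t ht => ?_)
      rw [Set.uIcc_of_le hr01.le] at ht
      simp only [hsr t ht.1]
    rw [h1, intervalIntegral.integral_const_mul, sq_int]
  have hA1 : ∫ r in (0 : ℝ)..r0, g r ^ 2 * r = ∫ r in (0 : ℝ)..r0, J0 (w * r) ^ 2 * r := by
    refine intervalIntegral.integral_congr (fun t ht => ?_)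
    rw [Set.uIcc_of_le hr00.le] at ht
    have h2 : g t = J0 (w * t) := hgl t ht.1 ht.2
    simp only [h2]
  have hB1 : ∫ r in (0 : ℝ)..r0, s r ^ 2 * r =
      ∫ r in (0 : ℝ)..r0, (w * J1 (w * r)) ^ 2 * r := by
    refine intervalIntegral.integral_congr (fun t ht => ?_)
    rw [Set.uIcc_of_le hr00.le] at ht
    simp only [hsl t ht.1 ht.2]
  have hC : (∫ r in (0 : ℝ)..r0, (w * J1 (w * r)) ^ 2 * r) -
      kap * ∫ r in (0 : ℝ)..r0, J0 (w * r) ^ 2 * r = -(r0 * k * (k * T)) := by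
    have hcc1 : Continuous (fun r => (w * J1 (w * r)) ^ 2 * r) :=
      ((continuous_const.mul hJ1c).pow 2).mul continuous_id
    have hcc2 : Continuous (fun r => kap * (J0 (w * r) ^ 2 * r)) :=
      continuous_const.mul ((hJ0c.pow 2).mul continuous_id)
    rw [← intervalIntegral.integral_const_mul, ← intervalIntegral.integral_sub
      (hcc1.intervalIntegrable _ _) (hcc2.intervalIntegrable _ _)]
    have hd : ∀ x ∈ Set.uIcc 0 r0, HasDerivAt (fun r => -(w * r * J1 (w * r) * J0 (w * r)))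
        ((w * J1 (w * x)) ^ 2 * x - kap * (J0 (w * x) ^ 2 * x)) x := by
      intro x _
      have h1 : HasDerivAt (fun r : ℝ => w * r) w x := by
        simpa using (hasDerivAt_id x).const_mul w
      have h2 : HasDerivAt (fun r : ℝ => w * r * J1 (w * r)) (w * x * J0 (w * x) * w) x :=
        (mul_J1_hasDerivAt (w * x)).comp x h1
      refine (h2.mul (hJd x)).neg.congr_deriv ?_
      rw [← hww]
      ring
    rw [intervalIntegral.integral_eq_sub_of_hasDerivAt hd
      ((hcc1.sub hcc2).intervalIntegrable _ _), hbes]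
    simp only [hk]
    ring
  have hT : 0 < T := by linarith
  have hT43 : 0 < 4 - 3 * T := by linarith
  have hkapT : kap * (T ^ 3 * (4 - 3 * T) / 12) = T ^ 2 / 2 := by
    rw [hP.kap_eq]
    have h1 : T * (4 - 3 * T) ≠ 0 := (mul_pos hT hT43).ne'
    rw [div_mul_eq_mul_div, div_eq_iff h1]
    ring
  refine ⟨s, hsc, hsm, hs0, ?_, ?_⟩
  · change 0 < ∫ r in (0 : ℝ)..1, g r ^ 2 * r
    rw [hA, hA2]
    have h1 : 0 ≤ ∫ r in (0 : ℝ)..r0, g r ^ 2 * r :=
      intervalIntegral.integral_nonneg hr00.le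
        (fun u hu => mul_nonneg (sq_nonneg _) hu.1)
    have h2 : 0 < k ^ 2 * (T ^ 3 * (4 - 3 * T) / 12) := by positivity
    linarith
  · change ∫ r in (0 : ℝ)..1, s r ^ 2 * r = kap * ∫ r in (0 : ℝ)..1, g r ^ 2 * r
    rw [hA, hB, hA1, hB1, hA2, hB2]
    have h1 : kap * ((∫ r in (0 : ℝ)..r0, J0 (w * r) ^ 2 * r) +
        k ^ 2 * (T ^ 3 * (4 - 3 * T) / 12)) =
        kap * (∫ r in (0 : ℝ)..r0, J0 (w * r) ^ 2 * r) + k ^ 2 * (T ^ 2 / 2) := by
      rw [← hkapT]; ring
    rw [h1]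
    have h2 : -(r0 * k * (k * T)) + k ^ 2 * ((1 - r0 ^ 2) / 2) = k ^ 2 * (T ^ 2 / 2) := by
      rw [hr0]; ring
    linarith

end Pool.Agent.HAS
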