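import Pool.Agent.HAS.GeDefs

/-!
# The radial function (module GeA)

PLAN.  `gauge A` is sublinear, `‖u‖/R0 ≤ gauge A u ≤ ‖u‖/ρ` (`gauge_le_of_...`, `gauge_mono`,
`gauge_closedBall`), so `ρ ≤ rad ≤ R0` (`‖ee θ‖ = 1`); `|gauge A u - gauge A u'| ≤ ‖u-u'‖/ρ`;
`‖ee θ - ee θ'‖ ≤ |θ - θ'|`; hence `|rad θ - rad θ'| ≤ (R0²/ρ)|θ-θ'|`.
Membership: for a closed convex set with `0` in the interior `x ∈ A ↔ gauge A x ≤ 1`
(`gauge_le_one_iff_mem_closure`), `x ∈ interior A ↔ gauge A x < 1` (`gauge_lt_one_iff_mem_interior`),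
`frontier`: `gauge = 1` (`gauge_eq_one_iff_mem_frontier`).
`bp_dist`: `‖bp A lam θ - bp A lam θ'‖ ≤ lam (R0²/ρ + R0)|θ-θ'|`.
-/

set_option autoImplicit false

namespace Pool.Agent.HAS

open MeasureTheory Metric Set
open scoped Pointwise

theorem ee_norm (θ : ℝ) : ‖ee θ‖ = 1 := by
  have h : ‖ee θ‖ ^ 2 = 1 := by
    rw [Complex.sq_norm, Complex.normSq_apply]
    show Real.cos θ * Real.cos θ + Real.sin θ * Real.sin θ = 1
    have h1 := Real.cos_sq_add_sin_sq θ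
    nlinarith
  exact (pow_eq_one_iff_of_nonneg (norm_nonneg _) two_ne_zero).1 h

private theorem ee_sub (θ θ' : ℝ) : ‖ee θ - ee θ'‖ ≤ |θ - θ'| := by
  refine abs_le_of_sq_le_sq' ?_ (abs_nonneg _) |>.2
  rw [Complex.sq_norm, Complex.normSq_apply, sq_abs]
  show (Real.cos θ - Real.cos θ') * (Real.cos θ - Real.cos θ') +
    (Real.sin θ - Real.sin θ') * (Real.sin θ - Real.sin θ') ≤ (θ - θ') ^ 2
  have h1 := Real.cos_sq_add_sin_sq θ
  have h2 := Real.cos_sq_add_sin_sq θ'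
  have h3 := Real.cos_sub θ θ'
  have h4 := Real.one_sub_sq_div_two_le_cos (x := θ - θ')
  nlinarith

theorem ee_cont : Continuous ee := by
  rw [Metric.continuous_iff]
  intro b ε hε
  refine ⟨ε, hε, fun a ha => ?_⟩
  rw [dist_eq_norm] at ha ⊢
  exact (ee_sub a b).trans_lt ha

theorem exists_ee (z : ℂ) : ∃ θ : ℝ, -Real.pi < θ ∧ θ ≤ Real.pi ∧ z = ‖z‖ • ee θ := by
  refine ⟨Complex.arg z, Complex.neg_pi_lt_arg z, Complex.arg_le_pi z, ?_⟩
  apply Complex.ext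
  · rw [Complex.smul_re, smul_eq_mul]
    exact (Complex.norm_mul_cos_arg z).symm
  · rw [Complex.smul_im, smul_eq_mul]
    exact (Complex.norm_mul_sin_arg z).symm

variable {A : Set ℂ} {ρ R0 : ℝ}

private theorem nh (h : Geo A ρ R0) : A ∈ nhds (0 : ℂ) :=
  Filter.mem_of_superset (closedBall_mem_nhds 0 h.ρ0) h.inner

private theorem R0_pos (h : Geo A ρ R0) : 0 < R0 := by
  have h1 : (ρ : ℂ) ∈ closedBall (0 : ℂ) R0 := h.outer (h.inner (by
    rw [mem_closedBall, dist_zero_right, Complex.norm_real, Real.norm_of_nonneg h.ρ0.le]))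
  rw [mem_closedBall, dist_zero_right, Complex.norm_real, Real.norm_of_nonneg h.ρ0.le] at h1
  exact h.ρ0.trans_le h1

private theorem g_le (h : Geo A ρ R0) (u : ℂ) : gauge A u ≤ ‖u‖ / ρ := by
  rw [← gauge_closedBall h.ρ0.le u]
  exact gauge_mono (absorbent_nhds_zero (closedBall_mem_nhds 0 h.ρ0)) h.inner u

private theorem g_ge (h : Geo A ρ R0) (u : ℂ) : ‖u‖ / R0 ≤ gauge A u := by
  rw [← gauge_closedBall (R0_pos h).le u]
  exact gauge_mono (absorbent_nhds_zero (nh h)) h.outer u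

private theorem g_lip (h : Geo A ρ R0) (u u' : ℂ) : |gauge A u - gauge A u'| ≤ ‖u - u'‖ / ρ := by
  have habs := absorbent_nhds_zero (𝕜 := ℝ) (nh h)
  have h1 : gauge A u ≤ gauge A u' + ‖u - u'‖ / ρ := by
    have h2 := gauge_add_le h.conv habs u' (u - u')
    rw [add_sub_cancel] at h2
    exact h2.trans (by linarith [g_le h (u - u')])
  have h3 : gauge A u' ≤ gauge A u + ‖u - u'‖ / ρ := by
    have h2 := gauge_add_le h.conv habs u (u' - u)
    rw [add_sub_cancel] at h2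
    rw [norm_sub_rev]
    exact h2.trans (by linarith [g_le h (u' - u)])
  rw [abs_le]
  constructor <;> linarith

private theorem g_ee_pos (h : Geo A ρ R0) (θ : ℝ) : 0 < gauge A (ee θ) := by
  have h1 := g_ge h (ee θ)
  rw [ee_norm] at h1
  exact (div_pos one_pos (R0_pos h)).trans_le h1

theorem rad_bounds (h : Geo A ρ R0) (θ : ℝ) : ρ ≤ rad A θ ∧ rad A θ ≤ R0 := by
  have h1 := g_ge h (ee θ)
  have h2 := g_le h (ee θ)
  rw [ee_norm] at h1 h2
  have h3 := g_ee_pos h θ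
  unfold rad
  constructor
  · rw [le_inv_comm₀ h.ρ0 h3, ← one_div]
    exact h2
  · rw [inv_le_comm₀ h3 (R0_pos h), ← one_div]
    exact h1

theorem rad_lip (h : Geo A ρ R0) (θ θ' : ℝ) : |rad A θ - rad A θ'| ≤ R0 ^ 2 / ρ * |θ - θ'| := by
  have h1 := g_ee_pos h θ
  have h2 := g_ee_pos h θ'
  have h3 : rad A θ - rad A θ' = rad A θ * rad A θ' * (gauge A (ee θ') - gauge A (ee θ)) := by
    unfold rad
    field_simp
  obtain ⟨a1, a2⟩ := rad_bounds h θ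
  obtain ⟨b1, b2⟩ := rad_bounds h θ'
  have ha0 : 0 ≤ rad A θ := h.ρ0.le.trans a1
  have hb0 : 0 ≤ rad A θ' := h.ρ0.le.trans b1
  have h4 : |gauge A (ee θ') - gauge A (ee θ)| ≤ |θ - θ'| / ρ := by
    refine (g_lip h (ee θ') (ee θ)).trans (div_le_div_of_nonneg_right ?_ h.ρ0.le)
    rw [abs_sub_comm]
    exact ee_sub θ' θ
  rw [h3, abs_mul, abs_of_nonneg (mul_nonneg ha0 hb0)]
  calc rad A θ * rad A θ' * |gauge A (ee θ') - gauge A (ee θ)|
      ≤ (R0 * R0) * (|θ - θ'| / ρ) :=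
        mul_le_mul (mul_le_mul a2 b2 hb0 (R0_pos h).le) h4 (abs_nonneg _)
          (mul_nonneg (R0_pos h).le (R0_pos h).le)
    _ = R0 ^ 2 / ρ * |θ - θ'| := by ring

theorem rad_cont (h : Geo A ρ R0) : Continuous (rad A) := by
  unfold rad
  exact ((continuous_gauge h.conv (nh h)).comp ee_cont).inv₀ fun θ => (g_ee_pos h θ).ne'

theorem bp_lip (h : Geo A ρ R0) (lam θ θ' : ℝ) (hl : 0 ≤ lam) :
    ‖bp A lam θ - bp A lam θ'‖ ≤ lam * ((R0 ^ 2 / ρ + R0) * |θ - θ'|) := by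
  have h1 : bp A lam θ - bp A lam θ' =
      lam • ((rad A θ - rad A θ') • ee θ + rad A θ' • (ee θ - ee θ')) := by
    unfold bp
    module
  obtain ⟨b1, b2⟩ := rad_bounds h θ'
  have hb0 : 0 ≤ rad A θ' := h.ρ0.le.trans b1
  rw [h1, norm_smul, Real.norm_of_nonneg hl]
  refine mul_le_mul_of_nonneg_left ?_ hl
  refine (norm_add_le _ _).trans ?_
  rw [norm_smul, norm_smul, ee_norm, mul_one, Real.norm_of_nonneg hb0, Real.norm_eq_abs, add_mul]
  exact add_le_add (rad_lip h θ θ') (mul_le_mul b2 (ee_sub θ θ') (norm_nonneg _) (R0_pos h).le)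

private theorem g_bp (h : Geo A ρ R0) (lam θ : ℝ) (hl : 0 ≤ lam) : gauge A (bp A lam θ) = lam := by
  have h1 := g_ee_pos h θ
  obtain ⟨b1, b2⟩ := rad_bounds h θ
  have hb0 : 0 ≤ rad A θ := h.ρ0.le.trans b1
  unfold bp
  rw [gauge_smul_of_nonneg (mul_nonneg hl hb0), smul_eq_mul]
  unfold rad
  rw [mul_assoc, inv_mul_cancel₀ h1.ne', mul_one]

private theorem mem_iff (h : Geo A ρ R0) (z : ℂ) : z ∈ A ↔ gauge A z ≤ 1 := by
  rw [gauge_le_one_iff_mem_closure h.conv (nh h), h.cpt.isClosed.closure_eq]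

theorem bp_mem (h : Geo A ρ R0) (lam θ : ℝ) (hl : 0 ≤ lam) : bp A lam θ ∈ A ↔ lam ≤ 1 := by
  rw [mem_iff h, g_bp h lam θ hl]

theorem bp_int (h : Geo A ρ R0) (lam θ : ℝ) (hl : 0 ≤ lam) : bp A lam θ ∈ interior A ↔ lam < 1 := by
  rw [← gauge_lt_one_iff_mem_interior h.conv (nh h), g_bp h lam θ hl]

theorem bp_frontier (h : Geo A ρ R0) (θ : ℝ) : bp A 1 θ ∈ frontier A := by
  rw [← gauge_eq_one_iff_mem_frontier h.conv (nh h), g_bp h 1 θ zero_le_one]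

/-- every point of `A` is `bp A lam θ` with `lam = gauge A z` -/
theorem exists_bp (h : Geo A ρ R0) (z : ℂ) (hz : z ∈ A) : ∃ lam θ : ℝ, 0 ≤ lam ∧ lam ≤ 1 ∧
    -Real.pi < θ ∧ θ ≤ Real.pi ∧ z = bp A lam θ ∧ lam = gauge A z := by
  obtain ⟨θ, h1, h2, h3⟩ := exists_ee z
  refine ⟨gauge A z, θ, gauge_nonneg z, (mem_iff h z).1 hz, h1, h2, ?_, rfl⟩
  have h4 : gauge A z = ‖z‖ * gauge A (ee θ) := by
    have h5 := gauge_smul_of_nonneg (s := A) (norm_nonneg z) (ee θ)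
    rw [← h3, smul_eq_mul] at h5
    exact h5
  unfold bp rad
  rw [h4, mul_assoc, mul_inv_cancel₀ (g_ee_pos h θ).ne', mul_one]
  exact h3

theorem mem_smul_iff (h : Geo A ρ R0) (lam : ℝ) (hl : 0 < lam) (z : ℂ) :
    z ∈ lam • A ↔ gauge A z ≤ lam := by
  rw [mem_smul_set_iff_inv_smul_mem₀ hl.ne', mem_iff h,
    gauge_smul_of_nonneg (inv_nonneg.2 hl.le), smul_eq_mul, inv_mul_le_iff₀ hl, mul_one]

end Pool.Agent.HAS
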