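import Pool.Agent.HAS.UbA
import Pool.Agent.HAS.GeA

/-!
# Volume and `V2` (module UbD)

PLAN.  `vol_kset`: `vol_eq` (module FibA): fibre over `‖z‖ ≤ 1` is `closedBall 0 (ε GG s ‖z‖)`, area `π ε² GG(‖z‖)²`;
polar coordinates: `∫_{‖z‖≤1} GG(‖z‖)² = 2π ∫_0^1 GG² r dr`.  (Or `I2_c2` as in `cap_volume`.)
`V2_kset`: as `ε → 0⁺` the bodies converge (Hausdorff distance `≤ ε GG s 0`) to the disc `D = {‖p1 w‖ ≤ 1, p2 w = 0}`;
`V2` is continuous (`muab_continuous 1 1`), and `V2 D = π` by the Klain property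
(`(isHermVal_muab 1 1).klain` with `e = mk 1 0`, `f = mk I 0`; coefficient `1 (1 - x²) + 1 x² = 1`, area of the unit disc
in `ℝ × ℝ` is `π`).
-/

set_option autoImplicit false

namespace Pool.Agent.HAS

open MeasureTheory Metric Set
open Pool.Agent.Helper85.Herm Pool.Agent.Helper85.Cap Pool.Agent.HVM

private theorem kset_mem (s : ℝ → ℝ) (ε : ℝ) (z x : ℂ) :
    mk z x ∈ kset s ε ↔ ‖z‖ ≤ 1 ∧ ‖x‖ ≤ ε * GG s ‖z‖ := by
  unfold kset
  rw [mem_ofPred_eq, p1_mk, p2_mk]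

private theorem fib_eq {s : ℝ → ℝ} {ε : ℝ} {K : Body}
    (hK : pts K = kset s ε) (z : ℂ) (hz : ‖z‖ ≤ 1) : fib K z = closedBall 0 (ε * GG s ‖z‖) := by
  ext x
  unfold fib
  rw [mem_ofPred_eq, hK, kset_mem, mem_closedBall_zero_iff]
  exact ⟨fun h => h.2, fun h => ⟨hz, h⟩⟩

private theorem GG_nonneg {s : ℝ → ℝ} (hs : Slope s) (r : ℝ) (h0 : 0 ≤ r) (h1 : r ≤ 1) :
    0 ≤ GG s r := by
  rcases h1.eq_or_lt with h | h
  · rw [h]
    unfold GG
    rw [intervalIntegral.integral_same]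
  · exact (GG_pos hs r h0 h).le

private theorem sh1_eq {s : ℝ → ℝ} (hs : Slope s) {ε : ℝ} (hε : 0 < ε) {K : Body}
    (hK : pts K = kset s ε) : sh1 K = closedBall 0 1 := by
  ext z
  rw [mem_closedBall_zero_iff]
  constructor
  · rintro ⟨w, hw, rfl⟩
    rw [hK] at hw
    exact hw.1
  · intro hz
    rw [← fib_nonempty K z, fib_eq hK z hz]
    exact ⟨0, mem_closedBall_self (mul_nonneg hε.le (GG_nonneg hs _ (norm_nonneg _) hz))⟩

private theorem ar_ball (r : ℝ) (hr : 0 ≤ r) : ar (closedBall (0 : ℂ) r) = Real.pi * r ^ 2 := by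
  unfold ar
  rw [Complex.volume_closedBall, ENNReal.toReal_mul, ENNReal.toReal_pow, ENNReal.toReal_ofReal hr]
  rw [mul_comm]
  rfl

theorem vol_kset {s : ℝ → ℝ} (hs : Slope s) (ε : ℝ) (hε : 0 < ε) (K : Body)
    (hK : pts K = kset s ε) : (volume (pts K)).toReal = 2 * Real.pi ^ 2 * ε ^ 2 * I0 s := by
  rw [(vol_eq K).2, sh1_eq hs hε hK]
  have h1 : ∫ z in closedBall (0 : ℂ) 1, ar (fib K z) =
      ∫ z : ℂ, (Iic (1 : ℝ)).indicator (fun r => Real.pi * (ε * GG s r) ^ 2) ‖z‖ := by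
    rw [← integral_indicator measurableSet_closedBall]
    congr 1
    funext z
    by_cases hz : ‖z‖ ≤ 1
    · rw [indicator_of_mem (mem_closedBall_zero_iff.2 hz), indicator_of_mem (mem_Iic.2 hz), fib_eq hK z hz,
        ar_ball _ (mul_nonneg hε.le (GG_nonneg hs _ (norm_nonneg _) hz))]
    · rw [indicator_of_notMem (fun h => hz (mem_closedBall_zero_iff.1 h)),
        indicator_of_notMem (fun h => hz (mem_Iic.1 h))]
  rw [h1, integral_fun_norm_addHaar]
  have h2 : (volume : Measure ℂ).real (ball 0 1) = Real.pi := by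
    rw [measureReal_def, Complex.volume_ball]
    simp
  rw [h2, Complex.finrank_real_complex]
  have h3 : ∫ y in Ioi (0 : ℝ), y ^ (2 - 1) • (Iic (1 : ℝ)).indicator (fun r => Real.pi * (ε * GG s r) ^ 2) y =
      ∫ r in (0 : ℝ)..1, Real.pi * ε ^ 2 * (GG s r ^ 2 * r) := by
    rw [intervalIntegral.integral_of_le zero_le_one, ← integral_indicator measurableSet_Ioi,
      ← integral_indicator measurableSet_Ioc]
    congr 1
    funext y
    by_cases hy0 : 0 < y
    · rw [indicator_of_mem (mem_Ioi.2 hy0)]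
      by_cases hy1 : y ≤ 1
      · rw [indicator_of_mem (mem_Iic.2 hy1), indicator_of_mem (show y ∈ Ioc (0 : ℝ) 1 from ⟨hy0, hy1⟩)]
        simp only [smul_eq_mul]
        ring
      · rw [indicator_of_notMem (fun h => hy1 (mem_Iic.1 h)), indicator_of_notMem (fun h => hy1 h.2), smul_zero]
    · rw [indicator_of_notMem (fun h => hy0 (mem_Ioi.1 h)), indicator_of_notMem (fun h => hy0 h.1)]
  rw [h3, intervalIntegral.integral_const_mul]
  unfold I0
  simp only [nsmul_eq_mul, smul_eq_mul, Nat.cast_ofNat]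
  ring

theorem I0_pos {s : ℝ → ℝ} (hs : Slope s) : 0 < I0 s := by
  unfold I0
  refine intervalIntegral.intervalIntegral_pos_of_pos_on ?_ ?_ one_pos
  · exact (((GG_cont hs).pow 2).mul continuous_id).intervalIntegrable _ _
  · intro x hx
    have := GG_pos hs x hx.1.le hx.2
    have h0 := hx.1
    positivity

private theorem mk_re (a b : ℝ) : a • mk 1 0 + b • mk Complex.I 0 = mk ⟨a, b⟩ 0 := by
  rw [← mk_smul, ← mk_smul, ← mk_add]
  congr 1
  · apply Complex.ext <;> simp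
  · simp

private theorem norm_mk_eq {z x : ℂ} {c : ℝ} (hc : 0 ≤ c) (h : ‖z‖ ^ 2 + ‖x‖ ^ 2 = c ^ 2) : ‖mk z x‖ = c := by
  have h1 : ‖mk z x‖ ^ 2 = c ^ 2 := by rw [norm_sq_mk, h]
  exact (sq_eq_sq₀ (norm_nonneg _) hc).1 h1

private theorem vol_disc : (volume {p : ℝ × ℝ | p.1 ^ 2 + p.2 ^ 2 ≤ 1}).toReal = Real.pi := by
  have h1 := Complex.volume_preserving_equiv_real_prod.measure_preimage_equiv
    {p : ℝ × ℝ | p.1 ^ 2 + p.2 ^ 2 ≤ 1}
  have h2 : Complex.measurableEquivRealProd ⁻¹' {p : ℝ × ℝ | p.1 ^ 2 + p.2 ^ 2 ≤ 1} =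
      closedBall (0 : ℂ) 1 := by
    ext z
    rw [mem_preimage, mem_ofPred_eq, mem_closedBall_zero_iff, ← sq_le_one_iff₀ (norm_nonneg z),
      ← Complex.normSq_eq_norm_sq, Complex.normSq_apply, Complex.measurableEquivRealProd_apply]
    simp only [sq]
  rw [← h1, h2]
  have h3 := ar_ball 1 zero_le_one
  unfold ar at h3
  rw [h3]
  ring

private theorem exists_disc : ∃ D : Body, pts D = {w | ‖p1 w‖ ≤ 1 ∧ p2 w = 0} := by
  refine ⟨⟨{w | ‖p1 w‖ ≤ 1 ∧ p2 w = 0}, ?_, ?_, ?_⟩, rfl⟩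
  · intro w hw w' hw' a b ha hb hab
    rw [mem_ofPred_eq] at hw hw' ⊢
    rw [p1_add, p2_add, p1_smul, p1_smul, p2_smul, p2_smul, hw.2, hw'.2]
    refine ⟨?_, by simp⟩
    calc ‖a • p1 w + b • p1 w'‖ ≤ ‖a • p1 w‖ + ‖b • p1 w'‖ := norm_add_le _ _
      _ = a * ‖p1 w‖ + b * ‖p1 w'‖ := by
        rw [norm_smul, norm_smul, Real.norm_of_nonneg ha, Real.norm_of_nonneg hb]
      _ ≤ a * 1 + b * 1 := by gcongr; exacts [hw.1, hw'.1]
      _ = 1 := by rw [← add_mul, hab, one_mul]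
  · have h1 : {w : C2 | ‖p1 w‖ ≤ 1 ∧ p2 w = 0} = (fun z : ℂ => mk z 0) '' closedBall 0 1 := by
      ext w
      rw [mem_ofPred_eq, mem_image]
      constructor
      · rintro ⟨h1, h2⟩
        exact ⟨p1 w, mem_closedBall_zero_iff.2 h1, by simpa [h2] using mk_p w⟩
      · rintro ⟨z, hz, rfl⟩
        rw [p1_mk, p2_mk]
        exact ⟨mem_closedBall_zero_iff.1 hz, rfl⟩
    rw [h1]
    exact (isCompact_closedBall _ _).image (mk_cont.comp (continuous_id.prodMk continuous_const))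
  · refine ⟨mk 0 0, ?_⟩
    rw [mem_ofPred_eq, p1_mk, p2_mk]
    simp

private theorem V2_disc {D : Body} (hD : pts D = {w | ‖p1 w‖ ≤ 1 ∧ p2 w = 0}) : V2 D = Real.pi := by
  have h := (isHermVal_muab 1 1).klain (mk 1 0) (mk Complex.I 0) (norm_mk_eq zero_le_one (by simp))
    (norm_mk_eq zero_le_one (by simp)) (by rw [inner_mk]; simp [Complex.inner])
    {p : ℝ × ℝ | p.1 ^ 2 + p.2 ^ 2 ≤ 1} D ?_
  · unfold V2
    rw [h, vol_disc]
    ring
  · rw [hD]
    ext w
    rw [mem_ofPred_eq, mem_image]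
    constructor
    · rintro ⟨h1, h2⟩
      refine ⟨((p1 w).re, (p1 w).im), ?_, ?_⟩
      · rw [mem_ofPred_eq]
        rw [← sq_le_one_iff₀ (norm_nonneg _), ← Complex.normSq_eq_norm_sq, Complex.normSq_apply] at h1
        simpa only [sq] using h1
      · rw [mk_re]
        simpa [h2] using mk_p w
    · rintro ⟨p, hp, rfl⟩
      rw [mem_ofPred_eq] at hp
      rw [mk_re, p1_mk, p2_mk]
      refine ⟨?_, rfl⟩
      rw [← sq_le_one_iff₀ (norm_nonneg _), ← Complex.normSq_eq_norm_sq, Complex.normSq_apply]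
      simpa only [sq] using hp

theorem V2_kset {s : ℝ → ℝ} (hs : Slope s) (δ : ℝ) (hδ : 0 < δ) : ∃ ε0 : ℝ, 0 < ε0 ∧ ∀ ε : ℝ, 0 < ε →
    ε ≤ ε0 → ∀ K : Body, pts K = kset s ε → V2 K ≤ Real.pi + δ := by
  obtain ⟨D, hD⟩ := exists_disc
  have hc : Continuous V2 := muab_continuous 1 1
  obtain ⟨η, hη, hη'⟩ := Metric.continuous_iff.1 hc D δ hδ
  have hG0 : 0 ≤ GG s 0 := GG_nonneg hs 0 le_rfl zero_le_one
  refine ⟨η / (2 * (GG s 0 + 1)), by positivity, ?_⟩
  intro ε hε hε' K hK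
  have hd : dist K D < η := by
    have h1 : dist K D ≤ ε * GG s 0 := by
      rw [← ConvexBody.hausdorffDist_coe]
      refine Metric.hausdorffDist_le_of_mem_dist (by positivity) ?_ ?_
      · intro w hw
        change w ∈ pts K at hw
        rw [hK] at hw
        refine ⟨mk (p1 w) 0, ?_, ?_⟩
        · change mk (p1 w) 0 ∈ pts D
          rw [hD, mem_ofPred_eq, p1_mk, p2_mk]
          exact ⟨hw.1, rfl⟩
        · have e : w - mk (p1 w) 0 = mk 0 (p2 w) := by
            have e1 : mk (p1 w) 0 + mk 0 (p2 w) = w := by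
              rw [← mk_add, add_zero, zero_add, mk_p]
            rw [← e1]
            simp [p1_mk, p2_mk, p1_add, p2_add]
          rw [dist_eq_norm, e, norm_mk_eq (norm_nonneg (p2 w)) (by simp)]
          refine hw.2.trans ?_
          exact mul_le_mul_of_nonneg_left (GG_anti hs (norm_nonneg _)) hε.le
      · intro w hw
        change w ∈ pts D at hw
        rw [hD, mem_ofPred_eq] at hw
        refine ⟨w, ?_, by rw [dist_self]; positivity⟩
        change w ∈ pts K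
        rw [hK]
        refine ⟨hw.1, ?_⟩
        rw [hw.2, norm_zero]
        exact mul_nonneg hε.le (GG_nonneg hs _ (norm_nonneg _) hw.1)
    refine h1.trans_lt ?_
    calc ε * GG s 0 ≤ η / (2 * (GG s 0 + 1)) * GG s 0 := by gcongr
      _ < η := by
        rw [div_mul_eq_mul_div, div_lt_iff₀ (by positivity)]
        nlinarith
  have h2 := hη' K hd
  rw [Real.dist_eq, V2_disc hD] at h2
  linarith [(abs_lt.1 h2).2]

end Pool.Agent.HAS
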