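import Pool.Agent.HAS.UbC
import Pool.Agent.HAS.UbD
import Pool.Agent.HAS.OneD

/-!
# The upper bound (module UbE)

PLAN.  `s` from `extremal`: `I1 s = kap I0 s`, `I0 s > 0` (so `s 1 > 0`, otherwise `s = 0` on `[0,1]` by monotonicity and
`I0 = 0`).  Given `a, b > 0`, `a/b ≥ R` large: `ε = √(b/(4 a I1))` small, `K = kset s ε`, `v = vol K = 2π²ε² I0`.  The
rescaled body `v^{-1/4} K` has volume one and (homogeneity of degree 2)
`muab a b (v^{-1/4} K) = v^{-1/2} ((a-b) F K + b V2 K) ≤ v^{-1/2} (a ε² (4π I1 + Cε²) + b (π + δ'))`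
(`F ≥ 0`), `v^{-1/2} = 1/(π ε √(2 I0))`.  With `a ε² 4 I1 = b`: `= (b/(ε√(2 I0))) (1 + Cε²/(4π I1) + 1 + δ'/π)`, and
`b/(ε √(2 I0)) = √(ab) √(4 I1/(2 I0)) = √(2 kap) √(ab)`.
-/

set_option autoImplicit false

namespace Pool.Agent.HAS

open MeasureTheory Metric Set
open Pool.Agent.Helper85.Herm Pool.Agent.Helper85.Cap Pool.Agent.HVM

private theorem calcB {a b C i0 i1 S ε δ f V c : ℝ} (ha : 0 < a) (hb : 0 < b) (hi0 : 0 < i0)
    (_hi1 : 0 < i1) (hS : 0 < S) (hS2 : S ^ 2 * i0 = 2 * i1) (hε : 0 < ε)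
    (hε2 : 4 * a * i1 * ε ^ 2 = b) (hEC : C * ε ^ 2 ≤ 2 * Real.pi * i1 * (δ / S))
    (hf : f ≤ ε ^ 2 * (4 * Real.pi * i1 + C * ε ^ 2)) (hf0 : 0 ≤ f)
    (hV : V ≤ Real.pi + Real.pi * (δ / S) / 2)
    (hc : c * (Real.pi * ε * Real.sqrt (2 * i0)) = 1) (hc0 : 0 < c) :
    c * ((a - b) * f + b * V) ≤ (2 * S + δ) * Real.sqrt (a * b) := by
  have hpi := Real.pi_pos
  have hab : 0 < a * b := mul_pos ha hb
  have hr : 0 < Real.sqrt (a * b) := Real.sqrt_pos.2 hab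
  have hr2 : Real.sqrt (a * b) ^ 2 = a * b := Real.sq_sqrt hab.le
  have hq : 0 < Real.sqrt (2 * i0) := Real.sqrt_pos.2 (by linarith)
  have hq2 : Real.sqrt (2 * i0) ^ 2 = 2 * i0 := Real.sq_sqrt (by linarith)
  obtain ⟨r, hrr⟩ : ∃ r, r = Real.sqrt (a * b) := ⟨_, rfl⟩
  obtain ⟨q, hqq⟩ : ∃ q, q = Real.sqrt (2 * i0) := ⟨_, rfl⟩
  rw [← hrr] at hr hr2 ⊢
  rw [← hqq] at hq hq2 hc
  have k1 : S * r * ε * q = b := by
    have h1 : (S * r * ε * q) ^ 2 = b ^ 2 := by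
      calc (S * r * ε * q) ^ 2 = S ^ 2 * r ^ 2 * ε ^ 2 * q ^ 2 := by ring
        _ = (S ^ 2 * i0) * (a * b) * ε ^ 2 * 2 := by rw [hr2, hq2]; ring
        _ = (4 * a * i1 * ε ^ 2) * b := by rw [hS2]; ring
        _ = b ^ 2 := by rw [hε2]; ring
    have h2 : 0 < S * r * ε * q := by positivity
    nlinarith
  have k2 : c * (Real.pi * b) = S * r := by
    calc c * (Real.pi * b) = c * (Real.pi * ε * q) * (S * r) := by rw [← k1]; ring
      _ = S * r := by rw [hc, one_mul]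
  have k3 : (a - b) * f + b * V ≤ Real.pi * b * (2 + δ / S) := by
    have e1 : a * f ≤ a * (ε ^ 2 * (4 * Real.pi * i1 + C * ε ^ 2)) :=
      mul_le_mul_of_nonneg_left hf ha.le
    have e2 : b * V ≤ b * (Real.pi + Real.pi * (δ / S) / 2) := mul_le_mul_of_nonneg_left hV hb.le
    have e3 : 0 ≤ b * f := mul_nonneg hb.le hf0
    have e4 : a * ε ^ 2 * (C * ε ^ 2) ≤ a * ε ^ 2 * (2 * Real.pi * i1 * (δ / S)) :=
      mul_le_mul_of_nonneg_left hEC (by positivity)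
    have e5 : a * ε ^ 2 * (2 * Real.pi * i1 * (δ / S)) = Real.pi * b * (δ / S) / 2 := by
      rw [← hε2]; ring
    have e6 : a * (ε ^ 2 * (4 * Real.pi * i1 + C * ε ^ 2)) =
        Real.pi * b + a * ε ^ 2 * (C * ε ^ 2) := by
      rw [← hε2]; ring
    nlinarith
  calc c * ((a - b) * f + b * V) ≤ c * (Real.pi * b * (2 + δ / S)) :=
        mul_le_mul_of_nonneg_left k3 hc0.le
    _ = (c * (Real.pi * b)) * (2 + δ / S) := by ring
    _ = (2 * S + δ) * r := by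
        rw [k2]
        field_simp

private theorem slope_of {s : ℝ → ℝ} (hc : Continuous s) (hm : Monotone s) (h0 : ∀ r, 0 ≤ s r)
    (hI : 0 < ∫ r in (0 : ℝ)..1, (∫ t in r..1, s t) ^ 2 * r) : Slope s := by
  refine ⟨hc, hm, h0, ?_⟩
  by_contra hlt
  have h1 : s 1 = 0 := le_antisymm (not_lt.1 hlt) (h0 1)
  have h2 : ∀ r, r ≤ 1 → s r = 0 := fun r hr => le_antisymm (h1 ▸ hm hr) (h0 r)
  have h3 : ∫ r in (0 : ℝ)..1, (∫ t in r..1, s t) ^ 2 * r = 0 := by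
    have h4 : ∫ r in (0 : ℝ)..1, (∫ t in r..1, s t) ^ 2 * r = ∫ _r in (0 : ℝ)..1, (0 : ℝ) := by
      apply intervalIntegral.integral_congr
      intro r hr
      rw [uIcc_of_le zero_le_one] at hr
      have h5 : ∫ t in r..1, s t = 0 := by
        have h6 : ∫ t in r..1, s t = ∫ _t in r..1, (0 : ℝ) := by
          apply intervalIntegral.integral_congr
          intro t ht
          rw [uIcc_of_le hr.2] at ht
          exact h2 t ht.2
        rw [h6, intervalIntegral.integral_zero]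
      show (∫ t in r..1, s t) ^ 2 * r = 0
      rw [h5]
      ring
    rw [h4, intervalIntegral.integral_zero]
  linarith

private theorem scale_body (K : Body) (c v : ℝ) (hv : 0 < v) (hc : 0 < c)
    (hK : (volume (pts K)).toReal = v) (hcv : c ^ 4 * v = 1) :
    ∃ L : Body, UnitVolume L ∧ pts L = (fun x => c • x) '' pts K := by
  refine ⟨⟨(fun x => c • x) '' pts K, ?_, ?_, ?_⟩, ?_, rfl⟩
  · exact (K.convex).is_linear_image (IsLinearMap.isLinearMap_smul c)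
  · exact K.isCompact.image (continuous_const_smul c)
  · exact K.nonempty.image _
  · show volume ((fun x => c • x) '' pts K) = 1
    rw [image_smul, Measure.addHaar_smul, finrank_euclideanSpace, Fintype.card_fin,
      abs_of_pos (pow_pos hc 4)]
    have h1 : volume (pts K) = ENNReal.ofReal v := by
      rw [← hK, ENNReal.ofReal_toReal]
      intro h
      rw [h, ENNReal.toReal_top] at hK
      linarith
    rw [h1, ← ENNReal.ofReal_mul (pow_pos hc 4).le, hcv, ENNReal.ofReal_one]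

theorem upper_asym {T kap : ℝ} (hP : Par T kap) (δ : ℝ) (hδ : 0 < δ) : ∃ R : ℝ, 0 < R ∧
    ∀ a b : ℝ, 0 < b → R * b ≤ a → ∃ K : Body, UnitVolume K ∧
      muab a b K ≤ (2 * Real.sqrt (2 * kap) + δ) * Real.sqrt (a * b) := by
  have hpi := Real.pi_pos
  have hkap : 0 < kap := by
    have h0 := hP.T0
    have h1 := hP.T1
    rw [hP.kap_eq]
    exact div_pos (by norm_num) (mul_pos (by linarith) (by linarith))
  obtain ⟨s, hsc, hsm, hs0, hsI, hse⟩ := extremal hP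
  have hs : Slope s := slope_of hsc hsm hs0 hsI
  have hi0 : 0 < I0 s := hsI
  have hi : I1 s = kap * I0 s := hse
  have hi1 : 0 < I1 s := by rw [hi]; exact mul_pos hkap hi0
  obtain ⟨C, hC, hF⟩ := F_upper hs
  have hS : 0 < Real.sqrt (2 * kap) := Real.sqrt_pos.2 (by linarith)
  have hS2 : Real.sqrt (2 * kap) ^ 2 = 2 * kap := Real.sq_sqrt (by linarith)
  obtain ⟨S, hSS⟩ : ∃ S, S = Real.sqrt (2 * kap) := ⟨_, rfl⟩
  rw [← hSS] at hS hS2 ⊢
  have hdS : 0 < δ / S := div_pos hδ hS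
  obtain ⟨ε0, hε0, hV⟩ := V2_kset hs (Real.pi * (δ / S) / 2) (by positivity)
  obtain ⟨E, hE⟩ : ∃ E, E = min (ε0 ^ 2) (2 * Real.pi * I1 s * (δ / S) / (C + 1)) := ⟨_, rfl⟩
  have hE0 : 0 < E := by
    rw [hE]
    exact lt_min (by positivity) (by positivity)
  refine ⟨1 / (4 * I1 s * E), by positivity, ?_⟩
  intro a b hb hab
  have ha : 0 < a := lt_of_lt_of_le (by positivity) hab
  have hx : 0 < b / (4 * a * I1 s) := by positivity
  obtain ⟨ε, hεe⟩ : ∃ ε, ε = Real.sqrt (b / (4 * a * I1 s)) := ⟨_, rfl⟩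
  have hε : 0 < ε := by rw [hεe]; exact Real.sqrt_pos.2 hx
  have hεsq : ε ^ 2 = b / (4 * a * I1 s) := by rw [hεe]; exact Real.sq_sqrt hx.le
  have hε2 : 4 * a * I1 s * ε ^ 2 = b := by
    rw [hεsq]
    field_simp
  have hεE : ε ^ 2 ≤ E := by
    rw [hεsq, div_le_iff₀ (by positivity)]
    rw [div_mul_eq_mul_div, one_mul, div_le_iff₀ (by positivity)] at hab
    nlinarith
  have hε1 : ε ≤ ε0 := by
    have h1 : ε ^ 2 ≤ ε0 ^ 2 := hεE.trans (by rw [hE]; exact min_le_left _ _)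
    exact (pow_le_pow_iff_left₀ hε.le hε0.le (by norm_num)).1 h1
  have hεC : C * ε ^ 2 ≤ 2 * Real.pi * I1 s * (δ / S) := by
    have h1 : ε ^ 2 ≤ 2 * Real.pi * I1 s * (δ / S) / (C + 1) :=
      hεE.trans (by rw [hE]; exact min_le_right _ _)
    rw [le_div_iff₀ (by linarith)] at h1
    have h2 : 0 ≤ ε ^ 2 := by positivity
    nlinarith
  obtain ⟨K, hK⟩ := (kset_body hs ε hε).1
  have hvol := vol_kset hs ε hε K hK
  have hv0 : 0 < 2 * Real.pi ^ 2 * ε ^ 2 * I0 s := by positivity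
  have hsv : Real.sqrt (2 * Real.pi ^ 2 * ε ^ 2 * I0 s) = Real.pi * ε * Real.sqrt (2 * I0 s) := by
    have h1 : 2 * Real.pi ^ 2 * ε ^ 2 * I0 s = (Real.pi * ε) ^ 2 * (2 * I0 s) := by ring
    rw [h1, Real.sqrt_mul (by positivity), Real.sqrt_sq (by positivity)]
  obtain ⟨w, hw⟩ : ∃ w, w = Real.pi * ε * Real.sqrt (2 * I0 s) := ⟨_, rfl⟩
  have hq : 0 < Real.sqrt (2 * I0 s) := Real.sqrt_pos.2 (by linarith)
  have hw0 : 0 < w := by rw [hw]; positivity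
  have hw2 : w ^ 2 = 2 * Real.pi ^ 2 * ε ^ 2 * I0 s := by
    rw [hw, ← hsv, Real.sq_sqrt hv0.le]
  obtain ⟨c, hc⟩ : ∃ c, c = Real.sqrt (w⁻¹) := ⟨_, rfl⟩
  have hc0 : 0 < c := by rw [hc]; exact Real.sqrt_pos.2 (inv_pos.2 hw0)
  have hc2 : c ^ 2 = w⁻¹ := by rw [hc]; exact Real.sq_sqrt (inv_pos.2 hw0).le
  have hcv : c ^ 4 * (2 * Real.pi ^ 2 * ε ^ 2 * I0 s) = 1 := by
    rw [← hw2]
    have h1 : c ^ 4 = (w⁻¹) ^ 2 := by rw [← hc2]; ring
    rw [h1, ← mul_pow, inv_mul_cancel₀ hw0.ne', one_pow]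
  obtain ⟨L, hL, hLK⟩ := scale_body K c _ hv0 hc0 hvol hcv
  refine ⟨L, hL, ?_⟩
  rw [(isHermVal_muab a b).homogeneous c hc0.le K L hLK]
  have hmu : muab a b K = (a - b) * F K + b * V2 K := by
    rw [muab_lin a b, V2_eq, F]
    ring
  rw [hmu]
  refine calcB ha hb hi0 hi1 hS ?_ hε hε2 hεC (hF ε hε K hK) (muab_nonneg K).1
    (hV ε hε hε1 K hK) ?_ (by positivity)
  · rw [hS2, hi]
    ring
  · rw [← hw, hc2, inv_mul_cancel₀ hw0.ne']

end Pool.Agent.HAS
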