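import Pool.Agent.HAS.LimD
import Pool.Agent.HAS.UbE

/-!
# The asymptotic constant (module Final)
-/

set_option autoImplicit false

namespace Pool.Agent.HAS

open MeasureTheory Metric Set
open Pool.Agent.Helper85.Herm Pool.Agent.Helper85.Cap Pool.Agent.HVM

theorem main_asym : ∃ T : ℝ, 0.3522 ≤ T ∧ T ≤ 0.3524 ∧ ∃ kap : ℝ, kap = 6 / (T * (4 - 3 * T)) ∧
    J0 (Real.sqrt kap * (1 - T)) = Real.sqrt kap * T * J1 (Real.sqrt kap * (1 - T)) ∧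
    6.803 < 2 * Real.sqrt (2 * kap) ∧ 2 * Real.sqrt (2 * kap) < 6.805 ∧
    ∀ δ : ℝ, 0 < δ → ∃ R : ℝ, 0 < R ∧ ∀ a b : ℝ, 0 < b → R * b ≤ a →
      ∃ μ : Body → ℝ, IsHermVal a b μ ∧ ∃ m : ℝ, IsLeast {r | ∃ K : Body, UnitVolume K ∧ μ K = r} m ∧
        |m - 2 * Real.sqrt (2 * kap) * Real.sqrt (a * b)| ≤ δ * Real.sqrt (a * b) := by
  obtain ⟨T, hP⟩ := exists_par
  refine ⟨T, by have := hP.T0; norm_num at this ⊢; linarith, by have := hP.T1; norm_num at this ⊢; linarith,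
    _, rfl, hP.bes, (par_num hP).1, (par_num hP).2, ?_⟩
  intro δ hδ
  obtain ⟨R1, hR1, h1⟩ := lower_asym hP δ hδ
  obtain ⟨R2, hR2, h2⟩ := upper_asym hP δ hδ
  refine ⟨max R1 R2, lt_max_of_lt_left hR1, ?_⟩
  intro a b hb hab
  have hab1 : R1 * b ≤ a := le_trans (mul_le_mul_of_nonneg_right (le_max_left _ _) hb.le) hab
  have hab2 : R2 * b ≤ a := le_trans (mul_le_mul_of_nonneg_right (le_max_right _ _) hb.le) hab
  have ha : 0 < a := lt_of_lt_of_le (mul_pos hR1 hb) hab1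
  refine ⟨muab a b, isHermVal_muab a b, ?_⟩
  obtain ⟨m, hm⟩ := attained a b ha hb
  refine ⟨m, hm, ?_⟩
  obtain ⟨K, hK, hKm⟩ := hm.1
  obtain ⟨L, hL, hLm⟩ := h2 a b hb hab2
  have e1 := h1 a b hb hab1 K hK
  have e2 : m ≤ muab a b L := hm.2 ⟨L, hL, rfl⟩
  rw [hKm] at e1
  rw [abs_le]
  constructor <;> nlinarith
  
end Pool.Agent.HAS
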