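import Pool.Agent.HAS.GeA

/-!
# Polar coordinates on a planar convex set (module GeB)

PLAN.  `Complex.integral_comp_polarCoord_symm` / `Complex.lintegral_comp_polarCoord_symm`:
`∫ f = ∫_{(r,θ) ∈ (0,∞)×(-π,π)} r f(r e^{iθ})`; for `f = 1_{interior A} F`, `r e^{iθ} ∈ interior A ↔ r < rad A θ`
(`bp_int`); Fubini (`integral_prod`, or Tonelli for `lintegral`).
`polar_lint` is the nonnegative version, `polar_int` the integrable one; the layer between `lam • A`
and `A`: `interior A \ lam • A` is `{lam rad < r < rad}`.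
-/

set_option autoImplicit false

namespace Pool.Agent.HAS

open MeasureTheory Metric Set
open scoped Pointwise

variable {A : Set ℂ} {ρ R0 : ℝ}

private theorem ge_sym (p : ℝ × ℝ) : Complex.polarCoord.symm p = p.1 • ee p.2 := by
  rw [Complex.polarCoord_symm_apply]
  apply Complex.ext
  · simp [ee, Complex.cos_ofReal_re]
  · simp [ee, Complex.sin_ofReal_re]

private theorem ge_ccont : Continuous fun p : ℝ × ℝ => p.1 • ee p.2 :=
  continuous_fst.smul (ee_cont.comp continuous_snd)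

/-- Tonelli in polar coordinates -/
private theorem ge_lint (F : ℂ → ENNReal) (hF : Measurable F) :
    ∫⁻ z, F z = ∫⁻ θ in Ioo (-Real.pi) Real.pi, ∫⁻ r in Ioi 0, ENNReal.ofReal r * F (r • ee θ) := by
  rw [← Complex.lintegral_comp_polarCoord_symm F]
  have h1 : (∫⁻ p in polarCoord.target, ENNReal.ofReal p.1 • F (Complex.polarCoord.symm p)) =
      ∫⁻ p in Ioi (0 : ℝ) ×ˢ Ioo (-Real.pi) Real.pi, ENNReal.ofReal p.1 * F (p.1 • ee p.2) := by
    simp_rw [ge_sym, smul_eq_mul]
    rfl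
  rw [h1, Measure.volume_eq_prod, ← Measure.prod_restrict]
  exact lintegral_prod_symm' _ ((ENNReal.measurable_ofReal.comp measurable_fst).mul
    (hF.comp ge_ccont.measurable))

/-- Fubini in polar coordinates -/
private theorem ge_int (F : ℂ → ℝ) (hF : Measurable F) (hi : Integrable F) :
    (∀ᵐ θ ∂(volume.restrict (Ioo (-Real.pi) Real.pi)),
      IntegrableOn (fun r : ℝ => r * F (r • ee θ)) (Ioi 0)) ∧
    IntegrableOn (fun θ => ∫ r in Ioi 0, r * F (r • ee θ)) (Ioo (-Real.pi) Real.pi) ∧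
    ∫ z, F z = ∫ θ in Ioo (-Real.pi) Real.pi, ∫ r in Ioi 0, r * F (r • ee θ) := by
  have hm : Measurable (fun p : ℝ × ℝ => p.1 * F (p.1 • ee p.2)) :=
    measurable_fst.mul (hF.comp ge_ccont.measurable)
  have hprod : Integrable (fun p : ℝ × ℝ => p.1 * F (p.1 • ee p.2))
      ((volume.restrict (Ioi (0 : ℝ))).prod (volume.restrict (Ioo (-Real.pi) Real.pi))) := by
    refine ⟨hm.aestronglyMeasurable, ?_⟩
    rw [hasFiniteIntegral_iff_enorm]
    have h1 := ge_lint (fun z => ‖F z‖ₑ) hF.enorm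
    rw [lintegral_prod_symm' _ hm.enorm]
    have h3 : (∫⁻ θ in Ioo (-Real.pi) Real.pi, ∫⁻ r in Ioi (0 : ℝ), ‖r * F (r • ee θ)‖ₑ) =
        ∫⁻ θ in Ioo (-Real.pi) Real.pi, ∫⁻ r in Ioi (0 : ℝ),
          ENNReal.ofReal r * ‖F (r • ee θ)‖ₑ := by
      refine lintegral_congr fun θ => ?_
      refine setLIntegral_congr_fun measurableSet_Ioi (fun r hr => ?_)
      have hr' : (0 : ℝ) < r := hr
      show ‖r * F (r • ee θ)‖ₑ = ENNReal.ofReal r * ‖F (r • ee θ)‖ₑ
      rw [enorm_mul, Real.enorm_of_nonneg hr'.le]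
    rw [h3, ← h1]
    exact hi.2
  refine ⟨hprod.prod_left_ae, hprod.integral_prod_right, ?_⟩
  rw [← Complex.integral_comp_polarCoord_symm F]
  have h1 : (∫ p in polarCoord.target, p.1 • F (Complex.polarCoord.symm p)) =
      ∫ p in Ioi (0 : ℝ) ×ˢ Ioo (-Real.pi) Real.pi, p.1 * F (p.1 • ee p.2) := by
    simp_rw [ge_sym, smul_eq_mul]
    rfl
  rw [h1, Measure.volume_eq_prod, ← Measure.prod_restrict]
  exact integral_prod_symm _ hprod

private theorem ge_gen {S : Set ℂ} (hS : MeasurableSet S) (I : ℝ → Set ℝ)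
    (hI : ∀ θ, MeasurableSet (I θ)) (hI0 : ∀ θ, I θ ⊆ Ioi 0)
    (hSI : ∀ θ r : ℝ, 0 < r → (r • ee θ ∈ S ↔ r ∈ I θ)) (f : ℂ → ℝ) (hf : ContinuousOn f S)
    (hi : IntegrableOn f S) :
    (∀ᵐ θ ∂(volume.restrict (Ioo (-Real.pi) Real.pi)),
      IntegrableOn (fun r : ℝ => r * f (r • ee θ)) (I θ)) ∧
    IntegrableOn (fun θ => ∫ r in I θ, r * f (r • ee θ)) (Ioo (-Real.pi) Real.pi) ∧
    ∫ z in S, f z = ∫ θ in Ioo (-Real.pi) Real.pi, ∫ r in I θ, r * f (r • ee θ) := by
  classical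
  have hm : Measurable (S.indicator f) := by
    have h1 : Measurable (S.piecewise f 0) :=
      hf.measurable_piecewise (continuousOn_const (c := (0 : ℝ))) hS
    rwa [Set.piecewise_eq_indicator] at h1
  obtain ⟨h1, h2, h3⟩ := ge_int (S.indicator f) hm ((integrable_indicator_iff hS).2 hi)
  have hpt : ∀ θ r : ℝ, 0 < r → r * S.indicator f (r • ee θ) =
      (I θ).indicator (fun r => r * f (r • ee θ)) r := by
    intro θ r hr
    by_cases hrI : r ∈ I θ
    · rw [indicator_of_mem hrI, indicator_of_mem ((hSI θ r hr).2 hrI)]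
    · rw [indicator_of_notMem hrI, indicator_of_notMem (fun hh => hrI ((hSI θ r hr).1 hh)),
        mul_zero]
  have hint : ∀ θ : ℝ, ∫ r in Ioi 0, r * S.indicator f (r • ee θ) =
      ∫ r in I θ, r * f (r • ee θ) := by
    intro θ
    rw [setIntegral_congr_fun measurableSet_Ioi (fun r hr => hpt θ r hr),
      setIntegral_indicator (hI θ), inter_eq_self_of_subset_right (hI0 θ)]
  refine ⟨?_, ?_, ?_⟩
  · filter_upwards [h1] with θ hθ
    have h4 := hθ.mono_set (hI0 θ)
    refine h4.congr_fun (fun r hr => ?_) (hI θ)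
    show r * S.indicator f (r • ee θ) = r * f (r • ee θ)
    rw [hpt θ r (hI0 θ hr), indicator_of_mem hr]
  · simp_rw [hint] at h2
    exact h2
  · rw [integral_indicator hS] at h3
    simp_rw [hint] at h3
    exact h3

private theorem ge_pos (h : Geo A ρ R0) (θ : ℝ) : 0 < rad A θ :=
  lt_of_lt_of_le h.ρ0 (rad_bounds h θ).1

private theorem ge_bp (h : Geo A ρ R0) (θ r : ℝ) : bp A (r / rad A θ) θ = r • ee θ := by
  unfold bp
  rw [div_mul_cancel₀ _ (ge_pos h θ).ne']

private theorem ge_mi (h : Geo A ρ R0) (θ r : ℝ) (hr : 0 < r) :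
    r • ee θ ∈ interior A ↔ r ∈ Ioo 0 (rad A θ) := by
  have hp := ge_pos h θ
  rw [← ge_bp h θ r, bp_int h _ _ (by positivity), div_lt_one hp]
  exact ⟨fun hh => ⟨hr, hh⟩, fun hh => hh.2⟩

theorem polar_lint (h : Geo A ρ R0) (f : ℂ → ENNReal) (hf : Measurable f) :
    ∫⁻ z in interior A, f z =
      ∫⁻ θ in Ioo (-Real.pi) Real.pi, ∫⁻ r in Ioo 0 (rad A θ), ENNReal.ofReal r * f (r • ee θ) := by
  have hS : MeasurableSet (interior A) := isOpen_interior.measurableSet
  rw [← lintegral_indicator hS, ge_lint _ (hf.indicator hS)]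
  refine lintegral_congr fun θ => ?_
  have h1 : ∫⁻ r in Ioi 0, ENNReal.ofReal r * (interior A).indicator f (r • ee θ) =
      ∫⁻ r in Ioi 0, (Ioo 0 (rad A θ)).indicator (fun r => ENNReal.ofReal r * f (r • ee θ)) r := by
    refine setLIntegral_congr_fun measurableSet_Ioi (fun r hr => ?_)
    have hr' : (0 : ℝ) < r := hr
    show ENNReal.ofReal r * (interior A).indicator f (r • ee θ) =
      (Ioo 0 (rad A θ)).indicator (fun r => ENNReal.ofReal r * f (r • ee θ)) r
    by_cases hrI : r ∈ Ioo 0 (rad A θ)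
    · rw [indicator_of_mem hrI, indicator_of_mem ((ge_mi h θ r hr').2 hrI)]
    · rw [indicator_of_notMem hrI, indicator_of_notMem (fun hh => hrI ((ge_mi h θ r hr').1 hh)),
        mul_zero]
  rw [h1, lintegral_indicator measurableSet_Ioo, Measure.restrict_restrict measurableSet_Ioo,
    inter_eq_self_of_subset_left (fun r hr => hr.1)]

/-- integrals over rays of a nonnegative function, continuous in the interior -/
theorem polar_int (h : Geo A ρ R0) (f : ℂ → ℝ) (hf : ContinuousOn f (interior A))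
    (hf0 : ∀ z ∈ interior A, 0 ≤ f z) (hi : IntegrableOn f (interior A)) :
    (∀ᵐ θ ∂(volume.restrict (Ioo (-Real.pi) Real.pi)),
      IntegrableOn (fun r : ℝ => r * f (r • ee θ)) (Ioo 0 (rad A θ))) ∧
    IntegrableOn (fun θ => ∫ r in Ioo 0 (rad A θ), r * f (r • ee θ)) (Ioo (-Real.pi) Real.pi) ∧
    ∫ z in interior A, f z =
      ∫ θ in Ioo (-Real.pi) Real.pi, ∫ r in Ioo 0 (rad A θ), r * f (r • ee θ) := by
  exact ge_gen isOpen_interior.measurableSet (fun θ => Ioo 0 (rad A θ)) (fun _ => measurableSet_Ioo)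
    (fun θ r hr => hr.1) (ge_mi h) f hf hi

/-- the outer layer -/
theorem polar_layer (h : Geo A ρ R0) (f : ℂ → ℝ) (hf : ContinuousOn f A) (lam : ℝ) (hl : 0 < lam)
    (hl1 : lam < 1) :
    ∫ z in A \ lam • A, f z =
      ∫ θ in (-Real.pi)..Real.pi, ∫ r in (lam * rad A θ)..(rad A θ), r * f (r • ee θ) := by
  have hAm : MeasurableSet A := h.cpt.isClosed.measurableSet
  have hlA : MeasurableSet (lam • A) := (h.cpt.smul lam).isClosed.measurableSet
  have hS : MeasurableSet (A \ lam • A) := hAm.diff hlA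
  have hmem : ∀ θ r : ℝ, 0 < r →
      (r • ee θ ∈ A \ lam • A ↔ r ∈ Ioc (lam * rad A θ) (rad A θ)) := by
    intro θ r hr
    have hp := ge_pos h θ
    have hg : gauge A (ee θ) = (rad A θ)⁻¹ := by
      unfold rad
      rw [inv_inv]
    rw [mem_sdiff, mem_smul_iff h lam hl, gauge_smul_of_nonneg hr.le, hg, mem_Ioc]
    have h1 : r • ee θ ∈ A ↔ r ≤ rad A θ := by
      rw [← ge_bp h θ r, bp_mem h _ _ (by positivity), div_le_one hp]
    have h2 : r • (rad A θ)⁻¹ ≤ lam ↔ r ≤ lam * rad A θ := by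
      rw [smul_eq_mul, ← div_eq_mul_inv, div_le_iff₀ hp]
    rw [h1, h2, not_le]
    exact and_comm
  have hI0 : ∀ θ, Ioc (lam * rad A θ) (rad A θ) ⊆ Ioi 0 := by
    intro θ r hr
    have hp := ge_pos h θ
    exact lt_trans (mul_pos hl hp) hr.1
  have h1 := (ge_gen hS (fun θ => Ioc (lam * rad A θ) (rad A θ)) (fun _ => measurableSet_Ioc)
    hI0 hmem f (hf.mono sdiff_subset)
    ((hf.integrableOn_compact h.cpt).mono_set sdiff_subset)).2.2
  rw [h1, intervalIntegral.integral_of_le (by linarith [Real.pi_pos]), integral_Ioc_eq_integral_Ioo]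
  refine integral_congr_ae (Filter.Eventually.of_forall fun θ => ?_)
  have hp := ge_pos h θ
  show ∫ r in Ioc (lam * rad A θ) (rad A θ), r * f (r • ee θ) =
    ∫ r in (lam * rad A θ)..(rad A θ), r * f (r • ee θ)
  rw [intervalIntegral.integral_of_le]
  nlinarith

end Pool.Agent.HAS
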