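import Pool.Agent.HAS.GeB

/-!
# Energy on rays (module GeC)

PLAN.  `en ε s = (√(1+ε²s²) - 1)/ε² ≥ m s - m²` for `0 ≤ m ≤ 1/ε`: since `√(1+t²) ≥ p t + √(1-p²) ≥ p t + 1 - p²`
for `0 ≤ p ≤ 1` (`p = ε m`, `t = ε s`).  Let `φ(r) = c(r • ee θ)`, continuous on `[a,b] ⊆ [0, rad θ]`,
differentiable on the open interval with `|φ'(r)| ≤ ‖∇c(r • ee θ)‖` (chain rule).  If the energy is
integrable on `(a,b)` then so is `‖∇c‖ ≤ en + 1` type bound (`s ≤ en ε s / m + m`, `m = min 1 (1/ε)`), hence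
`|φ(a) - φ(b)| ≤ ∫_a^b ‖∇c‖` (FTC for functions continuous on `[a,b]`, differentiable inside with integrable
derivative: `intervalIntegral.integral_eq_sub_of_hasDerivAt_of_le` or
`MeasureTheory.integral_eq_of_hasDerivWithinAt_off_countable_of_le`).
So `∫_a^b en ≥ m D - m² (b-a)` with `D = |φ(a)-φ(b)|`; choose `m = D/(2(b-a))`, allowed if `ε D ≤ 2(b-a)`:
`D² ≤ 4 (b-a) ∫_a^b en`.
-/

set_option autoImplicit false

namespace Pool.Agent.HAS

open MeasureTheory Metric Set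

variable {A : Set ℂ} {ρ R0 C1 : ℝ} {c : ℂ → ℝ}

theorem en_nonneg (ε s : ℝ) : 0 ≤ en ε s := by
  unfold en
  apply div_nonneg _ (sq_nonneg ε)
  have : (1 : ℝ) ≤ Real.sqrt (1 + ε ^ 2 * s ^ 2) := by
    rw [Real.one_le_sqrt]
    nlinarith [mul_nonneg (sq_nonneg ε) (sq_nonneg s)]
  linarith

theorem en_ge (ε s m : ℝ) (hε : 0 < ε) (hs : 0 ≤ s) (hm : 0 ≤ m) (hm1 : m * ε ≤ 1) :
    m * s - m ^ 2 ≤ en ε s := by
  unfold en
  rw [le_div_iff₀ (by positivity)]
  have hQ : 0 ≤ 1 - (m * ε) ^ 2 := by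
    have h0 : 0 ≤ m * ε := by positivity
    nlinarith
  have h1 : ((m * s - m ^ 2) * ε ^ 2 + 1) ^ 2 ≤ 1 + ε ^ 2 * s ^ 2 := by
    have e1 : 1 + ε ^ 2 * s ^ 2 - ((m * s - m ^ 2) * ε ^ 2 + 1) ^ 2 =
        (1 - (m * ε) ^ 2) * (ε * s - m * ε) ^ 2 + (m * ε) ^ 2 := by ring
    have h2 := mul_nonneg hQ (sq_nonneg (ε * s - m * ε))
    have h3 := sq_nonneg (m * ε)
    linarith
  have h2 := (le_abs_self _).trans (Real.abs_le_sqrt h1)
  linarith

private theorem ray_mem (h : CF A ρ R0 C1 c) (θ r : ℝ) (hr : 0 ≤ r) (hr1 : r ≤ rad A θ) :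
    r • ee θ ∈ A := by
  have hg := h.toGeo
  have hpos : 0 < rad A θ := lt_of_lt_of_le hg.ρ0 (rad_bounds hg θ).1
  have h1 := (bp_mem hg (r / rad A θ) θ (by positivity)).2 ((div_le_one hpos).2 hr1)
  unfold bp at h1
  rwa [div_mul_cancel₀ _ hpos.ne'] at h1

private theorem ray_int (h : CF A ρ R0 C1 c) (θ r : ℝ) (hr : 0 ≤ r) (hr1 : r < rad A θ) :
    r • ee θ ∈ interior A := by
  have hg := h.toGeo
  have hpos : 0 < rad A θ := lt_of_lt_of_le hg.ρ0 (rad_bounds hg θ).1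
  have h1 := (bp_int hg (r / rad A θ) θ (by positivity)).2 ((div_lt_one hpos).2 hr1)
  unfold bp at h1
  rwa [div_mul_cancel₀ _ hpos.ne'] at h1

theorem ray_energy (h : CF A ρ R0 C1 c) (ε : ℝ) (hε : 0 < ε) (θ a b : ℝ) (ha : 0 < a) (hab : a < b)
    (hb : b ≤ rad A θ)
    (hi : IntegrableOn (fun r : ℝ => en ε ‖gradient c (r • ee θ)‖) (Ioo a b))
    (hD : ε * |c (a • ee θ) - c (b • ee θ)| ≤ 2 * (b - a)) :
    (c (a • ee θ) - c (b • ee θ)) ^ 2 ≤
      4 * (b - a) * ∫ r in Ioo a b, en ε ‖gradient c (r • ee θ)‖ := by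
  have hmapc : Continuous fun r : ℝ => r • ee θ := continuous_id.smul continuous_const
  have hcont : ContinuousOn (fun r : ℝ => c (r • ee θ)) (Icc a b) :=
    h.cont.comp hmapc.continuousOn fun r hr =>
      ray_mem h θ r (ha.le.trans hr.1) (hr.2.trans hb)
  have hmem : ∀ r ∈ Ioo a b, r • ee θ ∈ interior A := fun r hr =>
    ray_int h θ r (ha.trans hr.1).le (lt_of_lt_of_le hr.2 hb)
  have hdiff : ∀ r ∈ Ioo a b, HasDerivAt (fun r : ℝ => c (r • ee θ))
      (fderiv ℝ c (r • ee θ) (ee θ)) r := by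
    intro r hr
    have h1 : DifferentiableAt ℝ c (r • ee θ) :=
      ((h.smooth (r • ee θ) (hmem r hr)).contDiffAt
        (isOpen_interior.mem_nhds (hmem r hr))).differentiableAt one_ne_zero
    have h2 : HasDerivAt (fun r : ℝ => r • ee θ) (ee θ) r := by
      have := (hasDerivAt_id r).smul_const (ee θ)
      simpa using this
    exact h1.hasFDerivAt.comp_hasDerivAt r h2
  have hfc : ContinuousOn (fun r : ℝ => fderiv ℝ c (r • ee θ) (ee θ)) (Ioo a b) := by
    have h1 : ContinuousOn (fderiv ℝ c) (interior A) :=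
      h.smooth.continuousOn_fderiv_of_isOpen isOpen_interior le_rfl
    exact (h1.comp hmapc.continuousOn hmem).clm_apply continuousOn_const
  have hgr : ∀ r : ℝ, |fderiv ℝ c (r • ee θ) (ee θ)| ≤ ‖gradient c (r • ee θ)‖ := by
    intro r
    have h1 : ‖gradient c (r • ee θ)‖ = ‖fderiv ℝ c (r • ee θ)‖ := by
      unfold gradient
      exact LinearIsometryEquiv.norm_map _ _
    rw [h1, ← Real.norm_eq_abs]
    have h2 := (fderiv ℝ c (r • ee θ)).le_opNorm (ee θ)
    rwa [ee_norm, mul_one] at h2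
  -- integrability of the derivative
  have hint : IntegrableOn (fun r : ℝ => fderiv ℝ c (r • ee θ) (ee θ)) (Ioo a b) := by
    obtain ⟨m, hm, hm1⟩ : ∃ m : ℝ, 0 < m ∧ m * ε ≤ 1 :=
      ⟨1 / ε, by positivity, by rw [div_mul_cancel₀ _ hε.ne']⟩
    have hb' : IntegrableOn (fun r : ℝ => (en ε ‖gradient c (r • ee θ)‖ + m ^ 2) / m) (Ioo a b) := by
      refine (hi.add ?_).div_const m
      exact integrableOn_const (by simp)
    refine Integrable.mono' hb' (hfc.aestronglyMeasurable measurableSet_Ioo) ?_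
    refine Filter.Eventually.of_forall fun r => ?_
    have h1 := en_ge ε ‖gradient c (r • ee θ)‖ m hε (norm_nonneg _) hm.le hm1
    rw [le_div_iff₀ hm, Real.norm_eq_abs]
    have h2 := mul_le_mul_of_nonneg_right (hgr r) hm.le
    nlinarith
  have hII : IntervalIntegrable (fun r : ℝ => fderiv ℝ c (r • ee θ) (ee θ)) volume a b := by
    rw [intervalIntegrable_iff_integrableOn_Ioo_of_le hab.le]
    exact hint
  have hFTC := intervalIntegral.integral_eq_sub_of_hasDerivAt_of_le hab.le hcont hdiff hII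
  rw [intervalIntegral.integral_of_le hab.le, integral_Ioc_eq_integral_Ioo] at hFTC
  set D : ℝ := |c (a • ee θ) - c (b • ee θ)| with hDdef
  have hD0 : 0 ≤ D := abs_nonneg _
  have hDle : D ≤ ∫ r in Ioo a b, |fderiv ℝ c (r • ee θ) (ee θ)| := by
    rw [hDdef, abs_sub_comm, ← hFTC]
    exact abs_integral_le_integral_abs
  have hba : 0 < b - a := by linarith
  set m : ℝ := D / (2 * (b - a)) with hmdef
  have hm0 : 0 ≤ m := by positivity
  have hm1 : m * ε ≤ 1 := by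
    rw [hmdef, div_mul_eq_mul_div, div_le_one (by positivity)]
    linarith
  have hle : ∫ r in Ioo a b, (m * |fderiv ℝ c (r • ee θ) (ee θ)| - m ^ 2) ≤
      ∫ r in Ioo a b, en ε ‖gradient c (r • ee θ)‖ := by
    apply integral_mono
    · exact (hint.abs.const_mul m).sub (integrableOn_const (by simp))
    · exact hi
    · intro r
      have h1 := en_ge ε ‖gradient c (r • ee θ)‖ m hε (norm_nonneg _) hm0 hm1
      have h2 := mul_le_mul_of_nonneg_left (hgr r) hm0
      show m * |fderiv ℝ c (r • ee θ) (ee θ)| - m ^ 2 ≤ en ε ‖gradient c (r • ee θ)‖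
      linarith
  have hsplit : ∫ r in Ioo a b, (m * |fderiv ℝ c (r • ee θ) (ee θ)| - m ^ 2) =
      m * (∫ r in Ioo a b, |fderiv ℝ c (r • ee θ) (ee θ)|) - m ^ 2 * (b - a) := by
    rw [integral_sub (hint.abs.const_mul m) (integrableOn_const (by simp)),
      integral_const_mul, setIntegral_const]
    simp [Real.volume_real_Ioo_of_le hab.le]
    ring
  rw [hsplit] at hle
  have h3 := mul_le_mul_of_nonneg_left hDle hm0
  have h4 : m * D - m ^ 2 * (b - a) ≤ ∫ r in Ioo a b, en ε ‖gradient c (r • ee θ)‖ := by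
    linarith
  have h5 : m * D - m ^ 2 * (b - a) = D ^ 2 / (4 * (b - a)) := by
    rw [hmdef]
    field_simp
    ring
  rw [h5, div_le_iff₀ (by positivity)] at h4
  have h6 : (c (a • ee θ) - c (b • ee θ)) ^ 2 = D ^ 2 := by rw [hDdef, sq_abs]
  rw [h6]
  linarith

end Pool.Agent.HAS
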