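import Mathlib

/-!
# Pigeonhole (module GeC2)

Pure inequality for finitely many numbers.  `e i` (`i ≤ 2N`) energies of dyadic layers; `d i` increments,
`d i ^ 2 ≤ 8 (1/2)^i e i`; `x j = ∑_{i=j}^{2N} d i`.
`seq_bound`: `x_j² ≤ 24 (1/2)^j ∑_{i=j}^{2N} (3/4)^(i-j) e i`.
PLAN: `|x_j| ≤ ∑ |d_i| ≤ ∑ √8 (√(1/2))^i √e_i`; Cauchy-Schwarz in the form
`(∑ |d_i|)² ≤ (∑ (2/3)^(i-j)) (∑ (3/2)^(i-j) d_i²) ≤ 3 ∑ (3/2)^(i-j) 8 (1/2)^i e_i = 24 (1/2)^j ∑ (3/4)^(i-j) e_i`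
(`(3/2)^(i-j) (1/2)^i = (1/2)^j (3/4)^(i-j)`).
`pigeon`: sum of `∑_{i=j}^{2N} (3/4)^(i-j) E_i` over `N ≤ j < 2N` is `≤ 4 ∑ E_i`; so some `j` has it `≤ 4 E / N`.
-/

set_option autoImplicit false

namespace Pool.Agent.HAS

open Finset

private theorem gec2_range (q : ℝ) (h0 : 0 ≤ q) (h1 : q < 1) (n : ℕ) :
    ∑ i ∈ range n, q ^ i ≤ (1 - q)⁻¹ := by
  rw [← tsum_geometric_of_lt_one h0 h1]
  exact (summable_geometric_of_lt_one h0 h1).sum_le_tsum _ fun i _ => pow_nonneg h0 i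

private theorem gec2_icc (q : ℝ) (h0 : 0 ≤ q) (h1 : q < 1) (j m : ℕ) :
    ∑ i ∈ Icc j m, q ^ (i - j) ≤ (1 - q)⁻¹ := by
  have h2 : ∑ i ∈ Icc j m, q ^ (i - j) = ∑ i ∈ range (m + 1 - j), q ^ i := by
    have h3 : Icc j m = Ico j (m + 1) := by
      ext x
      rw [Finset.mem_Icc, Finset.mem_Ico]
      omega
    rw [h3, Finset.sum_Ico_eq_sum_range]
    refine Finset.sum_congr rfl fun i _ => ?_
    rw [Nat.add_sub_cancel_left]
  rw [h2]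
  exact gec2_range q h0 h1 _

theorem seq_bound (j m : ℕ) (hjm : j ≤ m) (d e : ℕ → ℝ) (he : ∀ i, 0 ≤ e i)
    (hd : ∀ i ∈ Icc j m, d i ^ 2 ≤ 8 * (1 / 2) ^ i * e i) :
    (∑ i ∈ Icc j m, d i) ^ 2 ≤ 24 * (1 / 2) ^ j * ∑ i ∈ Icc j m, (3 / 4) ^ (i - j) * e i := by
  have h1 : (∑ i ∈ Icc j m, d i) ^ 2 ≤ (∑ i ∈ Icc j m, (2 / 3 : ℝ) ^ (i - j)) *
      ∑ i ∈ Icc j m, (3 / 2 : ℝ) ^ (i - j) * d i ^ 2 := by
    refine Finset.sum_sq_le_sum_mul_sum_of_sq_eq_mul _ (fun i _ => by positivity)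
      (fun i _ => by positivity) (fun i _ => ?_)
    rw [← mul_assoc, ← mul_pow]
    norm_num
  have h2 : ∑ i ∈ Icc j m, (2 / 3 : ℝ) ^ (i - j) ≤ 3 := by
    have := gec2_icc (2 / 3) (by norm_num) (by norm_num) j m
    norm_num at this
    exact this
  have h3 : ∑ i ∈ Icc j m, (3 / 2 : ℝ) ^ (i - j) * d i ^ 2 ≤
      8 * (1 / 2) ^ j * ∑ i ∈ Icc j m, (3 / 4) ^ (i - j) * e i := by
    rw [Finset.mul_sum]
    refine Finset.sum_le_sum fun i hi => ?_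
    have hij : j ≤ i := (Finset.mem_Icc.1 hi).1
    have h4 : (3 / 2 : ℝ) ^ (i - j) * d i ^ 2 ≤ (3 / 2 : ℝ) ^ (i - j) * (8 * (1 / 2) ^ i * e i) :=
      mul_le_mul_of_nonneg_left (hd i hi) (by positivity)
    refine h4.trans (le_of_eq ?_)
    have h5 : ((1 : ℝ) / 2) ^ i = (1 / 2) ^ j * (1 / 2) ^ (i - j) := by
      rw [← pow_add]
      congr 1
      omega
    have h6 : ((3 : ℝ) / 4) ^ (i - j) = (3 / 2) ^ (i - j) * (1 / 2) ^ (i - j) := by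
      rw [← mul_pow]
      norm_num
    rw [h5, h6]
    ring
  have h7 : 0 ≤ ∑ i ∈ Icc j m, (3 / 2 : ℝ) ^ (i - j) * d i ^ 2 :=
    Finset.sum_nonneg fun i _ => by positivity
  calc (∑ i ∈ Icc j m, d i) ^ 2 ≤ _ := h1
    _ ≤ 3 * ∑ i ∈ Icc j m, (3 / 2 : ℝ) ^ (i - j) * d i ^ 2 := mul_le_mul_of_nonneg_right h2 h7
    _ ≤ 3 * (8 * (1 / 2) ^ j * ∑ i ∈ Icc j m, (3 / 4) ^ (i - j) * e i) :=
      mul_le_mul_of_nonneg_left h3 (by norm_num)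
    _ = _ := by ring

theorem pigeon (N : ℕ) (hN : 1 ≤ N) (E : ℕ → ℝ) (hE : ∀ i, 0 ≤ E i) (S : ℝ)
    (hS : ∑ i ∈ Icc 1 (2 * N), E i ≤ S) :
    ∃ j : ℕ, N ≤ j ∧ j < 2 * N ∧ ∑ i ∈ Icc j (2 * N), (3 / 4) ^ (i - j) * E i ≤ 4 * S / N := by
  by_contra hcon
  push Not at hcon
  have hNpos : (0 : ℝ) < N := by exact_mod_cast hN
  have h1 : ∑ j ∈ Ico N (2 * N), ∑ i ∈ Icc j (2 * N), (3 / 4 : ℝ) ^ (i - j) * E i ≤ 4 * S := by
    have h2 : ∀ j ∈ Ico N (2 * N), ∑ i ∈ Icc j (2 * N), (3 / 4 : ℝ) ^ (i - j) * E i =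
        ∑ i ∈ Icc 1 (2 * N), if j ≤ i then (3 / 4 : ℝ) ^ (i - j) * E i else 0 := by
      intro j hj
      rw [Finset.mem_Ico] at hj
      rw [← Finset.sum_filter]
      refine Finset.sum_congr ?_ fun _ _ => rfl
      ext x
      rw [Finset.mem_Icc, Finset.mem_filter, Finset.mem_Icc]
      omega
    rw [Finset.sum_congr rfl h2, Finset.sum_comm]
    have h3 : ∀ i ∈ Icc 1 (2 * N), (∑ j ∈ Ico N (2 * N),
        if j ≤ i then (3 / 4 : ℝ) ^ (i - j) * E i else 0) ≤ 4 * E i := by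
      intro i _
      have h4 : (∑ j ∈ Ico N (2 * N), if j ≤ i then (3 / 4 : ℝ) ^ (i - j) * E i else 0) ≤
          ∑ j ∈ range (i + 1), (3 / 4 : ℝ) ^ (i - j) * E i := by
        rw [← Finset.sum_filter]
        refine Finset.sum_le_sum_of_subset_of_nonneg (fun x hx => ?_)
          (fun j _ _ => mul_nonneg (by positivity) (hE i))
        rw [Finset.mem_filter] at hx
        rw [Finset.mem_range]
        omega
      refine h4.trans ?_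
      rw [← Finset.sum_mul]
      refine mul_le_mul_of_nonneg_right ?_ (hE i)
      have h5 := Finset.sum_range_reflect (fun k => (3 / 4 : ℝ) ^ k) (i + 1)
      have h6 := gec2_range (3 / 4) (by norm_num) (by norm_num) (i + 1)
      rw [← h5] at h6
      norm_num at h6
      simpa using h6
    refine (Finset.sum_le_sum h3).trans ?_
    rw [← Finset.mul_sum]
    exact mul_le_mul_of_nonneg_left hS (by norm_num)
  have h2 : ∑ j ∈ Ico N (2 * N), 4 * S / N < ∑ j ∈ Ico N (2 * N),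
      ∑ i ∈ Icc j (2 * N), (3 / 4 : ℝ) ^ (i - j) * E i := by
    refine Finset.sum_lt_sum_of_nonempty ?_ fun j hj => ?_
    · exact ⟨N, Finset.mem_Ico.2 ⟨le_rfl, by omega⟩⟩
    · rw [Finset.mem_Ico] at hj
      exact hcon j hj.1 hj.2
  rw [Finset.sum_const, Nat.card_Ico, nsmul_eq_mul] at h2
  have h3 : ((2 * N - N : ℕ) : ℝ) * (4 * S / N) = 4 * S := by
    have : 2 * N - N = N := by omega
    rw [this]
    field_simp
  rw [h3] at h2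
  linarith

end Pool.Agent.HAS
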