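import Pool.Agent.HAS.GeC
import Pool.Agent.HAS.GeC2

/-!
# A good depth (module GeC3)

CLAIM: for every `N ≥ 1`, if `ε C1 ≤ ρ (1/4)^N`, there is `j ∈ [N, 2N)` with
`JJ A c (1 - 2^{-j}) ≤ (1/2)^j * (96 C2 / N)`.

PLAN.  `λ_i = 1 - (1/2)^i`, `1 ≤ i ≤ 2N`, and the last interval `[λ_{2N}, 1]`.  For a.e. `θ` (those for which
`r ↦ r * en` is integrable on `(0, rad θ)`, `polar_int` applied to `f = en ε ‖∇c‖`, continuous and nonnegative in
the interior), put for `1 ≤ i < 2N`: `e_i(θ) = ∫_{λ_i rad}^{λ_{i+1} rad} r en`, `e_{2N}(θ) = ∫_{λ_{2N} rad}^{rad} r en`,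
`d_i = c(bp λ_i) - c(bp λ_{i+1})` (`i < 2N`), `d_{2N} = c(bp λ_{2N})` (`c(bp 1) = 0`).  Since `r ≥ rad/2`:
`∫ en ≤ (2/rad) e_i`; lengths `rad (1/2)^(i+1)` resp. `rad (1/2)^(2N)`; `ray_energy` gives
`d_i² ≤ 4 rad (1/2)^i (2/rad) e_i = 8 (1/2)^i e_i` (the smallness condition: `|d_i| ≤ C1`, length `≥ ρ (1/2)^(2N)`,
`ε C1 ≤ ρ (1/4)^N = ρ (1/2)^{2N}`).  `∑_{i=j}^{2N} d_i = c(bp λ_j)`.  `seq_bound`, integrate over `θ`
(`E_i = ∫ e_i(θ) dθ`, `∑_{i=1}^{2N} E_i ≤ ∫_{interior A} en ≤ C2`; all `E_i` finite), `pigeon`.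
-/

set_option autoImplicit false

namespace Pool.Agent.HAS

open MeasureTheory Metric Set

variable {A : Set ℂ} {ρ R0 C1 : ℝ} {c : ℂ → ℝ}

/-- the relative radii of the layers -/
private noncomputable def lm (N i : ℕ) : ℝ := if i ≤ 2 * N then 1 - (1 / 2) ^ i else 1

private theorem lm_zero (N : ℕ) : lm N 0 = 0 := by
  unfold lm
  rw [if_pos (Nat.zero_le _), pow_zero, sub_self]

private theorem lm_of_le {N i : ℕ} (h : i ≤ 2 * N) : lm N i = 1 - (1 / 2) ^ i := by
  unfold lm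
  rw [if_pos h]

private theorem lm_end (N : ℕ) : lm N (2 * N + 1) = 1 := by
  unfold lm
  rw [if_neg (by omega)]

private theorem lm_nonneg (N i : ℕ) : 0 ≤ lm N i := by
  unfold lm
  split_ifs
  · have : (1 / 2 : ℝ) ^ i ≤ 1 := pow_le_one₀ (by norm_num) (by norm_num)
    linarith
  · norm_num

private theorem lm_le_one (N i : ℕ) : lm N i ≤ 1 := by
  unfold lm
  split_ifs
  · have : (0 : ℝ) < (1 / 2 : ℝ) ^ i := by positivity
    linarith
  · exact le_refl _

private theorem lm_half {N i : ℕ} (h : 1 ≤ i) : 1 / 2 ≤ lm N i := by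
  unfold lm
  split_ifs
  · have : (1 / 2 : ℝ) ^ i ≤ (1 / 2) ^ 1 := pow_le_pow_of_le_one (by norm_num) (by norm_num) h
    linarith
  · norm_num

private theorem lm_diff {N i : ℕ} (h : i ≤ 2 * N) :
    (1 / 4) ^ N ≤ lm N (i + 1) - lm N i ∧ lm N (i + 1) - lm N i ≤ (1 / 2) ^ i := by
  have h4 : (1 / 4 : ℝ) ^ N = (1 / 2) ^ (2 * N) := by
    rw [pow_mul]
    norm_num
  have h5 : (0 : ℝ) < (1 / 2) ^ i := by positivity
  rcases Nat.lt_or_ge i (2 * N) with h1 | h1
  · rw [lm_of_le h, lm_of_le (by omega : i + 1 ≤ 2 * N), h4]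
    have h2 : (1 / 2 : ℝ) ^ (i + 1) = 1 / 2 * (1 / 2) ^ i := by rw [pow_succ]; ring
    have h3 : (1 / 2 : ℝ) ^ (2 * N) ≤ (1 / 2) ^ (i + 1) :=
      pow_le_pow_of_le_one (by norm_num) (by norm_num) (by omega)
    constructor
    · linarith
    · linarith
  · have h2 : i = 2 * N := le_antisymm h h1
    subst h2
    rw [lm_of_le (le_refl _), lm_end, h4]
    constructor
    · linarith
    · linarith

private theorem lm_mono {N i : ℕ} : lm N i ≤ lm N (i + 1) := by
  rcases Nat.lt_or_ge (2 * N) i with h1 | h1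
  · unfold lm
    rw [if_neg (by omega), if_neg (by omega)]
  · have h2 := (lm_diff h1).1
    have h3 : (0 : ℝ) < (1 / 4) ^ N := by positivity
    linarith

private theorem en_cont (ε : ℝ) : Continuous (en ε) := by
  unfold en
  fun_prop

private theorem G_cont (h : CF A ρ R0 C1 c) (ε : ℝ) :
    ContinuousOn (fun z => en ε ‖gradient c z‖) (interior A) := by
  have h1 : ContinuousOn (fderiv ℝ c) (interior A) :=
    h.smooth.continuousOn_fderiv_of_isOpen isOpen_interior le_rfl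
  have h2 : (fun z => en ε ‖gradient c z‖) = fun z => en ε ‖fderiv ℝ c z‖ := by
    funext z
    unfold gradient
    rw [LinearIsometryEquiv.norm_map]
  rw [h2]
  exact (en_cont ε).comp_continuousOn h1.norm

private theorem ray_mem (h : Geo A ρ R0) (θ : ℝ) {r : ℝ} (hr : 0 ≤ r) (hr1 : r < rad A θ) :
    r • ee θ ∈ interior A := by
  have hrad : 0 < rad A θ := lt_of_lt_of_le h.ρ0 (rad_bounds h θ).1
  have h1 := (bp_int h (r / rad A θ) θ (div_nonneg hr hrad.le)).2 ((div_lt_one hrad).2 hr1)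
  unfold bp at h1
  rwa [div_mul_cancel₀ _ hrad.ne'] at h1

private theorem ray_contOn (h : CF A ρ R0 C1 c) (ε θ : ℝ) {a b : ℝ} (ha : 0 ≤ a)
    (hb : b ≤ rad A θ) :
    ContinuousOn (fun r : ℝ => en ε ‖gradient c (r • ee θ)‖) (Ioo a b) := by
  have h1 : ContinuousOn (fun r : ℝ => r • ee θ) (Ioo a b) := by fun_prop
  exact (G_cont h ε).comp h1 fun r hr => ray_mem h.toGeo θ (ha.trans hr.1.le) (hr.2.trans_le hb)

private theorem ray_step (h : CF A ρ R0 C1 c) (ε : ℝ) (hε : 0 < ε) (N : ℕ)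
    (hs : ε * C1 ≤ ρ * (1 / 4) ^ N) (θ : ℝ)
    (hi : IntegrableOn (fun r : ℝ => r * en ε ‖gradient c (r • ee θ)‖) (Ioo 0 (rad A θ)))
    (i : ℕ) (hi1 : 1 ≤ i) (hi2 : i ≤ 2 * N) :
    (c (bp A (lm N i) θ) - c (bp A (lm N (i + 1)) θ)) ^ 2 ≤ 8 * (1 / 2) ^ i *
      ∫ r in Ioo (lm N i * rad A θ) (lm N (i + 1) * rad A θ), r * en ε ‖gradient c (r • ee θ)‖ := by
  have hrad : 0 < rad A θ := lt_of_lt_of_le h.ρ0 (rad_bounds h.toGeo θ).1
  obtain ⟨hd1, hd2⟩ := lm_diff hi2
  have h4 : (0 : ℝ) < (1 / 4) ^ N := by positivity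
  obtain ⟨a, ha⟩ : ∃ a, a = lm N i * rad A θ := ⟨_, rfl⟩
  obtain ⟨b, hb⟩ : ∃ b, b = lm N (i + 1) * rad A θ := ⟨_, rfl⟩
  have hba : b - a = (lm N (i + 1) - lm N i) * rad A θ := by rw [ha, hb]; ring
  have ha2 : rad A θ / 2 ≤ a := by
    rw [ha]
    have := mul_le_mul_of_nonneg_right (lm_half (N := N) hi1) hrad.le
    linarith
  have ha0 : 0 < a := by linarith
  have hab : a < b := by
    have : 0 < b - a := by
      rw [hba]
      exact mul_pos (by linarith) hrad
    linarith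
  have hbr : b ≤ rad A θ := by
    rw [hb]
    have := mul_le_mul_of_nonneg_right (lm_le_one N (i + 1)) hrad.le
    linarith
  have hba1 : ρ * (1 / 4) ^ N ≤ b - a := by
    rw [hba, mul_comm]
    exact mul_le_mul hd1 (rad_bounds h.toGeo θ).1 h.ρ0.le (by linarith)
  have hba2 : b - a ≤ (1 / 2) ^ i * rad A θ := by
    rw [hba]
    exact mul_le_mul_of_nonneg_right hd2 hrad.le
  have hsub : Ioo a b ⊆ Ioo 0 (rad A θ) := Ioo_subset_Ioo ha0.le hbr
  have hint1 : IntegrableOn (fun r : ℝ => r * en ε ‖gradient c (r • ee θ)‖) (Ioo a b) :=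
    hi.mono_set hsub
  have hcont := ray_contOn h ε θ ha0.le hbr
  have hint2 : IntegrableOn (fun r : ℝ => en ε ‖gradient c (r • ee θ)‖) (Ioo a b) := by
    refine Integrable.mono' (hint1.const_mul (2 / rad A θ))
      (hcont.aestronglyMeasurable measurableSet_Ioo) ?_
    refine (ae_restrict_iff' measurableSet_Ioo).2 (Filter.Eventually.of_forall fun r hr => ?_)
    have h0 := en_nonneg ε ‖gradient c (r • ee θ)‖
    rw [Real.norm_of_nonneg h0]
    have h1 : 1 ≤ 2 / rad A θ * r := by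
      rw [div_mul_eq_mul_div, le_div_iff₀ hrad]
      linarith [hr.1]
    have h2 := mul_le_mul_of_nonneg_right h1 h0
    linarith
  have hp1 : bp A (lm N i) θ = a • ee θ := by rw [ha]; rfl
  have hp2 : bp A (lm N (i + 1)) θ = b • ee θ := by rw [hb]; rfl
  have hm1 : bp A (lm N i) θ ∈ A := (bp_mem h.toGeo _ θ (lm_nonneg N i)).2 (lm_le_one N i)
  have hm2 : bp A (lm N (i + 1)) θ ∈ A :=
    (bp_mem h.toGeo _ θ (lm_nonneg N (i + 1))).2 (lm_le_one N (i + 1))
  have hD : ε * |c (a • ee θ) - c (b • ee θ)| ≤ 2 * (b - a) := by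
    rw [← hp1, ← hp2]
    have h1 : |c (bp A (lm N i) θ) - c (bp A (lm N (i + 1)) θ)| ≤ C1 := by
      rw [abs_le]
      constructor
      · linarith [h.nonneg _ hm1, h.le _ hm2]
      · linarith [h.nonneg _ hm2, h.le _ hm1]
    have h2 := mul_le_mul_of_nonneg_left h1 hε.le
    linarith
  have hray := ray_energy h ε hε θ a b ha0 hab hbr hint2 hD
  rw [← ha, ← hb, hp1, hp2]
  refine hray.trans ?_
  have h5 : ∫ r in Ioo a b, en ε ‖gradient c (r • ee θ)‖ ≤
      2 / rad A θ * ∫ r in Ioo a b, r * en ε ‖gradient c (r • ee θ)‖ := by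
    rw [← integral_const_mul]
    refine setIntegral_mono_on hint2 (hint1.const_mul _) measurableSet_Ioo fun r hr => ?_
    have h0 := en_nonneg ε ‖gradient c (r • ee θ)‖
    have h1 : 1 ≤ 2 / rad A θ * r := by
      rw [div_mul_eq_mul_div, le_div_iff₀ hrad]
      linarith [hr.1]
    have h2 := mul_le_mul_of_nonneg_right h1 h0
    linarith
  have h6 : 0 ≤ ∫ r in Ioo a b, r * en ε ‖gradient c (r • ee θ)‖ :=
    setIntegral_nonneg measurableSet_Ioo fun r hr =>
      mul_nonneg (ha0.le.trans hr.1.le) (en_nonneg _ _)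
  have h7 : 0 ≤ 2 / rad A θ := by positivity
  calc 4 * (b - a) * ∫ r in Ioo a b, en ε ‖gradient c (r • ee θ)‖
      ≤ 4 * (b - a) * (2 / rad A θ * ∫ r in Ioo a b, r * en ε ‖gradient c (r • ee θ)‖) :=
        mul_le_mul_of_nonneg_left h5 (by linarith)
    _ ≤ 4 * ((1 / 2) ^ i * rad A θ) *
        (2 / rad A θ * ∫ r in Ioo a b, r * en ε ‖gradient c (r • ee θ)‖) :=
        mul_le_mul_of_nonneg_right (by linarith) (mul_nonneg h7 h6)
    _ = 8 * (1 / 2) ^ i * ∫ r in Ioo a b, r * en ε ‖gradient c (r • ee θ)‖ := by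
        field_simp
        ring

private theorem layer_meas (h : Geo A ρ R0) {G : ℂ → ℝ} (hG : ContinuousOn G (interior A))
    {l l' : ℝ} (hl : 0 ≤ l) (hl' : l' ≤ 1) :
    StronglyMeasurable
      (fun θ => ∫ r in Ioo (l * rad A θ) (l' * rad A θ), r * G (r • ee θ)) := by
  classical
  have hrc := rad_cont h
  have hec := ee_cont
  let U : Set (ℝ × ℝ) := {p | l * rad A p.1 < p.2 ∧ p.2 < l' * rad A p.1}
  have hU : IsOpen U := by
    refine IsOpen.and ?_ ?_
    · exact isOpen_lt (by fun_prop) (by fun_prop)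
    · exact isOpen_lt (by fun_prop) (by fun_prop)
  have hc : ContinuousOn (fun p : ℝ × ℝ => p.2 * G (p.2 • ee p.1)) U := by
    refine ContinuousOn.mul (by fun_prop) (hG.comp (by fun_prop) ?_)
    intro p hp
    have hrad : 0 < rad A p.1 := lt_of_lt_of_le h.ρ0 (rad_bounds h p.1).1
    refine ray_mem h p.1 ((mul_nonneg hl hrad.le).trans hp.1.le) (hp.2.trans_le ?_)
    have := mul_le_mul_of_nonneg_right hl' hrad.le
    linarith
  have hm : Measurable (U.piecewise (fun p : ℝ × ℝ => p.2 * G (p.2 • ee p.1)) fun _ => 0) :=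
    hc.measurable_piecewise continuousOn_const hU.measurableSet
  have h1 := hm.stronglyMeasurable.integral_prod_right' (ν := (volume : Measure ℝ))
  have h2 : (fun θ => ∫ r in Ioo (l * rad A θ) (l' * rad A θ), r * G (r • ee θ)) =
      fun θ => ∫ r, U.piecewise (fun p : ℝ × ℝ => p.2 * G (p.2 • ee p.1)) (fun _ => 0) (θ, r) := by
    funext θ
    rw [← integral_indicator measurableSet_Ioo]
    refine integral_congr_ae (Filter.Eventually.of_forall fun r => ?_)
    by_cases hr : r ∈ Ioo (l * rad A θ) (l' * rad A θ)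
    · have h3 : (θ, r) ∈ U := hr
      simp only [indicator_of_mem hr]
      rw [piecewise_eq_of_mem _ _ _ h3]
    · have h3 : (θ, r) ∉ U := hr
      simp only [indicator_of_notMem hr]
      rw [piecewise_eq_of_notMem _ _ _ h3]
  rw [h2]
  exact h1

private theorem sum_layers (N : ℕ) {R : ℝ} (hR : 0 < R) {g : ℝ → ℝ} (hg : ∀ r, 0 < r → 0 ≤ g r)
    (hi : IntegrableOn g (Ioo 0 R)) :
    ∑ i ∈ Finset.Icc 1 (2 * N), ∫ r in Ioo (lm N i * R) (lm N (i + 1) * R), g r ≤
      ∫ r in Ioo 0 R, g r := by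
  have hle : ∀ i, lm N i * R ≤ lm N (i + 1) * R := fun i =>
    mul_le_mul_of_nonneg_right lm_mono hR.le
  have h0 : ∀ i, 0 ≤ lm N i * R := fun i => mul_nonneg (lm_nonneg N i) hR.le
  have h1 : ∀ i, lm N i * R ≤ R := fun i => by
    have := mul_le_mul_of_nonneg_right (lm_le_one N i) hR.le
    linarith
  have hIoc : IntegrableOn g (Ioc 0 R) := by
    rwa [integrableOn_Ioc_iff_integrableOn_Ioo]
  have he : ∀ i, ∫ r in Ioo (lm N i * R) (lm N (i + 1) * R), g r =
      ∫ r in (lm N i * R)..(lm N (i + 1) * R), g r := by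
    intro i
    rw [intervalIntegral.integral_of_le (hle i), integral_Ioc_eq_integral_Ioo]
  have hsum := intervalIntegral.sum_integral_adjacent_intervals (μ := volume) (f := g)
    (a := fun i => lm N i * R) (n := 2 * N + 1) (fun k _ => by
      rw [intervalIntegrable_iff_integrableOn_Ioc_of_le (hle k)]
      exact hIoc.mono_set (Ioc_subset_Ioc (h0 k) (h1 (k + 1))))
  have hfin : ∫ r in (lm N 0 * R)..(lm N (2 * N + 1) * R), g r = ∫ r in Ioo 0 R, g r := by
    rw [lm_zero, lm_end, zero_mul, one_mul, intervalIntegral.integral_of_le hR.le,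
      integral_Ioc_eq_integral_Ioo]
  rw [← hfin, ← hsum, Finset.sum_congr rfl fun i _ => he i]
  refine Finset.sum_le_sum_of_subset_of_nonneg ?_ fun i _ _ => ?_
  · intro i hi
    rw [Finset.mem_Icc] at hi
    rw [Finset.mem_range]
    omega
  · rw [← he]
    exact setIntegral_nonneg measurableSet_Ioo fun r hr => hg r ((h0 i).trans_lt hr.1)

private theorem tele (f : ℕ → ℝ) {j m : ℕ} (h : j ≤ m) :
    ∑ i ∈ Finset.Icc j m, (f i - f (i + 1)) = f j - f (m + 1) := by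
  induction m, h using Nat.le_induction with
  | base => rw [Finset.Icc_self, Finset.sum_singleton]
  | succ m hm ih =>
    rw [← Finset.insert_Icc_right_eq_Icc_add_one (by omega), Finset.sum_insert (by simp), ih]
    ring

theorem good_depth (h : CF A ρ R0 C1 c) (C2 ε : ℝ) (hε : 0 < ε)
    (hi : IntegrableOn (fun z => en ε ‖gradient c z‖) (interior A))
    (he : ∫ z in interior A, en ε ‖gradient c z‖ ≤ C2) (N : ℕ) (hN : 1 ≤ N)
    (hs : ε * C1 ≤ ρ * (1 / 4) ^ N) :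
    ∃ j : ℕ, N ≤ j ∧ j < 2 * N ∧ JJ A c (1 - (1 / 2) ^ j) ≤ (1 / 2) ^ j * (96 * C2 / N) := by
  obtain ⟨hae, hTot, hEq⟩ := polar_int h.toGeo (fun z => en ε ‖gradient c z‖) (G_cont h ε)
    (fun z _ => en_nonneg _ _) hi
  have hrad : ∀ θ, 0 < rad A θ := fun θ => lt_of_lt_of_le h.ρ0 (rad_bounds h.toGeo θ).1
  obtain ⟨E, hE⟩ : ∃ E : ℕ → ℝ → ℝ, ∀ i θ, E i θ =
      ∫ r in Ioo (lm N i * rad A θ) (lm N (i + 1) * rad A θ),
        r * en ε ‖gradient c (r • ee θ)‖ := ⟨_, fun _ _ => rfl⟩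
  have hE0 : ∀ i θ, 0 ≤ E i θ := fun i θ => by
    rw [hE]
    exact setIntegral_nonneg measurableSet_Ioo fun r hr =>
      mul_nonneg ((mul_nonneg (lm_nonneg N i) (hrad θ).le).trans hr.1.le) (en_nonneg _ _)
  have hEle : ∀ i, ∀ᵐ θ ∂(volume.restrict (Ioo (-Real.pi) Real.pi)),
      E i θ ≤ ∫ r in Ioo 0 (rad A θ), r * en ε ‖gradient c (r • ee θ)‖ := by
    intro i
    filter_upwards [hae] with θ hθ
    rw [hE]
    refine setIntegral_mono_set hθ ?_ (Filter.Eventually.of_forall ?_)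
    · exact (ae_restrict_iff' measurableSet_Ioo).2 (Filter.Eventually.of_forall fun r hr =>
        mul_nonneg hr.1.le (en_nonneg _ _))
    · refine Ioo_subset_Ioo (mul_nonneg (lm_nonneg N i) (hrad θ).le) ?_
      have := mul_le_mul_of_nonneg_right (lm_le_one N (i + 1)) (hrad θ).le
      linarith
  have hEint : ∀ i, IntegrableOn (E i) (Ioo (-Real.pi) Real.pi) := by
    intro i
    refine Integrable.mono' hTot ?_ ?_
    · have h1 := layer_meas h.toGeo (G_cont h ε) (lm_nonneg N i) (lm_le_one N (i + 1))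
      have h2 : E i = fun θ => ∫ r in Ioo (lm N i * rad A θ) (lm N (i + 1) * rad A θ),
          r * en ε ‖gradient c (r • ee θ)‖ := funext fun θ => hE i θ
      rw [h2]
      exact h1.aestronglyMeasurable
    · filter_upwards [hEle i] with θ hθ
      rwa [Real.norm_of_nonneg (hE0 i θ)]
  have hsumE : ∑ i ∈ Finset.Icc 1 (2 * N), ∫ θ in Ioo (-Real.pi) Real.pi, E i θ ≤ C2 := by
    rw [← integral_finsetSum _ fun i _ => hEint i]
    refine le_trans ?_ (hEq.symm.le.trans he)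
    refine integral_mono_ae (integrable_finsetSum _ fun i _ => hEint i) hTot ?_
    filter_upwards [hae] with θ hθ
    have h1 := sum_layers N (hrad θ) (g := fun r => r * en ε ‖gradient c (r • ee θ)‖)
      (fun r hr => mul_nonneg hr.le (en_nonneg _ _)) hθ
    simp only [hE]
    exact h1
  obtain ⟨j, hj1, hj2, hj3⟩ := pigeon N hN (fun i => ∫ θ in Ioo (-Real.pi) Real.pi, E i θ)
    (fun i => setIntegral_nonneg measurableSet_Ioo fun θ _ => hE0 i θ) C2 hsumE
  refine ⟨j, hj1, hj2, ?_⟩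
  have hptw : ∀ᵐ θ ∂(volume.restrict (Ioo (-Real.pi) Real.pi)),
      c (bp A (1 - (1 / 2) ^ j) θ) ^ 2 ≤
        24 * (1 / 2) ^ j * ∑ i ∈ Finset.Icc j (2 * N), (3 / 4) ^ (i - j) * E i θ := by
    filter_upwards [hae] with θ hθ
    have h1 := seq_bound j (2 * N) hj2.le
      (fun i => c (bp A (lm N i) θ) - c (bp A (lm N (i + 1)) θ)) (fun i => E i θ)
      (fun i => hE0 i θ) (fun i hij => by
        rw [Finset.mem_Icc] at hij
        show _ ≤ 8 * (1 / 2) ^ i * E i θ
        rw [hE]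
        exact ray_step h ε hε N hs θ hθ i (by omega) hij.2)
    rw [tele (fun i => c (bp A (lm N i) θ)) hj2.le, lm_end,
      h.bd _ (bp_frontier h.toGeo θ), sub_zero, lm_of_le hj2.le] at h1
    exact h1
  have hpi : -Real.pi ≤ Real.pi := by linarith [Real.pi_pos]
  have hJJ : JJ A c (1 - (1 / 2) ^ j) ≤ ∫ θ in Ioo (-Real.pi) Real.pi,
      24 * (1 / 2) ^ j * ∑ i ∈ Finset.Icc j (2 * N), (3 / 4) ^ (i - j) * E i θ := by
    unfold JJ
    rw [intervalIntegral.integral_of_le hpi, integral_Ioc_eq_integral_Ioo]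
    refine integral_mono_of_nonneg (Filter.Eventually.of_forall fun θ => sq_nonneg _) ?_ hptw
    exact (integrable_finsetSum _ fun i _ => (hEint i).const_mul _).const_mul _
  refine hJJ.trans ?_
  rw [integral_const_mul, integral_finsetSum _ fun i _ => (hEint i).const_mul _]
  have h2 : ∑ i ∈ Finset.Icc j (2 * N), ∫ θ in Ioo (-Real.pi) Real.pi,
      (3 / 4) ^ (i - j) * E i θ = ∑ i ∈ Finset.Icc j (2 * N), (3 / 4) ^ (i - j) *
        ∫ θ in Ioo (-Real.pi) Real.pi, E i θ :=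
    Finset.sum_congr rfl fun i _ => integral_const_mul _ _
  rw [h2]
  have h3 : (1 / 2 : ℝ) ^ j * (96 * C2 / N) = 24 * (1 / 2) ^ j * (4 * C2 / N) := by ring
  rw [h3]
  exact mul_le_mul_of_nonneg_left hj3 (by positivity)

end Pool.Agent.HAS
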