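import Pool.Agent.HAS.GeA

/-!
# The supremum near the boundary (module GeD)

CLAIM: for `0 < δ ≤ 1/2` and `z ∈ A` with `1 - δ ≤ gauge A z`:
`c(z)² ≤ 4 (R0² + R0 ρ)/(δ ρ²) JJ A c (1-δ)`.

PLAN.  `z = bp (1-t) θ0`, `0 ≤ t ≤ δ` (`exists_bp`).  Let `|θ - θ0| ≤ β`, `β = δρ²/(R0²+R0ρ)` (`≤ 1/2`).  With
`b_θ = bp 1 θ`, `‖b_θ - b_θ0‖ ≤ (R0²/ρ+R0) β = δ ρ` (`bp_lip`).  `P = bp (1-δ) θ = z/2 + z'/2`, where
`z' = 2(1-δ) b_θ - (1-t) b_θ0 = (1-2δ+t) b_θ + (1-t)(b_θ - b_θ0)`, `gauge A z' ≤ (1-2δ+t) + ‖b_θ-b_θ0‖/ρ ≤ 1`, so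
`z' ∈ A` and by concavity and `c ≥ 0`: `c(P) ≥ c(z)/2`.  Periodicity in `θ` (`ee`, hence `rad`, `bp` are
`2π`-periodic): `{θ ∈ (-π,π) : |θ-θ0| ≤ β mod 2π}` has measure `≥ β` (one of `[θ0, θ0+β]`, `[θ0-β,θ0]` lies in
`[-π,π]`), so `JJ ≥ β c(z)²/4` (`θ ↦ c(bp (1-δ) θ)²` is continuous, nonnegative).
-/

set_option autoImplicit false

namespace Pool.Agent.HAS

open MeasureTheory Metric Set

variable {A : Set ℂ} {ρ R0 C1 : ℝ} {c : ℂ → ℝ}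

theorem JJ_nonneg (lam : ℝ) : 0 ≤ JJ A c lam := by
  unfold JJ
  exact intervalIntegral.integral_nonneg (by linarith [Real.pi_pos]) fun _ _ => sq_nonneg _

private theorem bp_cont (h : Geo A ρ R0) (lam : ℝ) : Continuous (bp A lam) := by
  unfold bp
  exact (continuous_const.mul (rad_cont h)).smul ee_cont

private theorem bp_scale (lam θ : ℝ) : bp A lam θ = lam • bp A 1 θ := by
  unfold bp
  rw [one_mul, smul_smul]

private theorem half_le (h : CF A ρ R0 C1 c) {δ : ℝ} (hδ : 0 < δ) (hδ1 : δ ≤ 1 / 2) {lam θ θ' : ℝ}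
    (hl : 1 - δ ≤ lam) (hl1 : lam ≤ 1)
    (hd : ‖bp A 1 θ' - bp A 1 θ‖ ≤ δ * ρ) : c (bp A lam θ) / 2 ≤ c (bp A (1 - δ) θ') := by
  have hg := h.toGeo
  have hρ := h.ρ0
  have hb : bp A 1 θ' ∈ A := (bp_mem hg 1 θ' zero_le_one).2 le_rfl
  have hz : bp A lam θ ∈ A := (bp_mem hg lam θ (by linarith)).2 hl1
  obtain ⟨s, hs⟩ : ∃ s : ℝ, s = 2 * δ - (1 - lam) := ⟨_, rfl⟩
  have hsδ : δ ≤ s := by linarith
  have hs0 : 0 < s := by linarith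
  have hs1 : 0 ≤ 1 - s := by linarith
  obtain ⟨u, hu⟩ : ∃ u : ℂ, u = (s⁻¹ * lam) • (bp A 1 θ' - bp A 1 θ) := ⟨_, rfl⟩
  have huA : u ∈ A := by
    apply h.inner
    have hlam : 0 ≤ lam := by linarith
    rw [mem_closedBall_zero_iff, hu, norm_smul, Real.norm_eq_abs,
      abs_of_nonneg (mul_nonneg (inv_nonneg.2 hs0.le) hlam)]
    have h1 : s⁻¹ * lam ≤ δ⁻¹ * 1 :=
      mul_le_mul (inv_anti₀ hδ hsδ) hl1 (by linarith) (by positivity)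
    calc s⁻¹ * lam * ‖bp A 1 θ' - bp A 1 θ‖ ≤ δ⁻¹ * 1 * (δ * ρ) :=
          mul_le_mul h1 hd (norm_nonneg _) (by positivity)
      _ = ρ := by field_simp
  have hz' : (1 - s) • bp A 1 θ' + s • u ∈ A := h.conv hb huA hs1 hs0.le (by ring)
  have e1 : s • u = lam • (bp A 1 θ' - bp A 1 θ) := by
    rw [hu, smul_smul]
    congr 1
    field_simp
  have e2 : bp A (1 - δ) θ' = (1 / 2 : ℝ) • bp A lam θ +
      (1 / 2 : ℝ) • ((1 - s) • bp A 1 θ' + s • u) := by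
    rw [e1, bp_scale (1 - δ), bp_scale lam, hs]
    module
  have h1 := h.conc.2 hz hz' (by norm_num : (0 : ℝ) ≤ 1 / 2) (by norm_num : (0 : ℝ) ≤ 1 / 2)
    (by norm_num)
  rw [← e2] at h1
  have h2 := h.nonneg _ hz'
  simp only [smul_eq_mul] at h1
  linarith

theorem sup_bound (h : CF A ρ R0 C1 c) (δ : ℝ) (hδ : 0 < δ) (hδ1 : δ ≤ 1 / 2) (z : ℂ) (hz : z ∈ A)
    (hg : 1 - δ ≤ gauge A z) :
    c z ^ 2 ≤ 4 * (R0 ^ 2 + R0 * ρ) / (δ * ρ ^ 2) * JJ A c (1 - δ) := by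
  have hG := h.toGeo
  have hρ := h.ρ0
  have hρR : ρ ≤ R0 := (rad_bounds hG 0).1.trans (rad_bounds hG 0).2
  have hR : 0 < R0 := lt_of_lt_of_le hρ hρR
  obtain ⟨lam, θ0, hl0, hl1, hθ1, hθ2, rfl, hlg⟩ := exists_bp hG z hz
  rw [← hlg] at hg
  obtain ⟨β, hβ⟩ : ∃ β : ℝ, β = δ * ρ ^ 2 / (R0 ^ 2 + R0 * ρ) := ⟨_, rfl⟩
  have hden : 0 < R0 ^ 2 + R0 * ρ := by positivity
  have hβ0 : 0 < β := by rw [hβ]; positivity
  have hβ1 : β ≤ 1 := by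
    rw [hβ, div_le_one hden]
    have h1 : ρ ^ 2 ≤ R0 ^ 2 := pow_le_pow_left₀ hρ.le hρR 2
    nlinarith [mul_pos hR hρ, sq_nonneg ρ]
  have hnear : ∀ θ, |θ - θ0| ≤ β → c (bp A lam θ0) ^ 2 / 4 ≤ c (bp A (1 - δ) θ) ^ 2 := by
    intro θ hθ
    have h1 : ‖bp A 1 θ - bp A 1 θ0‖ ≤ δ * ρ := by
      refine (bp_lip hG 1 θ θ0 zero_le_one).trans ?_
      rw [one_mul]
      calc (R0 ^ 2 / ρ + R0) * |θ - θ0| ≤ (R0 ^ 2 / ρ + R0) * β :=
            mul_le_mul_of_nonneg_left hθ (by positivity)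
        _ = δ * ρ := by rw [hβ]; field_simp
    have h2 := half_le h hδ hδ1 hg hl1 h1
    have h3 := h.nonneg _ hz
    have h4 : (c (bp A lam θ0) / 2) ^ 2 ≤ c (bp A (1 - δ) θ) ^ 2 :=
      pow_le_pow_left₀ (by positivity) h2 2
    calc c (bp A lam θ0) ^ 2 / 4 = (c (bp A lam θ0) / 2) ^ 2 := by ring
      _ ≤ _ := h4
  have hcont : Continuous fun θ => c (bp A (1 - δ) θ) ^ 2 := by
    have h1 : Continuous fun θ => c (bp A (1 - δ) θ) :=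
      h.cont.comp_continuous (bp_cont hG (1 - δ)) fun θ =>
        (bp_mem hG (1 - δ) θ (by linarith)).2 (by linarith)
    exact h1.pow 2
  have hpi : 3 < Real.pi := Real.pi_gt_three
  have key : ∀ a : ℝ, -Real.pi ≤ a → a + β ≤ Real.pi → (∀ θ ∈ Icc a (a + β), |θ - θ0| ≤ β) →
      β * (c (bp A lam θ0) ^ 2 / 4) ≤ JJ A c (1 - δ) := by
    intro a ha1 ha2 ha
    have h1 : ∫ _θ in a..(a + β), c (bp A lam θ0) ^ 2 / 4 ≤
        ∫ θ in a..(a + β), c (bp A (1 - δ) θ) ^ 2 :=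
      intervalIntegral.integral_mono_on (by linarith) intervalIntegrable_const
        (hcont.intervalIntegrable _ _) fun θ hθ => hnear θ (ha θ hθ)
    have h2 : ∫ θ in a..(a + β), c (bp A (1 - δ) θ) ^ 2 ≤
        ∫ θ in (-Real.pi)..Real.pi, c (bp A (1 - δ) θ) ^ 2 :=
      intervalIntegral.integral_mono_interval ha1 (by linarith) ha2
        (Filter.Eventually.of_forall fun θ => sq_nonneg _) (hcont.intervalIntegrable _ _)
    rw [intervalIntegral.integral_const, smul_eq_mul, add_sub_cancel_left] at h1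
    exact h1.trans h2
  have hfin : β * (c (bp A lam θ0) ^ 2 / 4) ≤ JJ A c (1 - δ) := by
    rcases le_total θ0 0 with h0 | h0
    · refine key θ0 hθ1.le (by linarith) fun θ hθ => ?_
      rw [abs_le]
      constructor
      · linarith [hθ.1]
      · linarith [hθ.2]
    · refine key (θ0 - β) (by linarith) (by linarith) fun θ hθ => ?_
      rw [abs_le]
      constructor
      · linarith [hθ.1]
      · linarith [hθ.2]
  have e : 4 * (R0 ^ 2 + R0 * ρ) / (δ * ρ ^ 2) = 4 / β := by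
    rw [hβ]
    field_simp
  rw [e, div_mul_eq_mul_div, le_div_iff₀ hβ0]
  linarith

end Pool.Agent.HAS
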