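import Mathlib

/-! # Definitions for the planar part -/

set_option autoImplicit false

namespace Pool.Agent.HAS

open MeasureTheory Metric Set

/-- area of a planar set -/
noncomputable def ar (A : Set ℂ) : ℝ := (volume A).toReal

/-- superlevel set in `U` -/
def sup (U : Set ℂ) (v : ℂ → ℝ) (t : ℝ) : Set ℂ := {z | z ∈ U ∧ t ≤ v z}

end Pool.Agent.HAS
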