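import Pool.Agent.HAS.Defs
import Pool.Agent.HAS.PlDefs

/-! # Definitions for the analysis on a planar convex set -/

set_option autoImplicit false

namespace Pool.Agent.HAS

open MeasureTheory Metric Set

/-- radial function of a planar convex set containing the origin in its interior -/
noncomputable def rad (A : Set ℂ) (θ : ℝ) : ℝ := (gauge A (ee θ))⁻¹

/-- the boundary point in direction `θ`, scaled by `lam` -/
noncomputable def bp (A : Set ℂ) (lam θ : ℝ) : ℂ := (lam * rad A θ) • ee θ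

/-- planar convex set pinched between two balls -/
structure Geo (A : Set ℂ) (ρ R0 : ℝ) : Prop where
  cpt : IsCompact A
  conv : Convex ℝ A
  ρ0 : 0 < ρ
  inner : closedBall 0 ρ ⊆ A
  outer : A ⊆ closedBall 0 R0

/-- concave functions on `A`, zero on the boundary -/
structure CF (A : Set ℂ) (ρ R0 C1 : ℝ) (c : ℂ → ℝ) : Prop extends Geo A ρ R0 where
  conc : ConcaveOn ℝ A c
  cont : ContinuousOn c A
  bd : ∀ z ∈ frontier A, c z = 0
  nonneg : ∀ z ∈ A, 0 ≤ c z
  le : ∀ z ∈ A, c z ≤ C1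
  smooth : ContDiffOn ℝ 1 c (interior A)

/-- the energy density, with a small parameter -/
noncomputable def en (ε s : ℝ) : ℝ := (Real.sqrt (1 + ε ^ 2 * s ^ 2) - 1) / ε ^ 2

/-- the data extracted from a body -/
structure PData (A : Set ℂ) (ρ R0 C1 C2 ε Φ : ℝ) (c : ℂ → ℝ) : Prop extends CF A ρ R0 C1 c where
  area : ar A ≤ 1
  mass : 1 ≤ Real.pi * ∫ z in A, c z ^ 2
  edgeI : IntegrableOn (fun z => en ε ‖gradient c z‖) (interior A)
  edge : ∫ z in interior A, en ε ‖gradient c z‖ ≤ C2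
  sharp : ∀ (η : ℂ → ℝ) (d : ℝ), ContDiff ℝ 2 η → (∀ z, |η z| ≤ 1) → HasCompactSupport η →
    tsupport η ⊆ interior A → 0 < d → (∀ z ∈ tsupport η, closedBall z d ⊆ A) →
    2 * (∫ z, η z ^ 2 * ‖gradient c z‖ ^ 2) -
      (∫ z, (72 * ‖gradient η z‖ ^ 2 + 19 * |lap (fun y => η y ^ 2) z|) * c z ^ 2) ≤
      (1 + (2 * C1 / d * ε) ^ 2) * Φ

/-- mean square of `c` at relative depth `1 - lam` -/
noncomputable def JJ (A : Set ℂ) (c : ℂ → ℝ) (lam : ℝ) : ℝ :=
  ∫ θ in (-Real.pi)..Real.pi, c (bp A lam θ) ^ 2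

end Pool.Agent.HAS
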