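import Pool.Agent.HAS.GeB

/-!
# The mass of the boundary layer (module GeE)

CLAIM: `∫_{A \ (1-δ)A} c² ≤ 4 R0² δ JJ A c (1-δ)` for `0 < δ ≤ 1/2`.

PLAN.  `polar_layer` with `f = c²`.  On the ray: `φ(λ) = c(bp λ θ)` is concave on `[0,1]`, `≥ 0`; for
`λ ∈ [λ0, 1]`, `λ0 = 1-δ ≥ 1/2`: `φ(λ0) ≥ (λ0/λ) φ(λ) + (1-λ0/λ) φ(0) ≥ (λ0/λ) φ(λ) ≥ φ(λ)/2`.  So
`∫_{λ0 rad}^{rad} r c² dr ≤ rad · (δ rad) · 4 φ(λ0)² ≤ 4 R0² δ φ(λ0)²`.  Integrate over `θ`.
-/

set_option autoImplicit false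

namespace Pool.Agent.HAS

open MeasureTheory Metric Set
open scoped Pointwise

variable {A : Set ℂ} {ρ R0 C1 : ℝ} {c : ℂ → ℝ}

private theorem gee_pt (h : CF A ρ R0 C1 c) {l0 : ℝ} (h0 : 1 / 2 ≤ l0) (h1 : l0 ≤ 1) (θ r : ℝ)
    (hr : l0 * rad A θ ≤ r) (hr1 : r ≤ rad A θ) :
    r • ee θ ∈ A ∧ 0 ≤ c (r • ee θ) ∧ c (r • ee θ) ≤ 2 * c (bp A l0 θ) := by
  have hrad : 0 < rad A θ := lt_of_lt_of_le h.ρ0 (rad_bounds h.toGeo θ).1
  have hrpos : 0 < r := lt_of_lt_of_le (by positivity) hr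
  have hbp : r • ee θ = bp A (r / rad A θ) θ := by
    unfold bp
    rw [div_mul_cancel₀ _ hrad.ne']
  have hmem : r • ee θ ∈ A := by
    rw [hbp, bp_mem h.toGeo _ _ (by positivity), div_le_one hrad]
    exact hr1
  have hzero : (0 : ℂ) ∈ A := h.inner (mem_closedBall_self h.ρ0.le)
  have hnn := h.nonneg _ hmem
  refine ⟨hmem, hnn, ?_⟩
  have ha : 1 / 2 ≤ l0 * rad A θ / r := by
    rw [le_div_iff₀ hrpos]
    nlinarith
  have ha1 : l0 * rad A θ / r ≤ 1 := by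
    rw [div_le_one hrpos]
    exact hr
  have hconc := h.conc.2 hmem hzero (by linarith : 0 ≤ l0 * rad A θ / r)
    (by linarith : 0 ≤ 1 - l0 * rad A θ / r) (by ring)
  have he : (l0 * rad A θ / r) • (r • ee θ) + (1 - l0 * rad A θ / r) • (0 : ℂ) = bp A l0 θ := by
    rw [smul_zero, add_zero, smul_smul, div_mul_cancel₀ _ hrpos.ne']
    rfl
  rw [he, smul_eq_mul, smul_eq_mul] at hconc
  have h2 := mul_nonneg (by linarith : 0 ≤ 1 - l0 * rad A θ / r) (h.nonneg _ hzero)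
  have h3 := mul_le_mul_of_nonneg_right ha hnn
  linarith

theorem layer_bound (h : CF A ρ R0 C1 c) (δ : ℝ) (hδ : 0 < δ) (hδ1 : δ ≤ 1 / 2) :
    ∫ z in A \ (1 - δ) • A, c z ^ 2 ≤ 4 * R0 ^ 2 * δ * JJ A c (1 - δ) := by
  have hl0 : (1 / 2 : ℝ) ≤ 1 - δ := by linarith
  have hl1 : (1 - δ : ℝ) ≤ 1 := by linarith
  rw [polar_layer h.toGeo (fun z => c z ^ 2) (h.cont.pow 2) (1 - δ) (by linarith) (by linarith)]
  have hR0 : 0 < R0 := lt_of_lt_of_le h.ρ0
    ((rad_bounds h.toGeo 0).1.trans (rad_bounds h.toGeo 0).2)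
  have hpi : -Real.pi ≤ Real.pi := by linarith [Real.pi_pos]
  -- continuity of the mean square
  have hbpc : Continuous fun θ => bp A (1 - δ) θ := by
    unfold bp
    exact (continuous_const.mul (rad_cont h.toGeo)).smul ee_cont
  have hbpm : ∀ θ, bp A (1 - δ) θ ∈ A := fun θ => by
    rw [bp_mem h.toGeo _ _ (by linarith)]
    exact hl1
  have hgc : Continuous fun θ => c (bp A (1 - δ) θ) ^ 2 := by
    have h2 : Continuous fun θ => c (bp A (1 - δ) θ) := h.cont.comp_continuous hbpc hbpm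
    exact h2.pow 2
  -- the bound on one ray
  have hray : ∀ θ : ℝ, ∫ r in ((1 - δ) * rad A θ)..(rad A θ), r * c (r • ee θ) ^ 2 ≤
      4 * R0 ^ 2 * δ * c (bp A (1 - δ) θ) ^ 2 := by
    intro θ
    obtain ⟨hb1, hb2⟩ := rad_bounds h.toGeo θ
    have hrad : 0 < rad A θ := lt_of_lt_of_le h.ρ0 hb1
    have hle : (1 - δ) * rad A θ ≤ rad A θ := by nlinarith
    have h2 : ∫ r in ((1 - δ) * rad A θ)..(rad A θ), r * c (r • ee θ) ^ 2 ≤
        ∫ _r in ((1 - δ) * rad A θ)..(rad A θ), R0 * (4 * c (bp A (1 - δ) θ) ^ 2) := by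
      refine intervalIntegral.integral_mono_on hle ?_ intervalIntegrable_const ?_
      · refine ContinuousOn.intervalIntegrable ?_
        rw [uIcc_of_le hle]
        refine continuousOn_id.mul (ContinuousOn.pow ?_ 2)
        refine h.cont.comp ((continuous_id.smul continuous_const).continuousOn) ?_
        intro r hr
        exact (gee_pt h hl0 hl1 θ r hr.1 hr.2).1
      · intro r hr
        obtain ⟨-, h3, h4⟩ := gee_pt h hl0 hl1 θ r hr.1 hr.2
        have h5 : c (r • ee θ) ^ 2 ≤ 4 * c (bp A (1 - δ) θ) ^ 2 := by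
          have h6 := pow_le_pow_left₀ h3 h4 2
          rw [mul_pow] at h6
          linarith
        have h7 : r ≤ R0 := hr.2.trans hb2
        exact mul_le_mul h7 h5 (sq_nonneg _) hR0.le
    rw [intervalIntegral.integral_const, smul_eq_mul] at h2
    refine h2.trans ?_
    have h8 : rad A θ - (1 - δ) * rad A θ = δ * rad A θ := by ring
    rw [h8]
    have h9 : δ * rad A θ ≤ δ * R0 := mul_le_mul_of_nonneg_left hb2 hδ.le
    have h10 := mul_le_mul_of_nonneg_right h9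
      (by positivity : 0 ≤ R0 * (4 * c (bp A (1 - δ) θ) ^ 2))
    have h11 : δ * R0 * (R0 * (4 * c (bp A (1 - δ) θ) ^ 2)) =
        4 * R0 ^ 2 * δ * c (bp A (1 - δ) θ) ^ 2 := by ring
    rw [h11] at h10
    exact h10
  have hJ : 4 * R0 ^ 2 * δ * JJ A c (1 - δ) =
      ∫ θ in (-Real.pi)..Real.pi, 4 * R0 ^ 2 * δ * c (bp A (1 - δ) θ) ^ 2 := by
    unfold JJ
    rw [intervalIntegral.integral_const_mul]
  rw [hJ]
  by_cases hi : IntervalIntegrable (fun θ => ∫ r in ((1 - δ) * rad A θ)..(rad A θ),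
      r * c (r • ee θ) ^ 2) volume (-Real.pi) Real.pi
  · exact intervalIntegral.integral_mono_on hpi hi
      ((continuous_const.mul hgc).intervalIntegrable _ _) fun θ _ => hray θ
  · rw [intervalIntegral.integral_undef hi]
    exact intervalIntegral.integral_nonneg hpi fun θ _ => by positivity

end Pool.Agent.HAS
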