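import Pool.Agent.HAS.GeA

/-!
# Cutoff functions (module GeF)

PLAN.  Fix once and for all a smooth bump `ψ ≥ 0` on `ℂ`, supported in the unit ball, `∫ ψ = 1`
(`ContDiffBump`, normalised), `ψ_r(x) = r⁻² ψ(x/r)`, `r = δρ/4`.  `η = 1_{(1-δ/2)A} * ψ_r` (convolution).
`η` is smooth, `0 ≤ η ≤ 1`; `η(z) = 1` if `z + B_r ⊆ (1-δ/2)A`, e.g. if `gauge A z ≤ 1 - 3δ/4` (as
`B_r ⊆ (δ/4)A`), so `η = 1` in a neighbourhood of every point of `(1-δ)A`, where the derivatives vanish;
`η(z) = 0` if `gauge A z > 1 - δ/4`, so `tsupport η ⊆ (1-δ/4)A`, and `closedBall z (δρ/4) ⊆ A` for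
`z ∈ (1-δ/4) A`.  `‖∇η‖ ≤ ∫ ‖∇ψ_r‖ = K/r`, second derivatives `≤ K/r²`;
`lap (η²) = 2 η lap η + 2 ‖∇η‖²`.  The constant `K` depends only on `ψ`, so only on `ρ` after inserting `r`.
-/

set_option autoImplicit false

namespace Pool.Agent.HAS

open MeasureTheory Metric Set
open scoped Pointwise Convolution ContDiff

private noncomputable def cv (S : Set ℂ) (g : ℂ → ℝ) : ℂ → ℝ :=
  (S.indicator (fun _ => (1 : ℝ))) ⋆[ContinuousLinearMap.lsmul ℝ ℝ, volume] g

private theorem cv_eq (S : Set ℂ) (g : ℂ → ℝ) (x : ℂ) :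
    cv S g x = ∫ t, S.indicator (fun _ => (1 : ℝ)) t * g (x - t) := rfl

private theorem li {S : Set ℂ} (hS : MeasurableSet S) :
    LocallyIntegrable (S.indicator (fun _ => (1 : ℝ))) volume :=
  (locallyIntegrable_const (1 : ℝ)).indicator hS

private theorem cv_contDiff {S : Set ℂ} (hS : MeasurableSet S) {g : ℂ → ℝ} (hg : ContDiff ℝ ∞ g)
    (hc : HasCompactSupport g) : ContDiff ℝ ∞ (cv S g) :=
  hc.contDiff_convolution_right (ContinuousLinearMap.lsmul ℝ ℝ) (li hS) hg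

private theorem cv_fderiv {S : Set ℂ} (hS : MeasurableSet S) {g : ℂ → ℝ} (hg : ContDiff ℝ ∞ g)
    (hc : HasCompactSupport g) (x v : ℂ) :
    fderiv ℝ (cv S g) x v = cv S (fun a => fderiv ℝ g a v) x := by
  have h1 : ContDiff ℝ 1 g := hg.of_le (by exact_mod_cast le_top)
  have h := hc.hasFDerivAt_convolution_right (ContinuousLinearMap.lsmul ℝ ℝ) (li hS) h1 x
  have h2 : fderiv ℝ (cv S g) x = _ := h.fderiv
  rw [h2, convolution_precompR_apply (ContinuousLinearMap.lsmul ℝ ℝ) (li hS) (hc.fderiv ℝ)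
    (h1.continuous_fderiv one_ne_zero)]
  rfl

private theorem cv_bound (S : Set ℂ) {g : ℂ → ℝ} (hg : Continuous g) (hc : HasCompactSupport g)
    (x : ℂ) : |cv S g x| ≤ ∫ t, |g t| := by
  rw [cv_eq, ← Real.norm_eq_abs]
  have h0 : Integrable (fun t => |g t|) := (hg.integrable_of_hasCompactSupport hc).abs
  have h1 : Integrable (fun t => |g (x - t)|) := h0.comp_sub_left x
  have h2 : ∫ t, |g (x - t)| = ∫ t, |g t| := integral_sub_left_eq_self (fun t => |g t|) volume x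
  rw [← h2]
  apply norm_integral_le_of_norm_le h1
  refine Filter.Eventually.of_forall fun t => ?_
  rw [norm_mul, Real.norm_eq_abs (g (x - t))]
  apply mul_le_of_le_one_left (abs_nonneg _)
  by_cases ht : t ∈ S
  · rw [indicator_of_mem ht]; simp
  · rw [indicator_of_notMem ht]; simp

private theorem cv_zero (S : Set ℂ) (g : ℂ → ℝ) (x : ℂ) (h : ∀ t ∈ S, g (x - t) = 0) :
    cv S g x = 0 := by
  rw [cv_eq]
  have : (fun t => S.indicator (fun _ => (1 : ℝ)) t * g (x - t)) = fun _ => 0 := by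
    funext t
    by_cases ht : t ∈ S
    · rw [h t ht, mul_zero]
    · rw [indicator_of_notMem ht, zero_mul]
  rw [this, integral_zero]

private theorem cv_one (S : Set ℂ) (g : ℂ → ℝ) (x : ℂ) (h : ∀ t, t ∉ S → g (x - t) = 0) :
    cv S g x = ∫ t, g t := by
  rw [cv_eq]
  have : (fun t => S.indicator (fun _ => (1 : ℝ)) t * g (x - t)) = fun t => g (x - t) := by
    funext t
    by_cases ht : t ∈ S
    · rw [indicator_of_mem ht, one_mul]
    · rw [h t ht, mul_zero]
  rw [this]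
  exact integral_sub_left_eq_self g volume x

private theorem dv_contDiff {g : ℂ → ℝ} (hg : ContDiff ℝ ∞ g) (v : ℂ) :
    ContDiff ℝ ∞ (fun a => fderiv ℝ g a v) :=
  (hg.fderiv_right (m := ∞) (by norm_num)).clm_apply contDiff_const

private theorem dv_supp {g : ℂ → ℝ} (hc : HasCompactSupport g) (v : ℂ) :
    HasCompactSupport (fun a => fderiv ℝ g a v) :=
  hc.fderiv_apply ℝ v

private theorem E_cd {S : Set ℂ} (hS : MeasurableSet S) {g : ℂ → ℝ} (hg : ContDiff ℝ ∞ g)
    (hc : HasCompactSupport g) (s : ℝ) : ContDiff ℝ ∞ (fun z => cv S g (s • z)) :=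
  (cv_contDiff hS hg hc).comp (contDiff_const_smul s)

private theorem E_fd {S : Set ℂ} (hS : MeasurableSet S) {g : ℂ → ℝ} (hg : ContDiff ℝ ∞ g)
    (hc : HasCompactSupport g) (s : ℝ) (z v : ℂ) :
    fderiv ℝ (fun z => cv S g (s • z)) z v = s * cv S (fun a => fderiv ℝ g a v) (s • z) := by
  have h1 : HasFDerivAt (cv S g) (fderiv ℝ (cv S g) (s • z)) (s • z) :=
    (((cv_contDiff hS hg hc).differentiable (by simp)) (s • z)).hasFDerivAt
  have h2 : HasFDerivAt (fun z : ℂ => s • z) (s • ContinuousLinearMap.id ℝ ℂ) z :=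
    (hasFDerivAt_id z).const_smul s
  have h3 := h1.comp z h2
  have h4 : fderiv ℝ (fun z => cv S g (s • z)) z = _ := h3.fderiv
  rw [h4, ContinuousLinearMap.comp_apply]
  have h5 : (s • ContinuousLinearMap.id ℝ ℂ) v = s • v := rfl
  rw [h5, map_smul, cv_fderiv hS hg hc, smul_eq_mul]

private theorem sq_dir {S : Set ℂ} (hS : MeasurableSet S) {g : ℂ → ℝ} (hg : ContDiff ℝ ∞ g)
    (hc : HasCompactSupport g) (s : ℝ) (z v : ℂ) :
    fderiv ℝ (fun y => fderiv ℝ (fun x => cv S g (s • x) ^ 2) y v) z v =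
      2 * (s * cv S (fun a => fderiv ℝ g a v) (s • z)) ^ 2 +
      2 * cv S g (s • z) * (s * (s * cv S (fun b => fderiv ℝ (fun a => fderiv ℝ g a v) b v) (s • z))) := by
  have hd : Differentiable ℝ (fun z => cv S g (s • z)) :=
    (E_cd hS hg hc s).differentiable (by simp)
  have hd2 : Differentiable ℝ (fun z => cv S (fun a => fderiv ℝ g a v) (s • z)) :=
    (E_cd hS (dv_contDiff hg v) (dv_supp hc v) s).differentiable (by simp)
  have h1 : (fun y => fderiv ℝ (fun x => cv S g (s • x) ^ 2) y v) =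
      fun y => 2 * cv S g (s • y) * (s * cv S (fun a => fderiv ℝ g a v) (s • y)) := by
    funext y
    have h := ((hd y).hasFDerivAt.pow 2).fderiv
    rw [h]
    have e := E_fd hS hg hc s y v
    simp only [ContinuousLinearMap.smul_apply, smul_eq_mul]
    rw [e]
    simp
  rw [h1]
  have h2 := ((((hd z).hasFDerivAt.const_mul 2).mul ((hd2 z).hasFDerivAt.const_mul s))).fderiv
  have h3 : fderiv ℝ (fun y => 2 * cv S g (s • y) * (s * cv S (fun a => fderiv ℝ g a v) (s • y))) z =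
    _ := h2
  rw [h3]
  have e1 := E_fd hS hg hc s z v
  have e2 := E_fd hS (dv_contDiff hg v) (dv_supp hc v) s z v
  simp only [ContinuousLinearMap.add_apply, ContinuousLinearMap.smul_apply, smul_eq_mul]
  rw [e1, e2]
  ring

theorem cutoff (ρ R0 : ℝ) (hρ : 0 < ρ) : ∃ K : ℝ, 0 < K ∧ ∀ (A : Set ℂ), Geo A ρ R0 → ∀ δ : ℝ,
    0 < δ → δ ≤ 1 / 2 → ∃ η : ℂ → ℝ, ContDiff ℝ 2 η ∧ (∀ z, |η z| ≤ 1) ∧ HasCompactSupport η ∧
      tsupport η ⊆ interior A ∧ (∀ z ∈ tsupport η, closedBall z (δ * ρ / 4) ⊆ A) ∧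
      (∀ z ∈ (1 - δ) • A, η z = 1) ∧
      (∀ z ∈ (1 - δ) • A, gradient η z = 0 ∧ lap (fun y => η y ^ 2) z = 0) ∧
      (∀ z, ‖gradient η z‖ ≤ K / δ) ∧ ∀ z, |lap (fun y => η y ^ 2) z| ≤ K / δ ^ 2 := by
  let bmp : ContDiffBump (0 : ℂ) := ⟨1 / 2, 1, by norm_num, by norm_num⟩
  set ψ : ℂ → ℝ := bmp.normed volume with hψ
  have hψs : ContDiff ℝ ∞ ψ := bmp.contDiff_normed
  have hψc : HasCompactSupport ψ := bmp.hasCompactSupport_normed
  have hψ0 : ∀ x, 0 ≤ ψ x := bmp.nonneg_normed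
  have hψ1 : ∫ x, ψ x = 1 := bmp.integral_normed
  have hψz : ∀ x : ℂ, 1 ≤ ‖x‖ → ψ x = 0 := by
    intro x hx
    by_contra h
    have h1 : x ∈ Function.support ψ := h
    rw [hψ, bmp.support_normed_eq, mem_ball_zero_iff] at h1
    exact absurd h1 (not_lt.2 hx)
  set c1 : ℝ := ∫ t, |fderiv ℝ ψ t 1| with hc1
  set c2 : ℝ := ∫ t, |fderiv ℝ ψ t Complex.I| with hc2
  set c11 : ℝ := ∫ t, |fderiv ℝ (fun a => fderiv ℝ ψ a 1) t 1| with hc11
  set c22 : ℝ := ∫ t, |fderiv ℝ (fun a => fderiv ℝ ψ a Complex.I) t Complex.I| with hc22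
  have p1 : 0 ≤ c1 := integral_nonneg fun _ => abs_nonneg _
  have p2 : 0 ≤ c2 := integral_nonneg fun _ => abs_nonneg _
  have p11 : 0 ≤ c11 := integral_nonneg fun _ => abs_nonneg _
  have p22 : 0 ≤ c22 := integral_nonneg fun _ => abs_nonneg _
  refine ⟨4 * (c1 + c2) / ρ + 32 / ρ ^ 2 * (c1 ^ 2 + c11 + c2 ^ 2 + c22) + 1, by positivity, ?_⟩
  intro A hA δ hδ0 hδ1
  set r : ℝ := δ * ρ / 4 with hr
  have hr0 : 0 < r := by positivity
  set S : Set ℂ := {w | r • w ∈ (1 - δ / 2) • A} with hS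
  have hg : ∀ x y : ℂ, gauge A x ≤ gauge A y + ‖x - y‖ / ρ := by
    intro x y
    have h1 : ball (0 : ℂ) ((⟨ρ, hρ.le⟩ : NNReal) : ℝ) ⊆ A := ball_subset_closedBall.trans hA.inner
    have h2 := (hA.conv.lipschitzWith_gauge (r := ⟨ρ, hρ.le⟩) (by exact hρ) h1).dist_le_mul x y
    rw [Real.dist_eq, dist_eq_norm] at h2
    have h3 : (((⟨ρ, hρ.le⟩ : NNReal)⁻¹ : NNReal) : ℝ) = ρ⁻¹ := by
      rw [NNReal.coe_inv]
      rfl
    rw [h3] at h2
    have h4 := (abs_le.1 h2).2
    rw [div_eq_inv_mul]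
    linarith
  have hmem : ∀ lam : ℝ, 0 < lam → ∀ z, z ∈ lam • A ↔ gauge A z ≤ lam :=
    fun lam hl z => mem_smul_iff hA lam hl z
  have hclosed : ∀ lam : ℝ, 0 < lam → IsClosed (lam • A) := by
    intro lam hl
    exact (hA.cpt.smul lam).isClosed
  have hSm : MeasurableSet S := by
    have h1 : IsClosed S := (hclosed (1 - δ / 2) (by linarith)).preimage (continuous_const_smul r)
    exact h1.measurableSet
  set η : ℂ → ℝ := fun z => cv S ψ (r⁻¹ • z) with hη
  have hcd : ContDiff ℝ ∞ η := E_cd hSm hψs hψc r⁻¹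
  have habs : ∀ z, |η z| ≤ 1 := by
    intro z
    have h1 := cv_bound S hψs.continuous hψc (r⁻¹ • z)
    have h2 : ∫ t, |ψ t| = 1 := by
      rw [← hψ1]
      congr 1
      funext t
      exact abs_of_nonneg (hψ0 t)
    rw [h2] at h1
    exact h1
  have hdist : ∀ z t : ℂ, ‖r⁻¹ • z - t‖ < 1 → ‖z - r • t‖ < r := by
    intro z t h
    have e : z - r • t = r • (r⁻¹ • z - t) := by
      rw [smul_sub, smul_smul, mul_inv_cancel₀ hr0.ne', one_smul]
    rw [e, norm_smul, Real.norm_of_nonneg hr0.le]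
    calc r * ‖r⁻¹ • z - t‖ < r * 1 := mul_lt_mul_of_pos_left h hr0
      _ = r := mul_one r
  have hrρ : r / ρ = δ / 4 := by
    rw [hr]
    field_simp
  have hdiv : ∀ w : ℂ, ‖w‖ < r → ‖w‖ / ρ ≤ δ / 4 := by
    intro w hw
    rw [← hrρ]
    exact div_le_div_of_nonneg_right hw.le hρ.le
  have hone : ∀ z, gauge A z ≤ 1 - 3 * δ / 4 → η z = 1 := by
    intro z hz
    have h1 : η z = ∫ t, ψ t := by
      apply cv_one
      intro t ht
      apply hψz
      by_contra hlt
      push Not at hlt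
      apply ht
      show r • t ∈ (1 - δ / 2) • A
      rw [hmem _ (by linarith)]
      have h2 := hg (r • t) z
      have h3 := hdiv _ (hdist z t hlt)
      rw [norm_sub_rev] at h3
      linarith
    rw [h1, hψ1]
  have hzero : ∀ z, 1 - δ / 4 < gauge A z → η z = 0 := by
    intro z hz
    apply cv_zero
    intro t ht
    apply hψz
    by_contra hlt
    push Not at hlt
    have ht' : r • t ∈ (1 - δ / 2) • A := ht
    rw [hmem _ (by linarith)] at ht'
    have h2 := hg z (r • t)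
    have h3 := hdiv _ (hdist z t hlt)
    linarith
  have hts : tsupport η ⊆ (1 - δ / 4) • A := by
    apply closure_minimal _ (hclosed _ (by linarith))
    intro z hz
    rw [hmem _ (by linarith)]
    by_contra h
    push Not at h
    exact hz (hzero z h)
  have hAint : ∀ z, gauge A z < 1 → z ∈ interior A := by
    intro z hz
    have h0 : A ∈ nhds (0 : ℂ) := Filter.mem_of_superset (closedBall_mem_nhds _ hρ) hA.inner
    have h1 := setOfPred_gauge_lt_one_eq_interior hA.conv h0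
    rw [← h1]
    exact hz
  have hinA : ∀ z, gauge A z ≤ 1 → z ∈ A := by
    intro z hz
    have := (hmem 1 one_pos z).2 hz
    rwa [one_smul] at this
  have hnb : ∀ z ∈ (1 - δ) • A, ∀ᶠ y in nhds z, η y = 1 := by
    intro z hz
    rw [hmem _ (by linarith)] at hz
    filter_upwards [ball_mem_nhds z hr0] with y hy
    apply hone
    rw [mem_ball, dist_eq_norm] at hy
    have h1 := hg y z
    have h2 := hdiv _ hy
    linarith
  refine ⟨η, hcd.of_le (by norm_cast), habs, ?_, ?_, ?_, ?_, ?_, ?_, ?_⟩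
  · exact HasCompactSupport.of_support_subset_isCompact (hA.cpt.smul (1 - δ / 4))
      (subset_closure.trans hts)
  · intro z hz
    have h1 := hts hz
    rw [hmem _ (by linarith)] at h1
    apply hAint
    linarith
  · intro z hz y hy
    have h1 := hts hz
    rw [hmem _ (by linarith)] at h1
    apply hinA
    rw [mem_closedBall, dist_eq_norm] at hy
    have h2 := hg y z
    have h3 : ‖y - z‖ / ρ ≤ δ / 4 := by
      rw [← hrρ]
      exact div_le_div_of_nonneg_right hy hρ.le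
    linarith
  · intro z hz
    exact (hnb z hz).self_of_nhds
  · intro z hz
    have h1 : η =ᶠ[nhds z] fun _ => (1 : ℝ) := hnb z hz
    constructor
    · unfold gradient
      rw [h1.fderiv_eq]
      simp
    · have h2 : (fun y => η y ^ 2) =ᶠ[nhds z] fun _ => (1 : ℝ) := by
        filter_upwards [h1] with y hy
        rw [hy]
        norm_num
      have h3 : ∀ v : ℂ, (fun y => fderiv ℝ (fun y => η y ^ 2) y v) =ᶠ[nhds z] fun _ => (0 : ℝ) := by
        intro v
        filter_upwards [h2.fderiv (𝕜 := ℝ)] with y hy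
        rw [hy]
        simp
      unfold lap
      rw [(h3 1).fderiv_eq, (h3 Complex.I).fderiv_eq]
      simp
  · intro z
    have h1 : ‖gradient η z‖ = ‖fderiv ℝ η z‖ := by
      unfold gradient
      exact LinearIsometryEquiv.norm_map _ _
    rw [h1]
    have hb1 : |fderiv ℝ η z 1| ≤ r⁻¹ * c1 := by
      rw [E_fd hSm hψs hψc r⁻¹ z 1, abs_mul, abs_of_pos (inv_pos.2 hr0)]
      exact mul_le_mul_of_nonneg_left
        (cv_bound S (dv_contDiff hψs 1).continuous (dv_supp hψc 1) _) (inv_pos.2 hr0).le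
    have hb2 : |fderiv ℝ η z Complex.I| ≤ r⁻¹ * c2 := by
      rw [E_fd hSm hψs hψc r⁻¹ z Complex.I, abs_mul, abs_of_pos (inv_pos.2 hr0)]
      exact mul_le_mul_of_nonneg_left
        (cv_bound S (dv_contDiff hψs Complex.I).continuous (dv_supp hψc Complex.I) _)
        (inv_pos.2 hr0).le
    have hb : ‖fderiv ℝ η z‖ ≤ r⁻¹ * (c1 + c2) := by
      apply ContinuousLinearMap.opNorm_le_bound _ (by positivity)
      intro v
      have ev : v = v.re • (1 : ℂ) + v.im • Complex.I := by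
        apply Complex.ext <;> simp
      have e1 : fderiv ℝ η z v = v.re * fderiv ℝ η z 1 + v.im * fderiv ℝ η z Complex.I := by
        conv_lhs => rw [ev]
        rw [map_add, map_smul, map_smul, smul_eq_mul, smul_eq_mul]
      rw [e1, Real.norm_eq_abs]
      calc |v.re * fderiv ℝ η z 1 + v.im * fderiv ℝ η z Complex.I|
          ≤ |v.re| * |fderiv ℝ η z 1| + |v.im| * |fderiv ℝ η z Complex.I| := by
            rw [← abs_mul, ← abs_mul]
            exact abs_add_le _ _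
        _ ≤ ‖v‖ * (r⁻¹ * c1) + ‖v‖ * (r⁻¹ * c2) := by
            apply add_le_add
            · exact mul_le_mul (Complex.abs_re_le_norm v) hb1 (abs_nonneg _) (norm_nonneg _)
            · exact mul_le_mul (Complex.abs_im_le_norm v) hb2 (abs_nonneg _) (norm_nonneg _)
        _ = r⁻¹ * (c1 + c2) * ‖v‖ := by ring
    have hfin : r⁻¹ * (c1 + c2) = 4 * (c1 + c2) / ρ / δ := by
      rw [hr]
      field_simp
    rw [hfin] at hb
    refine hb.trans (div_le_div_of_nonneg_right ?_ hδ0.le)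
    have : 0 ≤ 32 / ρ ^ 2 * (c1 ^ 2 + c11 + c2 ^ 2 + c22) := by positivity
    linarith
  · intro z
    unfold lap
    have e1 := sq_dir hSm hψs hψc r⁻¹ z 1
    have e2 := sq_dir hSm hψs hψc r⁻¹ z Complex.I
    have b1 := cv_bound S (dv_contDiff hψs 1).continuous (dv_supp hψc 1) (r⁻¹ • z)
    have b2 := cv_bound S (dv_contDiff hψs Complex.I).continuous (dv_supp hψc Complex.I) (r⁻¹ • z)
    have b11 := cv_bound S (dv_contDiff (dv_contDiff hψs 1) 1).continuous
      (dv_supp (dv_supp hψc 1) 1) (r⁻¹ • z)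
    have b22 := cv_bound S (dv_contDiff (dv_contDiff hψs Complex.I) Complex.I).continuous
      (dv_supp (dv_supp hψc Complex.I) Complex.I) (r⁻¹ • z)
    have hgen : ∀ a b e A1 B1 : ℝ, |a| ≤ A1 → |b| ≤ B1 → |e| ≤ 1 → 0 ≤ B1 →
        |2 * (r⁻¹ * a) ^ 2 + 2 * e * (r⁻¹ * (r⁻¹ * b))| ≤ 2 * (r⁻¹) ^ 2 * (A1 ^ 2 + B1) := by
      intro a b e A1 B1 ha hb he hB1
      have h1 : a ^ 2 ≤ A1 ^ 2 := by
        rw [← sq_abs a]
        exact pow_le_pow_left₀ (abs_nonneg _) ha 2
      have h2 : |e * b| ≤ B1 := by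
        rw [abs_mul]
        calc |e| * |b| ≤ 1 * B1 := mul_le_mul he hb (abs_nonneg _) zero_le_one
          _ = B1 := one_mul _
      have h3 : 2 * (r⁻¹ * a) ^ 2 + 2 * e * (r⁻¹ * (r⁻¹ * b)) = 2 * (r⁻¹) ^ 2 * (a ^ 2 + e * b) := by
        ring
      rw [h3, abs_mul, abs_of_nonneg (by positivity : (0 : ℝ) ≤ 2 * (r⁻¹) ^ 2)]
      apply mul_le_mul_of_nonneg_left _ (by positivity)
      calc |a ^ 2 + e * b| ≤ |a ^ 2| + |e * b| := abs_add_le _ _
        _ ≤ A1 ^ 2 + B1 := by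
            rw [abs_of_nonneg (sq_nonneg a)]
            exact add_le_add h1 h2
    have g1 := hgen _ _ (cv S ψ (r⁻¹ • z)) c1 c11 b1 b11 (habs z) p11
    have g2 := hgen _ _ (cv S ψ (r⁻¹ • z)) c2 c22 b2 b22 (habs z) p22
    rw [← e1] at g1
    rw [← e2] at g2
    have hfin : 2 * (r⁻¹) ^ 2 * (c1 ^ 2 + c11) + 2 * (r⁻¹) ^ 2 * (c2 ^ 2 + c22) =
        32 / ρ ^ 2 * (c1 ^ 2 + c11 + c2 ^ 2 + c22) / δ ^ 2 := by
      rw [hr]
      field_simp
      ring
    calc _ ≤ 2 * (r⁻¹) ^ 2 * (c1 ^ 2 + c11) + 2 * (r⁻¹) ^ 2 * (c2 ^ 2 + c22) :=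
          (abs_add_le _ _).trans (add_le_add g1 g2)
      _ = 32 / ρ ^ 2 * (c1 ^ 2 + c11 + c2 ^ 2 + c22) / δ ^ 2 := hfin
      _ ≤ _ := by
          apply div_le_div_of_nonneg_right _ (by positivity)
          have : 0 ≤ 4 * (c1 + c2) / ρ := by positivity
          linarith

end Pool.Agent.HAS
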