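import Pool.Agent.HAS.PlDefs

/-!
# Inradius (module InR)

PLAN.  `A ⊆ closedBall 0 R` compact convex with area `≥ a > 0`.  `cross(u,v) = u.re v.im - u.im v.re`.  Choose
`p, q, s ∈ A` maximising `D = |cross(q-p, s-p)|` (compactness).  For `x ∈ A`: `|cross(q-x, s-x)| ≤ D` and
`|cross(s-x,p-x)| ≤ D`.  If `D = 0`, `A` lies in a line (area zero; contradiction: all triples are collinear) —
in any case `x ↦ (cross(q-x,s-x), cross(s-x,p-x))` is affine with linear part of determinant `± D`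
(linear part `v ↦ (cross(v, q-s)…)`), it maps `A` into `[-D,D]²`, so `D · ar A ≤ 4 D²`; if `D > 0`: `ar A ≤ 4D`.
For `D = 0` show `ar A = 0` directly.  Centroid `z0 = (p+q+s)/3`; the barycentric coordinates of `z0 + v` are
`1/3 + cross(v, ·)/D` with `|cross(v, side)| ≤ ‖v‖ 2R`, so they are `≥ 0` for `‖v‖ ≤ D/(6R)`, and then
`z0 + v ∈ convexHull {p,q,s} ⊆ A`.  Take `ρ = a/(24R)` (note `R > 0`).
-/

set_option autoImplicit false

namespace Pool.Agent.HAS

open MeasureTheory Metric Set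

private def crs (u v : ℂ) : ℝ := u.re * v.im - u.im * v.re

private theorem inr_rect (d h : ℝ) :
    volume {z : ℂ | |z.re| ≤ d ∧ |z.im| ≤ h} = ENNReal.ofReal (2 * d) * ENNReal.ofReal (2 * h) := by
  have h1 : {z : ℂ | |z.re| ≤ d ∧ |z.im| ≤ h} =
      Complex.measurableEquivRealProd ⁻¹' (Icc (-d) d ×ˢ Icc (-h) h) := by
    ext z
    simp only [mem_setOf_eq, mem_preimage, mem_prod, mem_Icc, abs_le,
      Complex.measurableEquivRealProd_apply]
  rw [h1, Complex.volume_preserving_equiv_real_prod.measure_preimage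
    ((measurableSet_Icc.prod measurableSet_Icc).nullMeasurableSet), Measure.volume_eq_prod,
    Measure.prod_prod, Real.volume_Icc, Real.volume_Icc]
  congr 2 <;> ring

private theorem inr_area (A : Set ℂ) (p w : ℂ) (hw : w ≠ 0) (D : ℝ) (hD : 0 ≤ D)
    (h1 : ∀ x ∈ A, ‖x - p‖ ≤ ‖w‖) (h2 : ∀ x ∈ A, |crs w (x - p)| ≤ D) :
    ar A ≤ 4 * D := by
  have hd : 0 < ‖w‖ := norm_pos_iff.2 hw
  have hu : ‖(starRingEnd ℂ w) / (‖w‖ : ℂ)‖ = 1 := by
    rw [norm_div, Complex.norm_real, norm_norm, RCLike.norm_conj, div_self hd.ne']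
  obtain ⟨c, hc⟩ : ∃ c : Circle, (c : ℂ) = (starRingEnd ℂ w) / (‖w‖ : ℂ) :=
    ⟨⟨_, mem_sphere_zero_iff_norm.2 hu⟩, rfl⟩
  have hsub : A ⊆ (fun x => x - p) ⁻¹' ((rotation c) ⁻¹'
      {z : ℂ | |z.re| ≤ ‖w‖ ∧ |z.im| ≤ D / ‖w‖}) := by
    intro x hx
    simp only [mem_preimage, mem_setOf_eq, rotation_apply, hc]
    constructor
    · refine (Complex.abs_re_le_norm _).trans ?_
      rw [norm_mul, hu, one_mul]
      exact h1 x hx
    · have h3 : ((starRingEnd ℂ w) / (‖w‖ : ℂ) * (x - p)).im = crs w (x - p) / ‖w‖ := by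
        rw [div_mul_eq_mul_div, Complex.div_ofReal_im, Complex.mul_im, Complex.conj_re,
          Complex.conj_im]
        unfold crs
        ring
      rw [h3, abs_div, abs_of_pos hd]
      exact div_le_div_of_nonneg_right (h2 x hx) hd.le
  have hvol : volume A ≤ ENNReal.ofReal (2 * ‖w‖) * ENNReal.ofReal (2 * (D / ‖w‖)) := by
    refine (measure_mono hsub).trans (le_of_eq ?_)
    have hm : MeasurableSet {z : ℂ | |z.re| ≤ ‖w‖ ∧ |z.im| ≤ D / ‖w‖} := by
      refine MeasurableSet.inter ?_ ?_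
      · exact measurableSet_le (Complex.measurable_re.abs) measurable_const
      · exact measurableSet_le (Complex.measurable_im.abs) measurable_const
    have hm2 : MeasurableSet ((rotation c) ⁻¹' {z : ℂ | |z.re| ≤ ‖w‖ ∧ |z.im| ≤ D / ‖w‖}) :=
      (rotation c).continuous.measurable hm
    rw [(measurePreserving_sub_right volume p).measure_preimage hm2.nullMeasurableSet,
      (rotation c).measurePreserving.measure_preimage hm.nullMeasurableSet, inr_rect]
  unfold ar
  have h4 : (ENNReal.ofReal (2 * ‖w‖) * ENNReal.ofReal (2 * (D / ‖w‖))).toReal = 4 * D := by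
    rw [ENNReal.toReal_mul, ENNReal.toReal_ofReal (by positivity),
      ENNReal.toReal_ofReal (by positivity)]
    field_simp
    ring
  rw [← h4]
  exact ENNReal.toReal_mono (ENNReal.mul_ne_top ENNReal.ofReal_ne_top ENNReal.ofReal_ne_top) hvol

private theorem inr_three (A : Set ℂ) (hA : Convex ℝ A) (p q s : ℂ) (hp : p ∈ A) (hq : q ∈ A)
    (hs : s ∈ A) (α β γ : ℝ) (h1 : 0 ≤ α) (h2 : 0 ≤ β) (h3 : 0 ≤ γ) (h : α + β + γ = 1) :
    α • p + β • q + γ • s ∈ A := by
  have h4 := hA.sum_mem (t := Finset.univ) (w := ![α, β, γ]) (z := ![p, q, s])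
    (by intro i _; fin_cases i <;> simpa) (by simpa [Fin.sum_univ_three] using h)
    (by intro i _; fin_cases i <;> simpa)
  simpa [Fin.sum_univ_three] using h4

theorem inradius (R a : ℝ) (ha : 0 < a) : ∃ ρ : ℝ, 0 < ρ ∧ ∀ A : Set ℂ, IsCompact A → Convex ℝ A →
    A ⊆ closedBall 0 R → a ≤ ar A → ∃ z0 ∈ A, closedBall z0 ρ ⊆ A := by
  have hR1 : 0 < |R| + 1 := by positivity
  refine ⟨a / (48 * (|R| + 1)), by positivity, fun A hAc hA hAR haA => ?_⟩
  have hne : A.Nonempty := by
    rw [nonempty_iff_ne_empty]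
    rintro rfl
    unfold ar at haA
    rw [measure_empty, ENNReal.toReal_zero] at haA
    linarith
  -- a diameter
  obtain ⟨⟨p, q⟩, hpq, hmax⟩ := (hAc.prod hAc).exists_isMaxOn (hne.prod hne)
    (f := fun y : ℂ × ℂ => ‖y.2 - y.1‖) (by fun_prop)
  have hp : p ∈ A := hpq.1
  have hq : q ∈ A := hpq.2
  have hdiam : ∀ x ∈ A, ‖x - p‖ ≤ ‖q - p‖ := fun x hx =>
    isMaxOn_iff.1 hmax (p, x) ⟨hp, hx⟩
  have hw : q - p ≠ 0 := by
    intro h0
    have hsub : A ⊆ {p} := by
      intro x hx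
      have h1 := hdiam x hx
      rw [h0, norm_zero] at h1
      have h2 : x - p = 0 := norm_le_zero_iff.1 h1
      exact mem_singleton_iff.2 (sub_eq_zero.1 h2)
    unfold ar at haA
    have h1 : volume A = 0 := measure_mono_null hsub (by simp)
    rw [h1, ENNReal.toReal_zero] at haA
    linarith
  -- the highest point over it
  obtain ⟨s, hs, hsmax⟩ := hAc.exists_isMaxOn hne (f := fun x : ℂ => |crs (q - p) (x - p)|) (by
    unfold crs
    fun_prop)
  obtain ⟨D, hD⟩ : ∃ D, D = |crs (q - p) (s - p)| := ⟨_, rfl⟩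
  have h4D : a ≤ 4 * D := haA.trans (inr_area A p (q - p) hw D (by rw [hD]; positivity) hdiam
    (fun x hx => by rw [hD]; exact isMaxOn_iff.1 hsmax x hx))
  have hD0 : 0 < D := by linarith
  obtain ⟨E, hE⟩ : ∃ E, E = crs (q - p) (s - p) := ⟨_, rfl⟩
  have hED : |E| = D := by rw [hE, hD]
  have hE0 : E ≠ 0 := by
    intro h0
    rw [h0, abs_zero] at hED
    linarith
  have hcrs : ∀ u v : ℂ, |crs u v| ≤ ‖u‖ * ‖v‖ := by
    intro u v
    have h1 : crs u v = ((starRingEnd ℂ u) * v).im := by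
      rw [Complex.mul_im, Complex.conj_re, Complex.conj_im]
      unfold crs
      ring
    rw [h1]
    refine (Complex.abs_im_le_norm _).trans (le_of_eq ?_)
    rw [norm_mul, RCLike.norm_conj]
  have hdist : ∀ x ∈ A, ‖x - p‖ ≤ 2 * (|R| + 1) := by
    intro x hx
    have h1 := mem_closedBall_zero_iff.1 (hAR hx)
    have h2 := mem_closedBall_zero_iff.1 (hAR hp)
    have h3 := norm_sub_le x p
    have h4 := le_abs_self R
    linarith
  have key : ∀ v : ℂ, ‖v‖ ≤ a / (48 * (|R| + 1)) → (1 / 3 : ℝ) • (p + q + s) + v ∈ A := by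
    intro v hv
    obtain ⟨β, hβ⟩ : ∃ β, β = crs v (s - p) / E := ⟨_, rfl⟩
    obtain ⟨γ, hγ⟩ : ∃ γ, γ = crs (q - p) v / E := ⟨_, rfl⟩
    have hv2 : ‖v‖ * (2 * (|R| + 1)) ≤ D / 6 := by
      rw [le_div_iff₀ (by positivity)] at hv
      linarith
    have hβ1 : |β| ≤ 1 / 6 := by
      rw [hβ, abs_div, hED, div_le_iff₀ hD0]
      refine (hcrs _ _).trans ((mul_le_mul_of_nonneg_left (hdist s hs) (norm_nonneg v)).trans ?_)
      linarith
    have hγ1 : |γ| ≤ 1 / 6 := by
      rw [hγ, abs_div, hED, div_le_iff₀ hD0]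
      refine (hcrs _ _).trans ((mul_le_mul_of_nonneg_right (hdist q hq) (norm_nonneg v)).trans ?_)
      linarith
    have hβ2 := abs_le.1 hβ1
    have hγ2 := abs_le.1 hγ1
    have hmem := inr_three A hA p q s hp hq hs (1 / 3 - β - γ) (1 / 3 + β) (1 / 3 + γ)
      (by linarith) (by linarith) (by linarith) (by ring)
    have hv3 : v = β • (q - p) + γ • (s - p) := by
      have e1 : E = (q - p).re * (s - p).im - (q - p).im * (s - p).re := hE
      apply Complex.ext
      · rw [Complex.add_re, Complex.real_smul, Complex.real_smul, Complex.re_ofReal_mul,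
          Complex.re_ofReal_mul, hβ, hγ]
        unfold crs
        field_simp
        rw [e1]
        ring
      · rw [Complex.add_im, Complex.real_smul, Complex.real_smul, Complex.im_ofReal_mul,
          Complex.im_ofReal_mul, hβ, hγ]
        unfold crs
        field_simp
        rw [e1]
        ring
    have heq : (1 / 3 : ℝ) • (p + q + s) + v =
        (1 / 3 - β - γ) • p + (1 / 3 + β) • q + (1 / 3 + γ) • s := by
      rw [hv3]
      module
    rw [heq]
    exact hmem
  refine ⟨(1 / 3 : ℝ) • (p + q + s), ?_, fun x hx => ?_⟩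
  · have := key 0 (by rw [norm_zero]; positivity)
    rwa [add_zero] at this
  · have := key (x - (1 / 3 : ℝ) • (p + q + s)) (mem_closedBall_iff_norm.1 hx)
    rwa [add_sub_cancel] at this

end Pool.Agent.HAS
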