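import Pool.Agent.HAS.OneC

/-!
# The one dimensional inequality for finitely many nodes (module PlD)

`r 0 > r 1 > … > r k > 0`, concave sequence.  CLAIM
`kap (∑_{i<k} (iΔ)² (r_i² - r_{i+1}²) + (kΔ)² r_k²) ≤ r_0² Δ² ∑_{i<k} (r_i + r_{i+1})/(r_i - r_{i+1})`.

PLAN.  `ρ_i = r_i / r_0`, `σ_i = Δ/(ρ_i - ρ_{i+1})`, decreasing in `i` by `hc`.  Step function:
`s(x) = 0` for `x < ρ_k`, `s(x) = σ_i` for `ρ_{i+1} ≤ x < ρ_i` (`i < k`), `s(x) = σ_0` for `x ≥ 1` (say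
`s(x) = ∑_{i<k} (σ_i - σ_{i+1}) 1_{x ≥ ρ_{i+1}}` with `σ_k := 0`, a sum of monotone functions).
`g(x) = ∫_x^1 s` satisfies `g(ρ_i) = iΔ`, so `g ≥ iΔ` on `[0, ρ_i]` (g is antitone), in particular
`g ≥ iΔ` on `[ρ_{i+1}, ρ_i]` and `g ≥ kΔ` on `[0,ρ_k]`.
`∫_0^1 s² x dx = ∑ σ_i² (ρ_i² - ρ_{i+1}²)/2 = (Δ²/2) ∑ (ρ_i+ρ_{i+1})/(ρ_i-ρ_{i+1})`, and
`∫_0^1 g² x dx ≥ ∑ (iΔ)² (ρ_i² - ρ_{i+1}²)/2 + (kΔ)² ρ_k²/2`.  Apply `oned`, multiply by `2 r_0²`.
(`k = 0`: both sides: left `0`, right `0`.)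
-/

set_option autoImplicit false

namespace Pool.Agent.HAS

open MeasureTheory Finset

private theorem congrIoo {a b : ℝ} (hab : a ≤ b) {f g : ℝ → ℝ} (h : ∀ x, a < x → x < b → f x = g x) :
    ∫ x in a..b, f x = ∫ x in a..b, g x := by
  rw [intervalIntegral.integral_of_le hab, intervalIntegral.integral_of_le hab,
    integral_Ioc_eq_integral_Ioo, integral_Ioc_eq_integral_Ioo]
  exact setIntegral_congr_fun measurableSet_Ioo fun x hx => h x hx.1 hx.2

/-- the step function -/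
private noncomputable def stp (k : ℕ) (τ ρ : ℕ → ℝ) (x : ℝ) : ℝ :=
  ∑ j ∈ range k, (τ j - τ (j + 1)) * (if ρ (j + 1) ≤ x then 1 else 0)

private theorem stp_mono (k : ℕ) (τ ρ : ℕ → ℝ) (hτ : ∀ j < k, τ (j + 1) ≤ τ j) :
    Monotone (stp k τ ρ) := by
  intro x y hxy
  unfold stp
  refine Finset.sum_le_sum fun j hj => ?_
  have h1 := hτ j (Finset.mem_range.1 hj)
  refine mul_le_mul_of_nonneg_left ?_ (by linarith)
  by_cases h : ρ (j + 1) ≤ x
  · rw [if_pos h, if_pos (h.trans hxy)]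
  · rw [if_neg h]
    split_ifs <;> norm_num

private theorem stp_nonneg (k : ℕ) (τ ρ : ℕ → ℝ) (hτ : ∀ j < k, τ (j + 1) ≤ τ j) (x : ℝ) :
    0 ≤ stp k τ ρ x := by
  unfold stp
  refine Finset.sum_nonneg fun j hj => ?_
  have h1 := hτ j (Finset.mem_range.1 hj)
  refine mul_nonneg (by linarith) ?_
  split_ifs <;> norm_num

private theorem rho_le {k : ℕ} {ρ : ℕ → ℝ} (hd : ∀ i < k, ρ (i + 1) < ρ i) {i j : ℕ} (hij : i ≤ j)
    (hj : j ≤ k) : ρ j ≤ ρ i := by
  induction j, hij using Nat.le_induction with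
  | base => exact le_refl _
  | succ n hn ih => exact (hd n (by omega)).le.trans (ih (by omega))

private theorem stp_zero (k : ℕ) (τ ρ : ℕ → ℝ) (hd : ∀ i < k, ρ (i + 1) < ρ i) {x : ℝ}
    (hx : x < ρ k) : stp k τ ρ x = 0 := by
  unfold stp
  refine Finset.sum_eq_zero fun j hj => ?_
  have hj' := Finset.mem_range.1 hj
  have h1 : ρ k ≤ ρ (j + 1) := rho_le hd (by omega) (le_refl k)
  rw [if_neg (by linarith), mul_zero]

private theorem stp_eq (k : ℕ) (τ ρ : ℕ → ℝ) (hd : ∀ i < k, ρ (i + 1) < ρ i) (hk : τ k = 0) {i : ℕ}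
    (hi : i < k) {x : ℝ} (h1 : ρ (i + 1) < x) (h2 : x < ρ i) : stp k τ ρ x = τ i := by
  unfold stp
  have h3 : ∑ j ∈ Finset.Ico i k, (τ j - τ (j + 1)) * (if ρ (j + 1) ≤ x then (1 : ℝ) else 0) =
      ∑ j ∈ range k, (τ j - τ (j + 1)) * (if ρ (j + 1) ≤ x then (1 : ℝ) else 0) := by
    refine Finset.sum_subset (fun j hj => ?_) fun j hj hj' => ?_
    · rw [Finset.mem_range]
      exact (Finset.mem_Ico.1 hj).2
    · have h4 := Finset.mem_range.1 hj
      have h5 : j < i := by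
        by_contra h
        exact hj' (Finset.mem_Ico.2 ⟨by omega, h4⟩)
      have h6 : ρ i ≤ ρ (j + 1) := rho_le hd (by omega) (by omega)
      rw [if_neg (by linarith), mul_zero]
  rw [← h3]
  have h4 : ∀ j ∈ Finset.Ico i k, (τ j - τ (j + 1)) * (if ρ (j + 1) ≤ x then (1 : ℝ) else 0) =
      τ j - τ (j + 1) := by
    intro j hj
    have h5 := Finset.mem_Ico.1 hj
    have h6 : ρ (j + 1) ≤ ρ (i + 1) := rho_le hd (by omega) (by omega)
    rw [if_pos (by linarith), mul_one]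
  rw [Finset.sum_congr rfl h4, Finset.sum_Ico_eq_sum_range]
  have h7 := Finset.sum_range_sub' (fun m => τ (i + m)) (k - i)
  have h8 : i + (k - i) = k := by omega
  simp only [h8, hk, add_zero, sub_zero] at h7
  rw [← h7]
  refine Finset.sum_congr rfl fun m _ => ?_
  rw [add_assoc]

private theorem split_sum {k : ℕ} {ρ : ℕ → ℝ} (f : ℝ → ℝ)
    (hf : ∀ a b : ℝ, IntervalIntegrable f volume a b) (m : ℕ) :
    ∫ x in (ρ m)..(ρ 0), f x = ∑ i ∈ range m, ∫ x in (ρ (i + 1))..(ρ i), f x := by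
  induction m with
  | zero => rw [intervalIntegral.integral_same, Finset.sum_range_zero]
  | succ n ih =>
    have h := intervalIntegral.integral_add_adjacent_intervals (hf (ρ (n + 1)) (ρ n))
      (hf (ρ n) (ρ 0))
    rw [Finset.sum_range_succ, ← ih, ← h, add_comm (∫ x in (ρ (n + 1))..(ρ n), f x)]

private theorem int_x (c a b : ℝ) : ∫ x in a..b, c ^ 2 * x = c ^ 2 * ((b ^ 2 - a ^ 2) / 2) := by
  rw [intervalIntegral.integral_const_mul, integral_id]

theorem nodes {T kap : ℝ} (hP : Par T kap) (k : ℕ) (Δ : ℝ) (hΔ : 0 < Δ) (r : ℕ → ℝ)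
    (hr : ∀ i ≤ k, 0 < r i) (hd : ∀ i < k, r (i + 1) < r i)
    (hc : ∀ i, i + 1 < k → r i + r (i + 2) ≤ 2 * r (i + 1)) :
    kap * (∑ i ∈ range k, ((i : ℝ) * Δ) ^ 2 * (r i ^ 2 - r (i + 1) ^ 2) + ((k : ℝ) * Δ) ^ 2 * r k ^ 2) ≤
      r 0 ^ 2 * (Δ ^ 2 * ∑ i ∈ range k, (r i + r (i + 1)) / (r i - r (i + 1))) := by
  have hr0 : 0 < r 0 := hr 0 (Nat.zero_le _)
  have hkap : 0 < kap := by
    rw [hP.kap_eq]
    have h1 := hP.T0
    have h2 := hP.T1
    have h3 : 0 < T := by linarith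
    have h4 : 0 < 4 - 3 * T := by linarith
    positivity
  set ρ : ℕ → ℝ := fun i => r i / r 0 with hρ
  have hρ0 : ρ 0 = 1 := div_self hr0.ne'
  have hd' : ∀ i < k, ρ (i + 1) < ρ i := fun i hi => div_lt_div_of_pos_right (hd i hi) hr0
  have hpos : ∀ i ≤ k, 0 < ρ i := fun i hi => div_pos (hr i hi) hr0
  set τ : ℕ → ℝ := fun i => if i < k then Δ / (ρ i - ρ (i + 1)) else 0 with hτdef
  have hτk : τ k = 0 := if_neg (lt_irrefl k)
  have hτi : ∀ i < k, τ i = Δ / (ρ i - ρ (i + 1)) := fun i hi => if_pos hi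
  have hτ : ∀ j < k, τ (j + 1) ≤ τ j := by
    intro j hj
    have h1 : 0 < ρ j - ρ (j + 1) := by linarith [hd' j hj]
    by_cases h : j + 1 < k
    · rw [hτi _ h, hτi _ hj]
      have h2 : ρ j - ρ (j + 1) ≤ ρ (j + 1) - ρ (j + 1 + 1) := by
        have h3 := hc j h
        have h4 : r j - r (j + 1) ≤ r (j + 1) - r (j + 1 + 1) := by
          have h5 : j + 2 = j + 1 + 1 := rfl
          rw [h5] at h3
          linarith
        have h5 := div_le_div_of_nonneg_right h4 hr0.le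
        simp only [hρ]
        rw [← sub_div, ← sub_div]
        exact h5
      exact div_le_div_of_nonneg_left hΔ.le h1 h2
    · have h2 : j + 1 = k := by omega
      rw [h2, hτk, hτi _ hj]
      positivity
  set s : ℝ → ℝ := stp k τ ρ with hs
  have hm : Monotone s := stp_mono k τ ρ hτ
  have h0 : ∀ x, 0 ≤ s x := stp_nonneg k τ ρ hτ
  have hsint : ∀ a b : ℝ, IntervalIntegrable s volume a b := fun a b => hm.intervalIntegrable
  have hm2 : Monotone fun x => s x ^ 2 := fun x y hxy => pow_le_pow_left₀ (h0 x) (hm hxy) 2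
  have hs2int : ∀ a b : ℝ, IntervalIntegrable (fun x => s x ^ 2 * x) volume a b := fun a b =>
    (hm2.intervalIntegrable (a := a) (b := b)).mul_continuousOn continuous_id.continuousOn
  set g : ℝ → ℝ := fun x => ∫ t in x..1, s t with hg
  have hgc : Continuous g := by
    have h1 := intervalIntegral.continuous_primitive hsint 1
    have h2 : g = fun x => - ∫ t in (1 : ℝ)..x, s t := by
      funext x
      exact intervalIntegral.integral_symm _ _
    rw [h2]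
    exact h1.neg
  have hg2c : Continuous fun x => g x ^ 2 * x := (hgc.pow 2).mul continuous_id
  have hg2int : ∀ a b : ℝ, IntervalIntegrable (fun x => g x ^ 2 * x) volume a b := fun a b =>
    hg2c.intervalIntegrable a b
  -- the integral of `s²`
  have hS : ∫ x in (0 : ℝ)..1, s x ^ 2 * x =
      ∑ i ∈ range k, τ i ^ 2 * ((ρ i ^ 2 - ρ (i + 1) ^ 2) / 2) := by
    have h1 := intervalIntegral.integral_add_adjacent_intervals (hs2int 0 (ρ k)) (hs2int (ρ k) 1)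
    have h2 : ∫ x in (0 : ℝ)..(ρ k), s x ^ 2 * x = 0 := by
      have h3 : ∫ x in (0 : ℝ)..(ρ k), s x ^ 2 * x = ∫ x in (0 : ℝ)..(ρ k), (0 : ℝ) :=
        congrIoo (hpos k le_rfl).le fun x _ hx => by
          rw [hs, stp_zero k τ ρ hd' hx]
          ring
      rw [h3, intervalIntegral.integral_zero]
    have h4 := split_sum (k := k) (ρ := ρ) (fun x => s x ^ 2 * x) hs2int k
    rw [hρ0] at h4
    rw [← h1, h2, zero_add, h4]
    refine Finset.sum_congr rfl fun i hi => ?_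
    have hi' := Finset.mem_range.1 hi
    have h5 : ∫ x in (ρ (i + 1))..(ρ i), s x ^ 2 * x = ∫ x in (ρ (i + 1))..(ρ i), τ i ^ 2 * x :=
      congrIoo (hd' i hi').le fun x hx1 hx2 => by
        rw [hs, stp_eq k τ ρ hd' hτk hi' hx1 hx2]
    rw [h5, int_x]
  -- the values of `g`
  have hgi : ∀ i ≤ k, g (ρ i) = i * Δ := by
    intro i hi
    have h4 := split_sum (k := k) (ρ := ρ) s hsint i
    rw [hρ0] at h4
    change ∫ t in (ρ i)..1, s t = _
    rw [h4]
    have h5 : ∀ j ∈ range i, ∫ x in (ρ (j + 1))..(ρ j), s x = Δ := by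
      intro j hj
      have hj' : j < k := lt_of_lt_of_le (Finset.mem_range.1 hj) hi
      have h6 : ∫ x in (ρ (j + 1))..(ρ j), s x = ∫ x in (ρ (j + 1))..(ρ j), τ j :=
        congrIoo (hd' j hj').le fun x hx1 hx2 => by
          rw [hs, stp_eq k τ ρ hd' hτk hj' hx1 hx2]
      rw [h6, intervalIntegral.integral_const, hτi j hj', smul_eq_mul]
      have h7 : 0 < ρ j - ρ (j + 1) := by linarith [hd' j hj']
      field_simp
    rw [Finset.sum_congr rfl h5, Finset.sum_const, Finset.card_range, nsmul_eq_mul]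
  have hgm : ∀ x y, x ≤ y → g y ≤ g x := by
    intro x y hxy
    have h1 := intervalIntegral.integral_add_adjacent_intervals (hsint x y) (hsint y 1)
    have h2 : 0 ≤ ∫ t in x..y, s t := intervalIntegral.integral_nonneg hxy fun u _ => h0 u
    change ∫ t in y..1, s t ≤ ∫ t in x..1, s t
    linarith
  -- the lower bound for the integral of `g²`
  have hlow : ∀ (c a b : ℝ), 0 ≤ c → 0 ≤ a → a ≤ b → c ≤ g b →
      c ^ 2 * ((b ^ 2 - a ^ 2) / 2) ≤ ∫ x in a..b, g x ^ 2 * x := by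
    intro c a b hc0 ha hab hcb
    rw [← int_x]
    refine intervalIntegral.integral_mono_on hab
      ((continuous_const.mul continuous_id).intervalIntegrable a b) (hg2int a b) fun x hx => ?_
    have h1 : c ≤ g x := hcb.trans (hgm x b hx.2)
    exact mul_le_mul_of_nonneg_right (pow_le_pow_left₀ hc0 h1 2) (ha.trans hx.1)
  have hG : ∑ i ∈ range k, ((i : ℝ) * Δ) ^ 2 * ((ρ i ^ 2 - ρ (i + 1) ^ 2) / 2) +
      ((k : ℝ) * Δ) ^ 2 * (ρ k ^ 2 / 2) ≤ ∫ x in (0 : ℝ)..1, g x ^ 2 * x := by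
    have h1 := intervalIntegral.integral_add_adjacent_intervals (hg2int 0 (ρ k)) (hg2int (ρ k) 1)
    have h4 := split_sum (k := k) (ρ := ρ) (fun x => g x ^ 2 * x) hg2int k
    rw [hρ0] at h4
    rw [← h1, h4, add_comm]
    refine add_le_add ?_ (Finset.sum_le_sum fun i hi => ?_)
    · have h5 := hlow ((k : ℝ) * Δ) 0 (ρ k) (by positivity) le_rfl (hpos k le_rfl).le
        (hgi k le_rfl).ge
      have h6 : (ρ k ^ 2 - 0 ^ 2) / 2 = ρ k ^ 2 / 2 := by ring
      rw [h6] at h5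
      exact h5
    · have hi' := Finset.mem_range.1 hi
      exact hlow ((i : ℝ) * Δ) (ρ (i + 1)) (ρ i) (by positivity) (hpos (i + 1) hi').le
        (hd' i hi').le (hgi i hi'.le).ge
  have hone := oned hP s hm h0
  have hmain : kap * (∑ i ∈ range k, ((i : ℝ) * Δ) ^ 2 * ((ρ i ^ 2 - ρ (i + 1) ^ 2) / 2) +
      ((k : ℝ) * Δ) ^ 2 * (ρ k ^ 2 / 2)) ≤
      ∑ i ∈ range k, τ i ^ 2 * ((ρ i ^ 2 - ρ (i + 1) ^ 2) / 2) := by
    rw [← hS]
    exact (mul_le_mul_of_nonneg_left hG hkap.le).trans hone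
  have hL : kap * (∑ i ∈ range k, ((i : ℝ) * Δ) ^ 2 * (r i ^ 2 - r (i + 1) ^ 2) +
      ((k : ℝ) * Δ) ^ 2 * r k ^ 2) = 2 * r 0 ^ 2 *
      (kap * (∑ i ∈ range k, ((i : ℝ) * Δ) ^ 2 * ((ρ i ^ 2 - ρ (i + 1) ^ 2) / 2) +
      ((k : ℝ) * Δ) ^ 2 * (ρ k ^ 2 / 2))) := by
    have h1 : ∀ i, r i = r 0 * ρ i := fun i => by
      simp only [hρ]
      field_simp
    have h2 : ∑ i ∈ range k, ((i : ℝ) * Δ) ^ 2 * (r i ^ 2 - r (i + 1) ^ 2) =
        2 * r 0 ^ 2 * ∑ i ∈ range k, ((i : ℝ) * Δ) ^ 2 * ((ρ i ^ 2 - ρ (i + 1) ^ 2) / 2) := by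
      rw [Finset.mul_sum]
      refine Finset.sum_congr rfl fun i _ => ?_
      rw [h1 i, h1 (i + 1)]
      ring
    have h3 : r k ^ 2 = 2 * r 0 ^ 2 * (ρ k ^ 2 / 2) := by
      rw [h1 k]
      ring
    rw [h2, h3]
    ring
  have hR : r 0 ^ 2 * (Δ ^ 2 * ∑ i ∈ range k, (r i + r (i + 1)) / (r i - r (i + 1))) =
      2 * r 0 ^ 2 * ∑ i ∈ range k, τ i ^ 2 * ((ρ i ^ 2 - ρ (i + 1) ^ 2) / 2) := by
    rw [Finset.mul_sum, Finset.mul_sum, Finset.mul_sum]
    refine Finset.sum_congr rfl fun i hi => ?_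
    have hi' := Finset.mem_range.1 hi
    rw [hτi i hi']
    have h7 : 0 < r i - r (i + 1) := by linarith [hd i hi']
    have h8 : ρ i - ρ (i + 1) = (r i - r (i + 1)) / r 0 := by
      simp only [hρ]
      rw [sub_div]
    have h9 : ρ i ^ 2 - ρ (i + 1) ^ 2 = (r i - r (i + 1)) * (r i + r (i + 1)) / r 0 ^ 2 := by
      simp only [hρ]
      field_simp
      ring
    rw [h8, h9]
    field_simp
  rw [hL, hR]
  exact mul_le_mul_of_nonneg_left hmain (by positivity)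

end Pool.Agent.HAS
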