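import Pool.Agent.HAS.PlC2
import Pool.Agent.HAS.PlD

/-!
# The planar inequality for concave functions (module PlE)

CLAIM `π kap ∫_A (v-τ)² ≤ area(A) ∫_A ‖∇v‖²`, `A = {z ∈ U : v z ≥ τ}` compact.

PLAN.  If `A` is empty: trivial.  Let `M = max_A v`; if `M = τ` the left side is `0`.  Otherwise let `Δ > 0`
small and `k` maximal with `τ + kΔ < M` (so `M ≤ τ + (k+1)Δ`); `t_i = τ + iΔ`, `a_i = ar (sup U v t_i)`,
`r_i = √(a_i/π) > 0` for `i ≤ k` (`a_pos`), strictly decreasing (`a_lt`), concave (`a_conc`).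
`slab_energy`: `∫_{slab_i} ‖∇v‖² ≥ π Δ² (√a_i+√a_{i+1})²/(a_i - a_{i+1}) = π Δ² (r_i+r_{i+1})/(r_i-r_{i+1})`,
sum over the disjoint slabs `i < k`: `π Δ² ∑ (r_i+r_{i+1})/(r_i-r_{i+1}) ≤ ∫_A ‖∇v‖²`.
`∫_A ((v-τ-Δ)^+)² ≤ ∑_{i<k} (iΔ)² (a_i - a_{i+1}) + (kΔ)² a_k = π (∑ (iΔ)² (r_i²-r_{i+1}²) + (kΔ)² r_k²)`
(on slab `i`: `v - τ - Δ < iΔ`; on `{v ≥ t_k}`: `v - τ - Δ ≤ M - τ - Δ ≤ kΔ`).  `nodes`:
`kap/π ∫_A ((v-τ-Δ)^+)² ≤ (a_0/π)(1/π) ∫_A ‖∇v‖²`.  Let `Δ → 0` (dominated convergence).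
-/

set_option autoImplicit false

namespace Pool.Agent.HAS

open MeasureTheory Metric Set

private theorem ple_compact {U : Set ℂ} {v : ℂ → ℝ} (hv1 : ContDiffOn ℝ 1 v U) {τ : ℝ}
    (hA : IsCompact (sup U v τ)) {t : ℝ} (ht : τ ≤ t) : IsCompact (sup U v t) := by
  have h1 : sup U v t = sup U v τ ∩ v ⁻¹' (Set.Ici t) := by
    ext z
    constructor
    · rintro ⟨h1, h2⟩
      exact ⟨⟨h1, ht.trans h2⟩, h2⟩
    · rintro ⟨⟨h1, _⟩, h2⟩
      exact ⟨h1, h2⟩
  have hc : ContinuousOn v (sup U v τ) := hv1.continuousOn.mono fun z hz => hz.1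
  rw [h1]
  exact hA.of_isClosed_subset (hc.preimage_isClosed_of_isClosed hA.isClosed isClosed_Ici)
    Set.inter_subset_left

private theorem ple_sub {U : Set ℂ} {v : ℂ → ℝ} {t t' : ℝ} (h : t ≤ t') :
    sup U v t' ⊆ sup U v t := fun _ hz => ⟨hz.1, h.trans hz.2⟩

private theorem ple_ar {S T : Set ℂ} (hS : IsCompact S) (hT : IsCompact T) (h : T ⊆ S) :
    ar (S \ T) = ar S - ar T := by
  unfold ar
  rw [measure_sdiff h hT.measurableSet.nullMeasurableSet hT.measure_lt_top.ne,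
    ENNReal.toReal_sub_of_le (measure_mono h) hS.measure_lt_top.ne]

private theorem ple_tele {U : Set ℂ} {v : ℂ → ℝ} (hv1 : ContDiffOn ℝ 1 v U) {τ Δ : ℝ}
    (hΔ : 0 < Δ) (hA : IsCompact (sup U v τ)) {f : ℂ → ℝ}
    (hf : IntegrableOn f (sup U v τ)) (m : ℕ) :
    ∫ z in sup U v τ, f z =
      ∑ i ∈ Finset.range m, (∫ z in sup U v (τ + i * Δ) \ sup U v (τ + (i + 1 : ℕ) * Δ), f z) +
        ∫ z in sup U v (τ + m * Δ), f z := by
  induction m with
  | zero => simp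
  | succ m ih =>
    have h0 : τ ≤ τ + m * Δ := by
      have := mul_nonneg (Nat.cast_nonneg (α := ℝ) m) hΔ.le
      linarith
    have h1 : τ + m * Δ ≤ τ + (m + 1 : ℕ) * Δ := by
      push_cast
      nlinarith
    have h2 := ple_compact hv1 hA (h0.trans h1)
    have h3 : ∫ z in sup U v (τ + m * Δ), f z =
        (∫ z in sup U v (τ + m * Δ) \ sup U v (τ + (m + 1 : ℕ) * Δ), f z) +
          ∫ z in sup U v (τ + (m + 1 : ℕ) * Δ), f z := by
      have hi : IntegrableOn f (sup U v (τ + m * Δ)) := hf.mono_set (ple_sub h0)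
      have h4 := setIntegral_sdiff h2.measurableSet hi (ple_sub h1)
      linarith
    rw [ih, Finset.sum_range_succ, h3]
    ring

private theorem ple_bound {U : Set ℂ} {v : ℂ → ℝ} {τ t : ℝ}
    (hA : IsCompact (sup U v τ)) (S : Set ℂ) (hS : S ⊆ sup U v τ) (hSm : MeasurableSet S)
    {f : ℂ → ℝ} (hf : IntegrableOn f (sup U v τ)) (hb : ∀ z ∈ S, f z ≤ t) :
    ∫ z in S, f z ≤ t * ar S := by
  have hfin : volume S ≠ ⊤ := (lt_of_le_of_lt (measure_mono hS) hA.measure_lt_top).ne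
  have h1 : ∫ z in S, f z ≤ ∫ _ in S, t := by
    refine setIntegral_mono_on (hf.mono_set hS) ?_ hSm hb
    exact integrableOn_const hfin
  rw [setIntegral_const] at h1
  unfold ar
  rw [mul_comm]
  exact h1

private theorem ple_grad {U : Set ℂ} (hU : IsOpen U) {v : ℂ → ℝ} (hv1 : ContDiffOn ℝ 1 v U) :
    ContinuousOn (fun z => ‖gradient v z‖ ^ 2) U := by
  have h1 : ContinuousOn (fderiv ℝ v) U := hv1.continuousOn_fderiv_of_isOpen hU le_rfl
  have h2 : (fun z => ‖gradient v z‖ ^ 2) = fun z => ‖fderiv ℝ v z‖ ^ 2 := by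
    funext z
    unfold gradient
    rw [LinearIsometryEquiv.norm_map]
  rw [h2]
  exact h1.norm.pow 2

/-- the inequality for the step width `Δ` -/
private theorem ple_step {T kap : ℝ} (hP : Par T kap) (U : Set ℂ) (hU : IsOpen U)
    (hUc : Convex ℝ U) (v : ℂ → ℝ) (hv : ConcaveOn ℝ U v) (hv1 : ContDiffOn ℝ 1 v U) (τ : ℝ)
    (hA : IsCompact (sup U v τ)) (z₀ : ℂ) (hz₀ : z₀ ∈ U) (hmax : ∀ z ∈ sup U v τ, v z ≤ v z₀)
    (hτ : τ < v z₀) (Δ : ℝ) (hΔ : 0 < Δ) :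
    Real.pi * kap * ∫ z in sup U v τ, ((v z - τ) ^ 2 - 2 * Δ * (v z - τ)) ≤
      ar (sup U v τ) * ∫ z in sup U v τ, ‖gradient v z‖ ^ 2 := by
  have hkap : 0 < kap := by linarith [hP.kap_bounds.1]
  have hpi := Real.pi_pos
  -- the number of steps
  obtain ⟨k, hk1, hk2⟩ : ∃ k : ℕ, τ + k * Δ < v z₀ ∧ v z₀ ≤ τ + (k + 1 : ℕ) * Δ := by
    have hq : 0 < (v z₀ - τ) / Δ := div_pos (by linarith) hΔ
    have h1 : 0 < ⌈(v z₀ - τ) / Δ⌉₊ := Nat.ceil_pos.2 hq
    refine ⟨⌈(v z₀ - τ) / Δ⌉₊ - 1, ?_, ?_⟩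
    · have h2 : ((⌈(v z₀ - τ) / Δ⌉₊ - 1 : ℕ) : ℝ) < (v z₀ - τ) / Δ := by
        rw [← Nat.lt_ceil]
        omega
      have h3 := (lt_div_iff₀ hΔ).1 h2
      linarith
    · have h2 : (v z₀ - τ) / Δ ≤ ((⌈(v z₀ - τ) / Δ⌉₊ - 1 + 1 : ℕ) : ℝ) := by
        rw [Nat.sub_add_cancel h1]
        exact Nat.le_ceil _
      have h3 := (div_le_iff₀ hΔ).1 h2
      linarith
  have hti : ∀ i : ℕ, τ ≤ τ + i * Δ := fun i => by
    have := mul_nonneg (Nat.cast_nonneg (α := ℝ) i) hΔ.le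
    linarith
  have hts : ∀ i : ℕ, τ + i * Δ < τ + (i + 1 : ℕ) * Δ := fun i => by
    push_cast
    nlinarith
  have htk : ∀ i : ℕ, i ≤ k → τ + i * Δ < v z₀ := fun i hi => by
    have h1 : (i : ℝ) * Δ ≤ k * Δ := mul_le_mul_of_nonneg_right (by exact_mod_cast hi) hΔ.le
    linarith
  have hcomp : ∀ i : ℕ, IsCompact (sup U v (τ + i * Δ)) := fun i => ple_compact hv1 hA (hti i)
  set a : ℕ → ℝ := fun i => ar (sup U v (τ + i * Δ)) with ha
  set r : ℕ → ℝ := fun i => Real.sqrt (a i / Real.pi) with hrdef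
  have hapos : ∀ i ≤ k, 0 < a i := fun i hi => a_pos U hU v hv1 _ (hcomp i) z₀ hz₀ (htk i hi)
  have hrpos : ∀ i ≤ k, 0 < r i := fun i hi => Real.sqrt_pos.2 (div_pos (hapos i hi) hpi)
  have har : ∀ i ≤ k, a i = Real.pi * r i ^ 2 := fun i hi => by
    rw [hrdef]
    simp only
    rw [Real.sq_sqrt (div_pos (hapos i hi) hpi).le]
    field_simp
  have hsq : ∀ i ≤ k, Real.sqrt (a i) = Real.sqrt Real.pi * r i := fun i hi => by
    rw [har i hi, Real.sqrt_mul hpi.le, Real.sqrt_sq (hrpos i hi).le]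
  have halt : ∀ i < k, a (i + 1) < a i := fun i hi =>
    a_lt U hU hUc v hv hv1 _ _ (hts i) (hcomp i) z₀ hz₀ (htk (i + 1) hi)
  have hrlt : ∀ i < k, r (i + 1) < r i := fun i hi =>
    Real.sqrt_lt_sqrt (div_pos (hapos (i + 1) hi) hpi).le
      (div_lt_div_of_pos_right (halt i hi) hpi)
  have hspi : 0 < Real.sqrt Real.pi := Real.sqrt_pos.2 hpi
  have hne : ∀ i ≤ k, (sup U v (τ + i * Δ)).Nonempty := fun i hi => ⟨z₀, hz₀, (htk i hi).le⟩
  have hrc : ∀ i, i + 1 < k → r i + r (i + 2) ≤ 2 * r (i + 1) := fun i hi => by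
    have e1 : τ + (i + 1 : ℕ) * Δ = τ + i * Δ + Δ := by push_cast; ring
    have e2 : τ + (i + 2 : ℕ) * Δ = τ + i * Δ + 2 * Δ := by push_cast; ring
    have h1 := hne (i + 2) (by omega)
    rw [e2] at h1
    have h2 := a_conc U hU hUc v hv hv1 _ Δ hΔ (hcomp i) h1
    rw [← e1, ← e2] at h2
    have h3 : Real.sqrt (a i) + Real.sqrt (a (i + 2)) ≤ 2 * Real.sqrt (a (i + 1)) := h2
    rw [hsq i (by omega), hsq (i + 2) (by omega), hsq (i + 1) (by omega)] at h3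
    have h4 : Real.sqrt Real.pi * (r i + r (i + 2)) ≤ Real.sqrt Real.pi * (2 * r (i + 1)) := by
      linarith
    exact le_of_mul_le_mul_left h4 hspi
  have hnodes := nodes hP k Δ hΔ r hrpos hrlt hrc
  -- integrability
  have hcv : ContinuousOn v (sup U v τ) := hv1.continuousOn.mono fun z hz => hz.1
  have hint1 : IntegrableOn (fun z => (v z - τ) ^ 2 - 2 * Δ * (v z - τ)) (sup U v τ) := by
    refine ContinuousOn.integrableOn_compact hA ?_
    exact ((hcv.sub continuousOn_const).pow 2).sub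
      (continuousOn_const.mul (hcv.sub continuousOn_const))
  have hint2 : IntegrableOn (fun z => ‖gradient v z‖ ^ 2) (sup U v τ) :=
    ContinuousOn.integrableOn_compact hA ((ple_grad hU hv1).mono fun z hz => hz.1)
  -- the energy
  set E : ℕ → ℝ := fun i =>
    ∫ z in sup U v (τ + i * Δ) \ sup U v (τ + (i + 1 : ℕ) * Δ), ‖gradient v z‖ ^ 2 with hE
  have hEi : ∀ i < k, Real.pi * (Δ ^ 2 * ((r i + r (i + 1)) / (r i - r (i + 1)))) ≤ E i := by
    intro i hi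
    have h1 := slab_energy U hU hUc v hv hv1 _ _ (hts i) (hcomp i) (hne (i + 1) hi)
    have e1 : τ + (i + 1 : ℕ) * Δ - (τ + i * Δ) = Δ := by push_cast; ring
    rw [e1] at h1
    have h2 : Real.pi * Δ ^ 2 * (Real.sqrt (a i) + Real.sqrt (a (i + 1))) ^ 2 ≤
        (a i - a (i + 1)) * E i := h1
    rw [hsq i hi.le, hsq (i + 1) hi, har i hi.le, har (i + 1) hi] at h2
    have h3 : (Real.sqrt Real.pi * r i + Real.sqrt Real.pi * r (i + 1)) ^ 2 =
        Real.pi * (r i + r (i + 1)) ^ 2 := by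
      rw [← mul_add, mul_pow, Real.sq_sqrt hpi.le]
    rw [h3] at h2
    have hs : 0 < r i + r (i + 1) := add_pos (hrpos i hi.le) (hrpos (i + 1) hi)
    have hd : 0 < r i - r (i + 1) := sub_pos.2 (hrlt i hi)
    have h4 : (Real.pi * (r i + r (i + 1))) * (Real.pi * (Δ ^ 2 * (r i + r (i + 1)))) ≤
        (Real.pi * (r i + r (i + 1))) * ((r i - r (i + 1)) * E i) := by
      linarith
    have h5 := le_of_mul_le_mul_left h4 (mul_pos hpi hs)
    have h6 : Real.pi * (Δ ^ 2 * ((r i + r (i + 1)) / (r i - r (i + 1)))) =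
        Real.pi * (Δ ^ 2 * (r i + r (i + 1))) / (r i - r (i + 1)) := by
      ring
    rw [h6, div_le_iff₀ hd]
    linarith
  have hEsum : ∑ i ∈ Finset.range k, E i ≤ ∫ z in sup U v τ, ‖gradient v z‖ ^ 2 := by
    rw [ple_tele hv1 hΔ hA hint2 k]
    have h1 : 0 ≤ ∫ z in sup U v (τ + k * Δ), ‖gradient v z‖ ^ 2 :=
      integral_nonneg fun z => by positivity
    linarith
  -- the mass
  have hMs : ∫ z in sup U v τ, ((v z - τ) ^ 2 - 2 * Δ * (v z - τ)) ≤
      ∑ i ∈ Finset.range k, ((i : ℝ) * Δ) ^ 2 * (a i - a (i + 1)) + ((k : ℝ) * Δ) ^ 2 * a k := by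
    rw [ple_tele hv1 hΔ hA hint1 k]
    have hkey : ∀ (i : ℕ) (x : ℝ), (i : ℝ) * Δ ≤ x → x ≤ (i + 1 : ℕ) * Δ →
        x ^ 2 - 2 * Δ * x ≤ ((i : ℝ) * Δ) ^ 2 := by
      intro i x h1 h2
      push_cast at h2
      have hi : (0 : ℝ) ≤ i := Nat.cast_nonneg i
      have hiD : 0 ≤ (i : ℝ) * Δ := mul_nonneg hi hΔ.le
      nlinarith [mul_nonneg hiD (sub_nonneg.2 h1), mul_nonneg (hiD.trans h1) (sub_nonneg.2 h2),
        mul_nonneg (sub_nonneg.2 h1) (sub_nonneg.2 h2)]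
    refine add_le_add (Finset.sum_le_sum fun i hi => ?_) ?_
    · have h1 := ple_bound hA (sup U v (τ + i * Δ) \ sup U v (τ + (i + 1 : ℕ) * Δ))
        (Set.sdiff_subset.trans (ple_sub (hti i)))
        ((hcomp i).measurableSet.diff (hcomp (i + 1)).measurableSet) hint1
        (t := ((i : ℝ) * Δ) ^ 2) (by
          rintro z ⟨⟨h1, h2⟩, h3⟩
          refine hkey i (v z - τ) (by linarith) ?_
          by_contra h4
          exact h3 ⟨h1, by linarith⟩)
      rw [ple_ar (hcomp i) (hcomp (i + 1)) (ple_sub (hts i).le)] at h1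
      exact h1
    · exact ple_bound hA (sup U v (τ + k * Δ)) (ple_sub (hti k)) (hcomp k).measurableSet hint1
        (t := ((k : ℝ) * Δ) ^ 2) (by
          rintro z ⟨h1, h2⟩
          refine hkey k (v z - τ) (by linarith) ?_
          have h3 := hmax z ⟨h1, (hti k).trans h2⟩
          linarith)
  have hM2 : ∑ i ∈ Finset.range k, ((i : ℝ) * Δ) ^ 2 * (a i - a (i + 1)) +
      ((k : ℝ) * Δ) ^ 2 * a k = Real.pi *
      (∑ i ∈ Finset.range k, ((i : ℝ) * Δ) ^ 2 * (r i ^ 2 - r (i + 1) ^ 2) +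
        ((k : ℝ) * Δ) ^ 2 * r k ^ 2) := by
    rw [mul_add, Finset.mul_sum, har k le_rfl]
    congr 1
    · refine Finset.sum_congr rfl fun i hi => ?_
      have h1 := Finset.mem_range.1 hi
      rw [har i h1.le, har (i + 1) h1]
      ring
    · ring
  rw [hM2] at hMs
  have hE2 : Real.pi * (Δ ^ 2 * ∑ i ∈ Finset.range k, (r i + r (i + 1)) / (r i - r (i + 1))) ≤
      ∑ i ∈ Finset.range k, E i := by
    rw [Finset.mul_sum, Finset.mul_sum]
    exact Finset.sum_le_sum fun i hi => hEi i (Finset.mem_range.1 hi)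
  have ha0 : ar (sup U v τ) = Real.pi * r 0 ^ 2 := by
    have h1 := har 0 (Nat.zero_le k)
    rw [← h1, ha]
    simp
  rw [ha0]
  calc Real.pi * kap * ∫ z in sup U v τ, ((v z - τ) ^ 2 - 2 * Δ * (v z - τ))
      ≤ Real.pi * kap * (Real.pi *
        (∑ i ∈ Finset.range k, ((i : ℝ) * Δ) ^ 2 * (r i ^ 2 - r (i + 1) ^ 2) +
          ((k : ℝ) * Δ) ^ 2 * r k ^ 2)) :=
        mul_le_mul_of_nonneg_left hMs (mul_pos hpi hkap).le
    _ = Real.pi * (Real.pi * (kap *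
        (∑ i ∈ Finset.range k, ((i : ℝ) * Δ) ^ 2 * (r i ^ 2 - r (i + 1) ^ 2) +
          ((k : ℝ) * Δ) ^ 2 * r k ^ 2))) := by ring
    _ ≤ Real.pi * (Real.pi * (r 0 ^ 2 *
        (Δ ^ 2 * ∑ i ∈ Finset.range k, (r i + r (i + 1)) / (r i - r (i + 1))))) :=
        mul_le_mul_of_nonneg_left (mul_le_mul_of_nonneg_left hnodes hpi.le) hpi.le
    _ = Real.pi * r 0 ^ 2 * (Real.pi *
        (Δ ^ 2 * ∑ i ∈ Finset.range k, (r i + r (i + 1)) / (r i - r (i + 1)))) := by ring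
    _ ≤ Real.pi * r 0 ^ 2 * ∫ z in sup U v τ, ‖gradient v z‖ ^ 2 :=
        mul_le_mul_of_nonneg_left (hE2.trans hEsum) (by positivity)

theorem planar {T kap : ℝ} (hP : Par T kap) (U : Set ℂ) (hU : IsOpen U) (hUc : Convex ℝ U)
    (v : ℂ → ℝ) (hv : ConcaveOn ℝ U v) (hv1 : ContDiffOn ℝ 1 v U) (τ : ℝ)
    (hA : IsCompact (sup U v τ)) :
    Real.pi * kap * ∫ z in sup U v τ, (v z - τ) ^ 2 ≤
      ar (sup U v τ) * ∫ z in sup U v τ, ‖gradient v z‖ ^ 2 := by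
  have hkap : 0 < kap := by linarith [hP.kap_bounds.1]
  have hpi := Real.pi_pos
  have hE0 : 0 ≤ ar (sup U v τ) * ∫ z in sup U v τ, ‖gradient v z‖ ^ 2 := by
    refine mul_nonneg ENNReal.toReal_nonneg (integral_nonneg fun z => ?_)
    positivity
  rcases (sup U v τ).eq_empty_or_nonempty with he | hne
  · rw [he] at hE0 ⊢
    simp
  have hcv : ContinuousOn v (sup U v τ) := hv1.continuousOn.mono fun z hz => hz.1
  obtain ⟨z₀, hz₀, hmax⟩ := hA.exists_isMaxOn hne hcv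
  have hmax' : ∀ z ∈ sup U v τ, v z ≤ v z₀ := fun z hz => hmax hz
  rcases hz₀.2.eq_or_lt with heq | hlt
  · have h1 : ∫ z in sup U v τ, (v z - τ) ^ 2 = 0 := by
      rw [setIntegral_congr_fun hA.measurableSet (g := fun _ => (0 : ℝ))]
      · simp
      · intro z hz
        have h2 := hmax' z hz
        have h3 := hz.2
        have h4 : v z = τ := le_antisymm (by linarith) h3
        simp only [h4, sub_self]
        norm_num
    rw [h1, mul_zero]
    exact hE0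
  have hint1 : IntegrableOn (fun z => (v z - τ) ^ 2) (sup U v τ) :=
    ContinuousOn.integrableOn_compact hA ((hcv.sub continuousOn_const).pow 2)
  have hint2 : IntegrableOn (fun z => v z - τ) (sup U v τ) :=
    ContinuousOn.integrableOn_compact hA (hcv.sub continuousOn_const)
  have hB : 0 ≤ ∫ z in sup U v τ, (v z - τ) :=
    setIntegral_nonneg hA.measurableSet fun z hz => sub_nonneg.2 hz.2
  have hstep : ∀ Δ : ℝ, 0 < Δ → Real.pi * kap * ∫ z in sup U v τ, (v z - τ) ^ 2 ≤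
      ar (sup U v τ) * (∫ z in sup U v τ, ‖gradient v z‖ ^ 2) +
        Δ * (2 * Real.pi * kap * ∫ z in sup U v τ, (v z - τ)) := by
    intro Δ hΔ
    have h1 := ple_step hP U hU hUc v hv hv1 τ hA z₀ hz₀.1 hmax' hlt Δ hΔ
    rw [integral_sub hint1 (hint2.const_mul (2 * Δ)), integral_const_mul] at h1
    linarith
  by_contra hcon
  push Not at hcon
  set X := Real.pi * kap * ∫ z in sup U v τ, (v z - τ) ^ 2
  set Y := ar (sup U v τ) * ∫ z in sup U v τ, ‖gradient v z‖ ^ 2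
  set B := 2 * Real.pi * kap * ∫ z in sup U v τ, (v z - τ) with hBdef
  have hB0 : 0 ≤ B := by
    rw [hBdef]
    positivity
  have h1 := hstep ((X - Y) / (B + 1)) (div_pos (by linarith) (by linarith))
  have h2 : (X - Y) / (B + 1) * B < X - Y := by
    rw [div_mul_eq_mul_div, div_lt_iff₀ (by linarith)]
    nlinarith
  linarith

end Pool.Agent.HAS
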