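import Pool.Agent.HAS.GeC3
import Pool.Agent.HAS.GeD
import Pool.Agent.HAS.GeE
import Pool.Agent.HAS.GeF
import Pool.Agent.HAS.PlE

/-!
# The lower bound from a good depth (module LimA)

PLAN.  `0 < x`, `τ = √(4(R0²+R0ρ)/ρ² x) + x`.  By `sup_bound`, `c(z)² ≤ 4(R0²+R0ρ)/ρ² x < τ²` if `z ∈ A`,
`gauge A z ≥ 1-δ`; so `W := sup (interior A) c τ = {z ∈ A : c z ≥ τ} ⊆ (1-δ)A` (frontier points have `c = 0 < τ`),
compact.  `planar` on `U = interior A`: `π kap ∫_W (c-τ)² ≤ ar W ∫_W ‖∇c‖² ≤ ∫_W ‖∇c‖² ≤ ∫ η² ‖∇c‖²`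
(`ar W ≤ ar A ≤ 1`, `η = 1` on `(1-δ)A`; `η² ‖∇c‖²` is continuous with compact support inside `interior A`).
`∫_W (c-τ)² ≥ ∫_A (c² - 2τ c) ≥ 1/π - 2 τ C1` (on `A \ W`, `c² - 2τc ≤ 0`).
Error: integrand vanishes outside `A` and on `(1-δ)A`; `≤ (72K²+19K)/δ² ∫_{A \ (1-δ)A} c² ≤
(72K²+19K)/δ² · 4R0² δ · δ x` (`layer_bound`).  Insert into `PData.sharp` with `d = δρ/4`.
-/

set_option autoImplicit false

namespace Pool.Agent.HAS

open MeasureTheory Metric Set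
open scoped Pointwise

variable {A : Set ℂ} {ρ R0 C1 C2 ε Φ : ℝ} {c : ℂ → ℝ}

private theorem la_R0 (h : Geo A ρ R0) : ρ ≤ R0 := by
  have h1 : (ρ : ℂ) ∈ closedBall (0 : ℂ) R0 := by
    apply h.outer
    apply h.inner
    rw [mem_closedBall_zero_iff, Complex.norm_real, Real.norm_eq_abs, abs_of_pos h.ρ0]
  rwa [mem_closedBall_zero_iff, Complex.norm_real, Real.norm_eq_abs, abs_of_pos h.ρ0] at h1

private theorem la_sup (h : CF A ρ R0 C1 c) (δ x : ℝ) (hδ : 0 < δ) (hδ1 : δ ≤ 1 / 2) (hx : 0 < x)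
    (hJ : JJ A c (1 - δ) ≤ δ * x) (z : ℂ) (hz : z ∈ A) (hg : 1 - δ ≤ gauge A z) :
    c z < Real.sqrt (4 * (R0 ^ 2 + R0 * ρ) / ρ ^ 2 * x) + x := by
  have hρ := h.ρ0
  have hR : ρ ≤ R0 := la_R0 h.toGeo
  have hR0 : 0 < R0 := lt_of_lt_of_le hρ hR
  have h1 := sup_bound h δ hδ hδ1 z hz hg
  have h2 : 4 * (R0 ^ 2 + R0 * ρ) / (δ * ρ ^ 2) * JJ A c (1 - δ) ≤
      4 * (R0 ^ 2 + R0 * ρ) / ρ ^ 2 * x := by
    calc 4 * (R0 ^ 2 + R0 * ρ) / (δ * ρ ^ 2) * JJ A c (1 - δ)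
        ≤ 4 * (R0 ^ 2 + R0 * ρ) / (δ * ρ ^ 2) * (δ * x) :=
          mul_le_mul_of_nonneg_left hJ (by positivity)
      _ = 4 * (R0 ^ 2 + R0 * ρ) / ρ ^ 2 * x := by
          field_simp
  have h3 : c z ≤ Real.sqrt (4 * (R0 ^ 2 + R0 * ρ) / ρ ^ 2 * x) :=
    Real.le_sqrt_of_sq_le (h1.trans h2)
  linarith

private theorem la_W (h : CF A ρ R0 C1 c) (τ : ℝ) (hτ : 0 < τ) :
    sup (interior A) c τ = A ∩ c ⁻¹' Ici τ := by
  ext z
  constructor
  · rintro ⟨h1, h2⟩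
    exact ⟨interior_subset h1, h2⟩
  · rintro ⟨h1, h2⟩
    refine ⟨?_, h2⟩
    by_contra hz
    have h3 : z ∈ frontier A := ⟨subset_closure h1, hz⟩
    have h4 := h.bd z h3
    have h5 : τ ≤ c z := h2
    linarith

private theorem la_Wc (h : CF A ρ R0 C1 c) (τ : ℝ) (hτ : 0 < τ) :
    IsCompact (sup (interior A) c τ) := by
  rw [la_W h τ hτ]
  exact h.cpt.of_isClosed_subset
    (h.cont.preimage_isClosed_of_isClosed h.cpt.isClosed isClosed_Ici) inter_subset_left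

private theorem la_ar (h : CF A ρ R0 C1 c) (W : Set ℂ) (hW : W ⊆ A) : ar W ≤ ar A := by
  unfold ar
  exact ENNReal.toReal_mono h.cpt.measure_lt_top.ne (measure_mono hW)

private theorem la_mass (h : PData A ρ R0 C1 C2 ε Φ c) (τ : ℝ) (hτ : 0 < τ) :
    1 / Real.pi - 2 * τ * C1 ≤ ∫ z in sup (interior A) c τ, (c z - τ) ^ 2 := by
  have hC1 : 0 ≤ C1 := by
    have h0 : (0 : ℂ) ∈ A := h.inner (mem_closedBall_self h.ρ0.le)
    exact (h.nonneg 0 h0).trans (h.le 0 h0)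
  have hWc := la_Wc h.toCF τ hτ
  have hWA : sup (interior A) c τ ⊆ A := fun z hz => interior_subset hz.1
  have hWm : MeasurableSet (sup (interior A) c τ) := hWc.isClosed.measurableSet
  have hAm : MeasurableSet A := h.cpt.isClosed.measurableSet
  have hic : IntegrableOn c A := h.cont.integrableOn_compact h.cpt
  have hic2 : IntegrableOn (fun z => c z ^ 2) A := (h.cont.pow 2).integrableOn_compact h.cpt
  have hi3 : IntegrableOn (fun z => c z ^ 2 - 2 * τ * c z) A := hic2.sub (hic.const_mul (2 * τ))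
  have hi4 : IntegrableOn (fun z => (c z - τ) ^ 2) (sup (interior A) c τ) :=
    (((h.cont.sub continuousOn_const).pow 2).integrableOn_compact h.cpt).mono_set hWA
  have h1 : ∫ z in A, (c z ^ 2 - 2 * τ * c z) ≤ ∫ z in sup (interior A) c τ, (c z - τ) ^ 2 := by
    have h2 : ∫ z in A, (c z ^ 2 - 2 * τ * c z) =
        (∫ z in sup (interior A) c τ, (c z ^ 2 - 2 * τ * c z)) +
          ∫ z in A \ sup (interior A) c τ, (c z ^ 2 - 2 * τ * c z) := by
      rw [← setIntegral_union disjoint_sdiff_right (hAm.diff hWm) (hi3.mono_set hWA)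
        (hi3.mono_set sdiff_subset), union_sdiff_cancel hWA]
    have h3 : ∫ z in A \ sup (interior A) c τ, (c z ^ 2 - 2 * τ * c z) ≤ 0 := by
      refine setIntegral_nonpos (hAm.diff hWm) ?_
      rintro z ⟨hz, hz'⟩
      rw [la_W h.toCF τ hτ] at hz'
      have h4 : c z < τ := by
        by_contra hcon
        exact hz' ⟨hz, not_lt.1 hcon⟩
      have h5 := h.nonneg z hz
      nlinarith
    have h4 : ∫ z in sup (interior A) c τ, (c z ^ 2 - 2 * τ * c z) ≤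
        ∫ z in sup (interior A) c τ, (c z - τ) ^ 2 := by
      refine setIntegral_mono_on (hi3.mono_set hWA) hi4 hWm ?_
      intro z _
      nlinarith [sq_nonneg τ]
    linarith
  have h2 : ∫ z in A, (c z ^ 2 - 2 * τ * c z) = (∫ z in A, c z ^ 2) - 2 * τ * ∫ z in A, c z := by
    rw [integral_sub hic2 (hic.const_mul (2 * τ)), integral_const_mul]
  have h3 : ∫ z in A, c z ≤ C1 := by
    have h4 : ∫ z in A, c z ≤ ∫ _z in A, C1 := by
      refine setIntegral_mono_on hic ?_ hAm fun z hz => h.le z hz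
      exact integrableOn_const h.cpt.measure_lt_top.ne
    have h5 : ∫ _z in A, C1 = ar A * C1 := by
      rw [setIntegral_const, smul_eq_mul]
      rfl
    rw [h5] at h4
    have h6 := h.area
    nlinarith
  have h4 : 1 / Real.pi ≤ ∫ z in A, c z ^ 2 := by
    rw [div_le_iff₀ Real.pi_pos, mul_comm]
    exact h.mass
  have h5 : 2 * τ * ∫ z in A, c z ≤ 2 * τ * C1 := mul_le_mul_of_nonneg_left h3 (by linarith)
  linarith

private theorem la_grad (h : CF A ρ R0 C1 c) : ContinuousOn (fun z => gradient c z) (interior A) := by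
  have h1 : ContinuousOn (fderiv ℝ c) (interior A) :=
    h.smooth.continuousOn_fderiv_of_isOpen isOpen_interior le_rfl
  exact (InnerProductSpace.toDual ℝ ℂ).symm.continuous.comp_continuousOn h1

private theorem la_int (h : CF A ρ R0 C1 c) (η : ℂ → ℝ) (hη : ContDiff ℝ 2 η)
    (h2 : HasCompactSupport η) (h3 : tsupport η ⊆ interior A) :
    Integrable (fun z => η z ^ 2 * ‖gradient c z‖ ^ 2) := by
  have h4 : ContinuousOn (fun z => η z ^ 2 * ‖gradient c z‖ ^ 2) (tsupport η) :=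
    (hη.continuous.pow 2).continuousOn.mul (((la_grad h).mono h3).norm.pow 2)
  have h5 : IntegrableOn (fun z => η z ^ 2 * ‖gradient c z‖ ^ 2) (tsupport η) :=
    h4.integrableOn_compact h2.isCompact
  refine h5.integrable_of_forall_notMem_eq_zero ?_
  intro z hz
  rw [image_eq_zero_of_notMem_tsupport hz]
  ring

private theorem la_zero (η : ℂ → ℝ) (z : ℂ) (hz : z ∉ tsupport η) :
    gradient η z = 0 ∧ lap (fun y => η y ^ 2) z = 0 := by
  have h1 : η =ᶠ[nhds z] 0 := notMem_tsupport_iff_eventuallyEq.1 hz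
  have h2 : fderiv ℝ η z = 0 := by
    rw [h1.fderiv_eq]
    simp
  have h3 : (fun y => η y ^ 2) =ᶠ[nhds z] fun _ => (0 : ℝ) := by
    filter_upwards [h1] with y hy
    rw [hy]
    simp
  have h4 : ∀ v : ℂ, (fun y => fderiv ℝ (fun y => η y ^ 2) y v) =ᶠ[nhds z] fun _ => (0 : ℝ) := by
    intro v
    filter_upwards [h3.fderiv (𝕜 := ℝ)] with y hy
    rw [hy]
    simp
  refine ⟨?_, ?_⟩
  · unfold gradient
    rw [h2]
    simp
  · unfold lap
    rw [(h4 1).fderiv_eq, (h4 Complex.I).fderiv_eq]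
    simp

private theorem la_err (h : CF A ρ R0 C1 c) (δ x K : ℝ)
    (hδ : 0 < δ) (hδ1 : δ ≤ 1 / 2) (hK : 0 < K) (hJ : JJ A c (1 - δ) ≤ δ * x)
    (η : ℂ → ℝ) (h3 : tsupport η ⊆ interior A)
    (h6 : ∀ z ∈ (1 - δ) • A, gradient η z = 0 ∧ lap (fun y => η y ^ 2) z = 0)
    (h7 : ∀ z, ‖gradient η z‖ ≤ K / δ) (h8 : ∀ z, |lap (fun y => η y ^ 2) z| ≤ K / δ ^ 2) :
    (∫ z, (72 * ‖gradient η z‖ ^ 2 + 19 * |lap (fun y => η y ^ 2) z|) * c z ^ 2) ≤
      (72 * K ^ 2 + 19 * K) * (4 * R0 ^ 2) * x := by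
  have hz : ∀ z ∉ A \ (1 - δ) • A,
      (72 * ‖gradient η z‖ ^ 2 + 19 * |lap (fun y => η y ^ 2) z|) * c z ^ 2 = 0 := by
    intro z hz
    have h9 : gradient η z = 0 ∧ lap (fun y => η y ^ 2) z = 0 := by
      by_cases hzt : z ∈ tsupport η
      · apply h6
        by_contra hcon
        exact hz ⟨interior_subset (h3 hzt), hcon⟩
      · exact la_zero η z hzt
    rw [h9.1, h9.2]
    simp
  rw [← setIntegral_eq_integral_of_forall_compl_eq_zero hz]
  have hAm : MeasurableSet A := h.cpt.isClosed.measurableSet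
  have hic2 : IntegrableOn (fun z => c z ^ 2) A := (h.cont.pow 2).integrableOn_compact h.cpt
  have h10 : (∫ z in A \ (1 - δ) • A,
      (72 * ‖gradient η z‖ ^ 2 + 19 * |lap (fun y => η y ^ 2) z|) * c z ^ 2) ≤
      ∫ z in A \ (1 - δ) • A, (72 * K ^ 2 + 19 * K) / δ ^ 2 * c z ^ 2 := by
    refine integral_mono_of_nonneg ?_ ?_ ?_
    · filter_upwards with z
      positivity
    · exact (hic2.mono_set sdiff_subset).const_mul _
    · filter_upwards with z
      refine mul_le_mul_of_nonneg_right ?_ (sq_nonneg _)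
      have h11 : ‖gradient η z‖ ^ 2 ≤ (K / δ) ^ 2 :=
        pow_le_pow_left₀ (norm_nonneg _) (h7 z) 2
      have h12 := h8 z
      have h13 : (72 * K ^ 2 + 19 * K) / δ ^ 2 = 72 * (K / δ) ^ 2 + 19 * (K / δ ^ 2) := by
        field_simp
      rw [h13]
      linarith
  refine h10.trans ?_
  rw [integral_const_mul]
  have h11 := layer_bound h δ hδ hδ1
  calc (72 * K ^ 2 + 19 * K) / δ ^ 2 * ∫ z in A \ (1 - δ) • A, c z ^ 2
      ≤ (72 * K ^ 2 + 19 * K) / δ ^ 2 * (4 * R0 ^ 2 * δ * (δ * x)) := by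
        refine mul_le_mul_of_nonneg_left (h11.trans ?_) (by positivity)
        exact mul_le_mul_of_nonneg_left hJ (by positivity)
    _ = (72 * K ^ 2 + 19 * K) * (4 * R0 ^ 2) * x := by
        field_simp

theorem core_bound {T kap : ℝ} (hP : Par T kap) (h : PData A ρ R0 C1 C2 ε Φ c) (δ x K : ℝ)
    (hδ : 0 < δ) (hδ1 : δ ≤ 1 / 2) (hx : 0 < x) (hK : 0 < K) (hJ : JJ A c (1 - δ) ≤ δ * x)
    (η : ℂ → ℝ) (hη : ContDiff ℝ 2 η) (h1 : ∀ z, |η z| ≤ 1) (h2 : HasCompactSupport η)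
    (h3 : tsupport η ⊆ interior A) (h4 : ∀ z ∈ tsupport η, closedBall z (δ * ρ / 4) ⊆ A)
    (h5 : ∀ z ∈ (1 - δ) • A, η z = 1)
    (h6 : ∀ z ∈ (1 - δ) • A, gradient η z = 0 ∧ lap (fun y => η y ^ 2) z = 0)
    (h7 : ∀ z, ‖gradient η z‖ ≤ K / δ) (h8 : ∀ z, |lap (fun y => η y ^ 2) z| ≤ K / δ ^ 2) :
    2 * kap * (1 - 2 * Real.pi * C1 * (Real.sqrt (4 * (R0 ^ 2 + R0 * ρ) / ρ ^ 2 * x) + x)) -
      (72 * K ^ 2 + 19 * K) * (4 * R0 ^ 2) * x ≤ (1 + (2 * C1 / (δ * ρ / 4) * ε) ^ 2) * Φ := by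
  have hρ := h.ρ0
  have hkap : 0 < kap := by
    rw [hP.kap_eq]
    have e1 := hP.T0
    have e2 := hP.T1
    have e3 : 0 < T := by linarith
    have e4 : 0 < 4 - 3 * T := by linarith
    positivity
  obtain ⟨τ, hτd⟩ : ∃ τ, τ = Real.sqrt (4 * (R0 ^ 2 + R0 * ρ) / ρ ^ 2 * x) + x := ⟨_, rfl⟩
  have hτ : 0 < τ := by
    rw [hτd]
    have := Real.sqrt_nonneg (4 * (R0 ^ 2 + R0 * ρ) / ρ ^ 2 * x)
    linarith
  have hWc := la_Wc h.toCF τ hτ
  have hWA : sup (interior A) c τ ⊆ A := fun z hz => interior_subset hz.1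
  have hWm : MeasurableSet (sup (interior A) c τ) := hWc.isClosed.measurableSet
  have hW1 : ∀ z ∈ sup (interior A) c τ, z ∈ (1 - δ) • A := by
    intro z hz
    rw [mem_smul_iff h.toGeo (1 - δ) (by linarith)]
    by_contra hcon
    have h9 := la_sup h.toCF δ x hδ hδ1 hx hJ z (hWA hz) (not_le.1 hcon).le
    rw [← hτd] at h9
    have h10 : τ ≤ c z := hz.2
    linarith
  have hpl := planar hP (interior A) isOpen_interior h.conv.interior c
    (h.conc.subset interior_subset h.conv.interior) h.smooth τ hWc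
  have har : ar (sup (interior A) c τ) ≤ 1 := (la_ar h.toCF _ hWA).trans h.area
  have hG0 : 0 ≤ ∫ z in sup (interior A) c τ, ‖gradient c z‖ ^ 2 :=
    setIntegral_nonneg hWm fun z _ => sq_nonneg _
  have hGI := la_int h.toCF η hη h2 h3
  have hG : ∫ z in sup (interior A) c τ, ‖gradient c z‖ ^ 2 ≤
      ∫ z, η z ^ 2 * ‖gradient c z‖ ^ 2 := by
    have h9 : ∫ z in sup (interior A) c τ, ‖gradient c z‖ ^ 2 =
        ∫ z in sup (interior A) c τ, η z ^ 2 * ‖gradient c z‖ ^ 2 := by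
      refine setIntegral_congr_fun hWm ?_
      intro z hz
      show ‖gradient c z‖ ^ 2 = η z ^ 2 * ‖gradient c z‖ ^ 2
      rw [h5 z (hW1 z hz)]
      ring
    rw [h9]
    refine setIntegral_le_integral hGI ?_
    filter_upwards with z
    positivity
  have hm := la_mass h τ hτ
  have hkey : kap * (1 - 2 * Real.pi * C1 * τ) ≤ ∫ z, η z ^ 2 * ‖gradient c z‖ ^ 2 := by
    have h9 : Real.pi * kap * (1 / Real.pi - 2 * τ * C1) ≤
        Real.pi * kap * ∫ z in sup (interior A) c τ, (c z - τ) ^ 2 :=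
      mul_le_mul_of_nonneg_left hm (mul_pos Real.pi_pos hkap).le
    have h10 : Real.pi * kap * (1 / Real.pi - 2 * τ * C1) = kap * (1 - 2 * Real.pi * C1 * τ) := by
      have := Real.pi_ne_zero
      field_simp
    have h11 : ar (sup (interior A) c τ) * ∫ z in sup (interior A) c τ, ‖gradient c z‖ ^ 2 ≤
        1 * ∫ z in sup (interior A) c τ, ‖gradient c z‖ ^ 2 :=
      mul_le_mul_of_nonneg_right har hG0
    rw [h10] at h9
    linarith
  have hsh := h.sharp η (δ * ρ / 4) hη h1 h2 h3 (by positivity) h4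
  have herr := la_err h.toCF δ x K hδ hδ1 hK hJ η h3 h6 h7 h8
  rw [← hτd]
  linarith

end Pool.Agent.HAS
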