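import Pool.Agent.HAS.LimA

/-!
# The abstract lower bound (module LimB)

`core_bound` is applied at a good depth; the number of scales and then the parameter `ε0` are chosen.
-/

set_option autoImplicit false

namespace Pool.Agent.HAS

open MeasureTheory Metric Set

theorem core {T kap : ℝ} (hP : Par T kap) (ρ R0 C1 C2 δ : ℝ) (hρ : 0 < ρ) (hδ : 0 < δ) :
    ∃ ε0 : ℝ, 0 < ε0 ∧ ∀ (ε : ℝ), 0 < ε → ε ≤ ε0 → ∀ (A : Set ℂ) (c : ℂ → ℝ) (Φ : ℝ),
      PData A ρ R0 C1 C2 ε Φ c → 2 * kap - δ ≤ Φ := by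
  have hk : 0 < kap := by
    rw [hP.kap_eq]
    have h0 := hP.T0
    have h1 := hP.T1
    have h2 : 0 < T * (4 - 3 * T) := mul_pos (by linarith) (by linarith)
    positivity
  obtain ⟨K, hK, hcut⟩ := cutoff ρ R0 hρ
  -- the left side
  have hlim : Filter.Tendsto (fun x : ℝ => 2 * kap * (1 - 2 * Real.pi * C1 *
      (Real.sqrt (4 * (R0 ^ 2 + R0 * ρ) / ρ ^ 2 * x) + x)) -
      (72 * K ^ 2 + 19 * K) * (4 * R0 ^ 2) * x) (nhds 0) (nhds (2 * kap)) := by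
    have hc : Continuous (fun x : ℝ => 2 * kap * (1 - 2 * Real.pi * C1 *
      (Real.sqrt (4 * (R0 ^ 2 + R0 * ρ) / ρ ^ 2 * x) + x)) -
      (72 * K ^ 2 + 19 * K) * (4 * R0 ^ 2) * x) := by fun_prop
    have h := hc.tendsto 0
    have h0 : 2 * kap * (1 - 2 * Real.pi * C1 *
      (Real.sqrt (4 * (R0 ^ 2 + R0 * ρ) / ρ ^ 2 * 0) + 0)) -
      (72 * K ^ 2 + 19 * K) * (4 * R0 ^ 2) * 0 = 2 * kap := by
      rw [mul_zero, Real.sqrt_zero]
      ring
    rw [h0] at h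
    exact h
  have hev := hlim.eventually (lt_mem_nhds (show 2 * kap - δ / 2 < 2 * kap by linarith))
  have hseq := tendsto_const_div_atTop_nhds_zero_nat (96 * max C2 0 + 1)
  obtain ⟨N, hN1, hN⟩ := ((hseq.eventually hev).and (Filter.eventually_ge_atTop 1)).exists
  have hNp : (0 : ℝ) < (N : ℝ) := by exact_mod_cast hN
  obtain ⟨x, hx⟩ : ∃ x : ℝ, x = (96 * max C2 0 + 1) / (N : ℝ) := ⟨_, rfl⟩
  rw [← hx] at hN1
  have hC2 : 0 ≤ max C2 0 := le_max_right _ _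
  have hx0 : 0 < x := by
    rw [hx]
    positivity
  -- the constants
  obtain ⟨C, hC⟩ : ∃ C : ℝ, C = max C1 0 + 1 := ⟨_, rfl⟩
  have hC0 : 0 < C := by
    rw [hC]
    have := le_max_right C1 0
    linarith
  have hC1 : C1 ≤ C := by
    rw [hC]
    have := le_max_left C1 0
    linarith
  obtain ⟨Y, hY⟩ : ∃ Y : ℝ, Y = 2 * C / ((1 / 4) ^ N * ρ / 4) := ⟨_, rfl⟩
  have hY0 : 0 < Y := by
    rw [hY]
    positivity
  obtain ⟨s, hs⟩ : ∃ s : ℝ, s = min 1 (δ / (4 * kap)) := ⟨_, rfl⟩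
  have hs0 : 0 < s := by
    rw [hs]
    exact lt_min one_pos (by positivity)
  have hs1 : s ≤ 1 := by
    rw [hs]
    exact min_le_left _ _
  have hs2 : s * (2 * kap) ≤ δ / 2 := by
    have h1 : s ≤ δ / (4 * kap) := by
      rw [hs]
      exact min_le_right _ _
    have h2 : s * (2 * kap) ≤ δ / (4 * kap) * (2 * kap) := mul_le_mul_of_nonneg_right h1 (by linarith)
    refine h2.trans (le_of_eq ?_)
    field_simp
    ring
  refine ⟨min (ρ * (1 / 4) ^ N / C) (s / Y), lt_min (by positivity) (by positivity), ?_⟩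
  intro ε hε hεle A c Φ h
  have hε1 : ε * C ≤ ρ * (1 / 4) ^ N := by
    have h1 := hεle.trans (min_le_left _ _)
    rwa [le_div_iff₀ hC0] at h1
  have hε2 : Y * ε ≤ s := by
    have h1 := hεle.trans (min_le_right _ _)
    rw [le_div_iff₀ hY0] at h1
    linarith
  have h0A : (0 : ℂ) ∈ A := h.inner (mem_closedBall_self hρ.le)
  have hC1' : 0 ≤ C1 := (h.nonneg 0 h0A).trans (h.le 0 h0A)
  obtain ⟨j, hj1, hj2, hJ⟩ := good_depth h.toCF C2 ε hε h.edgeI h.edge N hN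
    ((mul_le_mul_of_nonneg_left hC1 hε.le).trans hε1)
  have hd0 : (0 : ℝ) < (1 / 2) ^ j := by positivity
  have hd1 : (1 / 2 : ℝ) ^ j ≤ 1 / 2 := by
    have h1 : (1 / 2 : ℝ) ^ j ≤ (1 / 2 : ℝ) ^ 1 :=
      pow_le_pow_of_le_one (by norm_num) (by norm_num) (hN.trans hj1)
    rwa [pow_one] at h1
  have hd2 : (1 / 4 : ℝ) ^ N ≤ (1 / 2) ^ j := by
    have h1 : (1 / 4 : ℝ) ^ N = (1 / 2) ^ (2 * N) := by
      rw [pow_mul]
      norm_num
    rw [h1]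
    exact pow_le_pow_of_le_one (by norm_num) (by norm_num) hj2.le
  have hJ' : JJ A c (1 - (1 / 2) ^ j) ≤ (1 / 2) ^ j * x := by
    refine hJ.trans (mul_le_mul_of_nonneg_left ?_ hd0.le)
    rw [hx]
    refine div_le_div_of_nonneg_right ?_ hNp.le
    have := le_max_left C2 0
    linarith
  obtain ⟨η, e1, e2, e3, e4, e5, e6, e7, e8, e9⟩ := hcut A h.toGeo ((1 / 2) ^ j) hd0 hd1
  have hcb := core_bound hP h ((1 / 2) ^ j) x K hd0 hd1 hx0 hK hJ' η e1 e2 e3 e4 e5 e6 e7 e8 e9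
  obtain ⟨y, hy⟩ : ∃ y : ℝ, y = 2 * C1 / ((1 / 2) ^ j * ρ / 4) * ε := ⟨_, rfl⟩
  rw [← hy] at hcb
  have hy0 : 0 ≤ y := by
    rw [hy]
    positivity
  have hy1 : y ≤ s := by
    rw [hy]
    refine le_trans (mul_le_mul_of_nonneg_right ?_ hε.le) hε2
    rw [hY]
    refine div_le_div₀ (by positivity) (by linarith) (by positivity) ?_
    have h1 : (1 / 4 : ℝ) ^ N * ρ ≤ (1 / 2) ^ j * ρ := mul_le_mul_of_nonneg_right hd2 hρ.le
    linarith
  have hy2 : y ^ 2 ≤ s := by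
    calc y ^ 2 ≤ s ^ 2 := pow_le_pow_left₀ hy0 hy1 2
      _ = s * s := sq s
      _ ≤ s * 1 := mul_le_mul_of_nonneg_left hs1 hs0.le
      _ = s := mul_one s
  have hy3 : y ^ 2 * (2 * kap) ≤ δ / 2 :=
    (mul_le_mul_of_nonneg_right hy2 (by linarith)).trans hs2
  have hN2 : 2 * kap - δ / 2 < 2 * kap * (1 - 2 * Real.pi * C1 *
      (Real.sqrt (4 * (R0 ^ 2 + R0 * ρ) / ρ ^ 2 * x) + x)) -
      (72 * K ^ 2 + 19 * K) * (4 * R0 ^ 2) * x := hN1
  by_cases hΦ : 2 * kap ≤ Φ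
  · linarith
  · rw [not_le] at hΦ
    have h1 : y ^ 2 * Φ ≤ y ^ 2 * (2 * kap) := mul_le_mul_of_nonneg_left hΦ.le (sq_nonneg y)
    have h2 : (1 + y ^ 2) * Φ = Φ + y ^ 2 * Φ := by ring
    rw [h2] at hcb
    linarith

end Pool.Agent.HAS
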