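import Pool.Agent.HAS.StrE
import Pool.Agent.HAS.Dat
import Pool.Agent.HAS.InR
import Pool.Agent.HAS.LimB

/-!
# The lower bound for smooth bodies (module LimC)

PLAN.  `C0 = 2 kap`.  If `F K * V2 K ≥ 2 kap` there is nothing to do; otherwise `structure_thm` gives `g`; `L = g K` is
`wulff (h ∘ g.symm)` and `h ∘ g.symm` is a smooth support function (`SmoothSupp`: chain rule for linear isometries;
hess conjugates: prove `smoothSupp_comp`; HVM/Area1 has a similar proof for restrictions; TStat's `V2_isom` proof by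
helper57 may contain it).  `0 ∈ L`, so `‖p1 x‖ ≤ C1 √S`, `‖p2 x‖ ≤ C1/√S` on `L`.  `A'' = {z | √S • z ∈ sh1 L}` is compact
convex, in `closedBall 0 C1`; `FibB.mass` and `cf ≤ C1/√S`: `1 ≤ π (C1²/S) ar (sh1 L) = π C1² ar A''`.  `inradius` with
`R = C1`, `a = 1/(π C1²)` gives `z0 ∈ A''`, `ρ`; `R0 = 2 C1`.  `pdata` and `core` with `C2 = 2 kap + π C1²/2` (monotone
in `C2`: `F L * S + π C1²/2 ≤ C2`), `ε = 1/S ≤ ε0` if `S ≥ 1/ε0 =: S0`.
-/

set_option autoImplicit false

namespace Pool.Agent.HAS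

open MeasureTheory Metric Set
open Pool.Agent.Helper85.Herm Pool.Agent.Helper85.Cap Pool.Agent.HVM

private theorem limC_symm_ne (g : C2 ≃ₗᵢ[ℝ] C2) {w : C2} (hw : w ≠ 0) : g.symm w ≠ 0 := by
  intro h0
  apply hw
  have h1 := g.apply_symm_apply w
  rw [h0, map_zero] at h1
  exact h1.symm

private theorem limC_grad {h : C2 → ℝ} (hs : SmoothSupp h) (g : C2 ≃ₗᵢ[ℝ] C2) {w : C2} (hw : w ≠ 0) :
    gradient (fun y => h (g.symm y)) w = g (gradient h (g.symm w)) := by
  have h1 := hs.hasGradientAt (limC_symm_ne g hw)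
  have h0 : HasFDerivAt (fun y : C2 => g.symm y) (g.symm.toContinuousLinearEquiv : C2 →L[ℝ] C2) w :=
    (g.symm.toContinuousLinearEquiv : C2 →L[ℝ] C2).hasFDerivAt
  have h2 := (hasGradientAt_iff_hasFDerivAt.mp h1).comp w h0
  apply HasGradientAt.gradient
  rw [hasGradientAt_iff_hasFDerivAt]
  refine h2.congr_fderiv ?_
  ext y
  have h3 := g.inner_map_map (gradient h (g.symm w)) (g.symm y)
  rw [g.apply_symm_apply] at h3
  simpa using h3.symm

private theorem limC_hess {h : C2 → ℝ} (hs : SmoothSupp h) (g : C2 ≃ₗᵢ[ℝ] C2) {w : C2} (hw : w ≠ 0)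
    (v : C2) :
    hess (fun y => h (g.symm y)) w v = g (hess h (g.symm w) (g.symm v)) := by
  have h1 := hs.hasFDerivAt_gradient (limC_symm_ne g hw)
  have h0 : HasFDerivAt (fun y : C2 => g.symm y) (g.symm.toContinuousLinearEquiv : C2 →L[ℝ] C2) w :=
    (g.symm.toContinuousLinearEquiv : C2 →L[ℝ] C2).hasFDerivAt
  have h2 := h1.comp w h0
  have h3 := (g.toContinuousLinearEquiv : C2 →L[ℝ] C2).hasFDerivAt.comp w h2
  have h4 : gradient (fun y => h (g.symm y)) =ᶠ[nhds w]
      (⇑(g.toContinuousLinearEquiv : C2 →L[ℝ] C2) ∘ (gradient h ∘ fun y : C2 => g.symm y)) := by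
    filter_upwards [isOpen_compl_singleton.mem_nhds hw] with y hy
    exact limC_grad hs g hy
  have h5 := (h3.congr_of_eventuallyEq h4).fderiv
  unfold hess at h5 ⊢
  rw [h5]
  rfl

theorem smoothSupp_comp {h : C2 → ℝ} (hs : SmoothSupp h) (g : C2 ≃ₗᵢ[ℝ] C2) :
    SmoothSupp (fun w => h (g.symm w)) ∧ wulff (fun w => h (g.symm w)) = g '' wulff h := by
  refine ⟨⟨?_, ?_, ?_, ?_, ?_, ?_⟩, ?_⟩
  · exact hs.smooth.comp g.symm.contDiff.contDiffOn (fun w hw => limC_symm_ne g hw)
  · simp only [map_zero]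
    exact hs.zero
  · intro c w hc
    simp only [map_smul]
    exact hs.homog c _ hc
  · intro w hw
    exact hs.pos _ (limC_symm_ne g hw)
  · intro v w
    simp only [map_add]
    exact hs.sub _ _
  · intro w v hw hvw hv
    rw [limC_hess hs g hw v]
    have h1 := g.inner_map_map (hess h (g.symm w) (g.symm v)) (g.symm v)
    rw [g.apply_symm_apply] at h1
    rw [h1]
    refine hs.strict _ _ (limC_symm_ne g hw) ?_ (limC_symm_ne g hv)
    rw [g.symm.inner_map_map]
    exact hvw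
  · ext x
    constructor
    · intro hx
      refine ⟨g.symm x, ?_, g.apply_symm_apply x⟩
      intro w
      have h1 := hx (g w)
      simp only [g.symm_apply_apply] at h1
      have h2 := g.inner_map_map (g.symm x) w
      rw [g.apply_symm_apply] at h2
      rw [← h2]
      exact h1
    · rintro ⟨y, hy, rfl⟩ w
      have h1 := hy (g.symm w)
      have h2 := g.inner_map_map y (g.symm w)
      rw [g.apply_symm_apply] at h2
      rw [h2]
      exact h1

private theorem limC_nonneg {h : C2 → ℝ} (hs : SmoothSupp h) (w : C2) : 0 ≤ h w := by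
  by_cases hw : w = 0
  · rw [hw, hs.zero]
  · exact (hs.pos w hw).le

private theorem limC_zero_mem {h : C2 → ℝ} (hs : SmoothSupp h) : (0 : C2) ∈ wulff h := by
  intro w
  rw [inner_zero_left]
  exact limC_nonneg hs w

private theorem limC_p1_zero : p1 (0 : C2) = 0 := by
  apply Complex.ext <;> simp [p1]

private theorem limC_p2_zero : p2 (0 : C2) = 0 := by
  apply Complex.ext <;> simp [p2]

/-- the image of a body under a linear isometry -/
private noncomputable def limC_map (g : C2 ≃ₗᵢ[ℝ] C2) (K : Body) : Body where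
  carrier := g '' pts K
  convex' := K.convex.linear_image (g.toLinearEquiv : C2 →ₗ[ℝ] C2)
  isCompact' := K.isCompact.image g.continuous
  nonempty' := K.nonempty.image _

private theorem limC_pts (g : C2 ≃ₗᵢ[ℝ] C2) (K : Body) : pts (limC_map g K) = g '' pts K := rfl

private theorem limC_vol (g : C2 ≃ₗᵢ[ℝ] C2) (K : Body) (hK : UnitVolume K) :
    UnitVolume (limC_map g K) := by
  unfold UnitVolume at hK ⊢
  have h1 : IsCompact (pts K) := K.isCompact
  rw [limC_pts, g.image_eq_preimage_symm,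
    g.symm.measurePreserving.measure_preimage h1.measurableSet.nullMeasurableSet]
  exact hK

open scoped Pointwise in
/-- the area of the rescaled shadow -/
private theorem limC_area (A : Set ℂ) (s : ℝ) (hs : 0 < s) :
    ar A = s ^ 2 * ar {z : ℂ | s • z ∈ A} := by
  have h1 : {z : ℂ | s • z ∈ A} = (s⁻¹ : ℝ) • A := by
    ext z
    rw [Set.mem_inv_smul_set_iff₀ hs.ne']
    rfl
  have h2 : Module.finrank ℝ ℂ = 2 := Complex.finrank_real_complex
  unfold ar
  rw [h1, Measure.addHaar_smul, h2, ENNReal.toReal_mul, ENNReal.toReal_ofReal (abs_nonneg _),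
    abs_of_pos (by positivity)]
  field_simp

private theorem limC_mass (L : Body) (hL : UnitVolume L) (S C1 : ℝ) (hS : 0 < S) (hC1 : 0 < C1)
    (hp2 : ∀ w ∈ pts L, ‖p2 w‖ ≤ C1 / Real.sqrt S) :
    1 / (Real.pi * C1 ^ 2) ≤ ar {z : ℂ | Real.sqrt S • z ∈ sh1 L} := by
  have hs : 0 < Real.sqrt S := Real.sqrt_pos.mpr hS
  obtain ⟨hint, hm⟩ := mass L
  have hv : (volume (pts L)).toReal = 1 := by
    rw [show volume (pts L) = 1 from hL, ENNReal.toReal_one]
  rw [hv] at hm
  have hfin : volume (sh1 L) ≠ ⊤ := (sh1_compact L).measure_lt_top.ne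
  have h1 : ∫ z in sh1 L, cf L z ^ 2 ≤ ∫ z in sh1 L, C1 ^ 2 / S := by
    refine setIntegral_mono_on hint ?_ (sh1_compact L).measurableSet ?_
    · exact integrableOn_const hfin
    · intro z hz
      have h2 := cf_le L _ hp2 z hz
      have h3 := cf_nonneg L z hz
      have h4 : C1 ^ 2 / S = (C1 / Real.sqrt S) ^ 2 := by
        rw [div_pow, Real.sq_sqrt hS.le]
      rw [h4]
      exact pow_le_pow_left₀ h3 h2 2
  have h5 : ∫ z in sh1 L, C1 ^ 2 / S = ar (sh1 L) * (C1 ^ 2 / S) := by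
    rw [setIntegral_const, smul_eq_mul]
    rfl
  have h6 := limC_area (sh1 L) (Real.sqrt S) hs
  rw [Real.sq_sqrt hS.le] at h6
  have h7 : 1 ≤ Real.pi * (ar (sh1 L) * (C1 ^ 2 / S)) := by
    rw [← h5]
    exact hm.trans (mul_le_mul_of_nonneg_left h1 Real.pi_pos.le)
  have h8 : Real.pi * (ar (sh1 L) * (C1 ^ 2 / S)) =
      ar {z : ℂ | Real.sqrt S • z ∈ sh1 L} * (Real.pi * C1 ^ 2) := by
    rw [h6]
    field_simp
  rw [h8] at h7
  rw [div_le_iff₀ (by have := Real.pi_pos; positivity)]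
  exact h7

theorem lower_smooth {T kap : ℝ} (hP : Par T kap) (δ : ℝ) (hδ : 0 < δ) : ∃ S0 : ℝ, 0 < S0 ∧
    ∀ (h : C2 → ℝ) (K : Body), SmoothSupp h → pts K = wulff h → UnitVolume K → S0 ≤ V2 K →
      2 * kap - δ ≤ F K * V2 K := by
  obtain ⟨C1, hC1, hstr⟩ := structure_thm (2 * kap)
  have hpi := Real.pi_pos
  obtain ⟨ρ, hρ, hin⟩ := inradius C1 (1 / (Real.pi * C1 ^ 2)) (by positivity)
  obtain ⟨ε0, hε0, hcore⟩ := core hP ρ (2 * C1) C1 (2 * kap + Real.pi * C1 ^ 2 / 2) δ hρ hδ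
  refine ⟨1 / ε0, by positivity, ?_⟩
  intro h K hs hK hvol hS0
  have hS : 0 < V2 K := lt_of_lt_of_le (by positivity) hS0
  by_cases hbig : 2 * kap ≤ F K * V2 K
  · linarith
  have hsmall : F K * V2 K ≤ 2 * kap := (not_le.mp hbig).le
  obtain ⟨g, hgJ, hg⟩ := hstr K hvol hsmall
  obtain ⟨hs', hw⟩ := smoothSupp_comp hs g
  set S := V2 K with hSdef
  have hsq : 0 < Real.sqrt S := Real.sqrt_pos.mpr hS
  have hLp : pts (limC_map g K) = g '' pts K := limC_pts g K
  have hLw : pts (limC_map g K) = wulff (fun w => h (g.symm w)) := by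
    rw [hw, hLp, hK]
  have hLv : UnitVolume (limC_map g K) := limC_vol g K hvol
  have hLV : V2 (limC_map g K) = S := V2_isom g K _ hLp
  have hLF : F (limC_map g K) = F K := (isHermVal_muab 1 0).unitary g hgJ K _ hLp
  have h0K : (0 : C2) ∈ pts K := by
    rw [hK]
    exact limC_zero_mem hs
  have hb : ∀ w ∈ pts (limC_map g K), ‖p1 w‖ ≤ C1 * Real.sqrt S ∧ ‖p2 w‖ ≤ C1 / Real.sqrt S := by
    intro w hw'
    rw [hLp] at hw'
    obtain ⟨x, hx, rfl⟩ := hw'
    have h1 := hg x hx 0 h0K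
    rw [map_zero, limC_p1_zero, limC_p2_zero, sub_zero, sub_zero] at h1
    exact h1
  set L := limC_map g K with hLdef
  have hmass := limC_mass L hLv S C1 hS hC1 (fun w hw' => (hb w hw').2)
  have hAc : IsCompact {z : ℂ | Real.sqrt S • z ∈ sh1 L} := by
    have h1 : IsCompact ((Homeomorph.smulOfNeZero (Real.sqrt S) hsq.ne') ⁻¹' (sh1 L)) :=
      (Homeomorph.isCompact_preimage _).mpr (sh1_compact L)
    exact h1
  have hAv : Convex ℝ {z : ℂ | Real.sqrt S • z ∈ sh1 L} := by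
    have h1 := (sh1_convex L).is_linear_preimage (f := fun z : ℂ => Real.sqrt S • z)
      ⟨fun x y => smul_add _ _ _, fun c x => smul_comm _ _ _⟩
    exact h1
  have hAb : {z : ℂ | Real.sqrt S • z ∈ sh1 L} ⊆ closedBall 0 C1 := by
    rintro z ⟨w, hw', hwz⟩
    have h1 := (hb w hw').1
    rw [hwz, norm_smul, Real.norm_of_nonneg hsq.le, mul_comm] at h1
    rw [mem_closedBall_zero_iff]
    exact le_of_mul_le_mul_right h1 hsq
  obtain ⟨z0, hz0, hz0b⟩ := hin _ hAc hAv hAb hmass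
  have hout : {z : ℂ | Real.sqrt S • z ∈ sh1 L} ⊆ closedBall z0 (2 * C1) := by
    intro z hz
    have h1 := hAb hz
    have h2 := hAb hz0
    rw [mem_closedBall_zero_iff] at h1 h2
    rw [mem_closedBall, dist_eq_norm]
    calc ‖z - z0‖ ≤ ‖z‖ + ‖z0‖ := norm_sub_le _ _
      _ ≤ 2 * C1 := by linarith
  have hpd := pdata hs' L hLw S C1 hS hLv hLV hC1.le (fun w hw' => (hb w hw').2) z0 ρ (2 * C1) hρ
    hz0b hout
  have hpd2 : PData {z | Real.sqrt S • (z + z0) ∈ sh1 L} ρ (2 * C1) C1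
      (2 * kap + Real.pi * C1 ^ 2 / 2) (1 / S) (F L * S)
      (fun z => Real.sqrt S * cf L (Real.sqrt S • (z + z0))) :=
    { hpd with
      edge := hpd.edge.trans (by rw [hLF]; linarith) }
  have hε : 1 / S ≤ ε0 := by
    rw [div_le_iff₀ hS]
    rw [div_le_iff₀ hε0] at hS0
    linarith
  have hfin := hcore (1 / S) (by positivity) hε _ _ _ hpd2
  rw [hLF] at hfin
  exact hfin

end Pool.Agent.HAS
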