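import Pool.Agent.HAS.LimC

/-!
# The lower bound for all bodies (module LimD)

`K` of volume one has interior points; translate so that `closedBall 0 r ⊆ K`; smooth approximations,
rescaled to volume one; limit.  Then the numerical estimate.
-/

set_option autoImplicit false

namespace Pool.Agent.HAS

open MeasureTheory Metric Set Filter
open Pool.Agent.Helper85.Herm Pool.Agent.Helper85.Cap Pool.Agent.HVM

/-! ### scaling of smooth bodies -/

private theorem grad_smul (c : ℝ) (h : C2 → ℝ) (w : C2) :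
    gradient (fun w => c * h w) w = c • gradient h w := by
  have h1 : (fun w => c * h w) = c • h := rfl
  rw [h1]
  unfold gradient
  by_cases hc : c = 0
  · subst hc
    simp
  · have : Invertible c := invertibleOfNonzero hc
    rw [fderiv_const_smul_of_invertible, map_smulₛₗ]
    simp

private theorem hess_smul (c : ℝ) (h : C2 → ℝ) (w : C2) :
    hess (fun w => c * h w) w = c • hess h w := by
  unfold hess
  have h1 : gradient (fun w => c * h w) = c • gradient h := by
    funext w
    exact grad_smul c h w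
  rw [h1]
  by_cases hc : c = 0
  · subst hc
    simp
  · have : Invertible c := invertibleOfNonzero hc
    rw [fderiv_const_smul_of_invertible]

private theorem smoothSupp_smul' {h : C2 → ℝ} (hs : SmoothSupp h) {c : ℝ} (hc : 0 < c) :
    SmoothSupp fun w => c * h w where
  smooth := contDiffOn_const.mul hs.smooth
  zero := by rw [hs.zero, mul_zero]
  homog := fun t w ht => by rw [hs.homog t w ht]; ring
  pos := fun w hw => mul_pos hc (hs.pos w hw)
  sub := fun v w => by
    have := hs.sub v w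
    nlinarith
  strict := fun w v hw hv hv0 => by
    have h1 := hs.strict w v hw hv hv0
    rw [hess_smul, smul_apply, inner_smul_left]
    exact mul_pos hc h1

private theorem wulff_smul' (h : C2 → ℝ) {c : ℝ} (hc : 0 < c) :
    wulff (fun w => c * h w) = (fun x => c • x) '' wulff h := by
  ext x
  constructor
  · intro hx
    refine ⟨c⁻¹ • x, fun w => ?_, ?_⟩
    · have h1 : inner ℝ x w ≤ c * h w := hx w
      rw [real_inner_smul_left]
      calc c⁻¹ * inner ℝ x w ≤ c⁻¹ * (c * h w) := by gcongr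
        _ = h w := by field_simp
    · simp only [smul_smul]
      rw [mul_inv_cancel₀ hc.ne', one_smul]
  · rintro ⟨y, hy, rfl⟩ w
    have h1 : inner ℝ y w ≤ h w := hy w
    simp only
    rw [real_inner_smul_left]
    gcongr

private theorem exists_scale (K : Body) (c : ℝ) : ∃ L : Body, pts L = (fun x => c • x) '' pts K := by
  refine ⟨⟨(fun x => c • x) '' pts K, ?_, ?_, ?_⟩, rfl⟩
  · exact K.convex.smul c
  · exact K.isCompact.image (continuous_const_smul c)
  · exact K.nonempty.image _

private theorem vol_scale (K L : Body) {c : ℝ} (hc : 0 < c)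
    (hL : pts L = (fun x => c • x) '' pts K) :
    volume (pts L) = ENNReal.ofReal (c ^ 4) * volume (pts K) := by
  rw [hL, Set.image_smul, Measure.addHaar_smul, finrank_euclideanSpace_fin,
    abs_of_pos (pow_pos hc 4)]

/-! ### the interior -/

private theorem exists_ball (K : Body) (hK : UnitVolume K) : ∃ (x : C2) (r : ℝ), 0 < r ∧
    closedBall x r ⊆ pts K := by
  have hint : (interior (pts K)).Nonempty := by
    by_contra hcon
    rw [Set.not_nonempty_iff_eq_empty] at hcon
    have h1 : pts K ⊆ frontier (pts K) := by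
      rw [frontier, hcon, Set.sdiff_empty]
      exact subset_closure
    have h2 : volume (pts K) ≤ volume (frontier (pts K)) := measure_mono h1
    have h3 : volume (frontier (pts K)) = 0 := Convex.addHaar_frontier volume K.convex
    rw [h3] at h2
    unfold UnitVolume at hK
    rw [hK] at h2
    exact absurd h2 (by norm_num)
  obtain ⟨x, hx⟩ := hint
  obtain ⟨r, hr, hball⟩ := Metric.isOpen_iff.1 isOpen_interior x hx
  refine ⟨x, r / 2, by positivity, ?_⟩
  exact ((closedBall_subset_ball (by linarith)).trans hball).trans interior_subset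

private theorem mu_cont (a b : ℝ) {L : ℕ → Body} {K : Body} (h : Tendsto L atTop (nhds K)) :
    Tendsto (fun n => muab a b (L n)) atTop (nhds (muab a b K)) :=
  ((isHermVal_muab a b).continuous.tendsto K).comp h

theorem lower_all {T kap : ℝ} (hP : Par T kap) (δ : ℝ) (hδ : 0 < δ) : ∃ S0 : ℝ, 0 < S0 ∧
    ∀ K : Body, UnitVolume K → S0 ≤ V2 K → 2 * kap - δ ≤ F K * V2 K := by
  obtain ⟨S1, hS1, hlow⟩ := lower_smooth hP δ hδ
  refine ⟨S1 + 1, by positivity, fun K hK hV => ?_⟩
  obtain ⟨x0, r, hr, hball⟩ := exists_ball K hK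
  obtain ⟨K', hK'⟩ := exists_translate K (-x0)
  have hvolK' : volume (pts K') = 1 := by
    rw [hK']
    have e : (fun x => x + -x0) '' pts K = (fun x => x + x0) ⁻¹' pts K := by
      ext x
      constructor
      · rintro ⟨y, hy, rfl⟩
        simpa using hy
      · intro hx
        exact ⟨x + x0, hx, by simp⟩
    rw [e, measure_preimage_add_right]
    exact hK
  have hmu : ∀ a b, muab a b K' = muab a b K := fun a b =>
    (isHermVal_muab a b).translation K K' (-x0) hK'
  have hball' : closedBall 0 r ⊆ pts K' := by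
    intro y hy
    rw [hK']
    refine ⟨y + x0, hball ?_, by simp⟩
    rw [mem_closedBall, dist_eq_norm, add_sub_cancel_right]
    simpa using hy
  obtain ⟨L, h, hs, hL, hsub, hlim⟩ := exists_smooth K' r hr hball'
  set v : ℕ → ℝ := fun n => (volume (pts (L n))).toReal with hv
  have hvlim : Tendsto v atTop (nhds 1) := by
    have h1 : Tendsto v atTop (nhds (volume (pts K')).toReal) :=
      ((continuous_volume_convexBody (V := C2) volume).tendsto K').comp hlim
    rwa [hvolK', ENNReal.toReal_one] at h1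
  have hfin : ∀ n, volume (pts (L n)) ≠ ⊤ := fun n => (L n).isCompact.measure_lt_top.ne
  have hv1 : ∀ n, 1 ≤ v n := by
    intro n
    have h1 : volume (pts K') ≤ volume (pts (L n)) := measure_mono (hsub n)
    rw [hvolK'] at h1
    have h2 := ENNReal.toReal_mono (hfin n) h1
    rwa [ENNReal.toReal_one] at h2
  have hv0 : ∀ n, 0 < v n := fun n => lt_of_lt_of_le one_pos (hv1 n)
  set c : ℕ → ℝ := fun n => Real.sqrt (Real.sqrt (v n)⁻¹) with hc
  have hc0 : ∀ n, 0 < c n := fun n => Real.sqrt_pos.2 (Real.sqrt_pos.2 (inv_pos.2 (hv0 n)))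
  have hc4 : ∀ n, c n ^ 4 = (v n)⁻¹ := by
    intro n
    have e1 : c n ^ 4 = (c n ^ 2) ^ 2 := by ring
    rw [e1, hc]
    simp only
    rw [Real.sq_sqrt (Real.sqrt_nonneg _), Real.sq_sqrt (inv_pos.2 (hv0 n)).le]
  have hclim : Tendsto c atTop (nhds 1) := by
    have h1 : Tendsto (fun n => (v n)⁻¹) atTop (nhds (1 : ℝ)⁻¹) := hvlim.inv₀ one_ne_zero
    have h2 := (h1.sqrt).sqrt
    rw [inv_one, Real.sqrt_one, Real.sqrt_one] at h2
    exact h2
  choose M hM using fun n => exists_scale (L n) (c n)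
  have hMvol : ∀ n, UnitVolume (M n) := by
    intro n
    unfold UnitVolume
    rw [vol_scale (L n) (M n) (hc0 n) (hM n), hc4 n, ← ENNReal.ofReal_toReal (hfin n),
      ← ENNReal.ofReal_mul (inv_pos.2 (hv0 n)).le]
    change ENNReal.ofReal ((v n)⁻¹ * v n) = 1
    rw [inv_mul_cancel₀ (hv0 n).ne', ENNReal.ofReal_one]
  have hMmu : ∀ a b n, muab a b (M n) = c n ^ 2 * muab a b (L n) := fun a b n =>
    (isHermVal_muab a b).homogeneous (c n) (hc0 n).le (L n) (M n) (hM n)
  have hMlim : ∀ a b, Tendsto (fun n => muab a b (M n)) atTop (nhds (muab a b K)) := by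
    intro a b
    have h1 := (hclim.pow 2).mul (mu_cont a b hlim)
    rw [one_pow, one_mul, hmu] at h1
    refine h1.congr fun n => (hMmu a b n).symm
  have hV2lim : Tendsto (fun n => V2 (M n)) atTop (nhds (V2 K)) := hMlim 1 1
  have hFlim : Tendsto (fun n => F (M n)) atTop (nhds (F K)) := hMlim 1 0
  have hev : ∀ᶠ n in atTop, S1 ≤ V2 (M n) := by
    have h1 : S1 < V2 K := by linarith
    exact (hV2lim.eventually (lt_mem_nhds h1)).mono fun n hn => le_of_lt hn
  refine ge_of_tendsto (hFlim.mul hV2lim) ?_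
  filter_upwards [hev] with n hn
  refine hlow (fun w => c n * h n w) (M n) (smoothSupp_smul' (hs n) (hc0 n)) ?_ (hMvol n) hn
  rw [wulff_smul' (h n) (hc0 n), hM n, hL n]

private theorem kap_pos {T kap : ℝ} (hP : Par T kap) : 0 < kap := by
  rw [hP.kap_eq]
  have h0 := hP.T0
  have h1 := hP.T1
  have h2 : 0 < T := by linarith
  have h3 : 0 < 4 - 3 * T := by linarith
  positivity

/-- the numerical step for large `V2` -/
private theorem num_a {X η a b f v R : ℝ} (hX : 0 < X) (hη0 : 0 < η) (hηX : η ≤ X) (ha : 0 < a)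
    (hb : 0 < b) (hf : 0 ≤ f) (hv : 0 ≤ v) (hR : 0 < R) (hRa : R * b ≤ a) (hR2 : 2 * X ≤ R * η)
    (hR1 : 1 ≤ R) (hfv : X - η / 2 ≤ f * v) :
    2 * (Real.sqrt X - η / Real.sqrt X) * Real.sqrt (a * b) ≤ (a - b) * f + b * v := by
  have hab : b ≤ a := by nlinarith
  have hsX : 0 < Real.sqrt X := Real.sqrt_pos.2 hX
  have hsX2 : Real.sqrt X ^ 2 = X := Real.sq_sqrt hX.le
  have hL0 : 0 ≤ 2 * (Real.sqrt X - η / Real.sqrt X) * Real.sqrt (a * b) := by
    have h1 : η / Real.sqrt X ≤ Real.sqrt X := by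
      rw [div_le_iff₀ hsX]
      nlinarith
    have h2 := Real.sqrt_nonneg (a * b)
    nlinarith [mul_nonneg (sub_nonneg.2 h1) h2]
  have hR0 : 0 ≤ (a - b) * f + b * v := by
    have := mul_nonneg (sub_nonneg.2 hab) hf
    have := mul_nonneg hb.le hv
    linarith
  apply le_of_sq_le_sq _ hR0
  have h3 : (2 * (Real.sqrt X - η / Real.sqrt X) * Real.sqrt (a * b)) ^ 2 =
      4 * (Real.sqrt X - η / Real.sqrt X) ^ 2 * (a * b) := by
    rw [mul_pow, mul_pow, Real.sq_sqrt (by positivity)]
    ring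
  have h4 : (Real.sqrt X - η / Real.sqrt X) ^ 2 = X - 2 * η + η ^ 2 / X := by
    have e1 : (Real.sqrt X - η / Real.sqrt X) ^ 2 =
        Real.sqrt X ^ 2 - 2 * η + η ^ 2 / Real.sqrt X ^ 2 := by
      field_simp
      ring
    rw [e1, hsX2]
  have h5 : η ^ 2 / X ≤ η := by
    rw [div_le_iff₀ hX]
    nlinarith
  have h6 : 4 * ((a - b) * b) * (f * v) ≤ ((a - b) * f + b * v) ^ 2 := by
    nlinarith [sq_nonneg ((a - b) * f - b * v)]
  have h7 : (X - η) * (a * b) ≤ ((a - b) * b) * (f * v) := by
    have e1 : b * (2 * X) ≤ a * η := by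
      calc b * (2 * X) ≤ b * (R * η) := by gcongr
        _ = (R * b) * η := by ring
        _ ≤ a * η := by gcongr
    have e2 : ((a - b) * b) * (X - η / 2) ≤ ((a - b) * b) * (f * v) :=
      mul_le_mul_of_nonneg_left hfv (mul_nonneg (sub_nonneg.2 hab) hb.le)
    have e3 : 0 ≤ b * (a * η - b * (2 * X)) := mul_nonneg hb.le (sub_nonneg.2 e1)
    have e4 : 0 ≤ b * b * η := by positivity
    nlinarith
  rw [h3, h4]
  have h8 : 4 * (X - 2 * η + η ^ 2 / X) * (a * b) ≤ 4 * ((X - η) * (a * b)) := by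
    have : 0 < a * b := by positivity
    nlinarith
  linarith

theorem lower_asym {T kap : ℝ} (hP : Par T kap) (δ : ℝ) (hδ : 0 < δ) : ∃ R : ℝ, 0 < R ∧
    ∀ a b : ℝ, 0 < b → R * b ≤ a → ∀ K : Body, UnitVolume K →
      (2 * Real.sqrt (2 * kap) - δ) * Real.sqrt (a * b) ≤ muab a b K := by
  have hk := kap_pos hP
  set X : ℝ := 2 * kap with hX
  have hX0 : 0 < X := by positivity
  have hsX : 0 < Real.sqrt X := Real.sqrt_pos.2 hX0
  have hsX2 : Real.sqrt X ^ 2 = X := Real.sq_sqrt hX0.le
  set η : ℝ := min X (δ * Real.sqrt X / 2) with hη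
  have hη0 : 0 < η := lt_min hX0 (by positivity)
  have hηX : η ≤ X := min_le_left _ _
  have hηδ : η ≤ δ * Real.sqrt X / 2 := min_le_right _ _
  obtain ⟨S0, hS0, hlow⟩ := lower_all hP (η / 2) (by positivity)
  obtain ⟨c, hc, hbd⟩ := lower_bounds
  refine ⟨max (max 1 (2 * X / η)) (4 * X * S0 ^ 2 / c ^ 2), by positivity, ?_⟩
  intro a b hb hRa K hK
  have hR1 : (1 : ℝ) ≤ max (max 1 (2 * X / η)) (4 * X * S0 ^ 2 / c ^ 2) :=
    (le_max_left _ _).trans (le_max_left _ _)
  have hR2 : 2 * X / η ≤ max (max 1 (2 * X / η)) (4 * X * S0 ^ 2 / c ^ 2) :=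
    (le_max_right _ _).trans (le_max_left _ _)
  have hR3 : 4 * X * S0 ^ 2 / c ^ 2 ≤ max (max 1 (2 * X / η)) (4 * X * S0 ^ 2 / c ^ 2) :=
    le_max_right _ _
  set R := max (max 1 (2 * X / η)) (4 * X * S0 ^ 2 / c ^ 2) with hR
  have hab : b ≤ a := by nlinarith
  have ha : 0 < a := lt_of_lt_of_le hb hab
  obtain ⟨b1, b2, b3⟩ := hbd K hK
  have hF0 : 0 ≤ F K := (muab_nonneg K).1
  have hG0 : 0 ≤ muab 0 1 K := (muab_nonneg K).2
  have hV0 : 0 < V2 K := lt_of_lt_of_le hc b1
  have hVe : V2 K = F K + muab 0 1 K := V2_eq K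
  have hmu : muab a b K = (a - b) * F K + b * V2 K := by
    rw [muab_lin, hVe]
    unfold F
    ring
  have hle : (2 * Real.sqrt X - δ) * Real.sqrt (a * b) ≤
      2 * (Real.sqrt X - η / Real.sqrt X) * Real.sqrt (a * b) := by
    apply mul_le_mul_of_nonneg_right _ (Real.sqrt_nonneg _)
    have h1 : η / Real.sqrt X ≤ δ / 2 := by
      rw [div_le_iff₀ hsX]
      linarith
    linarith
  refine hle.trans ?_
  rcases le_or_gt S0 (V2 K) with hV | hV
  · rw [hmu]
    exact num_a hX0 hη0 hηX ha hb hF0 hV0.le (lt_of_lt_of_le one_pos hR1) hRa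
      (by rw [div_le_iff₀ hη0] at hR2; exact hR2) hR1 (hlow K hK hV)
  · have h1 : c / S0 ≤ F K := by
      rw [div_le_iff₀ hS0]
      have h2 : c ≤ F K * V2 K := b2
      have h3 : F K * V2 K ≤ F K * S0 := mul_le_mul_of_nonneg_left hV.le hF0
      linarith
    have h2 : a * (c / S0) ≤ muab a b K := by
      rw [muab_lin]
      have e1 : a * (c / S0) ≤ a * F K := mul_le_mul_of_nonneg_left h1 ha.le
      have e2 := mul_nonneg hb.le hG0
      have e3 : F K = muab 1 0 K := rfl
      rw [← e3]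
      linarith
    refine le_trans ?_ h2
    have h3 : 2 * (Real.sqrt X - η / Real.sqrt X) * Real.sqrt (a * b) ≤
        2 * Real.sqrt X * Real.sqrt (a * b) := by
      have : 0 ≤ η / Real.sqrt X := by positivity
      have := Real.sqrt_nonneg (a * b)
      gcongr
      linarith
    refine h3.trans ?_
    apply le_of_sq_le_sq _ (by positivity)
    have e1 : (2 * Real.sqrt X * Real.sqrt (a * b)) ^ 2 = 4 * X * (a * b) := by
      rw [mul_pow, mul_pow, hsX2, Real.sq_sqrt (by positivity)]
      ring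
    have e2 : (a * (c / S0)) ^ 2 = a ^ 2 * c ^ 2 / S0 ^ 2 := by
      field_simp
    rw [e1, e2, le_div_iff₀ (by positivity)]
    have e3 : 4 * X * S0 ^ 2 ≤ R * c ^ 2 := by
      rwa [div_le_iff₀ (by positivity)] at hR3
    calc 4 * X * (a * b) * S0 ^ 2 = (4 * X * S0 ^ 2) * b * a := by ring
      _ ≤ (R * c ^ 2) * b * a := by gcongr
      _ = (R * b) * (a * c ^ 2) := by ring
      _ ≤ a * (a * c ^ 2) := by gcongr
      _ = a ^ 2 * c ^ 2 := by ring

end Pool.Agent.HAS
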