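import Pool.Agent.HAS.BesT

/-!
# The one dimensional inequality on the outer annulus (module OneA)

`r0 = 1 - T`, `G = ∫_{r0}^1 s`.  `(r0 / T) G^2 ≤ ∫_{r0}^1 (s(r)^2 - kap g(r)^2) r dr`,
`g(r) = ∫_r^1 s`, for `s` continuous and monotone.  With `k = G / T`, `w = s - k`,
`v = g - k (1 - r)` the right-hand side is the left-hand side plus `2 k ∫ w N` plus
`∫ (w^2 - kap v^2) r`; `N = (r - r0) ψ(r)` has mean zero and changes its sign once, and
`T v^2 ≤ (r - r0) (1 - r) ∫ w^2` by Cauchy-Schwarz.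
-/

set_option autoImplicit false

namespace Pool.Agent.HAS

open MeasureTheory

private theorem int_cubic (a b c0 c1 c2 c3 : ℝ) :
    ∫ r in a..b, (c0 + c1 * r + c2 * r ^ 2 + c3 * r ^ 3) =
      c0 * (b - a) + c1 * (b ^ 2 - a ^ 2) / 2 + c2 * (b ^ 3 - a ^ 3) / 3 +
        c3 * (b ^ 4 - a ^ 4) / 4 := by
  have h : ∀ r ∈ Set.uIcc a b, HasDerivAt
      (fun r : ℝ => c0 * r + c1 * (r ^ 2 / 2) + c2 * (r ^ 3 / 3) + c3 * (r ^ 4 / 4))
      (c0 + c1 * r + c2 * r ^ 2 + c3 * r ^ 3) r := by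
    intro r _
    have h1 := ((hasDerivAt_id r).const_mul c0)
    have h2 := (((hasDerivAt_id r).pow 2).div_const 2).const_mul c1
    have h3 := (((hasDerivAt_id r).pow 3).div_const 3).const_mul c2
    have h4 := (((hasDerivAt_id r).pow 4).div_const 4).const_mul c3
    refine (((h1.add h2).add h3).add h4).congr_deriv ?_
    simp only [id]
    push_cast
    ring
  rw [intervalIntegral.integral_eq_sub_of_hasDerivAt h
    (Continuous.intervalIntegrable (by fun_prop) _ _)]
  ring

/-- Cauchy-Schwarz -/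
private theorem cs (w : ℝ → ℝ) (hw : Continuous w) {a b : ℝ} (hab : a ≤ b) :
    (∫ t in a..b, w t) ^ 2 ≤ (b - a) * ∫ t in a..b, w t ^ 2 := by
  rcases eq_or_lt_of_le hab with h | h
  · subst h
    simp
  · obtain ⟨J, hJ⟩ : ∃ J : ℝ, J = ∫ t in a..b, w t := ⟨_, rfl⟩
    have h1 : 0 ≤ ∫ t in a..b, ((b - a) * w t - J) ^ 2 :=
      intervalIntegral.integral_nonneg hab fun t _ => sq_nonneg _
    have h2 : ∫ t in a..b, ((b - a) * w t - J) ^ 2 =
        (b - a) ^ 2 * (∫ t in a..b, w t ^ 2) - 2 * (b - a) * J * J + J ^ 2 * (b - a) := by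
      have h3 : ∀ t, ((b - a) * w t - J) ^ 2 =
          ((b - a) ^ 2 * w t ^ 2 - 2 * (b - a) * J * w t) + J ^ 2 := fun t => by ring
      simp only [h3]
      rw [intervalIntegral.integral_add (Continuous.intervalIntegrable (by fun_prop) _ _)
          (Continuous.intervalIntegrable (by fun_prop) _ _),
        intervalIntegral.integral_sub (Continuous.intervalIntegrable (by fun_prop) _ _)
          (Continuous.intervalIntegrable (by fun_prop) _ _),
        intervalIntegral.integral_const_mul, intervalIntegral.integral_const_mul,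
        intervalIntegral.integral_const, ← hJ, smul_eq_mul]
      ring
    rw [h2] at h1
    rw [← hJ]
    have h4 : 0 < b - a := by linarith
    have h5 : 0 ≤ (b - a) * ((b - a) * (∫ t in a..b, w t ^ 2) - J ^ 2) := by nlinarith
    have h6 := nonneg_of_mul_nonneg_right h5 h4
    linarith

theorem oneA {T kap : ℝ} (hP : Par T kap) (s : ℝ → ℝ) (hs : Continuous s) (hm : Monotone s)
    (h0 : ∀ r, 0 ≤ s r) :
    (1 - T) / T * (∫ t in (1 - T)..1, s t) ^ 2 ≤
      ∫ r in (1 - T)..1, (s r ^ 2 - kap * (∫ t in r..1, s t) ^ 2) * r := by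
  have hT0 := hP.T0
  have hT1 := hP.T1
  have hTpos : 0 < T := by linarith
  have h4T : 0 < 4 - 3 * T := by linarith
  have hkap : kap * (T * (4 - 3 * T)) = 6 := by
    rw [hP.kap_eq]
    exact div_mul_cancel₀ _ (mul_pos hTpos h4T).ne'
  have hkpos : 0 < kap := by
    rw [hP.kap_eq]
    positivity
  obtain ⟨r0, hr0⟩ : ∃ r0 : ℝ, r0 = 1 - T := ⟨_, rfl⟩
  have hTr : T = 1 - r0 := by linarith
  rw [← hr0]
  have hr0l : 6476 / 10000 ≤ r0 := by linarith
  have hr01 : r0 ≤ 1 := by linarith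
  obtain ⟨g, hg⟩ : ∃ g : ℝ → ℝ, g = fun r => ∫ t in r..1, s t := ⟨_, rfl⟩
  have hgd : ∀ r, HasDerivAt g (-s r) r := by
    intro r
    rw [hg]
    exact intervalIntegral.integral_hasDerivAt_left (hs.intervalIntegrable _ _)
      (hs.stronglyMeasurableAtFilter _ _) hs.continuousAt
  have hgc : Continuous g := continuous_iff_continuousAt.2 fun r => (hgd r).continuousAt
  have hg1 : g 1 = 0 := by rw [hg]; exact intervalIntegral.integral_same
  have hgr : ∀ r, (∫ t in r..1, s t) = g r := fun r => by rw [hg]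
  simp only [hgr]
  obtain ⟨G, hG⟩ : ∃ G : ℝ, G = g r0 := ⟨_, rfl⟩
  rw [← hG]
  obtain ⟨k, hk⟩ : ∃ k : ℝ, k = G / T := ⟨_, rfl⟩
  have hkT : k * T = G := by rw [hk]; field_simp
  have hG0 : 0 ≤ G := by
    rw [hG, hg]
    exact intervalIntegral.integral_nonneg hr01 fun t _ => h0 t
  have hk0 : 0 ≤ k := by rw [hk]; positivity
  obtain ⟨w, hw⟩ : ∃ w : ℝ → ℝ, w = fun r => s r - k := ⟨_, rfl⟩
  have hwc : Continuous w := by rw [hw]; fun_prop
  obtain ⟨v, hv⟩ : ∃ v : ℝ → ℝ, v = fun r => g r - k * (1 - r) := ⟨_, rfl⟩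
  have hvc : Continuous v := by rw [hv]; fun_prop
  have hvd : ∀ r, HasDerivAt v (-w r) r := by
    intro r
    rw [hv, hw]
    have h1 := (hgd r).sub (((hasDerivAt_const r (1 : ℝ)).sub (hasDerivAt_id r)).const_mul k)
    refine h1.congr_deriv ?_
    ring
  have hv1 : v 1 = 0 := by
    rw [hv]
    show g 1 - k * (1 - 1) = 0
    rw [hg1]; ring
  have hv0 : v r0 = 0 := by
    rw [hv]
    show g r0 - k * (1 - r0) = 0
    rw [← hG, ← hTr, hkT]; ring
  have hsw : ∀ r, s r = k + w r := fun r => by rw [hw]; ring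
  have hgv : ∀ r, g r = k * (1 - r) + v r := fun r => by rw [hv]; ring
  -- decomposition
  have hdec : ∀ r, (s r ^ 2 - kap * g r ^ 2) * r =
      k ^ 2 * (0 + (1 - kap) * r + 2 * kap * r ^ 2 + (-kap) * r ^ 3) +
        2 * k * ((w r - kap * (1 - r) * v r) * r) + (w r ^ 2 - kap * v r ^ 2) * r := by
    intro r
    rw [hsw, hgv]
    ring
  simp only [hdec]
  rw [intervalIntegral.integral_add (Continuous.intervalIntegrable (by fun_prop) _ _)
      (Continuous.intervalIntegrable (by fun_prop) _ _),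
    intervalIntegral.integral_add (Continuous.intervalIntegrable (by fun_prop) _ _)
      (Continuous.intervalIntegrable (by fun_prop) _ _),
    intervalIntegral.integral_const_mul, intervalIntegral.integral_const_mul, int_cubic]
  -- first part
  have hA : k ^ 2 * (0 * (1 - r0) + (1 - kap) * (1 ^ 2 - r0 ^ 2) / 2 +
      2 * kap * (1 ^ 3 - r0 ^ 3) / 3 + -kap * (1 ^ 4 - r0 ^ 4) / 4) = r0 / T * G ^ 2 := by
    have h1 : (0 * (1 - r0) + (1 - kap) * (1 ^ 2 - r0 ^ 2) / 2 +
      2 * kap * (1 ^ 3 - r0 ^ 3) / 3 + -kap * (1 ^ 4 - r0 ^ 4) / 4) = T * r0 := by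
      have h2 : (0 * (1 - r0) + (1 - kap) * (1 ^ 2 - r0 ^ 2) / 2 +
        2 * kap * (1 ^ 3 - r0 ^ 3) / 3 + -kap * (1 ^ 4 - r0 ^ 4) / 4) =
        T - T ^ 2 / 2 - kap * (T * (4 - 3 * T)) * (T ^ 2 / 12) := by
        rw [hr0]; ring
      rw [h2, hkap, hr0]
      ring
    rw [h1, ← hkT]
    field_simp
  rw [hA]
  -- second part
  obtain ⟨N, hN⟩ : ∃ N : ℝ → ℝ, N = fun r => (-r0 + kap * r0 ^ 2 / 2 - kap * r0 ^ 3 / 3) +
      1 * r + (-kap / 2) * r ^ 2 + (kap / 3) * r ^ 3 := ⟨_, rfl⟩
  have hNc : Continuous N := by rw [hN]; fun_prop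
  have hNd : ∀ r, HasDerivAt N (1 - kap * r + kap * r ^ 2) r := by
    intro r
    rw [hN]
    have h1 := (((hasDerivAt_id r).const_mul 1).const_add
      (-r0 + kap * r0 ^ 2 / 2 - kap * r0 ^ 3 / 3))
    have h2 := (((hasDerivAt_id r).pow 2)).const_mul (-kap / 2)
    have h3 := (((hasDerivAt_id r).pow 3)).const_mul (kap / 3)
    refine ((h1.add h2).add h3).congr_deriv ?_
    simp only [id]
    push_cast
    ring
  have hB : ∫ r in r0..1, (w r - kap * (1 - r) * v r) * r = ∫ r in r0..1, w r * N r := by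
    have h1 : ∀ r ∈ Set.uIcc r0 1, HasDerivAt (fun r => v r * (N r - r))
        ((w r - kap * (1 - r) * v r) * r - w r * N r) r := by
      intro r _
      refine ((hvd r).mul ((hNd r).sub (hasDerivAt_id r))).congr_deriv ?_
      simp only [Pi.sub_apply, id]
      ring
    have h2 := intervalIntegral.integral_eq_sub_of_hasDerivAt h1
      (Continuous.intervalIntegrable (by fun_prop) _ _)
    rw [hv1, hv0, zero_mul, zero_mul, sub_zero, intervalIntegral.integral_sub
      (Continuous.intervalIntegrable (by fun_prop) _ _)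
      (Continuous.intervalIntegrable (by fun_prop) _ _)] at h2
    linarith
  have hNint : ∫ r in r0..1, N r = 0 := by
    rw [hN, int_cubic]
    have h2 : (-r0 + kap * r0 ^ 2 / 2 - kap * r0 ^ 3 / 3) * (1 - r0) + 1 * (1 ^ 2 - r0 ^ 2) / 2 +
        -kap / 2 * (1 ^ 3 - r0 ^ 3) / 3 + kap / 3 * (1 ^ 4 - r0 ^ 4) / 4 =
        T ^ 2 / 2 - kap * (T * (4 - 3 * T)) * (T ^ 2 / 12) := by
      rw [hr0]; ring
    rw [h2, hkap]
    ring
  have hB0 : 0 ≤ ∫ r in r0..1, w r * N r := by
    -- the sign change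
    have hψc : Continuous fun r : ℝ => 1 - kap * ((r + r0) / 2 - (r ^ 2 + r * r0 + r0 ^ 2) / 3) := by
      fun_prop
    have e0 : 1 - kap * ((r0 + r0) / 2 - (r0 ^ 2 + r0 * r0 + r0 ^ 2) / 3) ≤ 0 := by
      have h1 : kap * ((r0 + r0) / 2 - (r0 ^ 2 + r0 * r0 + r0 ^ 2) / 3) = kap * (T * (1 - T)) := by
        rw [hr0]; ring
      rw [h1]
      have h2 : kap * (T * (4 - 3 * T)) ≤ kap * (6 * (T * (1 - T))) := by
        refine mul_le_mul_of_nonneg_left ?_ hkpos.le
        nlinarith
      nlinarith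
    have e1 : 0 ≤ 1 - kap * ((1 + r0) / 2 - (1 ^ 2 + 1 * r0 + r0 ^ 2) / 3) := by
      have h1 : kap * ((1 + r0) / 2 - (1 ^ 2 + 1 * r0 + r0 ^ 2) / 3) =
          kap * (T * (1 / 2 - T / 3)) := by
        rw [hr0]; ring
      rw [h1]
      have h2 : kap * (6 * (T * (1 / 2 - T / 3))) ≤ kap * (T * (4 - 3 * T)) := by
        refine mul_le_mul_of_nonneg_left ?_ hkpos.le
        nlinarith
      nlinarith
    obtain ⟨r1, ⟨hr1a, hr1b⟩, hr1⟩ := intermediate_value_Icc hr01 hψc.continuousOn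
      (show (0 : ℝ) ∈ Set.Icc _ _ from ⟨e0, e1⟩)
    have hr1' : 1 - kap * ((r1 + r0) / 2 - (r1 ^ 2 + r1 * r0 + r0 ^ 2) / 3) = 0 := hr1
    have hNf : ∀ r, N r = kap * ((r - r0) * ((r - r1) * ((r + r1 + r0) / 3 - 1 / 2))) := by
      intro r
      have h1 : N r = (r - r0) * (1 - kap * ((r + r0) / 2 - (r ^ 2 + r * r0 + r0 ^ 2) / 3)) := by
        rw [hN]; ring
      have h2 : (1 - kap * ((r + r0) / 2 - (r ^ 2 + r * r0 + r0 ^ 2) / 3)) =
          (1 - kap * ((r1 + r0) / 2 - (r1 ^ 2 + r1 * r0 + r0 ^ 2) / 3)) +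
            kap * ((r - r1) * ((r + r1 + r0) / 3 - 1 / 2)) := by ring
      rw [h1, h2, hr1']
      ring
    have h3 : 0 ≤ ∫ r in r0..1, (s r - s r1) * N r := by
      refine intervalIntegral.integral_nonneg hr01 fun r hr => ?_
      obtain ⟨hra, hrb⟩ := hr
      rw [hNf]
      have h4 : 0 ≤ (s r - s r1) * (r - r1) := by
        rcases le_total r1 r with h | h
        · exact mul_nonneg (sub_nonneg.2 (hm h)) (sub_nonneg.2 h)
        · exact mul_nonneg_of_nonpos_of_nonpos (sub_nonpos.2 (hm h)) (sub_nonpos.2 h)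
      have h5 : 0 ≤ kap * ((r - r0) * ((r + r1 + r0) / 3 - 1 / 2)) :=
        mul_nonneg hkpos.le (mul_nonneg (sub_nonneg.2 hra) (by linarith))
      calc (0 : ℝ) ≤ ((s r - s r1) * (r - r1)) * (kap * ((r - r0) * ((r + r1 + r0) / 3 - 1 / 2))) :=
            mul_nonneg h4 h5
        _ = _ := by ring
    have h6 : ∫ r in r0..1, w r * N r =
        (∫ r in r0..1, (s r - s r1) * N r) + (s r1 - k) * ∫ r in r0..1, N r := by
      rw [← intervalIntegral.integral_const_mul, ← intervalIntegral.integral_add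
        (Continuous.intervalIntegrable (by fun_prop) _ _)
        (Continuous.intervalIntegrable (by fun_prop) _ _)]
      refine intervalIntegral.integral_congr fun r _ => ?_
      show w r * N r = (s r - s r1) * N r + (s r1 - k) * N r
      rw [hw]
      ring
    rw [h6, hNint, mul_zero, add_zero]
    exact h3
  rw [hB]
  -- third part
  have hC0 : 0 ≤ ∫ r in r0..1, (w r ^ 2 - kap * v r ^ 2) * r := by
    obtain ⟨E, hE⟩ : ∃ E : ℝ, E = ∫ r in r0..1, w r ^ 2 := ⟨_, rfl⟩
    have hE0 : 0 ≤ E := by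
      rw [hE]
      exact intervalIntegral.integral_nonneg hr01 fun r _ => sq_nonneg _
    have hvint : ∀ a b, ∫ t in a..b, w t = v a - v b := by
      intro a b
      have h1 : ∀ r ∈ Set.uIcc a b, HasDerivAt (fun r => - v r) (w r) r := by
        intro r _
        exact (hvd r).neg.congr_deriv (neg_neg _)
      rw [intervalIntegral.integral_eq_sub_of_hasDerivAt h1 (hwc.intervalIntegrable _ _)]
      ring
    have hpt : ∀ r ∈ Set.Icc r0 1, T * v r ^ 2 ≤ (r - r0) * (1 - r) * E := by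
      intro r hr
      obtain ⟨hra, hrb⟩ := hr
      have h1 := cs w hwc hrb
      have h2 := cs w hwc hra
      rw [hvint, hv1, sub_zero] at h1
      rw [hvint, hv0, zero_sub, neg_sq] at h2
      have h3 : (∫ t in r0..r, w t ^ 2) + (∫ t in r..1, w t ^ 2) = E := by
        rw [hE]
        exact intervalIntegral.integral_add_adjacent_intervals
          (Continuous.intervalIntegrable (by fun_prop) _ _)
          (Continuous.intervalIntegrable (by fun_prop) _ _)
      have h4 := mul_le_mul_of_nonneg_left h1 (sub_nonneg.2 hra)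
      have h5 := mul_le_mul_of_nonneg_left h2 (sub_nonneg.2 hrb)
      calc T * v r ^ 2 = (r - r0) * v r ^ 2 + (1 - r) * v r ^ 2 := by rw [hTr]; ring
        _ ≤ (r - r0) * ((1 - r) * ∫ t in r..1, w t ^ 2) +
            (1 - r) * ((r - r0) * ∫ t in r0..r, w t ^ 2) := add_le_add h4 h5
        _ = (r - r0) * (1 - r) * ((∫ t in r0..r, w t ^ 2) + (∫ t in r..1, w t ^ 2)) := by ring
        _ = _ := by rw [h3]
    have hv2 : T * (∫ r in r0..1, v r ^ 2) ≤ T ^ 3 / 6 * E := by
      have h1 : ∫ r in r0..1, T * v r ^ 2 ≤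
          ∫ r in r0..1, ((-r0 + (1 + r0) * r + (-1) * r ^ 2 + 0 * r ^ 3) * E) := by
        refine intervalIntegral.integral_mono_on hr01
          (Continuous.intervalIntegrable (by fun_prop) _ _)
          (Continuous.intervalIntegrable (by fun_prop) _ _) fun r hr => ?_
        have h2 := hpt r hr
        have h3 : (-r0 + (1 + r0) * r + (-1) * r ^ 2 + 0 * r ^ 3) * E =
            (r - r0) * (1 - r) * E := by ring
        rw [h3]
        exact h2
      rw [intervalIntegral.integral_const_mul, intervalIntegral.integral_mul_const,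
        int_cubic] at h1
      refine h1.trans (le_of_eq ?_)
      rw [hTr]
      ring
    have h7 : kap * (∫ r in r0..1, v r ^ 2) ≤ r0 * E := by
      have h8 : T * (∫ r in r0..1, v r ^ 2) ≤ T * (T ^ 2 / 6 * E) := by
        refine hv2.trans (le_of_eq ?_)
        ring
      have h9 := le_of_mul_le_mul_left h8 hTpos
      have h10 : kap * (T ^ 2 / 6) ≤ r0 := by
        have h11 : (4 - 3 * T) * (kap * (T ^ 2 / 6)) ≤ (4 - 3 * T) * r0 := by
          have h12 : (4 - 3 * T) * (kap * (T ^ 2 / 6)) = kap * (T * (4 - 3 * T)) * (T / 6) := by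
            ring
          rw [h12, hkap, hr0]
          nlinarith
        exact le_of_mul_le_mul_left h11 h4T
      calc kap * (∫ r in r0..1, v r ^ 2) ≤ kap * (T ^ 2 / 6 * E) :=
            mul_le_mul_of_nonneg_left h9 hkpos.le
        _ = kap * (T ^ 2 / 6) * E := by ring
        _ ≤ r0 * E := mul_le_mul_of_nonneg_right h10 hE0
    have h13 : ∫ r in r0..1, (r0 * w r ^ 2 - kap * v r ^ 2) ≤
        ∫ r in r0..1, (w r ^ 2 - kap * v r ^ 2) * r := by
      refine intervalIntegral.integral_mono_on hr01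
          (Continuous.intervalIntegrable (by fun_prop) _ _)
          (Continuous.intervalIntegrable (by fun_prop) _ _) fun r hr => ?_
      obtain ⟨hra, hrb⟩ := hr
      have h14 : r0 * w r ^ 2 ≤ r * w r ^ 2 := mul_le_mul_of_nonneg_right hra (sq_nonneg _)
      have h15 : kap * v r ^ 2 * r ≤ kap * v r ^ 2 :=
        mul_le_of_le_one_right (mul_nonneg hkpos.le (sq_nonneg _)) hrb
      nlinarith
    rw [intervalIntegral.integral_sub (Continuous.intervalIntegrable (by fun_prop) _ _)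
      (Continuous.intervalIntegrable (by fun_prop) _ _), intervalIntegral.integral_const_mul,
      intervalIntegral.integral_const_mul, ← hE] at h13
    linarith
  have h16 : 0 ≤ 2 * k * ∫ r in r0..1, w r * N r := mul_nonneg (by linarith) hB0
  linarith

end Pool.Agent.HAS
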