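import Pool.Agent.HAS.BesT

/-!
# The one dimensional inequality on the inner disc (module OneB)

`r0 = 1 - T`, `g(r) = ∫_r^1 s`: `-(r0 / T) g(r0)^2 ≤ ∫_0^{r0} (s(r)^2 - kap g(r)^2) r dr` for `s`
continuous, by the Riccati equation for `ρ(r) = w J₁(w r) / J₀(w r)`, `w = √kap`:
`(r ρ)' = kap r + r ρ^2` and `(s - ρ g)^2 ≥ 0`.
-/

set_option autoImplicit false

namespace Pool.Agent.HAS

open MeasureTheory

theorem oneB {T kap : ℝ} (hP : Par T kap) (s : ℝ → ℝ) (hs : Continuous s) :
    -((1 - T) / T * (∫ t in (1 - T)..1, s t) ^ 2) ≤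
      ∫ r in (0 : ℝ)..(1 - T), (s r ^ 2 - kap * (∫ t in r..1, s t) ^ 2) * r := by
  obtain ⟨hk1, hk2⟩ := hP.kap_bounds
  have hT0 := hP.T0
  have hT1 := hP.T1
  have hkap : 0 < kap := by linarith
  set w : ℝ := Real.sqrt kap with hw
  have hw2 : w ^ 2 = kap := Real.sq_sqrt hkap.le
  have hwpos : 0 < w := Real.sqrt_pos.2 hkap
  have hr0 : (0 : ℝ) ≤ 1 - T := by linarith
  -- positivity of `J₀`
  have hJ : ∀ r ∈ Set.Icc (0 : ℝ) (1 - T), 0 < J0 (w * r) := by
    intro r hr
    have h1 : r ^ 2 ≤ (6478 / 10000) ^ 2 := by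
      have : r ≤ 6478 / 10000 := by linarith [hr.2]
      exact pow_le_pow_left₀ hr.1 this 2
    have h2 : (w * r) ^ 2 ≤ 3 := by
      rw [mul_pow, hw2]
      have h3 : kap * r ^ 2 ≤ kap * (6478 / 10000) ^ 2 := mul_le_mul_of_nonneg_left h1 hkap.le
      have h4 : kap * (6478 / 10000) ^ 2 ≤ 579 / 100 * (6478 / 10000) ^ 2 :=
        mul_le_mul_of_nonneg_right hk2.le (by positivity)
      have h5 : (579 : ℝ) / 100 * (6478 / 10000) ^ 2 ≤ 3 := by norm_num
      linarith
    have h6 := J0_ge (w * r) (by linarith)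
    linarith
  set g : ℝ → ℝ := fun r => ∫ t in r..1, s t with hg
  have hgd : ∀ r, HasDerivAt g (-s r) r := by
    intro r
    exact intervalIntegral.integral_hasDerivAt_left (hs.intervalIntegrable _ _)
      (hs.stronglyMeasurableAtFilter _ _) hs.continuousAt
  have hgc : Continuous g := continuous_iff_continuousAt.2 fun r => (hgd r).continuousAt
  set ρ : ℝ → ℝ := fun r => w * J1 (w * r) / J0 (w * r) with hρ
  have hJ0c : Continuous fun r : ℝ => J0 (w * r) := J0_continuous.comp (continuous_const.mul continuous_id)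
  have hJ1c : Continuous fun r : ℝ => J1 (w * r) := J1_continuous.comp (continuous_const.mul continuous_id)
  have hρc : ContinuousOn ρ (Set.Icc (0 : ℝ) (1 - T)) := by
    refine ContinuousOn.div (continuous_const.mul hJ1c).continuousOn hJ0c.continuousOn ?_
    intro r hr
    exact (hJ r hr).ne'
  -- derivative of `U = r ρ`
  have hlin : ∀ r : ℝ, HasDerivAt (fun r : ℝ => w * r) w r := by
    intro r
    simpa using (hasDerivAt_id r).const_mul w
  have hUd : ∀ r ∈ Set.Icc (0 : ℝ) (1 - T),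
      HasDerivAt (fun r : ℝ => (w * r) * J1 (w * r) / J0 (w * r)) (kap * r + r * ρ r ^ 2) r := by
    intro r hr
    have hne : J0 (w * r) ≠ 0 := (hJ r hr).ne'
    have h1 : HasDerivAt (fun r : ℝ => (w * r) * J1 (w * r)) ((w * r) * J0 (w * r) * w) r :=
      (mul_J1_hasDerivAt (w * r)).comp r (hlin r)
    have h2 : HasDerivAt (fun r : ℝ => J0 (w * r)) (-J1 (w * r) * w) r :=
      (J0_hasDerivAt (w * r)).comp r (hlin r)
    have h3 := h1.div h2 hne
    refine HasDerivAt.congr_deriv h3 ?_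
    simp only [hρ]
    rw [← hw2]
    field_simp
    ring
  have hFd : ∀ r ∈ Set.Icc (0 : ℝ) (1 - T),
      HasDerivAt (fun r : ℝ => -((w * r) * J1 (w * r) / J0 (w * r) * g r ^ 2))
        (2 * r * ρ r * s r * g r - (kap * r + r * ρ r ^ 2) * g r ^ 2) r := by
    intro r hr
    have h1 := ((hUd r hr).mul ((hgd r).pow 2)).neg
    refine HasDerivAt.congr_deriv h1 ?_
    have hne : J0 (w * r) ≠ 0 := (hJ r hr).ne'
    simp only [hρ, Pi.pow_apply]
    field_simp
    push_cast
    ring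
  have hcont : ContinuousOn
      (fun r => 2 * r * ρ r * s r * g r - (kap * r + r * ρ r ^ 2) * g r ^ 2)
      (Set.uIcc (0 : ℝ) (1 - T)) := by
    rw [Set.uIcc_of_le hr0]
    have hid : ContinuousOn (fun r : ℝ => r) (Set.Icc (0 : ℝ) (1 - T)) := continuousOn_id
    exact (((((continuousOn_const.mul hid).mul hρc).mul hs.continuousOn).mul hgc.continuousOn)).sub
      (((continuousOn_const.mul hid).add (hid.mul (hρc.pow 2))).mul (hgc.continuousOn.pow 2))
  have hint : ∫ r in (0 : ℝ)..(1 - T),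
      (2 * r * ρ r * s r * g r - (kap * r + r * ρ r ^ 2) * g r ^ 2) =
        -((w * (1 - T)) * J1 (w * (1 - T)) / J0 (w * (1 - T)) * g (1 - T) ^ 2) := by
    rw [intervalIntegral.integral_eq_sub_of_hasDerivAt (f := fun r : ℝ =>
      -((w * r) * J1 (w * r) / J0 (w * r) * g r ^ 2)) (fun r hr => hFd r (by
        rwa [Set.uIcc_of_le hr0] at hr)) hcont.intervalIntegrable]
    simp
  have hbd : (w * (1 - T)) * J1 (w * (1 - T)) / J0 (w * (1 - T)) = (1 - T) / T := by
    have hb := hP.bes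
    rw [← hw] at hb
    have hpos := hJ (1 - T) ⟨hr0, le_rfl⟩
    have hTpos : 0 < T := by linarith
    rw [div_eq_div_iff hpos.ne' hTpos.ne', hb]
    ring
  have hmono : ∫ r in (0 : ℝ)..(1 - T),
      (2 * r * ρ r * s r * g r - (kap * r + r * ρ r ^ 2) * g r ^ 2) ≤
      ∫ r in (0 : ℝ)..(1 - T), (s r ^ 2 - kap * g r ^ 2) * r := by
    refine intervalIntegral.integral_mono_on hr0 hcont.intervalIntegrable ?_ ?_
    · exact (((hs.pow 2).sub (continuous_const.mul (hgc.pow 2))).mul continuous_id).intervalIntegrable _ _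
    · intro r hr
      have h1 : 0 ≤ r * (s r - ρ r * g r) ^ 2 := mul_nonneg hr.1 (sq_nonneg _)
      nlinarith [h1]
  rw [hint, hbd] at hmono
  exact hmono

end Pool.Agent.HAS
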