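import Pool.Agent.HAS.OneA
import Pool.Agent.HAS.OneB

/-!
# The one dimensional inequality (module OneC)

For continuous `s` the inequality is the sum of `oneA` and `oneB`.  A monotone nonnegative `s` is the
limit almost everywhere of the continuous monotone functions `s_n(r) = ∫_0^1 s(r - u/(n+1)) du ≤ s(r)`,
and dominated convergence gives the inequality for `s`.
-/

set_option autoImplicit false

namespace Pool.Agent.HAS

open MeasureTheory

private theorem cont_tail {s : ℝ → ℝ} (hs : ∀ a b, IntervalIntegrable s volume a b) :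
    Continuous (fun r : ℝ => ∫ t in r..1, s t) := by
  have h1 : (fun r : ℝ => ∫ t in r..1, s t) = fun r : ℝ => -∫ t in (1 : ℝ)..r, s t := by
    funext r
    rw [intervalIntegral.integral_symm]
  rw [h1]
  exact (intervalIntegral.continuous_primitive hs 1).neg

private theorem oned_cont {T kap : ℝ} (hP : Par T kap) (s : ℝ → ℝ) (hs : Continuous s)
    (hm : Monotone s) (h0 : ∀ r, 0 ≤ s r) :
    kap * ∫ r in (0 : ℝ)..1, (∫ t in r..1, s t) ^ 2 * r ≤ ∫ r in (0 : ℝ)..1, s r ^ 2 * r := by
  have hA := oneA hP s hs hm h0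
  have hB := oneB hP s hs
  have hg : Continuous (fun r : ℝ => ∫ t in r..1, s t) := cont_tail (fun a b => hs.intervalIntegrable a b)
  have hF : Continuous (fun r : ℝ => (s r ^ 2 - kap * (∫ t in r..1, s t) ^ 2) * r) :=
    ((hs.pow 2).sub (continuous_const.mul (hg.pow 2))).mul continuous_id
  have hsum := intervalIntegral.integral_add_adjacent_intervals
    (hF.intervalIntegrable (μ := volume) 0 (1 - T)) (hF.intervalIntegrable (μ := volume) (1 - T) 1)
  have h1 : Continuous (fun r : ℝ => s r ^ 2 * r) := (hs.pow 2).mul continuous_id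
  have h2 : Continuous (fun r : ℝ => kap * ((∫ t in r..1, s t) ^ 2 * r)) :=
    continuous_const.mul ((hg.pow 2).mul continuous_id)
  have h3 : ∫ r in (0 : ℝ)..1, (s r ^ 2 - kap * (∫ t in r..1, s t) ^ 2) * r =
      (∫ r in (0 : ℝ)..1, s r ^ 2 * r) - kap * ∫ r in (0 : ℝ)..1, (∫ t in r..1, s t) ^ 2 * r := by
    rw [← intervalIntegral.integral_const_mul, ← intervalIntegral.integral_sub
      (h1.intervalIntegrable 0 1) (h2.intervalIntegrable 0 1)]
    apply intervalIntegral.integral_congr
    intro r _
    simp only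
    ring
  linarith

/-- the mean of `s` over `[r - d, r]` -/
private noncomputable def avg (s : ℝ → ℝ) (d : ℝ) (r : ℝ) : ℝ := ∫ u in (0 : ℝ)..1, s (r - d * u)

private theorem avg_int {s : ℝ → ℝ} (hm : Monotone s) {d : ℝ} (hd : 0 < d) (r : ℝ) :
    IntervalIntegrable (fun u => s (r - d * u)) volume 0 1 := by
  have h1 : Antitone (fun u => s (r - d * u)) := by
    intro u v huv
    apply hm
    nlinarith
  exact h1.intervalIntegrable

private theorem avg_cont {s : ℝ → ℝ} (hm : Monotone s) {d : ℝ} (hd : 0 < d) :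
    Continuous (avg s d) := by
  have hi : ∀ a b, IntervalIntegrable s volume a b := fun a b => hm.intervalIntegrable
  have h1 : avg s d = fun r => d⁻¹ * ((∫ t in (0 : ℝ)..r, s t) - ∫ t in (0 : ℝ)..(r - d), s t) := by
    funext r
    unfold avg
    rw [intervalIntegral.integral_comp_sub_mul (fun t => s t) hd.ne' r]
    rw [intervalIntegral.integral_interval_sub_left (hi _ _) (hi _ _)]
    simp
  rw [h1]
  have h2 := intervalIntegral.continuous_primitive hi 0
  exact continuous_const.mul (h2.sub (h2.comp (continuous_id.sub continuous_const)))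

private theorem avg_mono {s : ℝ → ℝ} (hm : Monotone s) {d : ℝ} (hd : 0 < d) :
    Monotone (avg s d) := by
  intro r r' h
  unfold avg
  apply intervalIntegral.integral_mono_on zero_le_one (avg_int hm hd r) (avg_int hm hd r')
  intro u _
  apply hm
  linarith

private theorem avg_le {s : ℝ → ℝ} (hm : Monotone s) {d : ℝ} (hd : 0 < d) (r : ℝ) :
    avg s d r ≤ s r := by
  have h1 : avg s d r ≤ ∫ u in (0 : ℝ)..1, s r := by
    unfold avg
    apply intervalIntegral.integral_mono_on zero_le_one (avg_int hm hd r)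
      intervalIntegrable_const
    intro u hu
    apply hm
    nlinarith [hu.1]
  simpa using h1

private theorem le_avg {s : ℝ → ℝ} (hm : Monotone s) {d : ℝ} (hd : 0 < d) (r : ℝ) :
    s (r - d) ≤ avg s d r := by
  have h1 : ∫ u in (0 : ℝ)..1, s (r - d) ≤ avg s d r := by
    unfold avg
    apply intervalIntegral.integral_mono_on zero_le_one
      intervalIntegrable_const (avg_int hm hd r)
    intro u hu
    apply hm
    nlinarith [hu.2]
  simpa using h1

private theorem avg_tendsto {s : ℝ → ℝ} (hm : Monotone s) {r : ℝ} (hr : ContinuousAt s r) :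
    Filter.Tendsto (fun n : ℕ => avg s (1 / ((n : ℝ) + 1)) r) Filter.atTop (nhds (s r)) := by
  have h1 : Filter.Tendsto (fun n : ℕ => s (r - 1 / ((n : ℝ) + 1))) Filter.atTop (nhds (s r)) := by
    have h2 : Filter.Tendsto (fun n : ℕ => r - 1 / ((n : ℝ) + 1)) Filter.atTop (nhds r) := by
      have h3 := (tendsto_const_nhds (x := r)).sub (tendsto_one_div_add_atTop_nhds_zero_nat (𝕜 := ℝ))
      rwa [sub_zero] at h3
    exact hr.tendsto.comp h2
  refine tendsto_of_tendsto_of_tendsto_of_le_of_le h1 tendsto_const_nhds ?_ ?_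
  · intro n
    exact le_avg hm (by positivity) r
  · intro n
    exact avg_le hm (by positivity) r

theorem oned {T kap : ℝ} (hP : Par T kap) (s : ℝ → ℝ) (hm : Monotone s) (h0 : ∀ r, 0 ≤ s r) :
    kap * ∫ r in (0 : ℝ)..1, (∫ t in r..1, s t) ^ 2 * r ≤ ∫ r in (0 : ℝ)..1, s r ^ 2 * r := by
  set σ : ℕ → ℝ → ℝ := fun n => avg s (1 / ((n : ℝ) + 1)) with hσ
  have hd : ∀ n : ℕ, (0 : ℝ) < 1 / ((n : ℝ) + 1) := fun n => by positivity
  have hσ0 : ∀ n r, 0 ≤ σ n r := fun n r => (h0 _).trans (le_avg hm (hd n) r)
  have hσ1 : ∀ n r, σ n r ≤ s r := fun n r => avg_le hm (hd n) r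
  have hσc : ∀ n, Continuous (σ n) := fun n => avg_cont hm (hd n)
  have hσm : ∀ n, Monotone (σ n) := fun n => avg_mono hm (hd n)
  have hi : ∀ a b, IntervalIntegrable s volume a b := fun a b => hm.intervalIntegrable
  -- the bounds
  have hb : ∀ n, kap * ∫ r in (0 : ℝ)..1, (∫ t in r..1, σ n t) ^ 2 * r ≤
      ∫ r in (0 : ℝ)..1, s r ^ 2 * r := by
    intro n
    refine (oned_cont hP (σ n) (hσc n) (hσm n) (hσ0 n)).trans ?_
    have h1 : IntervalIntegrable (fun r => s r ^ 2 * r) volume 0 1 := by
      have h2 : MonotoneOn (fun r => s r ^ 2 * r) (Set.uIcc 0 1) := by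
        rw [Set.uIcc_of_le zero_le_one]
        intro x hx y hy hxy
        simp only
        have h3 : s x ^ 2 ≤ s y ^ 2 := pow_le_pow_left₀ (h0 x) (hm hxy) 2
        exact mul_le_mul h3 hxy hx.1 (sq_nonneg _)
      exact h2.intervalIntegrable
    apply intervalIntegral.integral_mono_on zero_le_one
      (((hσc n).pow 2).mul continuous_id |>.intervalIntegrable 0 1) h1
    intro r hr
    exact mul_le_mul_of_nonneg_right (pow_le_pow_left₀ (hσ0 n r) (hσ1 n r) 2) hr.1
  -- the limit
  have hae : ∀ᵐ r ∂(volume : Measure ℝ), ContinuousAt s r := by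
    have h1 := hm.countable_not_continuousAt.measure_zero volume
    exact h1
  have hlim1 : ∀ r ∈ Set.Icc (0 : ℝ) 1, Filter.Tendsto (fun n => ∫ t in r..1, σ n t) Filter.atTop
      (nhds (∫ t in r..1, s t)) := by
    intro r hr
    apply intervalIntegral.tendsto_integral_filter_of_dominated_convergence (fun _ => s 1)
    · exact Filter.Eventually.of_forall fun n => (hσc n).aestronglyMeasurable
    · refine Filter.Eventually.of_forall fun n => Filter.Eventually.of_forall fun t ht => ?_
      rw [Set.uIoc_of_le hr.2] at ht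
      rw [Real.norm_eq_abs, abs_of_nonneg (hσ0 n t)]
      exact (hσ1 n t).trans (hm ht.2)
    · exact intervalIntegrable_const
    · filter_upwards [hae] with t ht _
      exact avg_tendsto hm ht
  have hlim2 : Filter.Tendsto (fun n => ∫ r in (0 : ℝ)..1, (∫ t in r..1, σ n t) ^ 2 * r) Filter.atTop
      (nhds (∫ r in (0 : ℝ)..1, (∫ t in r..1, s t) ^ 2 * r)) := by
    apply intervalIntegral.tendsto_integral_filter_of_dominated_convergence (fun _ => s 1 ^ 2)
    · refine Filter.Eventually.of_forall fun n => ?_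
      have h1 : Continuous (fun r : ℝ => ∫ t in r..1, σ n t) :=
        cont_tail (fun a b => (hσc n).intervalIntegrable a b)
      exact ((h1.pow 2).mul continuous_id).aestronglyMeasurable
    · refine Filter.Eventually.of_forall fun n => Filter.Eventually.of_forall fun r hr => ?_
      rw [Set.uIoc_of_le zero_le_one] at hr
      have h1 : 0 ≤ ∫ t in r..1, σ n t :=
        intervalIntegral.integral_nonneg hr.2 fun t _ => hσ0 n t
      have h2 : ∫ t in r..1, σ n t ≤ s 1 := by
        have h3 : ∫ t in r..1, σ n t ≤ ∫ t in r..1, s 1 := by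
          apply intervalIntegral.integral_mono_on hr.2 ((hσc n).intervalIntegrable r 1)
            intervalIntegrable_const
          intro t ht
          exact (hσ1 n t).trans (hm ht.2)
        rw [intervalIntegral.integral_const, smul_eq_mul] at h3
        nlinarith [h0 1, hr.1]
      rw [Real.norm_eq_abs, abs_of_nonneg (mul_nonneg (sq_nonneg _) hr.1.le)]
      have h4 : (∫ t in r..1, σ n t) ^ 2 ≤ s 1 ^ 2 := pow_le_pow_left₀ h1 h2 2
      nlinarith [sq_nonneg (∫ t in r..1, σ n t), hr.1, hr.2]
    · exact intervalIntegrable_const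
    · refine Filter.Eventually.of_forall fun r hr => ?_
      rw [Set.uIoc_of_le zero_le_one] at hr
      exact ((hlim1 r ⟨hr.1.le, hr.2⟩).pow 2).mul_const r
  exact le_of_tendsto' (hlim2.const_mul kap) hb

end Pool.Agent.HAS
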