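import Pool.Agent.HAS.PlA

/-!
# The total variation of a concave function over a slab (module PlC)

Tonelli for the set of the pairs `(z, t)`, `t1 ≤ t ≤ t2`, with `z` in the `δ`-neighbourhood of the superlevel set
`A t` but not in `A t`: the sections over `t` have area `≥ 2 √π δ √(area (A t))` (`nbhd_area`), the sections over
`z ∈ A t1` have length `≤ δ ‖∇v z‖` (concavity), those over `z ∉ A t1` length `≤ δ L`.  Divide by `δ`, `δ → 0`.
-/

set_option autoImplicit false

namespace Pool.Agent.HAS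

open MeasureTheory Metric Set Filter Topology

/-- the tangent plane of a concave function lies above the graph -/
private theorem grad_ineq (U : Set ℂ) (hU : IsOpen U) (v : ℂ → ℝ) (hv : ConcaveOn ℝ U v)
    (hv1 : ContDiffOn ℝ 1 v U) {z y : ℂ} (hz : z ∈ U) (hy : y ∈ U) :
    v y ≤ v z + ‖fderiv ℝ v z‖ * dist z y := by
  have hd : HasFDerivAt v (fderiv ℝ v z) z :=
    ((hv1.contDiffAt (hU.mem_nhds hz)).differentiableAt one_ne_zero).hasFDerivAt
  have h1 : HasDerivAt (fun s : ℝ => v (z + s • (y - z))) (fderiv ℝ v z (y - z)) 0 := by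
    have h2 : HasDerivAt (fun s : ℝ => z + s • (y - z)) (y - z) 0 := by
      have h3 := ((hasDerivAt_id (0 : ℝ)).smul_const (y - z)).const_add z
      simpa using h3
    have h4 : HasFDerivAt v (fderiv ℝ v z) (z + (0 : ℝ) • (y - z)) := by
      rw [zero_smul, add_zero]
      exact hd
    exact h4.comp_hasDerivAt (0 : ℝ) h2
  have h5 : v y - v z ≤ fderiv ℝ v z (y - z) := by
    have h6 := hasDerivAt_iff_tendsto_slope_zero.1 h1
    have h6' := h6.mono_left (nhdsWithin_mono (0 : ℝ) (fun s (hs : s ∈ Set.Ioi (0 : ℝ)) => ne_of_gt hs))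
    refine ge_of_tendsto h6' ?_
    filter_upwards [Ioo_mem_nhdsGT (one_pos : (0 : ℝ) < 1)] with s hs
    rw [zero_add, zero_smul, add_zero, smul_eq_mul]
    have h7 := hv.2 hz hy (sub_nonneg.2 hs.2.le) hs.1.le (by ring)
    have h8 : (1 - s) • z + s • y = z + s • (y - z) := by
      rw [sub_smul, one_smul, smul_sub]
      ring
    rw [h8, smul_eq_mul, smul_eq_mul] at h7
    rw [← div_eq_inv_mul, le_div_iff₀ hs.1]
    linarith
  have h9 : fderiv ℝ v z (y - z) ≤ ‖fderiv ℝ v z‖ * dist z y := by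
    refine (le_abs_self _).trans ?_
    rw [← Real.norm_eq_abs, dist_comm, dist_eq_norm]
    exact ContinuousLinearMap.le_opNorm _ _
  linarith

/-- the superlevel sets above `t1` -/
private theorem sup_eq {U : Set ℂ} {v : ℂ → ℝ} {t1 t : ℝ} (h : t1 ≤ t) :
    sup U v t = sup U v t1 ∩ v ⁻¹' Ici t := by
  ext z
  constructor
  · rintro ⟨h1, h2⟩
    exact ⟨⟨h1, h.trans h2⟩, h2⟩
  · rintro ⟨h1, h2⟩
    exact ⟨h1.1, h2⟩

private theorem sup_compact {U : Set ℂ} {v : ℂ → ℝ} {t1 t : ℝ} (h : t1 ≤ t) (hA : IsCompact (sup U v t1))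
    (hc : ContinuousOn v (sup U v t1)) : IsCompact (sup U v t) := by
  rw [sup_eq h]
  exact hA.of_isClosed_subset (hc.preimage_isClosed_of_isClosed hA.isClosed isClosed_Ici) inter_subset_left

/-- the pairs `(z, t)` with `z` in the thickening of the superlevel set of `t` -/
private def EE (A : Set ℂ) (v : ℂ → ℝ) (t1 t2 δ : ℝ) : Set (ℂ × ℝ) :=
  {p | p.2 ∈ Icc t1 t2 ∧ ∃ y ∈ A, p.2 ≤ v y ∧ dist p.1 y ≤ δ}

private theorem EE_closed {A : Set ℂ} (hA : IsCompact A) {v : ℂ → ℝ} (hc : ContinuousOn v A) (t1 t2 δ : ℝ) :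
    IsCompact (EE A v t1 t2 δ) := by
  obtain ⟨R, hR⟩ := hA.isBounded.subset_closedBall (0 : ℂ)
  have h1 : IsCompact (A ×ˢ (closedBall (0 : ℂ) (R + δ) ×ˢ Icc t1 t2)) :=
    hA.prod ((isCompact_closedBall _ _).prod isCompact_Icc)
  have hcont : ContinuousOn (fun q : ℂ × (ℂ × ℝ) => (v q.1 - q.2.2, δ - dist q.2.1 q.1))
      (A ×ˢ (closedBall (0 : ℂ) (R + δ) ×ˢ Icc t1 t2)) := by
    refine ContinuousOn.prodMk (ContinuousOn.sub (hc.comp continuousOn_fst fun q hq => hq.1) ?_) ?_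
    · exact (continuous_snd.comp continuous_snd).continuousOn
    · exact (continuous_const.sub ((continuous_fst.comp continuous_snd).dist continuous_fst)).continuousOn
  have h2 := hcont.preimage_isClosed_of_isClosed h1.isClosed (isClosed_Ici (a := ((0 : ℝ), (0 : ℝ))))
  have h3 : IsCompact (A ×ˢ (closedBall (0 : ℂ) (R + δ) ×ˢ Icc t1 t2) ∩
      (fun q : ℂ × (ℂ × ℝ) => (v q.1 - q.2.2, δ - dist q.2.1 q.1)) ⁻¹' Ici ((0 : ℝ), (0 : ℝ))) :=
    h1.of_isClosed_subset h2 inter_subset_left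
  have h4 := h3.image (f := fun q : ℂ × (ℂ × ℝ) => q.2) continuous_snd
  convert h4 using 1
  ext ⟨z, t⟩
  simp only [EE, mem_ofPred_eq, mem_image, mem_inter_iff, mem_prod, mem_preimage, mem_Ici, Prod.mk_le_mk,
    sub_nonneg]
  constructor
  · rintro ⟨h5, y, hy, h6, h7⟩
    refine ⟨(y, (z, t)), ⟨⟨hy, ?_, h5⟩, h6, h7⟩, rfl⟩
    have h8 := hR hy
    rw [mem_closedBall] at h8 ⊢
    linarith [dist_triangle z y 0]
  · rintro ⟨⟨y, z', t'⟩, ⟨⟨hy, h8, h5⟩, h6, h7⟩, h9⟩
    obtain ⟨rfl, rfl⟩ := Prod.mk.inj h9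
    exact ⟨h5, y, hy, h6, h7⟩

/-- the pairs `(z, t)` with `z` in the superlevel set of `t` -/
private theorem FF_closed {A : Set ℂ} (hA : IsCompact A) {v : ℂ → ℝ} (hc : ContinuousOn v A) :
    IsClosed {p : ℂ × ℝ | p.1 ∈ A ∧ p.2 ≤ v p.1} := by
  have h1 : IsClosed (A ×ˢ (univ : Set ℝ)) := hA.isClosed.prod isClosed_univ
  have hcont : ContinuousOn (fun q : ℂ × ℝ => v q.1 - q.2) (A ×ˢ (univ : Set ℝ)) :=
    ContinuousOn.sub (hc.comp continuousOn_fst fun q hq => hq.1) continuous_snd.continuousOn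
  have h2 := hcont.preimage_isClosed_of_isClosed h1 (isClosed_Ici (a := (0 : ℝ)))
  convert h2 using 1
  ext ⟨z, t⟩
  simp

private theorem main_ineq (U : Set ℂ) (hU : IsOpen U) (v : ℂ → ℝ)
    (hv : ConcaveOn ℝ U v) (hv1 : ContDiffOn ℝ 1 v U) (t1 t2 : ℝ) (h12 : t1 < t2)
    (hA : IsCompact (sup U v t1)) (hne : (sup U v t2).Nonempty) {L : ℝ} {δ : ℝ} (hδ : 0 < δ)
    (hsub : cthickening δ (sup U v t1) ⊆ U) (hL : ∀ z ∈ cthickening δ (sup U v t1), ‖fderiv ℝ v z‖ ≤ L) :
    ∫ t in t1..t2, 2 * Real.sqrt Real.pi * Real.sqrt (ar (sup U v t)) ≤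
      (∫ z in sup U v t1 \ sup U v t2, ‖gradient v z‖) +
        L * (ar (cthickening δ (sup U v t1)) - ar (sup U v t1)) := by
  have hc : ContinuousOn v (sup U v t1) := hv1.continuousOn.mono fun z hz => hz.1
  have hcomp : ∀ t, t1 ≤ t → IsCompact (sup U v t) := fun t ht => sup_compact ht hA hc
  have hcf : ContinuousOn (fun z => fderiv ℝ v z) U := hv1.continuousOn_fderiv_of_isOpen hU le_rfl
  obtain ⟨y0, hy0⟩ := hne
  have hy1 : y0 ∈ sup U v t1 := ⟨hy0.1, h12.le.trans hy0.2⟩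
  have hL0 : 0 ≤ L := (norm_nonneg _).trans (hL y0 (self_subset_cthickening _ hy1))
  have hgrad : ∀ z, ‖gradient v z‖ = ‖fderiv ℝ v z‖ := fun z => LinearIsometryEquiv.norm_map _ _
  obtain ⟨S, hS⟩ : ∃ S, S = EE (sup U v t1) v t1 t2 δ \ {p : ℂ × ℝ | p.1 ∈ sup U v t1 ∧ p.2 ≤ v p.1} := ⟨_, rfl⟩
  have hSm : MeasurableSet S := by
    rw [hS]
    exact (EE_closed hA hc t1 t2 δ).isClosed.measurableSet.diff (FF_closed hA hc).measurableSet
  have hT : ∫⁻ z : ℂ, volume (Prod.mk z ⁻¹' S) = ∫⁻ t : ℝ, volume ((fun z : ℂ => (z, t)) ⁻¹' S) :=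
    (Measure.prod_apply hSm).symm.trans (Measure.prod_apply_symm hSm)
  have hlow : ∀ t ∈ Ioc t1 t2, ENNReal.ofReal (δ * (2 * Real.sqrt Real.pi * Real.sqrt (ar (sup U v t)))) ≤
      volume ((fun z : ℂ => (z, t)) ⁻¹' S) := by
    intro t ht
    have h1 : cthickening δ (sup U v t) \ sup U v t ⊆ (fun z : ℂ => (z, t)) ⁻¹' S := by
      rintro z ⟨hz1, hz2⟩
      rw [(hcomp t ht.1.le).cthickening_eq_biUnion_closedBall hδ.le, mem_iUnion₂] at hz1
      obtain ⟨y, hy, hzy⟩ := hz1
      rw [mem_preimage, hS]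
      refine ⟨⟨⟨ht.1.le, ht.2⟩, y, ⟨hy.1, ht.1.le.trans hy.2⟩, hy.2, hzy⟩, fun h => hz2 ⟨h.1.1, h.2⟩⟩
    refine le_trans ?_ (measure_mono h1)
    have h2 := nbhd_area (sup U v t) (hcomp t ht.1.le) ⟨y0, hy0.1, ht.2.trans hy0.2⟩ δ hδ.le
    rw [measure_sdiff (self_subset_cthickening _) (hcomp t ht.1.le).measurableSet.nullMeasurableSet
      (hcomp t ht.1.le).measure_lt_top.ne]
    refine ENNReal.ofReal_le_of_le_toReal ?_
    rw [ENNReal.toReal_sub_of_le (measure_mono (self_subset_cthickening _))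
      ((hcomp t ht.1.le).cthickening.measure_lt_top.ne)]
    unfold ar at h2 ⊢
    nlinarith
  have hup : ∀ z : ℂ, volume (Prod.mk z ⁻¹' S) ≤
      (sup U v t1 \ sup U v t2).indicator (fun z => ENNReal.ofReal (δ * ‖fderiv ℝ v z‖)) z +
      (cthickening δ (sup U v t1) \ sup U v t1).indicator (fun _ => ENNReal.ofReal (δ * L)) z := by
    intro z
    by_cases hz : z ∈ sup U v t1
    · by_cases hz2 : z ∈ sup U v t2
      · have h1 : Prod.mk z ⁻¹' S = ∅ := by
          rw [eq_empty_iff_forall_notMem]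
          intro t ht
          rw [mem_preimage, hS] at ht
          exact ht.2 ⟨hz, ht.1.1.2.trans hz2.2⟩
        rw [h1, measure_empty]
        exact zero_le
      · have h1 : Prod.mk z ⁻¹' S ⊆ Ioc (v z) (v z + δ * ‖fderiv ℝ v z‖) := by
          intro t ht
          rw [mem_preimage, hS] at ht
          obtain ⟨⟨h3, y, hy, h4, h5⟩, h6⟩ := ht
          have h7 := grad_ineq U hU v hv hv1 hz.1 hy.1
          have h8 : ‖fderiv ℝ v z‖ * dist z y ≤ ‖fderiv ℝ v z‖ * δ := mul_le_mul_of_nonneg_left h5 (norm_nonneg _)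
          refine ⟨?_, ?_⟩
          · by_contra h9
            exact h6 ⟨hz, not_lt.1 h9⟩
          · have h10 : t ≤ v y := h4
            linarith
        rw [indicator_of_mem (show z ∈ sup U v t1 \ sup U v t2 from ⟨hz, hz2⟩)]
        refine ((measure_mono h1).trans ?_).trans le_self_add
        rw [Real.volume_Ioc, add_sub_cancel_left]
    · by_cases hz2 : z ∈ cthickening δ (sup U v t1)
      · have hzU : z ∈ U := hsub hz2
        have hvz : v z < t1 := by
          by_contra h9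
          exact hz ⟨hzU, not_lt.1 h9⟩
        have h1 : Prod.mk z ⁻¹' S ⊆ Icc t1 (t1 + δ * L) := by
          intro t ht
          rw [mem_preimage, hS] at ht
          obtain ⟨⟨h3, y, hy, h4, h5⟩, h6⟩ := ht
          have h7 := grad_ineq U hU v hv hv1 hzU hy.1
          have h8 : ‖fderiv ℝ v z‖ * dist z y ≤ L * δ :=
            mul_le_mul (hL z hz2) h5 dist_nonneg hL0
          have h10 : t ≤ v y := h4
          exact ⟨h3.1, by linarith⟩
        rw [indicator_of_mem (show z ∈ cthickening δ (sup U v t1) \ sup U v t1 from ⟨hz2, hz⟩)]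
        refine ((measure_mono h1).trans ?_).trans le_add_self
        rw [Real.volume_Icc, add_sub_cancel_left]
      · have h1 : Prod.mk z ⁻¹' S = ∅ := by
          rw [eq_empty_iff_forall_notMem]
          intro t ht
          rw [mem_preimage, hS] at ht
          obtain ⟨⟨h3, y, hy, h4, h5⟩, h6⟩ := ht
          exact hz2 (mem_cthickening_of_dist_le z y δ _ hy h5)
        rw [h1, measure_empty]
        exact zero_le
  have hm1 : MeasurableSet (sup U v t1 \ sup U v t2) := hA.measurableSet.diff (hcomp t2 h12.le).measurableSet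
  have hm2 : MeasurableSet (cthickening δ (sup U v t1) \ sup U v t1) :=
    hA.cthickening.measurableSet.diff hA.measurableSet
  have hint : IntervalIntegrable (fun t => 2 * Real.sqrt Real.pi * Real.sqrt (ar (sup U v t))) volume t1 t2 := by
    refine AntitoneOn.intervalIntegrable ?_
    rw [uIcc_of_le h12.le]
    intro s hs t ht hst
    refine mul_le_mul_of_nonneg_left (Real.sqrt_le_sqrt ?_) (by positivity)
    exact ENNReal.toReal_mono (hcomp s hs.1).measure_lt_top.ne (measure_mono fun z hz => ⟨hz.1, hst.trans hz.2⟩)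
  have hL1 : ENNReal.ofReal (δ * ∫ t in t1..t2, 2 * Real.sqrt Real.pi * Real.sqrt (ar (sup U v t))) ≤
      ∫⁻ t : ℝ, volume ((fun z : ℂ => (z, t)) ⁻¹' S) := by
    rw [← intervalIntegral.integral_const_mul, intervalIntegral.integral_of_le h12.le,
      ofReal_integral_eq_lintegral_ofReal (hint.const_mul δ).1
        (Eventually.of_forall fun t => by positivity)]
    exact (setLIntegral_mono' measurableSet_Ioc hlow).trans (setLIntegral_le_lintegral _ _)
  have hint2 : IntegrableOn (fun z => ‖fderiv ℝ v z‖) (sup U v t1 \ sup U v t2) volume :=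
    ((hcf.mono fun z hz => hz.1).norm.integrableOn_compact hA).mono_set sdiff_subset
  have hU1 : ∫⁻ z : ℂ, volume (Prod.mk z ⁻¹' S) ≤
      ENNReal.ofReal (δ * ∫ z in sup U v t1 \ sup U v t2, ‖fderiv ℝ v z‖) +
      ENNReal.ofReal (δ * L * (ar (cthickening δ (sup U v t1)) - ar (sup U v t1))) := by
    refine (lintegral_mono hup).trans ?_
    rw [lintegral_add_right _ (measurable_const.indicator hm2), lintegral_indicator hm1, lintegral_indicator hm2,
      ← integral_const_mul, ofReal_integral_eq_lintegral_ofReal (hint2.const_mul δ)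
        (Eventually.of_forall fun t => by positivity), setLIntegral_const,
      ENNReal.ofReal_mul (mul_nonneg hδ.le hL0)]
    refine add_le_add le_rfl (mul_le_mul_right ?_ _)
    rw [measure_sdiff (self_subset_cthickening _) hA.measurableSet.nullMeasurableSet hA.measure_lt_top.ne,
      ar, ar, ← ENNReal.toReal_sub_of_le (measure_mono (self_subset_cthickening _))
      hA.cthickening.measure_lt_top.ne, ENNReal.ofReal_toReal]
    exact ne_top_of_le_ne_top hA.cthickening.measure_lt_top.ne tsub_le_self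
  have hmn : 0 ≤ ar (cthickening δ (sup U v t1)) - ar (sup U v t1) := by
    rw [sub_nonneg]
    exact ENNReal.toReal_mono hA.cthickening.measure_lt_top.ne (measure_mono (self_subset_cthickening _))
  have hHn : 0 ≤ ∫ z in sup U v t1 \ sup U v t2, ‖fderiv ℝ v z‖ := integral_nonneg fun z => norm_nonneg _
  have hfin := hL1.trans (hT.symm.le.trans hU1)
  rw [← ENNReal.ofReal_add (mul_nonneg hδ.le hHn) (mul_nonneg (mul_nonneg hδ.le hL0) hmn),
    ENNReal.ofReal_le_ofReal_iff (add_nonneg (mul_nonneg hδ.le hHn) (mul_nonneg (mul_nonneg hδ.le hL0) hmn)),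
    mul_assoc, ← mul_add] at hfin
  have h := le_of_mul_le_mul_left hfin hδ
  simp only [hgrad]
  exact h

theorem slab_int (U : Set ℂ) (hU : IsOpen U) (hUc : Convex ℝ U) (v : ℂ → ℝ)
    (hv : ConcaveOn ℝ U v) (hv1 : ContDiffOn ℝ 1 v U) (t1 t2 : ℝ) (h12 : t1 < t2)
    (hA : IsCompact (sup U v t1)) (hne : (sup U v t2).Nonempty) :
    ∫ t in t1..t2, 2 * Real.sqrt Real.pi * Real.sqrt (ar (sup U v t)) ≤
      ∫ z in sup U v t1 \ sup U v t2, ‖gradient v z‖ := by
  obtain ⟨ρ, hρ, hsub⟩ := hA.exists_cthickening_subset_open hU (fun z hz => hz.1)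
  have hcf : ContinuousOn (fun z => fderiv ℝ v z) U := hv1.continuousOn_fderiv_of_isOpen hU le_rfl
  obtain ⟨L, hL⟩ := (hA.cthickening (r := ρ)).exists_bound_of_continuousOn (hcf.mono hsub)
  have h1 : Tendsto (fun δ : ℝ => (∫ z in sup U v t1 \ sup U v t2, ‖gradient v z‖) +
        L * (ar (cthickening δ (sup U v t1)) - ar (sup U v t1))) (𝓝[>] 0)
      (𝓝 ((∫ z in sup U v t1 \ sup U v t2, ‖gradient v z‖) + L * (ar (sup U v t1) - ar (sup U v t1)))) := by
    have h2 : Tendsto (fun δ : ℝ => ar (cthickening δ (sup U v t1))) (𝓝[>] 0) (𝓝 (ar (sup U v t1))) :=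
      ((ENNReal.tendsto_toReal hA.measure_lt_top.ne).comp (tendsto_measure_cthickening_of_isCompact hA)).mono_left
        nhdsWithin_le_nhds
    exact tendsto_const_nhds.add (tendsto_const_nhds.mul (h2.sub tendsto_const_nhds))
  rw [sub_self, mul_zero, add_zero] at h1
  refine ge_of_tendsto h1 ?_
  filter_upwards [Ioo_mem_nhdsGT hρ] with δ hδ
  have h3 : cthickening δ (sup U v t1) ⊆ cthickening ρ (sup U v t1) := cthickening_mono hδ.2.le _
  exact main_ineq U hU v hv hv1 t1 t2 h12 hA hne hδ.1 (h3.trans hsub) fun z hz => hL z (h3 hz)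

end Pool.Agent.HAS
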