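import Pool.Agent.HAS.PlC

/-!
# Slabs: the energy (module PlC2)

PLAN.  `a(t) = ar (sup U v t)`.  `√a` is concave on `[t1,t2]` by `conc_area` (superlevel sets of a concave
function: `(1-s) sup(t) + s sup(t') ⊆ sup((1-s)t + s t')`), so
`∫_{t1}^{t2} √a ≥ (t2-t1)(√a(t1)+√a(t2))/2` (pointwise lower bound by the chord), and `slab_int` gives
`√π (t2-t1)(√a(t1)+√a(t2)) ≤ ∫_{slab} ‖∇v‖`.  Cauchy-Schwarz:
`(∫_{slab} ‖∇v‖)² ≤ (a(t1)-a(t2)) ∫_{slab} ‖∇v‖²` (`v` is C¹ on the compact set `sup U v t1`, everything integrable;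
`vol(sup t1 \ sup t2) = a(t1) - a(t2)`).
`slab_lt`: if `a(t1) = a(t2)` the right side vanishes, but the left side is `> 0` when `a(t2) > 0`.
`a_pos`: if some point has `v > t` then, `v` being continuous on the open set `U`, the set
`{v > t}` is open and nonempty, so it has positive area.
-/

set_option autoImplicit false

namespace Pool.Agent.HAS

open MeasureTheory Metric Set

private theorem plc2_cpt {U : Set ℂ} {v : ℂ → ℝ} (hv1 : ContinuousOn v U) {t1 t : ℝ} (h : t1 ≤ t)
    (hA : IsCompact (sup U v t1)) : IsCompact (sup U v t) := by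
  have h1 : sup U v t = sup U v t1 ∩ v ⁻¹' Set.Ici t := by
    ext z
    simp only [sup, mem_ofPred_eq, mem_inter_iff, mem_preimage, mem_Ici]
    constructor
    · rintro ⟨h1, h2⟩
      exact ⟨⟨h1, h.trans h2⟩, h2⟩
    · rintro ⟨⟨h1, _⟩, h2⟩
      exact ⟨h1, h2⟩
  have h2 : IsClosed (sup U v t1 ∩ v ⁻¹' Set.Ici t) :=
    ContinuousOn.preimage_isClosed_of_isClosed (hv1.mono fun z hz => hz.1) hA.isClosed isClosed_Ici
  rw [h1]
  exact hA.of_isClosed_subset h2 inter_subset_left

private theorem plc2_sub {U : Set ℂ} {v : ℂ → ℝ} {t1 t : ℝ} (h : t1 ≤ t) :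
    sup U v t ⊆ sup U v t1 := fun _ hz => ⟨hz.1, h.trans hz.2⟩

private theorem plc2_anti {U : Set ℂ} {v : ℂ → ℝ} (hv1 : ContinuousOn v U) {t1 s t : ℝ}
    (h1 : t1 ≤ s) (h : s ≤ t) (hA : IsCompact (sup U v t1)) :
    ar (sup U v t) ≤ ar (sup U v s) := by
  unfold ar
  exact ENNReal.toReal_mono (plc2_cpt hv1 h1 hA).measure_lt_top.ne (measure_mono (plc2_sub h))

/-- the chord of the square root of the area -/
private theorem plc2_chord {U : Set ℂ} {v : ℂ → ℝ}
    (hv : ConcaveOn ℝ U v) (hv1 : ContinuousOn v U) {t1 t2 s : ℝ} (h12 : t1 ≤ t2) (hs : 0 ≤ s)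
    (hs1 : s ≤ 1) (hA : IsCompact (sup U v t1)) (hne : (sup U v t2).Nonempty) :
    (1 - s) * Real.sqrt (ar (sup U v t1)) + s * Real.sqrt (ar (sup U v t2)) ≤
      Real.sqrt (ar (sup U v ((1 - s) * t1 + s * t2))) := by
  have h1 : t1 ≤ (1 - s) * t1 + s * t2 := by nlinarith
  refine conc_area _ _ _ hA (plc2_cpt hv1 h12 hA) (hne.mono (plc2_sub h12)) hne
    (plc2_cpt hv1 h1 hA) (1 - s) s (by linarith) hs ?_
  rintro x ⟨hx1, hx2⟩ y ⟨hy1, hy2⟩
  refine ⟨hv.1 hx1 hy1 (by linarith) hs (by ring), ?_⟩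
  have h2 := hv.2 hx1 hy1 (by linarith : (0 : ℝ) ≤ 1 - s) hs (by ring)
  simp only [smul_eq_mul] at h2
  have h3 : (1 - s) * t1 ≤ (1 - s) * v x := mul_le_mul_of_nonneg_left hx2 (by linarith)
  have h4 : s * t2 ≤ s * v y := mul_le_mul_of_nonneg_left hy2 hs
  show (1 - s) * t1 + s * t2 ≤ v ((1 - s) • x + s • y)
  linarith

private theorem plc2_cs {S : Set ℂ} (hS : MeasurableSet S) (hfin : volume S ≠ ⊤) {g : ℂ → ℝ}
    (h1 : IntegrableOn g S) (h2 : IntegrableOn (fun z => g z ^ 2) S) :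
    (∫ z in S, g z) ^ 2 ≤ (volume S).toReal * ∫ z in S, g z ^ 2 := by
  set V := (volume S).toReal with hV
  set I := ∫ z in S, g z with hI
  set Q := ∫ z in S, g z ^ 2 with hQ
  have h3 : 0 ≤ ∫ z in S, (V * g z - I) ^ 2 := integral_nonneg fun z => sq_nonneg _
  have h4 : ∫ z in S, (V * g z - I) ^ 2 = V ^ 2 * Q - 2 * V * I * I + I ^ 2 * V := by
    have hc : IntegrableOn (fun _ : ℂ => I ^ 2) S := by
      exact integrableOn_const hfin
    have e1 : ∀ z, (V * g z - I) ^ 2 = (V ^ 2 * g z ^ 2 - 2 * V * I * g z) + I ^ 2 := fun z => by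
      ring
    simp only [e1]
    have e3 : Integrable (fun z => V ^ 2 * g z ^ 2) (volume.restrict S) := h2.const_mul _
    have e4 : Integrable (fun z => 2 * V * I * g z) (volume.restrict S) := h1.const_mul _
    have e5 : Integrable (fun z => V ^ 2 * g z ^ 2 - 2 * V * I * g z) (volume.restrict S) :=
      e3.sub e4
    rw [integral_add e5 hc, integral_sub e3 e4, integral_const_mul, integral_const_mul,
      setIntegral_const, smul_eq_mul]
    show V ^ 2 * Q - 2 * V * I * I + V * I ^ 2 = _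
    ring
  rw [h4] at h3
  have hV0 : 0 ≤ V := ENNReal.toReal_nonneg
  rcases hV0.eq_or_lt with h0 | h0
  · have h5 : volume S = 0 := by
      rcases (ENNReal.toReal_eq_zero_iff _).1 h0.symm with h | h
      · exact h
      · exact absurd h hfin
    have h6 : I = 0 := by
      rw [hI, Measure.restrict_eq_zero.2 h5, integral_zero_measure]
    rw [h6, ← h0]
    simp
  · have h5 : 0 ≤ V * (V * Q - I ^ 2) := by nlinarith
    have h6 := nonneg_of_mul_nonneg_right h5 h0
    linarith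

theorem slab_energy (U : Set ℂ) (hU : IsOpen U) (hUc : Convex ℝ U) (v : ℂ → ℝ)
    (hv : ConcaveOn ℝ U v) (hv1 : ContDiffOn ℝ 1 v U) (t1 t2 : ℝ) (h12 : t1 < t2)
    (hA : IsCompact (sup U v t1)) (hne : (sup U v t2).Nonempty) :
    Real.pi * (t2 - t1) ^ 2 * (Real.sqrt (ar (sup U v t1)) + Real.sqrt (ar (sup U v t2))) ^ 2 ≤
      (ar (sup U v t1) - ar (sup U v t2)) *
        ∫ z in sup U v t1 \ sup U v t2, ‖gradient v z‖ ^ 2 := by
  have hvc : ContinuousOn v U := hv1.continuousOn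
  have hB : IsCompact (sup U v t2) := plc2_cpt hvc h12.le hA
  have h1 := slab_int U hU hUc v hv hv1 t1 t2 h12 hA hne
  set a1 := Real.sqrt (ar (sup U v t1)) with ha1
  set a2 := Real.sqrt (ar (sup U v t2)) with ha2
  -- the chord
  have h2 : Real.sqrt Real.pi * (t2 - t1) * (a1 + a2) ≤
      ∫ t in t1..t2, 2 * Real.sqrt Real.pi * Real.sqrt (ar (sup U v t)) := by
    have hd : 0 < t2 - t1 := by linarith
    have e1 : ∫ t in t1..t2, 2 * Real.sqrt Real.pi *
        (a1 + (t - t1) / (t2 - t1) * (a2 - a1)) = Real.sqrt Real.pi * (t2 - t1) * (a1 + a2) := by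
      rw [intervalIntegral.integral_const_mul]
      have e2 : ∀ t : ℝ, a1 + (t - t1) / (t2 - t1) * (a2 - a1) =
          (a1 - t1 * ((a2 - a1) / (t2 - t1))) + ((a2 - a1) / (t2 - t1)) * t := fun t => by
        field_simp
        ring
      simp only [e2]
      rw [intervalIntegral.integral_add (by simp) (by
        exact (continuous_const.mul continuous_id).intervalIntegrable _ _),
        intervalIntegral.integral_const, intervalIntegral.integral_const_mul, integral_id,
        smul_eq_mul]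
      field_simp
      ring
    rw [← e1]
    refine intervalIntegral.integral_mono_on h12.le ?_ ?_ ?_
    · refine Continuous.intervalIntegrable ?_ _ _
      fun_prop
    · refine IntervalIntegrable.const_mul ?_ _
      refine AntitoneOn.intervalIntegrable ?_
      rw [uIcc_of_le h12.le]
      intro s hs t ht hst
      exact Real.sqrt_le_sqrt (plc2_anti hvc hs.1 hst hA)
    · intro t ht
      refine mul_le_mul_of_nonneg_left ?_ (by positivity)
      have hs0 : 0 ≤ (t - t1) / (t2 - t1) := div_nonneg (by linarith [ht.1]) hd.le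
      have hs1 : (t - t1) / (t2 - t1) ≤ 1 := by
        rw [div_le_one hd]
        linarith [ht.2]
      have h3 := plc2_chord hv hvc h12.le hs0 hs1 hA hne
      have h4 : (1 - (t - t1) / (t2 - t1)) * t1 + (t - t1) / (t2 - t1) * t2 = t := by
        field_simp
        ring
      rw [h4] at h3
      calc a1 + (t - t1) / (t2 - t1) * (a2 - a1) =
          (1 - (t - t1) / (t2 - t1)) * a1 + (t - t1) / (t2 - t1) * a2 := by ring
        _ ≤ _ := h3
  have h3 := h2.trans h1
  -- integrability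
  have hgc : ContinuousOn (fun z => ‖gradient v z‖) U := by
    have h5 : ContinuousOn (fderiv ℝ v) U := hv1.continuousOn_fderiv_of_isOpen hU le_rfl
    have h6 : ContinuousOn (fun z => (InnerProductSpace.toDual ℝ ℂ).symm (fderiv ℝ v z)) U :=
      (LinearIsometryEquiv.continuous _).comp_continuousOn h5
    exact h6.norm
  have hS : MeasurableSet (sup U v t1 \ sup U v t2) := hA.measurableSet.diff hB.measurableSet
  have hsub : sup U v t1 ⊆ U := fun z hz => hz.1
  have hi1 : IntegrableOn (fun z => ‖gradient v z‖) (sup U v t1 \ sup U v t2) :=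
    ((hgc.mono hsub).integrableOn_compact hA).mono_set diff_subset
  have hi2 : IntegrableOn (fun z => ‖gradient v z‖ ^ 2) (sup U v t1 \ sup U v t2) :=
    (((hgc.pow 2).mono hsub).integrableOn_compact hA).mono_set diff_subset
  have hfin : volume (sup U v t1 \ sup U v t2) ≠ ⊤ :=
    ((measure_mono diff_subset).trans_lt hA.measure_lt_top).ne
  have h5 := plc2_cs hS hfin hi1 hi2
  have h6 : (volume (sup U v t1 \ sup U v t2)).toReal = ar (sup U v t1) - ar (sup U v t2) := by
    rw [measure_sdiff (plc2_sub h12.le) hB.measurableSet.nullMeasurableSet hB.measure_lt_top.ne,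
      ENNReal.toReal_sub_of_le (measure_mono (plc2_sub h12.le)) hA.measure_lt_top.ne]
    rfl
  rw [h6] at h5
  refine le_trans ?_ h5
  have h7 : 0 ≤ Real.sqrt Real.pi * (t2 - t1) * (a1 + a2) := by
    have : 0 ≤ t2 - t1 := by linarith
    positivity
  calc Real.pi * (t2 - t1) ^ 2 * (a1 + a2) ^ 2 =
      (Real.sqrt Real.pi * (t2 - t1) * (a1 + a2)) ^ 2 := by
        rw [mul_pow, mul_pow, Real.sq_sqrt Real.pi_pos.le]
    _ ≤ _ := pow_le_pow_left₀ h7 h3 2

theorem a_pos (U : Set ℂ) (hU : IsOpen U) (v : ℂ → ℝ) (hv1 : ContDiffOn ℝ 1 v U) (t : ℝ)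
    (hA : IsCompact (sup U v t)) (z : ℂ) (hz : z ∈ U) (ht : t < v z) :
    0 < ar (sup U v t) := by
  have h1 : IsOpen (U ∩ v ⁻¹' Set.Ioi t) := hv1.continuousOn.isOpen_inter_preimage hU isOpen_Ioi
  have h2 : (U ∩ v ⁻¹' Set.Ioi t).Nonempty := ⟨z, hz, ht⟩
  have h3 : U ∩ v ⁻¹' Set.Ioi t ⊆ sup U v t := fun w hw => ⟨hw.1, (mem_Ioi.1 hw.2).le⟩
  have h4 : 0 < volume (sup U v t) := (h1.measure_pos volume h2).trans_le (measure_mono h3)
  exact ENNReal.toReal_pos h4.ne' hA.measure_lt_top.ne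

theorem a_lt (U : Set ℂ) (hU : IsOpen U) (hUc : Convex ℝ U) (v : ℂ → ℝ)
    (hv : ConcaveOn ℝ U v) (hv1 : ContDiffOn ℝ 1 v U) (t1 t2 : ℝ) (h12 : t1 < t2)
    (hA : IsCompact (sup U v t1)) (z : ℂ) (hz : z ∈ U) (ht : t2 < v z) :
    ar (sup U v t2) < ar (sup U v t1) := by
  have hvc : ContinuousOn v U := hv1.continuousOn
  have hB : IsCompact (sup U v t2) := plc2_cpt hvc h12.le hA
  have h1 := a_pos U hU v hv1 t2 hB z hz ht
  have h2 := plc2_anti hvc le_rfl h12.le hA
  rcases h2.lt_or_eq with h | h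
  · exact h
  · exfalso
    have h3 := slab_energy U hU hUc v hv hv1 t1 t2 h12 hA ⟨z, hz, ht.le⟩
    rw [h, sub_self, zero_mul] at h3
    rw [h] at h1
    have h4 : 0 < Real.sqrt (ar (sup U v t1)) := Real.sqrt_pos.2 h1
    have h5 : 0 < t2 - t1 := by linarith
    have h6 : 0 < Real.pi * (t2 - t1) ^ 2 *
        (Real.sqrt (ar (sup U v t1)) + Real.sqrt (ar (sup U v t1))) ^ 2 := by
      have := Real.pi_pos
      positivity
    linarith

/-- concavity of the square root of the area of the superlevel sets -/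
theorem a_conc (U : Set ℂ) (hU : IsOpen U) (hUc : Convex ℝ U) (v : ℂ → ℝ)
    (hv : ConcaveOn ℝ U v) (hv1 : ContDiffOn ℝ 1 v U) (t d : ℝ) (hd : 0 < d)
    (hA : IsCompact (sup U v t)) (hne : (sup U v (t + 2 * d)).Nonempty) :
    Real.sqrt (ar (sup U v t)) + Real.sqrt (ar (sup U v (t + 2 * d))) ≤
      2 * Real.sqrt (ar (sup U v (t + d))) := by
  have h1 := plc2_chord (s := 1 / 2) hv hv1.continuousOn (by linarith : t ≤ t + 2 * d)
    (by norm_num) (by norm_num) hA hne
  have h2 : (1 - 1 / 2) * t + 1 / 2 * (t + 2 * d) = t + d := by ring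
  rw [h2] at h1
  linarith

end Pool.Agent.HAS
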