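import Pool.Agent.HAS.Defs
import Pool.Agent.HVM.Fin

/-!
# The box of a body (module StrA)

PLAN.  This is `fin_core` of Pool/Agent/HVM/Fin.lean (private there) with the orthonormal basis and the box kept in the
conclusion: copy its proof (parts (i) and (iv) only) and return `b` and `hbox` from `box` (Pool/Agent/HVM/Box.lean);
`pts K' = (fun x => x + v) '' pts K`.  The constants `204800000`, `614400000` may be replaced in the proof by anything
smaller; keep the statement.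
-/

set_option autoImplicit false

namespace Pool.Agent.HAS

open MeasureTheory Metric Set
open Pool.Agent.Helper85.Herm Pool.Agent.Helper85.Cap Pool.Agent.HVM

private theorem strA_muab10 (K : Body) (α : ℝ) :
    muab 1 0 K = (4 * Mu (Uq α) K - V2 K) + (4 * Mu (Uq (α + Real.pi / 2)) K - V2 K) := by
  have h := tri K α
  unfold V2 muab
  linarith

private theorem strA_angle (p q : ℝ) : ∃ α : ℝ, Real.cos α * p + Real.sin α * q = 0 := by
  by_cases hq : q = 0
  · exact ⟨Real.pi / 2, by rw [hq, Real.cos_pi_div_two]; ring⟩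
  · refine ⟨Real.arctan (-p / q), ?_⟩
    have h1 : Real.sin (Real.arctan (-p / q)) =
        Real.tan (Real.arctan (-p / q)) * Real.cos (Real.arctan (-p / q)) := by
      rw [Real.tan_mul_cos (Real.cos_arctan_pos _).ne']
    rw [h1, Real.tan_arctan]
    field_simp
    ring

/-- bounds for `⟨y, w⟩` from a box -/
private theorem strA_box (b : OrthonormalBasis (Fin 4) ℝ C2) (r : Fin 4 → ℝ) (y w : C2)
    (hy : ∀ i, |inner ℝ y (b i)| ≤ 4 * r i) (_hw : ‖w‖ = 1) (m : Fin 4 → ℝ)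
    (hm : ∀ i, |inner ℝ (b i) w| ≤ m i) (hr : ∀ i, 0 ≤ r i) :
    |inner ℝ y w| ≤ 4 * r 0 * m 0 + 4 * r 1 * m 1 + 4 * r 2 * m 2 + 4 * r 3 * m 3 := by
  have h1 : (inner ℝ y w : ℝ) = ∑ i, inner ℝ y (b i) * inner ℝ (b i) w :=
    (b.sum_inner_mul_inner y w).symm
  rw [h1]
  refine (Finset.abs_sum_le_sum_abs _ _).trans ?_
  rw [Fin.sum_univ_four]
  have h2 : ∀ i, |inner ℝ y (b i) * inner ℝ (b i) w| ≤ 4 * r i * m i := by
    intro i
    rw [abs_mul]
    exact mul_le_mul (hy i) (hm i) (abs_nonneg _) (by linarith [hr i])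
  linarith [h2 0, h2 1, h2 2, h2 3]

private theorem strA_le_one (b : OrthonormalBasis (Fin 4) ℝ C2) (w : C2) (hw : ‖w‖ = 1) (i : Fin 4) :
    |inner ℝ (b i) w| ≤ 1 := by
  have := abs_real_inner_le_norm (b i) w
  rwa [hw, b.norm_eq_one, mul_one] at this

private theorem strA_pi : Real.pi ^ 2 ≤ 10 := by
  have h1 := Real.pi_lt_d2
  have h2 := Real.pi_pos
  nlinarith

theorem str_core (K : Body) (hK : UnitVolume K) :
    ∃ (v : C2) (b : OrthonormalBasis (Fin 4) ℝ C2) (r : Fin 4 → ℝ),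
      0 < r 3 ∧ r 3 ≤ r 2 ∧ r 2 ≤ r 1 ∧ r 1 ≤ r 0 ∧
      1 ≤ 1300 * (r 0 * r 1 * r 2 * r 3) ∧
      (∀ y ∈ pts K, ∀ i, |inner ℝ (y + v) (b i)| ≤ 4 * r i) ∧
      r 0 * r 1 ≤ 204800000 * V2 K ∧
      (r 0 * r 2) ^ 2 ≤ 614400000 ^ 2 * (F K * V2 K) := by
  show ∃ (v : C2) (b : OrthonormalBasis (Fin 4) ℝ C2) (r : Fin 4 → ℝ),
      0 < r 3 ∧ r 3 ≤ r 2 ∧ r 2 ≤ r 1 ∧ r 1 ≤ r 0 ∧
      1 ≤ 1300 * (r 0 * r 1 * r 2 * r 3) ∧
      (∀ y ∈ pts K, ∀ i, |inner ℝ (y + v) (b i)| ≤ 4 * r i) ∧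
      r 0 * r 1 ≤ 204800000 * V2 K ∧
      (r 0 * r 2) ^ 2 ≤ 614400000 ^ 2 * (muab 1 0 K * V2 K)
  have hvolK : (volume (pts K)).toReal = 1 := by
    have h : volume (pts K) = 1 := hK
    rw [h]
    simp
  obtain ⟨v, K', b, r, hpts, h3, h32, h21, h10, hbox, hball, hvu, hvl⟩ :=
    box K (by rw [hvolK]; norm_num)
  have hvol' : volume (pts K') = volume (pts K) := by
    rw [hpts, Set.image_add_right, measure_preimage_add_right]
  have hV : V2 K' = V2 K := muab_translation 1 1 K K' v hpts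
  have hF : muab 1 0 K' = muab 1 0 K := muab_translation 1 0 K K' v hpts
  rw [← hV, ← hF]
  rw [hvol', hvolK] at hvu hvl
  have hr2 : 0 < r 2 := lt_of_lt_of_le h3 h32
  have hr1 : 0 < r 1 := lt_of_lt_of_le hr2 h21
  have hr0 : 0 < r 0 := lt_of_lt_of_le hr1 h10
  have hr : ∀ i, 0 ≤ r i := by
    intro i
    fin_cases i
    · exact hr0.le
    · exact hr1.le
    · exact hr2.le
    · exact h3.le
  obtain ⟨R, hR⟩ : ∃ R, R = r 0 * r 1 * r 2 * r 3 := ⟨_, rfl⟩
  rw [← hR] at hvu hvl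
  have hR0 : 0 < R := by rw [hR]; positivity
  have hR1 : R ≤ 40000 := by linarith
  have hR2 : R ^ 2 ≤ 40000 ^ 2 := pow_le_pow_left₀ hR0.le hR1 2
  have hJn : 0 ≤ 4 * Mu JL K' - V2 K' := G_nonneg K' JL J_J
  have hJl : 4 * Mu JL K' - V2 K' ≤ V2 K' := G_le K' JL J_J
  have hV0 : 0 ≤ V2 K' := hJn.trans hJl
  -- the key inequality
  have key : ∀ (u : C2 ≃ₗᵢ[ℝ] C2) (hu : ∀ x, u (u x) = -x) (e : C2) (he : ‖e‖ = 1) (A B : ℝ)
      (hA : ∀ y ∈ pts K', |inner ℝ y (u e)| ≤ A) (hB : ∀ y ∈ pts K', |inner ℝ y e| ≤ B),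
      0 ≤ A → 0 ≤ B →
      r 3 ≤ 25600 * ((4 * Mu u K' - V2 K') * V2 K') * A ^ 2 * B ^ 3 := by
    intro u hu e he A B hA hB hA0 hB0
    have h1 := key_ineq K' (r 3 / 20) (by positivity) hball u hu e he A B hA hB
    rw [hvol', hvolK] at h1
    have h2 : 0 ≤ (4 * Mu u K' - V2 K') * V2 K' := mul_nonneg (G_nonneg K' u hu) hV0
    have h3 : 0 ≤ ((4 * Mu u K' - V2 K') * V2 K') * A ^ 2 * B ^ 3 := by positivity
    have h4 := mul_le_mul_of_nonneg_right strA_pi h3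
    nlinarith
  refine ⟨v, b, r, h3, h32, h21, h10, by linarith, ?_, ?_, ?_⟩
  · intro y hy i
    exact hbox i _ (by rw [hpts]; exact ⟨y, hy, rfl⟩)
  · -- (i)
    let u : C2 ≃ₗᵢ[ℝ] C2 := (b.repr.trans JL).trans b.repr.symm
    have hu : ∀ x, u (u x) = -x := by
      intro x
      change b.repr.symm (J (b.repr (b.repr.symm (J (b.repr x))))) = -x
      rw [b.repr.apply_symm_apply, J_J, map_neg, b.repr.symm_apply_apply]
    have hub : u (b 3) = -b 2 := by
      change b.repr.symm (J (b.repr (b 3))) = -b 2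
      rw [b.repr_self]
      have hJ : J (EuclideanSpace.single (3 : Fin 4) (1 : ℝ)) =
          -EuclideanSpace.single (2 : Fin 4) (1 : ℝ) := by
        apply C2_ext <;> simp [J]
      rw [hJ, map_neg, b.repr_symm_single]
    have h1 := key u hu (b 3) (b.norm_eq_one 3) (4 * r 2) (4 * r 3) (by
      intro y hy
      rw [hub, inner_neg_right, abs_neg]
      exact hbox 2 y hy) (fun y hy => hbox 3 y hy) (by positivity) (by positivity)
    have h2 : 0 ≤ 4 * Mu u K' - V2 K' := G_nonneg K' u hu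
    have h4 : 4 * Mu u K' - V2 K' ≤ V2 K' := G_le K' u hu
    have h5 : (4 * Mu u K' - V2 K') * V2 K' ≤ V2 K' ^ 2 := by nlinarith
    have h6 : (r 0 * r 1) ^ 2 * r 3 ≤ (204800000 * V2 K') ^ 2 * r 3 := by
      have h7 : r 3 ≤ 25600 * V2 K' ^ 2 * (4 * r 2) ^ 2 * (4 * r 3) ^ 3 := by
        refine h1.trans ?_
        gcongr
      calc (r 0 * r 1) ^ 2 * r 3 ≤
          (r 0 * r 1) ^ 2 * (25600 * V2 K' ^ 2 * (4 * r 2) ^ 2 * (4 * r 3) ^ 3) :=
            mul_le_mul_of_nonneg_left h7 (by positivity)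
        _ = 25600 * 1024 * V2 K' ^ 2 * R ^ 2 * r 3 := by rw [hR]; ring
        _ ≤ 25600 * 1024 * V2 K' ^ 2 * 40000 ^ 2 * r 3 := by gcongr
        _ = (204800000 * V2 K') ^ 2 * r 3 := by ring
    have h8 := le_of_mul_le_mul_right h6 h3
    exact (pow_le_pow_iff_left₀ (by positivity) (by positivity) two_ne_zero).1 h8
  · -- (iv)
    obtain ⟨α, hα⟩ := strA_angle (inner ℝ (b 0) (Iq (b 3))) (inner ℝ (b 0) (Kq (b 3)))
    have hUb : ‖Uq α (b 3)‖ = 1 := by rw [Uq_norm, b.norm_eq_one]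
    have h0 : (inner ℝ (b 0) (Uq α (b 3)) : ℝ) = 0 := by
      unfold Uq
      rw [inner_add_right, inner_smul_right, inner_smul_right]
      exact hα
    have h1 := key (UL α) (Uq_Uq α) (b 3) (b.norm_eq_one 3) (12 * r 1) (4 * r 3) (by
      intro y hy
      have h2 := strA_box b r y (Uq α (b 3)) (fun i => hbox i y hy) hUb
        (fun i => if i = 0 then 0 else 1) (by
          intro i
          by_cases hi : i = 0
          · rw [hi, h0, if_pos rfl, abs_zero]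
          · rw [if_neg hi]
            exact strA_le_one b _ hUb i) hr
      refine h2.trans ?_
      simp only [if_true, if_neg (by decide : ¬ (1 : Fin 4) = 0),
        if_neg (by decide : ¬ (2 : Fin 4) = 0), if_neg (by decide : ¬ (3 : Fin 4) = 0)]
      linarith) (fun y hy => hbox 3 y hy) (by positivity) (by positivity)
    have h2 := G_nonneg K' (UL α) (Uq_Uq α)
    have h4 := G_nonneg K' (UL (α + Real.pi / 2)) (Uq_Uq _)
    rw [UL_coe] at h1 h2 h4
    have h5 : 4 * Mu (Uq α) K' - V2 K' ≤ muab 1 0 K' := by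
      rw [strA_muab10 K' α]
      linarith
    obtain ⟨P, hP⟩ : ∃ P, P = muab 1 0 K' * V2 K' := ⟨_, rfl⟩
    rw [← hP]
    have hP1 : (4 * Mu (Uq α) K' - V2 K') * V2 K' ≤ P := by
      rw [hP]; exact mul_le_mul_of_nonneg_right h5 hV0
    have hP0 : 0 ≤ P := (mul_nonneg h2 hV0).trans hP1
    have h7 : r 3 ≤ 25600 * P * (12 * r 1) ^ 2 * (4 * r 3) ^ 3 := by
      refine h1.trans ?_
      gcongr
    have h6 : (r 0 * r 2) ^ 2 * r 3 ≤ (614400000 ^ 2 * P) * r 3 := by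
      calc (r 0 * r 2) ^ 2 * r 3 ≤
          (r 0 * r 2) ^ 2 * (25600 * P * (12 * r 1) ^ 2 * (4 * r 3) ^ 3) :=
            mul_le_mul_of_nonneg_left h7 (by positivity)
        _ = 25600 * 9216 * P * R ^ 2 * r 3 := by rw [hR]; ring
        _ ≤ 25600 * 9216 * P * 40000 ^ 2 * r 3 := by gcongr
        _ = (614400000 ^ 2 * P) * r 3 := by ring
    exact le_of_mul_le_mul_right h6 h3

end Pool.Agent.HAS
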