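import Pool.Agent.HAS.Defs

/-!
# `V2` of a body in a box (module StrB)

CLAIM `V2 K ≤ C r0 r1`.

PLAN.  `V2 K = muab 1 1 K = Mu J K + 2 MLag K` (unfold `muab`), `Mu u K = (2π²)⁻¹ ∫ area u K w exp(-‖w‖²)`,
`MLag` = mean of `Mu (Uq α)`.  It suffices: `area u K w ≤ C' r0 r1 ‖w‖²` for `‖u w‖ = ‖w‖` (`u = J`, `Uq α`; norms:
`J_norm`, `Uq_norm`), and `∫ ‖w‖² exp(-‖w‖²) dw < ∞` (as in `UpA_Mu`, HVM/UpA.lean, which does this for a special
body; see `UpA_area`, `UpA_Mu`, `cross_V2` there: the last gives the pattern of the whole proof).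
Area of a shadow: the image of `K + v` (translation of the image only) under `T : y ↦ (⟨y,w⟩, ⟨y,u w⟩)`; `T y = ∑ y_i T(b_i)`,
`|y_i| ≤ 4 r_i`, `‖T(b_i)‖ ≤ √2 ‖w‖`.  Let `t = T(b_0)`; the image is contained in
`{s t + q : |s| ≤ 4 r0, ‖q‖ ≤ 12 √2 r1 ‖w‖}`, which is contained in a rectangle with one side parallel to `t`:
area `≤ (2·(4√2 r0‖w‖ + 12√2 r1‖w‖)) (2·12√2 r1‖w‖) ≤ C' r0 r1 ‖w‖²` (`UpA_strip` in HVM/UpA.lean is such an estimate).
-/

set_option autoImplicit false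

namespace Pool.Agent.HAS

open MeasureTheory Metric Set
open Pool.Agent.Helper85.Herm Pool.Agent.Helper85.Cap Pool.Agent.HVM

private theorem strB_shift (u : C2 → C2) (K : Body) (v w : C2) :
    volume ((fun x : C2 => ((inner ℝ x w : ℝ), (inner ℝ x (u w) : ℝ))) '' pts K) =
      volume ((fun x : C2 => ((inner ℝ (x + v) w : ℝ), (inner ℝ (x + v) (u w) : ℝ))) '' pts K) := by
  have e : (fun x : C2 => ((inner ℝ x w : ℝ), (inner ℝ x (u w) : ℝ))) '' pts K =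
      (fun z : ℝ × ℝ => z + ((inner ℝ v w : ℝ), (inner ℝ v (u w) : ℝ))) ⁻¹'
      ((fun x : C2 => ((inner ℝ (x + v) w : ℝ), (inner ℝ (x + v) (u w) : ℝ))) '' pts K) := by
    ext z
    constructor
    · rintro ⟨x, hx, rfl⟩
      refine ⟨x, hx, ?_⟩
      show ((inner ℝ (x + v) w : ℝ), (inner ℝ (x + v) (u w) : ℝ)) =
        ((inner ℝ x w : ℝ) + inner ℝ v w, (inner ℝ x (u w) : ℝ) + inner ℝ v (u w))
      rw [inner_add_left, inner_add_left]
    · rintro ⟨x, hx, h⟩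
      refine ⟨x, hx, ?_⟩
      have h1 : (inner ℝ (x + v) w : ℝ) = z.1 + inner ℝ v w := congrArg Prod.fst h
      have h2 : (inner ℝ (x + v) (u w) : ℝ) = z.2 + inner ℝ v (u w) := congrArg Prod.snd h
      rw [inner_add_left] at h1 h2
      refine Prod.ext ?_ ?_
      · show (inner ℝ x w : ℝ) = z.1
        linarith
      · show (inner ℝ x (u w) : ℝ) = z.2
        linarith
  rw [e, measure_preimage_add_right]

private theorem strB_coord (b : OrthonormalBasis (Fin 4) ℝ C2) (i : Fin 4) (w : C2) :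
    |(inner ℝ (b i) w : ℝ)| ≤ ‖w‖ := by
  have h := abs_real_inner_le_norm (b i) w
  rwa [b.orthonormal.1 i, one_mul] at h

private theorem strB_rest (b : OrthonormalBasis (Fin 4) ℝ C2) (r : Fin 4 → ℝ) (h3 : 0 < r 3)
    (h32 : r 3 ≤ r 2) (h21 : r 2 ≤ r 1) (y w : C2) (hy : ∀ i, |(inner ℝ y (b i) : ℝ)| ≤ 4 * r i) :
    |(inner ℝ y w : ℝ) - inner ℝ y (b 0) * inner ℝ (b 0) w| ≤ 12 * r 1 * ‖w‖ := by
  have e := b.sum_inner_mul_inner y w
  rw [Fin.sum_univ_four] at e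
  have e1 : (inner ℝ y w : ℝ) - inner ℝ y (b 0) * inner ℝ (b 0) w =
      inner ℝ y (b 1) * inner ℝ (b 1) w + inner ℝ y (b 2) * inner ℝ (b 2) w +
        inner ℝ y (b 3) * inner ℝ (b 3) w := by
    rw [← e]
    ring
  rw [e1]
  have hr1 : 0 ≤ 4 * r 1 := by linarith
  have k : ∀ i, r i ≤ r 1 → |(inner ℝ y (b i) : ℝ) * inner ℝ (b i) w| ≤ 4 * r 1 * ‖w‖ := by
    intro i hi
    rw [abs_mul]
    exact mul_le_mul ((hy i).trans (by linarith)) (strB_coord b i w) (abs_nonneg _) hr1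
  have k1 := k 1 le_rfl
  have k2 := k 2 h21
  have k3 := k 3 (h32.trans h21)
  have := abs_add_three ((inner ℝ y (b 1) : ℝ) * inner ℝ (b 1) w)
    (inner ℝ y (b 2) * inner ℝ (b 2) w) (inner ℝ y (b 3) * inner ℝ (b 3) w)
  linarith

private theorem strB_area (u : C2 → C2) (hu : ∀ w, ‖u w‖ = ‖w‖) (K : Body) (v : C2)
    (b : OrthonormalBasis (Fin 4) ℝ C2) (r : Fin 4 → ℝ) (h3 : 0 < r 3) (h32 : r 3 ≤ r 2)
    (h21 : r 2 ≤ r 1) (h10 : r 1 ≤ r 0)
    (hK : ∀ y ∈ pts K, ∀ i, |inner ℝ (y + v) (b i)| ≤ 4 * r i) (w : C2) :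
    area u K w ≤ 1536 * (r 0 * r 1) * ‖w‖ ^ 2 := by
  have hw := norm_nonneg w
  have hr1 : 0 < r 1 := by linarith
  have hr0 : 0 < r 0 := by linarith
  unfold area
  rw [strB_shift u K v w]
  have h := UpA_strip (inner ℝ (b 0) w) (inner ℝ (b 0) (u w)) (4 * r 0) (12 * r 1 * ‖w‖)
    (by positivity) (by positivity)
    ((fun x : C2 => ((inner ℝ (x + v) w : ℝ), (inner ℝ (x + v) (u w) : ℝ))) '' pts K) (by
      rintro _ ⟨x, hx, rfl⟩
      refine ⟨inner ℝ (x + v) (b 0), hK x hx 0, strB_rest b r h3 h32 h21 (x + v) w (hK x hx), ?_⟩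
      have := strB_rest b r h3 h32 h21 (x + v) (u w) (hK x hx)
      rw [hu] at this
      exact this) ‖w‖ (strB_coord b 0 w) (by
      have := strB_coord b 0 (u w)
      rwa [hu] at this)
  refine h.trans ?_
  have h4 : 0 ≤ ‖w‖ ^ 2 := by positivity
  have h5 : r 1 * r 1 ≤ r 0 * r 1 := mul_le_mul_of_nonneg_right h10 hr1.le
  nlinarith [mul_le_mul_of_nonneg_right h5 h4]

private theorem strB_Mu (u : C2 → C2) (hc : Continuous u) (hu : ∀ w, ‖u w‖ = ‖w‖) (K : Body)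
    (v : C2) (b : OrthonormalBasis (Fin 4) ℝ C2) (r : Fin 4 → ℝ) (h3 : 0 < r 3) (h32 : r 3 ≤ r 2)
    (h21 : r 2 ≤ r 1) (h10 : r 1 ≤ r 0)
    (hK : ∀ y ∈ pts K, ∀ i, |inner ℝ (y + v) (b i)| ≤ 4 * r i) :
    Mu u K ≤ (2 * Real.pi ^ 2)⁻¹ * (1536 * ∫ w : C2, ‖w‖ ^ 2 * Real.exp (-‖w‖ ^ 2)) *
      (r 0 * r 1) := by
  unfold Mu
  rw [mul_assoc]
  apply mul_le_mul_of_nonneg_left _ (by positivity)
  rw [mul_right_comm, ← integral_const_mul]
  refine integral_mono (I1_area_integrable u hc hu K) (I1_gauss.const_mul _) fun w => ?_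
  have := strB_area u hu K v b r h3 h32 h21 h10 hK w
  show area u K w * Real.exp (-‖w‖ ^ 2) ≤ 1536 * (r 0 * r 1) * (‖w‖ ^ 2 * Real.exp (-‖w‖ ^ 2))
  rw [← mul_assoc]
  exact mul_le_mul_of_nonneg_right this (Real.exp_pos _).le

theorem V2_box : ∃ C : ℝ, 0 < C ∧ ∀ (K : Body) (v : C2) (b : OrthonormalBasis (Fin 4) ℝ C2)
    (r : Fin 4 → ℝ), 0 < r 3 → r 3 ≤ r 2 → r 2 ≤ r 1 → r 1 ≤ r 0 →
    (∀ y ∈ pts K, ∀ i, |inner ℝ (y + v) (b i)| ≤ 4 * r i) → V2 K ≤ C * (r 0 * r 1) := by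
  set C0 : ℝ := (2 * Real.pi ^ 2)⁻¹ * (1536 * ∫ w : C2, ‖w‖ ^ 2 * Real.exp (-‖w‖ ^ 2)) with hC0
  have hC0n : 0 ≤ C0 := by
    have : 0 ≤ ∫ w : C2, ‖w‖ ^ 2 * Real.exp (-‖w‖ ^ 2) :=
      integral_nonneg fun w => by positivity
    positivity
  refine ⟨3 * C0 + 1, by positivity, fun K v b r h3 h32 h21 h10 hK => ?_⟩
  have hr1 : 0 < r 1 := by linarith
  have hr0 : 0 < r 0 := by linarith
  have h1 : Mu J K ≤ C0 * (r 0 * r 1) := strB_Mu J I1_contJ I1_normJ K v b r h3 h32 h21 h10 hK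
  have h2 : MLag K ≤ C0 * (r 0 * r 1) := by
    unfold MLag
    have h3 : ∫ α in (0 : ℝ)..(2 * Real.pi), Mu (Uq α) K ≤
        ∫ α in (0 : ℝ)..(2 * Real.pi), C0 * (r 0 * r 1) := by
      apply intervalIntegral.integral_mono_on (by positivity)
        ((Mu_continuous_alpha K).intervalIntegrable _ _) (by simp)
      intro α _
      exact strB_Mu (Uq α) (I1_contUq' α) (I1_normUq α) K v b r h3 h32 h21 h10 hK
    rw [intervalIntegral.integral_const, smul_eq_mul, sub_zero] at h3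
    have h4 := mul_le_mul_of_nonneg_left h3 (by positivity : (0 : ℝ) ≤ (2 * Real.pi)⁻¹)
    refine h4.trans (le_of_eq ?_)
    have := Real.pi_pos
    field_simp
  unfold V2 muab
  have : 0 < r 0 * r 1 := by positivity
  nlinarith

end Pool.Agent.HAS
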