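import Pool.Agent.HAS.TStat
import Pool.Agent.HAS.FibA

/-!
# Unitary coordinates and planar projections (module StrC)

PLAN.  `exists_unitary`: for a unit vector `u` the vectors `u, J u, Iq u, Kq u` form an orthonormal basis
(`Kq = J ∘ Iq`; HVM and Helper85 have lemmas about `J`, `Iq`, `Kq`: inner products, norms, `J (Iq x) = Kq x`), and
`g y = mk ⟨⟨y,u⟩, ⟨y,Ju⟩⟩ ⟨⟨y,Iq u⟩, ⟨y,Kq u⟩⟩` is a linear isometry commuting with `J`.
`exists_image`: image of a body under a linear isometry.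
`F_unitary`, `V2_unitary`: `(isHermVal_muab a b).unitary`.
`plane_area`: `g = b.repr` (`C2 = EuclideanSpace ℝ (Fin 4)`), `p1 (g y) = ⟨⟨y,b0⟩, ⟨y,b1⟩⟩`; `V2_isom` and the second
half of `shadows` for the body `g K`.
-/

set_option autoImplicit false

namespace Pool.Agent.HAS

open MeasureTheory Metric Set
open Pool.Agent.Helper85.Herm Pool.Agent.Helper85.Cap Pool.Agent.HVM

private theorem c2_norm_sq (x : C2) : ‖x‖ ^ 2 = x 0 ^ 2 + x 1 ^ 2 + x 2 ^ 2 + x 3 ^ 2 := by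
  rw [EuclideanSpace.real_norm_sq_eq, Fin.sum_univ_four]

private theorem c2_inner (x y : C2) : (inner ℝ x y : ℝ) = x 0 * y 0 + x 1 * y 1 + x 2 * y 2 + x 3 * y 3 := by
  rw [PiLp.inner_apply, Fin.sum_univ_four]
  simp only [RCLike.inner_apply, conj_trivial]
  ring

private theorem p1_mk' (z x : ℂ) : p1 (mk z x) = z := by
  apply Complex.ext <;> simp [p1, mk]

private theorem p2_mk' (z x : ℂ) : p2 (mk z x) = x := by
  apply Complex.ext <;> simp [p2, mk]

theorem exists_unitary (u : C2) (hu : ‖u‖ = 1) : ∃ g : C2 ≃ₗᵢ[ℝ] C2, (∀ x, g (J x) = J (g x)) ∧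
    (∀ y, p1 (g y) = ⟨inner ℝ y u, inner ℝ y (J u)⟩) ∧
    ∀ y, p2 (g y) = ⟨inner ℝ y (Iq u), inner ℝ y (Kq u)⟩ := by
  have hu2 : u 0 ^ 2 + u 1 ^ 2 + u 2 ^ 2 + u 3 ^ 2 = 1 := by
    rw [← c2_norm_sq, hu, one_pow]
  let l : C2 →ₗ[ℝ] C2 :=
    { toFun := fun y => mk ⟨inner ℝ y u, inner ℝ y (J u)⟩ ⟨inner ℝ y (Iq u), inner ℝ y (Kq u)⟩
      map_add' := fun y z => by
        ext i
        fin_cases i <;> simp [mk, inner_add_left]
      map_smul' := fun c y => by
        ext i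
        fin_cases i <;> simp [mk, inner_smul_left] }
  let li : C2 →ₗᵢ[ℝ] C2 :=
    { toLinearMap := l
      norm_map' := fun y => by
        have h1 : ‖l y‖ ^ 2 = ‖y‖ ^ 2 := by
          have h2 : ‖l y‖ ^ 2 = (y 0 ^ 2 + y 1 ^ 2 + y 2 ^ 2 + y 3 ^ 2) *
              (u 0 ^ 2 + u 1 ^ 2 + u 2 ^ 2 + u 3 ^ 2) := by
            rw [c2_norm_sq]
            simp only [l, mk, LinearMap.coe_mk, AddHom.coe_mk, c2_inner, J, Iq, Kq]
            simp
            ring
          rw [h2, hu2, mul_one, c2_norm_sq]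
        exact (pow_left_inj₀ (norm_nonneg _) (norm_nonneg _) two_ne_zero).1 h1 }
  refine ⟨li.toLinearIsometryEquiv rfl, fun x => ?_, fun y => ?_, fun y => ?_⟩
  · show l (J x) = J (l x)
    ext i
    fin_cases i <;> simp [l, mk, c2_inner, J, Iq, Kq] <;> ring
  · show p1 (l y) = _
    exact p1_mk' _ _
  · show p2 (l y) = _
    exact p2_mk' _ _

theorem exists_image (g : C2 ≃ₗᵢ[ℝ] C2) (K : Body) : ∃ L : Body, pts L = g '' pts K := by
  refine ⟨⟨g '' pts K, ?_, ?_, ?_⟩, rfl⟩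
  · have h := K.convex.linear_image g.toLinearEquiv.toLinearMap
    exact h
  · exact K.isCompact.image g.continuous
  · exact K.nonempty.image _

theorem F_unitary (g : C2 ≃ₗᵢ[ℝ] C2) (hg : ∀ x, g (J x) = J (g x)) (K L : Body)
    (hL : pts L = g '' pts K) : F L = F K :=
  (isHermVal_muab 1 0).unitary g hg K L hL

/-- the area of the projection to a real plane is at most `V2` -/
theorem plane_area (K : Body) (b : OrthonormalBasis (Fin 4) ℝ C2) :
    ar ((fun y => (⟨inner ℝ y (b 0), inner ℝ y (b 1)⟩ : ℂ)) '' pts K) ≤ V2 K := by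
  obtain ⟨L, hL⟩ := exists_image b.repr K
  have h1 : sh1 L = (fun y => (⟨inner ℝ y (b 0), inner ℝ y (b 1)⟩ : ℂ)) '' pts K := by
    rw [sh1, hL, image_image]
    refine image_congr (fun y _ => ?_)
    rw [p1, b.repr_apply_apply, b.repr_apply_apply, real_inner_comm, real_inner_comm (b 1)]
  rw [← h1, ← V2_isom b.repr K L hL]
  have h2 := (shadows L).2
  have h3 : 0 ≤ (volume (sh2 L)).toReal := ENNReal.toReal_nonneg
  show (volume (sh1 L)).toReal ≤ V2 L
  linarith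

private theorem vol_image (D : Set (ℝ × ℝ × ℝ)) (hD : IsCompact D) (f : ℝ × ℝ × ℝ → ℝ) (hf : Continuous f) :
    volume ((fun q : ℝ × ℝ × ℝ => (⟨q.1, f q⟩ : ℂ)) '' D) =
      ∫⁻ s : ℝ, volume {y : ℝ | ∃ q ∈ D, q.1 = s ∧ f q = y} := by
  have hc : IsCompact ((fun q : ℝ × ℝ × ℝ => (q.1, f q)) '' D) := hD.image (by fun_prop)
  have h1 : (fun q : ℝ × ℝ × ℝ => (⟨q.1, f q⟩ : ℂ)) '' D =
      Complex.measurableEquivRealProd ⁻¹' ((fun q : ℝ × ℝ × ℝ => (q.1, f q)) '' D) := by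
    ext z
    constructor
    · rintro ⟨q, hq, rfl⟩
      exact ⟨q, hq, rfl⟩
    · rintro ⟨q, hq, h⟩
      refine ⟨q, hq, ?_⟩
      have h2 : (q.1, f q) = (z.re, z.im) := h
      rw [Prod.mk.injEq] at h2
      exact Complex.ext h2.1 h2.2
  rw [h1, Complex.volume_preserving_equiv_real_prod.measure_preimage hc.measurableSet.nullMeasurableSet,
    Measure.volume_eq_prod, Measure.prod_apply hc.measurableSet]
  refine lintegral_congr (fun s => ?_)
  congr 1
  ext y
  constructor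
  · rintro ⟨q, hq, h⟩
    rw [Prod.mk.injEq] at h
    exact ⟨q, hq, h.1, h.2⟩
  · rintro ⟨q, hq, h, h'⟩
    exact ⟨q, hq, Prod.ext h h'⟩

/-- a planar estimate: the shear-like image of a convex set -/
theorem shear_area (D : Set (ℝ × ℝ × ℝ)) (hD : IsCompact D) (hc : Convex ℝ D) (a k m : ℝ)
    (ha : ∀ q ∈ D, |q.1| ≤ a) (hm : ∀ q ∈ D, |q.2.2| ≤ m) (h0 : 0 ≤ a) (h1 : 0 ≤ m) :
    ar ((fun q : ℝ × ℝ × ℝ => (⟨q.1, k * q.2.1 + q.2.2⟩ : ℂ)) '' D) ≤
      |k| * ar ((fun q : ℝ × ℝ × ℝ => (⟨q.1, q.2.1⟩ : ℂ)) '' D) + 4 * a * m := by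
  have hfin : volume ((fun q : ℝ × ℝ × ℝ => (⟨q.1, q.2.1⟩ : ℂ)) '' D) ≠ ⊤ := by
    have h2 : Continuous (fun q : ℝ × ℝ × ℝ => (⟨q.1, q.2.1⟩ : ℂ)) := by
      have h3 : (fun q : ℝ × ℝ × ℝ => (⟨q.1, q.2.1⟩ : ℂ)) = fun q => (q.1 : ℂ) + (q.2.1 : ℂ) * Complex.I := by
        funext q
        apply Complex.ext <;> simp
      rw [h3]
      fun_prop
    exact (hD.image h2).measure_lt_top.ne
  have hmain : volume ((fun q : ℝ × ℝ × ℝ => (⟨q.1, k * q.2.1 + q.2.2⟩ : ℂ)) '' D) ≤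
      ENNReal.ofReal |k| * volume ((fun q : ℝ × ℝ × ℝ => (⟨q.1, q.2.1⟩ : ℂ)) '' D) +
        ENNReal.ofReal (4 * a * m) := by
    rw [vol_image D hD (fun q => k * q.2.1 + q.2.2) (by fun_prop),
      vol_image D hD (fun q => q.2.1) (by fun_prop)]
    have hle : ∀ s : ℝ, volume {y : ℝ | ∃ q ∈ D, q.1 = s ∧ k * q.2.1 + q.2.2 = y} ≤
        ENNReal.ofReal |k| * volume {y : ℝ | ∃ q ∈ D, q.1 = s ∧ q.2.1 = y} +
          (Icc (-a) a).indicator (fun _ => ENNReal.ofReal (2 * m)) s := by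
      intro s
      rcases Set.eq_empty_or_nonempty {y : ℝ | ∃ q ∈ D, q.1 = s ∧ q.2.1 = y} with he | hne
      · have h2 : {y : ℝ | ∃ q ∈ D, q.1 = s ∧ k * q.2.1 + q.2.2 = y} = ∅ := by
          rw [Set.eq_empty_iff_forall_notMem]
          rintro y ⟨q, hq, hs, -⟩
          have : q.2.1 ∈ {y : ℝ | ∃ q ∈ D, q.1 = s ∧ q.2.1 = y} := ⟨q, hq, hs, rfl⟩
          rw [he] at this
          exact this
        rw [h2, measure_empty]
        exact zero_le
      · have hcp : IsCompact {y : ℝ | ∃ q ∈ D, q.1 = s ∧ q.2.1 = y} := by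
          have h2 : {y : ℝ | ∃ q ∈ D, q.1 = s ∧ q.2.1 = y} =
              (fun q : ℝ × ℝ × ℝ => q.2.1) '' (D ∩ {q | q.1 = s}) := by
            ext y
            constructor
            · rintro ⟨q, hq, hs, hy⟩
              exact ⟨q, ⟨hq, hs⟩, hy⟩
            · rintro ⟨q, ⟨hq, hs⟩, hy⟩
              exact ⟨q, hq, hs, hy⟩
          rw [h2]
          exact (hD.inter_right (isClosed_eq continuous_fst continuous_const)).image (by fun_prop)
        have hcv : Convex ℝ {y : ℝ | ∃ q ∈ D, q.1 = s ∧ q.2.1 = y} := by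
          rintro y ⟨q, hq, hs, rfl⟩ y' ⟨q', hq', hs', rfl⟩ α β hα hβ hαβ
          refine ⟨α • q + β • q', hc hq hq' hα hβ hαβ, ?_, ?_⟩
          · simp only [Prod.fst_add, Prod.smul_fst, smul_eq_mul]
            rw [hs, hs', ← add_mul, hαβ, one_mul]
          · simp
        have hI := eq_Icc_of_connected_compact ⟨hne, hcv.isPreconnected⟩ hcp
        obtain ⟨c, hcdef⟩ : ∃ c, c = sInf {y : ℝ | ∃ q ∈ D, q.1 = s ∧ q.2.1 = y} := ⟨_, rfl⟩
        obtain ⟨d, hddef⟩ : ∃ d, d = sSup {y : ℝ | ∃ q ∈ D, q.1 = s ∧ q.2.1 = y} := ⟨_, rfl⟩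
        rw [← hcdef, ← hddef] at hI
        have hcd : c ≤ d := by
          rw [hI] at hne
          exact nonempty_Icc.1 hne
        have hsa : s ∈ Icc (-a) a := by
          obtain ⟨y, q, hq, hs, -⟩ := hne
          rw [← hs]
          exact abs_le.1 (ha q hq)
        rw [indicator_of_mem hsa, hI, Real.volume_Icc, ← ENNReal.ofReal_mul (abs_nonneg k),
          ← ENNReal.ofReal_add (mul_nonneg (abs_nonneg k) (by linarith)) (by linarith)]
        have hq : ∀ y ∈ {y : ℝ | ∃ q ∈ D, q.1 = s ∧ k * q.2.1 + q.2.2 = y}, ∃ t, c ≤ t ∧ t ≤ d ∧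
            k * t - m ≤ y ∧ y ≤ k * t + m := by
          rintro y ⟨q, hq, hs, rfl⟩
          have h2 : q.2.1 ∈ {y : ℝ | ∃ q ∈ D, q.1 = s ∧ q.2.1 = y} := ⟨q, hq, hs, rfl⟩
          rw [hI] at h2
          have h3 := abs_le.1 (hm q hq)
          exact ⟨q.2.1, h2.1, h2.2, by linarith, by linarith⟩
        rcases le_total 0 k with hk | hk
        · have hsub : {y : ℝ | ∃ q ∈ D, q.1 = s ∧ k * q.2.1 + q.2.2 = y} ⊆ Icc (k * c - m) (k * d + m) := by
            intro y hy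
            obtain ⟨t, h2, h3, h4, h5⟩ := hq y hy
            have h6 := mul_le_mul_of_nonneg_left h2 hk
            have h7 := mul_le_mul_of_nonneg_left h3 hk
            exact ⟨by linarith, by linarith⟩
          refine (measure_mono hsub).trans ?_
          rw [Real.volume_Icc, abs_of_nonneg hk]
          exact ENNReal.ofReal_le_ofReal (by linarith)
        · have hsub : {y : ℝ | ∃ q ∈ D, q.1 = s ∧ k * q.2.1 + q.2.2 = y} ⊆ Icc (k * d - m) (k * c + m) := by
            intro y hy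
            obtain ⟨t, h2, h3, h4, h5⟩ := hq y hy
            have h6 := mul_le_mul_of_nonpos_left h2 hk
            have h7 := mul_le_mul_of_nonpos_left h3 hk
            exact ⟨by linarith, by linarith⟩
          refine (measure_mono hsub).trans ?_
          rw [Real.volume_Icc, abs_of_nonpos hk]
          exact ENNReal.ofReal_le_ofReal (by linarith)
    refine (lintegral_mono hle).trans ?_
    rw [lintegral_add_right _ (measurable_const.indicator measurableSet_Icc),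
      lintegral_indicator measurableSet_Icc, lintegral_const, Measure.restrict_apply MeasurableSet.univ,
      univ_inter, Real.volume_Icc, lintegral_const_mul' _ _ ENNReal.ofReal_ne_top,
      ← ENNReal.ofReal_mul (by linarith)]
    refine add_le_add le_rfl (le_of_eq ?_)
    congr 1
    ring
  rw [ar, ar]
  have h2 : |k| * (volume ((fun q : ℝ × ℝ × ℝ => (⟨q.1, q.2.1⟩ : ℂ)) '' D)).toReal + 4 * a * m =
      (ENNReal.ofReal |k| * volume ((fun q : ℝ × ℝ × ℝ => (⟨q.1, q.2.1⟩ : ℂ)) '' D) +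
        ENNReal.ofReal (4 * a * m)).toReal := by
    rw [ENNReal.toReal_add (ENNReal.mul_ne_top ENNReal.ofReal_ne_top hfin) ENNReal.ofReal_ne_top,
      ENNReal.toReal_mul, ENNReal.toReal_ofReal (abs_nonneg k), ENNReal.toReal_ofReal (by positivity)]
  rw [h2]
  exact ENNReal.toReal_mono
    (ENNReal.add_ne_top.2 ⟨ENNReal.mul_ne_top ENNReal.ofReal_ne_top hfin, ENNReal.ofReal_ne_top⟩) hmain

end Pool.Agent.HAS
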