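import Pool.Agent.HAS.StrC

/-!
# Shadows of a body in a box (module StrD)

Setting: box `|⟨y+v, b i⟩| ≤ 4 r i`; `k = ⟨b 1, J (b 0)⟩`, `ss = √(1-k²)`; `g` the unitary map of `exists_unitary (b 0)`.

PLAN.  Write `y_i = ⟨y+v, b i⟩`.  `∑_i ⟨b i, J b0⟩² = 1` and `⟨b0, J b0⟩ = 0`, so
`⟨b2,Jb0⟩² + ⟨b3,Jb0⟩² = ss²`.
* `sh1`: up to translation the set of `(y_0, k y_1 + e(y))`, `e(y) = y_2⟨b2,Jb0⟩ + y_3⟨b3,Jb0⟩`, `|e| ≤ 8 r2 ss`.
  `shear_area` with `D` = image of `K+v` under `y ↦ (y_0, y_1, e(y))`, `a = 4 r0`, `m = 8 r2 ss`, and `plane_area`: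
  `ar ≤ |k| V2 K + 4·4 r0·8 r2 ss`.
* `p2`: `‖p2 (g (y+v))‖ ≤ ∑ |y_i| ‖p2 (g b_i)‖`, `p2 (g b0) = 0`, `‖p2 (g b1)‖ = ss` (since `‖p1 (g b1)‖ = |k|`),
  `‖p2 (g b_i)‖ ≤ 1`: `≤ 4 r1 ss + 8 r2`.
* `sh2`: contained (up to translation) in `{t q : |t| ≤ 4 r1} + closedBall 0 (8 r2)`, `q = p2 (g b1)`, `‖q‖ = ss`:
  contained in a rectangle with sides `2(4 r1 ss + 8 r2)` and `2·8 r2`: area `≤ 16 r2 (8 r1 ss + 16 r2)`.
-/

set_option autoImplicit false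

namespace Pool.Agent.HAS

open MeasureTheory Metric Set
open Pool.Agent.Helper85.Herm Pool.Agent.Helper85.Cap Pool.Agent.HVM

private theorem sd_self (w : C2) : (inner ℝ w (J w) : ℝ) = 0 ∧ (inner ℝ w (Iq w) : ℝ) = 0 ∧
    (inner ℝ w (Kq w) : ℝ) = 0 := by
  refine ⟨?_, ?_, ?_⟩
  · rw [C2_inner]
    simp only [J_apply0, J_apply1, J_apply2, J_apply3]
    ring
  · rw [C2_inner]
    simp only [Iq_apply0, Iq_apply1, Iq_apply2, Iq_apply3]
    ring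
  · rw [C2_inner]
    simp only [Kq_apply0, Kq_apply1, Kq_apply2, Kq_apply3]
    ring

private theorem sd_ar_add (A : Set ℂ) (c : ℂ) : ar ((fun z => z + c) '' A) = ar A := by
  unfold ar
  rw [Set.image_add_right, measure_preimage_add_right]

private theorem sd_rect {A B : ℝ} (hA : 0 ≤ A) (hB : 0 ≤ B) {S : Set ℂ}
    (hS : ∀ z ∈ S, |z.re| ≤ A ∧ |z.im| ≤ B) : ar S ≤ 4 * A * B := by
  unfold ar
  refine ENNReal.toReal_le_of_le_ofReal (by positivity) ?_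
  have h1 : S ⊆ Complex.measurableEquivRealProd ⁻¹' (Icc (-A) A ×ˢ Icc (-B) B) := by
    intro z hz
    obtain ⟨h2, h3⟩ := hS z hz
    rw [mem_preimage, Complex.measurableEquivRealProd_apply]
    exact ⟨abs_le.1 h2, abs_le.1 h3⟩
  refine (measure_mono h1).trans ?_
  rw [Complex.volume_preserving_equiv_real_prod.measure_preimage
    (measurableSet_Icc.prod measurableSet_Icc).nullMeasurableSet, Measure.volume_eq_prod,
    Measure.prod_prod, Real.volume_Icc, Real.volume_Icc, ← ENNReal.ofReal_mul (by linarith)]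
  refine ENNReal.ofReal_le_ofReal (le_of_eq ?_)
  ring

private theorem sd_rot {w : ℂ} (hw : ‖w‖ = 1) (S : Set ℂ) :
    ar ((fun z => w * z) '' S) = ar S := by
  have hc : w ∈ Submonoid.unitSphere ℂ := mem_sphere_zero_iff_norm.2 hw
  have h1 : (fun z => w * z) '' S = (rotation ⟨w, hc⟩).symm ⁻¹' S := by
    rw [← LinearIsometryEquiv.image_eq_preimage_symm]
    rfl
  rw [h1]
  unfold ar
  rw [((rotation ⟨w, hc⟩).symm.measurePreserving).measure_preimage_emb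
    ((rotation ⟨w, hc⟩).symm.toHomeomorph.measurableEmbedding)]

/-- a thin strip in the plane -/
private theorem sd_strip {q : ℂ} {A B : ℝ} (hA : 0 ≤ A) (hB : 0 ≤ B) {S : Set ℂ}
    (hS : ∀ z ∈ S, ∃ t : ℝ, |t| ≤ A ∧ ‖z - (t : ℂ) * q‖ ≤ B) :
    ar S ≤ 4 * (A * ‖q‖ + B) * B := by
  obtain ⟨w, hw, hq⟩ : ∃ w : ℂ, ‖w‖ = 1 ∧ w * q = (‖q‖ : ℂ) := by
    by_cases h0 : q = 0
    · exact ⟨1, norm_one, by rw [h0, norm_zero, mul_zero, Complex.ofReal_zero]⟩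
    · have h1 : ‖q‖ ≠ 0 := norm_ne_zero_iff.2 h0
      refine ⟨(‖q‖ : ℂ) / q, ?_, div_mul_cancel₀ _ h0⟩
      rw [norm_div, Complex.norm_real, norm_norm, div_self h1]
  rw [← sd_rot hw S]
  refine sd_rect (by positivity) hB ?_
  rintro _ ⟨z, hz, rfl⟩
  obtain ⟨t, ht, h1⟩ := hS z hz
  have e : w * z = ((t * ‖q‖ : ℝ) : ℂ) + w * (z - (t : ℂ) * q) := by
    rw [mul_sub, mul_left_comm, hq]
    push_cast
    ring
  have h2 : ‖w * (z - (t : ℂ) * q)‖ ≤ B := by rw [norm_mul, hw, one_mul]; exact h1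
  show |(w * z).re| ≤ _ ∧ |(w * z).im| ≤ _
  rw [e]
  constructor
  · rw [Complex.add_re, Complex.ofReal_re]
    refine (abs_add_le _ _).trans (add_le_add ?_ ((Complex.abs_re_le_norm _).trans h2))
    rw [abs_mul, abs_norm]
    exact mul_le_mul_of_nonneg_right ht (norm_nonneg _)
  · rw [Complex.add_im, Complex.ofReal_im, zero_add]
    exact (Complex.abs_im_le_norm _).trans h2

private theorem sd_norm_sq (a b : ℝ) : ‖(⟨a, b⟩ : ℂ)‖ ^ 2 = a ^ 2 + b ^ 2 := by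
  rw [Complex.sq_norm, Complex.normSq_mk]
  ring

theorem box_shadows (K L : Body) (v : C2) (b : OrthonormalBasis (Fin 4) ℝ C2) (r : Fin 4 → ℝ)
    (h3 : 0 < r 3) (h32 : r 3 ≤ r 2) (h21 : r 2 ≤ r 1) (h10 : r 1 ≤ r 0)
    (hbox : ∀ y ∈ pts K, ∀ i, |inner ℝ (y + v) (b i)| ≤ 4 * r i)
    (g : C2 ≃ₗᵢ[ℝ] C2) (hg1 : ∀ y, p1 (g y) = ⟨inner ℝ y (b 0), inner ℝ y (J (b 0))⟩)
    (hg2 : ∀ y, p2 (g y) = ⟨inner ℝ y (Iq (b 0)), inner ℝ y (Kq (b 0))⟩)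
    (hL : pts L = g '' pts K) (k ss : ℝ) (hk : k = inner ℝ (b 1) (J (b 0)))
    (hss : ss = Real.sqrt (1 - k ^ 2)) :
    |k| ≤ 1 ∧ ar (sh1 L) ≤ |k| * V2 K + 128 * (r 0 * r 2) * ss ∧
    ar (sh2 L) ≤ 128 * (r 1 * r 2) * ss + 256 * r 2 ^ 2 ∧
    (∀ x ∈ pts L, ‖p2 (x + g v)‖ ≤ 4 * r 1 * ss + 8 * r 2) ∧
    ∀ x ∈ pts L, ‖p1 (x + g v)‖ ≤ 8 * r 0 := by
  have hb : ∀ i, ‖b i‖ = 1 := fun i => b.orthonormal.1 i
  have hJ : ‖J (b 0)‖ = 1 := by rw [J_norm, hb]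
  obtain ⟨hJ0, hI0, hK0⟩ := sd_self (b 0)
  -- the sum of the squares
  have hsum : ∀ i, (inner ℝ (b i) (Iq (b 0)) : ℝ) ^ 2 + (inner ℝ (b i) (J (b 0)) : ℝ) ^ 2 +
      (inner ℝ (b i) (Kq (b 0)) : ℝ) ^ 2 = 1 - (inner ℝ (b i) (b 0) : ℝ) ^ 2 := by
    intro i
    have h1 := keyc_sum (b i) (b 0)
    rw [hb, hb, one_pow, one_mul] at h1
    exact h1
  have h10' : (inner ℝ (b 1) (b 0) : ℝ) = 0 := b.orthonormal.2 (by decide)
  have hβ : (inner ℝ (b 1) (J (b 0)) : ℝ) ^ 2 + (inner ℝ (b 2) (J (b 0)) : ℝ) ^ 2 +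
      (inner ℝ (b 3) (J (b 0)) : ℝ) ^ 2 = 1 := by
    have h1 := b.sum_sq_inner_right (J (b 0))
    rw [Fin.sum_univ_four, hJ, hJ0] at h1
    linarith
  obtain ⟨β2, hβ2⟩ : ∃ β2 : ℝ, β2 = inner ℝ (b 2) (J (b 0)) := ⟨_, rfl⟩
  obtain ⟨β3, hβ3⟩ : ∃ β3 : ℝ, β3 = inner ℝ (b 3) (J (b 0)) := ⟨_, rfl⟩
  rw [← hk, ← hβ2, ← hβ3] at hβ
  have hk1 : k ^ 2 ≤ 1 := by nlinarith [sq_nonneg β2, sq_nonneg β3]
  have hka : |k| ≤ 1 := by
    rw [← sq_le_one_iff_abs_le_one]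
    exact hk1
  have hss0 : 0 ≤ ss := by rw [hss]; exact Real.sqrt_nonneg _
  have hss2 : ss ^ 2 = 1 - k ^ 2 := by rw [hss]; exact Real.sq_sqrt (by linarith)
  have hβ2a : |β2| ≤ ss := abs_le_of_sq_le_sq (by nlinarith [sq_nonneg β3]) hss0
  have hβ3a : |β3| ≤ ss := abs_le_of_sq_le_sq (by nlinarith [sq_nonneg β2]) hss0
  have hr2 : 0 < r 2 := lt_of_lt_of_le h3 h32
  have hr1 : 0 < r 1 := lt_of_lt_of_le hr2 h21
  have hr0 : 0 < r 0 := lt_of_lt_of_le hr1 h10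
  -- coordinates
  have hin : ∀ x w : C2, (inner ℝ x w : ℝ) = inner ℝ x (b 0) * inner ℝ (b 0) w +
      inner ℝ x (b 1) * inner ℝ (b 1) w + inner ℝ x (b 2) * inner ℝ (b 2) w +
      inner ℝ x (b 3) * inner ℝ (b 3) w := by
    intro x w
    have h1 := b.sum_inner_mul_inner x w
    rw [Fin.sum_univ_four] at h1
    exact h1.symm
  have hJx : ∀ x : C2, (inner ℝ x (J (b 0)) : ℝ) = k * inner ℝ x (b 1) +
      (inner ℝ x (b 2) * β2 + inner ℝ x (b 3) * β3) := by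
    intro x
    rw [hin x (J (b 0)), hJ0, ← hk, ← hβ2, ← hβ3]
    ring
  -- the translated image of the first projection
  have hp1 : ∀ y, p1 (g y) + p1 (g v) = ⟨inner ℝ (y + v) (b 0), inner ℝ (y + v) (J (b 0))⟩ := by
    intro y
    rw [hg1, hg1]
    apply Complex.ext
    · show (inner ℝ y (b 0) : ℝ) + inner ℝ v (b 0) = inner ℝ (y + v) (b 0)
      rw [inner_add_left]
    · show (inner ℝ y (J (b 0)) : ℝ) + inner ℝ v (J (b 0)) = inner ℝ (y + v) (J (b 0))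
      rw [inner_add_left]
  obtain ⟨Φ, hΦ⟩ : ∃ Φ : C2 → ℝ × ℝ × ℝ, Φ = fun y => (inner ℝ (y + v) (b 0),
      inner ℝ (y + v) (b 1), inner ℝ (y + v) (b 2) * β2 + inner ℝ (y + v) (b 3) * β3) := ⟨_, rfl⟩
  have hΦc : Continuous Φ := by
    rw [hΦ]
    have hc : ∀ i, Continuous fun y : C2 => (inner ℝ (y + v) (b i) : ℝ) := fun i =>
      (continuous_id.add continuous_const).inner continuous_const
    exact (hc 0).prodMk ((hc 1).prodMk (((hc 2).mul continuous_const).add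
      ((hc 3).mul continuous_const)))
  have hD : IsCompact (Φ '' pts K) := K.isCompact.image hΦc
  have hconv : Convex ℝ (Φ '' pts K) := by
    rintro _ ⟨y, hy, rfl⟩ _ ⟨z, hz, rfl⟩ s t hs ht hst
    refine ⟨s • y + t • z, K.convex hy hz hs ht hst, ?_⟩
    have hadd : s • y + t • z + v = s • (y + v) + t • (z + v) := by
      have h1 : v = s • v + t • v := by rw [← add_smul, hst, one_smul]
      calc s • y + t • z + v = s • y + t • z + (s • v + t • v) := by rw [← h1]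
        _ = s • (y + v) + t • (z + v) := by rw [smul_add, smul_add]; abel
    have hi : ∀ w : C2, (inner ℝ (s • y + t • z + v) w : ℝ) =
        s * inner ℝ (y + v) w + t * inner ℝ (z + v) w := by
      intro w
      rw [hadd, inner_add_left, real_inner_smul_left, real_inner_smul_left]
    rw [hΦ]
    simp only [hi]
    refine Prod.ext rfl (Prod.ext rfl ?_)
    show (s * inner ℝ (y + v) (b 2) + t * inner ℝ (z + v) (b 2)) * β2 +
      (s * inner ℝ (y + v) (b 3) + t * inner ℝ (z + v) (b 3)) * β3 =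
      s * (inner ℝ (y + v) (b 2) * β2 + inner ℝ (y + v) (b 3) * β3) +
      t * (inner ℝ (z + v) (b 2) * β2 + inner ℝ (z + v) (b 3) * β3)
    ring
  have hy2 : ∀ y ∈ pts K, |(inner ℝ (y + v) (b 2) : ℝ)| ≤ 4 * r 2 := fun y hy => hbox y hy 2
  have hy3 : ∀ y ∈ pts K, |(inner ℝ (y + v) (b 3) : ℝ)| ≤ 4 * r 2 := fun y hy =>
    (hbox y hy 3).trans (by linarith)
  have hshear := shear_area (Φ '' pts K) hD hconv (4 * r 0) k (8 * r 2 * ss)
    (by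
      rintro _ ⟨y, hy, rfl⟩
      rw [hΦ]
      exact hbox y hy 0)
    (by
      rintro _ ⟨y, hy, rfl⟩
      rw [hΦ]
      refine (abs_add_le _ _).trans ?_
      rw [abs_mul, abs_mul]
      have e2 := mul_le_mul (hy2 y hy) hβ2a (abs_nonneg _) (by linarith)
      have e3 := mul_le_mul (hy3 y hy) hβ3a (abs_nonneg _) (by linarith)
      linarith)
    (by linarith) (by positivity)
  have hsh1 : (fun z => z + p1 (g v)) '' sh1 L =
      (fun q : ℝ × ℝ × ℝ => (⟨q.1, k * q.2.1 + q.2.2⟩ : ℂ)) '' (Φ '' pts K) := by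
    unfold sh1
    rw [hL, Set.image_image, Set.image_image, Set.image_image]
    refine Set.image_congr fun y _ => ?_
    rw [hp1, hΦ, hJx]
  have hpl : ar ((fun q : ℝ × ℝ × ℝ => (⟨q.1, q.2.1⟩ : ℂ)) '' (Φ '' pts K)) ≤ V2 K := by
    have h1 : (fun q : ℝ × ℝ × ℝ => (⟨q.1, q.2.1⟩ : ℂ)) '' (Φ '' pts K) =
        (fun z => z + (⟨inner ℝ v (b 0), inner ℝ v (b 1)⟩ : ℂ)) ''
          ((fun y => (⟨inner ℝ y (b 0), inner ℝ y (b 1)⟩ : ℂ)) '' pts K) := by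
      rw [Set.image_image, Set.image_image]
      refine Set.image_congr fun y _ => ?_
      rw [hΦ]
      apply Complex.ext
      · show (inner ℝ (y + v) (b 0) : ℝ) = inner ℝ y (b 0) + inner ℝ v (b 0)
        rw [inner_add_left]
      · show (inner ℝ (y + v) (b 1) : ℝ) = inner ℝ y (b 1) + inner ℝ v (b 1)
        rw [inner_add_left]
    rw [h1, sd_ar_add]
    exact plane_area K b
  -- the second projection
  have hp2 : ∀ x : C2, p2 (g x) = ((inner ℝ x (b 1) : ℝ) : ℂ) *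
      ⟨inner ℝ (b 1) (Iq (b 0)), inner ℝ (b 1) (Kq (b 0))⟩ +
      (((inner ℝ x (b 2) : ℝ) : ℂ) * ⟨inner ℝ (b 2) (Iq (b 0)), inner ℝ (b 2) (Kq (b 0))⟩ +
      ((inner ℝ x (b 3) : ℝ) : ℂ) * ⟨inner ℝ (b 3) (Iq (b 0)), inner ℝ (b 3) (Kq (b 0))⟩) := by
    intro x
    rw [hg2, hin x (Iq (b 0)), hin x (Kq (b 0)), hI0, hK0]
    apply Complex.ext
    · simp only [Complex.add_re, Complex.re_ofReal_mul]
      ring
    · simp only [Complex.add_im, Complex.im_ofReal_mul]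
      ring
  have hq1 : ‖(⟨inner ℝ (b 1) (Iq (b 0)), inner ℝ (b 1) (Kq (b 0))⟩ : ℂ)‖ = ss := by
    have h1 := hsum 1
    rw [h10', ← hk] at h1
    refine (sq_eq_sq₀ (norm_nonneg _) hss0).1 ?_
    rw [sd_norm_sq, hss2]
    linarith
  have hqi : ∀ i, ‖(⟨inner ℝ (b i) (Iq (b 0)), inner ℝ (b i) (Kq (b 0))⟩ : ℂ)‖ ≤ 1 := by
    intro i
    have h1 := hsum i
    refine (sq_le_one_iff₀ (norm_nonneg _)).1 ?_
    rw [sd_norm_sq]
    nlinarith [sq_nonneg (inner ℝ (b i) (J (b 0)) : ℝ), sq_nonneg (inner ℝ (b i) (b 0) : ℝ)]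
  have hrest : ∀ y ∈ pts K, ‖((inner ℝ (y + v) (b 2) : ℝ) : ℂ) *
      ⟨inner ℝ (b 2) (Iq (b 0)), inner ℝ (b 2) (Kq (b 0))⟩ +
      ((inner ℝ (y + v) (b 3) : ℝ) : ℂ) *
      ⟨inner ℝ (b 3) (Iq (b 0)), inner ℝ (b 3) (Kq (b 0))⟩‖ ≤ 8 * r 2 := by
    intro y hy
    refine (norm_add_le _ _).trans ?_
    rw [norm_mul, norm_mul, Complex.norm_real, Complex.norm_real, Real.norm_eq_abs,
      Real.norm_eq_abs]
    have e2 := mul_le_mul (hy2 y hy) (hqi 2) (norm_nonneg _) (by linarith)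
    have e3 := mul_le_mul (hy3 y hy) (hqi 3) (norm_nonneg _) (by linarith)
    linarith
  have hgv : ∀ y, g y + g v = g (y + v) := fun y => (map_add g y v).symm
  refine ⟨hka, ?_, ?_, ?_, ?_⟩
  · rw [← sd_ar_add (sh1 L) (p1 (g v)), hsh1]
    refine hshear.trans ?_
    have h1 := mul_le_mul_of_nonneg_left hpl (abs_nonneg k)
    linarith
  · rw [← sd_ar_add (sh2 L) (p2 (g v))]
    have h1 := sd_strip (q := ⟨inner ℝ (b 1) (Iq (b 0)), inner ℝ (b 1) (Kq (b 0))⟩)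
      (A := 4 * r 1) (B := 8 * r 2) (by linarith) (by linarith)
      (S := (fun z => z + p2 (g v)) '' sh2 L) (by
        rintro _ ⟨_, ⟨x, hx, rfl⟩, rfl⟩
        rw [hL] at hx
        obtain ⟨y, hy, rfl⟩ := hx
        refine ⟨inner ℝ (y + v) (b 1), hbox y hy 1, ?_⟩
        show ‖p2 (g y) + p2 (g v) - _‖ ≤ _
        rw [← p2_add, hgv, hp2, add_sub_cancel_left]
        exact hrest y hy)
    rw [hq1] at h1
    refine h1.trans (le_of_eq ?_)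
    ring
  · intro x hx
    rw [hL] at hx
    obtain ⟨y, hy, rfl⟩ := hx
    rw [hgv, hp2]
    refine (norm_add_le _ _).trans (add_le_add ?_ (hrest y hy))
    rw [norm_mul, Complex.norm_real, Real.norm_eq_abs, hq1]
    exact mul_le_mul_of_nonneg_right (hbox y hy 1) hss0
  · intro x hx
    rw [hL] at hx
    obtain ⟨y, hy, rfl⟩ := hx
    have h1 : ‖p1 (g y + g v)‖ ^ 2 ≤ (8 * r 0) ^ 2 := by
      rw [hgv, hg1, sd_norm_sq, hJx]
      have e0 := abs_le.1 (hbox y hy 0)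
      have a0 : (inner ℝ (y + v) (b 0) : ℝ) ^ 2 ≤ (4 * r 0) ^ 2 := sq_le_sq' e0.1 e0.2
      have e1 := abs_le.1 ((hbox y hy 1).trans (by linarith : 4 * r 1 ≤ 4 * r 0))
      have a1 : (inner ℝ (y + v) (b 1) : ℝ) ^ 2 ≤ (4 * r 0) ^ 2 := sq_le_sq' e1.1 e1.2
      have e2 := abs_le.1 ((hy2 y hy).trans (by linarith : 4 * r 2 ≤ 4 * r 0))
      have a2 : (inner ℝ (y + v) (b 2) : ℝ) ^ 2 ≤ (4 * r 0) ^ 2 := sq_le_sq' e2.1 e2.2
      have e3 := abs_le.1 ((hy3 y hy).trans (by linarith : 4 * r 2 ≤ 4 * r 0))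
      have a3 : (inner ℝ (y + v) (b 3) : ℝ) ^ 2 ≤ (4 * r 0) ^ 2 := sq_le_sq' e3.1 e3.2
      generalize (inner ℝ (y + v) (b 0) : ℝ) = y0 at a0 ⊢
      generalize (inner ℝ (y + v) (b 1) : ℝ) = y1 at a1 ⊢
      generalize (inner ℝ (y + v) (b 2) : ℝ) = y2 at a2 ⊢
      generalize (inner ℝ (y + v) (b 3) : ℝ) = y3 at a3 ⊢
      have hcs : (k * y1 + (y2 * β2 + y3 * β3)) ^ 2 ≤
          (k ^ 2 + β2 ^ 2 + β3 ^ 2) * (y1 ^ 2 + y2 ^ 2 + y3 ^ 2) := by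
        nlinarith [sq_nonneg (k * y2 - β2 * y1), sq_nonneg (k * y3 - β3 * y1),
          sq_nonneg (β2 * y3 - β3 * y2)]
      rw [hβ, one_mul] at hcs
      nlinarith
    exact (pow_le_pow_iff_left₀ (norm_nonneg _) (by linarith) two_ne_zero).1 h1

end Pool.Agent.HAS
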