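import Pool.Agent.HAS.StrA
import Pool.Agent.HAS.StrB
import Pool.Agent.HAS.StrD

/-!
# The structure theorem (module StrE)

PLAN.  `S = V2 K > 0` (`lower_bounds`), `F K ≤ C0/S`.  `str_core`: `r0 r2 ≤ c1` (`c1 = 614400000 √C0`), so
`r1 r3 ≥ 1/(1300 c1)`, `c2 := 1/(1300 c1) ≤ r1 r3 ≤ r1 r2 ≤ c1`, `r0 ≤ (c1/c2) r1`;
`V2_box`: `S ≤ C r0 r1 ≤ C r0²`; `r0 r1 ≤ 204800000 S`, so `r0² ≤ (c1/c2) 204800000 S`.
Hence `r0 ≤ C' √S`, `r2 ≤ c1/r0 ≤ C'/√S`.  Let `u = b 0`, `g` from `exists_unitary`, `L = g K`,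
`F L = F K`, `V2 L = V2 K` (`V2_isom`).  `shadows L`: `S - F ≤ ar (sh1 L) + ar (sh2 L)
≤ |k| S + 128 c1 ss + 128 c1 ss + 256 r2²`; `1 - |k| ≥ ss²/2`; so
`ss² S/2 ≤ C0/S + 256 c1 ss + 256 C'²/S`, i.e. with `y = ss S`: `y² ≤ a + b y`, `y ≤ b + √a`-type bound `C''`.
Then `‖p2 (x - y)‖ ≤ 2(4 r1 ss + 8 r2) ≤ C1/√S` and `‖p1(x-y)‖ ≤ 16 r0 ≤ C1 √S` for `x, y ∈ g K`.
-/

set_option autoImplicit false

namespace Pool.Agent.HAS

open MeasureTheory Metric Set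
open Pool.Agent.Helper85.Herm Pool.Agent.Helper85.Cap Pool.Agent.HVM

private theorem strE_le {a b : ℝ} (hb : 0 ≤ b) (h : a ^ 2 ≤ b ^ 2) : a ≤ b :=
  (abs_le_of_sq_le_sq' h hb).2

private theorem strE_A {r0 r1 r2 r3 c1 S : ℝ} (h3 : 0 < r3) (h32 : r3 ≤ r2) (h21 : r2 ≤ r1)
    (h10 : r1 ≤ r0) (hR : 1 ≤ 1300 * (r0 * r1 * r2 * r3)) (h02 : r0 * r2 ≤ c1) (hc1 : 0 < c1)
    (hi : r0 * r1 ≤ 204800000 * S) : r0 ^ 2 ≤ c1 * (1300 * c1) * 204800000 * S := by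
  have hr2 : 0 < r2 := lt_of_lt_of_le h3 h32
  have hr1 : 0 < r1 := lt_of_lt_of_le hr2 h21
  have hr0 : 0 < r0 := lt_of_lt_of_le hr1 h10
  have h1 : 1 ≤ 1300 * (c1 * (r1 * r2)) := by
    refine le_trans hR (mul_le_mul_of_nonneg_left ?_ (by norm_num))
    calc r0 * r1 * r2 * r3 = (r0 * r2) * (r1 * r3) := by ring
      _ ≤ c1 * (r1 * r3) := mul_le_mul_of_nonneg_right h02 (by positivity)
      _ ≤ c1 * (r1 * r2) :=
        mul_le_mul_of_nonneg_left (mul_le_mul_of_nonneg_left h32 hr1.le) hc1.le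
  have h2 : r0 ≤ 1300 * c1 * c1 * r1 := by
    calc r0 = r0 * 1 := (mul_one r0).symm
      _ ≤ r0 * (1300 * (c1 * (r1 * r2))) := mul_le_mul_of_nonneg_left h1 hr0.le
      _ = 1300 * c1 * r1 * (r0 * r2) := by ring
      _ ≤ 1300 * c1 * r1 * c1 := mul_le_mul_of_nonneg_left h02 (by positivity)
      _ = 1300 * c1 * c1 * r1 := by ring
  calc r0 ^ 2 = r0 * r0 := sq r0
    _ ≤ r0 * (1300 * c1 * c1 * r1) := mul_le_mul_of_nonneg_left h2 hr0.le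
    _ = 1300 * c1 * c1 * (r0 * r1) := by ring
    _ ≤ 1300 * c1 * c1 * (204800000 * S) := mul_le_mul_of_nonneg_left hi (by positivity)
    _ = c1 * (1300 * c1) * 204800000 * S := by ring

private theorem strE_D {S Fv k ss r0 r1 r2 a1 a2 c0 c1 Q : ℝ} (hS : 0 < S) (hss : 0 ≤ ss)
    (hk : |k| ≤ 1) (hk2 : ss ^ 2 = 1 - k ^ 2) (h1 : S - Fv ≤ a1 + a2)
    (h2 : a1 ≤ |k| * S + 128 * (r0 * r2) * ss) (h3 : a2 ≤ 128 * (r1 * r2) * ss + 256 * r2 ^ 2)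
    (h4 : r0 * r2 ≤ c1) (h5 : r1 * r2 ≤ c1) (h6 : Fv * S ≤ c0) (h7 : r2 ^ 2 * S ≤ Q ^ 2)
    (hc0 : 0 ≤ c0) (hc1 : 0 ≤ c1) : ss * S ≤ 2 * c0 + 512 * Q ^ 2 + 512 * c1 + 1 := by
  have e1 : ss ^ 2 ≤ 2 * (1 - |k|) := by
    have : k ^ 2 = |k| ^ 2 := (sq_abs k).symm
    rw [hk2, this]
    nlinarith [abs_nonneg k]
  have e2 : (1 - |k|) * S ≤ Fv + 256 * c1 * ss + 256 * r2 ^ 2 := by
    have e3 : r0 * r2 * ss ≤ c1 * ss := mul_le_mul_of_nonneg_right h4 hss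
    have e4 : r1 * r2 * ss ≤ c1 * ss := mul_le_mul_of_nonneg_right h5 hss
    nlinarith
  have e5 : (ss * S) ^ 2 ≤ 2 * c0 + 512 * Q ^ 2 + 512 * c1 * (ss * S) := by
    calc (ss * S) ^ 2 = ss ^ 2 * (S * S) := by ring
      _ ≤ 2 * (1 - |k|) * (S * S) := mul_le_mul_of_nonneg_right e1 (by positivity)
      _ = 2 * S * ((1 - |k|) * S) := by ring
      _ ≤ 2 * S * (Fv + 256 * c1 * ss + 256 * r2 ^ 2) :=
        mul_le_mul_of_nonneg_left e2 (by positivity)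
      _ = 2 * (Fv * S) + 512 * (r2 ^ 2 * S) + 512 * c1 * (ss * S) := by ring
      _ ≤ 2 * c0 + 512 * Q ^ 2 + 512 * c1 * (ss * S) := by linarith
  by_contra hcon
  push Not at hcon
  have hy : 1 ≤ ss * S := by nlinarith [sq_nonneg Q]
  have hq : 0 ≤ Q ^ 2 := sq_nonneg Q
  have e6 : (2 * c0 + 512 * Q ^ 2 + 512 * c1 + 1) * (ss * S) < (ss * S) * (ss * S) :=
    mul_lt_mul_of_pos_right hcon (by linarith)
  nlinarith

private theorem strE_p1 (a b c : C2) : p1 a - p1 b = p1 (a + c) - p1 (b + c) := by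
  unfold p1
  apply Complex.ext
  · simp
  · simp

private theorem strE_p2 (a b c : C2) : p2 a - p2 b = p2 (a + c) - p2 (b + c) := by
  unfold p2
  apply Complex.ext
  · simp
  · simp

theorem structure_thm (C0 : ℝ) : ∃ C1 : ℝ, 0 < C1 ∧ ∀ K : Body, UnitVolume K → F K * V2 K ≤ C0 →
    ∃ g : C2 ≃ₗᵢ[ℝ] C2, (∀ x, g (J x) = J (g x)) ∧
      ∀ x ∈ pts K, ∀ y ∈ pts K, ‖p1 (g x) - p1 (g y)‖ ≤ C1 * Real.sqrt (V2 K) ∧
        ‖p2 (g x) - p2 (g y)‖ ≤ C1 / Real.sqrt (V2 K) := by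
  obtain ⟨cl, hcl, hlow⟩ := lower_bounds
  obtain ⟨C, hC, hbx⟩ := V2_box
  obtain ⟨c0, hc0, hc0C⟩ : ∃ c0 : ℝ, 1 ≤ c0 ∧ C0 ≤ c0 :=
    ⟨max C0 1, le_max_right _ _, le_max_left _ _⟩
  have hc00 : 0 < c0 := lt_of_lt_of_le one_pos hc0
  obtain ⟨c1, hc1, hc1s⟩ : ∃ c1 : ℝ, 0 < c1 ∧ 614400000 ^ 2 * c0 = c1 ^ 2 :=
    ⟨614400000 * Real.sqrt c0, by positivity, by rw [mul_pow, Real.sq_sqrt hc00.le]⟩
  obtain ⟨P, hP, hPA⟩ : ∃ P : ℝ, 0 < P ∧ c1 * (1300 * c1) * 204800000 = P ^ 2 :=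
    ⟨Real.sqrt (c1 * (1300 * c1) * 204800000), by positivity,
      (Real.sq_sqrt (by positivity)).symm⟩
  obtain ⟨D, hD, hDC⟩ : ∃ D : ℝ, 0 < D ∧ C = D ^ 2 :=
    ⟨Real.sqrt C, by positivity, (Real.sq_sqrt hC.le).symm⟩
  obtain ⟨Y, hY⟩ : ∃ Y : ℝ, Y = 2 * c0 + 512 * (D * c1) ^ 2 + 512 * c1 + 1 := ⟨_, rfl⟩
  have hY0 : 0 < Y := by rw [hY]; positivity
  refine ⟨8 * P * Y + 16 * (D * c1) + 16 * P, by positivity, fun K hK hF => ?_⟩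
  have hS : 0 < V2 K := lt_of_lt_of_le hcl (hlow K hK).1
  obtain ⟨v, b, r, h3, h32, h21, h10, hR, hbox, hi, hiv⟩ := str_core K hK
  have hr2 : 0 < r 2 := lt_of_lt_of_le h3 h32
  have hr1 : 0 < r 1 := lt_of_lt_of_le hr2 h21
  have hr0 : 0 < r 0 := lt_of_lt_of_le hr1 h10
  have h02 : r 0 * r 2 ≤ c1 := by
    refine strE_le hc1.le ?_
    rw [← hc1s]
    exact le_trans hiv (mul_le_mul_of_nonneg_left (le_trans hF hc0C) (by norm_num))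
  have h12 : r 1 * r 2 ≤ c1 := le_trans (mul_le_mul_of_nonneg_right h10 hr2.le) h02
  obtain ⟨q, hq, hqS⟩ : ∃ q : ℝ, 0 < q ∧ V2 K = q ^ 2 :=
    ⟨Real.sqrt (V2 K), by positivity, (Real.sq_sqrt hS.le).symm⟩
  have hqs : Real.sqrt (V2 K) = q := by
    rw [hqS, Real.sqrt_sq hq.le]
  have hr0q : r 0 ≤ P * q := by
    refine strE_le (by positivity) ?_
    rw [mul_pow, ← hPA, ← hqS]
    exact strE_A h3 h32 h21 h10 hR h02 hc1 hi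
  have hqr0 : q ≤ D * r 0 := by
    refine strE_le (by positivity) ?_
    rw [mul_pow, ← hDC, ← hqS]
    refine le_trans (hbx K v b r h3 h32 h21 h10 hbox) (mul_le_mul_of_nonneg_left ?_ hC.le)
    rw [sq]
    exact mul_le_mul_of_nonneg_left h10 hr0.le
  have hr2q : r 2 * q ≤ D * c1 := by
    calc r 2 * q ≤ r 2 * (D * r 0) := mul_le_mul_of_nonneg_left hqr0 hr2.le
      _ = D * (r 0 * r 2) := by ring
      _ ≤ D * c1 := mul_le_mul_of_nonneg_left h02 hD.le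
  obtain ⟨g, hgJ, hg1, hg2⟩ := exists_unitary (b 0) (b.orthonormal.1 0)
  obtain ⟨L, hL⟩ := exists_image g K
  obtain ⟨k, hk⟩ : ∃ k : ℝ, k = inner ℝ (b 1) (J (b 0)) := ⟨_, rfl⟩
  obtain ⟨ss, hss⟩ : ∃ ss : ℝ, ss = Real.sqrt (1 - k ^ 2) := ⟨_, rfl⟩
  obtain ⟨hk1, ha1, ha2, hp2, hp1⟩ := box_shadows K L v b r h3 h32 h21 h10 hbox g hg1 hg2 hL k ss
    hk hss
  have hss0 : 0 ≤ ss := by rw [hss]; exact Real.sqrt_nonneg _
  have hss2 : ss ^ 2 = 1 - k ^ 2 := by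
    rw [hss]
    refine Real.sq_sqrt ?_
    have : k ^ 2 ≤ 1 := (sq_le_one_iff_abs_le_one k).2 hk1
    linarith
  have hsh := (shadows L).1
  rw [F_unitary g hgJ K L hL, V2_isom g K L hL] at hsh
  have hyS : ss * V2 K ≤ Y := by
    rw [hY]
    refine strE_D hS hss0 hk1 hss2 hsh ha1 ha2 h02 h12 (le_trans hF hc0C) ?_ hc00.le hc1.le
    rw [hqS, ← mul_pow]
    exact pow_le_pow_left₀ (by positivity) hr2q 2
  have hr1ss : r 1 * ss * q ≤ P * Y := by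
    calc r 1 * ss * q ≤ (P * q) * ss * q := by
          refine mul_le_mul_of_nonneg_right (mul_le_mul_of_nonneg_right ?_ hss0) hq.le
          exact le_trans h10 hr0q
      _ = P * (ss * V2 K) := by rw [hqS]; ring
      _ ≤ P * Y := mul_le_mul_of_nonneg_left hyS hP.le
  refine ⟨g, hgJ, fun x hx y hy => ?_⟩
  have hxL : g x ∈ pts L := by rw [hL]; exact ⟨x, hx, rfl⟩
  have hyL : g y ∈ pts L := by rw [hL]; exact ⟨y, hy, rfl⟩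
  rw [hqs]
  constructor
  · rw [strE_p1 (g x) (g y) (g v)]
    have e1 := hp1 _ hxL
    have e2 := hp1 _ hyL
    have e3 := norm_sub_le (p1 (g x + g v)) (p1 (g y + g v))
    have e4 : 16 * (P * q) ≤ (8 * P * Y + 16 * (D * c1) + 16 * P) * q := by
      have : 0 ≤ (8 * P * Y + 16 * (D * c1)) * q := by positivity
      linarith
    linarith
  · rw [strE_p2 (g x) (g y) (g v), le_div_iff₀ hq]
    have e1 := hp2 _ hxL
    have e2 := hp2 _ hyL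
    have e3 := norm_sub_le (p2 (g x + g v)) (p2 (g y + g v))
    have e4 : ‖p2 (g x + g v) - p2 (g y + g v)‖ ≤ 2 * (4 * r 1 * ss + 8 * r 2) := by linarith
    calc ‖p2 (g x + g v) - p2 (g y + g v)‖ * q ≤ 2 * (4 * r 1 * ss + 8 * r 2) * q :=
          mul_le_mul_of_nonneg_right e4 hq.le
      _ = 8 * (r 1 * ss * q) + 16 * (r 2 * q) := by ring
      _ ≤ 8 * (P * Y) + 16 * (D * c1) := by linarith
      _ ≤ 8 * P * Y + 16 * (D * c1) + 16 * P := by linarith [hP.le]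

end Pool.Agent.HAS
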