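import Pool.Agent.HAS.T5Defs

/-!
# Integration by parts in the plane (module T5A)

PLAN.  `ζ ∈ C²_c`, `tsupport ζ ⊆ U` open.  Extend `ζ f` by zero: compactly supported `C²` (or `C¹`) function on `ℂ`
(`f` is `C²` on `U`; outside `tsupport ζ` everything vanishes, near `tsupport ζ` everything is smooth).  Use
`integral_mul_fderiv_eq_neg_fderiv_mul_of_integrable`-type lemmas (`MeasureTheory` / `LineDeriv.IntegrationByParts`:
`integral_bilinear_hasLineDerivAt_right_eq_neg_left_of_integrable`) in the two directions `1`, `I`, i.e. the fact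
`∫ fderiv (compactly supported C¹ function) v = 0` (`integral_fderiv…`; one lemma suffices: for `F : ℂ → ℝ` of class `C¹`
with compact support, `∫ fderiv ℝ F z v = 0`).
* `green`: `div(ζ f ∇f) = ζ f lap f + ζ ‖∇f‖² + f ⟨∇ζ, ∇f⟩` and `div(½ f² ∇ζ) = f⟨∇f,∇ζ⟩ + ½ f² lap ζ`.
* `curl`: `div(ζ p (I ∇f)) = ζ ⟨∇p, I∇f⟩ + p ⟨∇ζ, I∇f⟩` because `div (I ∇f) = -∂₁∂₂ f + ∂₂∂₁ f = 0`
  (symmetry of second derivatives).
In coordinates: `gradient f z = ⟨fderiv f z 1, fderiv f z I⟩`, `‖∇f‖² = (f_x)² + (f_y)²`,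
`inner ℝ a (I * b) = -a.re b.im + a.im b.re`.
-/

set_option autoImplicit false

namespace Pool.Agent.HAS

open MeasureTheory Metric Set

private theorem t5a_re (f : ℂ → ℝ) (z : ℂ) : (gradient f z).re = fderiv ℝ f z 1 := by
  have h : (inner ℝ (gradient f z) (1 : ℂ) : ℝ) = fderiv ℝ f z 1 := inner_gradient_left
  rw [← h, Complex.inner]
  simp

private theorem t5a_im (f : ℂ → ℝ) (z : ℂ) : (gradient f z).im = fderiv ℝ f z Complex.I := by
  have h : (inner ℝ (gradient f z) Complex.I : ℝ) = fderiv ℝ f z Complex.I := inner_gradient_left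
  rw [← h, Complex.inner]
  simp

private theorem t5a_norm (f : ℂ → ℝ) (z : ℂ) :
    ‖gradient f z‖ ^ 2 = fderiv ℝ f z 1 ^ 2 + fderiv ℝ f z Complex.I ^ 2 := by
  rw [← Complex.normSq_eq_norm_sq, Complex.normSq_apply, t5a_re, t5a_im]
  ring

private theorem t5a_inner (p f : ℂ → ℝ) (z : ℂ) :
    (inner ℝ (gradient p z) (Complex.I * gradient f z) : ℝ) =
      fderiv ℝ p z Complex.I * fderiv ℝ f z 1 - fderiv ℝ p z 1 * fderiv ℝ f z Complex.I := by
  rw [Complex.inner]
  simp only [Complex.mul_re, Complex.mul_im, Complex.conj_re, Complex.conj_im, Complex.I_re,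
    Complex.I_im]
  rw [t5a_re, t5a_re, t5a_im, t5a_im]
  ring

private theorem t5a_int {U : Set ℂ} (hU : IsOpen U) {η H : ℂ → ℝ} (hη : Continuous η)
    (hc : HasCompactSupport η) (hs : tsupport η ⊆ U) (hH : ContinuousOn H U) :
    Integrable fun z => η z * H z := by
  have h1 : Continuous fun z => η z * H z := by
    rw [continuous_iff_continuousAt]
    intro z
    by_cases hz : z ∈ tsupport η
    · exact hη.continuousAt.mul (hH.continuousAt (hU.mem_nhds (hs hz)))
    · have h2 : η =ᶠ[nhds z] 0 := notMem_tsupport_iff_eventuallyEq.1 hz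
      have h3 : (fun z => η z * H z) =ᶠ[nhds z] fun _ => 0 := by
        filter_upwards [h2] with w hw
        rw [hw]
        simp
      exact continuousAt_const.congr h3.symm
  exact h1.integrable_of_hasCompactSupport hc.mul_right

/-- integration by parts in one direction -/
private theorem t5a_parts {U : Set ℂ} (hU : IsOpen U) {ζ G : ℂ → ℝ} (hζ : ContDiff ℝ 1 ζ)
    (hc : HasCompactSupport ζ) (hs : tsupport ζ ⊆ U) (hG : ContDiffOn ℝ 1 G U) (v : ℂ) :
    ∫ z, ζ z * fderiv ℝ G z v = -∫ z, fderiv ℝ ζ z v * G z := by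
  have h1 : ContinuousOn (fun z => fderiv ℝ G z v) U :=
    (hG.continuousOn_fderiv_of_isOpen hU le_rfl).clm_apply continuousOn_const
  have h2 : Continuous fun z => fderiv ℝ ζ z v :=
    (hζ.continuous_fderiv (by norm_num)).clm_apply continuous_const
  refine integral_mul_fderiv_eq_neg_fderiv_mul_of_integrable ?_ ?_ ?_ ?_ ?_
  · exact t5a_int hU h2 (hc.fderiv_apply (𝕜 := ℝ) v)
      ((tsupport_fderiv_apply_subset ℝ v).trans hs) hG.continuousOn
  · exact t5a_int hU hζ.continuous hc hs h1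
  · exact t5a_int hU hζ.continuous hc hs hG.continuousOn
  · intro x _
    exact (hζ.differentiable (by norm_num)).differentiableAt
  · intro x hx
    exact (hG.differentiableOn (by norm_num)).differentiableAt (hU.mem_nhds (hs hx))

private theorem t5a_d1 {U : Set ℂ} (hU : IsOpen U) {f : ℂ → ℝ} (hf : ContDiffOn ℝ 2 f U) (v : ℂ) :
    ContDiffOn ℝ 1 (fun z => fderiv ℝ f z v) U :=
  (hf.fderiv_of_isOpen hU (by norm_num)).clm_apply contDiffOn_const

theorem grad_coord (f : ℂ → ℝ) (z : ℂ) (hf : DifferentiableAt ℝ f z) :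
    gradient f z = ⟨fderiv ℝ f z 1, fderiv ℝ f z Complex.I⟩ := by
  apply Complex.ext
  · exact t5a_re f z
  · exact t5a_im f z

theorem green (U : Set ℂ) (hU : IsOpen U) (f ζ : ℂ → ℝ) (hf : ContDiffOn ℝ 2 f U)
    (hζ : ContDiff ℝ 2 ζ) (hc : HasCompactSupport ζ) (hs : tsupport ζ ⊆ U) :
    ∫ z, ζ z * f z * lap f z = -(∫ z, ζ z * ‖gradient f z‖ ^ 2) + (∫ z, f z ^ 2 * lap ζ z) / 2 := by
  have hζ1 : ContDiff ℝ 1 ζ := hζ.of_le (by norm_num)
  have hf1 : ContDiffOn ℝ 1 f U := hf.of_le (by norm_num)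
  have hd : ∀ v : ℂ, ContDiffOn ℝ 1 (fun z => fderiv ℝ f z v) U := t5a_d1 hU hf
  have hdc : ∀ v : ℂ, ContinuousOn (fun z => fderiv ℝ f z v) U := fun v => (hd v).continuousOn
  have hddc : ∀ v : ℂ, ContinuousOn (fun z => fderiv ℝ (fun y => fderiv ℝ f y v) z v) U := fun v =>
    ((hd v).continuousOn_fderiv_of_isOpen hU le_rfl).clm_apply continuousOn_const
  have hζd : ∀ v : ℂ, ContDiff ℝ 1 (fun z => fderiv ℝ ζ z v) := fun v =>
    (hζ.fderiv_right (by norm_num)).clm_apply contDiff_const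
  have hζs : ∀ v : ℂ, tsupport (fun z => fderiv ℝ ζ z v) ⊆ U := fun v =>
    (tsupport_fderiv_apply_subset ℝ v).trans hs
  have hζc : ∀ v : ℂ, HasCompactSupport (fun z => fderiv ℝ ζ z v) := fun v =>
    hc.fderiv_apply (𝕜 := ℝ) v
  -- one direction
  have key : ∀ v : ℂ,
      ∫ z, (ζ z * fderiv ℝ f z v ^ 2 + ζ z * (f z * fderiv ℝ (fun y => fderiv ℝ f y v) z v)) =
        (∫ z, fderiv ℝ (fun y => fderiv ℝ ζ y v) z v * f z ^ 2) / 2 := by
    intro v
    have h1 := t5a_parts hU hζ1 hc hs (hf1.mul (hd v)) v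
    have h2 := t5a_parts hU (hζd v) (hζc v) (hζs v) (hf1.pow 2) v
    have e1 : ∀ z, ζ z * fderiv ℝ (f * fun z => fderiv ℝ f z v) z v =
        ζ z * fderiv ℝ f z v ^ 2 + ζ z * (f z * fderiv ℝ (fun y => fderiv ℝ f y v) z v) := by
      intro z
      by_cases hz : z ∈ tsupport ζ
      · have hzU := hU.mem_nhds (hs hz)
        have h3 : DifferentiableAt ℝ f z :=
          (hf1.differentiableOn (by norm_num)).differentiableAt hzU
        have h4 : DifferentiableAt ℝ (fun z => fderiv ℝ f z v) z :=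
          ((hd v).differentiableOn (by norm_num)).differentiableAt hzU
        have h5 : fderiv ℝ (f * fun z => fderiv ℝ f z v) z v =
            f z * fderiv ℝ (fun y => fderiv ℝ f y v) z v + fderiv ℝ f z v * fderiv ℝ f z v := by
          rw [fderiv_mul h3 h4]
          simp [smul_eq_mul]
        rw [h5]
        ring
      · rw [image_eq_zero_of_notMem_tsupport hz]
        ring
    have e2 : ∀ z, fderiv ℝ ζ z v * fderiv ℝ (fun z => f z ^ 2) z v =
        2 * (fderiv ℝ ζ z v * (f * fun z => fderiv ℝ f z v) z) := by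
      intro z
      by_cases hz : z ∈ tsupport ζ
      · have hzU := hU.mem_nhds (hs hz)
        have h3 : DifferentiableAt ℝ f z :=
          (hf1.differentiableOn (by norm_num)).differentiableAt hzU
        have h5 : fderiv ℝ (fun z => f z ^ 2) z v = 2 * (f z * fderiv ℝ f z v) := by
          rw [fderiv_fun_pow 2 h3]
          simp [smul_eq_mul, mul_assoc]
        rw [h5]
        simp only [Pi.mul_apply]
        ring
      · have h6 : fderiv ℝ ζ z v = 0 := by
          have h7 : z ∉ tsupport (fun z => fderiv ℝ ζ z v) := fun h =>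
            hz (tsupport_fderiv_apply_subset ℝ v h)
          exact image_eq_zero_of_notMem_tsupport (f := fun z => fderiv ℝ ζ z v) h7
        rw [h6]
        ring
    have h8 : ∫ z, (ζ z * fderiv ℝ f z v ^ 2 +
        ζ z * (f z * fderiv ℝ (fun y => fderiv ℝ f y v) z v)) =
        -∫ z, fderiv ℝ ζ z v * (f * fun z => fderiv ℝ f z v) z := by
      calc _ = ∫ z, ζ z * fderiv ℝ (f * fun z => fderiv ℝ f z v) z v :=
            integral_congr_ae (Filter.Eventually.of_forall fun z => (e1 z).symm)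
        _ = _ := h1
        _ = _ := by
            congr 1
    have h9 : 2 * ∫ z, fderiv ℝ ζ z v * (f * fun z => fderiv ℝ f z v) z =
        -∫ z, fderiv ℝ (fun y => fderiv ℝ ζ y v) z v * f z ^ 2 := by
      rw [← integral_const_mul, ← h2]
      exact integral_congr_ae (Filter.Eventually.of_forall fun z => (e2 z).symm)
    rw [h8]
    linarith
  have i1 : ∀ v : ℂ, Integrable fun z => ζ z * fderiv ℝ f z v ^ 2 := fun v =>
    t5a_int hU hζ1.continuous hc hs ((hdc v).pow 2)
  have i2 : ∀ v : ℂ, Integrable fun z =>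
      ζ z * (f z * fderiv ℝ (fun y => fderiv ℝ f y v) z v) := fun v =>
    t5a_int hU hζ1.continuous hc hs (hf1.continuousOn.mul (hddc v))
  have i3 : ∀ v : ℂ, Integrable fun z => fderiv ℝ (fun y => fderiv ℝ ζ y v) z v * f z ^ 2 :=
    fun v => t5a_int hU
      (((hζd v).continuous_fderiv (by norm_num)).clm_apply continuous_const)
      ((hζc v).fderiv_apply (𝕜 := ℝ) v)
      ((tsupport_fderiv_apply_subset ℝ v).trans (hζs v)) (hf1.continuousOn.pow 2)
  have k1 := key 1
  have k2 := key Complex.I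
  rw [integral_add (i1 _) (i2 _)] at k1 k2
  have l1 : ∫ z, ζ z * f z * lap f z =
      (∫ z, ζ z * (f z * fderiv ℝ (fun y => fderiv ℝ f y 1) z 1)) +
        ∫ z, ζ z * (f z * fderiv ℝ (fun y => fderiv ℝ f y Complex.I) z Complex.I) := by
    rw [← integral_add (i2 _) (i2 _)]
    refine integral_congr_ae (Filter.Eventually.of_forall fun z => ?_)
    simp only [lap]
    ring
  have l2 : ∫ z, ζ z * ‖gradient f z‖ ^ 2 =
      (∫ z, ζ z * fderiv ℝ f z 1 ^ 2) + ∫ z, ζ z * fderiv ℝ f z Complex.I ^ 2 := by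
    rw [← integral_add (i1 _) (i1 _)]
    refine integral_congr_ae (Filter.Eventually.of_forall fun z => ?_)
    simp only [t5a_norm]
    ring
  have l3 : ∫ z, f z ^ 2 * lap ζ z =
      (∫ z, fderiv ℝ (fun y => fderiv ℝ ζ y 1) z 1 * f z ^ 2) +
        ∫ z, fderiv ℝ (fun y => fderiv ℝ ζ y Complex.I) z Complex.I * f z ^ 2 := by
    rw [← integral_add (i3 _) (i3 _)]
    refine integral_congr_ae (Filter.Eventually.of_forall fun z => ?_)
    simp only [lap]
    ring
  rw [l1, l2, l3]
  linarith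

theorem curl (U : Set ℂ) (hU : IsOpen U) (p f ζ : ℂ → ℝ) (hp : ContDiffOn ℝ 1 p U)
    (hf : ContDiffOn ℝ 2 f U) (hζ : ContDiff ℝ 2 ζ) (hc : HasCompactSupport ζ)
    (hs : tsupport ζ ⊆ U) :
    ∫ z, ζ z * inner ℝ (gradient p z) (Complex.I * gradient f z) =
      -∫ z, p z * inner ℝ (gradient ζ z) (Complex.I * gradient f z) := by
  have hζ1 : ContDiff ℝ 1 ζ := hζ.of_le (by norm_num)
  have hd : ∀ v : ℂ, ContDiffOn ℝ 1 (fun z => fderiv ℝ f z v) U := t5a_d1 hU hf
  have hdc : ∀ v : ℂ, ContinuousOn (fun z => fderiv ℝ f z v) U := fun v => (hd v).continuousOn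
  have hddc : ∀ v w : ℂ, ContinuousOn (fun z => fderiv ℝ (fun y => fderiv ℝ f y v) z w) U :=
    fun v w => ((hd v).continuousOn_fderiv_of_isOpen hU le_rfl).clm_apply continuousOn_const
  have hpc : ∀ v : ℂ, ContinuousOn (fun z => fderiv ℝ p z v) U := fun v =>
    (hp.continuousOn_fderiv_of_isOpen hU le_rfl).clm_apply continuousOn_const
  have hζs : ∀ v : ℂ, tsupport (fun z => fderiv ℝ ζ z v) ⊆ U := fun v =>
    (tsupport_fderiv_apply_subset ℝ v).trans hs
  have hζc : ∀ v : ℂ, HasCompactSupport (fun z => fderiv ℝ ζ z v) := fun v =>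
    hc.fderiv_apply (𝕜 := ℝ) v
  have hζdc : ∀ v : ℂ, Continuous (fun z => fderiv ℝ ζ z v) := fun v =>
    (hζ1.continuous_fderiv (by norm_num)).clm_apply continuous_const
  have key : ∀ v w : ℂ,
      ∫ z, (ζ z * (fderiv ℝ p z v * fderiv ℝ f z w) +
        ζ z * (p z * fderiv ℝ (fun y => fderiv ℝ f y w) z v)) =
        -∫ z, fderiv ℝ ζ z v * (p z * fderiv ℝ f z w) := by
    intro v w
    have h1 := t5a_parts hU hζ1 hc hs (hp.mul (hd w)) v
    have e1 : ∀ z, ζ z * fderiv ℝ (p * fun z => fderiv ℝ f z w) z v =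
        ζ z * (fderiv ℝ p z v * fderiv ℝ f z w) +
          ζ z * (p z * fderiv ℝ (fun y => fderiv ℝ f y w) z v) := by
      intro z
      by_cases hz : z ∈ tsupport ζ
      · have hzU := hU.mem_nhds (hs hz)
        have h3 : DifferentiableAt ℝ p z :=
          (hp.differentiableOn (by norm_num)).differentiableAt hzU
        have h4 : DifferentiableAt ℝ (fun z => fderiv ℝ f z w) z :=
          ((hd w).differentiableOn (by norm_num)).differentiableAt hzU
        have h5 : fderiv ℝ (p * fun z => fderiv ℝ f z w) z v =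
            p z * fderiv ℝ (fun y => fderiv ℝ f y w) z v + fderiv ℝ f z w * fderiv ℝ p z v := by
          rw [fderiv_mul h3 h4]
          simp [smul_eq_mul]
        rw [h5]
        ring
      · rw [image_eq_zero_of_notMem_tsupport hz]
        ring
    calc _ = ∫ z, ζ z * fderiv ℝ (p * fun z => fderiv ℝ f z w) z v :=
          integral_congr_ae (Filter.Eventually.of_forall fun z => (e1 z).symm)
      _ = _ := h1
      _ = _ := by
          congr 1
  have i1 : ∀ v w : ℂ, Integrable fun z => ζ z * (fderiv ℝ p z v * fderiv ℝ f z w) := fun v w =>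
    t5a_int hU hζ1.continuous hc hs ((hpc v).mul (hdc w))
  have i2 : ∀ v w : ℂ, Integrable fun z =>
      ζ z * (p z * fderiv ℝ (fun y => fderiv ℝ f y w) z v) := fun v w =>
    t5a_int hU hζ1.continuous hc hs (hp.continuousOn.mul (hddc w v))
  have i3 : ∀ v w : ℂ, Integrable fun z => fderiv ℝ ζ z v * (p z * fderiv ℝ f z w) := fun v w =>
    t5a_int hU (hζdc v) (hζc v) (hζs v) (hp.continuousOn.mul (hdc w))
  -- symmetry of the second derivative
  have hsym : ∫ z, ζ z * (p z * fderiv ℝ (fun y => fderiv ℝ f y 1) z Complex.I) =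
      ∫ z, ζ z * (p z * fderiv ℝ (fun y => fderiv ℝ f y Complex.I) z 1) := by
    refine integral_congr_ae (Filter.Eventually.of_forall fun z => ?_)
    by_cases hz : z ∈ tsupport ζ
    · have hzU := hU.mem_nhds (hs hz)
      have h3 : ContDiffAt ℝ 2 f z := hf.contDiffAt hzU
      have h4 := h3.isSymmSndFDerivAt (by simp)
      have h5 : DifferentiableAt ℝ (fderiv ℝ f) z :=
        ((hf.fderiv_of_isOpen hU (m := 1) (by norm_num)).differentiableOn
          (by norm_num)).differentiableAt hzU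
      have h6 : ∀ v w : ℂ, fderiv ℝ (fun y => fderiv ℝ f y v) z w =
          fderiv ℝ (fderiv ℝ f) z w v := by
        intro v w
        rw [fderiv_clm_apply h5 (differentiableAt_const v)]
        simp
      show ζ z * (p z * _) = ζ z * (p z * _)
      rw [h6, h6, h4.eq]
    · show ζ z * (p z * _) = ζ z * (p z * _)
      rw [image_eq_zero_of_notMem_tsupport hz]
      ring
  have k1 := key Complex.I 1
  have k2 := key 1 Complex.I
  rw [integral_add (i1 _ _) (i2 _ _)] at k1 k2
  have l1 : ∫ z, ζ z * inner ℝ (gradient p z) (Complex.I * gradient f z) =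
      (∫ z, ζ z * (fderiv ℝ p z Complex.I * fderiv ℝ f z 1)) -
        ∫ z, ζ z * (fderiv ℝ p z 1 * fderiv ℝ f z Complex.I) := by
    rw [← integral_sub (i1 _ _) (i1 _ _)]
    refine integral_congr_ae (Filter.Eventually.of_forall fun z => ?_)
    simp only [t5a_inner]
    ring
  have l2 : ∫ z, p z * inner ℝ (gradient ζ z) (Complex.I * gradient f z) =
      (∫ z, fderiv ℝ ζ z Complex.I * (p z * fderiv ℝ f z 1)) -
        ∫ z, fderiv ℝ ζ z 1 * (p z * fderiv ℝ f z Complex.I) := by
    rw [← integral_sub (i3 _ _) (i3 _ _)]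
    refine integral_congr_ae (Filter.Eventually.of_forall fun z => ?_)
    simp only [t5a_inner]
    ring
  rw [l1, l2]
  linarith

end Pool.Agent.HAS
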