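import Pool.Agent.HAS.T5Defs

/-!
# Regularity of families (module T5B)

PLAN.  `G(θ,z) = g θ z` is `C³` on the open set `univ ×ˢ U`.  `dth g θ z = fderiv G (θ,z) (1,0)` there, so `dth g` is `C²`
jointly, `dth (dth g)` is `C¹`; `gradient (g θ) z`, `lap (g θ) z` are given by derivatives of `G` in the directions
`(0,1)`, `(0,I)`: jointly continuous (`gradient`: C²; `lap`: C¹) and `∂_θ lap (g θ) z = lap (dth g θ) z` (symmetry
of third derivatives: e.g. apply `second_derivative_symmetric` twice, or `ContDiffAt.isSymmSndFDerivAt` to `G` and to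
directional derivatives of `G`).  Periodicity of `dth g` etc. is clear.
-/

set_option autoImplicit false

namespace Pool.Agent.HAS

open MeasureTheory Metric Set

variable {U : Set ℂ} {g : ℝ → ℂ → ℝ}

private noncomputable def Dd (v : ℝ × ℂ) (F : ℝ × ℂ → ℝ) (q : ℝ × ℂ) : ℝ := fderiv ℝ F q v

private theorem Dd_smooth {S : Set (ℝ × ℂ)} (hS : IsOpen S) {F : ℝ × ℂ → ℝ} {m n : WithTop ℕ∞}
    (hF : ContDiffOn ℝ n F S) (hmn : m + 1 ≤ n) (v : ℝ × ℂ) : ContDiffOn ℝ m (Dd v F) S :=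
  (hF.fderiv_of_isOpen hS hmn).clm_apply contDiffOn_const

private theorem diffAt {S : Set (ℝ × ℂ)} (hS : IsOpen S) {F : ℝ × ℂ → ℝ} {n : WithTop ℕ∞}
    (hF : ContDiffOn ℝ n F S) (hn : n ≠ 0) {q : ℝ × ℂ} (hq : q ∈ S) : DifferentiableAt ℝ F q :=
  (hF.contDiffAt (hS.mem_nhds hq)).differentiableAt hn

private theorem hasD_t {F : ℝ × ℂ → ℝ} {θ : ℝ} {z : ℂ} (h1 : DifferentiableAt ℝ F (θ, z)) :
    HasDerivAt (fun t => F (t, z)) (Dd (1, 0) F (θ, z)) θ := by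
  have h2 : HasDerivAt (fun t : ℝ => ((t, z) : ℝ × ℂ)) (1, 0) θ :=
    (hasDerivAt_id θ).prodMk (hasDerivAt_const θ z)
  exact h1.hasFDerivAt.comp_hasDerivAt θ h2

private theorem fd_z {F : ℝ × ℂ → ℝ} {θ : ℝ} {z : ℂ} (h1 : DifferentiableAt ℝ F (θ, z)) (e : ℂ) :
    fderiv ℝ (fun w => F (θ, w)) z e = Dd (0, e) F (θ, z) := by
  have h2 : HasFDerivAt (fun w : ℂ => ((θ, w) : ℝ × ℂ)) (ContinuousLinearMap.inr ℝ ℝ ℂ) z :=
    hasFDerivAt_prodMk_right θ z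
  have h3 : HasFDerivAt (fun w => F (θ, w))
      ((fderiv ℝ F (θ, z)).comp (ContinuousLinearMap.inr ℝ ℝ ℂ)) z := h1.hasFDerivAt.comp z h2
  rw [h3.fderiv]
  rfl

private theorem ev_z {S : Set (ℝ × ℂ)} (hS : IsOpen S) {θ : ℝ} {z : ℂ} (hq : (θ, z) ∈ S) :
    ∀ᶠ w in nhds z, (θ, w) ∈ S :=
  (hS.preimage (by fun_prop : Continuous fun w : ℂ => ((θ, w) : ℝ × ℂ))).mem_nhds hq

private theorem Dd_comm {S : Set (ℝ × ℂ)} (hS : IsOpen S) {F : ℝ × ℂ → ℝ}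
    (hF : ContDiffOn ℝ 2 F S) (u v : ℝ × ℂ) {q : ℝ × ℂ} (hq : q ∈ S) :
    Dd u (Dd v F) q = Dd v (Dd u F) q := by
  have hd : DifferentiableAt ℝ (fderiv ℝ F) q := by
    have h1 : ContDiffOn ℝ 1 (fderiv ℝ F) S :=
      hF.fderiv_of_isOpen hS (by norm_num)
    exact (h1.contDiffAt (hS.mem_nhds hq)).differentiableAt one_ne_zero
  have key : ∀ a b : ℝ × ℂ, Dd a (Dd b F) q = fderiv ℝ (fderiv ℝ F) q a b := by
    intro a b
    have h1 := hd.hasFDerivAt.clm_apply (hasFDerivAt_const (𝕜 := ℝ) b q)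
    have h2 := h1.fderiv
    show fderiv ℝ (fun y => fderiv ℝ F y b) q a = _
    rw [h2]
    simp
  rw [key, key]
  have hsym : IsSymmSndFDerivAt ℝ F q :=
    (hF.contDiffAt (hS.mem_nhds hq)).isSymmSndFDerivAt (by simp)
  exact hsym u v

private theorem lap_congr {f g : ℂ → ℝ} {z : ℂ} (h : f =ᶠ[nhds z] g) : lap f z = lap g z := by
  have h1 : ∀ e : ℂ, (fun y => fderiv ℝ f y e) =ᶠ[nhds z] fun y => fderiv ℝ g y e := by
    intro e
    have h2 : fderiv ℝ f =ᶠ[nhds z] fderiv ℝ g := h.fderiv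
    filter_upwards [h2] with y hy
    rw [hy]
  unfold lap
  rw [(h1 1).fderiv_eq, (h1 Complex.I).fderiv_eq]

private theorem lap_eq {S : Set (ℝ × ℂ)} (hS : IsOpen S) {F : ℝ × ℂ → ℝ}
    (hF : ContDiffOn ℝ 2 F S) {θ : ℝ} {z : ℂ} (hq : (θ, z) ∈ S) :
    lap (fun w => F (θ, w)) z = Dd (0, 1) (Dd (0, 1) F) (θ, z) +
      Dd (0, Complex.I) (Dd (0, Complex.I) F) (θ, z) := by
  have key : ∀ e : ℂ, fderiv ℝ (fun y => fderiv ℝ (fun w => F (θ, w)) y e) z e =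
      Dd (0, e) (Dd (0, e) F) (θ, z) := by
    intro e
    have h1 : (fun y => fderiv ℝ (fun w => F (θ, w)) y e) =ᶠ[nhds z]
        fun y => Dd (0, e) F (θ, y) := by
      filter_upwards [ev_z hS hq] with y hy
      exact fd_z (diffAt hS hF two_ne_zero hy) e
    rw [h1.fderiv_eq]
    exact fd_z (diffAt hS (Dd_smooth (m := 1) hS hF (by norm_num) (0, e)) one_ne_zero hq) e
  unfold lap
  rw [key 1, key Complex.I]

private theorem grad_eq (f : ℂ → ℝ) (z : ℂ) :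
    gradient f z = ((fderiv ℝ f z 1 : ℝ) : ℂ) + ((fderiv ℝ f z Complex.I : ℝ) : ℂ) * Complex.I := by
  have h : ∀ x : ℂ, inner ℝ (gradient f z) x = fderiv ℝ f z x := fun x => by
    unfold gradient
    exact InnerProductSpace.toDual_symm_apply
  have h1 := h 1
  have h2 := h Complex.I
  rw [Complex.inner] at h1 h2
  apply Complex.ext
  · simp at h1 ⊢
    linarith
  · simp at h2 ⊢
    linarith

private theorem dth_eq (hU : IsOpen U) {n : WithTop ℕ∞} (hn : n ≠ 0)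
    (hF : ContDiffOn ℝ n (fun q : ℝ × ℂ => g q.1 q.2) (univ ×ˢ U)) {θ : ℝ} {z : ℂ} (hz : z ∈ U) :
    dth g θ z = Dd (1, 0) (fun q : ℝ × ℂ => g q.1 q.2) (θ, z) :=
  (hasD_t (F := fun q : ℝ × ℂ => g q.1 q.2)
    (diffAt (isOpen_univ.prod hU) hF hn (mk_mem_prod (mem_univ θ) hz))).deriv

private theorem dth_smooth (hU : IsOpen U) {m n : WithTop ℕ∞} (hmn : m + 1 ≤ n)
    (hF : ContDiffOn ℝ n (fun q : ℝ × ℂ => g q.1 q.2) (univ ×ˢ U)) :
    ContDiffOn ℝ m (fun q : ℝ × ℂ => dth g q.1 q.2) (univ ×ˢ U) := by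
  have hn : n ≠ 0 := by
    rintro rfl
    simp at hmn
  refine (Dd_smooth (isOpen_univ.prod hU) hF hmn (1, 0)).congr ?_
  rintro ⟨θ, z⟩ hq
  exact dth_eq hU hn hF hq.2

private theorem cont_grad (hU : IsOpen U) {n : WithTop ℕ∞} (hn : 0 + 1 ≤ n)
    (hF : ContDiffOn ℝ n (fun q : ℝ × ℂ => g q.1 q.2) (univ ×ˢ U)) :
    ContinuousOn (fun q : ℝ × ℂ => gradient (g q.1) q.2) (univ ×ˢ U) := by
  have hn' : n ≠ 0 := by
    rintro rfl
    simp at hn
  have hS := isOpen_univ.prod hU (X := ℝ)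
  have h1 : ∀ e : ℂ, ContinuousOn (Dd (0, e) (fun q : ℝ × ℂ => g q.1 q.2)) (univ ×ˢ U) :=
    fun e => (Dd_smooth hS hF hn (0, e)).continuousOn
  have h2 : ContinuousOn (fun q : ℝ × ℂ => ((Dd (0, 1) (fun q : ℝ × ℂ => g q.1 q.2) q : ℝ) : ℂ) +
      ((Dd (0, Complex.I) (fun q : ℝ × ℂ => g q.1 q.2) q : ℝ) : ℂ) * Complex.I) (univ ×ˢ U) :=
    (Complex.continuous_ofReal.comp_continuousOn (h1 1)).add
      ((Complex.continuous_ofReal.comp_continuousOn (h1 Complex.I)).mul continuousOn_const)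
  refine h2.congr ?_
  rintro ⟨θ, z⟩ hq
  have hd := diffAt hS hF hn' hq
  show gradient (g θ) z = _
  rw [grad_eq]
  have e1 := fd_z hd 1
  have e2 := fd_z hd Complex.I
  simp only at e1 e2
  rw [e1, e2]

private theorem cont_lap (hU : IsOpen U)
    (hF : ContDiffOn ℝ 2 (fun q : ℝ × ℂ => g q.1 q.2) (univ ×ˢ U)) :
    ContinuousOn (fun q : ℝ × ℂ => lap (g q.1) q.2) (univ ×ˢ U) := by
  have hS := isOpen_univ.prod hU (X := ℝ)
  have h1 : ∀ e : ℂ, ContinuousOn (Dd (0, e) (Dd (0, e) (fun q : ℝ × ℂ => g q.1 q.2)))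
      (univ ×ˢ U) := fun e =>
    (Dd_smooth (m := 0) hS (Dd_smooth (m := 1) hS hF (by norm_num) (0, e)) (by norm_num)
      (0, e)).continuousOn
  refine ((h1 1).add (h1 Complex.I)).congr ?_
  rintro ⟨θ, z⟩ hq
  exact lap_eq hS hF hq

theorem Fam.z2 (h : Fam U g) (θ : ℝ) : ContDiffOn ℝ 3 (g θ) U := by
  have h1 : ContDiffOn ℝ 3 (fun w : ℂ => ((θ, w) : ℝ × ℂ)) U :=
    (contDiff_const.prodMk contDiff_id).contDiffOn
  exact h.smooth.comp h1 fun w hw => mk_mem_prod (mem_univ θ) hw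

theorem Fam.dth2 (h : Fam U g) :
    ContDiffOn ℝ 2 (fun q : ℝ × ℂ => dth g q.1 q.2) (univ ×ˢ U) :=
  dth_smooth h.isOpen (by norm_num) h.smooth

theorem Fam.dthz2 (h : Fam U g) (θ : ℝ) : ContDiffOn ℝ 2 (dth g θ) U := by
  have h1 : ContDiffOn ℝ 2 (fun w : ℂ => ((θ, w) : ℝ × ℂ)) U :=
    (contDiff_const.prodMk contDiff_id).contDiffOn
  exact h.dth2.comp h1 fun w hw => mk_mem_prod (mem_univ θ) hw

theorem Fam.ddth1 (h : Fam U g) :
    ContDiffOn ℝ 1 (fun q : ℝ × ℂ => dth (dth g) q.1 q.2) (univ ×ˢ U) :=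
  dth_smooth h.isOpen (by norm_num) h.dth2

theorem Fam.grad_cont (h : Fam U g) :
    ContinuousOn (fun q : ℝ × ℂ => gradient (g q.1) q.2) (univ ×ˢ U) :=
  cont_grad h.isOpen (by norm_num) h.smooth

theorem Fam.gradth_cont (h : Fam U g) :
    ContinuousOn (fun q : ℝ × ℂ => gradient (dth g q.1) q.2) (univ ×ˢ U) :=
  cont_grad h.isOpen (by norm_num) h.dth2

theorem Fam.lap_cont (h : Fam U g) :
    ContinuousOn (fun q : ℝ × ℂ => lap (g q.1) q.2) (univ ×ˢ U) :=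
  cont_lap h.isOpen (h.smooth.of_le (by norm_num))

theorem Fam.lapth_cont (h : Fam U g) :
    ContinuousOn (fun q : ℝ × ℂ => lap (dth g q.1) q.2) (univ ×ˢ U) :=
  cont_lap h.isOpen h.dth2

theorem Fam.hasDeriv (h : Fam U g) (θ : ℝ) (z : ℂ) (hz : z ∈ U) :
    HasDerivAt (fun t => g t z) (dth g θ z) θ := by
  have h1 := hasD_t (F := fun q : ℝ × ℂ => g q.1 q.2) (diffAt (isOpen_univ.prod h.isOpen)
    h.smooth (by norm_num) (mk_mem_prod (mem_univ θ) hz))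
  rw [dth_eq h.isOpen (by norm_num) h.smooth hz]
  exact h1

theorem Fam.hasDeriv2 (h : Fam U g) (θ : ℝ) (z : ℂ) (hz : z ∈ U) :
    HasDerivAt (fun t => dth g t z) (dth (dth g) θ z) θ := by
  have h1 := hasD_t (F := fun q : ℝ × ℂ => dth g q.1 q.2) (diffAt (isOpen_univ.prod h.isOpen)
    h.dth2 (by norm_num) (mk_mem_prod (mem_univ θ) hz))
  rw [dth_eq (g := dth g) h.isOpen (by norm_num) h.dth2 hz]
  exact h1

theorem Fam.hasDeriv_grad (h : Fam U g) (θ : ℝ) (z : ℂ) (hz : z ∈ U) :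
    HasDerivAt (fun t => gradient (g t) z) (gradient (dth g θ) z) θ := by
  have hS := isOpen_univ.prod h.isOpen (X := ℝ)
  set G : ℝ × ℂ → ℝ := fun q => g q.1 q.2 with hG
  have hG3 : ContDiffOn ℝ 3 G (univ ×ˢ U) := h.smooth
  have hG2 : ContDiffOn ℝ 2 G (univ ×ˢ U) := hG3.of_le (by norm_num)
  have hq : ∀ t : ℝ, ((t, z) : ℝ × ℂ) ∈ (univ ×ˢ U : Set (ℝ × ℂ)) :=
    fun t => mk_mem_prod (mem_univ t) hz
  have hfun : (fun t => gradient (g t) z) = fun t => ((Dd (0, 1) G (t, z) : ℝ) : ℂ) +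
      ((Dd (0, Complex.I) G (t, z) : ℝ) : ℂ) * Complex.I := by
    funext t
    rw [grad_eq]
    have hd := diffAt hS hG2 two_ne_zero (hq t)
    have e1 := fd_z hd 1
    have e2 := fd_z hd Complex.I
    rw [← e1, ← e2]
  have hval : gradient (dth g θ) z = ((Dd (1, 0) (Dd (0, 1) G) (θ, z) : ℝ) : ℂ) +
      ((Dd (1, 0) (Dd (0, Complex.I) G) (θ, z) : ℝ) : ℂ) * Complex.I := by
    rw [grad_eq]
    have hev : dth g θ =ᶠ[nhds z] fun w => Dd (1, 0) G (θ, w) := by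
      filter_upwards [h.isOpen.mem_nhds hz] with w hw
      exact dth_eq h.isOpen (by norm_num) h.smooth hw
    rw [hev.fderiv_eq]
    have hd := diffAt hS (Dd_smooth (m := 1) hS hG2 (by norm_num) (1, 0)) one_ne_zero (hq θ)
    have e1 := fd_z hd 1
    have e2 := fd_z hd Complex.I
    rw [e1, e2, Dd_comm hS hG2 (0, 1) (1, 0) (hq θ), Dd_comm hS hG2 (0, Complex.I) (1, 0) (hq θ)]
  rw [hfun, hval]
  have hD : ∀ e : ℂ, HasDerivAt (fun t => Dd (0, e) G (t, z)) (Dd (1, 0) (Dd (0, e) G) (θ, z)) θ :=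
    fun e => hasD_t (diffAt hS (Dd_smooth (m := 1) hS hG2 (by norm_num) (0, e)) one_ne_zero (hq θ))
  exact (hD 1).ofReal_comp.add ((hD Complex.I).ofReal_comp.mul_const Complex.I)

theorem Fam.hasDeriv_lap (h : Fam U g) (θ : ℝ) (z : ℂ) (hz : z ∈ U) :
    HasDerivAt (fun t => lap (g t) z) (lap (dth g θ) z) θ := by
  have hS := isOpen_univ.prod h.isOpen (X := ℝ)
  set G : ℝ × ℂ → ℝ := fun q => g q.1 q.2 with hG
  have hG3 : ContDiffOn ℝ 3 G (univ ×ˢ U) := h.smooth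
  have hG2 : ContDiffOn ℝ 2 G (univ ×ˢ U) := hG3.of_le (by norm_num)
  have hq : ∀ t : ℝ, ((t, z) : ℝ × ℂ) ∈ (univ ×ˢ U : Set (ℝ × ℂ)) :=
    fun t => mk_mem_prod (mem_univ t) hz
  have hfun : (fun t => lap (g t) z) = fun t => Dd (0, 1) (Dd (0, 1) G) (t, z) +
      Dd (0, Complex.I) (Dd (0, Complex.I) G) (t, z) := by
    funext t
    exact lap_eq hS hG2 (hq t)
  have hu2 : ContDiffOn ℝ 2 (Dd (1, 0) G) (univ ×ˢ U) := Dd_smooth hS hG3 (by norm_num) (1, 0)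
  have hcomm : ∀ v : ℝ × ℂ, Dd v (Dd v (Dd (1, 0) G)) (θ, z) =
      Dd (1, 0) (Dd v (Dd v G)) (θ, z) := by
    intro v
    have hv2 : ContDiffOn ℝ 2 (Dd v G) (univ ×ˢ U) := Dd_smooth hS hG3 (by norm_num) v
    rw [Dd_comm hS hv2 (1, 0) v (hq θ)]
    have hev : Dd v (Dd (1, 0) G) =ᶠ[nhds (θ, z)] Dd (1, 0) (Dd v G) := by
      filter_upwards [hS.mem_nhds (hq θ)] with q hq'
      exact Dd_comm hS hG2 v (1, 0) hq'
    show fderiv ℝ (Dd v (Dd (1, 0) G)) (θ, z) v = fderiv ℝ (Dd (1, 0) (Dd v G)) (θ, z) v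
    rw [hev.fderiv_eq]
  have hval : lap (dth g θ) z = Dd (1, 0) (Dd (0, 1) (Dd (0, 1) G)) (θ, z) +
      Dd (1, 0) (Dd (0, Complex.I) (Dd (0, Complex.I) G)) (θ, z) := by
    have hev : dth g θ =ᶠ[nhds z] fun w => Dd (1, 0) G (θ, w) := by
      filter_upwards [h.isOpen.mem_nhds hz] with w hw
      exact dth_eq h.isOpen (by norm_num) h.smooth hw
    rw [lap_congr hev, lap_eq hS hu2 (hq θ), hcomm, hcomm]
  rw [hfun, hval]
  have hD : ∀ e : ℂ, HasDerivAt (fun t => Dd (0, e) (Dd (0, e) G) (t, z))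
      (Dd (1, 0) (Dd (0, e) (Dd (0, e) G)) (θ, z)) θ :=
    fun e => hasD_t (diffAt hS (Dd_smooth (m := 1) hS (Dd_smooth (m := 2) hS hG3 (by norm_num)
      (0, e)) (by norm_num) (0, e)) one_ne_zero (hq θ))
  exact (hD 1).add (hD Complex.I)

theorem Fam.per_dth (h : Fam U g) (θ : ℝ) (z : ℂ) : dth g (θ + 2 * Real.pi) z = dth g θ z := by
  unfold dth
  have h1 : (fun t => g (t + 2 * Real.pi) z) = fun t => g t z := by
    funext t
    exact h.per t z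
  rw [← deriv_comp_add_const (fun t => g t z) (2 * Real.pi) θ, h1]

theorem Fam.per_grad (h : Fam U g) (θ : ℝ) (z : ℂ) :
    gradient (g (θ + 2 * Real.pi)) z = gradient (g θ) z := by
  have h1 : g (θ + 2 * Real.pi) = g θ := by
    funext w
    exact h.per θ w
  rw [h1]

theorem Fam.per_lap (h : Fam U g) (θ : ℝ) (z : ℂ) : lap (g (θ + 2 * Real.pi)) z = lap (g θ) z := by
  have h1 : g (θ + 2 * Real.pi) = g θ := by
    funext w
    exact h.per θ w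
  rw [h1]

end Pool.Agent.HAS
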