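import Pool.Agent.HAS.T5A
import Pool.Agent.HAS.T5B

/-!
# The integration by parts formula for families (module T5C)

PLAN.  All integrands are continuous with compact support in `z ∈ tsupport ζ ⊆ U` and continuous in `θ` (module T5B), so
Fubini applies.  (i) For fixed `z`, periodic integration by parts:
`∫_θ dth(dth g) lap g = -∫_θ dth g · lap (dth g)` (`hasDeriv2`, `hasDeriv_lap`, periodicity).
(ii) For fixed `θ`: `green` for `f = g θ` and for `f = dth g θ` (both `C²` on `U`); `curl` with `p = dth g θ`, `f = g θ`.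
Sum: `-∫∫ζ g lap g = ∫∫ ζ‖∇g‖² - ½ g² lap ζ`, `-∫∫ζ g_θθ lap g = ∫∫ ζ g_θ lap g_θ = ∫∫ -ζ‖∇g_θ‖² + ½ g_θ² lap ζ`,
`∫∫ ζ‖∇g_θ - I∇g‖² = ∫∫ ζ(‖∇g_θ‖² + ‖∇g‖²) - 2ζ⟨∇g_θ, I∇g⟩`, `-2∫ζ⟨∇g_θ,I∇g⟩ = 2∫ g_θ⟨∇ζ,I∇g⟩`.
`Qn_nonneg`: if `g + g_θθ = 0` then `Nn = ‖..‖² ≥ 0`.
-/

set_option autoImplicit false

namespace Pool.Agent.HAS

open MeasureTheory Metric Set

variable {U : Set ℂ} {g : ℝ → ℂ → ℝ}

private def Nice (K : Set ℂ) (Φ : ℝ → ℂ → ℝ) : Prop :=
  Continuous (fun q : ℝ × ℂ => Φ q.1 q.2) ∧ ∀ θ z, z ∉ K → Φ θ z = 0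

private noncomputable def DI (Φ : ℝ → ℂ → ℝ) : ℝ :=
  ∫ p : ℂ × ℝ, Φ p.2 p.1 ∂((volume : Measure ℂ).prod
    ((volume : Measure ℝ).restrict (Ioc 0 (2 * Real.pi))))

private lemma nice_of {K : Set ℂ} (hK : IsClosed K) (hU : IsOpen U) (hKU : K ⊆ U)
    {Φ : ℝ → ℂ → ℝ} (h1 : ContinuousOn (fun q : ℝ × ℂ => Φ q.1 q.2) (univ ×ˢ U))
    (h2 : ∀ θ z, z ∉ K → Φ θ z = 0) : Nice K Φ := by
  refine ⟨?_, h2⟩
  rw [continuous_iff_continuousAt]
  rintro ⟨θ, z⟩
  by_cases hz : z ∈ U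
  · exact h1.continuousAt ((isOpen_univ.prod hU).mem_nhds ⟨mem_univ _, hz⟩)
  · have hzK : z ∉ K := fun h => hz (hKU h)
    have h3 : (univ ×ˢ Kᶜ : Set (ℝ × ℂ)) ∈ nhds (θ, z) :=
      (isOpen_univ.prod hK.isOpen_compl).mem_nhds ⟨mem_univ _, hzK⟩
    have h4 : (fun q : ℝ × ℂ => Φ q.1 q.2) =ᶠ[nhds (θ, z)] fun _ => (0 : ℝ) := by
      filter_upwards [h3] with q hq
      exact h2 q.1 q.2 hq.2
    exact continuousAt_const.congr h4.symm

private lemma Nice.add {K : Set ℂ} {Φ Ψ : ℝ → ℂ → ℝ} (h : Nice K Φ) (h' : Nice K Ψ) :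
    Nice K (fun θ z => Φ θ z + Ψ θ z) :=
  ⟨h.1.add h'.1, fun θ z hz => by
    show Φ θ z + Ψ θ z = 0
    rw [h.2 θ z hz, h'.2 θ z hz, add_zero]⟩

private lemma Nice.smul {K : Set ℂ} {Φ : ℝ → ℂ → ℝ} (h : Nice K Φ) (c : ℝ) :
    Nice K (fun θ z => c * Φ θ z) :=
  ⟨continuous_const.mul h.1, fun θ z hz => by
    show c * Φ θ z = 0
    rw [h.2 θ z hz, mul_zero]⟩

private lemma Nice.integrable {K : Set ℂ} (hK : IsCompact K) {Φ : ℝ → ℂ → ℝ} (h : Nice K Φ) :
    Integrable (fun p : ℂ × ℝ => Φ p.2 p.1) ((volume : Measure ℂ).prod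
      ((volume : Measure ℝ).restrict (Ioc 0 (2 * Real.pi)))) := by
  have hm : (volume : Measure ℂ).prod ((volume : Measure ℝ).restrict (Ioc 0 (2 * Real.pi))) =
      ((volume : Measure ℂ).prod (volume : Measure ℝ)).restrict
        (univ ×ˢ Ioc 0 (2 * Real.pi)) := by
    rw [← Measure.prod_restrict, Measure.restrict_univ]
  rw [hm]
  have hcont : Continuous (fun p : ℂ × ℝ => Φ p.2 p.1) :=
    h.1.comp (continuous_snd.prodMk continuous_fst)
  have h1 : IntegrableOn (fun p : ℂ × ℝ => Φ p.2 p.1) (K ×ˢ Icc 0 (2 * Real.pi))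
      ((volume : Measure ℂ).prod (volume : Measure ℝ)) :=
    hcont.continuousOn.integrableOn_compact (hK.prod isCompact_Icc)
  have h2 : IntegrableOn (fun p : ℂ × ℝ => Φ p.2 p.1) (K ×ˢ Ioc 0 (2 * Real.pi))
      ((volume : Measure ℂ).prod (volume : Measure ℝ)) :=
    h1.mono_set (prod_mono subset_rfl Ioc_subset_Icc_self)
  apply h2.of_forall_sdiff_eq_zero (MeasurableSet.univ.prod measurableSet_Ioc)
  rintro ⟨z, θ⟩ ⟨⟨_, hθ⟩, hn⟩
  exact h.2 θ z fun hz => hn ⟨hz, hθ⟩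

private lemma DI_eq {K : Set ℂ} (hK : IsCompact K) {Φ : ℝ → ℂ → ℝ} (h : Nice K Φ) :
    DI Φ = ∫ z, ∫ θ in (0 : ℝ)..(2 * Real.pi), Φ θ z := by
  unfold DI
  rw [integral_prod _ (h.integrable hK)]
  refine integral_congr_ae (Filter.Eventually.of_forall fun z => ?_)
  show ∫ θ in Ioc 0 (2 * Real.pi), Φ θ z = ∫ θ in (0 : ℝ)..(2 * Real.pi), Φ θ z
  rw [intervalIntegral.integral_of_le (by positivity)]

private lemma DI_zero_th {K : Set ℂ} (hK : IsCompact K) {Φ : ℝ → ℂ → ℝ} (h : Nice K Φ)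
    (h0 : ∀ z, ∫ θ in (0 : ℝ)..(2 * Real.pi), Φ θ z = 0) : DI Φ = 0 := by
  rw [DI_eq hK h]
  simp only [h0, integral_zero]

private lemma DI_zero_z {K : Set ℂ} (hK : IsCompact K) {Φ : ℝ → ℂ → ℝ} (h : Nice K Φ)
    (h0 : ∀ θ, ∫ z, Φ θ z = 0) : DI Φ = 0 := by
  unfold DI
  rw [integral_prod_symm _ (h.integrable hK)]
  have h1 : ∀ θ : ℝ, ∫ z : ℂ, (fun p : ℂ × ℝ => Φ p.2 p.1) (z, θ) = 0 := fun θ => h0 θ
  simp only [h1, integral_zero]

private lemma DI_add {K : Set ℂ} (hK : IsCompact K) {Φ Ψ : ℝ → ℂ → ℝ} (h : Nice K Φ)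
    (h' : Nice K Ψ) : DI (fun θ z => Φ θ z + Ψ θ z) = DI Φ + DI Ψ :=
  integral_add (h.integrable hK) (h'.integrable hK)

private lemma DI_smul (c : ℝ) (Φ : ℝ → ℂ → ℝ) : DI (fun θ z => c * Φ θ z) = c * DI Φ :=
  integral_const_mul c _

private lemma Nice.int_z {K : Set ℂ} (hK : IsCompact K) {Φ : ℝ → ℂ → ℝ} (h : Nice K Φ) (θ : ℝ) :
    Integrable (fun z => Φ θ z) := by
  have h1 : Continuous (fun z => Φ θ z) := h.1.comp (continuous_const.prodMk continuous_id)
  exact h1.integrable_of_hasCompactSupport (HasCompactSupport.intro hK fun z hz => h.2 θ z hz)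

private lemma zeta_ev {ζ : ℂ → ℝ} {z : ℂ} (hz : z ∉ tsupport ζ) :
    ζ =ᶠ[nhds z] fun _ => (0 : ℝ) := by
  have h1 : (tsupport ζ)ᶜ ∈ nhds z := (isClosed_tsupport ζ).isOpen_compl.mem_nhds hz
  filter_upwards [h1] with y hy
  exact image_eq_zero_of_notMem_tsupport hy

private lemma fd_zero {ζ : ℂ → ℝ} {z : ℂ} (hz : z ∉ tsupport ζ) : fderiv ℝ ζ z = 0 := by
  rw [(zeta_ev hz).fderiv_eq]
  simp

private lemma grad_zero {ζ : ℂ → ℝ} {z : ℂ} (hz : z ∉ tsupport ζ) : gradient ζ z = 0 := by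
  unfold gradient
  rw [fd_zero hz, map_zero]

private lemma lap_zero {ζ : ℂ → ℝ} {z : ℂ} (hz : z ∉ tsupport ζ) : lap ζ z = 0 := by
  have h1 : (tsupport ζ)ᶜ ∈ nhds z := (isClosed_tsupport ζ).isOpen_compl.mem_nhds hz
  have h2 : ∀ v : ℂ, (fun y => fderiv ℝ ζ y v) =ᶠ[nhds z] fun _ => (0 : ℝ) := by
    intro v
    filter_upwards [h1] with y hy
    rw [fd_zero hy]
    rfl
  unfold lap
  rw [(h2 1).fderiv_eq, (h2 Complex.I).fderiv_eq]
  simp

private lemma grad_contζ {ζ : ℂ → ℝ} (hζ : ContDiff ℝ 2 ζ) : Continuous (gradient ζ) := by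
  have h1 : Continuous (fderiv ℝ ζ) := hζ.continuous_fderiv (by norm_num)
  exact (InnerProductSpace.toDual ℝ ℂ).symm.continuous.comp h1

private lemma lap_contζ {ζ : ℂ → ℝ} (hζ : ContDiff ℝ 2 ζ) : Continuous (lap ζ) := by
  have h1 : ∀ v : ℂ, Continuous fun z => fderiv ℝ (fun y => fderiv ℝ ζ y v) z v := by
    intro v
    have h2 : ContDiff ℝ 1 (fderiv ℝ ζ) := hζ.fderiv_right (by norm_num)
    have h3 : ContDiff ℝ 1 (fun y => fderiv ℝ ζ y v) := h2.clm_apply contDiff_const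
    exact (h3.continuous_fderiv (by norm_num)).clm_apply continuous_const
  exact (h1 1).add (h1 Complex.I)

theorem Q_eq (h : Fam U g) (ζ : ℂ → ℝ) (hζ : ContDiff ℝ 2 ζ) (hc : HasCompactSupport ζ)
    (hs : tsupport ζ ⊆ U) : Qn ζ g = Qf ζ g := by
  have hU := h.isOpen
  have hK : IsCompact (tsupport ζ) := hc
  have hKc : IsClosed (tsupport ζ) := isClosed_tsupport ζ
  have hζ0 : ∀ z, z ∉ tsupport ζ → ζ z = 0 := fun z hz => image_eq_zero_of_notMem_tsupport hz
  have cζ : ContinuousOn (fun q : ℝ × ℂ => ζ q.2) (univ ×ˢ U) :=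
    (hζ.continuous.comp continuous_snd).continuousOn
  have cgζ : ContinuousOn (fun q : ℝ × ℂ => gradient ζ q.2) (univ ×ˢ U) :=
    ((grad_contζ hζ).comp continuous_snd).continuousOn
  have clζ : ContinuousOn (fun q : ℝ × ℂ => lap ζ q.2) (univ ×ˢ U) :=
    ((lap_contζ hζ).comp continuous_snd).continuousOn
  have cg0 : ContinuousOn (fun q : ℝ × ℂ => g q.1 q.2) (univ ×ˢ U) := h.smooth.continuousOn
  have cg1 : ContinuousOn (fun q : ℝ × ℂ => dth g q.1 q.2) (univ ×ˢ U) := h.dth2.continuousOn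
  have cg2 : ContinuousOn (fun q : ℝ × ℂ => dth (dth g) q.1 q.2) (univ ×ˢ U) :=
    h.ddth1.continuousOn
  have cgr := h.grad_cont
  have cgrt := h.gradth_cont
  have clp := h.lap_cont
  have clpt := h.lapth_cont
  have cIgr : ContinuousOn (fun q : ℝ × ℂ => Complex.I * gradient (g q.1) q.2) (univ ×ˢ U) :=
    continuousOn_const.mul cgr
  -- the integrands
  have n1 : Nice (tsupport ζ) (fun θ z => ζ z * g θ z * lap (g θ) z) :=
    nice_of hKc hU hs ((cζ.mul cg0).mul clp) fun θ z hz => by rw [hζ0 z hz, zero_mul, zero_mul]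
  have n2 : Nice (tsupport ζ) (fun θ z => ζ z * (dth (dth g) θ z * lap (g θ) z)) :=
    nice_of hKc hU hs (cζ.mul (cg2.mul clp)) fun θ z hz => by rw [hζ0 z hz, zero_mul]
  have n3 : Nice (tsupport ζ) (fun θ z => ζ z * ‖gradient (dth g θ) z‖ ^ 2) :=
    nice_of hKc hU hs (cζ.mul (cgrt.norm.pow 2)) fun θ z hz => by rw [hζ0 z hz, zero_mul]
  have n4 : Nice (tsupport ζ) (fun θ z => ζ z * ‖gradient (g θ) z‖ ^ 2) :=
    nice_of hKc hU hs (cζ.mul (cgr.norm.pow 2)) fun θ z hz => by rw [hζ0 z hz, zero_mul]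
  have n5 : Nice (tsupport ζ) (fun θ z => ζ z *
      (inner ℝ (gradient (dth g θ) z) (Complex.I * gradient (g θ) z) : ℝ)) :=
    nice_of hKc hU hs (cζ.mul (cgrt.inner cIgr)) fun θ z hz => by rw [hζ0 z hz, zero_mul]
  have n6 : Nice (tsupport ζ) (fun θ z => g θ z ^ 2 * lap ζ z) :=
    nice_of hKc hU hs ((cg0.pow 2).mul clζ) fun θ z hz => by rw [lap_zero hz, mul_zero]
  have n7 : Nice (tsupport ζ) (fun θ z => dth g θ z ^ 2 * lap ζ z) :=
    nice_of hKc hU hs ((cg1.pow 2).mul clζ) fun θ z hz => by rw [lap_zero hz, mul_zero]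
  have n8 : Nice (tsupport ζ) (fun θ z => dth g θ z *
      (inner ℝ (gradient ζ z) (Complex.I * gradient (g θ) z) : ℝ)) :=
    nice_of hKc hU hs (cg1.mul (cgζ.inner cIgr)) fun θ z hz => by
      rw [grad_zero hz, inner_zero_left, mul_zero]
  have n9 : Nice (tsupport ζ) (fun θ z => ζ z * dth g θ z * lap (dth g θ) z) :=
    nice_of hKc hU hs ((cζ.mul cg1).mul clpt) fun θ z hz => by rw [hζ0 z hz, zero_mul, zero_mul]
  -- identity (i)
  have e29 : DI (fun θ z => ζ z * (dth (dth g) θ z * lap (g θ) z)) +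
      DI (fun θ z => ζ z * dth g θ z * lap (dth g θ) z) = 0 := by
    rw [← DI_add hK n2 n9]
    apply DI_zero_th hK (n2.add n9)
    intro z
    by_cases hz : z ∈ U
    · have hcθ : ∀ {X : Type} [TopologicalSpace X] {F : ℝ × ℂ → X},
          ContinuousOn F (univ ×ˢ U) → Continuous fun θ : ℝ => F (θ, z) := by
        intro X _ F hF
        rw [continuous_iff_continuousAt]
        intro θ
        exact (hF.continuousAt ((isOpen_univ.prod hU).mem_nhds ⟨mem_univ _, hz⟩)).comp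
          (Continuous.prodMk_left z).continuousAt
      have k1 : Continuous fun θ : ℝ => dth (dth g) θ z := hcθ cg2
      have k2 : Continuous fun θ : ℝ => lap (dth g θ) z := hcθ clpt
      have k3 : Continuous fun θ : ℝ => lap (g θ) z := hcθ clp
      have k4 : Continuous fun θ : ℝ => dth g θ z := hcθ cg1
      have hip := intervalIntegral.integral_mul_deriv_eq_deriv_mul
        (a := 0) (b := 2 * Real.pi) (u := fun θ => lap (g θ) z) (v := fun θ => dth g θ z)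
        (u' := fun θ => lap (dth g θ) z) (v' := fun θ => dth (dth g) θ z)
        (fun θ _ => h.hasDeriv_lap θ z hz) (fun θ _ => h.hasDeriv2 θ z hz)
        (k2.intervalIntegrable _ _) (k1.intervalIntegrable _ _)
      have hp1 : lap (g (2 * Real.pi)) z = lap (g 0) z := by
        have := h.per_lap 0 z
        rwa [zero_add] at this
      have hp2 : dth g (2 * Real.pi) z = dth g 0 z := by
        have := h.per_dth 0 z
        rwa [zero_add] at this
      rw [hp1, hp2, sub_self, zero_sub] at hip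
      have hsum : ∀ θ : ℝ, ζ z * (dth (dth g) θ z * lap (g θ) z) +
          ζ z * dth g θ z * lap (dth g θ) z =
          ζ z * (lap (g θ) z * dth (dth g) θ z + lap (dth g θ) z * dth g θ z) := by
        intro θ
        ring
      simp only [hsum]
      have hadd : ∫ θ in (0 : ℝ)..(2 * Real.pi), (lap (g θ) z * dth (dth g) θ z +
          lap (dth g θ) z * dth g θ z) =
          (∫ θ in (0 : ℝ)..(2 * Real.pi), lap (g θ) z * dth (dth g) θ z) +
            ∫ θ in (0 : ℝ)..(2 * Real.pi), lap (dth g θ) z * dth g θ z :=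
        intervalIntegral.integral_add ((k3.mul k1).intervalIntegrable _ _)
          ((k2.mul k4).intervalIntegrable _ _)
      rw [intervalIntegral.integral_const_mul, hadd, hip, neg_add_cancel, mul_zero]
    · have hz' : z ∉ tsupport ζ := fun hh => hz (hs hh)
      simp only [hζ0 z hz', zero_mul, add_zero, intervalIntegral.integral_zero]
  -- identity (ii)
  have e1 : DI (fun θ z => ζ z * g θ z * lap (g θ) z) +
      (DI (fun θ z => ζ z * ‖gradient (g θ) z‖ ^ 2) +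
        (-(1 / 2)) * DI (fun θ z => g θ z ^ 2 * lap ζ z)) = 0 := by
    rw [← DI_smul, ← DI_add hK n4 (n6.smul _), ← DI_add hK n1 (n4.add (n6.smul _))]
    apply DI_zero_z hK (n1.add (n4.add (n6.smul _)))
    intro θ
    rw [integral_add (n1.int_z hK θ) ((n4.add (n6.smul _)).int_z hK θ),
      integral_add (n4.int_z hK θ) ((n6.smul _).int_z hK θ), integral_const_mul,
      green U hU (g θ) ζ ((h.z2 θ).of_le (by norm_num)) hζ hc hs]
    ring
  -- identity (iii)
  have e9 : DI (fun θ z => ζ z * dth g θ z * lap (dth g θ) z) +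
      (DI (fun θ z => ζ z * ‖gradient (dth g θ) z‖ ^ 2) +
        (-(1 / 2)) * DI (fun θ z => dth g θ z ^ 2 * lap ζ z)) = 0 := by
    rw [← DI_smul, ← DI_add hK n3 (n7.smul _), ← DI_add hK n9 (n3.add (n7.smul _))]
    apply DI_zero_z hK (n9.add (n3.add (n7.smul _)))
    intro θ
    rw [integral_add (n9.int_z hK θ) ((n3.add (n7.smul _)).int_z hK θ),
      integral_add (n3.int_z hK θ) ((n7.smul _).int_z hK θ), integral_const_mul,
      green U hU (dth g θ) ζ (h.dthz2 θ) hζ hc hs]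
    ring
  -- identity (iv)
  have e5 : DI (fun θ z => ζ z *
      (inner ℝ (gradient (dth g θ) z) (Complex.I * gradient (g θ) z) : ℝ)) +
      DI (fun θ z => dth g θ z *
      (inner ℝ (gradient ζ z) (Complex.I * gradient (g θ) z) : ℝ)) = 0 := by
    rw [← DI_add hK n5 n8]
    apply DI_zero_z hK (n5.add n8)
    intro θ
    rw [integral_add (n5.int_z hK θ) (n8.int_z hK θ),
      curl U hU (dth g θ) (g θ) ζ ((h.dthz2 θ).of_le (by norm_num))
        ((h.z2 θ).of_le (by norm_num)) hζ hc hs]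
    ring
  -- the two sides
  have hQn : Qn ζ g = (-1) * DI (fun θ z => ζ z * g θ z * lap (g θ) z) +
      ((-1) * DI (fun θ z => ζ z * (dth (dth g) θ z * lap (g θ) z)) +
        (DI (fun θ z => ζ z * ‖gradient (dth g θ) z‖ ^ 2) +
          (DI (fun θ z => ζ z * ‖gradient (g θ) z‖ ^ 2) +
            (-2) * DI (fun θ z => ζ z *
      (inner ℝ (gradient (dth g θ) z) (Complex.I * gradient (g θ) z) : ℝ))))) := by
    rw [← DI_smul, ← DI_smul, ← DI_smul, ← DI_add hK n4 (n5.smul _),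
      ← DI_add hK n3 (n4.add (n5.smul _)),
      ← DI_add hK (n2.smul _) (n3.add (n4.add (n5.smul _))),
      ← DI_add hK (n1.smul _) ((n2.smul _).add (n3.add (n4.add (n5.smul _)))),
      DI_eq hK ((n1.smul _).add ((n2.smul _).add (n3.add (n4.add (n5.smul _)))))]
    unfold Qn
    refine integral_congr_ae (Filter.Eventually.of_forall fun z => ?_)
    refine intervalIntegral.integral_congr fun θ _ => ?_
    show ζ z * Nn g θ z = _
    unfold Nn
    rw [norm_sub_sq_real, norm_mul, Complex.norm_I, one_mul]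
    ring
  have hQq : Qf ζ g = 2 * DI (fun θ z => ζ z * ‖gradient (g θ) z‖ ^ 2) +
      (2 * DI (fun θ z => dth g θ z *
      (inner ℝ (gradient ζ z) (Complex.I * gradient (g θ) z) : ℝ)) +
        ((1 / 2) * DI (fun θ z => dth g θ z ^ 2 * lap ζ z) +
          (-(1 / 2)) * DI (fun θ z => g θ z ^ 2 * lap ζ z))) := by
    rw [← DI_smul, ← DI_smul, ← DI_smul, ← DI_smul, ← DI_add hK (n7.smul _) (n6.smul _),
      ← DI_add hK (n8.smul _) ((n7.smul _).add (n6.smul _)),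
      ← DI_add hK (n4.smul _) ((n8.smul _).add ((n7.smul _).add (n6.smul _))),
      DI_eq hK ((n4.smul _).add ((n8.smul _).add ((n7.smul _).add (n6.smul _))))]
    unfold Qf
    refine integral_congr_ae (Filter.Eventually.of_forall fun z => ?_)
    refine intervalIntegral.integral_congr fun θ _ => ?_
    show Nq ζ g θ z = _
    unfold Nq
    ring
  rw [hQn, hQq]
  linarith

end Pool.Agent.HAS
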