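import Pool.Agent.HAS.T5B
import Pool.Agent.HAS.T.Par
import Pool.Agent.HAS.T.Dif

/-!
# The harmonics of a family (module T5D)

PLAN.  Parameter integrals: `cg g`, `s1g g`, `s2g g` are `C³` on `U` (`ContDiffOn` under the integral sign over a compact
interval: derivatives of `G` up to order 3 are jointly continuous; e.g. `contDiffOn_of_differentiableOn_deriv`-style
induction with `hasFDerivAt_integral_of_dominated_of_fderiv_le`, or Mathlib's `ContDiff` results on parametric interval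
integrals (`ContDiff.parametric_intervalIntegral`, if present)).  `gradient (cg g) z = (2π)⁻¹ ∫ gradient (g θ) z`, etc.
`Fam` for the constant family, `gl g`, `gu g`.  Orthogonality of `gu`: `∫ gu = ∫ gu cos = ∫ gu sin = 0` for `z ∈ U`
(direct computation with `∫cos²=∫sin²=π`), hence for `gradient (gu g θ) z` (differentiate in `z`), and for
`dth (gu g)` (periodic integration by parts).
-/

set_option autoImplicit false

namespace Pool.Agent.HAS

open MeasureTheory Metric Set
open Pool.Agent.HAS.T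

variable {U : Set ℂ} {g : ℝ → ℂ → ℝ}

private theorem td_sw (h : Fam U g) :
    ContDiffOn ℝ 3 (fun p : ℂ × ℝ => g p.2 p.1) (U ×ˢ (univ : Set ℝ)) := by
  have h1 : ContDiffOn ℝ 3 (fun p : ℂ × ℝ => (p.2, p.1)) (U ×ˢ (univ : Set ℝ)) :=
    (contDiff_snd.prodMk contDiff_fst).contDiffOn
  exact h.smooth.comp h1 (fun p hp => ⟨mem_univ _, hp.1⟩)

private theorem td_par (h : Fam U g) (w : ℝ → ℝ) (hw : Continuous w) :
    ContDiffOn ℝ 3 (fun z => ∫ θ in (0 : ℝ)..(2 * Real.pi), w θ * g θ z) U := by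
  have h2 : ContDiffOn ℝ ((3 : ℕ) : WithTop ℕ∞) (fun p : ℂ × ℝ => g p.2 p.1) (U ×ˢ (univ : Set ℝ)) := by
    have h3 := td_sw h
    exact_mod_cast h3
  have h4 := par_contDiffOn h.isOpen 3 h2 w hw 0 (2 * Real.pi)
  have h5 : ContDiffOn ℝ 3 (fun z => ∫ θ in (0 : ℝ)..(2 * Real.pi), w θ • g θ z) U := by
    exact_mod_cast h4
  exact h5

private theorem td_cont (h : Fam U g) {z : ℂ} (hz : z ∈ U) : Continuous (fun θ => g θ z) := by
  have h1 : ContinuousOn (fun q : ℝ × ℂ => g q.1 q.2) (univ ×ˢ U) := h.smooth.continuousOn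
  rw [← continuousOn_univ]
  refine h1.comp (f := fun θ : ℝ => (θ, z)) ?_ (fun θ _ => ⟨mem_univ _, hz⟩)
  fun_prop

theorem cg_smooth (h : Fam U g) : ContDiffOn ℝ 3 (cg g) U := by
  have h1 := td_par h (fun _ => 1) continuous_const
  simp only [one_mul] at h1
  exact contDiffOn_const.mul h1

theorem s1g_smooth (h : Fam U g) : ContDiffOn ℝ 3 (s1g g) U := by
  have h1 := td_par h Real.cos Real.continuous_cos
  have h2 : s1g g = fun z => Real.pi⁻¹ * ∫ θ in (0 : ℝ)..(2 * Real.pi), Real.cos θ * g θ z := by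
    funext z
    unfold s1g
    simp only [mul_comm]
  rw [h2]
  exact contDiffOn_const.mul h1

theorem s2g_smooth (h : Fam U g) : ContDiffOn ℝ 3 (s2g g) U := by
  have h1 := td_par h Real.sin Real.continuous_sin
  have h2 : s2g g = fun z => Real.pi⁻¹ * ∫ θ in (0 : ℝ)..(2 * Real.pi), Real.sin θ * g θ z := by
    funext z
    unfold s2g
    simp only [mul_comm]
  rw [h2]
  exact contDiffOn_const.mul h1

private theorem td_ig (f : ℂ → ℝ) (z v : ℂ) : inner ℝ v (gradient f z) = fderiv ℝ f z v := by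
  rw [real_inner_comm]
  unfold gradient
  rw [InnerProductSpace.toDual_symm_apply]

private theorem td_key (h : Fam U g) (w : ℝ → ℝ) (hw : Continuous w) {z : ℂ} (hz : z ∈ U) (v : ℂ) :
    inner ℝ v (∫ θ in (0 : ℝ)..(2 * Real.pi), w θ • gradient (g θ) z) =
      fderiv ℝ (fun z => ∫ θ in (0 : ℝ)..(2 * Real.pi), w θ * g θ z) z v := by
  have hc : Continuous (fun θ : ℝ => gradient (g θ) z) := by
    rw [← continuousOn_univ]
    refine h.grad_cont.comp (f := fun θ : ℝ => (θ, z)) ?_ (fun θ _ => ⟨mem_univ _, hz⟩)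
    fun_prop
  have hi : IntervalIntegrable (fun θ : ℝ => w θ • gradient (g θ) z) volume 0 (2 * Real.pi) :=
    (hw.smul hc).intervalIntegrable _ _
  have h1 := ContinuousLinearMap.intervalIntegral_comp_comm (innerSL ℝ v) hi
  have h2 : inner ℝ v (∫ θ in (0 : ℝ)..(2 * Real.pi), w θ • gradient (g θ) z) =
      ∫ θ in (0 : ℝ)..(2 * Real.pi), inner ℝ v (w θ • gradient (g θ) z) := h1.symm
  have hC1 : ContDiffOn ℝ 1 (fun p : ℂ × ℝ => g p.2 p.1) (U ×ˢ (univ : Set ℝ)) :=
    (td_sw h).of_le (by norm_num)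
  have h3 := par_fderiv h.isOpen hC1 w hw 0 (2 * Real.pi) hz v
  rw [h2, h3]
  refine intervalIntegral.integral_congr fun θ _ => ?_
  have h4 := (hasFDerivAt_z h.isOpen hC1 hz θ v).2
  show inner ℝ v (w θ • gradient (g θ) z) = w θ * fderiv ℝ (fun p : ℂ × ℝ => g p.2 p.1) (z, θ) (v, 0)
  rw [← h4, inner_smul_right, td_ig]

theorem cg_grad (h : Fam U g) (z : ℂ) (hz : z ∈ U) :
    gradient (cg g) z = (2 * Real.pi)⁻¹ • ∫ θ in (0 : ℝ)..(2 * Real.pi), gradient (g θ) z := by
  refine ext_inner_left ℝ fun v => ?_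
  rw [td_ig, inner_smul_right]
  have h1 := td_key h (fun _ => 1) continuous_const hz v
  simp only [one_mul, one_smul] at h1
  rw [h1]
  have h2 := (td_par h (fun _ => 1) continuous_const).contDiffAt (h.isOpen.mem_nhds hz)
  simp only [one_mul] at h2
  have h3 : DifferentiableAt ℝ (fun z => ∫ θ in (0 : ℝ)..(2 * Real.pi), g θ z) z :=
    h2.differentiableAt (by norm_num)
  have h4 : fderiv ℝ (cg g) z = (2 * Real.pi)⁻¹ • fderiv ℝ (fun z => ∫ θ in (0 : ℝ)..(2 * Real.pi), g θ z) z :=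
    fderiv_const_mul h3 _
  rw [h4]
  rfl

theorem fam_c (h : Fam U g) : Fam U (fun _ => cg g) := by
  refine ⟨h.isOpen, ?_, fun _ _ => rfl⟩
  exact (cg_smooth h).comp contDiff_snd.contDiffOn (fun q hq => hq.2)

theorem fam_l (h : Fam U g) : Fam U (gl g) := by
  refine ⟨h.isOpen, ?_, fun θ z => ?_⟩
  · have h1 : ContDiffOn ℝ 3 (fun q : ℝ × ℂ => s1g g q.2) (univ ×ˢ U) :=
      (s1g_smooth h).comp contDiff_snd.contDiffOn (fun q hq => hq.2)
    have h2 : ContDiffOn ℝ 3 (fun q : ℝ × ℂ => s2g g q.2) (univ ×ˢ U) :=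
      (s2g_smooth h).comp contDiff_snd.contDiffOn (fun q hq => hq.2)
    have h3 : ContDiffOn ℝ 3 (fun q : ℝ × ℂ => Real.cos q.1) (univ ×ˢ U) :=
      (Real.contDiff_cos.comp contDiff_fst).contDiffOn
    have h4 : ContDiffOn ℝ 3 (fun q : ℝ × ℂ => Real.sin q.1) (univ ×ˢ U) :=
      (Real.contDiff_sin.comp contDiff_fst).contDiffOn
    exact (h1.mul h3).add (h2.mul h4)
  · unfold gl
    rw [Real.cos_add_two_pi, Real.sin_add_two_pi]

theorem fam_u (h : Fam U g) : Fam U (gu g) := by
  refine ⟨h.isOpen, ?_, fun θ z => ?_⟩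
  · exact (h.smooth.sub (fam_c h).smooth).sub (fam_l h).smooth
  · unfold gu
    rw [h.per, (fam_l h).per]

private theorem td_cc : ∫ θ in (0 : ℝ)..(2 * Real.pi), Real.cos θ * Real.cos θ = Real.pi := by
  have h1 := @integral_cos_sq 0 (2 * Real.pi)
  simp only [sq] at h1
  rw [h1]
  simp

private theorem td_ss : ∫ θ in (0 : ℝ)..(2 * Real.pi), Real.sin θ * Real.sin θ = Real.pi := by
  have h1 := @integral_sin_sq 0 (2 * Real.pi)
  simp only [sq] at h1
  rw [h1]
  simp

private theorem td_sc : ∫ θ in (0 : ℝ)..(2 * Real.pi), Real.sin θ * Real.cos θ = 0 := by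
  rw [integral_sin_mul_cos₁]
  simp

private theorem td_c : ∫ θ in (0 : ℝ)..(2 * Real.pi), Real.cos θ = 0 := by
  rw [integral_cos]
  simp

private theorem td_s : ∫ θ in (0 : ℝ)..(2 * Real.pi), Real.sin θ = 0 := by
  rw [integral_sin]
  simp

private theorem td_lin (h : Fam U g) {z : ℂ} (hz : z ∈ U) (w : ℝ → ℝ) (hw : Continuous w) :
    ∫ θ in (0 : ℝ)..(2 * Real.pi), gu g θ z * w θ =
      (∫ θ in (0 : ℝ)..(2 * Real.pi), g θ z * w θ) - cg g z * (∫ θ in (0 : ℝ)..(2 * Real.pi), w θ) -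
      s1g g z * (∫ θ in (0 : ℝ)..(2 * Real.pi), Real.cos θ * w θ) -
      s2g g z * (∫ θ in (0 : ℝ)..(2 * Real.pi), Real.sin θ * w θ) := by
  have hg := td_cont h hz
  rw [← intervalIntegral.integral_const_mul, ← intervalIntegral.integral_const_mul,
    ← intervalIntegral.integral_const_mul]
  have i1 : IntervalIntegrable (fun θ => g θ z * w θ) volume 0 (2 * Real.pi) :=
    (hg.mul hw).intervalIntegrable _ _
  have i2 : IntervalIntegrable (fun θ => cg g z * w θ) volume 0 (2 * Real.pi) :=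
    (continuous_const.mul hw).intervalIntegrable _ _
  have i3 : IntervalIntegrable (fun θ => s1g g z * (Real.cos θ * w θ)) volume 0 (2 * Real.pi) :=
    (continuous_const.mul (Real.continuous_cos.mul hw)).intervalIntegrable _ _
  have i4 : IntervalIntegrable (fun θ => s2g g z * (Real.sin θ * w θ)) volume 0 (2 * Real.pi) :=
    (continuous_const.mul (Real.continuous_sin.mul hw)).intervalIntegrable _ _
  rw [← intervalIntegral.integral_sub i1 i2, ← intervalIntegral.integral_sub (i1.sub i2) i3,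
    ← intervalIntegral.integral_sub ((i1.sub i2).sub i3) i4]
  refine intervalIntegral.integral_congr fun θ _ => ?_
  show (g θ z - cg g z - (s1g g z * Real.cos θ + s2g g z * Real.sin θ)) * w θ = _
  ring

theorem gu_zero (h : Fam U g) (z : ℂ) (hz : z ∈ U) :
    ∫ θ in (0 : ℝ)..(2 * Real.pi), gu g θ z = 0 ∧
    ∫ θ in (0 : ℝ)..(2 * Real.pi), gu g θ z * Real.cos θ = 0 ∧
    ∫ θ in (0 : ℝ)..(2 * Real.pi), gu g θ z * Real.sin θ = 0 := by
  have hpi := Real.pi_pos
  refine ⟨?_, ?_, ?_⟩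
  · have h1 := td_lin h hz (fun _ => 1) continuous_const
    simp only [mul_one] at h1
    rw [h1, td_c, td_s]
    unfold cg
    rw [intervalIntegral.integral_const, smul_eq_mul]
    field_simp
    ring
  · rw [td_lin h hz _ Real.continuous_cos, td_c, td_cc, td_sc]
    unfold s1g
    field_simp
    ring
  · have e : ∫ θ in (0 : ℝ)..(2 * Real.pi), Real.cos θ * Real.sin θ = 0 := by
      refine Eq.trans ?_ td_sc
      refine intervalIntegral.integral_congr fun θ _ => ?_
      show Real.cos θ * Real.sin θ = Real.sin θ * Real.cos θ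
      ring
    rw [td_lin h hz _ Real.continuous_sin, td_s, td_ss, e]
    unfold s2g
    field_simp
    ring

private theorem td_gz (h : Fam U g) {z : ℂ} (hz : z ∈ U) (w : ℝ → ℝ) (hw : Continuous w)
    (h0 : ∀ z ∈ U, ∫ θ in (0 : ℝ)..(2 * Real.pi), w θ * gu g θ z = 0) :
    ∫ θ in (0 : ℝ)..(2 * Real.pi), w θ • gradient (gu g θ) z = 0 := by
  refine ext_inner_left ℝ fun v => ?_
  rw [td_key (fam_u h) w hw hz v, inner_zero_right]
  have h1 : (fun z => ∫ θ in (0 : ℝ)..(2 * Real.pi), w θ * gu g θ z) =ᶠ[nhds z] fun _ => (0 : ℝ) := by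
    filter_upwards [h.isOpen.mem_nhds hz] with y hy
    exact h0 y hy
  rw [h1.fderiv_eq]
  simp

theorem gu_grad_zero (h : Fam U g) (z : ℂ) (hz : z ∈ U) :
    ∫ θ in (0 : ℝ)..(2 * Real.pi), gradient (gu g θ) z = 0 ∧
    ∫ θ in (0 : ℝ)..(2 * Real.pi), Real.cos θ • gradient (gu g θ) z = 0 ∧
    ∫ θ in (0 : ℝ)..(2 * Real.pi), Real.sin θ • gradient (gu g θ) z = 0 := by
  refine ⟨?_, ?_, ?_⟩
  · have h1 := td_gz h hz (fun _ => 1) continuous_const (fun y hy => by
      simp only [one_mul]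
      exact (gu_zero h y hy).1)
    simp only [one_smul] at h1
    exact h1
  · refine td_gz h hz _ Real.continuous_cos (fun y hy => ?_)
    refine Eq.trans ?_ (gu_zero h y hy).2.1
    refine intervalIntegral.integral_congr fun θ _ => ?_
    show Real.cos θ * gu g θ y = gu g θ y * Real.cos θ
    ring
  · refine td_gz h hz _ Real.continuous_sin (fun y hy => ?_)
    refine Eq.trans ?_ (gu_zero h y hy).2.2
    refine intervalIntegral.integral_congr fun θ _ => ?_
    show Real.sin θ * gu g θ y = gu g θ y * Real.sin θ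
    ring

theorem gu_dth_zero (h : Fam U g) (z : ℂ) (hz : z ∈ U) :
    ∫ θ in (0 : ℝ)..(2 * Real.pi), dth (gu g) θ z = 0 ∧
    ∫ θ in (0 : ℝ)..(2 * Real.pi), dth (gu g) θ z * Real.cos θ = 0 ∧
    ∫ θ in (0 : ℝ)..(2 * Real.pi), dth (gu g) θ z * Real.sin θ = 0 := by
  have hu := fam_u h
  have hD := fun θ => hu.hasDeriv θ z hz
  have hcg : Continuous (fun θ => gu g θ z) := td_cont hu hz
  have hcd : Continuous (fun θ => dth (gu g) θ z) := by
    rw [← continuousOn_univ]
    refine hu.dth2.continuousOn.comp (f := fun θ : ℝ => (θ, z)) ?_ (fun θ _ => ⟨mem_univ _, hz⟩)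
    fun_prop
  have hp : gu g (2 * Real.pi) z = gu g 0 z := by
    have := hu.per 0 z
    rwa [zero_add] at this
  obtain ⟨-, z2, z3⟩ := gu_zero h z hz
  refine ⟨?_, ?_, ?_⟩
  · rw [intervalIntegral.integral_eq_sub_of_hasDerivAt (fun θ _ => hD θ)
      (hcd.intervalIntegrable _ _), hp, sub_self]
  · have h1 : ∫ θ in (0 : ℝ)..(2 * Real.pi), (dth (gu g) θ z * Real.cos θ + gu g θ z * (-Real.sin θ)) = 0 := by
      rw [intervalIntegral.integral_eq_sub_of_hasDerivAt
        (f := fun θ => gu g θ z * Real.cos θ)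
        (fun θ _ => (hD θ).mul (Real.hasDerivAt_cos θ))
        (((hcd.mul Real.continuous_cos).add (hcg.mul Real.continuous_sin.neg)).intervalIntegrable _ _)]
      rw [hp, Real.cos_two_pi, Real.cos_zero, sub_self]
    have i1 : IntervalIntegrable (fun θ => dth (gu g) θ z * Real.cos θ) volume 0 (2 * Real.pi) :=
      (hcd.mul Real.continuous_cos).intervalIntegrable _ _
    have i2 : IntervalIntegrable (fun θ => gu g θ z * (-Real.sin θ)) volume 0 (2 * Real.pi) :=
      (hcg.mul Real.continuous_sin.neg).intervalIntegrable _ _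
    rw [intervalIntegral.integral_add i1 i2] at h1
    have h2 : ∫ θ in (0 : ℝ)..(2 * Real.pi), gu g θ z * (-Real.sin θ) = 0 := by
      have h3 : ∫ θ in (0 : ℝ)..(2 * Real.pi), gu g θ z * (-Real.sin θ) =
          -∫ θ in (0 : ℝ)..(2 * Real.pi), gu g θ z * Real.sin θ := by
        rw [← intervalIntegral.integral_neg]
        refine intervalIntegral.integral_congr fun θ _ => ?_
        show gu g θ z * (-Real.sin θ) = -(gu g θ z * Real.sin θ)
        ring
      rw [h3, z3, neg_zero]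
    rw [h2, add_zero] at h1
    exact h1
  · have h1 : ∫ θ in (0 : ℝ)..(2 * Real.pi), (dth (gu g) θ z * Real.sin θ + gu g θ z * Real.cos θ) = 0 := by
      rw [intervalIntegral.integral_eq_sub_of_hasDerivAt
        (f := fun θ => gu g θ z * Real.sin θ)
        (fun θ _ => (hD θ).mul (Real.hasDerivAt_sin θ))
        (((hcd.mul Real.continuous_sin).add (hcg.mul Real.continuous_cos)).intervalIntegrable _ _)]
      rw [hp, Real.sin_two_pi, Real.sin_zero, sub_self]
    have i1 : IntervalIntegrable (fun θ => dth (gu g) θ z * Real.sin θ) volume 0 (2 * Real.pi) :=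
      (hcd.mul Real.continuous_sin).intervalIntegrable _ _
    have i2 : IntervalIntegrable (fun θ => gu g θ z * Real.cos θ) volume 0 (2 * Real.pi) :=
      (hcg.mul Real.continuous_cos).intervalIntegrable _ _
    rw [intervalIntegral.integral_add i1 i2, z2, add_zero] at h1
    exact h1

end Pool.Agent.HAS
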