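import Pool.Agent.HAS.Defs

/-! # Families of support functions over an open planar set: definitions -/

set_option autoImplicit false

namespace Pool.Agent.HAS

open MeasureTheory Metric Set

/-- derivative with respect to the angle -/
noncomputable def dth (g : ℝ → ℂ → ℝ) (θ : ℝ) (z : ℂ) : ℝ := deriv (fun t => g t z) θ

/-- periodic families, smooth over `U` -/
structure Fam (U : Set ℂ) (g : ℝ → ℂ → ℝ) : Prop where
  isOpen : IsOpen U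
  smooth : ContDiffOn ℝ 3 (fun q : ℝ × ℂ => g q.1 q.2) (univ ×ˢ U)
  per : ∀ θ z, g (θ + 2 * Real.pi) z = g θ z

/-- the density of `2π F` without the denominator -/
noncomputable def Nn (g : ℝ → ℂ → ℝ) (θ : ℝ) (z : ℂ) : ℝ :=
  -(g θ z + dth (dth g) θ z) * lap (g θ) z +
    ‖gradient (dth g θ) z - Complex.I * gradient (g θ) z‖ ^ 2

noncomputable def Qn (ζ : ℂ → ℝ) (g : ℝ → ℂ → ℝ) : ℝ :=
  ∫ z, ∫ θ in (0 : ℝ)..(2 * Real.pi), ζ z * Nn g θ z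

/-- density after integration by parts -/
noncomputable def Nq (ζ : ℂ → ℝ) (g : ℝ → ℂ → ℝ) (θ : ℝ) (z : ℂ) : ℝ :=
  2 * ζ z * ‖gradient (g θ) z‖ ^ 2 +
    2 * dth g θ z * inner ℝ (gradient ζ z) (Complex.I * gradient (g θ) z) +
    (dth g θ z ^ 2 - g θ z ^ 2) / 2 * lap ζ z

noncomputable def Qf (ζ : ℂ → ℝ) (g : ℝ → ℂ → ℝ) : ℝ :=
  ∫ z, ∫ θ in (0 : ℝ)..(2 * Real.pi), Nq ζ g θ z

/-- mean -/
noncomputable def cg (g : ℝ → ℂ → ℝ) (z : ℂ) : ℝ :=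
  (2 * Real.pi)⁻¹ * ∫ θ in (0 : ℝ)..(2 * Real.pi), g θ z

noncomputable def s1g (g : ℝ → ℂ → ℝ) (z : ℂ) : ℝ :=
  Real.pi⁻¹ * ∫ θ in (0 : ℝ)..(2 * Real.pi), g θ z * Real.cos θ

noncomputable def s2g (g : ℝ → ℂ → ℝ) (z : ℂ) : ℝ :=
  Real.pi⁻¹ * ∫ θ in (0 : ℝ)..(2 * Real.pi), g θ z * Real.sin θ

/-- the first harmonic -/
noncomputable def gl (g : ℝ → ℂ → ℝ) (θ : ℝ) (z : ℂ) : ℝ :=
  s1g g z * Real.cos θ + s2g g z * Real.sin θ

/-- the rest -/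
noncomputable def gu (g : ℝ → ℂ → ℝ) (θ : ℝ) (z : ℂ) : ℝ := g θ z - cg g z - gl g θ z

/-- every fibre is the support function of a compact convex set -/
def IsSupp (U : Set ℂ) (g : ℝ → ℂ → ℝ) : Prop :=
  ∀ z ∈ U, ∃ L : Set ℂ, IsCompact L ∧ Convex ℝ L ∧ L.Nonempty ∧
    ∀ θ : ℝ, g θ z = sSup ((fun x : ℂ => (inner ℝ x (ee θ) : ℝ)) '' L)

end Pool.Agent.HAS
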