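import Pool.Agent.HAS.T5C
import Pool.Agent.HAS.T5D

/-!
# Splitting of the form (module T5E)

PLAN.  For fixed `z ∈ tsupport ζ ⊆ U` (outside `tsupport ζ` all terms vanish), `g = c + l + u` (`c = cg g z`, `l = gl g`,
`u = gu g`), `∇g = ∇c + ∇l + ∇u`, `g_θ = l_θ + u_θ`.  `∫_θ Nq` of the sum is the sum of the `∫_θ Nq`: all mixed terms vanish:
`∫⟨∇c,∇u⟩ = ⟨∇c, ∫∇u⟩ = 0`, `∫⟨∇c,∇l⟩ = 0` (`∫cos = ∫sin = 0`), `∫⟨∇l,∇u⟩ = 0` (`∇l = cos ∇s1 + sin ∇s2`),
`∫ g_θ`-terms: `∫ l_θ ⟨∇ζ,I∇c⟩ = ∫ u_θ ⟨∇ζ, I∇c⟩ = 0`, `∫ l_θ⟨∇ζ,I∇u⟩ = 0`, `∫ u_θ⟨∇ζ,I∇l⟩ = 0`, `∫ l_θ u_θ = 0`,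
`∫ c u = ∫ c l = ∫ l u = 0`.  Then integrate over `z` (everything continuous with compact support).
`Qq_c`: `dth` of a constant family is `0`.  `Qq_l`: `= Qn ζ (gl g)` by `Q_eq`, and `gl + (gl)_θθ = 0`, so
`Nn = ‖..‖² ≥ 0`, `ζ ≥ 0`.  `Qq_u`: `ζ = η²`, `∇ζ = 2η∇η`:
`2 η²‖∇u‖² + 4 η u_θ ⟨∇η, I∇u⟩ ≥ -2 ‖∇η‖² u_θ²` (complete the square, `|⟨∇η, I∇u⟩| ≤ ‖∇η‖‖∇u‖`), and
`½(u_θ² - u²) lap ζ ≥ -½ |lap ζ| max(u_θ², u²)`, with `|u|, |u_θ| ≤ 6c`.
-/

set_option autoImplicit false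

namespace Pool.Agent.HAS

open MeasureTheory Metric Set
open scoped Topology

variable {U : Set ℂ} {g : ℝ → ℂ → ℝ}

private theorem cont_ext {X : Type*} [TopologicalSpace X] {F : X → ℝ} {V K : Set X}
    (hV : IsOpen V) (hK : IsClosed K) (hKV : K ⊆ V) (hF : ContinuousOn F V)
    (h0 : ∀ x, x ∉ K → F x = 0) : Continuous F := by
  rw [continuous_iff_continuousAt]
  intro x
  by_cases hx : x ∈ K
  · exact hF.continuousAt (hV.mem_nhds (hKV hx))
  · have : F =ᶠ[𝓝 x] fun _ => 0 := by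
      filter_upwards [hK.isOpen_compl.mem_nhds hx] with y hy using h0 y hy
    exact continuousAt_const.congr this.symm

private theorem fderiv_zero {ζ : ℂ → ℝ} {z : ℂ} (hz : z ∉ tsupport ζ) : fderiv ℝ ζ z = 0 := by
  by_contra h
  exact hz (support_fderiv_subset ℝ h)

private theorem grad_zero {ζ : ℂ → ℝ} {z : ℂ} (hz : z ∉ tsupport ζ) : gradient ζ z = 0 := by
  unfold gradient
  rw [fderiv_zero hz, map_zero]

private theorem lap_zero {ζ : ℂ → ℝ} {z : ℂ} (hz : z ∉ tsupport ζ) : lap ζ z = 0 := by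
  have h : ∀ v : ℂ, z ∉ tsupport (fun y => fderiv ℝ ζ y v) := by
    intro v h1
    apply hz
    have h2 : Function.support (fun y => fderiv ℝ ζ y v) ⊆ tsupport ζ := by
      intro y hy
      by_contra h3
      apply hy
      change fderiv ℝ ζ y v = 0
      rw [fderiv_zero h3]
      rfl
    exact closure_minimal h2 (isClosed_tsupport ζ) h1
  unfold lap
  rw [fderiv_zero (h 1), fderiv_zero (h Complex.I)]
  simp

private theorem grad_cont' {ζ : ℂ → ℝ} (hζ : ContDiff ℝ 2 ζ) : Continuous (gradient ζ) := by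
  unfold gradient
  exact (InnerProductSpace.toDual ℝ ℂ).symm.continuous.comp (hζ.continuous_fderiv (by norm_num))

private theorem lap_cont' {ζ : ℂ → ℝ} (hζ : ContDiff ℝ 2 ζ) : Continuous (lap ζ) := by
  have h : ∀ v : ℂ, Continuous (fun z => fderiv ℝ (fun y => fderiv ℝ ζ y v) z v) := by
    intro v
    have h1 : ContDiff ℝ 1 (fun y => fderiv ℝ ζ y v) :=
      (hζ.fderiv_right (m := 1) (by norm_num)).clm_apply contDiff_const
    exact (h1.continuous_fderiv (by norm_num)).clm_apply continuous_const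
  unfold lap
  exact (h 1).add (h Complex.I)

private theorem Nq_zero (ζ : ℂ → ℝ) (f : ℝ → ℂ → ℝ) (θ : ℝ) {z : ℂ} (hz : z ∉ tsupport ζ) :
    Nq ζ f θ z = 0 := by
  unfold Nq
  rw [image_eq_zero_of_notMem_tsupport hz, grad_zero hz, lap_zero hz]
  simp

private theorem Nq_cont (h : Fam U g) {ζ : ℂ → ℝ} (hζ : ContDiff ℝ 2 ζ) (hs : tsupport ζ ⊆ U) :
    Continuous (fun q : ℝ × ℂ => Nq ζ g q.1 q.2) := by
  refine cont_ext (V := univ ×ˢ U) (K := univ ×ˢ tsupport ζ) (isOpen_univ.prod h.isOpen)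
    (isClosed_univ.prod (isClosed_tsupport ζ)) (prod_mono le_rfl hs) ?_ ?_
  · unfold Nq
    have c1 : ContinuousOn (fun q : ℝ × ℂ => ζ q.2) (univ ×ˢ U) :=
      (hζ.continuous.comp continuous_snd).continuousOn
    have c2 : ContinuousOn (fun q : ℝ × ℂ => gradient ζ q.2) (univ ×ˢ U) :=
      ((grad_cont' hζ).comp continuous_snd).continuousOn
    have c3 : ContinuousOn (fun q : ℝ × ℂ => lap ζ q.2) (univ ×ˢ U) :=
      ((lap_cont' hζ).comp continuous_snd).continuousOn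
    have c4 := h.dth2.continuousOn
    have c5 := h.smooth.continuousOn
    have c6 := h.grad_cont
    refine ((((continuousOn_const.mul c1).mul (c6.norm.pow 2)).add
      ((continuousOn_const.mul c4).mul (c2.inner (continuousOn_const.mul c6)))).add
      ((((c4.pow 2).sub (c5.pow 2)).div_const 2).mul c3))
  · rintro ⟨θ, z⟩ hq
    apply Nq_zero
    intro hz
    exact hq ⟨mem_univ _, hz⟩

private theorem Nq_int (h : Fam U g) {ζ : ℂ → ℝ} (hζ : ContDiff ℝ 2 ζ) (hc : HasCompactSupport ζ)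
    (hs : tsupport ζ ⊆ U) :
    Integrable (fun z => ∫ θ in (0 : ℝ)..(2 * Real.pi), Nq ζ g θ z) := by
  apply Continuous.integrable_of_hasCompactSupport
  · apply intervalIntegral.continuous_parametric_intervalIntegral_of_continuous'
    exact (Nq_cont h hζ hs).comp continuous_swap
  · apply HasCompactSupport.intro' hc (isClosed_tsupport ζ)
    intro z hz
    simp [Nq_zero ζ g _ hz]

private def Z0 (f : ℝ → ℝ) : Prop :=
  Continuous f ∧ ∫ θ in (0 : ℝ)..(2 * Real.pi), f θ = 0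

private theorem Z0.add {f f' : ℝ → ℝ} (h : Z0 f) (h' : Z0 f') : Z0 (fun θ => f θ + f' θ) := by
  refine ⟨h.1.add h'.1, ?_⟩
  rw [intervalIntegral.integral_add (h.1.intervalIntegrable _ _) (h'.1.intervalIntegrable _ _),
    h.2, h'.2, add_zero]

private theorem Z0.mul {f : ℝ → ℝ} (h : Z0 f) (k : ℝ) : Z0 (fun θ => k * f θ) := by
  refine ⟨continuous_const.mul h.1, ?_⟩
  rw [intervalIntegral.integral_const_mul, h.2, mul_zero]

private theorem Z0_cos : Z0 Real.cos := by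
  refine ⟨Real.continuous_cos, ?_⟩
  rw [integral_cos]
  simp

private theorem Z0_sin : Z0 Real.sin := by
  refine ⟨Real.continuous_sin, ?_⟩
  rw [integral_sin]
  simp

private theorem inner_I (a b : ℂ) :
    inner ℝ a (Complex.I * b) = a.im * b.re - a.re * b.im := by
  simp [Complex.inner]
  ring

private theorem norm_co (a : ℂ) : ‖a‖ ^ 2 = a.re ^ 2 + a.im ^ 2 := by
  rw [Complex.sq_norm, Complex.normSq_apply]
  ring

private theorem Nq_coord (ζ : ℂ → ℝ) (f : ℝ → ℂ → ℝ) (θ : ℝ) (z : ℂ) :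
    Nq ζ f θ z = 2 * ζ z * ((gradient (f θ) z).re ^ 2 + (gradient (f θ) z).im ^ 2) +
      2 * dth f θ z * ((gradient ζ z).im * (gradient (f θ) z).re -
        (gradient ζ z).re * (gradient (f θ) z).im) +
      (dth f θ z ^ 2 - f θ z ^ 2) / 2 * lap ζ z := by
  unfold Nq
  rw [inner_I, norm_co]

private theorem cth {E : Type*} [TopologicalSpace E] {F : ℝ → ℂ → E}
    (hF : ContinuousOn (fun q : ℝ × ℂ => F q.1 q.2) (univ ×ˢ U)) {z : ℂ} (hz : z ∈ U) :
    Continuous (fun θ => F θ z) :=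
  hF.comp_continuous (f := fun θ : ℝ => (θ, z)) (continuous_id.prodMk continuous_const)
    (fun θ => ⟨mem_univ _, hz⟩)

private theorem diffAt {f : ℂ → ℝ} {n : WithTop ℕ∞} (hn : n ≠ 0) (hU : IsOpen U)
    (hf : ContDiffOn ℝ n f U) {z : ℂ} (hz : z ∈ U) : DifferentiableAt ℝ f z :=
  (hf.differentiableOn hn).differentiableAt (hU.mem_nhds hz)

private theorem dth_gl (g : ℝ → ℂ → ℝ) (θ : ℝ) (z : ℂ) :
    dth (gl g) θ z = -s1g g z * Real.sin θ + s2g g z * Real.cos θ := by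
  have h : HasDerivAt (fun t => gl g t z)
      (s1g g z * (-Real.sin θ) + s2g g z * Real.cos θ) θ := by
    unfold gl
    exact ((Real.hasDerivAt_cos θ).const_mul _).add ((Real.hasDerivAt_sin θ).const_mul _)
  unfold dth
  rw [h.deriv]
  ring

private theorem ddth_gl (g : ℝ → ℂ → ℝ) (θ : ℝ) (z : ℂ) :
    dth (dth (gl g)) θ z = -gl g θ z := by
  have h : HasDerivAt (fun t => dth (gl g) t z)
      (-s1g g z * Real.cos θ + s2g g z * (-Real.sin θ)) θ := by
    have e : (fun t => dth (gl g) t z) =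
        fun t => -s1g g z * Real.sin t + s2g g z * Real.cos t := by
      funext t
      exact dth_gl g t z
    rw [e]
    exact ((Real.hasDerivAt_sin θ).const_mul _).add ((Real.hasDerivAt_cos θ).const_mul _)
  unfold dth at h ⊢
  rw [h.deriv]
  unfold gl
  ring

private theorem grad_gl (h : Fam U g) (θ : ℝ) {z : ℂ} (hz : z ∈ U) :
    gradient (gl g θ) z =
      (Real.cos θ : ℝ) • gradient (s1g g) z + (Real.sin θ : ℝ) • gradient (s2g g) z := by
  have d1 := diffAt (by norm_num) h.isOpen (s1g_smooth h) hz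
  have d2 := diffAt (by norm_num) h.isOpen (s2g_smooth h) hz
  have e : fderiv ℝ (gl g θ) z =
      Real.cos θ • fderiv ℝ (s1g g) z + Real.sin θ • fderiv ℝ (s2g g) z := by
    have h1 : HasFDerivAt (gl g θ)
        (Real.cos θ • fderiv ℝ (s1g g) z + Real.sin θ • fderiv ℝ (s2g g) z) z := by
      unfold gl
      exact (d1.hasFDerivAt.mul_const _).add (d2.hasFDerivAt.mul_const _)
    exact h1.fderiv
  unfold gradient
  rw [e, map_add, map_smul, map_smul]

private theorem grad_sum (h : Fam U g) (θ : ℝ) {z : ℂ} (hz : z ∈ U) :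
    gradient (g θ) z = gradient (cg g) z + gradient (gl g θ) z + gradient (gu g θ) z := by
  have d1 := diffAt (by norm_num) h.isOpen (cg_smooth h) hz
  have d2 := diffAt (by norm_num) h.isOpen ((fam_l h).z2 θ) hz
  have d3 := diffAt (by norm_num) h.isOpen ((fam_u h).z2 θ) hz
  have e : fderiv ℝ (g θ) z =
      fderiv ℝ (cg g) z + fderiv ℝ (gl g θ) z + fderiv ℝ (gu g θ) z := by
    have h1 : HasFDerivAt (fun y => cg g y + gl g θ y + gu g θ y)
        (fderiv ℝ (cg g) z + fderiv ℝ (gl g θ) z + fderiv ℝ (gu g θ) z) z :=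
      (d1.hasFDerivAt.add d2.hasFDerivAt).add d3.hasFDerivAt
    have h2 : (fun y => cg g y + gl g θ y + gu g θ y) = g θ := by
      funext y
      unfold gu
      ring
    rw [h2] at h1
    exact h1.fderiv
  unfold gradient
  rw [e, map_add, map_add]

private theorem dth_sum (h : Fam U g) (θ : ℝ) {z : ℂ} (hz : z ∈ U) :
    dth g θ z = dth (gl g) θ z + dth (gu g) θ z := by
  have h1 := (((fam_l h).hasDeriv θ z hz).add ((fam_u h).hasDeriv θ z hz)).const_add (cg g z)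
  have h2 : (fun t => cg g z + (gl g t z + gu g t z)) = fun t => g t z := by
    funext y
    unfold gu
    ring
  have h3 : HasDerivAt (fun t => g t z) (dth (gl g) θ z + dth (gu g) θ z) θ := by
    rw [← h2]
    exact h1
  exact h3.deriv

private theorem dth_c (g : ℝ → ℂ → ℝ) (θ : ℝ) (z : ℂ) : dth (fun _ => cg g) θ z = 0 := by
  unfold dth
  simp

private theorem split_pt (h : Fam U g) {ζ : ℂ → ℝ} (hζ : ContDiff ℝ 2 ζ) (hs : tsupport ζ ⊆ U)
    (z : ℂ) : ∫ θ in (0 : ℝ)..(2 * Real.pi), Nq ζ g θ z =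
      (∫ θ in (0 : ℝ)..(2 * Real.pi), Nq ζ (fun _ => cg g) θ z) +
      (∫ θ in (0 : ℝ)..(2 * Real.pi), Nq ζ (gl g) θ z) +
      (∫ θ in (0 : ℝ)..(2 * Real.pi), Nq ζ (gu g) θ z) := by
  have hNc : ∀ {f : ℝ → ℂ → ℝ}, Fam U f → Continuous (fun θ => Nq ζ f θ z) := fun hf =>
    (Nq_cont hf hζ hs).comp (continuous_id.prodMk continuous_const)
  by_cases hz : z ∈ tsupport ζ
  swap
  · simp [Nq_zero ζ _ _ hz]
  have hzU : z ∈ U := hs hz
  -- the basic functions
  have hu := gu_zero h z hzU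
  have hd := gu_dth_zero h z hzU
  have hg := gu_grad_zero h z hzU
  have cu : Continuous (fun θ => gu g θ z) := cth (fam_u h).smooth.continuousOn hzU
  have cd : Continuous (fun θ => dth (gu g) θ z) := cth (fam_u h).dth2.continuousOn hzU
  have cG : Continuous (fun θ => gradient (gu g θ) z) := by
    have := (fam_u h).grad_cont
    exact this.comp_continuous (f := fun θ : ℝ => (θ, z)) (continuous_id.prodMk continuous_const)
      (fun θ => ⟨mem_univ _, hzU⟩)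
  have zu : Z0 (fun θ => gu g θ z) := ⟨cu, hu.1⟩
  have zuc : Z0 (fun θ => gu g θ z * Real.cos θ) := ⟨cu.mul Real.continuous_cos, hu.2.1⟩
  have zus : Z0 (fun θ => gu g θ z * Real.sin θ) := ⟨cu.mul Real.continuous_sin, hu.2.2⟩
  have zd : Z0 (fun θ => dth (gu g) θ z) := ⟨cd, hd.1⟩
  have zdc : Z0 (fun θ => dth (gu g) θ z * Real.cos θ) := ⟨cd.mul Real.continuous_cos, hd.2.1⟩
  have zds : Z0 (fun θ => dth (gu g) θ z * Real.sin θ) := ⟨cd.mul Real.continuous_sin, hd.2.2⟩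
  have hre : ∀ φ : ℝ → ℂ, Continuous φ → ∫ θ in (0 : ℝ)..(2 * Real.pi), φ θ = 0 →
      Z0 (fun θ => (φ θ).re) ∧ Z0 (fun θ => (φ θ).im) := by
    intro φ hφ h0
    refine ⟨⟨Complex.continuous_re.comp hφ, ?_⟩, ⟨Complex.continuous_im.comp hφ, ?_⟩⟩
    · have := Complex.reCLM.intervalIntegral_comp_comm
        (hφ.intervalIntegrable (μ := volume) 0 (2 * Real.pi))
      rw [h0] at this
      simpa using this
    · have := Complex.imCLM.intervalIntegral_comp_comm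
        (hφ.intervalIntegrable (μ := volume) 0 (2 * Real.pi))
      rw [h0] at this
      simpa using this
  obtain ⟨zv1, zv2⟩ := hre _ cG hg.1
  obtain ⟨zv1c, zv2c⟩ := hre (fun θ => Real.cos θ • gradient (gu g θ) z)
    (Real.continuous_cos.smul cG) hg.2.1
  obtain ⟨zv1s, zv2s⟩ := hre (fun θ => Real.sin θ • gradient (gu g θ) z)
    (Real.continuous_sin.smul cG) hg.2.2
  -- the constants
  obtain ⟨Z, hZ⟩ : ∃ Z : ℝ, Z = ζ z := ⟨_, rfl⟩
  obtain ⟨L, hL⟩ : ∃ L : ℝ, L = lap ζ z := ⟨_, rfl⟩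
  obtain ⟨q1, hq1⟩ : ∃ q : ℝ, q = (gradient ζ z).re := ⟨_, rfl⟩
  obtain ⟨q2, hq2⟩ : ∃ q : ℝ, q = (gradient ζ z).im := ⟨_, rfl⟩
  obtain ⟨p1, hp1⟩ : ∃ q : ℝ, q = (gradient (cg g) z).re := ⟨_, rfl⟩
  obtain ⟨p2, hp2⟩ : ∃ q : ℝ, q = (gradient (cg g) z).im := ⟨_, rfl⟩
  obtain ⟨a1, ha1⟩ : ∃ q : ℝ, q = (gradient (s1g g) z).re := ⟨_, rfl⟩
  obtain ⟨a2, ha2⟩ : ∃ q : ℝ, q = (gradient (s1g g) z).im := ⟨_, rfl⟩
  obtain ⟨b1, hb1⟩ : ∃ q : ℝ, q = (gradient (s2g g) z).re := ⟨_, rfl⟩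
  obtain ⟨b2, hb2⟩ : ∃ q : ℝ, q = (gradient (s2g g) z).im := ⟨_, rfl⟩
  obtain ⟨C, hC⟩ : ∃ q : ℝ, q = cg g z := ⟨_, rfl⟩
  obtain ⟨S1, hS1⟩ : ∃ q : ℝ, q = s1g g z := ⟨_, rfl⟩
  obtain ⟨S2, hS2⟩ : ∃ q : ℝ, q = s2g g z := ⟨_, rfl⟩
  have hR := (((((((((((((Z0_cos.mul (4 * Z * (p1 * a1 + p2 * a2) + 2 * (q2 * p1 - q1 * p2) * S2 -
      C * S1 * L)).add
    (Z0_sin.mul (4 * Z * (p1 * b1 + p2 * b2) - 2 * (q2 * p1 - q1 * p2) * S1 - C * S2 * L))).add
    (zv1.mul (4 * Z * p1))).add (zv2.mul (4 * Z * p2))).add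
    (zv1c.mul (4 * Z * a1 + 2 * q2 * S2))).add (zv1s.mul (4 * Z * b1 - 2 * q2 * S1))).add
    (zv2c.mul (4 * Z * a2 - 2 * q1 * S2))).add (zv2s.mul (4 * Z * b2 + 2 * q1 * S1))).add
    (zu.mul (-C * L))).add (zuc.mul (-S1 * L))).add (zus.mul (-S2 * L))).add
    (zd.mul (2 * (q2 * p1 - q1 * p2)))).add
    (zdc.mul (2 * (q2 * a1 - q1 * a2) + S2 * L))).add
    (zds.mul (2 * (q2 * b1 - q1 * b2) - S1 * L))
  have hR2 : Z0 (fun θ => Nq ζ g θ z - (Nq ζ (fun _ => cg g) θ z + Nq ζ (gl g) θ z +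
      Nq ζ (gu g) θ z)) := by
    refine (congrArg Z0 (funext fun θ => ?_)).mpr hR
    have e : g θ z = cg g z + gl g θ z + gu g θ z := by
      unfold gu
      ring
    have el : gl g θ z = s1g g z * Real.cos θ + s2g g z * Real.sin θ := rfl
    rw [Nq_coord, Nq_coord, Nq_coord, Nq_coord, dth_sum h θ hzU, dth_c, grad_sum h θ hzU,
      grad_gl h θ hzU, dth_gl, e, el]
    simp only [Complex.add_re, Complex.add_im, Complex.smul_re, Complex.smul_im, smul_eq_mul]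
    subst hZ hL hq1 hq2 hp1 hp2 ha1 ha2 hb1 hb2 hC hS1 hS2
    ring
  have h1 := hNc h
  have h2 := hNc (fam_c h)
  have h3 := hNc (fam_l h)
  have h4 := hNc (fam_u h)
  have h23 : Continuous (fun θ => Nq ζ (fun _ => cg g) θ z + Nq ζ (gl g) θ z) := h2.add h3
  have h234 : Continuous (fun θ => Nq ζ (fun _ => cg g) θ z + Nq ζ (gl g) θ z +
      Nq ζ (gu g) θ z) := h23.add h4
  have h5 : ∫ θ in (0 : ℝ)..(2 * Real.pi), (Nq ζ g θ z - (Nq ζ (fun _ => cg g) θ z +
      Nq ζ (gl g) θ z + Nq ζ (gu g) θ z)) = 0 := hR2.2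
  rw [intervalIntegral.integral_sub (h1.intervalIntegrable _ _) (h234.intervalIntegrable _ _),
    intervalIntegral.integral_add (h23.intervalIntegrable _ _) (h4.intervalIntegrable _ _),
    intervalIntegral.integral_add (h2.intervalIntegrable _ _) (h3.intervalIntegrable _ _)] at h5
  linarith

theorem Qq_split (h : Fam U g) (ζ : ℂ → ℝ) (hζ : ContDiff ℝ 2 ζ) (hc : HasCompactSupport ζ)
    (hs : tsupport ζ ⊆ U) : Qf ζ g = Qf ζ (fun _ => cg g) + Qf ζ (gl g) + Qf ζ (gu g) := by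
  unfold Qf
  have i1 := Nq_int (fam_c h) hζ hc hs
  have i2 := Nq_int (fam_l h) hζ hc hs
  have i3 := Nq_int (fam_u h) hζ hc hs
  have i12 : Integrable (fun z => (∫ θ in (0 : ℝ)..(2 * Real.pi), Nq ζ (fun _ => cg g) θ z) +
      ∫ θ in (0 : ℝ)..(2 * Real.pi), Nq ζ (gl g) θ z) := i1.add i2
  rw [← integral_add i1 i2, ← integral_add i12 i3]
  exact integral_congr_ae (Filter.Eventually.of_forall fun z => split_pt h hζ hs z)

theorem Qq_c (h : Fam U g) (ζ : ℂ → ℝ) (hζ : ContDiff ℝ 2 ζ) (hc : HasCompactSupport ζ)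
    (hs : tsupport ζ ⊆ U) : Qf ζ (fun _ => cg g) =
      2 * Real.pi * ((∫ z, 2 * ζ z * ‖gradient (cg g) z‖ ^ 2) - (∫ z, cg g z ^ 2 * lap ζ z) / 2) := by
  have hcU := (cg_smooth h).continuousOn
  have hgU : ContinuousOn (gradient (cg g)) U := by
    have h1 := (fam_c h).grad_cont
    exact h1.comp (f := fun z : ℂ => ((0 : ℝ), z)) (by fun_prop) (fun z hz => ⟨mem_univ _, hz⟩)
  have i1 : Integrable (fun z => 2 * ζ z * ‖gradient (cg g) z‖ ^ 2) := by
    apply Continuous.integrable_of_hasCompactSupport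
    · refine cont_ext h.isOpen (isClosed_tsupport ζ) hs
        ((continuousOn_const.mul hζ.continuous.continuousOn).mul (hgU.norm.pow 2)) ?_
      intro z hz
      rw [image_eq_zero_of_notMem_tsupport hz]
      ring
    · apply HasCompactSupport.intro' hc (isClosed_tsupport ζ)
      intro z hz
      simp [image_eq_zero_of_notMem_tsupport hz]
  have i2 : Integrable (fun z => cg g z ^ 2 * lap ζ z) := by
    apply Continuous.integrable_of_hasCompactSupport
    · refine cont_ext h.isOpen (isClosed_tsupport ζ) hs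
        ((hcU.pow 2).mul (lap_cont' hζ).continuousOn) ?_
      intro z hz
      rw [lap_zero hz, mul_zero]
    · apply HasCompactSupport.intro' hc (isClosed_tsupport ζ)
      intro z hz
      simp [lap_zero hz]
  have e : ∀ z, ∫ θ in (0 : ℝ)..(2 * Real.pi), Nq ζ (fun _ => cg g) θ z =
      2 * Real.pi * (2 * ζ z * ‖gradient (cg g) z‖ ^ 2 - cg g z ^ 2 * lap ζ z / 2) := by
    intro z
    have e1 : (fun θ => Nq ζ (fun _ => cg g) θ z) =
        fun _ => 2 * ζ z * ‖gradient (cg g) z‖ ^ 2 - cg g z ^ 2 * lap ζ z / 2 := by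
      funext θ
      unfold Nq
      rw [dth_c]
      ring
    rw [e1, intervalIntegral.integral_const, smul_eq_mul]
    ring
  unfold Qf
  simp only [e]
  rw [integral_const_mul, integral_sub i1 (i2.div_const 2), integral_div]

theorem Qq_l (h : Fam U g) (ζ : ℂ → ℝ) (hζ : ContDiff ℝ 2 ζ) (hc : HasCompactSupport ζ)
    (hs : tsupport ζ ⊆ U) (h0 : ∀ z, 0 ≤ ζ z) : 0 ≤ Qf ζ (gl g) := by
  rw [← Q_eq (fam_l h) ζ hζ hc hs]
  unfold Qn
  apply integral_nonneg
  intro z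
  apply intervalIntegral.integral_nonneg (by positivity)
  intro θ _
  refine mul_nonneg (h0 z) ?_
  unfold Nn
  rw [ddth_gl, add_neg_cancel, neg_zero, zero_mul, zero_add]
  positivity

private theorem grad_sq {η : ℂ → ℝ} (hη : ContDiff ℝ 2 η) (z : ℂ) :
    gradient (fun y => η y ^ 2) z = (2 * η z) • gradient η z := by
  have d := (hη.differentiable (by norm_num)) z
  have e : fderiv ℝ (fun y => η y ^ 2) z = (2 * η z) • fderiv ℝ η z := by
    have h1 := d.hasFDerivAt.pow 2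
    have h2 := h1.fderiv
    rw [h2]
    ext v
    simp
  unfold gradient
  rw [e, map_smul]

theorem Qq_u (h : Fam U g) (η : ℂ → ℝ) (hη : ContDiff ℝ 2 η) (hc : HasCompactSupport η)
    (hs : tsupport η ⊆ U)
    (hb : ∀ z ∈ U, ∀ θ : ℝ, |gu g θ z| ≤ 6 * cg g z ∧ |dth (gu g) θ z| ≤ 6 * cg g z) :
    -(2 * Real.pi * ∫ z, (72 * ‖gradient η z‖ ^ 2 + 18 * |lap (fun y => η y ^ 2) z|) * cg g z ^ 2) ≤
      Qf (fun z => η z ^ 2) (gu g) := by
  have hη2 : ContDiff ℝ 2 (fun y => η y ^ 2) := hη.pow 2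
  have hsub : tsupport (fun y => η y ^ 2) ⊆ tsupport η := by
    apply closure_minimal _ (isClosed_tsupport η)
    intro y hy
    by_contra h3
    apply hy
    change η y ^ 2 = 0
    rw [image_eq_zero_of_notMem_tsupport h3]
    ring
  have hs2 : tsupport (fun y => η y ^ 2) ⊆ U := hsub.trans hs
  have hc2 : HasCompactSupport (fun y => η y ^ 2) :=
    HasCompactSupport.intro' hc (isClosed_tsupport η) fun y hy => by
      rw [image_eq_zero_of_notMem_tsupport hy]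
      ring
  have hcU := (cg_smooth h).continuousOn
  have iB : Integrable (fun z =>
      (72 * ‖gradient η z‖ ^ 2 + 18 * |lap (fun y => η y ^ 2) z|) * cg g z ^ 2) := by
    apply Continuous.integrable_of_hasCompactSupport
    · refine cont_ext h.isOpen (isClosed_tsupport η) hs ?_ ?_
      · refine ContinuousOn.mul ?_ (hcU.pow 2)
        exact ((continuous_const.mul ((grad_cont' hη).norm.pow 2)).add
          (continuous_const.mul (lap_cont' hη2).abs)).continuousOn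
      · intro z hz
        rw [grad_zero hz, lap_zero (fun h1 => hz (hsub h1))]
        simp
    · apply HasCompactSupport.intro' hc (isClosed_tsupport η)
      intro z hz
      rw [grad_zero hz, lap_zero (fun h1 => hz (hsub h1))]
      simp
  rw [← integral_const_mul, ← integral_neg]
  unfold Qf
  apply integral_mono ((iB.const_mul _).neg) (Nq_int (fam_u h) hη2 hc2 hs2)
  intro z
  by_cases hz : z ∈ tsupport η
  swap
  · have h1 : z ∉ tsupport (fun y => η y ^ 2) := fun h1 => hz (hsub h1)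
    simp [Nq_zero _ _ _ h1, grad_zero hz, lap_zero h1]
  have hzU := hs hz
  obtain ⟨B, hB⟩ : ∃ B : ℝ, B = (72 * ‖gradient η z‖ ^ 2 + 18 * |lap (fun y => η y ^ 2) z|) *
    cg g z ^ 2 := ⟨_, rfl⟩
  have hpt : ∀ θ : ℝ, -B ≤ Nq (fun y => η y ^ 2) (gu g) θ z := by
    intro θ
    obtain ⟨b1, b2⟩ := hb z hzU θ
    unfold Nq
    rw [grad_sq hη z, real_inner_smul_left]
    obtain ⟨G, hG⟩ : ∃ G : ℝ, G = ‖gradient (gu g θ) z‖ := ⟨_, rfl⟩
    obtain ⟨E, hE⟩ : ∃ E : ℝ, E = ‖gradient η z‖ := ⟨_, rfl⟩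
    obtain ⟨I, hI⟩ : ∃ I : ℝ, I = inner ℝ (gradient η z) (Complex.I * gradient (gu g θ) z) :=
      ⟨_, rfl⟩
    obtain ⟨D, hD⟩ : ∃ D : ℝ, D = dth (gu g) θ z := ⟨_, rfl⟩
    obtain ⟨V, hV⟩ : ∃ V : ℝ, V = gu g θ z := ⟨_, rfl⟩
    obtain ⟨L, hL⟩ : ∃ L : ℝ, L = lap (fun y => η y ^ 2) z := ⟨_, rfl⟩
    obtain ⟨e, he⟩ : ∃ e : ℝ, e = η z := ⟨_, rfl⟩
    have hIP : |I| ≤ E * G := by
      rw [hI, hE, hG]
      have h1 := abs_real_inner_le_norm (gradient η z) (Complex.I * gradient (gu g θ) z)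
      rwa [norm_mul, Complex.norm_I, one_mul] at h1
    rw [← hG, ← hI, ← hD, ← hV, ← hL, hB, ← hE, ← hL]
    beta_reduce
    rw [← he]
    rw [← hV] at b1
    rw [← hD] at b2
    obtain ⟨c, hc'⟩ : ∃ c : ℝ, c = cg g z := ⟨_, rfl⟩
    rw [← hc'] at b1 b2 ⊢
    have hD2 : D ^ 2 ≤ 36 * c ^ 2 := by
      have h1 : |D| ^ 2 ≤ (6 * c) ^ 2 := pow_le_pow_left₀ (abs_nonneg _) b2 2
      rw [sq_abs] at h1
      linarith
    have hV2 : V ^ 2 ≤ 36 * c ^ 2 := by
      have h1 : |V| ^ 2 ≤ (6 * c) ^ 2 := pow_le_pow_left₀ (abs_nonneg _) b1 2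
      rw [sq_abs] at h1
      linarith
    have hE0 : 0 ≤ E := by rw [hE]; positivity
    have hG0 : 0 ≤ G := by rw [hG]; positivity
    have step1 : -(2 * E ^ 2 * D ^ 2) ≤ 2 * e ^ 2 * G ^ 2 + 2 * D * (2 * e * I) := by
      have h1 : |e * D * I| ≤ |e| * |D| * (E * G) := by
        rw [abs_mul, abs_mul]
        exact mul_le_mul_of_nonneg_left hIP (by positivity)
      have h2 := neg_abs_le (e * D * I)
      have h3 : 0 ≤ (|e| * G - E * |D|) ^ 2 := sq_nonneg _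
      have h4 : |e| ^ 2 = e ^ 2 := sq_abs e
      have h5 : |D| ^ 2 = D ^ 2 := sq_abs D
      have h6 : (|e| * G - E * |D|) ^ 2 = |e| ^ 2 * G ^ 2 - 2 * (|e| * |D| * (E * G)) +
        E ^ 2 * |D| ^ 2 := by ring
      rw [h6, h4, h5] at h3
      linarith
    have step2 : -(18 * |L| * c ^ 2) ≤ (D ^ 2 - V ^ 2) / 2 * L := by
      have h1 : |(D ^ 2 - V ^ 2) / 2| ≤ 18 * c ^ 2 := by
        rw [abs_le]
        constructor
        · linarith [sq_nonneg D]
        · linarith [sq_nonneg V]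
      have h2 : |(D ^ 2 - V ^ 2) / 2 * L| ≤ 18 * c ^ 2 * |L| := by
        rw [abs_mul]
        exact mul_le_mul_of_nonneg_right h1 (abs_nonneg _)
      have h3 := neg_abs_le ((D ^ 2 - V ^ 2) / 2 * L)
      linarith
    have step3 : 2 * E ^ 2 * D ^ 2 ≤ 72 * E ^ 2 * c ^ 2 := by
      have h1 := mul_le_mul_of_nonneg_left hD2 (by positivity : 0 ≤ 2 * E ^ 2)
      linarith
    linarith
  have hcont : Continuous (fun θ => Nq (fun y => η y ^ 2) (gu g) θ z) :=
    (Nq_cont (fam_u h) hη2 hs2).comp (continuous_id.prodMk continuous_const)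
  have h5 : ∫ θ in (0 : ℝ)..(2 * Real.pi), (-B) ≤
      ∫ θ in (0 : ℝ)..(2 * Real.pi), Nq (fun y => η y ^ 2) (gu g) θ z :=
    intervalIntegral.integral_mono_on (by positivity) (continuous_const.intervalIntegrable _ _)
      (hcont.intervalIntegrable _ _) fun θ _ => hpt θ
  rw [intervalIntegral.integral_const, smul_eq_mul] at h5
  change -(2 * Real.pi * ((72 * ‖gradient η z‖ ^ 2 + 18 * |lap (fun y => η y ^ 2) z|) *
    cg g z ^ 2)) ≤ _
  rw [← hB]
  linarith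

end Pool.Agent.HAS
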