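import Pool.Agent.HAS.T5D

/-!
# Bounds for the higher harmonics (module T5F)

PLAN.  Fix `z ∈ U`, `L` compact convex with support function `g · z`, mean `c = cg g z`.  Pick `p ∈ L`;
`f θ = g θ z - ⟨p, ee θ⟩` is the support function of `L - p ∋ 0`: `f ≥ 0`, same mean `c`.
For `x ∈ L - p`: `f θ ≥ max 0 ⟨x, ee θ⟩`, so `2π c ≥ ∫ max 0 ⟨x, ee θ⟩ dθ = 2‖x‖`, i.e. `‖x‖ ≤ π c`.  So
`0 ≤ f ≤ π c` and `f` is `π c`-Lipschitz in `θ` (sup of the functions `⟨x, ee θ⟩`, `‖ee θ - ee θ'‖ ≤ |θ-θ'|`), so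
`|f'| ≤ π c` (f is differentiable).  `gu g θ z = f θ - c - (σ1 cos θ + σ2 sin θ)` with `σ = π⁻¹ ∫ f (cos, sin)`
(the first harmonic of `⟨p, ee θ⟩` is itself), `|σ1 cos θ + σ2 sin θ| = |π⁻¹ ∫ f(φ) cos(φ - θ) dφ| ≤ π⁻¹ 2π c = 2c`, the same
for its derivative.  Hence `|gu| ≤ max(πc - c, c) + 2c ≤ 6c`, `|dth gu| ≤ πc + 2c ≤ 6c`.
-/

set_option autoImplicit false

namespace Pool.Agent.HAS

open MeasureTheory Metric Set

variable {U : Set ℂ} {g : ℝ → ℂ → ℝ}

private theorem tf_ii (F : ℝ → ℝ) (hF : Continuous F) :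
    IntervalIntegrable F volume 0 (2 * Real.pi) := hF.intervalIntegrable _ _

private theorem tf_lin (a b : ℝ) :
    ∫ θ in (0 : ℝ)..(2 * Real.pi), (a * Real.cos θ + b * Real.sin θ) = 0 := by
  rw [intervalIntegral.integral_add (tf_ii _ (by fun_prop)) (tf_ii _ (by fun_prop)),
    intervalIntegral.integral_const_mul, intervalIntegral.integral_const_mul, integral_cos,
    integral_sin]
  simp

private theorem tf_c (a b : ℝ) :
    ∫ θ in (0 : ℝ)..(2 * Real.pi), (a * Real.cos θ + b * Real.sin θ) * Real.cos θ =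
      Real.pi * a := by
  have h1 : ∀ θ : ℝ, (a * Real.cos θ + b * Real.sin θ) * Real.cos θ =
      a * Real.cos θ ^ 2 + b * (Real.sin θ * Real.cos θ) := fun θ => by ring
  simp only [h1]
  rw [intervalIntegral.integral_add (tf_ii _ (by fun_prop)) (tf_ii _ (by fun_prop)),
    intervalIntegral.integral_const_mul, intervalIntegral.integral_const_mul, integral_cos_sq,
    integral_sin_mul_cos₁]
  simp
  ring

private theorem tf_s (a b : ℝ) :
    ∫ θ in (0 : ℝ)..(2 * Real.pi), (a * Real.cos θ + b * Real.sin θ) * Real.sin θ =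
      Real.pi * b := by
  have h1 : ∀ θ : ℝ, (a * Real.cos θ + b * Real.sin θ) * Real.sin θ =
      a * (Real.sin θ * Real.cos θ) + b * Real.sin θ ^ 2 := fun θ => by ring
  simp only [h1]
  rw [intervalIntegral.integral_add (tf_ii _ (by fun_prop)) (tf_ii _ (by fun_prop)),
    intervalIntegral.integral_const_mul, intervalIntegral.integral_const_mul, integral_sin_sq,
    integral_sin_mul_cos₁]
  simp
  ring

private theorem tf_sq (a b : ℝ) :
    ∫ θ in (0 : ℝ)..(2 * Real.pi), (a * Real.cos θ + b * Real.sin θ) ^ 2 =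
      Real.pi * (a ^ 2 + b ^ 2) := by
  have h1 : ∀ θ : ℝ, (a * Real.cos θ + b * Real.sin θ) ^ 2 =
      a * ((a * Real.cos θ + b * Real.sin θ) * Real.cos θ) +
        b * ((a * Real.cos θ + b * Real.sin θ) * Real.sin θ) := fun θ => by ring
  simp only [h1]
  rw [intervalIntegral.integral_add (tf_ii _ (by fun_prop)) (tf_ii _ (by fun_prop)),
    intervalIntegral.integral_const_mul, intervalIntegral.integral_const_mul, tf_c, tf_s]
  ring

private theorem tf_inner (x : ℂ) (θ : ℝ) :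
    (inner ℝ x (ee θ) : ℝ) = x.re * Real.cos θ + x.im * Real.sin θ := by
  rw [Complex.inner]
  simp only [ee, Complex.mul_re, Complex.conj_re, Complex.conj_im]
  ring

private theorem tf_cs (a b θ : ℝ) : (a * Real.cos θ + b * Real.sin θ) ^ 2 ≤ a ^ 2 + b ^ 2 := by
  have h := Real.sin_sq_add_cos_sq θ
  nlinarith [sq_nonneg (a * Real.sin θ - b * Real.cos θ)]

/-- a bounded nonnegative continuous function and its first harmonic -/
private theorem tf_harm (f : ℝ → ℝ) (hf : Continuous f) (h0 : ∀ θ, 0 ≤ f θ) (c : ℝ)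
    (hc : ∫ θ in (0 : ℝ)..(2 * Real.pi), f θ = 2 * Real.pi * c) (a b : ℝ) (hab : a ^ 2 + b ^ 2 = 1) :
    |(Real.pi⁻¹ * ∫ θ in (0 : ℝ)..(2 * Real.pi), f θ * Real.cos θ) * a +
      (Real.pi⁻¹ * ∫ θ in (0 : ℝ)..(2 * Real.pi), f θ * Real.sin θ) * b| ≤ 2 * c := by
  have h1 : (Real.pi⁻¹ * ∫ θ in (0 : ℝ)..(2 * Real.pi), f θ * Real.cos θ) * a +
      (Real.pi⁻¹ * ∫ θ in (0 : ℝ)..(2 * Real.pi), f θ * Real.sin θ) * b =
      Real.pi⁻¹ * ∫ θ in (0 : ℝ)..(2 * Real.pi), f θ * (a * Real.cos θ + b * Real.sin θ) := by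
    have h2 : ∀ θ : ℝ, f θ * (a * Real.cos θ + b * Real.sin θ) =
        a * (f θ * Real.cos θ) + b * (f θ * Real.sin θ) := fun θ => by ring
    simp only [h2]
    rw [intervalIntegral.integral_add (tf_ii _ (by fun_prop)) (tf_ii _ (by fun_prop)),
      intervalIntegral.integral_const_mul, intervalIntegral.integral_const_mul]
    ring
  rw [h1, abs_mul, abs_of_pos (inv_pos.2 Real.pi_pos)]
  have h2 : |∫ θ in (0 : ℝ)..(2 * Real.pi), f θ * (a * Real.cos θ + b * Real.sin θ)| ≤
      ∫ θ in (0 : ℝ)..(2 * Real.pi), f θ := by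
    have h3 : (0 : ℝ) ≤ 2 * Real.pi := by positivity
    refine (intervalIntegral.abs_integral_le_integral_abs h3).trans ?_
    refine intervalIntegral.integral_mono_on h3 (tf_ii _ (by fun_prop)) (tf_ii _ hf) ?_
    intro θ _
    rw [abs_mul, abs_of_nonneg (h0 θ)]
    have h4 : |a * Real.cos θ + b * Real.sin θ| ≤ 1 := by
      rw [abs_le_one_iff_mul_self_le_one]
      have := tf_cs a b θ
      nlinarith
    exact mul_le_of_le_one_right (h0 θ) h4
  rw [hc] at h2
  calc Real.pi⁻¹ * |∫ θ in (0 : ℝ)..(2 * Real.pi), f θ * (a * Real.cos θ + b * Real.sin θ)|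
      ≤ Real.pi⁻¹ * (2 * Real.pi * c) := mul_le_mul_of_nonneg_left h2 (inv_nonneg.2 Real.pi_pos.le)
    _ = 2 * c := by
      have := Real.pi_ne_zero
      field_simp

/-- bound for the radius -/
private theorem tf_rad (f : ℝ → ℝ) (hf : Continuous f) (h0 : ∀ θ, 0 ≤ f θ) (c : ℝ)
    (hc : ∫ θ in (0 : ℝ)..(2 * Real.pi), f θ = 2 * Real.pi * c) (y : ℂ)
    (hy : ∀ θ, y.re * Real.cos θ + y.im * Real.sin θ ≤ f θ) : ‖y‖ ≤ 4 * c := by
  have hpi := Real.pi_pos
  have h3 : (0 : ℝ) ≤ 2 * Real.pi := by positivity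
  have hc0 : 0 ≤ c := by
    have h1 : 0 ≤ ∫ θ in (0 : ℝ)..(2 * Real.pi), f θ :=
      intervalIntegral.integral_nonneg h3 fun θ _ => h0 θ
    rw [hc] at h1
    by_contra hcon
    have : 2 * Real.pi * c < 0 := mul_neg_of_pos_of_neg (by positivity) (not_le.1 hcon)
    linarith
  rcases (norm_nonneg y).eq_or_lt with h4 | h4
  · rw [← h4]
    linarith
  have hn : ‖y‖ ^ 2 = y.re ^ 2 + y.im ^ 2 := by
    rw [Complex.sq_norm, Complex.normSq_apply]
    ring
  have h5 : ∫ θ in (0 : ℝ)..(2 * Real.pi), (‖y‖ * (y.re * Real.cos θ + y.im * Real.sin θ) +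
      (y.re * Real.cos θ + y.im * Real.sin θ) ^ 2) ≤
      ∫ θ in (0 : ℝ)..(2 * Real.pi), 2 * ‖y‖ * f θ := by
    refine intervalIntegral.integral_mono_on h3 (tf_ii _ (by fun_prop)) (tf_ii _ (by fun_prop)) ?_
    intro θ _
    have h6 := tf_cs y.re y.im θ
    rw [← hn] at h6
    have h7 : |y.re * Real.cos θ + y.im * Real.sin θ| ≤ ‖y‖ := by
      have := sq_le_sq.1 h6
      rwa [abs_of_pos h4] at this
    obtain ⟨h8, h9⟩ := abs_le.1 h7
    have h10 := hy θ
    have h11 := h0 θ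
    rcases le_or_gt 0 (y.re * Real.cos θ + y.im * Real.sin θ) with hs | hs
    · nlinarith
    · have h12 : 0 ≤ 2 * ‖y‖ * f θ := by positivity
      nlinarith
  rw [intervalIntegral.integral_add (tf_ii _ (by fun_prop)) (tf_ii _ (by fun_prop)),
    intervalIntegral.integral_const_mul, intervalIntegral.integral_const_mul, tf_lin, tf_sq, hc,
    ← hn] at h5
  have h6 : Real.pi * ‖y‖ * ‖y‖ ≤ Real.pi * ‖y‖ * (4 * c) := by nlinarith
  exact le_of_mul_le_mul_left h6 (by positivity)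

private theorem tf_ee (θ θ' : ℝ) : ‖ee θ - ee θ'‖ ≤ |θ - θ'| := by
  have h1 : ‖ee θ - ee θ'‖ ^ 2 ≤ |θ - θ'| ^ 2 := by
    rw [Complex.sq_norm, Complex.normSq_apply, sq_abs]
    simp only [ee, Complex.sub_re, Complex.sub_im]
    have h2 := Real.one_sub_sq_div_two_le_cos (x := θ - θ')
    rw [Real.cos_sub] at h2
    have h3 := Real.sin_sq_add_cos_sq θ
    have h4 := Real.sin_sq_add_cos_sq θ'
    nlinarith
  exact abs_le_of_sq_le_sq' h1 (abs_nonneg _) |>.2

theorem gu_bound (h : Fam U g) (hL : IsSupp U g) (z : ℂ) (hz : z ∈ U) (θ : ℝ) :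
    |gu g θ z| ≤ 6 * cg g z ∧ |dth (gu g) θ z| ≤ 6 * cg g z := by
  have hpi := Real.pi_pos
  obtain ⟨L, hLc, hLv, ⟨p, hp⟩, hLs⟩ := hL z hz
  have hG : ContDiff ℝ 3 (fun t => g t z) := by
    rw [← contDiffOn_univ]
    exact h.smooth.comp (contDiff_id.prodMk contDiff_const).contDiffOn
      (fun t _ => ⟨mem_univ _, hz⟩)
  have hGc : Continuous (fun t => g t z) := hG.continuous
  -- the function `f`
  obtain ⟨f, hf⟩ : ∃ f : ℝ → ℝ, f = fun t => g t z - (p.re * Real.cos t + p.im * Real.sin t) :=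
    ⟨_, rfl⟩
  have hfc : Continuous f := by
    rw [hf]
    fun_prop
  have hgf : ∀ t, g t z = f t + (p.re * Real.cos t + p.im * Real.sin t) := by
    intro t
    rw [hf]
    ring
  have hbd : ∀ t, BddAbove ((fun x : ℂ => (inner ℝ x (ee t) : ℝ)) '' L) := by
    intro t
    exact (hLc.image (by fun_prop)).bddAbove
  have hle : ∀ x ∈ L, ∀ t, (x - p).re * Real.cos t + (x - p).im * Real.sin t ≤ f t := by
    intro x hx t
    have h1 : (inner ℝ x (ee t) : ℝ) ≤ g t z := by
      rw [hLs t]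
      exact le_csSup (hbd t) ⟨x, hx, rfl⟩
    rw [tf_inner, hgf] at h1
    simp only [Complex.sub_re, Complex.sub_im]
    linarith
  have h0 : ∀ t, 0 ≤ f t := by
    intro t
    have := hle p hp t
    simpa using this
  have hc : ∫ t in (0 : ℝ)..(2 * Real.pi), f t = 2 * Real.pi * cg g z := by
    have h1 : ∫ t in (0 : ℝ)..(2 * Real.pi), g t z = ∫ t in (0 : ℝ)..(2 * Real.pi), f t := by
      simp only [hgf]
      rw [intervalIntegral.integral_add (tf_ii _ hfc) (tf_ii _ (by fun_prop)), tf_lin, add_zero]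
    unfold cg
    rw [h1]
    field_simp
  have hc0 : 0 ≤ cg g z := by
    have h1 : 0 ≤ ∫ t in (0 : ℝ)..(2 * Real.pi), f t :=
      intervalIntegral.integral_nonneg (by positivity) fun t _ => h0 t
    rw [hc] at h1
    by_contra hcon
    have : 2 * Real.pi * cg g z < 0 := mul_neg_of_pos_of_neg (by positivity) (not_le.1 hcon)
    linarith
  have hrad : ∀ x ∈ L, ‖x - p‖ ≤ 4 * cg g z := fun x hx =>
    tf_rad f hfc h0 _ hc (x - p) (hle x hx)
  -- upper bound and Lipschitz bound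
  have hnn : 0 ≤ 4 * cg g z := by linarith
  have hlip : ∀ t t', f t ≤ f t' + 4 * cg g z * |t - t'| := by
    intro t t'
    have h1 : g t z ≤ f t' + 4 * cg g z * |t - t'| + (p.re * Real.cos t + p.im * Real.sin t) := by
      rw [hLs t]
      refine csSup_le (Set.Nonempty.image _ ⟨p, hp⟩) ?_
      rintro _ ⟨x, hx, rfl⟩
      have h2 : (inner ℝ x (ee t) : ℝ) = inner ℝ (x - p) (ee t') + inner ℝ (x - p) (ee t - ee t') +
          inner ℝ p (ee t) := by
        rw [inner_sub_right, inner_sub_left (x := x) (y := p) (z := ee t)]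
        ring
      have h3 : (inner ℝ (x - p) (ee t - ee t') : ℝ) ≤ 4 * cg g z * |t - t'| := by
        refine (real_inner_le_norm _ _).trans ?_
        exact mul_le_mul (hrad x hx) (tf_ee t t') (norm_nonneg _) hnn
      have h4 := hle x hx t'
      rw [← tf_inner] at h4
      have h5 := tf_inner p t
      show (inner ℝ x (ee t) : ℝ) ≤ _
      rw [h2, h5]
      linarith
    rw [hgf] at h1
    linarith
  have hup : ∀ t, f t ≤ 4 * cg g z := by
    intro t
    have h1 : g t z ≤ 4 * cg g z + (p.re * Real.cos t + p.im * Real.sin t) := by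
      rw [hLs t]
      refine csSup_le (Set.Nonempty.image _ ⟨p, hp⟩) ?_
      rintro _ ⟨x, hx, rfl⟩
      have h2 : (inner ℝ x (ee t) : ℝ) = inner ℝ (x - p) (ee t) + inner ℝ p (ee t) := by
        rw [inner_sub_left]
        ring
      have h3 : (inner ℝ (x - p) (ee t) : ℝ) ≤ 4 * cg g z := by
        refine (real_inner_le_norm _ _).trans ?_
        have h4 : ‖ee t‖ = 1 := by
          have h5 : ‖ee t‖ ^ 2 = 1 := by
            rw [Complex.sq_norm, Complex.normSq_apply]
            simp only [ee]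
            have := Real.sin_sq_add_cos_sq t
            nlinarith
          have h6 := norm_nonneg (ee t)
          nlinarith
        rw [h4, mul_one]
        exact hrad x hx
      have h5 := tf_inner p t
      show (inner ℝ x (ee t) : ℝ) ≤ _
      rw [h2, h5]
      linarith
    rw [hgf] at h1
    linarith
  -- the harmonics
  obtain ⟨σ1, hσ1⟩ : ∃ σ1, σ1 = Real.pi⁻¹ * ∫ t in (0 : ℝ)..(2 * Real.pi), f t * Real.cos t :=
    ⟨_, rfl⟩
  obtain ⟨σ2, hσ2⟩ : ∃ σ2, σ2 = Real.pi⁻¹ * ∫ t in (0 : ℝ)..(2 * Real.pi), f t * Real.sin t :=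
    ⟨_, rfl⟩
  have hs1 : s1g g z = σ1 + p.re := by
    unfold s1g
    simp only [hgf, add_mul (f _)]
    rw [intervalIntegral.integral_add (tf_ii _ (by fun_prop)) (tf_ii _ (by fun_prop)), tf_c, hσ1]
    field_simp
  have hs2 : s2g g z = σ2 + p.im := by
    unfold s2g
    simp only [hgf, add_mul (f _)]
    rw [intervalIntegral.integral_add (tf_ii _ (by fun_prop)) (tf_ii _ (by fun_prop)), tf_s, hσ2]
    field_simp
  have hgu : ∀ t, gu g t z = f t - cg g z - (σ1 * Real.cos t + σ2 * Real.sin t) := by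
    intro t
    unfold gu gl
    rw [hs1, hs2, hgf]
    ring
  have hharm : ∀ a b : ℝ, a ^ 2 + b ^ 2 = 1 → |σ1 * a + σ2 * b| ≤ 2 * cg g z := by
    intro a b hab
    rw [hσ1, hσ2]
    exact tf_harm f hfc h0 _ hc a b hab
  constructor
  · rw [hgu θ]
    have h1 := abs_le.1 (hharm (Real.cos θ) (Real.sin θ) (by
      have := Real.sin_sq_add_cos_sq θ
      linarith))
    have h2 := h0 θ
    have h3 := hup θ
    rw [abs_le]
    constructor <;> linarith [h1.1, h1.2]
  · have hfd : Differentiable ℝ f := by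
      rw [hf]
      exact (hG.differentiable (by norm_num)).sub (by fun_prop)
    have h1 : dth (gu g) θ z = deriv f θ + (σ1 * Real.sin θ + σ2 * -Real.cos θ) := by
      have h2 : HasDerivAt (fun t => gu g t z)
          (deriv f θ - 0 - (σ1 * -Real.sin θ + σ2 * Real.cos θ)) θ := by
        simp only [hgu]
        exact (((hfd θ).hasDerivAt.sub (hasDerivAt_const _ _))).sub
          (((Real.hasDerivAt_cos θ).const_mul σ1).add ((Real.hasDerivAt_sin θ).const_mul σ2))
      unfold dth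
      rw [h2.deriv]
      ring
    rw [h1]
    have h2 := abs_le.1 (hharm (Real.sin θ) (-Real.cos θ) (by
      have := Real.sin_sq_add_cos_sq θ
      nlinarith))
    have h3 : |deriv f θ| ≤ 4 * cg g z := by
      have h4 : LipschitzWith ⟨4 * cg g z, hnn⟩ f := by
        refine LipschitzWith.of_le_add_mul _ ?_
        intro t t'
        rw [Real.dist_eq]
        exact hlip t t'
      have h5 := norm_deriv_le_of_lipschitz (x₀ := θ) h4
      rwa [Real.norm_eq_abs] at h5
    have h4 := abs_le.1 h3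
    rw [abs_le]
    constructor <;> linarith [h2.1, h2.2, h4.1, h4.2]

end Pool.Agent.HAS
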