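import Pool.Agent.HAS.T5E
import Pool.Agent.HAS.T5F

/-!
# The sharp lower bound for families (module T5G)

Assembly (complete).
-/

set_option autoImplicit false

namespace Pool.Agent.HAS

open MeasureTheory Metric Set

variable {U : Set ℂ} {g : ℝ → ℂ → ℝ}

private theorem t5_err (h : Fam U g) (η : ℂ → ℝ) (hη : ContDiff ℝ 2 η) (hc : HasCompactSupport η)
    (hs : tsupport η ⊆ U) :
    (∫ z, cg g z ^ 2 * lap (fun y => η y ^ 2) z) / 2 +
      ∫ z, (72 * ‖gradient η z‖ ^ 2 + 18 * |lap (fun y => η y ^ 2) z|) * cg g z ^ 2 ≤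
    ∫ z, (72 * ‖gradient η z‖ ^ 2 + 19 * |lap (fun y => η y ^ 2) z|) * cg g z ^ 2 := by
  have hcg : ContinuousOn (cg g) U := (cg_smooth h).continuousOn
  have hgr : Continuous (gradient η) := by
    have h1 : Continuous (fderiv ℝ η) := hη.continuous_fderiv (by norm_num)
    exact (InnerProductSpace.toDual ℝ ℂ).symm.continuous.comp h1
  have hlap : Continuous (lap (fun y => η y ^ 2)) := by
    have h1 : ContDiff ℝ 2 (fun y => η y ^ 2) := hη.pow 2
    have h2 : ∀ v : ℂ, Continuous fun z => fderiv ℝ (fun y => fderiv ℝ (fun y => η y ^ 2) y v) z v := by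
      intro v
      have h3 : ContDiff ℝ 1 (fun y => fderiv ℝ (fun y => η y ^ 2) y v) :=
        (h1.fderiv_right (by norm_num)).clm_apply contDiff_const
      exact (h3.continuous_fderiv (by norm_num)).clm_apply continuous_const
    exact (h2 1).add (h2 Complex.I)
  -- functions vanishing outside the support
  have key : ∀ f : ℂ → ℝ, Continuous f → (∀ z, z ∉ tsupport η → f z = 0) →
      Integrable (fun z => f z * cg g z ^ 2) := by
    intro f hf h0
    have hcont : Continuous (fun z => f z * cg g z ^ 2) := by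
      rw [continuous_iff_continuousAt]
      intro z
      by_cases hz : z ∈ tsupport η
      · exact hf.continuousAt.mul ((hcg.continuousAt (h.isOpen.mem_nhds (hs hz))).pow 2)
      · have h1 : (fun z => f z * cg g z ^ 2) =ᶠ[nhds z] fun _ => 0 := by
          filter_upwards [(isClosed_tsupport η).isOpen_compl.mem_nhds hz] with y hy
          rw [h0 y hy, zero_mul]
        exact (continuousAt_const.congr h1.symm)
    refine hcont.integrable_of_hasCompactSupport ?_
    refine HasCompactSupport.intro hc ?_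
    intro z hz
    rw [h0 z hz, zero_mul]
  have g0 : ∀ z, z ∉ tsupport η → gradient η z = 0 := by
    intro z hz
    have h1 : η =ᶠ[nhds z] fun _ => 0 := notMem_tsupport_iff_eventuallyEq.1 hz
    have h2 : fderiv ℝ η z = 0 := by
      rw [h1.fderiv_eq]
      simp
    unfold gradient
    rw [h2, map_zero]
  have l0 : ∀ z, z ∉ tsupport η → lap (fun y => η y ^ 2) z = 0 := by
    intro z hz
    have h1 : η =ᶠ[nhds z] fun _ => 0 := notMem_tsupport_iff_eventuallyEq.1 hz
    have h2 : ∀ v : ℂ, (fun y => fderiv ℝ (fun y => η y ^ 2) y v) =ᶠ[nhds z] fun _ => 0 := by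
      intro v
      have h3 : ∀ᶠ y in nhds z, η =ᶠ[nhds y] fun _ => 0 := h1.eventually_nhds
      filter_upwards [h3] with y hy
      have h4 : (fun y => η y ^ 2) =ᶠ[nhds y] fun _ => 0 := by
        filter_upwards [hy] with x hx
        rw [hx]
        norm_num
      rw [h4.fderiv_eq]
      simp
    unfold lap
    rw [(h2 1).fderiv_eq, (h2 Complex.I).fderiv_eq]
    simp
  have i1 : Integrable fun z => (lap (fun y => η y ^ 2) z) * cg g z ^ 2 := key _ hlap l0
  have i2 : Integrable fun z =>
      (72 * ‖gradient η z‖ ^ 2 + 18 * |lap (fun y => η y ^ 2) z|) * cg g z ^ 2 := by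
    refine key _ (by fun_prop) ?_
    intro z hz
    rw [g0 z hz, l0 z hz]
    simp
  have i3 : Integrable fun z =>
      (72 * ‖gradient η z‖ ^ 2 + 19 * |lap (fun y => η y ^ 2) z|) * cg g z ^ 2 := by
    refine key _ (by fun_prop) ?_
    intro z hz
    rw [g0 z hz, l0 z hz]
    simp
  have e1 : (∫ z, cg g z ^ 2 * lap (fun y => η y ^ 2) z) / 2 =
      ∫ z, (lap (fun y => η y ^ 2) z) * cg g z ^ 2 / 2 := by
    rw [integral_div]
    congr 2
    funext z
    ring
  rw [e1, ← integral_add (i1.div_const 2) i2]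
  refine integral_mono ((i1.div_const 2).add i2) i3 ?_
  intro z
  have h1 := le_abs_self (lap (fun y => η y ^ 2) z)
  have h2 := abs_nonneg (lap (fun y => η y ^ 2) z)
  have h3 := sq_nonneg (cg g z)
  simp only [Pi.add_apply]
  nlinarith [mul_le_mul_of_nonneg_right h1 h3, mul_nonneg h2 h3]

theorem sharp_fam (h : Fam U g) (hL : IsSupp U g) (η : ℂ → ℝ) (hη : ContDiff ℝ 2 η)
    (hc : HasCompactSupport η) (hs : tsupport η ⊆ U) :
    2 * (∫ z, η z ^ 2 * ‖gradient (cg g) z‖ ^ 2) -
      (∫ z, (72 * ‖gradient η z‖ ^ 2 + 19 * |lap (fun y => η y ^ 2) z|) * cg g z ^ 2) ≤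
      (2 * Real.pi)⁻¹ * Qn (fun z => η z ^ 2) g := by
  have hζ : ContDiff ℝ 2 (fun z => η z ^ 2) := hη.pow 2
  have hc' : HasCompactSupport (fun z => η z ^ 2) := by
    have h1 : HasCompactSupport (η * η) := hc.mul_left (f := η)
    have h2 : (fun z => η z ^ 2) = η * η := by
      funext z
      simp [pow_two]
    rw [h2]
    exact h1
  have hts : tsupport (fun z => η z ^ 2) ⊆ U := by
    refine subset_trans (closure_mono ?_) hs
    intro z hz h0
    apply hz
    simp only [h0]
    norm_num
  rw [Q_eq h _ hζ hc' hts, Qq_split h _ hζ hc' hts, Qq_c h _ hζ hc' hts]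
  have h1 := Qq_l h _ hζ hc' hts (fun z => sq_nonneg _)
  have h2 := Qq_u h η hη hc hs (fun z hz θ => gu_bound h hL z hz θ)
  have h3 := t5_err h η hη hc hs
  have hpi : 0 < 2 * Real.pi := by positivity
  have e1 : ∫ z, 2 * η z ^ 2 * ‖gradient (cg g) z‖ ^ 2 =
      2 * ∫ z, η z ^ 2 * ‖gradient (cg g) z‖ ^ 2 := by
    rw [← integral_const_mul]
    congr 1
    funext z
    ring
  rw [e1, inv_mul_eq_div, le_div_iff₀ hpi]
  nlinarith

end Pool.Agent.HAS
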