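import Pool.Agent.HAS.T5G
import Pool.Agent.HAS.T.Chg
import Pool.Agent.HAS.T.Dif

/-!
# The sharp lower bound for smooth bodies (module T5H)
-/

set_option autoImplicit false

namespace Pool.Agent.HAS

open MeasureTheory Metric Set
open Pool.Agent.HAS.T
open Pool.Agent.Helper85.Herm Pool.Agent.Helper85.Cap Pool.Agent.HVM

theorem fam_gf {h : C2 → ℝ} (hs : SmoothSupp h) (K : Body) (hK : pts K = wulff h) :
    Fam (interior (sh1 K)) (gf K) := by
  have hP := Phi_per hs K hK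
  refine ⟨isOpen_interior, ?_, fun θ z => hP.per z θ⟩
  have h1 : (fun q : ℝ × ℂ => gf K q.1 q.2) = Phi K ∘ Prod.swap := rfl
  rw [h1]
  refine hP.smooth.comp (contDiff_snd.prodMk contDiff_fst).contDiffOn ?_
  intro q hq
  exact ⟨hq.2, trivial⟩

theorem isSupp_gf (K : Body) : IsSupp (interior (sh1 K)) (gf K) := by
  intro z hz
  have hz' : z ∈ sh1 K := interior_subset hz
  refine ⟨fib K z, ?_, ?_, ?_, fun θ => rfl⟩
  · have hmk : Continuous (fun x : ℂ => mk z x) := by
      unfold mk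
      refine (PiLp.continuous_toLp 2 _).comp ?_
      refine continuous_pi fun i => ?_
      fin_cases i
      · exact continuous_const
      · exact continuous_const
      · exact Complex.continuous_re
      · exact Complex.continuous_im
    have hcl : IsClosed (fib K z) := K.isCompact.isClosed.preimage hmk
    obtain ⟨R, hR⟩ := K.isCompact.isBounded.exists_norm_le
    refine (isCompact_closedBall (0 : ℂ) R).of_isClosed_subset hcl ?_
    intro x hx
    rw [mem_closedBall_zero_iff]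
    have h1 : ‖mk z x‖ ≤ R := hR _ hx
    have h2 := norm_mk_sq z x
    have h3 : ‖x‖ ^ 2 ≤ ‖mk z x‖ ^ 2 := by
      rw [h2]
      nlinarith [sq_nonneg ‖z‖]
    exact (pow_le_pow_iff_left₀ (norm_nonneg _) (norm_nonneg _) two_ne_zero).1 h3 |>.trans h1
  · intro x hx y hy a b ha hb hab
    have h1 := K.convex hx hy ha hb hab
    rw [mk_smul, mk_smul, mk_add] at h1
    have h2 : a • z + b • z = z := by rw [← add_smul, hab, one_smul]
    rw [h2] at h1
    exact h1
  · obtain ⟨w, hw, rfl⟩ := hz'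
    exact ⟨p2 w, by
      show mk (p1 w) (p2 w) ∈ pts K
      rw [mk_p]
      exact hw⟩

private theorem norm_sub_I (x1 y1 x2 y2 : ℝ) :
    ‖(⟨x1, y1⟩ : ℂ) - Complex.I * ⟨x2, y2⟩‖ ^ 2 = (x1 + y2) ^ 2 + (y1 - x2) ^ 2 := by
  rw [← Complex.normSq_eq_norm_sq, Complex.normSq_apply]
  simp
  ring

theorem Nn_eq {h : C2 → ℝ} (hs : SmoothSupp h) (K : Body) (hK : pts K = wulff h) (θ : ℝ) (z : ℂ)
    (hz : z ∈ interior (sh1 K)) : Nn (gf K) θ z = Nf (Phi K) (z, θ) := by
  have hP := Phi_per hs K hK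
  have hO : IsOpen (interior (sh1 K)) := isOpen_interior
  have h1 : ContDiffOn ℝ 1 (Phi K) (interior (sh1 K) ×ˢ univ) := hP.smooth.of_le (by norm_num)
  have hdx : ContDiffOn ℝ 2 (dx (Phi K)) (interior (sh1 K) ×ˢ univ) := dx_contDiffOn hO 2 hP.smooth
  have hdy : ContDiffOn ℝ 2 (dy (Phi K)) (interior (sh1 K) ×ˢ univ) := dy_contDiffOn hO 2 hP.smooth
  have hdt : ContDiffOn ℝ 2 (dt (Phi K)) (interior (sh1 K) ×ˢ univ) := dt_contDiffOn hO 2 hP.smooth
  have hdx1 := hdx.of_le (m := 1) (by norm_num)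
  have hdy1 := hdy.of_le (m := 1) (by norm_num)
  have hdt1 := hdt.of_le (m := 1) (by norm_num)
  have hth : ∀ y ∈ interior (sh1 K), ∀ t, dth (gf K) t y = dt (Phi K) (y, t) := by
    intro y hy t
    exact (hasDerivAt_t hO h1 hy t).deriv
  have hth2 : dth (dth (gf K)) θ z = dt (dt (Phi K)) (z, θ) := by
    have e1 : (fun t => dth (gf K) t z) = fun t => dt (Phi K) (z, t) := by
      funext t
      exact hth z hz t
    unfold dth at e1 ⊢
    rw [e1]
    exact (hasDerivAt_t hO hdt1 hz θ).deriv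
  have hgx : ∀ y ∈ interior (sh1 K), ∀ e : ℂ, fderiv ℝ (gf K θ) y e = fderiv ℝ (Phi K) (y, θ) (e, 0) :=
    fun y hy e => (hasFDerivAt_z hO h1 hy θ e).2
  have hnh : interior (sh1 K) ∈ nhds z := hO.mem_nhds hz
  have hlap : lap (gf K θ) z = dx (dx (Phi K)) (z, θ) + dy (dy (Phi K)) (z, θ) := by
    unfold lap
    have e1 : (fun y => fderiv ℝ (gf K θ) y 1) =ᶠ[nhds z] fun y => dx (Phi K) (y, θ) := by
      filter_upwards [hnh] with y hy
      exact hgx y hy 1
    have e2 : (fun y => fderiv ℝ (gf K θ) y Complex.I) =ᶠ[nhds z] fun y => dy (Phi K) (y, θ) := by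
      filter_upwards [hnh] with y hy
      exact hgx y hy Complex.I
    rw [e1.fderiv_eq, e2.fderiv_eq, (hasFDerivAt_z hO hdx1 hz θ 1).2,
      (hasFDerivAt_z hO hdy1 hz θ Complex.I).2]
    rfl
  have hg1 : gradient (gf K θ) z = ⟨dx (Phi K) (z, θ), dy (Phi K) (z, θ)⟩ := by
    have hd : DifferentiableAt ℝ (gf K θ) z := (hasFDerivAt_z hO h1 hz θ 1).1
    rw [grad_coord _ _ hd, hgx z hz, hgx z hz]
    rfl
  have hg2 : gradient (dth (gf K) θ) z = ⟨dx (dt (Phi K)) (z, θ), dy (dt (Phi K)) (z, θ)⟩ := by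
    have e1 : dth (gf K) θ =ᶠ[nhds z] fun y => dt (Phi K) (y, θ) := by
      filter_upwards [hnh] with y hy
      exact hth y hy θ
    have e2 : DifferentiableAt ℝ (dth (gf K) θ) z :=
      (hasFDerivAt_z hO hdt1 hz θ 1).1.congr_of_eventuallyEq e1
    rw [grad_coord _ _ e2, e1.fderiv_eq, (hasFDerivAt_z hO hdt1 hz θ 1).2,
      (hasFDerivAt_z hO hdt1 hz θ Complex.I).2]
    rfl
  unfold Nn Nf
  rw [hth2, hlap, hg1, hg2, norm_sub_I]
  rfl

theorem F_ge {h : C2 → ℝ} (hs : SmoothSupp h) (K : Body) (hK : pts K = wulff h)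
    (η : ℂ → ℝ) (hη : ContDiff ℝ 2 η) (hη1 : ∀ z, |η z| ≤ 1)
    (hsupp : tsupport η ⊆ interior (sh1 K)) (κ : ℝ)
    (hκ : ∀ z ∈ tsupport η, ∀ θ : ℝ, ‖gradient (gf K θ) z‖ ≤ κ) (hF : 0 ≤ F K) :
    Qn (fun z => η z ^ 2) (gf K) ≤ (1 + κ ^ 2) * (2 * Real.pi * F K) := by
  have hP := Phi_per hs K hK
  have hO : IsOpen (interior (sh1 K)) := isOpen_interior
  have h2 : ContDiffOn ℝ 2 (Phi K) (interior (sh1 K) ×ˢ univ) := hP.smooth.of_le (by norm_num)
  have h1 : ContDiffOn ℝ 1 (Phi K) (interior (sh1 K) ×ˢ univ) := hP.smooth.of_le (by norm_num)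
  have hNc := Nf_continuousOn hO h2
  set f : ℂ × ℝ → ℝ := fun p => η p.1 ^ 2 * Nf (Phi K) p with hf
  have hfc : Continuous f := by
    rw [continuous_iff_continuousAt]
    intro p
    by_cases hp : p.1 ∈ tsupport η
    · have h3 : (interior (sh1 K) ×ˢ (univ : Set ℝ)) ∈ nhds p :=
        (hO.prod isOpen_univ).mem_nhds ⟨hsupp hp, trivial⟩
      have h4 : ContinuousAt (fun p : ℂ × ℝ => η p.1 ^ 2) p :=
        ((hη.continuous.comp continuous_fst).pow 2).continuousAt
      exact h4.mul (hNc.continuousAt h3)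
    · have h3 : f =ᶠ[nhds p] fun _ => 0 := by
        have h4 : ∀ᶠ q : ℂ × ℝ in nhds p, q.1 ∈ (tsupport η)ᶜ :=
          continuous_fst.continuousAt.eventually ((isClosed_tsupport η).isOpen_compl.mem_nhds hp)
        filter_upwards [h4] with q hq
        have h5 : η q.1 = 0 := by
          by_contra h6
          exact hq (subset_tsupport η h6)
        simp [hf, h5]
      exact continuousAt_const.congr h3.symm
  have hf0 : ∀ p, 0 ≤ f p := by
    intro p
    by_cases hp : p.1 ∈ tsupport η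
    · exact mul_nonneg (sq_nonneg _) (Nf_nonneg hs K hK (hsupp hp) p.2)
    · have h5 : η p.1 = 0 := by
        by_contra h6
        exact hp (subset_tsupport η h6)
      simp [hf, h5]
  have hQ : Qn (fun z => η z ^ 2) (gf K) =
      ∫ z, ∫ θ in (0 : ℝ)..(2 * Real.pi), f (z, θ) := by
    unfold Qn
    congr 1
    funext z
    congr 1
    funext θ
    by_cases hp : z ∈ tsupport η
    · rw [Nn_eq hs K hK θ z (hsupp hp)]
    · have h5 : η z = 0 := by
        by_contra h6
        exact hp (subset_tsupport η h6)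
      simp [hf, h5]
  have hpi : (0 : ℝ) ≤ 2 * Real.pi := by positivity
  have hA : ENNReal.ofReal (Qn (fun z => η z ^ 2) (gf K)) ≤
      ∫⁻ θ in Ioc (0 : ℝ) (2 * Real.pi), ∫⁻ z, ENNReal.ofReal (f (z, θ)) := by
    rw [hQ]
    have hin : ∀ z, ∫ θ in (0 : ℝ)..(2 * Real.pi), f (z, θ) =
        (∫⁻ θ in Ioc (0 : ℝ) (2 * Real.pi), ENNReal.ofReal (f (z, θ))).toReal := by
      intro z
      rw [intervalIntegral.integral_of_le hpi]
      refine integral_eq_lintegral_of_nonneg_ae (Filter.Eventually.of_forall fun θ => hf0 _) ?_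
      exact (hfc.comp (Continuous.prodMk_right z)).aestronglyMeasurable
    have hm : Measurable (fun z => ∫⁻ θ in Ioc (0 : ℝ) (2 * Real.pi), ENNReal.ofReal (f (z, θ))) :=
      Measurable.lintegral_prod_right' (f := fun p : ℂ × ℝ => ENNReal.ofReal (f p))
        (ENNReal.measurable_ofReal.comp hfc.measurable)
    have h3 : ∫ z, ∫ θ in (0 : ℝ)..(2 * Real.pi), f (z, θ) =
        (∫⁻ z, ENNReal.ofReal (∫ θ in (0 : ℝ)..(2 * Real.pi), f (z, θ))).toReal := by
      refine integral_eq_lintegral_of_nonneg_ae (Filter.Eventually.of_forall fun z => ?_) ?_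
      · exact intervalIntegral.integral_nonneg hpi fun θ _ => hf0 _
      · simp_rw [hin]
        exact hm.ennreal_toReal.aestronglyMeasurable
    rw [h3]
    refine ENNReal.ofReal_toReal_le.trans ?_
    rw [← lintegral_lintegral_swap]
    · refine lintegral_mono fun z => ?_
      rw [hin]
      exact ENNReal.ofReal_toReal_le
    · exact (ENNReal.measurable_ofReal.comp hfc.measurable).aemeasurable
  have hB : ∫⁻ θ in Ioc (0 : ℝ) (2 * Real.pi), ∫⁻ z, ENNReal.ofReal (f (z, θ)) ≤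
      ENNReal.ofReal (1 + κ ^ 2) * ENNReal.ofReal (2 * Real.pi * F K) := by
    rw [F_formula hs K hK, ← lintegral_const_mul' _ _ ENNReal.ofReal_ne_top]
    refine lintegral_mono fun θ => ?_
    rw [← lintegral_const_mul' _ _ ENNReal.ofReal_ne_top]
    rw [← lintegral_indicator hO.measurableSet]
    refine lintegral_mono fun z => ?_
    by_cases hz : z ∈ tsupport η
    · have hzU := hsupp hz
      rw [indicator_of_mem hzU, ← ENNReal.ofReal_mul (by positivity)]
      refine ENNReal.ofReal_le_ofReal ?_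
      have hN := Nf_nonneg hs K hK hzU θ
      have hg1 : gradient (gf K θ) z = ⟨dx (Phi K) (z, θ), dy (Phi K) (z, θ)⟩ := by
        have hd : DifferentiableAt ℝ (gf K θ) z := (hasFDerivAt_z hO h1 hzU θ 1).1
        have h5 : fderiv ℝ (gf K θ) z 1 = fderiv ℝ (Phi K) (z, θ) (1, 0) :=
          (hasFDerivAt_z hO h1 hzU θ 1).2
        have h6 : fderiv ℝ (gf K θ) z Complex.I = fderiv ℝ (Phi K) (z, θ) (Complex.I, 0) :=
          (hasFDerivAt_z hO h1 hzU θ Complex.I).2
        rw [grad_coord _ _ hd, h5, h6]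
        rfl
      have hk := hκ z hz θ
      have hk2 : dx (Phi K) (z, θ) ^ 2 + dy (Phi K) (z, θ) ^ 2 ≤ κ ^ 2 := by
        have h7 : ‖gradient (gf K θ) z‖ ^ 2 ≤ κ ^ 2 :=
          pow_le_pow_left₀ (norm_nonneg _) hk 2
        rw [hg1, ← Complex.normSq_eq_norm_sq, Complex.normSq_apply] at h7
        nlinarith
      have hη2 : η z ^ 2 ≤ 1 := by
        have := hη1 z
        rw [← sq_abs]
        exact pow_le_one₀ (abs_nonneg _) this
      have hpos : 0 < 1 + (dx (Phi K) (z, θ) ^ 2 + dy (Phi K) (z, θ) ^ 2) := by positivity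
      have h8 : η z ^ 2 * Nf (Phi K) (z, θ) ≤ Nf (Phi K) (z, θ) := by nlinarith
      refine h8.trans ?_
      rw [mul_div_assoc', le_div_iff₀ hpos]
      nlinarith
    · have h5 : η z = 0 := by
        by_contra h6
        exact hz (subset_tsupport η h6)
      simp [hf, h5]
  have hC := hA.trans hB
  rw [← ENNReal.ofReal_mul (by positivity)] at hC
  exact (ENNReal.ofReal_le_ofReal_iff (by positivity)).1 hC

theorem energy_sharp_proof {h : C2 → ℝ} (hs : SmoothSupp h) (K : Body) (hK : pts K = wulff h)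
    (η : ℂ → ℝ) (hη : ContDiff ℝ 2 η) (hη1 : ∀ z, |η z| ≤ 1) (hc : HasCompactSupport η)
    (hsupp : tsupport η ⊆ interior (sh1 K)) (κ : ℝ)
    (hκ : ∀ z ∈ tsupport η, ∀ θ : ℝ, ‖gradient (gf K θ) z‖ ≤ κ) :
    2 * (∫ z, η z ^ 2 * ‖gradient (cf K) z‖ ^ 2) -
      (∫ z, (72 * ‖gradient η z‖ ^ 2 + 19 * |lap (fun y => η y ^ 2) z|) * cf K z ^ 2) ≤
      (1 + κ ^ 2) * F K := by
  have hF : 0 ≤ F K := (muab_nonneg K).1
  have h1 := sharp_fam (fam_gf hs K hK) (isSupp_gf K) η hη hc hsupp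
  have h2 := F_ge hs K hK η hη hη1 hsupp κ hκ hF
  have h3 : cg (gf K) = cf K := rfl
  rw [h3] at h1
  refine h1.trans ?_
  have hpi : 0 < 2 * Real.pi := by positivity
  rw [inv_mul_eq_div, div_le_iff₀ hpi]
  linarith

theorem cf_contDiffOn_proof {h : C2 → ℝ} (hs : SmoothSupp h) (K : Body) (hK : pts K = wulff h) :
    ContDiffOn ℝ 2 (cf K) (interior (sh1 K)) :=
  (cg_smooth (fam_gf hs K hK)).of_le (by norm_num)

end Pool.Agent.HAS
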