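import Pool.Agent.HAS.Defs
import Pool.Agent.HAS.T.V2i
import Pool.Agent.HAS.T.Shd
import Pool.Agent.HAS.T.Leg4b
import Pool.Agent.HAS.T.Cf
import Pool.Agent.HAS.T.Ed6
import Pool.Agent.HAS.T5H

/-! Statements of the block D (T-calculus). -/

set_option autoImplicit false

namespace Pool.Agent.HAS

open MeasureTheory Metric Set
open Pool.Agent.Helper85.Herm Pool.Agent.Helper85.Cap Pool.Agent.HVM

/-- `V2` is invariant under all linear isometries -/
theorem V2_isom (g : C2 ≃ₗᵢ[ℝ] C2) (K L : Body) (hL : pts L = g '' pts K) : V2 L = V2 K := by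
  exact Pool.Agent.HAS.T.V2_isom' g K L hL

/-- the two coordinate shadows control `V2` -/
theorem shadows (K : Body) :
    V2 K - F K ≤ (volume (sh1 K)).toReal + (volume (sh2 K)).toReal ∧
    (volume (sh1 K)).toReal + (volume (sh2 K)).toReal ≤ V2 K := by
  exact Pool.Agent.HAS.T.shadows' K

/-- regularity of the fibre support functions of a smooth body -/
theorem gf_contDiffOn {h : C2 → ℝ} (hs : SmoothSupp h) (K : Body) (hK : pts K = wulff h) (θ : ℝ) :
    ContDiffOn ℝ 2 (gf K θ) (interior (sh1 K)) := by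
  exact Pool.Agent.HAS.T.gf_contDiffOn' hs K hK θ

theorem cf_contDiffOn {h : C2 → ℝ} (hs : SmoothSupp h) (K : Body) (hK : pts K = wulff h) :
    ContDiffOn ℝ 2 (cf K) (interior (sh1 K)) := by
  exact (Pool.Agent.HAS.T.cf_contDiffOn' hs K hK).of_le (by norm_num)

/-- crude energy bound up to the edge -/
theorem energy_edge {h : C2 → ℝ} (hs : SmoothSupp h) (K : Body) (hK : pts K = wulff h) :
    IntegrableOn (fun z => Real.sqrt (1 + ‖gradient (cf K) z‖ ^ 2) - 1) (interior (sh1 K)) ∧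
    ∫ z in interior (sh1 K), (Real.sqrt (1 + ‖gradient (cf K) z‖ ^ 2) - 1) ≤
      F K + (volume (sh2 K)).toReal / 2 := by
  exact Pool.Agent.HAS.T.energy_edge' hs K hK

/-- sharp energy bound in the interior -/
theorem energy_sharp {h : C2 → ℝ} (hs : SmoothSupp h) (K : Body) (hK : pts K = wulff h)
    (η : ℂ → ℝ) (hη : ContDiff ℝ 2 η) (hη1 : ∀ z, |η z| ≤ 1) (hc : HasCompactSupport η)
    (hsupp : tsupport η ⊆ interior (sh1 K)) (κ : ℝ)
    (hκ : ∀ z ∈ tsupport η, ∀ θ : ℝ, ‖gradient (gf K θ) z‖ ≤ κ) :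
    2 * (∫ z, η z ^ 2 * ‖gradient (cf K) z‖ ^ 2) -
      (∫ z, (72 * ‖gradient η z‖ ^ 2 + 19 * |lap (fun y => η y ^ 2) z|) * cf K z ^ 2) ≤
      (1 + κ ^ 2) * F K := by
  exact energy_sharp_proof hs K hK η hη hη1 hc hsupp κ hκ

end Pool.Agent.HAS
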