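import Pool.Agent.HAS.UbDefs
import Pool.Agent.HAS.FibA

/-!
# The body (module UbA)

The profile `GG s` is concave and antitone, and the corresponding body of revolution is a convex
body that contains a ball around the origin.
-/

set_option autoImplicit false

namespace Pool.Agent.HAS

open MeasureTheory Metric Set
open Pool.Agent.Helper85.Herm Pool.Agent.Helper85.Cap Pool.Agent.HVM

theorem GG_deriv {s : ℝ → ℝ} (hs : Slope s) (r : ℝ) : HasDerivAt (GG s) (-s r) r :=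
  intervalIntegral.integral_hasDerivAt_left (hs.cont.intervalIntegrable _ _)
    (hs.cont.stronglyMeasurableAtFilter _ _) hs.cont.continuousAt

theorem GG_cont {s : ℝ → ℝ} (hs : Slope s) : Continuous (GG s) :=
  continuous_iff_continuousAt.2 fun r => (GG_deriv hs r).continuousAt

theorem GG_pos {s : ℝ → ℝ} (hs : Slope s) (r : ℝ) (h0 : 0 ≤ r) (h1 : r < 1) : 0 < GG s r :=
  intervalIntegral.integral_pos h1 hs.cont.continuousOn (fun x _ => hs.nonneg x)
    ⟨1, ⟨h1.le, le_refl _⟩, hs.pos⟩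

private theorem GG_diff {s : ℝ → ℝ} (hs : Slope s) : Differentiable ℝ (GG s) :=
  fun r => (GG_deriv hs r).differentiableAt

private theorem GG_deriv_eq {s : ℝ → ℝ} (hs : Slope s) : deriv (GG s) = fun r => -s r :=
  funext fun r => (GG_deriv hs r).deriv

theorem GG_concave {s : ℝ → ℝ} (hs : Slope s) : ConcaveOn ℝ univ (GG s) := by
  refine Antitone.concaveOn_univ_of_deriv (GG_diff hs) ?_
  rw [GG_deriv_eq hs]
  intro x y hxy
  exact neg_le_neg (hs.mono hxy)

theorem GG_anti {s : ℝ → ℝ} (hs : Slope s) : Antitone (GG s) := by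
  refine antitone_of_deriv_nonpos (GG_diff hs) fun x => ?_
  rw [GG_deriv_eq hs]
  exact neg_nonpos.2 (hs.nonneg x)

private theorem norm_sq_p (w : C2) : ‖w‖ ^ 2 = ‖p1 w‖ ^ 2 + ‖p2 w‖ ^ 2 := by
  have h := norm_sq_mk (p1 w) (p2 w)
  rwa [mk_p] at h

private theorem norm_p1_le (w : C2) : ‖p1 w‖ ≤ ‖w‖ := by
  refine le_of_sq_le_sq ?_ (norm_nonneg _)
  rw [norm_sq_p w]
  linarith [sq_nonneg ‖p2 w‖]

private theorem norm_p2_le (w : C2) : ‖p2 w‖ ≤ ‖w‖ := by
  refine le_of_sq_le_sq ?_ (norm_nonneg _)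
  rw [norm_sq_p w]
  linarith [sq_nonneg ‖p1 w‖]

private theorem kset_convex {s : ℝ → ℝ} (hs : Slope s) (ε : ℝ) (hε : 0 < ε) :
    Convex ℝ (kset s ε) := by
  intro w hw w' hw' a b ha hb hab
  obtain ⟨h1, h2⟩ := hw
  obtain ⟨h1', h2'⟩ := hw'
  have e1 : ‖p1 (a • w + b • w')‖ ≤ a * ‖p1 w‖ + b * ‖p1 w'‖ := by
    rw [p1_add, p1_smul, p1_smul]
    refine (norm_add_le _ _).trans ?_
    rw [norm_smul, norm_smul, Real.norm_of_nonneg ha, Real.norm_of_nonneg hb]
  have e2 : ‖p2 (a • w + b • w')‖ ≤ a * ‖p2 w‖ + b * ‖p2 w'‖ := by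
    rw [p2_add, p2_smul, p2_smul]
    refine (norm_add_le _ _).trans ?_
    rw [norm_smul, norm_smul, Real.norm_of_nonneg ha, Real.norm_of_nonneg hb]
  constructor
  · refine e1.trans ?_
    have h3 := mul_le_mul_of_nonneg_left h1 ha
    have h4 := mul_le_mul_of_nonneg_left h1' hb
    linarith
  · have h3 := mul_le_mul_of_nonneg_left h2 ha
    have h4 := mul_le_mul_of_nonneg_left h2' hb
    have h5 := (GG_concave hs).2 (mem_univ ‖p1 w‖) (mem_univ ‖p1 w'‖) ha hb hab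
    simp only [smul_eq_mul] at h5
    have h6 := (GG_anti hs) e1
    have h7 := mul_le_mul_of_nonneg_left (h5.trans h6) hε.le
    nlinarith

private theorem kset_closed {s : ℝ → ℝ} (hs : Slope s) (ε : ℝ) : IsClosed (kset s ε) := by
  have h1 : Continuous fun w : C2 => ‖p1 w‖ := p1_cont.norm
  have h2 : Continuous fun w : C2 => ‖p2 w‖ := p2_cont.norm
  have h3 : Continuous fun w : C2 => ε * GG s ‖p1 w‖ :=
    continuous_const.mul ((GG_cont hs).comp h1)
  exact (isClosed_le h1 continuous_const).inter (isClosed_le h2 h3)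

private theorem kset_bdd {s : ℝ → ℝ} (hs : Slope s) (ε : ℝ) (hε : 0 < ε) :
    kset s ε ⊆ closedBall 0 (1 + ε * GG s 0) := by
  intro w hw
  obtain ⟨h1, h2⟩ := hw
  have hG : 0 < GG s 0 := GG_pos hs 0 (le_refl _) (by norm_num)
  have h3 : GG s ‖p1 w‖ ≤ GG s 0 := GG_anti hs (norm_nonneg _)
  have h4 : ‖p2 w‖ ≤ ε * GG s 0 := h2.trans (mul_le_mul_of_nonneg_left h3 hε.le)
  rw [mem_closedBall, dist_zero_right]
  have h5 : 0 ≤ 1 + ε * GG s 0 := by positivity
  refine le_of_sq_le_sq ?_ h5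
  rw [norm_sq_p w]
  nlinarith [norm_nonneg (p1 w), norm_nonneg (p2 w), mul_pos hε hG]

theorem kset_body {s : ℝ → ℝ} (hs : Slope s) (ε : ℝ) (hε : 0 < ε) :
    (∃ K : Body, pts K = kset s ε) ∧ ∃ r : ℝ, 0 < r ∧ closedBall 0 r ⊆ kset s ε := by
  have hball : ∃ r : ℝ, 0 < r ∧ closedBall 0 r ⊆ kset s ε := by
    have hG : 0 < GG s (1 / 2) := GG_pos hs (1 / 2) (by norm_num) (by norm_num)
    refine ⟨min (1 / 2) (ε * GG s (1 / 2)), lt_min (by norm_num) (mul_pos hε hG), ?_⟩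
    intro w hw
    rw [mem_closedBall, dist_zero_right] at hw
    have h1 : ‖p1 w‖ ≤ 1 / 2 := (norm_p1_le w).trans (hw.trans (min_le_left _ _))
    have h2 : ‖p2 w‖ ≤ ε * GG s (1 / 2) := (norm_p2_le w).trans (hw.trans (min_le_right _ _))
    exact ⟨by linarith, h2.trans (mul_le_mul_of_nonneg_left (GG_anti hs h1) hε.le)⟩
  refine ⟨?_, hball⟩
  obtain ⟨r, hr, hsub⟩ := hball
  refine ⟨⟨kset s ε, kset_convex hs ε hε, ?_, ⟨0, hsub (mem_closedBall_self hr.le)⟩⟩, rfl⟩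
  exact (isCompact_closedBall (0 : C2) _).of_isClosed_subset (kset_closed hs ε)
    (kset_bdd hs ε hε)

end Pool.Agent.HAS
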