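import Pool.Agent.HAS.UbA
import Pool.Agent.HVM.CapF

/-!
# The maximiser and the value of `F` (module UbB)

PLAN.  `rr s t ∈ [0,1]` and for every `t ≥ 0` the point `r = rr s t` maximises `t r' + GG s r'` over `r' ∈ [0,1]`
(concave function with derivative `t - s(r')`, positive for `r' > ..`: `s r' ≤ t` for `r' ≤ rr s t` (if `rr > 0`, by
continuity also at the end point), `s r' > t` for `rr s t < r' ≤ 1`).
For `w` with `a = ‖p1 w‖ > 0`, `b = ‖p2 w‖ > 0` put `t = a/(ε b)`, `r = rr s t`,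
`X w = mk ((r/a) • p1 w) ((ε GG s r/b) • p2 w)`: `X w ∈ kset`, and for `y ∈ kset`:
`⟨y,w⟩ ≤ ‖p1 y‖ a + ‖p2 y‖ b ≤ εb (t ‖p1 y‖ + GG s ‖p1 y‖) ≤ εb (t r + GG s r) = ⟨X w, w⟩`.
`first_order` (HVM/CapF.lean) with `a = 1, b = 0`:
`2π F = ∫ e^{-‖w‖²} (4⟨X,w⟩² - 2‖w‖²‖X‖² + 4⟨X,Jw⟩²)`, `⟨X,Jw⟩ = 0`, `⟨X,w⟩ = r a + εG b`, `‖X‖² = r²+ε²G²`:
integrand `= qF(a², b²)` with `qF X Y = e^{-(X+Y)} (2(r² - ε²G²)(X - Y) + 8 ε r G √(XY))`, `r = rr s (√(X/Y)/ε)`, `G = GG s r`.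
`I2_c2` (Helper85/Cap/I2.lean) converts `∫_{C2} f(w0²+w1², w2²+w3²)` to `π² ∫∫ f(X,Y)`; integrability over
`(ℝ×ℝ)×(ℝ×ℝ)` as in `capi_integrable` (bounded by `C (X+Y) e^{-(X+Y)}`; `rr` is monotone, so measurable).
-/

set_option autoImplicit false

namespace Pool.Agent.HAS

open MeasureTheory Metric Set
open Pool.Agent.Helper85.Herm Pool.Agent.Helper85.Cap Pool.Agent.HVM

private theorem ub_bdd (s : ℝ → ℝ) (t : ℝ) :
    BddAbove ({0} ∪ {r | 0 ≤ r ∧ r ≤ 1 ∧ s r ≤ t} : Set ℝ) := by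
  refine ⟨1, ?_⟩
  rintro r (rfl | h)
  · exact zero_le_one
  · exact h.2.1

theorem rr_mem {s : ℝ → ℝ} (hs : Slope s) (t : ℝ) : 0 ≤ rr s t ∧ rr s t ≤ 1 := by
  constructor
  · exact le_csSup (ub_bdd s t) (Or.inl rfl)
  · refine csSup_le ⟨0, Or.inl rfl⟩ ?_
    rintro r (rfl | h)
    · exact zero_le_one
    · exact h.2.1

theorem rr_mono {s : ℝ → ℝ} (hs : Slope s) : Monotone (rr s) := by
  intro t t' h
  refine csSup_le_csSup (ub_bdd s t') ⟨0, Or.inl rfl⟩ ?_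
  rintro r (rfl | hr)
  · exact Or.inl rfl
  · exact Or.inr ⟨hr.1, hr.2.1, hr.2.2.trans h⟩

theorem rr_one {s : ℝ → ℝ} (hs : Slope s) (t : ℝ) (ht : s 1 ≤ t) : rr s t = 1 :=
  le_antisymm (rr_mem hs t).2 (le_csSup (ub_bdd s t) (Or.inr ⟨zero_le_one, le_rfl, ht⟩))

theorem rr_max {s : ℝ → ℝ} (hs : Slope s) (t : ℝ) (ht : 0 ≤ t) (r : ℝ) (h0 : 0 ≤ r) (h1 : r ≤ 1) :
    t * r + GG s r ≤ t * rr s t + GG s (rr s t) := by
  have hm := rr_mem hs t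
  have hii : ∀ a b : ℝ, IntervalIntegrable s volume a b := fun a b =>
    hs.cont.intervalIntegrable a b
  rcases le_total r (rr s t) with h | h
  · have h2 : GG s r = (∫ x in r..rr s t, s x) + GG s (rr s t) := by
      unfold GG
      exact (intervalIntegral.integral_add_adjacent_intervals (hii _ _) (hii _ _)).symm
    have h3 : (∫ x in r..rr s t, s x) ≤ ∫ _ in r..rr s t, t := by
      refine intervalIntegral.integral_mono_on_of_le_Ioo h (hii _ _) (by simp) ?_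
      intro x hx
      have hx2 : x < sSup ({0} ∪ {r | 0 ≤ r ∧ r ≤ 1 ∧ s r ≤ t} : Set ℝ) := hx.2
      have hne : ({0} ∪ {r | 0 ≤ r ∧ r ≤ 1 ∧ s r ≤ t} : Set ℝ).Nonempty := ⟨0, Or.inl rfl⟩
      obtain ⟨y, hy, hxy⟩ := exists_lt_of_lt_csSup hne hx2
      rcases hy with rfl | hy
      · exact absurd hxy (by linarith [hx.1])
      · exact (hs.mono hxy.le).trans hy.2.2
    rw [intervalIntegral.integral_const, smul_eq_mul] at h3
    rw [h2]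
    nlinarith
  · have h2 : GG s (rr s t) = (∫ x in rr s t..r, s x) + GG s r := by
      unfold GG
      exact (intervalIntegral.integral_add_adjacent_intervals (hii _ _) (hii _ _)).symm
    have h3 : (∫ _ in rr s t..r, t) ≤ ∫ x in rr s t..r, s x := by
      refine intervalIntegral.integral_mono_on_of_le_Ioo h (by simp) (hii _ _) ?_
      intro x hx
      by_contra hc
      push Not at hc
      have h4 : x ≤ rr s t :=
        le_csSup (ub_bdd s t) (Or.inr ⟨hm.1.trans hx.1.le, hx.2.le.trans h1, hc.le⟩)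
      exact absurd h4 (not_le.2 hx.1)
    rw [intervalIntegral.integral_const, smul_eq_mul] at h3
    rw [h2]
    nlinarith

/-- the integrand in the variables `X = ‖p1 w‖²`, `Y = ‖p2 w‖²` -/
noncomputable def qF (s : ℝ → ℝ) (ε X Y : ℝ) : ℝ :=
  Real.exp (-(X + Y)) *
    (2 * (rr s (Real.sqrt (X / Y) / ε) ^ 2 - ε ^ 2 * GG s (rr s (Real.sqrt (X / Y) / ε)) ^ 2) * (X - Y) +
      8 * ε * rr s (Real.sqrt (X / Y) / ε) * GG s (rr s (Real.sqrt (X / Y) / ε)) * Real.sqrt (X * Y))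

private theorem qF_meas {s : ℝ → ℝ} (hs : Slope s) (ε : ℝ) :
    Measurable (fun p : ℝ × ℝ => qF s ε p.1 p.2) := by
  have h1 : Measurable (rr s) := (rr_mono hs).measurable
  have h2 : Measurable (GG s) := (GG_cont hs).measurable
  have h3 : Measurable (fun p : ℝ × ℝ => Real.sqrt (p.1 / p.2) / ε) := by fun_prop
  have h4 : Measurable (fun p : ℝ × ℝ => rr s (Real.sqrt (p.1 / p.2) / ε)) := h1.comp h3
  have h5 : Measurable (fun p : ℝ × ℝ => GG s (rr s (Real.sqrt (p.1 / p.2) / ε))) := h2.comp h4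
  unfold qF
  fun_prop

private theorem GG_one (s : ℝ → ℝ) : GG s 1 = 0 := by
  unfold GG
  simp

private theorem qF_bound {s : ℝ → ℝ} (hs : Slope s) (ε : ℝ) (hε : 0 < ε) (X Y : ℝ) (hX : 0 ≤ X)
    (hY : 0 ≤ Y) : |qF s ε X Y| ≤
      (2 * (1 + ε ^ 2 * GG s 0 ^ 2) + 8 * ε * GG s 0) * ((X + Y) * Real.exp (-(X + Y))) := by
  have hr := rr_mem hs (Real.sqrt (X / Y) / ε)
  unfold qF
  generalize rr s (Real.sqrt (X / Y) / ε) = r at hr ⊢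
  have hG1 : GG s r ≤ GG s 0 := GG_anti hs hr.1
  have hG0 : 0 ≤ GG s r := by
    have h1 := GG_anti hs hr.2
    rw [GG_one] at h1
    exact h1
  generalize GG s r = G at hG1 hG0 ⊢
  generalize GG s 0 = G0 at hG1 ⊢
  have hq : Real.sqrt (X * Y) ≤ X + Y := by
    rw [Real.sqrt_le_iff]
    refine ⟨by linarith, ?_⟩
    nlinarith [mul_nonneg hX hY]
  have hq0 := Real.sqrt_nonneg (X * Y)
  generalize Real.sqrt (X * Y) = Q at hq hq0 ⊢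
  rw [abs_mul, abs_of_pos (Real.exp_pos _), mul_comm, ← mul_assoc]
  refine mul_le_mul_of_nonneg_right ?_ (Real.exp_pos _).le
  have hr2 : r ^ 2 ≤ 1 := pow_le_one₀ hr.1 hr.2
  have hG2 : G ^ 2 ≤ G0 ^ 2 := pow_le_pow_left₀ hG0 hG1 2
  have hG3 : ε ^ 2 * G ^ 2 ≤ ε ^ 2 * G0 ^ 2 := mul_le_mul_of_nonneg_left hG2 (by positivity)
  have e1 : |2 * (r ^ 2 - ε ^ 2 * G ^ 2) * (X - Y)| ≤ 2 * (1 + ε ^ 2 * G0 ^ 2) * (X + Y) := by
    rw [abs_mul, abs_mul, abs_two]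
    have h1 : |r ^ 2 - ε ^ 2 * G ^ 2| ≤ 1 + ε ^ 2 * G0 ^ 2 := by
      have h3 : 0 ≤ ε ^ 2 * G ^ 2 := by positivity
      have h4 : 0 ≤ r ^ 2 := sq_nonneg r
      rw [abs_le]
      constructor <;> linarith
    have h2 : |X - Y| ≤ X + Y := by
      rw [abs_le]
      constructor <;> linarith
    exact mul_le_mul (mul_le_mul_of_nonneg_left h1 (by norm_num)) h2 (abs_nonneg _) (by positivity)
  have e2 : |8 * ε * r * G * Q| ≤ 8 * ε * G0 * (X + Y) := by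
    rw [abs_of_nonneg (mul_nonneg (mul_nonneg (mul_nonneg (by positivity) hr.1) hG0) hq0)]
    have h1 : r * G ≤ 1 * G0 := mul_le_mul hr.2 hG1 hG0 zero_le_one
    have h2 : (r * G) * Q ≤ (1 * G0) * (X + Y) :=
      mul_le_mul h1 hq hq0 (by linarith)
    have h3 := mul_le_mul_of_nonneg_left h2 (by positivity : 0 ≤ 8 * ε)
    calc 8 * ε * r * G * Q = 8 * ε * ((r * G) * Q) := by ring
      _ ≤ 8 * ε * ((1 * G0) * (X + Y)) := h3
      _ = _ := by ring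
  refine (abs_add_le _ _).trans ?_
  calc _ ≤ 2 * (1 + ε ^ 2 * G0 ^ 2) * (X + Y) + 8 * ε * G0 * (X + Y) := add_le_add e1 e2
    _ = _ := by ring

private theorem GG_zero_nonneg {s : ℝ → ℝ} (hs : Slope s) : 0 ≤ GG s 0 := by
  have h1 := GG_anti hs (zero_le_one (α := ℝ))
  rw [GG_one] at h1
  exact h1

private theorem qF_int4 {s : ℝ → ℝ} (hs : Slope s) (ε : ℝ) (hε : 0 < ε) :
    Integrable (fun z : (ℝ × ℝ) × (ℝ × ℝ) => qF s ε (z.1.1 ^ 2 + z.1.2 ^ 2)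
      (z.2.1 ^ 2 + z.2.2 ^ 2)) := by
  have g : Integrable (fun x : ℝ => Real.exp (-(1/2) * x ^ 2)) :=
    integrable_exp_neg_mul_sq (by norm_num)
  have g2 : Integrable (fun z : ℝ × ℝ => Real.exp (-(1/2) * z.1 ^ 2) *
    Real.exp (-(1/2) * z.2 ^ 2)) := g.mul_prod g
  have g4 : Integrable (fun z : (ℝ × ℝ) × (ℝ × ℝ) => (Real.exp (-(1/2) * z.1.1 ^ 2) *
    Real.exp (-(1/2) * z.1.2 ^ 2)) * (Real.exp (-(1/2) * z.2.1 ^ 2) *
    Real.exp (-(1/2) * z.2.2 ^ 2))) := g2.mul_prod g2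
  have hG := GG_zero_nonneg hs
  refine (g4.const_mul ((2 * (1 + ε ^ 2 * GG s 0 ^ 2) + 8 * ε * GG s 0) * 2)).mono' ?_ ?_
  · apply Measurable.aestronglyMeasurable
    exact (qF_meas hs ε).comp (f := fun z : (ℝ × ℝ) × (ℝ × ℝ) =>
      ((z.1.1 ^ 2 + z.1.2 ^ 2, z.2.1 ^ 2 + z.2.2 ^ 2) : ℝ × ℝ)) (by fun_prop)
  · refine Filter.Eventually.of_forall fun z => ?_
    set X := z.1.1 ^ 2 + z.1.2 ^ 2 with hX
    set Y := z.2.1 ^ 2 + z.2.2 ^ 2 with hY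
    have hX0 : 0 ≤ X := by positivity
    have hY0 : 0 ≤ Y := by positivity
    have e1 : Real.exp (-(1/2) * z.1.1 ^ 2) * Real.exp (-(1/2) * z.1.2 ^ 2) *
        (Real.exp (-(1/2) * z.2.1 ^ 2) * Real.exp (-(1/2) * z.2.2 ^ 2)) =
        Real.exp ((X + Y) / 2) * Real.exp (-(X + Y)) := by
      rw [← Real.exp_add, ← Real.exp_add, ← Real.exp_add, ← Real.exp_add]
      congr 1
      rw [hX, hY]; ring
    rw [e1, Real.norm_eq_abs]
    refine (qF_bound hs ε hε X Y hX0 hY0).trans ?_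
    have h2 : X + Y ≤ 2 * Real.exp ((X + Y) / 2) := by
      have := Real.add_one_le_exp ((X + Y) / 2)
      linarith
    have hC : 0 ≤ 2 * (1 + ε ^ 2 * GG s 0 ^ 2) + 8 * ε * GG s 0 := by positivity
    have h3 := mul_le_mul_of_nonneg_left (mul_le_mul_of_nonneg_right h2
      (Real.exp_pos (-(X + Y))).le) hC
    refine h3.trans (le_of_eq ?_)
    ring

private theorem ub_ae : ∀ᵐ w : C2, p1 w ≠ 0 ∧ p2 w ≠ 0 := by
  have key : ∀ i : Fin 4, ∀ᵐ w : C2, w i ≠ 0 := by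
    intro i
    have hne : LinearMap.ker (EuclideanSpace.proj i : C2 →L[ℝ] ℝ).toLinearMap ≠ ⊤ := by
      intro h
      have h1 : (EuclideanSpace.single i 1 : C2) ∈
          LinearMap.ker (EuclideanSpace.proj i : C2 →L[ℝ] ℝ).toLinearMap := by
        rw [h]
        trivial
      rw [LinearMap.mem_ker] at h1
      simp at h1
    have h := Measure.addHaar_submodule (volume : Measure C2) _ hne
    rw [ae_iff]
    refine measure_mono_null ?_ h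
    intro w hw
    have hw' : ¬ (w i ≠ 0) := hw
    rw [not_not] at hw'
    exact hw'
  filter_upwards [key 0, key 2] with w h0 h2
  exact ⟨fun h => h0 (congrArg Complex.re h), fun h => h2 (congrArg Complex.re h)⟩

/-- the maximiser -/
private noncomputable def uX (s : ℝ → ℝ) (ε : ℝ) (w : C2) : C2 :=
  mk ((rr s (‖p1 w‖ / (ε * ‖p2 w‖)) / ‖p1 w‖) • p1 w)
    ((ε * GG s (rr s (‖p1 w‖ / (ε * ‖p2 w‖))) / ‖p2 w‖) • p2 w)

private theorem GG_nn {s : ℝ → ℝ} (hs : Slope s) {r : ℝ} (hr : r ≤ 1) : 0 ≤ GG s r := by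
  have h1 := GG_anti hs hr
  rw [GG_one] at h1
  exact h1

private theorem J_mk (w : C2) : J w = mk (Complex.I * p1 w) (Complex.I * p2 w) := by
  ext i
  fin_cases i <;> simp [J, mk, p1, p2]

private theorem inner_I (c : ℝ) (z : ℂ) : (inner ℝ (c • z) (Complex.I * z) : ℝ) = 0 := by
  rw [Complex.inner]
  simp
  ring

private theorem uX_facts {s : ℝ → ℝ} (hs : Slope s) (ε : ℝ) (hε : 0 < ε) (w : C2)
    (h1 : p1 w ≠ 0) (h2 : p2 w ≠ 0) :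
    ‖p1 (uX s ε w)‖ = rr s (‖p1 w‖ / (ε * ‖p2 w‖)) ∧
    ‖p2 (uX s ε w)‖ = ε * GG s (rr s (‖p1 w‖ / (ε * ‖p2 w‖))) ∧
    (inner ℝ (uX s ε w) w : ℝ) = rr s (‖p1 w‖ / (ε * ‖p2 w‖)) * ‖p1 w‖ +
      ε * GG s (rr s (‖p1 w‖ / (ε * ‖p2 w‖))) * ‖p2 w‖ ∧
    ‖uX s ε w‖ ^ 2 = rr s (‖p1 w‖ / (ε * ‖p2 w‖)) ^ 2 +
      (ε * GG s (rr s (‖p1 w‖ / (ε * ‖p2 w‖)))) ^ 2 ∧
    (inner ℝ (uX s ε w) (J w) : ℝ) = 0 := by
  have ha : 0 < ‖p1 w‖ := norm_pos_iff.2 h1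
  have hb : 0 < ‖p2 w‖ := norm_pos_iff.2 h2
  have hr := rr_mem hs (‖p1 w‖ / (ε * ‖p2 w‖))
  unfold uX
  generalize rr s (‖p1 w‖ / (ε * ‖p2 w‖)) = r at hr ⊢
  have hG := GG_nn hs hr.2
  generalize GG s r = G at hG ⊢
  have e1 : ‖(r / ‖p1 w‖) • p1 w‖ = r := by
    rw [norm_smul, Real.norm_eq_abs, abs_of_nonneg (div_nonneg hr.1 ha.le)]
    field_simp
  have e2 : ‖(ε * G / ‖p2 w‖) • p2 w‖ = ε * G := by
    rw [norm_smul, Real.norm_eq_abs, abs_of_nonneg (by positivity)]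
    field_simp
  refine ⟨by rw [p1_mk, e1], by rw [p2_mk, e2], ?_, by rw [norm_sq_mk, e1, e2], ?_⟩
  · conv_lhs => rw [← mk_p w]
    rw [p1_mk, p2_mk, inner_mk, real_inner_smul_left, real_inner_smul_left,
      real_inner_self_eq_norm_sq, real_inner_self_eq_norm_sq]
    field_simp
  · rw [J_mk, inner_mk, inner_I, inner_I, add_zero]

private theorem uX_max {s : ℝ → ℝ} (hs : Slope s) (ε : ℝ) (hε : 0 < ε) (w : C2)
    (h1 : p1 w ≠ 0) (h2 : p2 w ≠ 0) :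
    uX s ε w ∈ kset s ε ∧ ∀ y ∈ kset s ε, (inner ℝ y w : ℝ) ≤ inner ℝ (uX s ε w) w := by
  obtain ⟨f1, f2, f3, -, -⟩ := uX_facts hs ε hε w h1 h2
  have ha : 0 < ‖p1 w‖ := norm_pos_iff.2 h1
  have hb : 0 < ‖p2 w‖ := norm_pos_iff.2 h2
  refine ⟨⟨?_, ?_⟩, ?_⟩
  · rw [f1]
    exact (rr_mem hs _).2
  · rw [f1, f2]
  · intro y hy
    rw [f3]
    have h3 := rr_max hs (‖p1 w‖ / (ε * ‖p2 w‖)) (by positivity) ‖p1 y‖ (norm_nonneg _) hy.1
    generalize rr s (‖p1 w‖ / (ε * ‖p2 w‖)) = r at h3 ⊢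
    have h4 : (inner ℝ y w : ℝ) = inner ℝ (p1 y) (p1 w) + inner ℝ (p2 y) (p2 w) := by
      rw [← inner_mk, mk_p, mk_p]
    have h5 := real_inner_le_norm (p1 y) (p1 w)
    have h6 := real_inner_le_norm (p2 y) (p2 w)
    have h7 : ‖p2 y‖ * ‖p2 w‖ ≤ (ε * GG s ‖p1 y‖) * ‖p2 w‖ :=
      mul_le_mul_of_nonneg_right hy.2 hb.le
    have h8 := mul_le_mul_of_nonneg_left h3 (by positivity : 0 ≤ ε * ‖p2 w‖)
    have h9 : ε * ‖p2 w‖ * (‖p1 w‖ / (ε * ‖p2 w‖) * ‖p1 y‖ + GG s ‖p1 y‖) =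
        ‖p1 y‖ * ‖p1 w‖ + ε * GG s ‖p1 y‖ * ‖p2 w‖ := by
      field_simp
    have h10 : ε * ‖p2 w‖ * (‖p1 w‖ / (ε * ‖p2 w‖) * r + GG s r) =
        r * ‖p1 w‖ + ε * GG s r * ‖p2 w‖ := by
      field_simp
    rw [h9, h10] at h8
    rw [h4]
    linarith

private theorem uX_val {s : ℝ → ℝ} (hs : Slope s) (ε : ℝ) (hε : 0 < ε) (w : C2)
    (h1 : p1 w ≠ 0) (h2 : p2 w ≠ 0) :
    Real.exp (-‖w‖ ^ 2) * (4 * 1 * inner ℝ (uX s ε w) w ^ 2 +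
      (0 - 2 * 1) * (‖w‖ ^ 2 * ‖uX s ε w‖ ^ 2) - 4 * (0 - 1) * inner ℝ (uX s ε w) (J w) ^ 2) =
      qF s ε (w 0 ^ 2 + w 1 ^ 2) (w 2 ^ 2 + w 3 ^ 2) := by
  obtain ⟨-, -, f3, f4, f5⟩ := uX_facts hs ε hε w h1 h2
  have ha : 0 < ‖p1 w‖ := norm_pos_iff.2 h1
  have hb : 0 < ‖p2 w‖ := norm_pos_iff.2 h2
  have g1 : w 0 ^ 2 + w 1 ^ 2 = ‖p1 w‖ ^ 2 := by
    rw [Complex.sq_norm, Complex.normSq_apply]
    show _ = w 0 * w 0 + w 1 * w 1
    ring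
  have g2 : w 2 ^ 2 + w 3 ^ 2 = ‖p2 w‖ ^ 2 := by
    rw [Complex.sq_norm, Complex.normSq_apply]
    show _ = w 2 * w 2 + w 3 * w 3
    ring
  have g3 : ‖w‖ ^ 2 = ‖p1 w‖ ^ 2 + ‖p2 w‖ ^ 2 := by
    conv_lhs => rw [← mk_p w]
    exact norm_sq_mk _ _
  rw [f3, f4, f5, g1, g2, g3]
  unfold qF
  have g4 : Real.sqrt (‖p1 w‖ ^ 2 / ‖p2 w‖ ^ 2) / ε = ‖p1 w‖ / (ε * ‖p2 w‖) := by
    rw [← div_pow, Real.sqrt_sq (by positivity), div_div, mul_comm ε]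
  have g5 : Real.sqrt (‖p1 w‖ ^ 2 * ‖p2 w‖ ^ 2) = ‖p1 w‖ * ‖p2 w‖ := by
    rw [← mul_pow, Real.sqrt_sq (by positivity)]
  rw [g4, g5]
  generalize rr s (‖p1 w‖ / (ε * ‖p2 w‖)) = r
  ring

theorem F_kset {s : ℝ → ℝ} (hs : Slope s) (ε : ℝ) (hε : 0 < ε) (K : Body) (hK : pts K = kset s ε) :
    2 * Real.pi * F K = Real.pi ^ 2 * ∫ X in Ioi (0 : ℝ), ∫ Y in Ioi (0 : ℝ), qF s ε X Y := by
  obtain ⟨-, r, hr, hball⟩ := kset_body hs ε hε
  have hX : ∀ᵐ w : C2, uX s ε w ∈ pts K ∧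
      ∀ y ∈ pts K, (inner ℝ y w : ℝ) ≤ inner ℝ (uX s ε w) w := by
    filter_upwards [ub_ae] with w hw
    rw [hK]
    exact uX_max hs ε hε w hw.1 hw.2
  unfold F
  rw [first_order K r hr (by rw [hK]; exact hball) (uX s ε) hX 1 0,
    ← I2_c2 (qF s ε) (qF_int4 hs ε hε)]
  refine integral_congr_ae ?_
  filter_upwards [ub_ae] with w hw
  exact uX_val hs ε hε w hw.1 hw.2

theorem qF_integrable {s : ℝ → ℝ} (hs : Slope s) (ε : ℝ) (hε : 0 < ε) :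
    IntegrableOn (fun q : ℝ × ℝ => qF s ε q.1 q.2) (Ioi 0 ×ˢ Ioi 0) := by
  have h1 : Integrable (fun q : ℝ × ℝ => q.1 * Real.exp (-q.1) * Real.exp (-q.2))
      ((volume.restrict (Ioi 0)).prod (volume.restrict (Ioi 0))) :=
    I2_intOn_xexp.mul_prod I2_intOn_exp
  have h2 : Integrable (fun q : ℝ × ℝ => Real.exp (-q.1) * (q.2 * Real.exp (-q.2)))
      ((volume.restrict (Ioi 0)).prod (volume.restrict (Ioi 0))) :=
    I2_intOn_exp.mul_prod I2_intOn_xexp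
  rw [Measure.prod_restrict, ← Measure.volume_eq_prod] at h1 h2
  refine ((h1.add h2).const_mul
    (2 * (1 + ε ^ 2 * GG s 0 ^ 2) + 8 * ε * GG s 0)).mono' (qF_meas hs ε).aestronglyMeasurable ?_
  refine (ae_restrict_iff' (measurableSet_Ioi.prod measurableSet_Ioi)).2
    (Filter.Eventually.of_forall fun q hq => ?_)
  rw [Real.norm_eq_abs]
  have h3 : (0 : ℝ) < q.1 := hq.1
  have h4 : (0 : ℝ) < q.2 := hq.2
  refine (qF_bound hs ε hε q.1 q.2 h3.le h4.le).trans (le_of_eq ?_)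
  show _ = (2 * (1 + ε ^ 2 * GG s 0 ^ 2) + 8 * ε * GG s 0) *
    (q.1 * Real.exp (-q.1) * Real.exp (-q.2) + Real.exp (-q.1) * (q.2 * Real.exp (-q.2)))
  rw [neg_add, Real.exp_add]
  ring

end Pool.Agent.HAS
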