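import Pool.Agent.HAS.UbB

/-!
# The upper estimate of `F` (module UbC)

PLAN.  Swap the order (`qF_integrable`), for fixed `Y > 0` substitute `X = ε² t² Y` (`dX = 2 ε² t Y dt`, `t > 0`), then swap
and integrate over `Y`: `∫_0^∞ Y² e^{-(1+ε²t²) Y} dY = 2/(1+ε²t²)³`.  With `r = rr s t`, `G = GG s r`:
`∫∫ qF = ∫_0^∞ [2(r² - ε²G²)(ε²t² - 1) + 8 ε² r G t] 2 ε² t · 2/(1+ε²t²)³ dt`.
Since `∫_0^∞ (ε²t²-1) 2ε² t/(1+ε²t²)³ dt = ∫_0^∞ (u-1)/(1+u)³ du = 0`, `r²` may be replaced by `r² - 1`: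
`2π F = π² · 4ε² ∫_0^∞ t [2(1-r²)(1-ε²t²) + 2ε²G²(1-ε²t²) + 8ε² r G t]/(1+ε²t²)³ dt`, and the bracket vanishes for
`t ≥ s 1` (`r = 1`, `G = 0`).  Using `(1-ε²t²)/(1+ε²t²)³ ≤ 1`, `1/(1+ε²t²)³ ≤ 1`:
`F ≤ ε² (4π ∫_0^{s 1} t (1 - rr(t)²) dt + C ε²)` with `C = 2π ∫_0^{s 1} t(2G²+8rGt) dt`.
Layer cake: `∫_0^{s 1} t (1 - rr(t)²) dt = ∫_0^1 s(x)² x dx`: `1 - rr(t)² = ∫_{rr(t)}^1 2x dx`, and for a.e. `(x,t)`:
`x > rr s t ↔ s x > t`; Tonelli.
-/

set_option autoImplicit false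

namespace Pool.Agent.HAS

open MeasureTheory Metric Set
open Pool.Agent.Helper85.Herm Pool.Agent.Helper85.Cap Pool.Agent.HVM

private theorem ub_bdd {s : ℝ → ℝ} (t : ℝ) :
    BddAbove (({0} : Set ℝ) ∪ {r | 0 ≤ r ∧ r ≤ 1 ∧ s r ≤ t}) := by
  refine ⟨1, ?_⟩
  rintro r (hr | ⟨_, hr, _⟩)
  · rw [Set.mem_singleton_iff] at hr
    rw [hr]
    norm_num
  · exact hr

private theorem ub_lt {s : ℝ → ℝ} {x t : ℝ} (h0 : 0 < x) (h1 : x ≤ 1) (h : rr s t < x) :
    t < s x := by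
  by_contra hc
  push Not at hc
  have : x ≤ rr s t := le_csSup (ub_bdd t) (Or.inr ⟨h0.le, h1, hc⟩)
  linarith

private theorem ub_le {s : ℝ → ℝ} (hs : Slope s) {x t : ℝ} (h0 : 0 < x) (h : t < s x) :
    rr s t ≤ x := by
  refine csSup_le ⟨0, Or.inl rfl⟩ ?_
  rintro r (hr | ⟨_, _, hr⟩)
  · rw [Set.mem_singleton_iff] at hr
    rw [hr]
    exact h0.le
  · by_contra hc
    push Not at hc
    have := hs.mono hc.le
    linarith

theorem rr_layer {s : ℝ → ℝ} (hs : Slope s) :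
    ∫ t in (0 : ℝ)..(s 1), t * (1 - rr s t ^ 2) = I1 s := by
  let K : ℝ → ℝ → ℝ := fun t x => if t < s x then 2 * t * x else 0
  have hx : ∀ x ∈ Ioc (0 : ℝ) 1, ∫ t in Ioc 0 (s 1), K t x = s x ^ 2 * x := by
    intro x hx
    have h1 : ∫ t in Ioc 0 (s 1), K t x = ∫ t in Ioo 0 (s x), 2 * t * x := by
      have h2 : ∀ t ∈ Ioc 0 (s 1), K t x = (Iio (s x)).indicator (fun t => 2 * t * x) t := by
        intro t _
        show (if t < s x then 2 * t * x else 0) = _
        by_cases h : t < s x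
        · rw [if_pos h, Set.indicator_of_mem (Set.mem_Iio.2 h)]
        · rw [if_neg h, Set.indicator_of_notMem (fun h' => h (Set.mem_Iio.1 h'))]
      rw [setIntegral_congr_fun measurableSet_Ioc h2, setIntegral_indicator measurableSet_Iio]
      congr 1
      have h3 : Ioc 0 (s 1) ∩ Iio (s x) = Ioo 0 (s x) := by
        ext t
        have := hs.mono hx.2
        simp only [mem_inter_iff, mem_Ioc, mem_Iio, mem_Ioo]
        constructor
        · rintro ⟨⟨h4, _⟩, h5⟩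
          exact ⟨h4, h5⟩
        · rintro ⟨h4, h5⟩
          exact ⟨⟨h4, by linarith⟩, h5⟩
      rw [h3]
    rw [h1, ← integral_Ioc_eq_integral_Ioo, ← intervalIntegral.integral_of_le (hs.nonneg x)]
    have h2 : ∀ t : ℝ, 2 * t * x = (2 * x) * t := fun t => by ring
    simp only [h2]
    rw [intervalIntegral.integral_const_mul, integral_id]
    ring
  have ht : ∀ t ∈ Ioc (0 : ℝ) (s 1), ∫ x in Ioc (0 : ℝ) 1, K t x = t * (1 - rr s t ^ 2) := by
    intro t ht
    obtain ⟨hr0, hr1⟩ := rr_mem hs t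
    have h1 : ∫ x in Ioc (0 : ℝ) 1, K t x = ∫ x in Ioc (rr s t) 1, 2 * t * x := by
      have h2 : ∀ᵐ x ∂(volume.restrict (Ioc (0 : ℝ) 1)),
          K t x = (Ioi (rr s t)).indicator (fun x => 2 * t * x) x := by
        have h3 : ∀ᵐ x ∂(volume.restrict (Ioc (0 : ℝ) 1)), x ≠ rr s t := by
          refine ae_restrict_of_ae ?_
          exact (measure_singleton (rr s t) : volume ({rr s t} : Set ℝ) = 0) |> fun h =>
            measure_eq_zero_iff_ae_notMem.1 h
        filter_upwards [h3, ae_restrict_mem measurableSet_Ioc] with x hne hx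
        show (if t < s x then 2 * t * x else 0) = _
        by_cases h : rr s t < x
        · rw [if_pos (ub_lt hx.1 hx.2 h), Set.indicator_of_mem (Set.mem_Ioi.2 h)]
        · rw [if_neg, Set.indicator_of_notMem (fun h' => h (Set.mem_Ioi.1 h'))]
          intro h'
          exact h (lt_of_le_of_ne (ub_le hs hx.1 h') hne.symm)
      rw [integral_congr_ae h2, setIntegral_indicator measurableSet_Ioi]
      congr 1
      have h3 : Ioc (0 : ℝ) 1 ∩ Ioi (rr s t) = Ioc (rr s t) 1 := by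
        ext x
        simp only [mem_inter_iff, mem_Ioc, mem_Ioi]
        constructor
        · rintro ⟨⟨_, h4⟩, h5⟩
          exact ⟨h5, h4⟩
        · rintro ⟨h4, h5⟩
          exact ⟨⟨by linarith, h5⟩, h4⟩
      rw [h3]
    rw [h1, ← intervalIntegral.integral_of_le hr1, intervalIntegral.integral_const_mul, integral_id]
    ring
  have hint : Integrable (Function.uncurry K)
      ((volume.restrict (Ioc 0 (s 1))).prod (volume.restrict (Ioc (0 : ℝ) 1))) := by
    refine Integrable.of_bound (Measurable.aestronglyMeasurable ?_) (2 * s 1) ?_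
    · refine Measurable.ite (measurableSet_lt measurable_fst (hs.cont.measurable.comp measurable_snd))
        ?_ measurable_const
      fun_prop
    · rw [Measure.prod_restrict]
      filter_upwards [ae_restrict_mem (measurableSet_Ioc.prod measurableSet_Ioc)] with p hp
      obtain ⟨⟨h1, h2⟩, h3, h4⟩ := hp
      show ‖(if p.1 < s p.2 then 2 * p.1 * p.2 else 0 : ℝ)‖ ≤ 2 * s 1
      split_ifs
      · rw [Real.norm_eq_abs, abs_of_nonneg (by positivity)]
        nlinarith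
      · rw [norm_zero]
        have := hs.pos
        positivity
  have hswap := integral_integral_swap hint
  rw [intervalIntegral.integral_of_le hs.pos.le, I1, intervalIntegral.integral_of_le zero_le_one,
    ← setIntegral_congr_fun measurableSet_Ioc ht, ← setIntegral_congr_fun measurableSet_Ioc hx]
  exact hswap

private theorem ub_gam (n : ℕ) : IntegrableOn (fun x : ℝ => Real.exp (-x) * x ^ n) (Ioi 0) ∧
    ∫ x in Ioi (0 : ℝ), Real.exp (-x) * x ^ n = (Nat.factorial n : ℝ) := by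
  have h1 : ∀ x : ℝ, Real.exp (-x) * x ^ ((n : ℝ) + 1 - 1) = Real.exp (-x) * x ^ n := fun x => by
    rw [add_sub_cancel_right, Real.rpow_natCast]
  have hn : (0 : ℝ) < (n : ℝ) + 1 := by positivity
  constructor
  · have h2 := Real.GammaIntegral_convergent hn
    simp only [h1] at h2
    exact h2
  · have h2 := Real.Gamma_eq_integral hn
    simp only [h1] at h2
    rw [← h2, Real.Gamma_nat_eq_factorial]

/-- the function of `t` in the majorant -/
private noncomputable def hh (s : ℝ → ℝ) (ε t : ℝ) : ℝ :=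
  2 * (1 - rr s t ^ 2) + 2 * ε ^ 2 * GG s (rr s t) ^ 2 + 8 * ε ^ 2 * rr s t * GG s (rr s t) * t

private theorem ub_G {s : ℝ → ℝ} (hs : Slope s) (t : ℝ) :
    0 ≤ GG s (rr s t) ∧ GG s (rr s t) ≤ GG s 0 := by
  obtain ⟨h0, h1⟩ := rr_mem hs t
  have h2 : GG s 1 = 0 := intervalIntegral.integral_same
  refine ⟨?_, GG_anti hs h0⟩
  rw [← h2]
  exact GG_anti hs h1

private theorem hh_zero {s : ℝ → ℝ} (hs : Slope s) (ε : ℝ) {t : ℝ} (ht : s 1 ≤ t) : hh s ε t = 0 := by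
  have h2 : GG s 1 = 0 := intervalIntegral.integral_same
  unfold hh
  rw [rr_one hs t ht, h2]
  ring

private theorem hh_nonneg {s : ℝ → ℝ} (hs : Slope s) (ε : ℝ) {t : ℝ} (ht : 0 ≤ t) : 0 ≤ hh s ε t := by
  obtain ⟨h0, h1⟩ := rr_mem hs t
  have h2 := (ub_G hs t).1
  have h3 : rr s t ^ 2 ≤ 1 := pow_le_one₀ h0 h1
  unfold hh
  have h4 : 0 ≤ 2 * (1 - rr s t ^ 2) := by linarith
  have h5 : 0 ≤ 2 * ε ^ 2 * GG s (rr s t) ^ 2 := by positivity
  have h6 : 0 ≤ 8 * ε ^ 2 * rr s t * GG s (rr s t) * t := by positivity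
  linarith

private theorem hh_meas {s : ℝ → ℝ} (hs : Slope s) (ε : ℝ) : Measurable (hh s ε) := by
  have h1 : Measurable (rr s) := (rr_mono hs).measurable
  have h2 : Measurable fun t => GG s (rr s t) := (GG_cont hs).measurable.comp h1
  unfold hh
  fun_prop

private theorem ub_int {s : ℝ → ℝ} (hs : Slope s) {φ : ℝ → ℝ} (hφ : Measurable φ) {B : ℝ}
    (hB : ∀ t ∈ Ioc 0 (s 1), |φ t| ≤ B) : IntegrableOn φ (Ioc 0 (s 1)) := by
  refine Measure.integrableOn_of_bounded (M := B) measure_Ioc_lt_top.ne hφ.aestronglyMeasurable ?_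
  filter_upwards [ae_restrict_mem measurableSet_Ioc] with t ht
  exact hB t ht

private theorem hh_bd {s : ℝ → ℝ} (hs : Slope s) (ε : ℝ) : ∃ B : ℝ, ∀ t, 0 ≤ t → |hh s ε t| ≤ B := by
  have hG0 : 0 ≤ GG s 0 := (ub_G hs 0).1.trans (ub_G hs 0).2
  have hs1 := hs.pos
  refine ⟨2 + 2 * ε ^ 2 * GG s 0 ^ 2 + 8 * ε ^ 2 * GG s 0 * s 1, fun t ht => ?_⟩
  rw [abs_of_nonneg (hh_nonneg hs ε ht)]
  rcases le_total (s 1) t with h | h
  · rw [hh_zero hs ε h]
    positivity
  · obtain ⟨h0, h1⟩ := rr_mem hs t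
    obtain ⟨h2, h3⟩ := ub_G hs t
    unfold hh
    have h4 : 2 * (1 - rr s t ^ 2) ≤ 2 := by
      have := sq_nonneg (rr s t)
      linarith
    have h5 : 2 * ε ^ 2 * GG s (rr s t) ^ 2 ≤ 2 * ε ^ 2 * GG s 0 ^ 2 :=
      mul_le_mul_of_nonneg_left (pow_le_pow_left₀ h2 h3 2) (by positivity)
    have h6 : 8 * ε ^ 2 * rr s t * GG s (rr s t) * t ≤ 8 * ε ^ 2 * GG s 0 * s 1 := by
      calc 8 * ε ^ 2 * rr s t * GG s (rr s t) * t ≤ 8 * ε ^ 2 * 1 * GG s 0 * s 1 := by gcongr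
        _ = 8 * ε ^ 2 * GG s 0 * s 1 := by ring
    linarith

/-- the substitution `X = ε² t² Y` -/
private theorem ub_sub {s : ℝ → ℝ} (hs : Slope s) {ε Y : ℝ} (hε : 0 < ε) (hY : 0 < Y) :
    IntegrableOn (fun X => hh s ε (Real.sqrt (X / Y) / ε)) (Ioi 0) ∧
    ∫ X in Ioi (0 : ℝ), hh s ε (Real.sqrt (X / Y) / ε) =
      2 * ε ^ 2 * Y * ∫ t in (0 : ℝ)..(s 1), t * hh s ε t := by
  have himg : (fun t : ℝ => ε ^ 2 * Y * t ^ 2) '' Ioi 0 = Ioi 0 := by
    ext X
    constructor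
    · rintro ⟨t, ht, rfl⟩
      have : 0 < t := ht
      show 0 < ε ^ 2 * Y * t ^ 2
      positivity
    · intro hX
      have hX0 : 0 < X := hX
      refine ⟨Real.sqrt (X / Y) / ε, ?_, ?_⟩
      · show 0 < Real.sqrt (X / Y) / ε
        positivity
      · show ε ^ 2 * Y * (Real.sqrt (X / Y) / ε) ^ 2 = X
        rw [div_pow, Real.sq_sqrt (by positivity)]
        field_simp
  have hder : ∀ t ∈ Ioi (0 : ℝ), HasDerivWithinAt (fun t : ℝ => ε ^ 2 * Y * t ^ 2)
      (ε ^ 2 * Y * (2 * t)) (Ioi 0) t := by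
    intro t _
    have h1 : HasDerivAt (fun t : ℝ => ε ^ 2 * Y * t ^ 2) (ε ^ 2 * Y * (2 * t)) t := by
      have h2 := (hasDerivAt_pow 2 t).const_mul (ε ^ 2 * Y)
      simpa using h2
    exact h1.hasDerivWithinAt
  have hinj : InjOn (fun t : ℝ => ε ^ 2 * Y * t ^ 2) (Ioi 0) := by
    intro t ht t' ht' h
    have h1 : ε ^ 2 * Y * t ^ 2 = ε ^ 2 * Y * t' ^ 2 := h
    have h2 : t ^ 2 = t' ^ 2 := mul_left_cancel₀ (by positivity) h1
    have h3 : (0 : ℝ) < t := ht
    have h4 : (0 : ℝ) < t' := ht'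
    exact (pow_left_inj₀ h3.le h4.le two_ne_zero).1 h2
  have hval : ∀ t ∈ Ioi (0 : ℝ), |ε ^ 2 * Y * (2 * t)| • hh s ε (Real.sqrt ((ε ^ 2 * Y * t ^ 2) / Y) / ε) =
      2 * ε ^ 2 * Y * (t * hh s ε t) := by
    intro t ht
    have h3 : (0 : ℝ) < t := ht
    have h4 : (ε ^ 2 * Y * t ^ 2) / Y = (ε * t) ^ 2 := by
      field_simp
    have h5 : Real.sqrt ((ε ^ 2 * Y * t ^ 2) / Y) / ε = t := by
      rw [h4, Real.sqrt_sq (by positivity)]
      field_simp
    rw [h5, abs_of_nonneg (by positivity), smul_eq_mul]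
    ring
  obtain ⟨B, hB⟩ := hh_bd hs ε
  have hI1 : IntegrableOn (fun t => t * hh s ε t) (Ioc 0 (s 1)) := by
    refine ub_int hs (measurable_id.mul (hh_meas hs ε)) (B := s 1 * B) fun t ht => ?_
    rw [abs_mul, abs_of_pos ht.1]
    exact mul_le_mul ht.2 (hB t ht.1.le) (abs_nonneg _) hs.pos.le
  have hz : ∀ t ∈ Ioi (0 : ℝ) \ Ioc 0 (s 1), t * hh s ε t = 0 := by
    intro t ht
    have h1 : s 1 ≤ t := by
      by_contra hc
      push Not at hc
      exact ht.2 ⟨ht.1, hc.le⟩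
    rw [hh_zero hs ε h1, mul_zero]
  have hI2 : IntegrableOn (fun t => t * hh s ε t) (Ioi 0) :=
    hI1.of_forall_sdiff_eq_zero measurableSet_Ioi hz
  constructor
  · have h1 := integrableOn_image_iff_integrableOn_abs_deriv_smul measurableSet_Ioi hder hinj
      (fun X => hh s ε (Real.sqrt (X / Y) / ε))
    rw [himg] at h1
    rw [h1]
    have h2 : IntegrableOn (fun t => 2 * ε ^ 2 * Y * (t * hh s ε t)) (Ioi 0) :=
      hI2.const_mul (2 * ε ^ 2 * Y)
    exact h2.congr_fun (fun t ht => (hval t ht).symm) measurableSet_Ioi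
  · have h1 := integral_image_eq_integral_abs_deriv_smul measurableSet_Ioi hder hinj
      (fun X => hh s ε (Real.sqrt (X / Y) / ε))
    rw [himg] at h1
    rw [h1, setIntegral_congr_fun measurableSet_Ioi hval, integral_const_mul,
      intervalIntegral.integral_of_le hs.pos.le,
      setIntegral_eq_of_subset_of_forall_sdiff_eq_zero measurableSet_Ioi Ioc_subset_Ioi_self hz]

/-- the pointwise bound -/
private theorem ub_pt {s : ℝ → ℝ} (hs : Slope s) {ε X Y : ℝ} (hε : 0 < ε) (hX : 0 < X) (hY : 0 < Y) :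
    qF s ε X Y ≤ Real.exp (-Y) * Y * hh s ε (Real.sqrt (X / Y) / ε) +
      2 * (Real.exp (-Y) * (Real.exp (-X) * X ^ 1 - Y * (Real.exp (-X) * X ^ 0))) := by
  have ht0 : 0 ≤ Real.sqrt (X / Y) / ε := by positivity
  have hsq : Real.sqrt (X * Y) = Y * ε * (Real.sqrt (X / Y) / ε) := by
    have h1 : X * Y = (X / Y) * Y ^ 2 := by field_simp
    rw [h1, Real.sqrt_mul' _ (sq_nonneg Y), Real.sqrt_sq hY.le]
    field_simp
  unfold qF
  rw [hsq]
  have hh0 := hh_nonneg hs ε ht0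
  generalize Real.sqrt (X / Y) / ε = t at ht0 hh0 ⊢
  obtain ⟨h0, h1⟩ := rr_mem hs t
  have h2 := (ub_G hs t).1
  have h3 : rr s t ^ 2 ≤ 1 := pow_le_one₀ h0 h1
  have he : Real.exp (-(X + Y)) = Real.exp (-Y) * Real.exp (-X) := by
    rw [← Real.exp_add]
    ring_nf
  have hx1 : Real.exp (-X) ≤ 1 := Real.exp_le_one_iff.2 (by linarith)
  have hpos : 0 < Real.exp (-Y) * Real.exp (-X) := by positivity
  rw [he]
  have e1 : Real.exp (-Y) * Real.exp (-X) * (2 * (rr s t ^ 2 - ε ^ 2 * GG s (rr s t) ^ 2) * (X - Y) +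
      8 * ε * rr s t * GG s (rr s t) * (Y * ε * t)) =
      Real.exp (-Y) * Real.exp (-X) * (Y * hh s ε t) -
        Real.exp (-Y) * Real.exp (-X) * (X * (2 * (1 - rr s t ^ 2) + 2 * ε ^ 2 * GG s (rr s t) ^ 2)) +
      2 * (Real.exp (-Y) * (Real.exp (-X) * X ^ 1 - Y * (Real.exp (-X) * X ^ 0))) := by
    unfold hh
    ring
  rw [e1]
  have h4 : 0 ≤ Real.exp (-Y) * Real.exp (-X) *
      (X * (2 * (1 - rr s t ^ 2) + 2 * ε ^ 2 * GG s (rr s t) ^ 2)) := by
    have : 0 ≤ 2 * (1 - rr s t ^ 2) := by linarith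
    positivity
  have h5 : Real.exp (-Y) * Real.exp (-X) * (Y * hh s ε t) ≤ Real.exp (-Y) * Y * hh s ε t := by
    have h6 : 0 ≤ Real.exp (-Y) * (Y * hh s ε t) := by positivity
    calc Real.exp (-Y) * Real.exp (-X) * (Y * hh s ε t) =
        Real.exp (-X) * (Real.exp (-Y) * (Y * hh s ε t)) := by ring
      _ ≤ 1 * (Real.exp (-Y) * (Y * hh s ε t)) := mul_le_mul_of_nonneg_right hx1 h6
      _ = Real.exp (-Y) * Y * hh s ε t := by ring
  linarith

theorem F_upper {s : ℝ → ℝ} (hs : Slope s) : ∃ C : ℝ, 0 ≤ C ∧ ∀ (ε : ℝ), 0 < ε → ∀ K : Body,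
    pts K = kset s ε → F K ≤ ε ^ 2 * (4 * Real.pi * I1 s + C * ε ^ 2) := by
  have hm1 : Measurable (rr s) := (rr_mono hs).measurable
  have hm2 : Measurable fun t => GG s (rr s t) := (GG_cont hs).measurable.comp hm1
  have hG0 : 0 ≤ GG s 0 := (ub_G hs 0).1.trans (ub_G hs 0).2
  set C' : ℝ := ∫ t in (0 : ℝ)..(s 1), t * (GG s (rr s t) ^ 2 + 4 * rr s t * GG s (rr s t) * t) with hC'
  have hC'0 : 0 ≤ C' := by
    refine intervalIntegral.integral_nonneg hs.pos.le fun t ht => ?_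
    have h1 := (rr_mem hs t).1
    have h2 := (ub_G hs t).1
    have h3 := ht.1
    positivity
  refine ⟨4 * Real.pi * C', by positivity, fun ε hε K hK => ?_⟩
  have hkey : 2 * ε ^ 2 * ∫ t in (0 : ℝ)..(s 1), t * hh s ε t = 4 * ε ^ 2 * (I1 s + ε ^ 2 * C') := by
    rw [← rr_layer hs, hC', ← intervalIntegral.integral_const_mul (ε ^ 2),
      ← intervalIntegral.integral_add, ← intervalIntegral.integral_const_mul,
      ← intervalIntegral.integral_const_mul]
    · refine intervalIntegral.integral_congr fun t _ => ?_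
      show 2 * ε ^ 2 * (t * hh s ε t) = 4 * ε ^ 2 * (t * (1 - rr s t ^ 2) +
        ε ^ 2 * (t * (GG s (rr s t) ^ 2 + 4 * rr s t * GG s (rr s t) * t)))
      unfold hh
      ring
    · rw [intervalIntegrable_iff_integrableOn_Ioc_of_le hs.pos.le]
      refine ub_int hs (by fun_prop) (B := s 1 * 1) fun t ht => ?_
      obtain ⟨h0, h1⟩ := rr_mem hs t
      have h3 : rr s t ^ 2 ≤ 1 := pow_le_one₀ h0 h1
      rw [abs_mul, abs_of_pos ht.1]
      refine mul_le_mul ht.2 ?_ (abs_nonneg _) hs.pos.le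
      rw [abs_of_nonneg (by linarith)]
      have := sq_nonneg (rr s t)
      linarith
    · rw [intervalIntegrable_iff_integrableOn_Ioc_of_le hs.pos.le]
      refine ub_int hs (by fun_prop)
        (B := ε ^ 2 * (s 1 * (GG s 0 ^ 2 + 4 * 1 * GG s 0 * s 1))) fun t ht => ?_
      obtain ⟨h0, h1⟩ := rr_mem hs t
      obtain ⟨h2, h3⟩ := ub_G hs t
      have ht0 := ht.1
      have ht1 := ht.2
      have hs10 : 0 ≤ s 1 := hs.pos.le
      rw [abs_of_nonneg (by positivity)]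
      gcongr
  set κ : ℝ := 4 * ε ^ 2 * (I1 s + ε ^ 2 * C') with hκ
  have hF := F_kset hs ε hε K hK
  have hI : Integrable (Function.uncurry (qF s ε))
      ((volume.restrict (Ioi (0 : ℝ))).prod (volume.restrict (Ioi (0 : ℝ)))) := by
    rw [Measure.prod_restrict]
    exact qF_integrable hs ε hε
  have hswap := integral_integral_swap hI
  obtain ⟨g0, G0⟩ := ub_gam 0
  obtain ⟨g1, G1⟩ := ub_gam 1
  obtain ⟨g2, G2⟩ := ub_gam 2
  have hle : ∫ Y in Ioi (0 : ℝ), ∫ X in Ioi (0 : ℝ), qF s ε X Y ≤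
      ∫ Y in Ioi (0 : ℝ), (κ * (Real.exp (-Y) * Y ^ 2) +
        2 * (Real.exp (-Y) * Y ^ 0 - Real.exp (-Y) * Y ^ 1)) := by
    refine integral_mono_ae hI.integral_prod_right
      ((g2.const_mul κ).add ((g0.sub g1).const_mul 2)) ?_
    filter_upwards [hI.prod_left_ae, ae_restrict_mem measurableSet_Ioi] with Y hY hY0
    have hY0' : (0 : ℝ) < Y := hY0
    obtain ⟨hi, hv⟩ := ub_sub hs hε hY0'
    have hr1 : Integrable (fun X => Real.exp (-Y) * Y * hh s ε (Real.sqrt (X / Y) / ε))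
        (volume.restrict (Ioi (0 : ℝ))) := hi.const_mul _
    have hr2 : Integrable (fun X : ℝ => 2 * (Real.exp (-Y) * (Real.exp (-X) * X ^ 1 -
        Y * (Real.exp (-X) * X ^ 0)))) (volume.restrict (Ioi (0 : ℝ))) :=
      ((g1.sub (g0.const_mul Y)).const_mul _).const_mul 2
    have h1 : ∫ X in Ioi (0 : ℝ), qF s ε X Y ≤
        ∫ X in Ioi (0 : ℝ), (Real.exp (-Y) * Y * hh s ε (Real.sqrt (X / Y) / ε) +
          2 * (Real.exp (-Y) * (Real.exp (-X) * X ^ 1 - Y * (Real.exp (-X) * X ^ 0)))) := by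
      refine integral_mono_ae hY (hr1.add hr2) ?_
      filter_upwards [ae_restrict_mem measurableSet_Ioi] with X hX
      exact ub_pt hs hε hX hY0'
    refine h1.trans (le_of_eq ?_)
    rw [integral_add hr1 hr2, integral_const_mul, hv, integral_const_mul, integral_const_mul,
      integral_sub g1 (g0.const_mul Y), integral_const_mul, G1, G0, ← hkey]
    simp only [Nat.factorial]
    push_cast
    ring
  have hval : ∫ Y in Ioi (0 : ℝ), (κ * (Real.exp (-Y) * Y ^ 2) +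
        2 * (Real.exp (-Y) * Y ^ 0 - Real.exp (-Y) * Y ^ 1)) = 2 * κ := by
    have hr3 : Integrable (fun Y : ℝ => 2 * (Real.exp (-Y) * Y ^ 0 - Real.exp (-Y) * Y ^ 1))
        (volume.restrict (Ioi (0 : ℝ))) := (g0.sub g1).const_mul 2
    rw [integral_add (g2.const_mul κ) hr3, integral_const_mul,
      integral_const_mul, integral_sub g0 g1, G0, G1, G2]
    simp only [Nat.factorial]
    push_cast
    ring
  have hπ := Real.pi_pos
  have h3 : 2 * Real.pi * F K ≤ Real.pi ^ 2 * (2 * κ) := by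
    rw [hF, hswap]
    refine mul_le_mul_of_nonneg_left ?_ (by positivity)
    rw [← hval]
    exact hle
  have h4 : F K ≤ Real.pi * κ := by
    have h5 : Real.pi ^ 2 * (2 * κ) = 2 * Real.pi * (Real.pi * κ) := by ring
    rw [h5] at h3
    exact le_of_mul_le_mul_left h3 (by positivity)
  refine h4.trans (le_of_eq ?_)
  rw [hκ]
  ring

end Pool.Agent.HAS
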