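import Pool.Agent.HAS.GeDefs

/-! # Definitions for the upper bound -/

set_option autoImplicit false

namespace Pool.Agent.HAS

open MeasureTheory Metric Set
open Pool.Agent.Helper85.Herm Pool.Agent.Helper85.Cap Pool.Agent.HVM

/-- the profile with slope `-s` -/
noncomputable def GG (s : ℝ → ℝ) (r : ℝ) : ℝ := ∫ t in r..1, s t

/-- the body of revolution with profile `ε GG` -/
def kset (s : ℝ → ℝ) (ε : ℝ) : Set C2 := {w | ‖p1 w‖ ≤ 1 ∧ ‖p2 w‖ ≤ ε * GG s ‖p1 w‖}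

/-- the generalised inverse of `s` -/
noncomputable def rr (s : ℝ → ℝ) (t : ℝ) : ℝ := sSup ({0} ∪ {r | 0 ≤ r ∧ r ≤ 1 ∧ s r ≤ t})

/-- slopes: continuous, monotone, nonnegative, not zero at 1 -/
structure Slope (s : ℝ → ℝ) : Prop where
  cont : Continuous s
  mono : Monotone s
  nonneg : ∀ r, 0 ≤ s r
  pos : 0 < s 1

/-- `∫ s² r` -/
noncomputable def I1 (s : ℝ → ℝ) : ℝ := ∫ r in (0 : ℝ)..1, s r ^ 2 * r

/-- `∫ g² r` -/
noncomputable def I0 (s : ℝ → ℝ) : ℝ := ∫ r in (0 : ℝ)..1, GG s r ^ 2 * r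

end Pool.Agent.HAS
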